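import Pool.Agent.Lib.MP_1e3767_al.Form

set_option linter.unusedSectionVars false

namespace Pool.Agent.Lib.MP_1e3767_al

open Finset

namespace RD
variable {I ι W : Type*} [Fintype I] [DecidableEq I] [Fintype ι] [Group W] [Fintype W]
  [DistribMulAction W (I → ℝ)] [SMulCommClass W ℝ (I → ℝ)] [MulAction W ι] (R : RD I ι W)

theorem alcA_cf (γ : ι) (c : I → ℝ) (h : R.rt γ = ∑ i, c i • R.rt (R.sr i)) (i : I) :
    (R.cf γ i : ℝ) = c i := by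
  have h2 : ∑ j, ((R.cf γ j : ℝ) - c j) • R.rt (R.sr j) = 0 := by
    simp only [sub_smul, sum_sub_distrib]
    rw [← R.rt_eq γ, ← h, sub_self]
  have := Fintype.linearIndependent_iff.1 R.sr_indep _ h2 i
  linarith

theorem alcA_cf_s (β γ : ι) (i : I) :
    (R.cf (R.s β • γ) i : ℝ) = R.cf γ i - R.cv β (R.rt γ) * R.cf β i := by
  refine alcA_cf R _ (fun j => R.cf γ j - R.cv β (R.rt γ) * R.cf β j) ?_ i
  simp only [sub_smul, sum_sub_distrib, mul_smul]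
  rw [← smul_sum, ← R.rt_eq γ, ← R.rt_eq β, R.rt_s_smul]

theorem alcA_phi (φ : (I → ℝ) →ₗ[ℝ] ℝ) (β : ι) :
    φ (R.rt β) = ∑ i, (R.cf β i : ℝ) * φ (R.rt (R.sr i)) := by
  conv_lhs => rw [R.rt_eq β]
  simp [map_sum]

theorem alcA_zero_pos (φ : (I → ℝ) →ₗ[ℝ] ℝ) (h0 : ∀ i, 0 ≤ φ (R.rt (R.sr i)))
    (c : I → ℝ) (hc : ∀ i, 0 ≤ c i) (h : ∑ i, c i * φ (R.rt (R.sr i)) ≤ 0) {j : I}
    (hj : 0 < φ (R.rt (R.sr j))) : c j = 0 := by
  have hnn : ∀ i ∈ (univ : Finset I), 0 ≤ c i * φ (R.rt (R.sr i)) :=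
    fun i _ => mul_nonneg (hc i) (h0 i)
  have h2 := (sum_eq_zero_iff_of_nonneg hnn).1 (le_antisymm h (sum_nonneg hnn)) j (mem_univ j)
  rcases mul_eq_zero.1 h2 with h3 | h3
  · exact h3
  · exact absurd h3 hj.ne'

theorem alcA_zero (φ : (I → ℝ) →ₗ[ℝ] ℝ) (h0 : ∀ i, 0 ≤ φ (R.rt (R.sr i))) {γ : ι}
    (h : φ (R.rt γ) = 0) {j : I} (hj : 0 < φ (R.rt (R.sr j))) : (R.cf γ j : ℝ) = 0 := by
  rw [alcA_phi] at h
  by_cases hγ : γ ∈ R.Pos
  · exact alcA_zero_pos R φ h0 (fun i => (R.cf γ i : ℝ))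
      (fun i => by exact_mod_cast R.pos_cf γ hγ i) h.le hj
  · have := alcA_zero_pos R φ h0 (fun i => -(R.cf γ i : ℝ))
      (fun i => by have := R.neg_cf γ hγ i; simp; exact_mod_cast this)
      (by simp only [neg_mul, sum_neg_distrib, h]; simp) hj
    linarith

theorem alcA_mem_pos {β θ : ι} (hβ : β ∈ R.Pos) (h : ∀ i, R.cf β i ≤ R.cf θ i) :
    θ ∈ R.Pos := by
  by_contra hθ
  apply R.rt_ne_zero θ
  rw [R.rt_eq θ]
  refine sum_eq_zero fun i _ => ?_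
  have h1 := R.pos_cf β hβ i
  have h2 := R.neg_cf θ hθ i
  have h3 := h i
  have : R.cf θ i = 0 := by omega
  simp [this]

theorem alcA_dom {β : ι} (hβ : β ∈ R.Pos) :
    ∃ θ ∈ R.Pos, Dom (R.rt θ) ∧ ∀ i, R.cf β i ≤ R.cf θ i := by
  classical
  obtain ⟨θ, hθ, hmax⟩ := exists_max_image (univ.filter fun θ : ι => ∀ i, R.cf β i ≤ R.cf θ i)
    (fun θ => ∑ i, (R.cf θ i : ℝ)) ⟨β, by simp⟩
  have hθ' : ∀ i, R.cf β i ≤ R.cf θ i := (mem_filter.1 hθ).2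
  refine ⟨θ, alcA_mem_pos R hβ hθ', fun i => ?_, hθ'⟩
  by_contra hneg
  push Not at hneg
  have hcf : ∀ j, (R.cf (R.s (R.sr i) • θ) j : ℝ)
      = R.cf θ j - R.rt θ i * ((Pi.single i 1 : I → ℤ) j : ℝ) := fun j => by
    rw [alcA_cf_s, R.cv_sr, R.cf_sr]
  have hle : ∀ j, (R.cf θ j : ℝ) ≤ R.cf (R.s (R.sr i) • θ) j := fun j => by
    rw [hcf]
    by_cases hj : j = i
    · subst hj; simp; linarith
    · simp [hj]
  have hlt : (R.cf θ i : ℝ) < R.cf (R.s (R.sr i) • θ) i := by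
    rw [hcf]; simp; linarith
  have h1 := hmax (R.s (R.sr i) • θ) (mem_filter.2 ⟨mem_univ _, fun j =>
    (hθ' j).trans (by exact_mod_cast hle j)⟩)
  have h2 : ∑ j, (R.cf θ j : ℝ) < ∑ j, (R.cf (R.s (R.sr i) • θ) j : ℝ) :=
    sum_lt_sum (fun j _ => hle j) ⟨i, mem_univ _, hlt⟩
  exact absurd h1 (not_le.2 h2)

theorem alcA_sr_nonpos {i j : I} (hij : i ≠ j) : R.rt (R.sr i) j ≤ 0 := by
  have h1 : R.s (R.sr j) • R.sr i ∈ R.Pos :=
    R.s_sr_mem_Pos (R.sr_pos i) (fun h => hij (R.sr_inj h))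
  have h2 : (0 : ℝ) ≤ R.cf (R.s (R.sr j) • R.sr i) j := by exact_mod_cast R.pos_cf _ h1 j
  rw [alcA_cf_s, R.cv_sr, R.cf_sr, R.cf_sr] at h2
  simp [hij.symm] at h2
  exact h2

theorem alcA_sr_symm {i j : I} (h : R.rt (R.sr i) j = 0) : R.rt (R.sr j) i = 0 := by
  have h1 := R.dd_symm (R.sr i) (R.sr j)
  rw [R.cv_sr, R.cv_sr, h, mul_zero] at h1
  rcases mul_eq_zero.1 h1.symm with h2 | h2
  · exact absurd h2 (R.dd_pos _).ne'
  · exact h2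

theorem alcA_rt_apply (β : ι) (j : I) :
    R.rt β j = ∑ i, (R.cf β i : ℝ) * R.rt (R.sr i) j := by
  conv_lhs => rw [R.rt_eq β]
  simp [Finset.sum_apply]

/-- orthogonal dominant positive roots have disjoint supports -/
theorem alcA_orth {θ θ' : ι} (hp : θ' ∈ R.Pos) (hd : Dom (R.rt θ)) (hd' : Dom (R.rt θ'))
    (h : R.cv θ' (R.rt θ) = 0) {i : I} (hi : R.cf θ' i ≠ 0) : R.cf θ i = 0 := by
  classical
  have hz : ∀ a, R.cf θ' a ≠ 0 → R.rt θ a = 0 := fun a ha => by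
    have hnn : ∀ b ∈ (univ : Finset I), 0 ≤ (R.co θ' b : ℝ) * R.rt θ b :=
      fun b _ => mul_nonneg (by exact_mod_cast R.pos_co θ' hp b) (hd b)
    have h2 := (sum_eq_zero_iff_of_nonneg hnn).1 h a (mem_univ a)
    rcases mul_eq_zero.1 h2 with h3 | h3
    · have h4 := R.dd_co θ' a
      rw [h3, mul_zero] at h4
      rcases mul_eq_zero.1 h4.symm with h5 | h5
      · exact absurd (by exact_mod_cast h5) ha
      · exact absurd h5 (R.dd_pos _).ne'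
    · exact h3
  have hadj : ∀ a b, R.cf θ' a ≠ 0 → R.cf θ' b = 0 → R.rt (R.sr a) b = 0 := fun a b ha hb => by
    have hnp : ∀ c ∈ (univ : Finset I), (R.cf θ' c : ℝ) * R.rt (R.sr c) b ≤ 0 := fun c _ => by
      by_cases hc : c = b
      · subst hc; simp [hb]
      · exact mul_nonpos_of_nonneg_of_nonpos (by exact_mod_cast R.pos_cf θ' hp c)
          (alcA_sr_nonpos R hc)
    have h1 : ∑ c, (R.cf θ' c : ℝ) * R.rt (R.sr c) b = 0 :=
      le_antisymm (sum_nonpos hnp) (by rw [← alcA_rt_apply]; exact hd' b)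
    have h2 := (sum_eq_zero_iff_of_nonpos hnp).1 h1 a (mem_univ a)
    rcases mul_eq_zero.1 h2 with h3 | h3
    · exact absurd (by exact_mod_cast h3) ha
    · exact h3
  have h1 : ∑ a, (if R.cf θ' a = 0 then (0 : ℝ) else R.cf θ a) • R.rt (R.sr a) = 0 := by
    funext b
    simp only [Finset.sum_apply, Pi.smul_apply, smul_eq_mul, Pi.zero_apply]
    by_cases hb : R.cf θ' b = 0
    · refine sum_eq_zero fun a _ => ?_
      by_cases ha : R.cf θ' a = 0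
      · simp [ha]
      · simp [hadj a b ha hb]
    · rw [← hz b hb, alcA_rt_apply]
      refine sum_congr rfl fun a _ => ?_
      by_cases ha : R.cf θ' a = 0
      · simp [ha, alcA_sr_symm R (hadj b a hb ha)]
      · simp [ha]
  have h2 := Fintype.linearIndependent_iff.1 R.sr_indep _ h1 i
  simpa [hi] using h2

theorem alcA_le_two (φ : (I → ℝ) →ₗ[ℝ] ℝ) (h1 : ∀ β, φ (R.rt β) ≤ 1) {θ θ' : ι}
    (ha : φ (R.rt θ) = 1) (hb : φ (R.rt θ') = 1) : R.cv θ' (R.rt θ) ≤ 2 := by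
  have := h1 (R.ng (R.s θ' • θ))
  rw [R.rt_ng, R.rt_s_smul, map_neg, map_sub, map_smul, ha, hb, smul_eq_mul] at this
  linarith

theorem alcA_one (φ : (I → ℝ) →ₗ[ℝ] ℝ) (h0 : ∀ i, 0 ≤ φ (R.rt (R.sr i))) {θ θ' : ι}
    (ha : φ (R.rt θ) = 1) (hb : φ (R.rt θ') = 1) (h : R.cv θ' (R.rt θ) = 1) {j : I}
    (hj : 0 < φ (R.rt (R.sr j))) : (R.cf θ j : ℝ) = R.cf θ' j := by
  have h2 : φ (R.rt (R.s θ' • θ)) = 0 := by
    rw [R.rt_s_smul, map_sub, map_smul, ha, hb, h]; simp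
  have h3 := alcA_zero R φ h0 h2 hj
  rw [alcA_cf_s, h] at h3
  linarith

theorem alcA_pair (φ : (I → ℝ) →ₗ[ℝ] ℝ) (h0 : ∀ i, 0 ≤ φ (R.rt (R.sr i)))
    (h1 : ∀ β, φ (R.rt β) ≤ 1) {θ θ' : ι} (ha : φ (R.rt θ) = 1) (hb : φ (R.rt θ') = 1)
    (h : 0 < R.cv θ' (R.rt θ)) {j : I} (hj : 0 < φ (R.rt (R.sr j))) :
    (R.cf θ j : ℝ) = R.cf θ' j := by
  have hs := R.dd_symm θ θ'
  have hd := R.dd_pos θ
  have hd' := R.dd_pos θ'
  have h' : 0 < R.cv θ (R.rt θ') := by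
    by_contra hc
    push Not at hc
    nlinarith [mul_pos hd' h, mul_nonneg hd.le (neg_nonneg.2 hc)]
  obtain ⟨n, hn⟩ := R.cv_int θ' (R.intV_rt θ)
  obtain ⟨n', hn'⟩ := R.cv_int θ (R.intV_rt θ')
  have l1 := alcA_le_two R φ h1 ha hb
  have l2 := alcA_le_two R φ h1 hb ha
  rw [hn] at h l1
  rw [hn'] at h' l2
  have a1 : 0 < n := by exact_mod_cast h
  have a2 : n ≤ 2 := by exact_mod_cast l1
  have a3 : 0 < n' := by exact_mod_cast h'
  have a4 : n' ≤ 2 := by exact_mod_cast l2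
  by_cases e1 : n = 1
  · exact alcA_one R φ h0 ha hb (by rw [hn, e1]; simp) hj
  by_cases e2 : n' = 1
  · exact (alcA_one R φ h0 hb ha (by rw [hn', e2]; simp) hj).symm
  have e3 : n = 2 := by omega
  have e4 : n' = 2 := by omega
  have hq : R.QQ (R.rt θ - R.rt θ') (R.rt θ - R.rt θ') ≤ 0 := by
    rw [R.QQ_sub_left, R.QQ_rt, R.QQ_rt, map_sub, map_sub, R.cv_self, R.cv_self, hn, hn', e3, e4]
    simp
  have := R.rt_inj (sub_eq_zero.1 (R.eq_zero_of_QQ hq))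
  rw [this]

/-- two positive roots on the wall have equal or disjoint coefficients where `φ` is positive -/
theorem alcA_top (φ : (I → ℝ) →ₗ[ℝ] ℝ) (h0 : ∀ i, 0 ≤ φ (R.rt (R.sr i)))
    (h1 : ∀ β, φ (R.rt β) ≤ 1) {β : ι} (hp : β ∈ R.Pos) (hb : φ (R.rt β) = 1) :
    ∃ θ ∈ R.Pos, Dom (R.rt θ) ∧ φ (R.rt θ) = 1 ∧
      ∀ j, 0 < φ (R.rt (R.sr j)) → (R.cf θ j : ℝ) = R.cf β j := by
  obtain ⟨θ, hθ, hd, hle⟩ := alcA_dom R hp
  have hc : ∀ i, (0 : ℝ) ≤ (R.cf θ i : ℝ) - R.cf β i := fun i => by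
    have : (R.cf β i : ℝ) ≤ R.cf θ i := by exact_mod_cast hle i
    linarith
  have hsum : ∑ i, ((R.cf θ i : ℝ) - R.cf β i) * φ (R.rt (R.sr i)) = φ (R.rt θ) - 1 := by
    rw [← hb, alcA_phi R φ θ, alcA_phi R φ β, ← sum_sub_distrib]
    exact sum_congr rfl fun i _ => by ring
  have hnn : 0 ≤ ∑ i, ((R.cf θ i : ℝ) - R.cf β i) * φ (R.rt (R.sr i)) :=
    sum_nonneg fun i _ => mul_nonneg (hc i) (h0 i)
  have h2 := h1 θ
  refine ⟨θ, hθ, hd, by linarith, fun j hj => ?_⟩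
  have := alcA_zero_pos R φ h0 _ hc (by linarith) hj
  linarith

theorem alcA_dich (φ : (I → ℝ) →ₗ[ℝ] ℝ) (h0 : ∀ i, 0 ≤ φ (R.rt (R.sr i)))
    (h1 : ∀ β, φ (R.rt β) ≤ 1) {β β' : ι} (hp : β ∈ R.Pos) (hp' : β' ∈ R.Pos)
    (hb : φ (R.rt β) = 1) (hb' : φ (R.rt β') = 1) :
    (∀ j, 0 < φ (R.rt (R.sr j)) → (R.cf β j : ℝ) = R.cf β' j) ∨
      ∀ j, 0 < φ (R.rt (R.sr j)) → (R.cf β' j : ℝ) ≠ 0 → (R.cf β j : ℝ) = 0 := by
  obtain ⟨θ, -, hd, e, hc⟩ := alcA_top R φ h0 h1 hp hb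
  obtain ⟨θ', hθ', hd', e', hc'⟩ := alcA_top R φ h0 h1 hp' hb'
  rcases (R.cv_nonneg hθ' hd).lt_or_eq with h | h
  · exact Or.inl fun j hj => by
      rw [← hc j hj, ← hc' j hj]; exact alcA_pair R φ h0 h1 e e' h hj
  · refine Or.inr fun j hj hne => ?_
    rw [← hc' j hj] at hne
    rw [← hc j hj]
    exact_mod_cast alcA_orth R hθ' hd hd' h.symm (by exact_mod_cast hne)

/-- a functional killing the positive roots with value zero or one vanishes -/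
theorem alcA_kill (φ : (I → ℝ) →ₗ[ℝ] ℝ) (h0 : ∀ i, 0 ≤ φ (R.rt (R.sr i)))
    (h1 : ∀ β, φ (R.rt β) ≤ 1)
    (hs : Submodule.span ℝ (R.rt '' {γ | ∃ z : ℤ, φ (R.rt γ) = z}) = ⊤)
    (ψ : (I → ℝ) →ₗ[ℝ] ℝ) (hz : ∀ β, φ (R.rt β) = 0 → ψ (R.rt β) = 0)
    (ho : ∀ β ∈ R.Pos, φ (R.rt β) = 1 → ψ (R.rt β) = 0) : ψ = 0 := by
  have key : ∀ β ∈ R.Pos, ∀ z : ℤ, φ (R.rt β) = z → ψ (R.rt β) = 0 := fun β hβ z hz' => by
    have a1 : 0 ≤ φ (R.rt β) := by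
      rw [alcA_phi]
      exact sum_nonneg fun i _ => mul_nonneg (by exact_mod_cast R.pos_cf β hβ i) (h0 i)
    have a2 := h1 β
    rw [hz'] at a1 a2
    have b1 : 0 ≤ z := by exact_mod_cast a1
    have b2 : z ≤ 1 := by exact_mod_cast a2
    rcases (by omega : z = 0 ∨ z = 1) with e | e
    · exact hz β (by rw [hz', e]; simp)
    · exact ho β hβ (by rw [hz', e]; simp)
  refine LinearMap.ext_on hs ?_
  rintro _ ⟨γ, ⟨z, hz'⟩, rfl⟩
  by_cases hγ : γ ∈ R.Pos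
  · exact key γ hγ z hz'
  · have := key (R.ng γ) ((R.ng_mem_Pos γ).2 hγ) (-z) (by rw [R.rt_ng, map_neg, hz']; simp)
    rw [R.rt_ng, map_neg, neg_eq_zero] at this
    exact this

theorem alcA_coord (i : I) : ∃ X : (I → ℝ) →ₗ[ℝ] ℝ, ∀ β, X (R.rt β) = R.cf β i := by
  let b := Module.Basis.mk R.sr_indep R.span_sr.ge
  refine ⟨b.coord i, fun β => ?_⟩
  have hb : ∀ j, R.rt (R.sr j) = b j := fun j => by simp [b]
  rw [R.rt_eq β]
  simp only [hb]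
  simp [Module.Basis.coord_apply, Finsupp.single_apply]

/-- a point of the closed fundamental alcove lying on a spanning set of affine walls -/
theorem alcove_fund {k : ℕ} (hk : R.KDiv k) (φ : (I → ℝ) →ₗ[ℝ] ℝ)
    (h0 : ∀ i, 0 ≤ φ (R.rt (R.sr i))) (h1 : ∀ β, φ (R.rt β) ≤ 1)
    (hs : Submodule.span ℝ (R.rt '' {γ | ∃ z : ℤ, φ (R.rt γ) = z}) = ⊤) (i : I) :
    ∃ z : ℤ, k * φ (R.rt (R.sr i)) = z := by
  rcases (h0 i).lt_or_eq with hi | hi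
  swap
  · exact ⟨0, by rw [← hi]; simp⟩
  choose X hX using alcA_coord R
  have hsr : ∀ a b, X a (R.rt (R.sr b)) = if a = b then 1 else 0 := fun a b => by
    rw [hX, R.cf_sr]
    by_cases hab : a = b
    · subst hab; simp
    · simp [hab]
  obtain ⟨θ, hθ, e, hne⟩ : ∃ θ ∈ R.Pos, φ (R.rt θ) = 1 ∧ (R.cf θ i : ℝ) ≠ 0 := by
    by_contra hc
    push Not at hc
    have := alcA_kill R φ h0 h1 hs (X i) (fun β hβ => by rw [hX]; exact alcA_zero R φ h0 hβ hi)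
      (fun β hβ hb => by rw [hX]; exact hc β hβ hb)
    have h2 := hsr i i
    rw [this] at h2
    simp at h2
  have hoth : ∀ j, j ≠ i → (R.cf θ j : ℝ) * φ (R.rt (R.sr j)) = 0 := fun j hji => by
    rcases (h0 j).lt_or_eq with hj | hj
    swap
    · rw [← hj, mul_zero]
    by_contra hc
    have hne' : (R.cf θ j : ℝ) ≠ 0 := fun h => hc (by rw [h, zero_mul])
    have := alcA_kill R φ h0 h1 hs ((R.cf θ j : ℝ) • X i - (R.cf θ i : ℝ) • X j)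
      (fun β hβ => by
        simp [hX, alcA_zero R φ h0 hβ hi, alcA_zero R φ h0 hβ hj])
      (fun β hβ hb => by
        simp only [LinearMap.sub_apply, LinearMap.smul_apply, hX, smul_eq_mul]
        rcases alcA_dich R φ h0 h1 hβ hθ hb e with h | h
        · rw [h i hi, h j hj]; ring
        · rw [h i hi hne, h j hj hne']; ring)
    have h2 := congrArg (fun f : (I → ℝ) →ₗ[ℝ] ℝ => f (R.rt (R.sr i))) this
    simp only [LinearMap.sub_apply, LinearMap.smul_apply, hsr, smul_eq_mul] at h2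
    simp [hji] at h2
    exact hne' (by exact_mod_cast h2)
  have hone : (R.cf θ i : ℝ) * φ (R.rt (R.sr i)) = 1 := by
    rw [← e, alcA_phi R φ θ, sum_eq_single i (fun j _ hj => hoth j hj) (by simp)]
  obtain ⟨z, hz⟩ := hk θ i (by exact_mod_cast hne)
  refine ⟨z, ?_⟩
  have h3 : (k : ℝ) = R.cf θ i * z := by exact_mod_cast hz
  rw [h3, mul_right_comm, hone, one_mul]

/-- reals of bounded square in a coset of the integers form a finite set -/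
theorem alcove_coset_finite (c B : ℝ) :
    {x : ℝ | (∃ z : ℤ, x = c + z) ∧ x ^ 2 ≤ B}.Finite := by
  have hfin : (Set.Icc ⌊-(B + 1) - c⌋ ⌈B + 1 - c⌉ : Set ℤ).Finite := Set.finite_Icc _ _
  refine (hfin.image (fun z : ℤ => c + (z : ℝ))).subset ?_
  rintro x ⟨⟨z, rfl⟩, hx⟩
  refine ⟨z, ⟨?_, ?_⟩, rfl⟩
  · have h1 : -(B + 1) - c ≤ z := by nlinarith [sq_nonneg (c + z + 1)]
    have h2 := Int.floor_le_floor h1
    rwa [Int.floor_intCast] at h2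
  · have h1 : (z : ℝ) ≤ B + 1 - c := by nlinarith [sq_nonneg (c + z - 1)]
    have h2 := Int.ceil_le_ceil h1
    rwa [Int.ceil_intCast] at h2

/-- the squared norm after a translation by a coroot -/
theorem alcove_norm_sub (ψ : (I → ℝ) →ₗ[ℝ] ℝ) (δ : ι) :
    ∑ γ, (ψ - R.cv δ) (R.rt γ) ^ 2 =
      ∑ γ, ψ (R.rt γ) ^ 2 + R.KK δ δ * (1 - ψ (R.rt δ)) := by
  have h := R.sum_mul_cv ψ δ
  have e : ∑ γ, (ψ - R.cv δ) (R.rt γ) ^ 2 =
      ∑ γ, ψ (R.rt γ) ^ 2 - 2 * ∑ γ, ψ (R.rt γ) * R.cv δ (R.rt γ) + R.KK δ δ := by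
    unfold RD0.KK
    rw [mul_sum, ← sum_sub_distrib, ← sum_add_distrib]
    refine sum_congr rfl fun γ _ => ?_
    rw [LinearMap.sub_apply]
    ring
  rw [e, h]
  ring

/-- a translate by the coweight classes with all root values at most one -/
theorem alcove_exists_le_one (φ : (I → ℝ) →ₗ[ℝ] ℝ) :
    ∃ ψ : (I → ℝ) →ₗ[ℝ] ℝ, (∀ β, ψ (R.rt β) ≤ 1) ∧
      ∀ β, ∃ z : ℤ, ψ (R.rt β) = φ (R.rt β) + z := by
  set B : ℝ := ∑ γ, φ (R.rt γ) ^ 2 with hB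
  let F : Set (ι → ℝ) := {g | (∃ ψ : (I → ℝ) →ₗ[ℝ] ℝ, (∀ β, g β = ψ (R.rt β)) ∧
    ∀ β, ∃ z : ℤ, ψ (R.rt β) = φ (R.rt β) + z) ∧ ∑ γ, g γ ^ 2 ≤ B}
  have hF : F.Finite := by
    refine (Set.Finite.pi' (fun β => alcove_coset_finite (φ (R.rt β)) B)).subset ?_
    rintro g ⟨⟨ψ, hg, hψ⟩, hN⟩ β
    refine ⟨?_, ?_⟩
    · rw [hg]
      exact hψ β
    · exact (single_le_sum (f := fun γ => g γ ^ 2) (fun γ _ => sq_nonneg _)
        (mem_univ β)).trans hN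
  have hne : F.Nonempty :=
    ⟨fun β => φ (R.rt β), ⟨φ, fun _ => rfl, fun β => ⟨0, by simp⟩⟩, le_rfl⟩
  obtain ⟨g, ⟨⟨ψ, hg, hψ⟩, hN⟩, hmin⟩ :=
    Set.exists_min_image F (fun g => ∑ γ, g γ ^ 2) hF hne
  refine ⟨ψ, fun δ => ?_, hψ⟩
  by_contra hlt
  push Not at hlt
  have hg' : ∑ γ, g γ ^ 2 = ∑ γ, ψ (R.rt γ) ^ 2 := sum_congr rfl fun γ _ => by rw [hg]
  have hK := R.KK_self_pos δ
  have hs := R.alcove_norm_sub ψ δ
  have hneg : R.KK δ δ * (1 - ψ (R.rt δ)) < 0 := mul_neg_of_pos_of_neg hK (by linarith)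
  have hmem : (fun β => (ψ - R.cv δ) (R.rt β)) ∈ F := by
    refine ⟨⟨ψ - R.cv δ, fun _ => rfl, fun β => ?_⟩, ?_⟩
    · obtain ⟨z, hz⟩ := hψ β
      obtain ⟨y, hy⟩ := R.cv_int δ (R.intV_rt β)
      refine ⟨z - y, ?_⟩
      rw [LinearMap.sub_apply, hz, hy]
      push_cast
      ring
    · change ∑ γ, (ψ - R.cv δ) (R.rt γ) ^ 2 ≤ B
      linarith
  have h2 : ∑ γ, g γ ^ 2 ≤ ∑ γ, (ψ - R.cv δ) (R.rt γ) ^ 2 := hmin _ hmem
  linarith

/-- every point is conjugate under the affine Weyl group to the fundamental alcove -/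
theorem exists_fund (φ : (I → ℝ) →ₗ[ℝ] ℝ) :
    ∃ (w : W) (ψ : (I → ℝ) →ₗ[ℝ] ℝ), (∀ i, 0 ≤ ψ (R.rt (R.sr i))) ∧ (∀ β, ψ (R.rt β) ≤ 1) ∧
      ∀ β, ∃ z : ℤ, ψ (R.rt β) = φ (R.rt (w • β)) + z := by
  obtain ⟨ψ, h1, hψ⟩ := R.alcove_exists_le_one φ
  obtain ⟨w, hw⟩ := Finite.exists_max (fun w : W => ψ (w • (rho : I → ℝ)))
  have hap : ∀ β, (ψ ∘ₗ DistribSMul.toLinearMap ℝ (I → ℝ) w) (R.rt β) =
      ψ (R.rt (w • β)) := fun β => by
    rw [R.smul_rt]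
    rfl
  refine ⟨w, ψ ∘ₗ DistribSMul.toLinearMap ℝ (I → ℝ) w, fun i => ?_, fun β => ?_,
    fun β => ?_⟩
  · have h := hw (w * R.s (R.sr i))
    have e : (w * R.s (R.sr i)) • (rho : I → ℝ) = w • rho - R.rt (w • R.sr i) := by
      rw [mul_smul, R.s_sr_smul, smul_sub, R.smul_rt]
      simp [rho]
    simp only [e, map_sub] at h
    rw [hap]
    linarith
  · rw [hap]
    exact h1 _
  · rw [hap]
    exact hψ _

theorem alcove {k : ℕ} (hk : R.KDiv k) (φ : (I → ℝ) →ₗ[ℝ] ℝ)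
    (hs : Submodule.span ℝ (R.rt '' {γ | ∃ z : ℤ, φ (R.rt γ) = z}) = ⊤) {q : I → ℝ}
    (hq : R.InQ q) : ∃ z : ℤ, k * φ q = z := by
  obtain ⟨w, ψ, h0, h1, hψ⟩ := R.exists_fund φ
  have hs' : Submodule.span ℝ (R.rt '' {γ | ∃ z : ℤ, ψ (R.rt γ) = z}) = ⊤ := by
    rw [eq_top_iff]
    intro v _
    have hv : w • v ∈ Submodule.span ℝ (R.rt '' {γ | ∃ z : ℤ, φ (R.rt γ) = z}) := by
      rw [hs]
      trivial
    have h2 := Submodule.mem_map_of_mem (f := DistribSMul.toLinearMap ℝ (I → ℝ) w⁻¹) hv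
    rw [Submodule.map_span] at h2
    have e : DistribSMul.toLinearMap ℝ (I → ℝ) w⁻¹ (w • v) = v := inv_smul_smul w v
    rw [e] at h2
    refine Submodule.span_mono ?_ h2
    rintro _ ⟨_, ⟨γ, ⟨z, hz⟩, rfl⟩, rfl⟩
    obtain ⟨y, hy⟩ := hψ (w⁻¹ • γ)
    refine ⟨w⁻¹ • γ, ⟨z + y, ?_⟩, R.smul_rt _ _⟩
    rw [hy, smul_inv_smul, hz]
    push_cast
    ring
  obtain ⟨c, hc⟩ := R.inQ_smul hq w⁻¹
  have hq' : q = ∑ i, (c i : ℝ) • R.rt (w • R.sr i) := by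
    rw [← smul_inv_smul w q, hc, smul_sum]
    refine sum_congr rfl fun i _ => ?_
    rw [smul_comm w (c i : ℝ), R.smul_rt]
  choose a ha using fun i => R.alcove_fund hk ψ h0 h1 hs' i
  choose y hy using fun i => hψ (R.sr i)
  refine ⟨∑ i, c i * (a i - k * y i), ?_⟩
  rw [hq', map_sum, mul_sum]
  push_cast
  refine sum_congr rfl fun i _ => ?_
  rw [map_smul, smul_eq_mul, ← ha i, hy i]
  ring

/-- coefficients of a root lattice element in a basis of roots -/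
theorem coeff_int_of_isBas {k : ℕ} (hk : R.KDiv k) {L : List ι} (hL : R.IsBas L)
    (c : Fin L.length → ℝ) (hq : R.InQ (∑ j, c j • R.rt (L.get j))) (j : Fin L.length) :
    ∃ z : ℤ, k * c j = z := by
  have hsp : ⊤ ≤ Submodule.span ℝ (Set.range fun j : Fin L.length => R.rt (L.get j)) := by
    rw [← hL.2]
    refine Submodule.span_mono ?_
    rintro _ ⟨γ, hγ, rfl⟩
    obtain ⟨n, rfl⟩ := List.mem_iff_get.1 hγ
    exact ⟨n, rfl⟩
  let b := Module.Basis.mk hL.1 hsp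
  have hb : ∀ n, b.coord j (R.rt (L.get n)) = if n = j then 1 else 0 := fun n => by
    have e : R.rt (L.get n) = b n := (Module.Basis.mk_apply hL.1 hsp n).symm
    rw [e, Module.Basis.coord_apply, Module.Basis.repr_self, Finsupp.single_apply]
  have hs : Submodule.span ℝ (R.rt '' {γ | ∃ z : ℤ, b.coord j (R.rt γ) = z}) = ⊤ := by
    rw [eq_top_iff, ← hL.2]
    refine Submodule.span_mono (Set.image_mono fun γ hγ => ?_)
    obtain ⟨n, rfl⟩ := List.mem_iff_get.1 hγ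
    refine ⟨if n = j then 1 else 0, ?_⟩
    rw [hb]
    split_ifs <;> simp
  obtain ⟨z, hz⟩ := R.alcove hk (b.coord j) hs hq
  refine ⟨z, ?_⟩
  rw [← hz, map_sum]
  simp only [map_smul, hb, smul_eq_mul, mul_ite, mul_one, mul_zero, sum_ite_eq', mem_univ,
    if_true]

end RD

end Pool.Agent.Lib.MP_1e3767_al
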