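import Pool.Agent.Lib.MP_1e3767_al.Len

set_option linter.unusedSectionVars false

namespace Pool.Agent.Lib.MP_1e3767_al

open Finset

namespace RD
variable {I ι W : Type*} [Fintype I] [DecidableEq I] [Fintype ι] [Group W] [Fintype W]
  [DistribMulAction W (I → ℝ)] [SMulCommClass W ℝ (I → ℝ)] [MulAction W ι] (R : RD I ι W)

theorem ex_add (a b : I → ℝ) : (ex (a + b) : GR I) = ex a * ex b := by
  simp [ex, AddMonoidAlgebra.single_mul_single]

theorem ex_zero : (ex 0 : GR I) = 1 := rfl

open Classical in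
theorem coeff_ex (a v : I → ℝ) : (ex a : GR I).coeff v = if a = v then 1 else 0 := by
  simp only [ex, AddMonoidAlgebra.coeff_single, Finsupp.single_apply]

theorem coeff_ex_mul (a v : I → ℝ) (X : GR I) : (ex a * X).coeff v = X.coeff (v - a) := by
  rw [ex, AddMonoidAlgebra.coeff_single_mul_apply, one_mul, neg_add_eq_sub]

theorem coeff_mul_ex (a v : I → ℝ) (X : GR I) : (X * ex a).coeff v = X.coeff (v - a) := by
  rw [mul_comm, coeff_ex_mul]

theorem AA_smul (w : W) (v : I → ℝ) : R.AA (w • v) = R.sgn w • R.AA v := by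
  unfold AA
  rw [smul_sum, ← Equiv.sum_comp (Equiv.mulRight w) (fun u => R.sgn w • R.sgn u • ex (u • v))]
  refine sum_congr rfl fun u _ => ?_
  rw [Equiv.coe_mulRight, smul_smul (R.sgn w), R.sgn_mul, mul_comm (R.sgn u), ← mul_assoc,
    R.sgn_mul_self, one_mul, mul_smul]

theorem AA_s_sr (i : I) (v : I → ℝ) : R.AA (R.s (R.sr i) • v) = -R.AA v := by
  rw [AA_smul, sgn_sr, neg_smul, one_smul]

open Classical in
theorem alt_coeff_AA (v x : I → ℝ) :
    (R.AA v).coeff x = ∑ u : W, if u • v = x then R.sgn u else 0 := by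
  unfold AA
  rw [AddMonoidAlgebra.coeff_sum, Finsupp.finsetSum_apply]
  refine sum_congr rfl fun u _ => ?_
  rw [AddMonoidAlgebra.coeff_smul_apply, coeff_ex, smul_eq_mul, mul_ite, mul_one, mul_zero]

theorem coeff_AA_smul (w : W) (v x : I → ℝ) :
    (R.AA v).coeff (w • x) = R.sgn w * (R.AA v).coeff x := by
  classical
  rw [alt_coeff_AA, alt_coeff_AA, mul_sum, ← Equiv.sum_comp (Equiv.mulLeft w)]
  refine sum_congr rfl fun u _ => ?_
  rw [Equiv.coe_mulLeft, mul_smul, R.sgn_mul, mul_ite, mul_zero]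
  simp only [smul_left_cancel_iff]

open Classical in
theorem coeff_AA_dom {v x : I → ℝ} (hv : Reg v) (hx : Dom x) :
    (R.AA v).coeff x = if v = x then 1 else 0 := by
  rw [alt_coeff_AA, sum_eq_single 1]
  · rw [one_smul, sgn_one]
  · intro u _ hu
    rw [if_neg]
    intro h
    exact hu (R.eq_one_of_reg hv (h ▸ hx))
  · intro h
    exact absurd (mem_univ _) h

theorem AA_ne_zero {v : I → ℝ} (hv : Reg v) : R.AA v ≠ 0 := by
  intro h
  have := R.coeff_AA_dom hv (fun i => (hv i).le)
  rw [h] at this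
  simp at this

theorem alt_sgn {Y : (I → ℝ) → ℂ} (halt : ∀ i x, Y (R.s (R.sr i) • x) = -Y x) (w : W)
    (x : I → ℝ) : Y (w • x) = R.sgn w * Y x := by
  refine R.gen (fun w => Y (w • x) = R.sgn w * Y x) ?_ (fun i w ih => ?_) w
  · rw [one_smul, sgn_one, one_mul]
  · rw [mul_smul, halt, ih, sgn_sr_mul, neg_mul]

theorem alt_reg {Y : (I → ℝ) → ℂ} (halt : ∀ i x, Y (R.s (R.sr i) • x) = -Y x) {x : I → ℝ}
    (hx : Dom x) (h : Y x ≠ 0) : Reg x := by
  intro i
  refine lt_of_le_of_ne (hx i) fun h0 => h ?_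
  have := halt i x
  rw [s_sr_smul, ← h0, zero_smul, sub_zero] at this
  linear_combination this / 2

/-- an alternating element is determined by its regular dominant coefficients -/
theorem eq_AA_of_alt {Y : GR I} {v : I → ℝ} (hv : Reg v)
    (halt : ∀ i x, Y.coeff (R.s (R.sr i) • x) = -Y.coeff x) (h1 : Y.coeff v = 1)
    (h0 : ∀ x, Reg x → Y.coeff x ≠ 0 → x = v) : Y = R.AA v := by
  classical
  have hd : ∀ x, Dom x → Y.coeff x = (R.AA v).coeff x := by
    intro x hx
    rw [R.coeff_AA_dom hv hx]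
    split_ifs with h
    · rw [← h, h1]
    · by_contra hne
      exact h (h0 x (R.alt_reg halt hx hne) hne).symm
  ext x
  obtain ⟨w, hw⟩ := R.exists_dom x
  have h2 := hd _ hw
  rw [R.alt_sgn halt, coeff_AA_smul] at h2
  have h3 := R.sgn_mul_self w
  linear_combination R.sgn w * h2 - (Y.coeff x - (R.AA v).coeff x) * h3

/-- invariant times alternating is alternating -/
theorem coeff_mul_alt {X Y : GR I} (w : W) (c : ℂ) (hX : ∀ x, X.coeff (w • x) = X.coeff x)
    (hY : ∀ x, Y.coeff (w • x) = c * Y.coeff x) (x : I → ℝ) :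
    (Y * X).coeff (w • x) = c * (Y * X).coeff x := by
  rw [AddMonoidAlgebra.coeff_mul_apply_right, AddMonoidAlgebra.coeff_mul_apply_right,
    Finsupp.sum, Finsupp.sum, mul_sum]
  symm
  refine sum_bijective (fun h => w • h) (MulAction.bijective w) (fun h => ?_) fun h _ => ?_
  · simp only [Finsupp.mem_support_iff, hX]
  · rw [hX, ← smul_neg, ← smul_add, hY, mul_assoc]

end RD

end Pool.Agent.Lib.MP_1e3767_al
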