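import Pool.Agent.Lib.MP_1e3767_al.Defs

set_option linter.unusedSectionVars false

namespace Pool.Agent.Lib.MP_1e3767_al

open Finset

namespace RD
variable {I ι W : Type*} [Fintype I] [DecidableEq I] [Fintype ι] [Group W] [Fintype W]
  [DistribMulAction W (I → ℝ)] [SMulCommClass W ℝ (I → ℝ)] [MulAction W ι] (R : RD I ι W)

theorem cv_apply (β : ι) (v : I → ℝ) : R.cv β v = ∑ i, (R.co β i : ℝ) * v i := rfl

theorem cv_smul_smul (w : W) (β : ι) (v : I → ℝ) : R.cv (w • β) (w • v) = R.cv β v :=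
  R.smul_co w β v

theorem s_smul' (β : ι) (v : I → ℝ) : R.s β • v = v - R.cv β v • R.rt β := R.s_smul β v

theorem cv_self (β : ι) : R.cv β (R.rt β) = 2 := R.pair_self β

theorem basicA_cf (β : ι) (c : I → ℝ) (h : R.rt β = ∑ i, c i • R.rt (R.sr i)) (i : I) :
    (R.cf β i : ℝ) = c i := by
  have h0 := Fintype.linearIndependent_iff.mp R.sr_indep (fun i => (R.cf β i : ℝ) - c i) (by
    simp only [sub_smul, Finset.sum_sub_distrib]
    rw [← R.rt_eq β, ← h, sub_self]) i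
  linarith

theorem basicA_ext (R : RD I ι W) {a b : W} (h : ∀ v : I → ℝ, a • v = b • v) : a = b := by
  have h1 : b⁻¹ * a = 1 := R.faithful _ fun v => by rw [mul_smul, h, inv_smul_smul]
  exact (inv_mul_eq_one.mp h1).symm

theorem basicA_co_ne (β : ι) : ∃ j, R.co β j ≠ 0 := by
  by_contra h
  push Not at h
  have h1 := R.pair_self β
  simp [h] at h1

theorem basicA_reg_rho : Reg (rho : I → ℝ) := fun _ => one_pos

theorem cv_sr (i : I) (v : I → ℝ) : R.cv (R.sr i) v = v i := by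
  rw [cv_apply, R.co_sr, Finset.sum_eq_single i]
  · simp
  · intro j _ hj
    simp [Pi.single_eq_of_ne hj]
  · intro h
    exact absurd (Finset.mem_univ i) h

theorem cv_smul (w : W) (β : ι) (v : I → ℝ) : R.cv β (w • v) = R.cv (w⁻¹ • β) v := by
  have h := R.cv_smul_smul w (w⁻¹ • β) v
  rwa [smul_inv_smul] at h

theorem s_sr_smul (i : I) (v : I → ℝ) : R.s (R.sr i) • v = v - v i • R.rt (R.sr i) := by
  rw [s_smul', cv_sr]

theorem rt_sr_self (i : I) : R.rt (R.sr i) i = 2 := by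
  rw [← R.cv_sr i (R.rt (R.sr i)), cv_self]

theorem cf_sr (i : I) : R.cf (R.sr i) = Pi.single i 1 := by
  funext j
  have h := basicA_cf R (R.sr i) (fun k => ((Pi.single i 1 : I → ℤ) k : ℝ)) (by
    rw [Finset.sum_eq_single i]
    · simp
    · intro k _ hk
      simp [Pi.single_eq_of_ne hk]
    · intro h
      exact absurd (Finset.mem_univ i) h) j
  exact_mod_cast h

theorem sr_inj : Function.Injective R.sr := by
  intro i j h
  apply R.sr_indep.injective
  simp only [h]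

theorem sr_pos (i : I) : R.sr i ∈ R.Pos := by
  by_contra h
  have h1 := R.neg_co _ h i
  rw [R.co_sr] at h1
  simp at h1

theorem s_smul_root (β γ : ι) : R.s β • γ = R.refl β γ := by
  apply R.rt_inj
  rw [R.smul_rt, R.s_smul, R.rt_refl]

theorem rt_s_smul (β γ : ι) : R.rt (R.s β • γ) = R.rt γ - R.cv β (R.rt γ) • R.rt β := by
  rw [R.smul_rt, s_smul']

theorem cv_s_smul (β γ : ι) (v : I → ℝ) :
    R.cv (R.s β • γ) v = R.cv γ v - R.cv γ (R.rt β) * R.cv β v := by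
  rw [s_smul_root, cv_apply, cv_apply R γ v, cv_apply R β v, cv_apply R γ (R.rt β),
    Finset.mul_sum, ← Finset.sum_sub_distrib]
  refine Finset.sum_congr rfl fun i _ => ?_
  rw [R.co_refl]
  ring

theorem s_mul_s (β : ι) : R.s β * R.s β = 1 := by
  apply R.faithful
  intro v
  rw [mul_smul, s_smul' R β (R.s β • v), s_smul' R β v, map_sub, map_smul, cv_self, smul_eq_mul]
  module

theorem s_inv (β : ι) : (R.s β)⁻¹ = R.s β := by
  exact inv_eq_of_mul_eq_one_right (R.s_mul_s β)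

theorem s_mul_s_mul (β : ι) (w : W) : R.s β * (R.s β * w) = w := by
  rw [← mul_assoc, s_mul_s, one_mul]

theorem s_conj (w : W) (β : ι) : R.s (w • β) = w * R.s β * w⁻¹ := by
  apply basicA_ext R
  intro v
  have h : R.cv (w • β) v = R.cv β (w⁻¹ • v) := by
    have h1 := R.cv_smul_smul w β (w⁻¹ • v)
    rwa [smul_inv_smul] at h1
  rw [mul_smul, mul_smul, s_smul', s_smul', smul_sub, smul_inv_smul, smul_comm w, R.smul_rt, h]

theorem s_smul_self (β : ι) : R.s β • β = R.ng β := by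
  exact R.s_smul_root β β

theorem rt_ng (β : ι) : R.rt (R.ng β) = -R.rt β := by
  rw [← s_smul_self, rt_s_smul, cv_self]
  module

theorem cv_ng (β : ι) (v : I → ℝ) : R.cv (R.ng β) v = -R.cv β v := by
  rw [← s_smul_self, cv_s_smul, cv_self]
  ring

theorem ng_ng (β : ι) : R.ng (R.ng β) = β := by
  apply R.rt_inj
  rw [rt_ng, rt_ng, neg_neg]

theorem s_ng (β : ι) : R.s (R.ng β) = R.s β := by
  apply basicA_ext R
  intro v
  rw [s_smul', s_smul', cv_ng, rt_ng, neg_smul_neg]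

theorem smul_ng (w : W) (β : ι) : w • R.ng β = R.ng (w • β) := by
  apply R.rt_inj
  rw [R.smul_rt, rt_ng, rt_ng, R.smul_rt, smul_neg]

theorem rt_ne_zero (β : ι) : R.rt β ≠ 0 := by
  intro h
  have h1 := R.cv_self β
  rw [h, map_zero] at h1
  norm_num at h1

theorem ng_ne (β : ι) : R.ng β ≠ β := by
  intro h
  have h1 := R.rt_ng β
  rw [h] at h1
  apply R.rt_ne_zero β
  funext i
  have h2 := congrFun h1 i
  simp only [Pi.neg_apply] at h2
  simp only [Pi.zero_apply]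
  linarith

theorem ng_mem_Pos (β : ι) : R.ng β ∈ R.Pos ↔ β ∉ R.Pos := by
  have hc : ∀ i, (R.cf (R.ng β) i : ℝ) = -(R.cf β i : ℝ) := by
    apply basicA_cf R (R.ng β) (fun i => -(R.cf β i : ℝ))
    rw [rt_ng]
    conv_lhs => rw [R.rt_eq β]
    simp only [neg_smul, Finset.sum_neg_distrib]
  have hz : ¬ ∀ i, (R.cf β i : ℝ) = 0 := by
    intro h
    apply R.rt_ne_zero β
    rw [R.rt_eq β]
    simp [h]
  constructor
  · intro h1 h2
    apply hz
    intro i
    have a1 : (0 : ℝ) ≤ R.cf (R.ng β) i := by exact_mod_cast R.pos_cf _ h1 i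
    have a2 : (0 : ℝ) ≤ R.cf β i := by exact_mod_cast R.pos_cf _ h2 i
    rw [hc] at a1
    linarith
  · intro h2
    by_contra h1
    apply hz
    intro i
    have a1 : (R.cf (R.ng β) i : ℝ) ≤ 0 := by exact_mod_cast R.neg_cf _ h1 i
    have a2 : (R.cf β i : ℝ) ≤ 0 := by exact_mod_cast R.neg_cf _ h2 i
    rw [hc] at a1
    linarith

/-- a sum over all roots is a sum over pairs of opposite roots -/
theorem sum_roots {A : Type*} [AddCommMonoid A] (g : ι → A) :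
    ∑ β, g β = ∑ β ∈ R.Pos, (g β + g (R.ng β)) := by
  classical
  rw [Finset.sum_add_distrib, ← Finset.sum_add_sum_compl R.Pos]
  congr 1
  symm
  refine Finset.sum_bij' (fun β _ => R.ng β) (fun β _ => R.ng β) ?_ ?_ ?_ ?_ ?_
  · intro β hβ
    rw [Finset.mem_compl, ng_mem_Pos]
    exact fun h => h hβ
  · intro β hβ
    rw [ng_mem_Pos]
    exact Finset.mem_compl.mp hβ
  · intro β _
    exact R.ng_ng β
  · intro β _
    exact R.ng_ng β
  · intro β _
    rfl

theorem eq_or_eq_ng (β γ : ι) (c : ℝ) (h : R.rt γ = c • R.rt β) : γ = β ∨ γ = R.ng β := by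
  rcases R.reduced β γ c h with h1 | h1
  · exact Or.inl h1
  · right
    apply R.rt_inj
    rw [rt_ng, h1]

theorem eq_or_ng_of_s_eq (β γ : ι) (h : R.s β = R.s γ) : γ = β ∨ γ = R.ng β := by
  have h1 : R.s β • R.rt γ = R.s γ • R.rt γ := by rw [h]
  rw [s_smul', s_smul', cv_self, sub_right_inj] at h1
  apply R.eq_or_eq_ng β γ (R.cv β (R.rt γ) / 2)
  rw [div_eq_inv_mul, mul_smul, h1, smul_smul]
  norm_num

theorem cv_int (β : ι) {v : I → ℝ} (hv : IntV v) : ∃ z : ℤ, R.cv β v = z := by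
  choose z hz using hv
  refine ⟨∑ i, R.co β i * z i, ?_⟩
  rw [cv_apply]
  push_cast
  exact Finset.sum_congr rfl fun i _ => by rw [hz]

theorem intV_rt (β : ι) : IntV (R.rt β) := R.rt_int β

theorem cv_nonneg {β : ι} (hβ : β ∈ R.Pos) {v : I → ℝ} (hv : Dom v) : 0 ≤ R.cv β v := by
  rw [cv_apply]
  refine Finset.sum_nonneg fun i _ => mul_nonneg ?_ (hv i)
  exact_mod_cast R.pos_co _ hβ i

theorem cv_pos {β : ι} (hβ : β ∈ R.Pos) {v : I → ℝ} (hv : Reg v) : 0 < R.cv β v := by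
  obtain ⟨j, hj⟩ := basicA_co_ne R β
  rw [cv_apply]
  refine Finset.sum_pos' (fun i _ => mul_nonneg ?_ (hv i).le) ⟨j, Finset.mem_univ j, ?_⟩
  · exact_mod_cast R.pos_co _ hβ i
  · refine mul_pos ?_ (hv j)
    exact_mod_cast lt_of_le_of_ne (R.pos_co _ hβ j) (Ne.symm hj)

theorem cv_neg {β : ι} (hβ : β ∉ R.Pos) {v : I → ℝ} (hv : Reg v) : R.cv β v < 0 := by
  have h := R.cv_pos ((R.ng_mem_Pos β).mpr hβ) hv
  rw [cv_ng] at h
  linarith

theorem cv_nonpos {β : ι} (hβ : β ∉ R.Pos) {v : I → ℝ} (hv : Dom v) : R.cv β v ≤ 0 := by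
  have h := R.cv_nonneg ((R.ng_mem_Pos β).mpr hβ) hv
  rw [cv_ng] at h
  linarith

theorem basicA_neg_iff (β : ι) (w : W) {μ : I → ℝ} (hμ : Reg μ) :
    R.cv β (w • μ) < 0 ↔ w⁻¹ • β ∉ R.Pos := by
  rw [cv_smul]
  exact ⟨fun h h1 => absurd (R.cv_pos h1 hμ) (not_lt.mpr h.le), fun h => R.cv_neg h hμ⟩

theorem cv_smul_rho_ne (β : ι) (w : W) : R.cv β (w • rho) ≠ 0 := by
  rw [cv_smul]
  by_cases h : w⁻¹ • β ∈ R.Pos
  · exact (R.cv_pos h basicA_reg_rho).ne'
  · exact (R.cv_neg h basicA_reg_rho).ne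

theorem smul_rho_ne (R : RD I ι W) (w : W) (i : I) : (w • (rho : I → ℝ)) i ≠ 0 := by
  rw [← R.cv_sr i (w • rho)]
  exact R.cv_smul_rho_ne _ w

theorem cv_smul_rho_neg_iff (β : ι) (w : W) : R.cv β (w • rho) < 0 ↔ w⁻¹ • β ∉ R.Pos := by
  exact basicA_neg_iff R β w basicA_reg_rho

theorem cv_le_of_rho_neg {β : ι} {w : W} (h : R.cv β (w • rho) < 0) {μ : I → ℝ} (hμ : Dom μ) :
    R.cv β (w • μ) ≤ 0 := by
  rw [cv_smul]
  exact R.cv_nonpos ((R.cv_smul_rho_neg_iff β w).mp h) hμ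

theorem cv_ge_of_rho_pos {β : ι} {w : W} (h : 0 < R.cv β (w • rho)) {μ : I → ℝ} (hμ : Dom μ) :
    0 ≤ R.cv β (w • μ) := by
  rw [cv_smul]
  refine R.cv_nonneg ?_ hμ
  by_contra h1
  exact absurd ((R.cv_smul_rho_neg_iff β w).mpr h1) (not_lt.mpr h.le)

theorem cv_neg_iff_of_reg (β : ι) (w : W) {μ : I → ℝ} (hμ : Reg μ) :
    R.cv β (w • μ) < 0 ↔ R.cv β (w • rho) < 0 := by
  rw [basicA_neg_iff R β w hμ, cv_smul_rho_neg_iff]

theorem cv_pos_iff_of_reg (β : ι) (w : W) {μ : I → ℝ} (hμ : Reg μ) :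
    0 < R.cv β (w • μ) ↔ 0 < R.cv β (w • rho) := by
  have h := R.cv_neg_iff_of_reg (R.ng β) w hμ
  rw [cv_ng, cv_ng, neg_lt_zero, neg_lt_zero] at h
  exact h

theorem basicB_uniq {c d : I → ℝ}
    (h : ∑ k, c k • R.rt (R.sr k) = ∑ k, d k • R.rt (R.sr k)) (j : I) : c j = d j := by
  have h1 := Fintype.linearIndependent_iff.1 R.sr_indep (fun k => c k - d k)
    (by simp only [sub_smul, sum_sub_distrib, h, sub_self]) j
  exact sub_eq_zero.1 h1

theorem basicB_s_s (β γ : ι) : R.s β • R.s β • γ = γ := by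
  rw [← mul_smul, R.s_mul_s, one_smul]

theorem basicB_cf_ne (β : ι) : ∃ i, R.cf β i ≠ 0 := by
  by_contra h
  push Not at h
  exact R.rt_ne_zero β (by rw [R.rt_eq β]; simp [h])

/-- a simple reflection permutes the other positive roots -/
theorem s_sr_mem_Pos {β : ι} (hβ : β ∈ R.Pos) {i : I} (hi : β ≠ R.sr i) :
    R.s (R.sr i) • β ∈ R.Pos := by
  classical
  by_contra h
  have h1 : ∀ j, j ≠ i → (R.cf (R.s (R.sr i) • β) j : ℝ) = R.cf β j := by
    intro j hj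
    have h2 := R.rt_s_smul (R.sr i) β
    rw [R.rt_eq (R.s (R.sr i) • β)] at h2
    have h3 : ∑ k, (R.cf (R.s (R.sr i) • β) k : ℝ) • R.rt (R.sr k) =
        ∑ k, ((R.cf β k : ℝ) - if k = i then R.cv (R.sr i) (R.rt β) else 0) • R.rt (R.sr k) := by
      rw [h2]
      simp only [sub_smul, sum_sub_distrib, ite_smul, zero_smul, sum_ite_eq', mem_univ, if_true]
      rw [← R.rt_eq β]
    have h4 := R.basicB_uniq h3 j
    simpa [hj] using h4
  have h5 : ∀ j, j ≠ i → R.cf β j = 0 := by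
    intro j hj
    have h6 : R.cf (R.s (R.sr i) • β) j = R.cf β j := by exact_mod_cast h1 j hj
    have h7 := R.neg_cf _ h j
    have h8 := R.pos_cf _ hβ j
    omega
  have h9 : R.rt β = (R.cf β i : ℝ) • R.rt (R.sr i) := by
    rw [R.rt_eq β, sum_eq_single i]
    · intro j _ hj
      simp [h5 j hj]
    · simp
  rcases R.eq_or_eq_ng _ _ _ h9 with h10 | h10
  · exact hi h10
  · rw [h10, R.ng_mem_Pos] at hβ
    exact hβ (R.sr_pos i)

theorem basicB_mem_erase [DecidableEq ι] {i : I} {β : ι} (hβ : β ∈ R.Pos.erase (R.sr i)) :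
    R.s (R.sr i) • β ∈ R.Pos.erase (R.sr i) := by
  rw [mem_erase] at hβ ⊢
  refine ⟨fun h => ?_, R.s_sr_mem_Pos hβ.2 hβ.1⟩
  have h1 : β = R.ng (R.sr i) := by
    rw [← R.basicB_s_s (R.sr i) β, h, R.s_smul_self]
  exact (R.ng_mem_Pos _).1 (h1 ▸ hβ.2) (R.sr_pos i)

/-- reindexing a sum over the positive roots other than a simple root -/
theorem sum_erase_s_sr [DecidableEq ι] {A : Type*} [AddCommMonoid A] (i : I) (g : ι → A) :
    ∑ β ∈ R.Pos.erase (R.sr i), g (R.s (R.sr i) • β) = ∑ β ∈ R.Pos.erase (R.sr i), g β := by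
  refine sum_nbij' (fun β => R.s (R.sr i) • β) (fun β => R.s (R.sr i) • β) ?_ ?_ ?_ ?_ ?_
  · exact fun β hβ => R.basicB_mem_erase hβ
  · exact fun β hβ => R.basicB_mem_erase hβ
  · exact fun β _ => R.basicB_s_s _ β
  · exact fun β _ => R.basicB_s_s _ β
  · exact fun β _ => rfl

theorem prod_erase_s_sr [DecidableEq ι] {A : Type*} [CommMonoid A] (i : I) (g : ι → A) :
    ∏ β ∈ R.Pos.erase (R.sr i), g (R.s (R.sr i) • β) = ∏ β ∈ R.Pos.erase (R.sr i), g β := by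
  refine prod_nbij' (fun β => R.s (R.sr i) • β) (fun β => R.s (R.sr i) • β) ?_ ?_ ?_ ?_ ?_
  · exact fun β hβ => R.basicB_mem_erase hβ
  · exact fun β hβ => R.basicB_mem_erase hβ
  · exact fun β _ => R.basicB_s_s _ β
  · exact fun β _ => R.basicB_s_s _ β
  · exact fun β _ => rfl

theorem ht_apply (v : I → ℝ) : R.ht v = ∑ β ∈ R.Pos, R.cv β v := by
  simp [RD0.ht, LinearMap.sum_apply]

theorem ht_s_sr (i : I) (v : I → ℝ) : R.ht (R.s (R.sr i) • v) = R.ht v - 2 * v i := by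
  classical
  rw [R.ht_apply, R.ht_apply]
  simp only [R.cv_smul, R.s_inv]
  rw [← add_sum_erase _ _ (R.sr_pos i), ← add_sum_erase _ (fun β => R.cv β v) (R.sr_pos i),
    R.sum_erase_s_sr i (fun β => R.cv β v), R.s_smul_self, R.cv_ng, R.cv_sr]
  ring

theorem ht_rt_sr (i : I) : R.ht (R.rt (R.sr i)) = 2 := by
  have h := R.ht_s_sr i (R.rt (R.sr i))
  rw [R.s_sr_smul, map_sub, map_smul, R.rt_sr_self, smul_eq_mul] at h
  linarith

theorem basicB_ht_sum (c : I → ℝ) : R.ht (∑ k, c k • R.rt (R.sr k)) = ∑ k, c k * 2 := by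
  simp only [map_sum, map_smul, R.ht_rt_sr, smul_eq_mul]

theorem basicB_ht_rt (β : ι) : R.ht (R.rt β) = ∑ k, (R.cf β k : ℝ) * 2 := by
  rw [← R.basicB_ht_sum, ← R.rt_eq β]

theorem ht_rt_pos {β : ι} (hβ : β ∈ R.Pos) : 0 < R.ht (R.rt β) := by
  rw [R.basicB_ht_rt]
  obtain ⟨i, hi⟩ := R.basicB_cf_ne β
  refine sum_pos' (fun j _ => ?_) ⟨i, mem_univ _, ?_⟩
  · have : (0 : ℝ) ≤ R.cf β j := by exact_mod_cast R.pos_cf β hβ j
    linarith
  · have : (0 : ℝ) < R.cf β i := by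
      exact_mod_cast lt_of_le_of_ne (R.pos_cf β hβ i) (Ne.symm hi)
    linarith

theorem ht_rt_neg {β : ι} (hβ : β ∉ R.Pos) : R.ht (R.rt β) < 0 := by
  have h := R.ht_rt_pos ((R.ng_mem_Pos β).2 hβ)
  rw [R.rt_ng, map_neg] at h
  linarith

theorem sum_pos_rt : ∑ β ∈ R.Pos, R.rt β = (2 : ℝ) • (rho : I → ℝ) := by
  classical
  funext i
  have h1 : R.s (R.sr i) • ∑ β ∈ R.Pos, R.rt β =
      (∑ β ∈ R.Pos, R.rt β) - (2 : ℝ) • R.rt (R.sr i) := by
    rw [smul_sum]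
    simp only [← R.smul_rt]
    rw [← add_sum_erase _ _ (R.sr_pos i), ← add_sum_erase _ (fun β => R.rt β) (R.sr_pos i),
      R.sum_erase_s_sr i (fun β => R.rt β), R.s_smul_self, R.rt_ng, two_smul]
    abel
  rw [R.s_sr_smul] at h1
  have h2 := congrFun (sub_right_injective h1) i
  simp only [Pi.smul_apply, R.rt_sr_self, smul_eq_mul] at h2
  simp only [Pi.smul_apply, rho, smul_eq_mul]
  linarith

theorem fabs_smul (w : W) (v : I → ℝ) : R.fabs (w • v) = R.fabs v := by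
  have h : ∀ x : I → ℝ, ∑ β, |R.cv β x| = 2 * R.fabs x := by
    intro x
    rw [R.sum_roots (fun β => |R.cv β x|), RD0.fabs, mul_sum]
    refine sum_congr rfl fun β _ => ?_
    rw [R.cv_ng, abs_neg, two_mul]
  have h1 : ∑ β, |R.cv β (w • v)| = ∑ β, |R.cv β v| := by
    simp only [R.cv_smul]
    exact Equiv.sum_comp (MulAction.toPerm w⁻¹) (fun β => |R.cv β v|)
  rw [h, h] at h1
  linarith

theorem ht_le_fabs (v : I → ℝ) : R.ht v ≤ R.fabs v := by
  rw [R.ht_apply]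
  exact sum_le_sum fun β _ => le_abs_self _

theorem fabs_of_dom {v : I → ℝ} (hv : Dom v) : R.fabs v = R.ht v := by
  rw [R.ht_apply]
  exact sum_congr rfl fun β hβ => abs_of_nonneg (R.cv_nonneg hβ hv)

theorem continuous_cv (β : ι) : Continuous (R.cv β) := by
  exact LinearMap.continuous_of_finiteDimensional _

theorem continuous_ht : Continuous R.ht := by
  exact LinearMap.continuous_of_finiteDimensional _

theorem continuous_fabs : Continuous R.fabs := by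
  exact continuous_finsetSum _ fun β _ => (R.continuous_cv β).abs

theorem continuous_wsmul (w : W) : Continuous (fun v : I → ℝ => w • v) := by
  exact (DistribSMul.toLinearMap ℝ (I → ℝ) w).continuous_of_finiteDimensional

theorem isClosed_dom : IsClosed {v : I → ℝ | Dom v} := by
  exact isClosed_Ici (a := (0 : I → ℝ))

theorem span_sr : Submodule.span ℝ (Set.range fun i => R.rt (R.sr i)) = ⊤ := by
  exact R.sr_indep.span_eq_top_of_card_eq_finrank' (by simp)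

theorem inQ_zero : R.InQ 0 := by
  exact ⟨0, by simp⟩

theorem inQ_rt (β : ι) : R.InQ (R.rt β) := by
  exact ⟨R.cf β, R.rt_eq β⟩

theorem inQ_add {a b : I → ℝ} (ha : R.InQ a) (hb : R.InQ b) : R.InQ (a + b) := by
  obtain ⟨c, rfl⟩ := ha
  obtain ⟨d, rfl⟩ := hb
  exact ⟨c + d, by simp [add_smul, sum_add_distrib]⟩

theorem inQ_neg {a : I → ℝ} (ha : R.InQ a) : R.InQ (-a) := by
  obtain ⟨c, rfl⟩ := ha
  exact ⟨-c, by simp⟩

theorem inQ_sub {a b : I → ℝ} (ha : R.InQ a) (hb : R.InQ b) : R.InQ (a - b) := by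
  rw [sub_eq_add_neg]
  exact R.inQ_add ha (R.inQ_neg hb)

theorem inQ_zsmul {a : I → ℝ} (ha : R.InQ a) (z : ℤ) : R.InQ ((z : ℝ) • a) := by
  obtain ⟨c, rfl⟩ := ha
  exact ⟨fun i => z * c i, by simp [smul_sum, mul_smul]⟩

theorem inQ_smul {a : I → ℝ} (ha : R.InQ a) (w : W) : R.InQ (w • a) := by
  obtain ⟨c, rfl⟩ := ha
  rw [smul_sum]
  refine sum_induction _ R.InQ (fun _ _ => R.inQ_add) R.inQ_zero fun i _ => ?_
  rw [smul_comm w, ← R.smul_rt]
  exact R.inQ_zsmul (R.inQ_rt _) _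

theorem intV_of_inQ {a : I → ℝ} (ha : R.InQ a) : IntV a := by
  obtain ⟨c, rfl⟩ := ha
  intro i
  choose z hz using fun j => R.rt_int (R.sr j) i
  exact ⟨∑ j, c j * z j, by simp [Finset.sum_apply, hz]⟩

theorem intV_smul (R : RD I ι W) {a : I → ℝ} (ha : IntV a) (w : W) : IntV (w • a) := by
  intro i
  rw [← R.cv_sr i (w • a), R.cv_smul]
  exact R.cv_int _ ha

theorem inQ_sub_smul {a : I → ℝ} (ha : IntV a) (w : W) : R.InQ (a - w • a) := by
  refine R.gen (fun w => R.InQ (a - w • a)) ?_ ?_ w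
  · simpa using R.inQ_zero
  · intro i u hu
    obtain ⟨z, hz⟩ := R.intV_smul ha u i
    rw [mul_smul, R.s_sr_smul, hz, ← sub_add]
    exact R.inQ_add hu (R.inQ_zsmul (R.inQ_rt _) z)

theorem inQp_zero : R.InQp 0 := by
  exact ⟨0, by simp⟩

theorem inQp_rt {β : ι} (hβ : β ∈ R.Pos) : R.InQp (R.rt β) := by
  refine ⟨fun i => (R.cf β i).toNat, (R.rt_eq β).trans (sum_congr rfl fun i _ => ?_)⟩
  have h : (((R.cf β i).toNat : ℤ) : ℝ) = R.cf β i := by
    rw [Int.toNat_of_nonneg (R.pos_cf β hβ i)]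
  rw [← h, Int.cast_natCast]

theorem inQp_add {a b : I → ℝ} (ha : R.InQp a) (hb : R.InQp b) : R.InQp (a + b) := by
  obtain ⟨c, rfl⟩ := ha
  obtain ⟨d, rfl⟩ := hb
  exact ⟨c + d, by simp [add_smul, sum_add_distrib]⟩

theorem inQ_of_inQp {a : I → ℝ} (ha : R.InQp a) : R.InQ a := by
  obtain ⟨c, rfl⟩ := ha
  exact ⟨fun i => c i, by simp⟩

theorem ht_nonneg_of_inQp {a : I → ℝ} (ha : R.InQp a) : 0 ≤ R.ht a := by
  obtain ⟨c, rfl⟩ := ha
  rw [R.basicB_ht_sum]
  exact sum_nonneg fun i _ => by positivity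

theorem eq_zero_of_inQp {a : I → ℝ} (ha : R.InQp a) (h : R.ht a ≤ 0) : a = 0 := by
  obtain ⟨c, rfl⟩ := ha
  rw [R.basicB_ht_sum] at h
  have h0 : ∀ i ∈ (univ : Finset I), 0 ≤ (c i : ℝ) * 2 := fun i _ => by positivity
  have h1 := (sum_eq_zero_iff_of_nonneg h0).1 (le_antisymm h (sum_nonneg h0))
  refine sum_eq_zero fun i hi => ?_
  have h2 : (c i : ℝ) = 0 := by linarith [h1 i hi]
  rw [h2, zero_smul]

end RD

end Pool.Agent.Lib.MP_1e3767_al
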