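import Pool.Agent.Lib.MP_1e3767_al.Path

set_option linter.unusedSectionVars false

namespace Pool.Agent.Lib.MP_1e3767_al

open Finset

namespace RD
variable {I ι W : Type*} [Fintype I] [DecidableEq I] [Fintype ι] [Group W] [Fintype W]
  [DistribMulAction W (I → ℝ)] [SMulCommClass W ℝ (I → ℝ)] [MulAction W ι] (R : RD I ι W)

/-- the facts about a lowering step that the lemmas below use -/
theorem fRel_aux {i : I} {π π' : ℝ → I → ℝ} (h : R.FRel i π π') :
    ∃ y : ℝ → ℝ, (∀ t, π' t = π t - y t • R.rt (R.sr i)) ∧ (∀ t, 0 ≤ y t) ∧ (∀ t, y t ≤ 1) ∧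
      y 1 = 1 ∧ mn i π' = mn i π - 1 ∧
      (∀ t s, t ≤ s → s ∈ Set.Icc (0:ℝ) 1 → y t ≤ π s i - mn i π) ∧
      (∀ t, y t = 1 ∨ ∃ s, t ≤ s ∧ s ∈ Set.Icc (0:ℝ) 1 ∧ y t = π s i - mn i π) ∧
      (∀ t s, s ≤ t → s ∈ Set.Icc (0:ℝ) 1 → mn i π - π' s i ≤ y t) ∧
      (∀ t, y t = 0 ∨ ∃ s, s ≤ t ∧ s ∈ Set.Icc (0:ℝ) 1 ∧ y t = mn i π - π' s i) := by
  obtain ⟨a, b, m, ha, hab, hb, hm, hpa, hpb, hmono, hge, hdef⟩ := h
  have haI : a ∈ Set.Icc (0:ℝ) 1 := ⟨ha, hab.trans hb⟩
  have hbI : b ∈ Set.Icc (0:ℝ) 1 := ⟨ha.trans hab, hb⟩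
  have hmn : mn i π = m := by
    refine IsLeast.csInf_eq ⟨⟨a, haI, hpa⟩, ?_⟩
    rintro _ ⟨t, ht, rfl⟩
    exact hm t ht
  have hcl : ∀ t, max a (min t b) ∈ Set.Icc a b := fun t =>
    ⟨le_max_left _ _, max_le hab (min_le_right _ _)⟩
  have hca : ∀ t, t ≤ a → max a (min t b) = a := fun t ht =>
    max_eq_left ((min_le_left _ _).trans ht)
  have hcb : ∀ t, b ≤ t → max a (min t b) = b := fun t ht => by
    rw [min_eq_right ht, max_eq_right hab]
  have hcm : ∀ t, a ≤ t → t ≤ b → max a (min t b) = t := fun t h1 h2 => by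
    rw [min_eq_left h2, max_eq_right h1]
  have hy0 : ∀ t, m ≤ π (max a (min t b)) i := fun t => by
    have := hmono ⟨le_rfl, hab⟩ (hcl t) (hcl t).1
    simp only at this
    linarith
  have hy1 : ∀ t, π (max a (min t b)) i ≤ m + 1 := fun t => by
    have := hmono (hcl t) ⟨hab, le_rfl⟩ (hcl t).2
    simp only at this
    linarith
  have hymono : ∀ s t, s ≤ t → π (max a (min s b)) i ≤ π (max a (min t b)) i := fun s t hst =>
    hmono (hcl s) (hcl t) (max_le_max le_rfl (min_le_min hst le_rfl))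
  have hi : ∀ t, π' t i = π t i - 2 * (π (max a (min t b)) i - m) := fun t => by
    rw [hdef t, Pi.sub_apply, Pi.smul_apply, R.rt_sr_self, smul_eq_mul]
    ring
  refine ⟨fun t => π (max a (min t b)) i - m, hdef, fun t => ?_, fun t => ?_, ?_, ?_, ?_, ?_,
    ?_, ?_⟩
  · have := hy0 t
    simp only
    linarith
  · have := hy1 t
    simp only
    linarith
  · simp only
    rw [hcb 1 hb, hpb]
    ring
  · rw [hmn]
    refine IsLeast.csInf_eq ⟨⟨b, hbI, ?_⟩, ?_⟩
    · simp only
      rw [hi b, hcb b le_rfl, hpb]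
      ring
    · rintro _ ⟨t, ht, rfl⟩
      simp only
      rw [hi t]
      rcases le_total t a with h1 | h1
      · rw [hca t h1, hpa]
        have := hm t ht
        linarith
      · rcases le_total t b with h2 | h2
        · have := hy1 t
          rw [hcm t h1 h2] at this ⊢
          linarith
        · rw [hcb t h2, hpb]
          have := hge t ⟨h2, ht.2⟩
          linarith
  · intro t s hts hs
    rw [hmn]
    simp only
    rcases le_total b s with h1 | h1
    · have := hge s ⟨h1, hs.2⟩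
      have := hy1 t
      linarith
    · rcases le_total t a with h2 | h2
      · rw [hca t h2, hpa]
        have := hm s hs
        linarith
      · have := hymono t s hts
        rw [hcm s (h2.trans hts) h1] at this
        linarith
  · intro t
    rw [hmn]
    simp only
    rcases le_total b t with h1 | h1
    · left
      rw [hcb t h1, hpb]
      ring
    · right
      refine ⟨max a (min t b), ?_, ⟨ha.trans (hcl t).1, (hcl t).2.trans hb⟩, rfl⟩
      rw [min_eq_left h1]
      exact le_max_right _ _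
  · intro t s hst hs
    rw [hmn]
    simp only
    rw [hi s]
    rcases le_total s a with h1 | h1
    · rw [hca s h1, hpa]
      have := hm s hs
      have := hy0 t
      linarith
    · rcases le_total s b with h2 | h2
      · have := hymono s t hst
        rw [hcm s h1 h2] at this ⊢
        linarith
      · rw [hcb s h2, hcb t (h2.trans hst), hpb]
        have := hge s ⟨h2, hs.2⟩
        linarith
  · intro t
    rw [hmn]
    simp only
    rcases le_total t a with h1 | h1
    · left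
      rw [hca t h1, hpa]
      ring
    · right
      refine ⟨max a (min t b), max_le h1 (min_le_left _ _),
        ⟨ha.trans (hcl t).1, (hcl t).2.trans hb⟩, ?_⟩
      rw [hi, hcm _ (hcl t).1 (hcl t).2]
      ring

theorem fRel_right_unique {i : I} {π π1 π2 : ℝ → I → ℝ} (h1 : R.FRel i π π1)
    (h2 : R.FRel i π π2) : π1 = π2 := by
  obtain ⟨y1, hd1, -, hle1, -, -, hA1, hB1, -, -⟩ := R.fRel_aux h1
  obtain ⟨y2, hd2, -, hle2, -, -, hA2, hB2, -, -⟩ := R.fRel_aux h2
  funext t
  have e : y1 t = y2 t := by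
    apply le_antisymm
    · rcases hB2 t with h | ⟨s, hts, hs, h⟩
      · rw [h]
        exact hle1 t
      · rw [h]
        exact hA1 t s hts hs
    · rcases hB1 t with h | ⟨s, hts, hs, h⟩
      · rw [h]
        exact hle2 t
      · rw [h]
        exact hA2 t s hts hs
  rw [hd1 t, hd2 t, e]

theorem fRel_mn {i : I} {π π' : ℝ → I → ℝ} (h : R.FRel i π π') : mn i π' = mn i π - 1 := by
  obtain ⟨y, -, -, -, -, hm, -⟩ := R.fRel_aux h
  exact hm

theorem fRel_left_unique {i : I} {π1 π2 π' : ℝ → I → ℝ} (h1 : R.FRel i π1 π')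
    (h2 : R.FRel i π2 π') : π1 = π2 := by
  obtain ⟨y1, hd1, hge1, -, -, hm1, -, -, hA1, hB1⟩ := R.fRel_aux h1
  obtain ⟨y2, hd2, hge2, -, -, hm2, -, -, hA2, hB2⟩ := R.fRel_aux h2
  have hm : mn i π1 = mn i π2 := by linarith
  funext t
  have e : y1 t = y2 t := by
    apply le_antisymm
    · rcases hB1 t with h | ⟨s, hts, hs, h⟩
      · rw [h]
        exact hge2 t
      · rw [h, hm]
        exact hA2 t s hts hs
    · rcases hB2 t with h | ⟨s, hts, hs, h⟩
      · rw [h]
        exact hge1 t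
      · rw [h, ← hm]
        exact hA1 t s hts hs
  have e1 := hd1 t
  rw [hd2 t, e] at e1
  exact (sub_left_inj.mp e1).symm

theorem fRel_end {i : I} {π π' : ℝ → I → ℝ} (h : R.FRel i π π') :
    π' 1 = π 1 - R.rt (R.sr i) := by
  obtain ⟨y, hd, -, -, h1, -⟩ := R.fRel_aux h
  rw [hd 1, h1, one_smul]

theorem fRel_pre1 {i : I} {π π' : ℝ → I → ℝ} (h : R.FRel i π π') {t s : ℝ} (hts : t ≤ s)
    (hs : s ∈ Set.Icc (0:ℝ) 1) (he : π s i = mn i π) : π' t = π t := by
  obtain ⟨y, hd, hge, -, -, -, hA, -⟩ := R.fRel_aux h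
  have e : y t = 0 := by
    have h1 := hA t s hts hs
    have h2 := hge t
    linarith
  rw [hd t, e, zero_smul, sub_zero]

theorem fRel_pre2 {i : I} {π π' : ℝ → I → ℝ} (h : R.FRel i π π') {t : ℝ} (ht : t ≤ 1)
    (hs : ∀ s ∈ Set.Icc (0:ℝ) t, mn i π ≤ π' s i) : π' t = π t := by
  obtain ⟨y, hd, hge, -, -, -, -, -, -, hB⟩ := R.fRel_aux h
  have e : y t = 0 := by
    rcases hB t with h0 | ⟨s, hst, hsI, h0⟩
    · exact h0
    · have h1 := hs s ⟨hsI.1, hst⟩
      have h2 := hge t
      linarith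
  rw [hd t, e, zero_smul, sub_zero]

/-- reversal of strings -/
theorem strings {X M G : Type*} [AddCommGroup M] [AddCommMonoid G] (S : Finset X)
    (F : X → X → Prop) (e f : X → ℕ) (wt : X → M) (α : M)
    (hf : ∀ x ∈ S, 1 ≤ f x → ∃ y ∈ S, F x y) (he : ∀ y ∈ S, 1 ≤ e y → ∃ x ∈ S, F x y)
    (hu1 : ∀ x y y', F x y → F x y' → y = y') (hu2 : ∀ x x' y, F x y → F x' y → x = x')
    (hF : ∀ x ∈ S, ∀ y ∈ S, F x y → e y = e x + 1 ∧ f x = f y + 1 ∧ wt y = wt x - α)
    (g : M → G) : ∑ x ∈ S, g (wt x) = ∑ x ∈ S, g (wt x - ((f x : ℤ) - (e x : ℤ)) • α) := by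
  classical
  let φ : X → M × ℕ × ℕ := fun x => (wt x, e x, f x)
  let N : M × ℕ × ℕ → ℕ := fun p => (S.filter (fun x => p = φ x)).card
  have step : ∀ (v : M) (i j : ℕ), N (v, i, j + 1) = N (v - α, i + 1, j) := by
    intro v i j
    have hex : ∀ x ∈ S.filter (fun x => (v, i, j + 1) = φ x), ∃ y ∈ S, F x y := by
      intro x hx
      obtain ⟨hxS, hx2⟩ := Finset.mem_filter.mp hx
      have h3 : j + 1 = f x := congrArg (fun p : M × ℕ × ℕ => p.2.2) hx2
      exact hf x hxS (by omega)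
    choose! c hcS hcF using hex
    refine Finset.card_bij (fun x _ => c x) ?_ ?_ ?_
    · intro x hx
      obtain ⟨hxS, hx2⟩ := Finset.mem_filter.mp hx
      have h1 : v = wt x := congrArg (fun p : M × ℕ × ℕ => p.1) hx2
      have h2 : i = e x := congrArg (fun p : M × ℕ × ℕ => p.2.1) hx2
      have h3 : j + 1 = f x := congrArg (fun p : M × ℕ × ℕ => p.2.2) hx2
      obtain ⟨k1, k2, k3⟩ := hF x hxS (c x) (hcS x hx) (hcF x hx)
      refine Finset.mem_filter.mpr ⟨hcS x hx, ?_⟩
      refine Prod.ext ?_ (Prod.ext ?_ ?_)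
      · show v - α = wt (c x)
        rw [k3, h1]
      · show i + 1 = e (c x)
        omega
      · show j = f (c x)
        omega
    · intro x hx x' hx' hxx
      refine hu2 x x' (c x) (hcF x hx) ?_
      have hxx' : c x = c x' := hxx
      rw [hxx']
      exact hcF x' hx'
    · intro y hy
      obtain ⟨hyS, hy2⟩ := Finset.mem_filter.mp hy
      have h1 : v - α = wt y := congrArg (fun p : M × ℕ × ℕ => p.1) hy2
      have h2 : i + 1 = e y := congrArg (fun p : M × ℕ × ℕ => p.2.1) hy2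
      have h3 : j = f y := congrArg (fun p : M × ℕ × ℕ => p.2.2) hy2
      obtain ⟨x, hxS, hxF⟩ := he y hyS (by omega)
      obtain ⟨k1, k2, k3⟩ := hF x hxS y hyS hxF
      have hx : x ∈ S.filter (fun x => (v, i, j + 1) = φ x) := by
        refine Finset.mem_filter.mpr ⟨hxS, ?_⟩
        refine Prod.ext ?_ (Prod.ext ?_ ?_)
        · show v = wt x
          rw [k3] at h1
          exact sub_left_inj.mp h1
        · show i = e x
          omega
        · show j + 1 = f x
          omega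
      exact ⟨x, hx, hu1 x _ _ (hcF x hx) hxF⟩
  have stepk : ∀ (k : ℕ) (v : M) (i j : ℕ),
      N (v, i, j + k) = N (v - (k : ℤ) • α, i + k, j) := by
    intro k
    induction k with
    | zero => intro v i j; simp
    | succ k ih =>
      intro v i j
      have e1 : v - α - (k : ℤ) • α = v - ((k + 1 : ℕ) : ℤ) • α := by
        rw [Nat.cast_succ, add_smul, one_smul]
        abel
      have e2 : i + 1 + k = i + (k + 1) := by omega
      rw [← add_assoc, step, ih, e1, e2]
  let σ : M × ℕ × ℕ → M × ℕ × ℕ :=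
    fun p => (p.1 - ((p.2.2 : ℤ) - (p.2.1 : ℤ)) • α, p.2.2, p.2.1)
  have hσ : ∀ p, σ (σ p) = p := by
    rintro ⟨v, i, j⟩
    refine Prod.ext ?_ rfl
    show v - ((j : ℤ) - (i : ℤ)) • α - ((i : ℤ) - (j : ℤ)) • α = v
    rw [sub_smul, sub_smul]
    abel
  have hN1 : ∀ (v : M) (i j : ℕ), i ≤ j → N (σ (v, i, j)) = N (v, i, j) := by
    intro v i j hij
    obtain ⟨k, rfl⟩ := Nat.exists_eq_add_of_le hij
    rw [stepk k v i i]
    have e1 : ((i + k : ℕ) : ℤ) - (i : ℤ) = (k : ℤ) := by
      push_cast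
      ring
    show N (v - (((i + k : ℕ) : ℤ) - (i : ℤ)) • α, i + k, i) = _
    rw [e1]
  have hN : ∀ p, N (σ p) = N p := by
    rintro ⟨v, i, j⟩
    rcases le_total i j with hij | hij
    · exact hN1 v i j hij
    · have := hN1 (v - ((j : ℤ) - (i : ℤ)) • α) j i hij
      have h2 : σ (v - ((j : ℤ) - (i : ℤ)) • α, j, i) = (v, i, j) := hσ (v, i, j)
      rw [h2] at this
      exact this.symm
  have hms : S.val.map φ = S.val.map (fun x => σ (φ x)) := by
    refine Multiset.ext.mpr fun p => ?_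
    rw [Multiset.count_map, Multiset.count_map]
    have e1 : S.filter (fun x => p = σ (φ x)) = S.filter (fun x => σ p = φ x) := by
      refine Finset.filter_congr fun x _ => ⟨fun h => ?_, fun h => ?_⟩
      · rw [h, hσ]
      · rw [← h, hσ]
    have e2 : (S.filter (fun x => p = σ (φ x))).card = N p := by
      rw [e1]
      exact hN p
    exact e2.symm
  have hsum := congrArg (fun T : Multiset (M × ℕ × ℕ) => (T.map (fun p => g p.1)).sum) hms
  simp only [Multiset.map_map] at hsum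
  exact hsum

end RD

end Pool.Agent.Lib.MP_1e3767_al
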