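import Pool.Agent.Lib.MP_1e3767_al.CrystalF
import Pool.Agent.Lib.MP_1e3767_al.FRel
import Pool.Agent.Lib.MP_1e3767_al.Alt

set_option linter.unusedSectionVars false

namespace Pool.Agent.Lib.MP_1e3767_al

open Finset

namespace RD
variable {I ι W : Type*} [Fintype I] [DecidableEq I] [Fintype ι] [Group W] [Fintype W]
  [DistribMulAction W (I → ℝ)] [SMulCommClass W ℝ (I → ℝ)] [MulAction W ι] (R : RD I ι W)

theorem chB_eq (μ : I → ℝ) : R.chB μ = ∑ π ∈ (R.finite_BB μ).toFinset, ex (π 1) := by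
  unfold chB
  exact finsum_mem_eq_finite_toFinset_sum _ (R.finite_BB μ)

theorem brauer_floor {x : ℝ} (hz : ∃ z : ℤ, x = z) (h0 : 0 ≤ x) : (⌊x⌋₊ : ℝ) = x := by
  obtain ⟨z, rfl⟩ := hz
  have h1 : 0 ≤ z := by exact_mod_cast h0
  obtain ⟨n, rfl⟩ := Int.eq_ofNat_of_zero_le h1
  simp

/-- reversal of the strings of a closed family of paths, cut at depth `c` -/
theorem brauer_str {μ : I → ℝ} (hμ : Dom μ) (hi : IntV μ) {G : Type*} [AddCommMonoid G]
    (i : I) (c : ℝ) (hc0 : 0 ≤ c) (hcz : ∃ z : ℤ, c = z) (X : Finset (ℝ → I → ℝ))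
    (hX : ∀ π ∈ X, π ∈ R.BB μ) (hc : ∀ π ∈ X, c ≤ -mn i π)
    (hf : ∀ π ∈ X, ∀ π' ∈ R.BB μ, R.FRel i π π' → π' ∈ X)
    (he : ∀ π' ∈ X, ∀ π ∈ R.BB μ, R.FRel i π π' → mn i π' ≤ -c - 1 → π ∈ X)
    (g : (I → ℝ) → G) :
    ∑ π ∈ X, g (π 1) = ∑ π ∈ X, g (π 1 - (π 1 i + c) • R.rt (R.sr i)) := by
  have hE : ∀ π ∈ X, (⌊-mn i π - c⌋₊ : ℝ) = -mn i π - c := by
    intro π hπ
    obtain ⟨z, hz⟩ := R.mn_int hμ (hX π hπ) i
    obtain ⟨y, hy⟩ := hcz
    refine brauer_floor ⟨-z - y, ?_⟩ (by linarith [hc π hπ])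
    rw [hz, hy]
    push_cast
    ring
  have hF : ∀ π ∈ X, (⌊π 1 i - mn i π⌋₊ : ℝ) = π 1 i - mn i π := by
    intro π hπ
    obtain ⟨z, hz⟩ := R.mn_int hμ (hX π hπ) i
    obtain ⟨y, hy⟩ := R.intV_end hi (hX π hπ) i
    have h1 := mn_le (R.continuous_of_mem_BB (hX π hπ)) i (t := 1) ⟨zero_le_one, le_rfl⟩
    refine brauer_floor ⟨y - z, ?_⟩ (by linarith)
    rw [hz, hy]
    push_cast
    ring
  have key := strings X (R.FRel i) (fun π => ⌊-mn i π - c⌋₊) (fun π => ⌊π 1 i - mn i π⌋₊)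
    (fun π => π 1) (R.rt (R.sr i))
    (fun π hπ h => by
      have h1 : (1 : ℝ) ≤ (⌊π 1 i - mn i π⌋₊ : ℝ) := by exact_mod_cast h
      rw [hF π hπ] at h1
      obtain ⟨π', h2, h3⟩ := R.f_exists hμ (hX π hπ) i (by linarith)
      exact ⟨π', hf π hπ π' h2 h3, h3⟩)
    (fun π' hπ h => by
      have h1 : (1 : ℝ) ≤ (⌊-mn i π' - c⌋₊ : ℝ) := by exact_mod_cast h
      rw [hE π' hπ] at h1
      obtain ⟨π, h2, h3⟩ := R.e_exists hμ (hX π' hπ) i (by linarith)
      exact ⟨π, he π' hπ π h2 h3 (by linarith), h3⟩)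
    (fun x y y' h1 h2 => R.fRel_right_unique h1 h2)
    (fun x x' y h1 h2 => R.fRel_left_unique h1 h2)
    (fun x hx y hy h => by
      have h1 := R.fRel_mn h
      have h2 := R.fRel_end h
      have h3 : y 1 i = x 1 i - 2 := by
        rw [h2, Pi.sub_apply, R.rt_sr_self]
      refine ⟨?_, ?_, h2⟩
      · have h4 : (⌊-mn i y - c⌋₊ : ℝ) = (⌊-mn i x - c⌋₊ : ℝ) + 1 := by
          rw [hE x hx, hE y hy, h1]
          ring
        exact_mod_cast h4
      · have h4 : (⌊x 1 i - mn i x⌋₊ : ℝ) = (⌊y 1 i - mn i y⌋₊ : ℝ) + 1 := by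
          rw [hF x hx, hF y hy, h1, h3]
          ring
        exact_mod_cast h4) g
  rw [key]
  refine Finset.sum_congr rfl fun π hπ => ?_
  congr 2
  rw [← Int.cast_smul_eq_zsmul ℝ]
  congr 1
  push_cast
  rw [hE π hπ, hF π hπ]
  ring

/-- Weyl invariance of the multiset of end points -/
theorem sum_BB_smul {μ : I → ℝ} (hμ : Dom μ) (hi : IntV μ) {G : Type*} [AddCommMonoid G]
    (w : W) (g : (I → ℝ) → G) :
    ∑ π ∈ (R.finite_BB μ).toFinset, g (w • π 1) = ∑ π ∈ (R.finite_BB μ).toFinset, g (π 1) := by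
  have hs : ∀ (i : I) (g : (I → ℝ) → G),
      ∑ π ∈ (R.finite_BB μ).toFinset, g (R.s (R.sr i) • π 1) =
        ∑ π ∈ (R.finite_BB μ).toFinset, g (π 1) := by
    intro i g
    rw [R.brauer_str hμ hi i 0 le_rfl ⟨0, by simp⟩ (R.finite_BB μ).toFinset
      (fun π hπ => (Set.Finite.mem_toFinset _).1 hπ)
      (fun π hπ => by
        have h := (Set.Finite.mem_toFinset _).1 hπ
        have h1 := mn_le (R.continuous_of_mem_BB h) i (t := 0) ⟨le_rfl, zero_le_one⟩
        rw [R.zero_of_mem_BB h, Pi.zero_apply] at h1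
        linarith)
      (fun _ _ π' h _ => (Set.Finite.mem_toFinset _).2 h)
      (fun _ _ π h _ _ => (Set.Finite.mem_toFinset _).2 h) g]
    refine Finset.sum_congr rfl fun π _ => ?_
    rw [R.s_sr_smul, add_zero]
  revert g
  refine R.gen (fun w => ∀ g : (I → ℝ) → G, ∑ π ∈ (R.finite_BB μ).toFinset, g (w • π 1) =
    ∑ π ∈ (R.finite_BB μ).toFinset, g (π 1)) (fun g => by simp) (fun i w ih g => ?_) w
  rw [← hs i g, ← ih fun x => g (R.s (R.sr i) • x)]
  simp only [mul_smul]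

theorem AA_mul_chB {μ : I → ℝ} (hμ : Dom μ) (hi : IntV μ) (v : I → ℝ) :
    R.AA v * R.chB μ = ∑ π ∈ (R.finite_BB μ).toFinset, R.AA (v + π 1) := by
  rw [R.chB_eq]
  unfold AA
  rw [Finset.sum_mul, Finset.sum_comm]
  refine Finset.sum_congr rfl fun w _ => ?_
  rw [smul_mul_assoc, ← Finset.smul_sum, Finset.mul_sum,
    ← R.sum_BB_smul hμ hi w fun x => (ex (w • v) * ex x : GR I)]
  congr 1
  refine Finset.sum_congr rfl fun π _ => ?_
  rw [smul_add, ex_add]

/-- times at which the translated path has some coordinate at most `-1` -/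
def brauerT (lam : I → ℝ) (π : ℝ → I → ℝ) : Set ℝ :=
  {t | t ∈ Set.Icc (0:ℝ) 1 ∧ ∃ i, lam i + π t i ≤ -1}

open Classical in
/-- a coordinate that is at most `-1`, depending only on the point -/
noncomputable def brauerCh (lam p : I → ℝ) : Option I :=
  if h : ∃ i, lam i + p i ≤ -1 then some h.choose else none

/-- the coordinate chosen at the first exit time -/
noncomputable def brauerK (lam : I → ℝ) (π : ℝ → I → ℝ) : Option I :=
  brauerCh lam (π (sInf (brauerT lam π)))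

theorem brauerCh_spec {lam p : I → ℝ} {i : I} (h : brauerCh lam p = some i) :
    lam i + p i ≤ -1 := by
  unfold brauerCh at h
  split_ifs at h with h1
  have h2 := h1.choose_spec
  rwa [Option.some.inj h] at h2

theorem brauerCh_ne {lam p : I → ℝ} (h : ∃ i, lam i + p i ≤ -1) : brauerCh lam p ≠ none := by
  unfold brauerCh
  rw [dif_pos h]
  exact Option.some_ne_none _

theorem brauerT_least {lam : I → ℝ} {π : ℝ → I → ℝ} (hc : Continuous π)
    (hne : (brauerT lam π).Nonempty) : IsLeast (brauerT lam π) (sInf (brauerT lam π)) := by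
  have h1 : IsClosed (brauerT lam π) := by
    have h2 : brauerT lam π = Set.Icc (0:ℝ) 1 ∩ ⋃ i, {t | lam i + π t i ≤ -1} := by
      ext t
      simp [brauerT]
    rw [h2]
    refine isClosed_Icc.inter (isClosed_iUnion_of_finite fun i => ?_)
    exact isClosed_le (continuous_const.add ((continuous_apply i).comp hc)) continuous_const
  exact h1.isLeast_csInf hne ⟨0, fun t ht => ht.1.1⟩

theorem brauerT_congr {lam : I → ℝ} {π π' : ℝ → I → ℝ} {a : ℝ}
    (h : IsLeast (brauerT lam π) a) (he : ∀ t, 0 ≤ t → t ≤ a → π' t = π t) :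
    IsLeast (brauerT lam π') a := by
  refine ⟨⟨h.1.1, ?_⟩, fun s hs => ?_⟩
  · rw [he a h.1.1.1 le_rfl]
    exact h.1.2
  · by_contra h1
    have h2 : s < a := not_le.1 h1
    have h3 : s ∈ brauerT lam π := ⟨hs.1, by rw [← he s hs.1.1 h2.le]; exact hs.2⟩
    exact h1 (h.2 h3)

theorem brauerK_congr {lam : I → ℝ} {π π' : ℝ → I → ℝ}
    (h : IsLeast (brauerT lam π) (sInf (brauerT lam π)))
    (he : ∀ t, 0 ≤ t → t ≤ sInf (brauerT lam π) → π' t = π t) :
    brauerK lam π' = brauerK lam π ∧ ¬ ∀ t ∈ Set.Icc (0:ℝ) 1, Dom (lam + π' t) := by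
  have h1 := brauerT_congr h he
  refine ⟨?_, fun h2 => ?_⟩
  · unfold brauerK
    rw [h1.csInf_eq, he _ h.1.1.1 le_rfl]
  · obtain ⟨i, hi⟩ := h1.1.2
    have h3 := h2 _ h1.1.1 i
    rw [Pi.add_apply] at h3
    linarith

theorem brauerT_nonempty {lam μ : I → ℝ} (hli : IntV lam) (hμ : Dom μ) {π : ℝ → I → ℝ}
    (h : π ∈ R.BB μ) (hn : ¬ ∀ t ∈ Set.Icc (0:ℝ) 1, Dom (lam + π t)) :
    (brauerT lam π).Nonempty := by
  have hc := R.continuous_of_mem_BB h
  simp only [Dom, Pi.add_apply] at hn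
  push Not at hn
  obtain ⟨t, ht, i, hi⟩ := hn
  obtain ⟨s, hs, he⟩ := exists_eq_mn hc i
  obtain ⟨z, hz⟩ := R.mn_int hμ h i
  obtain ⟨y, hy⟩ := hli i
  have h1 := mn_le hc i ht
  have h2 : ((y + z : ℤ) : ℝ) < 0 := by
    push_cast
    linarith
  have h3 : y + z ≤ -1 := by
    have : y + z < 0 := by exact_mod_cast h2
    omega
  have h4 : ((y + z : ℤ) : ℝ) ≤ ((-1 : ℤ) : ℝ) := by exact_mod_cast h3
  push_cast at h4
  exact ⟨s, hs, i, by rw [he, hz, hy]; exact h4⟩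

theorem brauerT_before {lam : I → ℝ} (hl : Dom lam) {π : ℝ → I → ℝ} (hc : Continuous π)
    (h0 : π 0 = 0) {a : ℝ} (h : IsLeast (brauerT lam π) a) (i : I) {s : ℝ}
    (hs : s ∈ Set.Icc (0:ℝ) a) : -1 ≤ lam i + π s i := by
  rcases h.1.1.1.eq_or_lt with ha | ha
  · have h1 : s = 0 := le_antisymm (ha ▸ hs.2) hs.1
    rw [h1, h0, Pi.zero_apply]
    linarith [hl i]
  · have h1 : IsClosed {t | -1 ≤ lam i + π t i} :=
      isClosed_le continuous_const (continuous_const.add ((continuous_apply i).comp hc))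
    have h2 : Set.Ico (0:ℝ) a ⊆ {t | -1 ≤ lam i + π t i} := by
      intro t ht
      by_contra h3
      have h4 : lam i + π t i < -1 := not_le.1 h3
      have h5 : t ∈ brauerT lam π := ⟨⟨ht.1, ht.2.le.trans h.1.1.2⟩, i, h4.le⟩
      exact absurd (h.2 h5) (not_le.2 ht.2)
    have h3 := h1.closure_subset_iff.2 h2
    rw [closure_Ico ha.ne] at h3
    exact h3 hs

open Classical in
/-- the non dominant paths cancel -/
theorem sum_nondom {lam μ : I → ℝ} (hl : Dom lam) (hli : IntV lam) (hμ : Dom μ) (hi : IntV μ) :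
    ∑ π ∈ (R.finite_BB μ).toFinset.filter
      (fun π => ¬ ∀ t ∈ Set.Icc (0:ℝ) 1, Dom (lam + π t)), R.AA (lam + rho + π 1) = 0 := by
  set N := (R.finite_BB μ).toFinset.filter
    (fun π => ¬ ∀ t ∈ Set.Icc (0:ℝ) 1, Dom (lam + π t)) with hN
  have hmem : ∀ π, π ∈ N ↔ π ∈ R.BB μ ∧ ¬ ∀ t ∈ Set.Icc (0:ℝ) 1, Dom (lam + π t) := by
    intro π
    rw [hN, Finset.mem_filter, Set.Finite.mem_toFinset]
  have hleast : ∀ π ∈ N, IsLeast (brauerT lam π) (sInf (brauerT lam π)) := by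
    intro π hπ
    obtain ⟨h1, h2⟩ := (hmem π).1 hπ
    exact brauerT_least (R.continuous_of_mem_BB h1) (R.brauerT_nonempty hli hμ h1 h2)
  rw [← Finset.sum_fiberwise N (brauerK lam)]
  refine Finset.sum_eq_zero fun o _ => ?_
  cases o with
  | none =>
    refine Finset.sum_eq_zero fun π hπ => ?_
    rw [Finset.mem_filter] at hπ
    exact absurd hπ.2 (brauerCh_ne (hleast π hπ.1).1.2)
  | some i =>
    set X := N.filter (fun π => brauerK lam π = some i) with hX
    have hXm : ∀ π, π ∈ X ↔ π ∈ N ∧ brauerK lam π = some i := fun π => by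
      rw [hX, Finset.mem_filter]
    have hB : ∀ π ∈ X, π ∈ R.BB μ := fun π hπ => ((hmem π).1 ((hXm π).1 hπ).1).1
    have hc : ∀ π ∈ X, lam i + 1 ≤ -mn i π := by
      intro π hπ
      obtain ⟨h1, h2⟩ := (hXm π).1 hπ
      have h3 := brauerCh_spec h2
      have h4 := mn_le (R.continuous_of_mem_BB (hB π hπ)) i (hleast π h1).1.1
      linarith
    have key := R.brauer_str hμ hi i (lam i + 1) (by linarith [hl i])
      (by
        obtain ⟨z, hz⟩ := hli i
        exact ⟨z + 1, by rw [hz]; push_cast; ring⟩) X hB hc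
      (fun π hπ π' h' hF => by
        obtain ⟨h1, h2⟩ := (hXm π).1 hπ
        obtain ⟨s, hs, he⟩ := exists_eq_mn (R.continuous_of_mem_BB (hB π hπ)) i
        have h3 : s ∈ brauerT lam π := ⟨hs, i, by rw [he]; linarith [hc π hπ]⟩
        have h4 := brauerK_congr (π' := π') (hleast π h1)
          fun t _ ht => R.fRel_pre1 hF (ht.trans ((hleast π h1).2 h3)) hs he
        exact (hXm π').2 ⟨(hmem π').2 ⟨h', h4.2⟩, h4.1.trans h2⟩)
      (fun π' hπ π h' hF hm => by
        obtain ⟨h1, h2⟩ := (hXm π').1 hπ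
        have h3 := R.fRel_mn hF
        have h4 := brauerK_congr (π' := π) (hleast π' h1) fun t _ ht =>
          (R.fRel_pre2 hF (ht.trans (hleast π' h1).1.1.2) fun s hs => by
            have h5 := brauerT_before hl (R.continuous_of_mem_BB (hB π' hπ))
              (R.zero_of_mem_BB (hB π' hπ)) (hleast π' h1) i ⟨hs.1, hs.2.trans ht⟩
            linarith).symm
        exact (hXm π).2 ⟨(hmem π).2 ⟨h', h4.2⟩, h4.1.trans h2⟩)
      (fun x => R.AA (lam + rho + x))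
    have h2 : ∑ π ∈ X, R.AA (lam + rho + (π 1 - (π 1 i + (lam i + 1)) • R.rt (R.sr i))) =
        -∑ π ∈ X, R.AA (lam + rho + π 1) := by
      rw [← Finset.sum_neg_distrib]
      refine Finset.sum_congr rfl fun π _ => ?_
      rw [← R.AA_s_sr i, R.s_sr_smul]
      congr 1
      have h3 : (lam + rho + π 1 : I → ℝ) i = π 1 i + (lam i + 1) := by
        simp only [Pi.add_apply, rho]
        ring
      rw [h3, add_sub_assoc]
    have h3 : ∑ π ∈ X, R.AA (lam + rho + π 1) + ∑ π ∈ X, R.AA (lam + rho + π 1) = 0 :=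
      eq_neg_iff_add_eq_zero.1 (key.trans h2)
    have h4 : ∑ π ∈ X, R.AA (lam + rho + π 1) = (1 / 2 : ℂ) •
        (∑ π ∈ X, R.AA (lam + rho + π 1) + ∑ π ∈ X, R.AA (lam + rho + π 1)) := by
      rw [← two_smul ℂ, smul_smul]
      norm_num
    rw [h4, h3, smul_zero]

open Classical in
/-- Littelmann's decomposition rule at the level of characters -/
theorem brauer {lam μ : I → ℝ} (hl : Dom lam) (hli : IntV lam) (hμ : Dom μ) (hi : IntV μ) :
    R.AA (lam + rho) * R.chB μ = ∑ π ∈ (R.finite_BB μ).toFinset.filter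
      (fun π => ∀ t ∈ Set.Icc (0:ℝ) 1, Dom (lam + π t)), R.AA (lam + rho + π 1) := by
  rw [R.AA_mul_chB hμ hi, ← Finset.sum_filter_add_sum_filter_not _
    (fun π : ℝ → I → ℝ => ∀ t ∈ Set.Icc (0:ℝ) 1, Dom (lam + π t)),
    R.sum_nondom hl hli hμ hi, add_zero]

end RD

end Pool.Agent.Lib.MP_1e3767_al
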