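import Pool.Agent.Lib.MP_1e3767_al.Defs

namespace Pool.Agent.Lib.MP_1e3767_al

open Finset LieAlgebra LieAlgebra.IsKilling

section Aux

variable {L : Type*} [LieRing L] [LieAlgebra ℂ L] [Module.Finite ℂ L] [IsKilling ℂ L]
  {H : LieSubalgebra ℂ L} [H.IsCartanSubalgebra]

omit [IsKilling ℂ L] in
theorem bridgeL_nz (β : H.root) : β.1.IsNonZero := (Finset.mem_filter.1 β.2).2

theorem bridgeL_span (β : H.root) {x g : L} (hx : x ∈ rootSpace H (β.1 : H → ℂ))
    (hg : g ∈ rootSpace H (β.1 : H → ℂ)) (h0 : g ≠ 0) : x ∈ Submodule.span ℂ {g} := by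
  obtain ⟨c, hc⟩ := (finrank_eq_one_iff_of_nonzero' (⟨g, hg⟩ : rootSpace H (β.1 : H → ℂ))
    (by rwa [ne_eq, LieSubmodule.mk_eq_zero])).mp
      (finrank_rootSpace_eq_one β.1 (bridgeL_nz β)) ⟨x, hx⟩
  exact Submodule.mem_span_singleton.2 ⟨c, by simpa using congrArg Subtype.val hc⟩

omit [IsKilling ℂ L] in
theorem bridgeL_zero (x : H) : (x : L) ∈ rootSpace H (0 : H → ℂ) := by
  rw [rootSpace_zero_eq ℂ L H]
  exact x.2

theorem bridgeL_neg (α : H.root) :
    (((rootSystem H).reflectionPerm α α).1 : H → ℂ) = -(α.1 : H → ℂ) := by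
  have h := (rootSystem H).root_reflectionPerm α α
  rw [RootPairing.reflection_apply_self] at h
  funext x
  exact LinearMap.congr_fun h x

theorem bridgeL_kill (x y : H) :
    killingForm ℂ L x y = ∑ γ : H.root, γ.1 x * γ.1 y := by
  have h := LinearMap.congr_fun (LinearMap.congr_fun (restrict_killingForm_eq_sum (K := ℂ)
    (L := L) (H := H)) x) y
  rw [← Finset.sum_coe_sort (s := H.root)] at h
  simp only [LinearMap.sum_apply] at h
  exact h

theorem bridgeL_cartan (x : H) :
    (x : L) ∈ Submodule.span ℂ (Set.range fun β : H.root => ((coroot β.1 : H) : L)) := by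
  have h : x ∈ Submodule.span ℂ (Set.range (rootSystem H).coroot) := by
    rw [RootPairing.IsRootSystem.span_coroot_eq_top]
    trivial
  induction h using Submodule.span_induction with
  | mem y hy =>
    obtain ⟨β, rfl⟩ := hy
    exact Submodule.subset_span ⟨β, rfl⟩
  | zero => exact Submodule.zero_mem _
  | add y z _ _ hy hz => exact Submodule.add_mem _ hy hz
  | smul c y _ hy => exact Submodule.smul_mem _ c hy

end Aux

/-- the realisation attached to a Cartan subalgebra -/
theorem exists_real {L : Type*} [LieRing L] [LieAlgebra ℂ L] [Module.Finite ℂ L] [IsKilling ℂ L]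
    (H : LieSubalgebra ℂ L) [H.IsCartanSubalgebra] [DecidableEq H.root]
    (b : (rootSystem H).Base) (D : RD0 b.support H.root) (h1 : ∀ i, D.sr i = i.1)
    (h3 : ∀ β γ, D.refl β γ = (rootSystem H).reflectionPerm β γ)
    (h5 : ∀ β, (rootSystem H).coroot β = ∑ i : b.support, D.co β i • (rootSystem H).coroot i.1)
    (h6 : ∀ β (i : b.support), (D.rt β i : ℂ) = (rootSystem H).pairing β i.1) :
    ∃ T : Rlz D L, (∀ β, T.h β = ((rootSystem H).coroot β : H)) ∧
      ∀ β, T.e β ∈ rootSpace H (β.1 : H → ℂ) := by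
  choose h e f ht he hf using fun β : H.root =>
    exists_isSl2Triple_of_weight_isNonZero (bridgeL_nz β)
  have hh : ∀ β, h β = (coroot β.1 : H) := fun β =>
    (ht β).h_eq_coroot (bridgeL_nz β) (he β) (hf β)
  have h5' : ∀ β : H.root, coroot β.1 = ∑ i : b.support, (D.co β i : ℂ) • coroot i.1.1 := by
    intro β
    simp only [Int.cast_smul_eq_zsmul]
    exact h5 β
  have h6' : ∀ (β : H.root) (i : b.support), (D.rt β i : ℂ) = β.1 (coroot i.1.1) := h6
  have hcv : ∀ α β : H.root, (D.cv β (D.rt α) : ℂ) = α.1 (coroot β.1) := by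
    intro α β
    have : α.1 (coroot β.1) = (α.1 : H →ₗ[ℂ] ℂ) (coroot β.1) := rfl
    rw [this, h5' β, map_sum]
    change ((∑ i, (D.co β i : ℝ) * D.rt α i : ℝ) : ℂ) = _
    push_cast
    refine Finset.sum_congr rfl fun i _ => ?_
    rw [map_smul, h6', smul_eq_mul]
    rfl
  have hng : ∀ α : H.root, ((D.ng α).1 : H → ℂ) = -(α.1 : H → ℂ) := by
    intro α
    rw [RD0.ng, h3]
    exact bridgeL_neg α
  have hf' : ∀ α, f α ∈ rootSpace H ((D.ng α).1 : H → ℂ) := fun α => by
    rw [hng]
    exact hf α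
  have hne : ∀ α β : H.root, β ≠ D.ng α → (α.1 : H → ℂ) + (β.1 : H → ℂ) ≠ 0 := by
    intro α β hβ h0
    refine hβ (Subtype.ext (DFunLike.coe_injective ?_))
    change (β.1 : H → ℂ) = ((D.ng α).1 : H → ℂ)
    rw [hng]
    exact eq_neg_of_add_eq_zero_right h0
  refine ⟨⟨fun β => (coroot β.1 : H), e, f, fun α => by rw [(ht α).lie_e_f, hh],
    fun α β => ?_, fun α β => ?_, fun β => ?_,
    fun α => bridgeL_span _ (hf' α) (he _) (ht _).e_ne_zero,
    fun α => bridgeL_span _ (he _) (hf' α) (ht _).f_ne_zero, ?_, fun α β hβ => ?_,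
    fun α β => ?_, fun α β => ?_,
    fun α β hβ => killingForm_apply_eq_zero_of_mem_rootSpace_of_add_ne_zero ℂ L H (he α) (he β)
      (hne α β hβ)⟩, fun _ => rfl, he⟩
  · rw [hcv]
    exact lie_eq_smul_of_mem_rootSpace (he α) _
  · simpa using lie_eq_smul_of_mem_rootSpace (bridgeL_zero (coroot β.1)) (coroot α.1)
  · simp only [h1]
    rw [h5' β]
    simp
  · rw [eq_top_iff]
    have top := congrArg LieSubmodule.toSubmodule (LieModule.iSup_genWeightSpace_eq_top' ℂ H L)
    rw [LieSubmodule.iSup_toSubmodule, LieSubmodule.top_toSubmodule] at top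
    rw [← top]
    refine iSup_le fun χ x hx => ?_
    by_cases hχ : χ.IsNonZero
    · have hm : χ ∈ H.root := by simpa [LieSubalgebra.root] using hχ
      refine Submodule.span_mono ?_ (bridgeL_span ⟨χ, hm⟩ hx (he _) (ht _).e_ne_zero)
      rintro _ rfl
      exact Or.inr ⟨_, rfl⟩
    · have h0 : (χ : H → ℂ) = 0 := not_not.1 hχ
      have hx' : x ∈ rootSpace H (χ : H → ℂ) := hx
      rw [h0, rootSpace_zero_eq ℂ L H] at hx'
      exact Submodule.span_mono Set.subset_union_left (bridgeL_cartan ⟨x, hx'⟩)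
  · have hm := lie_mem_genWeightSpace_of_mem_genWeightSpace (he α) (he β)
    by_cases h0 : ⁅e α, e β⁆ = 0
    · rw [h0]
      exact Submodule.zero_mem _
    · let χ : LieModule.Weight ℂ H L := ⟨(α.1 : H → ℂ) + (β.1 : H → ℂ), fun hb => h0 (by
        rw [hb] at hm
        simpa using hm)⟩
      have hχ : χ.IsNonZero := hne α β hβ
      have hr : χ ∈ H.root := by simpa [LieSubalgebra.root] using hχ
      refine Submodule.span_mono ?_ (bridgeL_span ⟨χ, hr⟩ hm (he _) (ht _).e_ne_zero)
      rintro _ rfl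
      refine ⟨⟨χ, hr⟩, ?_, rfl⟩
      funext i
      refine Complex.ofReal_injective ?_
      rw [Pi.add_apply, Complex.ofReal_add, h6', h6', h6']
      rfl
  · rw [bridgeL_kill, RD0.KK]
    push_cast
    exact Finset.sum_congr rfl fun γ _ => by rw [hcv, hcv]
  · exact killingForm_apply_eq_zero_of_mem_rootSpace_of_add_ne_zero ℂ L H (bridgeL_zero _) (he β)
      (by rw [zero_add]; exact bridgeL_nz β)

end Pool.Agent.Lib.MP_1e3767_al
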