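import Pool.Agent.Lib.MP_1e3767_al.Defs

namespace Pool.Agent.Lib.MP_1e3767_al

open Finset

section
variable {ι M N : Type*} [AddCommGroup M] [Module ℂ M] [AddCommGroup N] [Module ℂ N]

/-- coefficients of the roots in the base, with their signs -/
theorem bridgeR_coef (P : RootPairing ι ℂ M N) (b : P.Base) :
    ∃ cf : ι → b.support → ℤ, ∀ β, P.root β = ∑ i : b.support, cf β i • P.root i.1 ∧
      (b.IsPos β → ∀ i, 0 ≤ cf β i) ∧ (¬ b.IsPos β → ∀ i, cf β i ≤ 0) := by
  have h : ∀ β, ∃ c : b.support → ℤ, P.root β = ∑ i : b.support, c i • P.root i.1 ∧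
      (b.IsPos β → ∀ i, 0 ≤ c i) ∧ (¬ b.IsPos β → ∀ i, c i ≤ 0) := by
    intro β
    obtain ⟨f, -, hf1, hf2⟩ := b.exists_root_eq_sum_int β
    have hh := RootPairing.Base.height_eq_sum hf2
    have hne := b.height_ne_zero β
    refine ⟨fun i => f i.1, ?_, ?_, ?_⟩
    · rw [hf2, ← Finset.sum_coe_sort]
    · intro hp i
      rcases hf1 with h1 | h1
      · exact h1.le i.1
      · exfalso
        rw [RootPairing.Base.isPos_iff, hh] at hp
        have : ∑ j ∈ b.support, f j ≤ 0 := Finset.sum_nonpos fun j _ => h1.le j
        omega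
    · intro hp i
      rcases hf1 with h1 | h1
      · exfalso
        rw [RootPairing.Base.isPos_iff] at hp
        have : 0 ≤ ∑ j ∈ b.support, f j := Finset.sum_nonneg fun j _ => h1.le j
        omega
      · exact h1.le i.1
  choose cf hcf using h
  exact ⟨cf, hcf⟩

theorem bridgeR_pos_flip [Finite ι] (P : RootPairing ι ℂ M N) [P.IsCrystallographic]
    [P.IsReduced] (b : P.Base) (β : ι) (h : b.IsPos β) : b.flip.IsPos β := by
  have key : b.IsPos β → b.flip.IsPos β := by
    refine h.induction_on_reflect (p := fun γ => b.IsPos γ → b.flip.IsPos γ) ?_ ?_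
    · intro i hi _
      exact RootPairing.Base.isPos_of_mem_support (b := b.flip) hi
    · intro i j hij hj hs
      by_cases e : P.reflectionPerm j i = j
      · rw [e]
        exact RootPairing.Base.isPos_of_mem_support (b := b.flip) hj
      · have h1 := hs.reflectionPerm hj e
        rw [P.reflectionPerm_self] at h1
        have hne : i ≠ j := by
          rintro rfl
          exact (RootPairing.Base.IsPos.neg_iff_not b i).1 hs h1
        exact (hij h1).reflectionPerm (b := b.flip) hj hne
  exact key h

theorem bridgeR_neg_flip [Finite ι] (P : RootPairing ι ℂ M N) [P.IsCrystallographic]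
    [P.IsReduced] (b : P.Base) (β : ι) (h : ¬ b.IsPos β) : ¬ b.flip.IsPos β := by
  have h1 := (RootPairing.Base.IsPos.neg_iff_not b β).2 h
  have h2 := bridgeR_pos_flip P b _ h1
  exact (RootPairing.Base.IsPos.neg_iff_not b.flip β).1 h2

theorem bridgeR_ext (P : RootPairing ι ℂ M N) [P.IsRootSystem] (b : P.Base) (x y : M)
    (h : ∀ i : b.support, P.toLinearMap x (P.coroot i.1) = P.toLinearMap y (P.coroot i.1)) :
    x = y := by
  apply (LinearMap.IsPerfPair.bijective_left P.toLinearMap).1
  apply b.toCoweightBasis.ext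
  intro i
  simpa using h i

end

/-- the numerical datum of a based root system over the complex numbers -/
theorem exists_RD0 {ι M N : Type*} [Fintype ι] [DecidableEq ι] [AddCommGroup M] [Module ℂ M]
    [AddCommGroup N] [Module ℂ N] (P : RootPairing ι ℂ M N) [P.IsRootSystem]
    [P.IsCrystallographic] [P.IsReduced] (b : P.Base) :
    ∃ D : RD0 b.support ι, (∀ i, D.sr i = i.1) ∧ (∀ β, β ∈ D.Pos ↔ b.IsPos β) ∧
      (∀ β γ, D.refl β γ = P.reflectionPerm β γ) ∧
      (∀ β, P.root β = ∑ i : b.support, D.cf β i • P.root i.1) ∧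
      (∀ β, P.coroot β = ∑ i : b.support, D.co β i • P.coroot i.1) ∧
      ∀ β (i : b.support), (D.rt β i : ℂ) = P.pairing β i.1 := by
  classical
  obtain ⟨cf, hcf⟩ := bridgeR_coef P b
  obtain ⟨co0, hco0⟩ := bridgeR_coef P.flip b.flip
  let co : ι → b.support → ℤ := co0
  have hco : ∀ β, P.coroot β = ∑ i : b.support, co β i • P.coroot i.1 := fun β => (hco0 β).1
  let rt : ι → b.support → ℝ := fun β i => (P.pairingIn ℤ β i.1 : ℝ)
  have hrt : ∀ β (i : b.support), (rt β i : ℂ) = P.pairing β i.1 := by
    intro β i
    have := P.algebraMap_pairingIn ℤ β i.1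
    simpa [rt] using this
  have hp : ∀ β γ, ((∑ i, (co β i : ℝ) * rt γ i : ℝ) : ℂ) = P.pairing γ β := by
    intro β γ
    rw [← P.root_coroot_eq_pairing, hco β, map_sum]
    push_cast
    refine Finset.sum_congr rfl fun i _ => ?_
    rw [hrt, map_zsmul, P.root_coroot_eq_pairing, zsmul_eq_mul]
  have hci : ∀ g g' : b.support → ℂ,
      ∑ i, g i • P.coroot i.1 = ∑ i, g' i • P.coroot i.1 → ∀ i, g i = g' i := by
    intro g g' h
    exact Fintype.linearIndependent_iffₛ.mp b.linearIndepOn_coroot g g' h
  have hco' : ∀ β, P.coroot β = ∑ i : b.support, ((co β i : ℤ) : ℂ) • P.coroot i.1 := by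
    intro β
    rw [hco β]
    simp [Int.cast_smul_eq_zsmul]
  refine ⟨{ rt := rt, co := co, cf := cf, sr := fun i => i.1
            refl := fun β γ => P.reflectionPerm β γ
            Pos := Finset.univ.filter (fun β => b.IsPos β)
            rt_inj := ?_, rt_int := ?_, rt_eq := ?_, co_sr := ?_, sr_indep := ?_
            pair_self := ?_, pos_cf := ?_, pos_co := ?_, neg_cf := ?_, neg_co := ?_
            reduced := ?_, rt_refl := ?_, co_refl := ?_ },
    fun _ => rfl, by simp, fun _ _ => rfl, fun β => (hcf β).1, hco, hrt⟩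
  · intro β γ h
    apply P.root.injective
    apply bridgeR_ext P b
    intro i
    rw [P.root_coroot_eq_pairing, P.root_coroot_eq_pairing, ← hrt, ← hrt, h]
  · intro β i
    exact ⟨_, rfl⟩
  · intro β
    funext j
    apply Complex.ofReal_injective
    rw [hrt, ← P.root_coroot_eq_pairing, (hcf β).1, map_sum, LinearMap.sum_apply,
      Finset.sum_apply]
    push_cast
    refine Finset.sum_congr rfl fun i _ => ?_
    rw [map_zsmul, LinearMap.smul_apply, P.root_coroot_eq_pairing, zsmul_eq_mul, Pi.smul_apply,
      smul_eq_mul]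
    push_cast
    rw [hrt]
  · intro i
    funext j
    have h := hci (fun k => ((co i.1 k : ℤ) : ℂ)) (Pi.single i 1) (by
      rw [← hco' i.1]
      simp [Pi.single_apply]) j
    by_cases e : j = i
    · subst e
      simp only [Pi.single_eq_same] at h ⊢
      exact_mod_cast h
    · simp only [Pi.single_eq_of_ne e] at h ⊢
      exact_mod_cast h
  · rw [Fintype.linearIndependent_iff]
    intro g hg i
    have h0 : ∑ k : b.support, (g k : ℂ) • P.root k.1 = 0 := by
      apply bridgeR_ext P b
      intro j
      have := congrArg (fun v => ((v j : ℝ) : ℂ)) hg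
      simp only [Finset.sum_apply, Pi.smul_apply, smul_eq_mul, Pi.zero_apply] at this
      push_cast at this
      rw [map_sum, LinearMap.sum_apply, map_zero, LinearMap.zero_apply, ← this]
      refine Finset.sum_congr rfl fun k _ => ?_
      rw [map_smul, LinearMap.smul_apply, P.root_coroot_eq_pairing, smul_eq_mul, hrt]
    have := Fintype.linearIndependent_iff.mp b.linearIndepOn_root (fun k => (g k : ℂ)) h0 i
    exact_mod_cast this
  · intro β
    apply Complex.ofReal_injective
    rw [hp, P.pairing_same]
    norm_num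
  · intro β hβ
    exact (hcf β).2.1 (by simpa using hβ)
  · intro β hβ
    exact (hco0 β).2.1 (bridgeR_pos_flip P b β (by simpa using hβ))
  · intro β hβ
    exact (hcf β).2.2 (by simpa using hβ)
  · intro β hβ
    exact (hco0 β).2.2 (bridgeR_neg_flip P b β (by simpa using hβ))
  · intro β γ c h
    have h1 : P.root γ = (c : ℂ) • P.root β := by
      apply bridgeR_ext P b
      intro i
      rw [map_smul, LinearMap.smul_apply, P.root_coroot_eq_pairing, P.root_coroot_eq_pairing,
        ← hrt, ← hrt, h]
      simp
    have h2 : ¬ LinearIndependent ℂ ![P.root γ, P.root β] := by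
      rw [LinearIndependent.pair_iff]
      intro hh
      have := (hh 1 (-(c : ℂ)) (by rw [h1]; simp)).1
      exact one_ne_zero this
    rcases RootPairing.IsReduced.eq_or_eq_neg γ β h2 with h3 | h3
    · exact Or.inl (P.root.injective h3)
    · right
      funext i
      apply Complex.ofReal_injective
      rw [Pi.neg_apply]
      push_cast
      rw [hrt, hrt, ← P.root_coroot_eq_pairing, ← P.root_coroot_eq_pairing, h3]
      simp
  · intro β γ
    funext j
    apply Complex.ofReal_injective
    rw [Pi.sub_apply, Pi.smul_apply, smul_eq_mul, Complex.ofReal_sub, Complex.ofReal_mul, hp,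
      hrt, hrt, hrt, ← P.root_coroot_eq_pairing (P.reflectionPerm β γ), P.root_reflectionPerm,
      P.reflection_apply_root, map_sub, map_smul, LinearMap.sub_apply, LinearMap.smul_apply,
      P.root_coroot_eq_pairing, P.root_coroot_eq_pairing, smul_eq_mul]
  · intro β γ i
    apply Complex.ofReal_injective
    rw [Complex.ofReal_sub, Complex.ofReal_mul, hp]
    have h := hci (fun k => ((co (P.reflectionPerm β γ) k : ℤ) : ℂ))
      (fun k => ((co γ k : ℤ) : ℂ) - P.pairing β γ * ((co β k : ℤ) : ℂ)) (by
        rw [← hco', P.coroot_reflectionPerm, P.coreflection_apply_coroot]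
        simp only [sub_smul, mul_smul, Finset.sum_sub_distrib, ← Finset.smul_sum, ← hco']) i
    simpa using h

end Pool.Agent.Lib.MP_1e3767_al
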