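import Pool.Agent.Lib.MP_1e3767_al.Defs

namespace Pool.Agent.Lib.MP_1e3767_al

universe u v

section BW
variable {I : Type u} {ι : Type v} [Fintype I] [DecidableEq I] (D : RD0 I ι)

theorem bridgeW_cv (β : ι) (x : I → ℝ) : D.cv β x = ∑ i, (D.co β i : ℝ) * x i := rfl

theorem bridgeW_cv_self (β : ι) : D.cv β (D.rt β) = 2 := D.pair_self β

theorem bridgeW_cv_sr (i : I) (x : I → ℝ) : D.cv (D.sr i) x = x i := by
  rw [bridgeW_cv, D.co_sr, Finset.sum_eq_single i]
  · simp
  · intro j _ hj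
    simp [hj]
  · simp

/-- the reflection as a linear map -/
noncomputable def bridgeW_lin (β : ι) : (I → ℝ) →ₗ[ℝ] (I → ℝ) :=
  LinearMap.id - (D.cv β).smulRight (D.rt β)

theorem bridgeW_lin_apply (β : ι) (x : I → ℝ) :
    bridgeW_lin D β x = x - D.cv β x • D.rt β := rfl

theorem bridgeW_lin_invol (β : ι) : Function.Involutive (bridgeW_lin D β) := by
  intro x
  rw [bridgeW_lin_apply, bridgeW_lin_apply, map_sub, map_smul, bridgeW_cv_self, smul_eq_mul]
  module

/-- the reflection as a linear automorphism -/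
noncomputable def bridgeW_s (β : ι) : (I → ℝ) ≃ₗ[ℝ] (I → ℝ) :=
  LinearEquiv.ofInvolutive (bridgeW_lin D β) (bridgeW_lin_invol D β)

theorem bridgeW_s_apply (β : ι) (x : I → ℝ) :
    bridgeW_s D β x = x - D.cv β x • D.rt β := rfl

theorem bridgeW_s_s (β : ι) (x : I → ℝ) : bridgeW_s D β (bridgeW_s D β x) = x :=
  bridgeW_lin_invol D β x

theorem bridgeW_s_mul (β : ι) : bridgeW_s D β * bridgeW_s D β = 1 :=
  LinearEquiv.ext fun x => bridgeW_s_s D β x

theorem bridgeW_s_inv (β : ι) : (bridgeW_s D β)⁻¹ = bridgeW_s D β :=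
  inv_eq_of_mul_eq_one_right (bridgeW_s_mul D β)

theorem bridgeW_rt_refl (β γ : ι) : D.rt (D.refl β γ) = bridgeW_s D β (D.rt γ) :=
  D.rt_refl β γ

theorem bridgeW_cv_refl (β γ : ι) (x : I → ℝ) :
    D.cv (D.refl β γ) x = D.cv γ (bridgeW_s D β x) := by
  rw [bridgeW_s_apply, map_sub, map_smul, smul_eq_mul, bridgeW_cv, bridgeW_cv D γ x,
    bridgeW_cv D β x, bridgeW_cv D γ (D.rt β), Finset.sum_mul, ← Finset.sum_sub_distrib]
  refine Finset.sum_congr rfl fun i _ => ?_
  rw [D.co_refl]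
  ring

theorem bridgeW_s_refl (β γ : ι) :
    bridgeW_s D (D.refl β γ) = bridgeW_s D β * bridgeW_s D γ * bridgeW_s D β := by
  refine LinearEquiv.ext fun x => ?_
  rw [LinearEquiv.mul_apply, LinearEquiv.mul_apply, bridgeW_s_apply D γ, map_sub, map_smul,
    bridgeW_s_s, bridgeW_s_apply D (D.refl β γ), bridgeW_cv_refl, bridgeW_rt_refl]

theorem bridgeW_uniq (a b : I → ℝ)
    (h : ∑ i, a i • D.rt (D.sr i) = ∑ i, b i • D.rt (D.sr i)) (j : I) : a j = b j := by
  have := Fintype.linearIndependent_iff.1 D.sr_indep (fun i => a i - b i) (by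
    simp only [sub_smul, Finset.sum_sub_distrib, h, sub_self]) j
  exact sub_eq_zero.1 this

theorem bridgeW_cf_sr (i : I) (β : ι) (j : I) :
    (D.cf (D.refl (D.sr i) β) j : ℝ) = D.cf β j - if j = i then D.rt β i else 0 := by
  refine bridgeW_uniq D (fun j => (D.cf (D.refl (D.sr i) β) j : ℝ))
    (fun j => D.cf β j - if j = i then D.rt β i else 0) ?_ j
  rw [← D.rt_eq, bridgeW_rt_refl, bridgeW_s_apply, bridgeW_cv_sr]
  simp only [sub_smul, Finset.sum_sub_distrib, ← D.rt_eq, ite_smul, zero_smul,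
    Finset.sum_ite_eq', Finset.mem_univ, if_true]

theorem bridgeW_cf_ng (β : ι) (j : I) : (D.cf (D.refl β β) j : ℝ) = -D.cf β j := by
  refine bridgeW_uniq D (fun j => (D.cf (D.refl β β) j : ℝ)) (fun j => -D.cf β j) ?_ j
  rw [← D.rt_eq, bridgeW_rt_refl, bridgeW_s_apply, bridgeW_cv_self]
  simp only [neg_smul, Finset.sum_neg_distrib, ← D.rt_eq]
  module

theorem bridgeW_ng_pos (β : ι) (hβ : β ∉ D.Pos) : D.refl β β ∈ D.Pos := by
  by_contra h
  have h0 : ∀ j, (D.cf β j : ℝ) = 0 := fun j => by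
    have h1 : (D.cf β j : ℝ) ≤ 0 := by exact_mod_cast D.neg_cf β hβ j
    have h2 : (D.cf (D.refl β β) j : ℝ) ≤ 0 := by exact_mod_cast D.neg_cf _ h j
    rw [bridgeW_cf_ng] at h2
    linarith
  have h1 : D.rt β = 0 := by
    rw [D.rt_eq]
    simp [h0]
  have h2 := bridgeW_cv_self D β
  rw [h1, map_zero] at h2
  norm_num at h2

theorem bridgeW_exists_pos (β : ι) (hβ : β ∈ D.Pos) : ∃ i, 0 < D.rt β i := by
  by_contra h
  push Not at h
  have h1 : ∑ i, (D.co β i : ℝ) * D.rt β i ≤ 0 :=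
    Finset.sum_nonpos fun i _ =>
      mul_nonpos_of_nonneg_of_nonpos (by exact_mod_cast D.pos_co β hβ i) (h i)
  rw [D.pair_self] at h1
  norm_num at h1

theorem bridgeW_refl_pos (β : ι) (hβ : β ∈ D.Pos) (i : I) (hi : 0 < D.rt β i)
    (hne : β ≠ D.sr i) : D.refl (D.sr i) β ∈ D.Pos := by
  by_contra h
  have h0 : ∀ j, j ≠ i → (D.cf β j : ℝ) = 0 := fun j hj => by
    have h1 : (0 : ℝ) ≤ D.cf β j := by exact_mod_cast D.pos_cf β hβ j
    have h2 : (D.cf (D.refl (D.sr i) β) j : ℝ) ≤ 0 := by exact_mod_cast D.neg_cf _ h j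
    rw [bridgeW_cf_sr, if_neg hj] at h2
    linarith
  have h1 : D.rt β = (D.cf β i : ℝ) • D.rt (D.sr i) := by
    rw [D.rt_eq β, Finset.sum_eq_single i]
    · intro j _ hj
      rw [h0 j hj, zero_smul]
    · simp
  rcases D.reduced (D.sr i) β _ h1 with h2 | h2
  · exact hne h2
  · have h3 : D.rt (D.sr i) i = 2 := by
      rw [← bridgeW_cv_sr D i (D.rt (D.sr i)), bridgeW_cv_self]
    rw [h2, Pi.neg_apply, h3] at hi
    norm_num at hi

/-- the Weyl group -/
noncomputable def bridgeW_W : Subgroup ((I → ℝ) ≃ₗ[ℝ] (I → ℝ)) :=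
  Subgroup.closure (Set.range fun i => bridgeW_s D (D.sr i))

theorem bridgeW_sr_mem (i : I) : bridgeW_s D (D.sr i) ∈ bridgeW_W D :=
  Subgroup.subset_closure ⟨i, rfl⟩

theorem bridgeW_ind (p : (x : (I → ℝ) ≃ₗ[ℝ] (I → ℝ)) → x ∈ bridgeW_W D → Prop)
    (h1 : p 1 (one_mem _))
    (hs : ∀ i w (hw : w ∈ bridgeW_W D), p w hw →
      p (bridgeW_s D (D.sr i) * w) (mul_mem (bridgeW_sr_mem D i) hw))
    (w) (hw : w ∈ bridgeW_W D) : p w hw := by
  refine Subgroup.closure_induction_left (p := p) h1 ?_ ?_ hw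
  · rintro _ ⟨i, rfl⟩ y hy h
    exact hs i y hy h
  · rintro _ ⟨i, rfl⟩ y hy h
    have := hs i y hy h
    simpa only [bridgeW_s_inv] using this

theorem bridgeW_mem_pos (n : ℕ) : ∀ β ∈ D.Pos, ∑ j, D.cf β j < n →
    bridgeW_s D β ∈ bridgeW_W D := by
  induction n with
  | zero =>
    intro β hβ h
    have : 0 ≤ ∑ j, D.cf β j := Finset.sum_nonneg fun j _ => D.pos_cf β hβ j
    omega
  | succ n ih =>
    intro β hβ h
    obtain ⟨i, hi⟩ := bridgeW_exists_pos D β hβ
    by_cases hne : β = D.sr i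
    · rw [hne]
      exact bridgeW_sr_mem D i
    · have h1 : ((∑ j, D.cf (D.refl (D.sr i) β) j : ℤ) : ℝ) < ((∑ j, D.cf β j : ℤ) : ℝ) := by
        push_cast
        simp only [bridgeW_cf_sr, Finset.sum_sub_distrib, Finset.sum_ite_eq', Finset.mem_univ,
          if_true]
        linarith
      have h2 : ∑ j, D.cf (D.refl (D.sr i) β) j < ∑ j, D.cf β j := by exact_mod_cast h1
      have h3 := ih _ (bridgeW_refl_pos D β hβ i hi hne) (by push_cast at h; omega)
      rw [bridgeW_s_refl] at h3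
      exact (mul_mem_cancel_left (bridgeW_sr_mem D i)).1
        ((mul_mem_cancel_right (bridgeW_sr_mem D i)).1 h3)

theorem bridgeW_mem (β : ι) : bridgeW_s D β ∈ bridgeW_W D := by
  have key : ∀ β ∈ D.Pos, bridgeW_s D β ∈ bridgeW_W D := fun β hβ =>
    bridgeW_mem_pos D ((∑ j, D.cf β j).toNat + 1) β hβ (by push_cast; omega)
  by_cases hβ : β ∈ D.Pos
  · exact key β hβ
  · have := key _ (bridgeW_ng_pos D β hβ)
    rwa [bridgeW_s_refl, bridgeW_s_mul, one_mul] at this

theorem bridgeW_exists (w : bridgeW_W D) (β : ι) :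
    ∃ γ, D.rt γ = w.1 (D.rt β) ∧ ∀ x, D.cv γ (w.1 x) = D.cv β x := by
  refine bridgeW_ind D (fun w _ => ∃ γ, D.rt γ = w (D.rt β) ∧ ∀ x, D.cv γ (w x) = D.cv β x)
    ⟨β, rfl, fun _ => rfl⟩ ?_ w.1 w.2
  rintro i w - ⟨γ, h1, h2⟩
  refine ⟨D.refl (D.sr i) γ, ?_, fun x => ?_⟩
  · rw [bridgeW_rt_refl, h1, LinearEquiv.mul_apply]
  · rw [bridgeW_cv_refl, LinearEquiv.mul_apply, bridgeW_s_s, h2]

/-- the action on roots -/
noncomputable def bridgeW_act (w : bridgeW_W D) (β : ι) : ι := (bridgeW_exists D w β).choose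

theorem bridgeW_act_rt (w : bridgeW_W D) (β : ι) : D.rt (bridgeW_act D w β) = w.1 (D.rt β) :=
  (bridgeW_exists D w β).choose_spec.1

theorem bridgeW_act_cv (w : bridgeW_W D) (β : ι) (x : I → ℝ) :
    D.cv (bridgeW_act D w β) (w.1 x) = D.cv β x :=
  (bridgeW_exists D w β).choose_spec.2 x

/-- the action on roots as a group action -/
@[reducible] noncomputable def bridgeW_mulAction : MulAction (bridgeW_W D) ι where
  smul := bridgeW_act D
  one_smul β := D.rt_inj (bridgeW_act_rt D 1 β)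
  mul_smul a b β := D.rt_inj (by
    show D.rt (bridgeW_act D (a * b) β) = D.rt (bridgeW_act D a (bridgeW_act D b β))
    rw [bridgeW_act_rt, bridgeW_act_rt, bridgeW_act_rt]
    rfl)

theorem bridgeW_finite [Fintype ι] : Finite (bridgeW_W D) := by
  refine Finite.of_injective (fun w : bridgeW_W D => bridgeW_act D w) fun a b h => ?_
  have hspan : Submodule.span ℝ (Set.range fun i => D.rt (D.sr i)) = ⊤ :=
    D.sr_indep.span_eq_top_of_card_eq_finrank' (by simp)
  refine Subtype.ext (LinearEquiv.toLinearMap_injective (LinearMap.ext_on_range hspan fun i => ?_))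
  have := congrArg D.rt (congrFun h (D.sr i))
  simp only [bridgeW_act_rt] at this
  exact this

end BW

/-- construction of the Weyl group -/
theorem exists_RD {I : Type u} {ι : Type v} [Fintype I] [DecidableEq I] [Fintype ι]
    (D : RD0 I ι) :
    ∃ (W : Type u) (_ : Group W) (_ : Fintype W) (_ : DistribMulAction W (I → ℝ))
      (_ : SMulCommClass W ℝ (I → ℝ)) (_ : MulAction W ι) (R : RD I ι W), R.toRD0 = D := by
  have := bridgeW_finite D
  let _ := bridgeW_mulAction D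
  refine ⟨bridgeW_W D, inferInstance, Fintype.ofFinite _, inferInstance, inferInstance,
    bridgeW_mulAction D,
    { toRD0 := D
      s := fun β => ⟨bridgeW_s D β, bridgeW_mem D β⟩
      smul_rt := fun w β => bridgeW_act_rt D w β
      smul_co := fun w β x => bridgeW_act_cv D w β x
      s_smul := fun β x => bridgeW_s_apply D β x
      faithful := fun w h => Subtype.ext (LinearEquiv.ext h)
      gen := fun p h1 hs w =>
        bridgeW_ind D (fun w hw => p ⟨w, hw⟩) h1 (fun i w hw h => hs i ⟨w, hw⟩ h) w.1 w.2 }, rfl⟩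

end Pool.Agent.Lib.MP_1e3767_al
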