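import Pool.Agent.Lib.MP_1e3767_al.Len

set_option linter.unusedSectionVars false

namespace Pool.Agent.Lib.MP_1e3767_al

open Finset

namespace RD
variable {I ι W : Type*} [Fintype I] [DecidableEq I] [Fintype ι] [Group W] [Fintype W]
  [DistribMulAction W (I → ℝ)] [SMulCommClass W ℝ (I → ℝ)] [MulAction W ι] (R : RD I ι W)

theorem step_sr_mul {u : W} {β : ι} (h : R.Step u β) {i : I} (hi : β ≠ R.sr i) :
    R.Step (R.s (R.sr i) * u) (R.s (R.sr i) • β) := by
  refine ⟨R.s_sr_mem_Pos h.1 hi, ?_⟩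
  rw [mul_smul, R.cv_smul_smul]
  exact h.2

theorem s_sr_mul_comm (u : W) (β : ι) (i : I) :
    R.s (R.s (R.sr i) • β) * (R.s (R.sr i) * u) = R.s (R.sr i) * (R.s β * u) := by
  rw [R.s_conj]
  group

theorem bruhat_pos_of_not_neg (R : RD I ι W) {w : W} {i : I}
    (h : ¬ (w • (rho : I → ℝ)) i < 0) : 0 < (w • (rho : I → ℝ)) i :=
  lt_of_le_of_ne (not_lt.mp h) (R.smul_rho_ne w i).symm

theorem bruhat_le_of_neg {w : W} {i : I} (h : (w • (rho : I → ℝ)) i < 0) :
    R.Le (R.s (R.sr i) * w) w :=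
  R.le_of_step (R.cover_sr h).1

theorem bruhat_le_of_pos {w : W} {i : I} (h : 0 < (w • (rho : I → ℝ)) i) :
    R.Le w (R.s (R.sr i) * w) := by
  have h1 : ((R.s (R.sr i) * w) • (rho : I → ℝ)) i < 0 := by
    rw [R.sr_mul_rho]; linarith
  have h2 := R.bruhat_le_of_neg h1
  rwa [R.s_mul_s_mul] at h2

/-- a cover between two elements with the same sign at `i` can be multiplied by `s i` -/
theorem cover_sr_mul {u : W} {β : ι} (h : R.Cover u β) {i : I}
    (hs : (u • (rho : I → ℝ)) i < 0 ↔ ((R.s β * u) • (rho : I → ℝ)) i < 0) :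
    R.Cover (R.s (R.sr i) * u) (R.s (R.sr i) • β) := by
  have hne : β ≠ R.sr i := by
    intro hb
    rw [hb, R.sr_mul_rho] at hs
    have h0 := R.smul_rho_ne u i
    rcases lt_or_gt_of_ne h0 with h1 | h1
    · have := hs.mp h1
      linarith
    · have := hs.mpr (by linarith)
      linarith
  refine ⟨R.step_sr_mul h.1 hne, ?_⟩
  rw [R.s_sr_mul_comm]
  have hl := h.2
  by_cases h1 : (u • (rho : I → ℝ)) i < 0
  · have a1 := R.len_sr_neg h1
    have a2 := R.len_sr_neg (hs.mp h1)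
    omega
  · have a1 := R.len_sr_pos (R.bruhat_pos_of_not_neg h1)
    have a2 := R.len_sr_pos (R.bruhat_pos_of_not_neg (fun h2 => h1 (hs.mpr h2)))
    omega

/-- a cover from a descent to an ascent is the simple reflection -/
theorem eq_sr_of_cover {u : W} {β : ι} (h : R.Cover u β) {i : I}
    (h1 : (u • (rho : I → ℝ)) i < 0) (h2 : 0 < ((R.s β * u) • (rho : I → ℝ)) i) :
    β = R.sr i := by
  by_contra hne
  have a0 := R.len_step (R.step_sr_mul h.1 hne)
  rw [R.s_sr_mul_comm] at a0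
  have a1 := R.len_sr_neg h1
  have a2 := R.len_sr_pos h2
  have hl := h.2
  omega

/-- the larger of `w` and `s i * w` -/
noncomputable def bruhatUp (i : I) (w : W) : W :=
  if (w • (rho : I → ℝ)) i < 0 then w else R.s (R.sr i) * w

/-- the smaller of `w` and `s i * w` -/
noncomputable def bruhatDn (i : I) (w : W) : W :=
  if (w • (rho : I → ℝ)) i < 0 then R.s (R.sr i) * w else w

theorem bruhat_lift_step {u : W} {β : ι} (h : R.Step u β) (i : I) :
    R.Le (R.bruhatUp i (R.s β * u)) (R.bruhatUp i u) ∧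
      R.Le (R.bruhatDn i (R.s β * u)) (R.bruhatDn i u) := by
  by_cases hb : β = R.sr i
  · subst hb
    have h1 : (u • (rho : I → ℝ)) i < 0 := by
      have := h.2
      rwa [R.cv_sr] at this
    have h2 : ¬ ((R.s (R.sr i) * u) • (rho : I → ℝ)) i < 0 := by
      rw [R.sr_mul_rho]; linarith
    unfold bruhatUp bruhatDn
    rw [if_neg h2, if_neg h2, if_pos h1, if_pos h1, R.s_mul_s_mul]
    exact ⟨R.le_refl' _, R.le_refl' _⟩
  · have a1 : R.Le (R.s β * u) u := R.le_of_step h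
    have a2 : R.Le (R.s (R.sr i) * (R.s β * u)) (R.s (R.sr i) * u) := by
      have := R.le_of_step (R.step_sr_mul h hb)
      rwa [R.s_sr_mul_comm] at this
    unfold bruhatUp bruhatDn
    by_cases h1 : (u • (rho : I → ℝ)) i < 0
    · by_cases h2 : ((R.s β * u) • (rho : I → ℝ)) i < 0
      · rw [if_pos h2, if_pos h2, if_pos h1, if_pos h1]
        exact ⟨a1, a2⟩
      · rw [if_neg h2, if_neg h2, if_pos h1, if_pos h1]
        exact ⟨R.le_trans' a2 (R.bruhat_le_of_neg h1),
          R.le_trans' (R.bruhat_le_of_pos (R.bruhat_pos_of_not_neg h2)) a2⟩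
    · by_cases h2 : ((R.s β * u) • (rho : I → ℝ)) i < 0
      · rw [if_pos h2, if_pos h2, if_neg h1, if_neg h1]
        exact ⟨R.le_trans' a1 (R.bruhat_le_of_pos (R.bruhat_pos_of_not_neg h1)),
          R.le_trans' (R.bruhat_le_of_neg h2) a1⟩
      · rw [if_neg h2, if_neg h2, if_neg h1, if_neg h1]
        exact ⟨a2, a1⟩

theorem bruhat_lift {u v : W} (h : R.Le v u) (i : I) :
    R.Le (R.bruhatUp i v) (R.bruhatUp i u) ∧ R.Le (R.bruhatDn i v) (R.bruhatDn i u) := by
  unfold Le at h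
  induction h with
  | refl => exact ⟨R.le_refl' _, R.le_refl' _⟩
  | tail _ hs ih =>
    obtain ⟨β, hβ, rfl⟩ := hs
    have := R.bruhat_lift_step hβ i
    exact ⟨R.le_trans' this.1 ih.1, R.le_trans' this.2 ih.2⟩

/-- lifting, both ascending -/
theorem le_sr_mul_of_pos {u v : W} (h : R.Le v u) {i : I} (hu : 0 < (u • (rho : I → ℝ)) i)
    (hv : 0 < (v • (rho : I → ℝ)) i) : R.Le (R.s (R.sr i) * v) (R.s (R.sr i) * u) := by
  have := (R.bruhat_lift h i).1
  unfold bruhatUp at this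
  rwa [if_neg (not_lt.mpr hv.le), if_neg (not_lt.mpr hu.le)] at this

/-- lifting, both descending -/
theorem le_sr_mul_of_neg {u v : W} (h : R.Le v u) {i : I} (hu : (u • (rho : I → ℝ)) i < 0)
    (hv : (v • (rho : I → ℝ)) i < 0) : R.Le (R.s (R.sr i) * v) (R.s (R.sr i) * u) := by
  have := (R.bruhat_lift h i).2
  unfold bruhatDn at this
  rwa [if_pos hv, if_pos hu] at this

theorem le_sr_mul_right {u v : W} (h : R.Le v u) {i : I} (hv : 0 < (v • (rho : I → ℝ)) i) :
    R.Le v (R.s (R.sr i) * u) := by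
  have := (R.bruhat_lift h i).2
  unfold bruhatDn at this
  rw [if_neg (not_lt.mpr hv.le)] at this
  by_cases hu : (u • (rho : I → ℝ)) i < 0
  · rwa [if_pos hu] at this
  · exact R.le_trans' h (R.bruhat_le_of_pos (R.bruhat_pos_of_not_neg hu))

theorem le_sr_mul_left {u v : W} (h : R.Le v u) {i : I} (hu : (u • (rho : I → ℝ)) i < 0) :
    R.Le (R.s (R.sr i) * v) u := by
  have := (R.bruhat_lift h i).1
  unfold bruhatUp at this
  rw [if_pos hu] at this
  by_cases hv : (v • (rho : I → ℝ)) i < 0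
  · exact R.le_trans' (R.bruhat_le_of_neg hv) h
  · rwa [if_neg hv] at this

theorem bruhat_conj_chain (i : I) (a : List ι) : ∀ x : W, R.CChain x a →
    0 < (x • (rho : I → ℝ)) i →
    (R.CChain (R.s (R.sr i) * x) (a.map (fun β => R.s (R.sr i) • β)) ∧
      R.endb (R.s (R.sr i) * x) (a.map (fun β => R.s (R.sr i) • β)) =
        R.s (R.sr i) * R.endb x a) ∨
    ∃ k : W, (k • (rho : I → ℝ)) i < 0 ∧ R.Le (R.endb x a) k ∧ R.Le k x := by
  induction a with
  | nil => intro x _ _; exact Or.inl ⟨trivial, rfl⟩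
  | cons β l ih =>
    intro x hc hx
    obtain ⟨hc1, hc2⟩ := hc
    by_cases h2 : ((R.s β * x) • (rho : I → ℝ)) i < 0
    · exact Or.inr ⟨R.s β * x, h2, R.le_of_cchain hc2, R.le_of_step hc1.1⟩
    · rcases ih (R.s β * x) hc2 (R.bruhat_pos_of_not_neg h2) with ⟨b1, b2⟩ | ⟨k, b1, b2, b3⟩
      · left
        have hcov : R.Cover (R.s (R.sr i) * x) (R.s (R.sr i) • β) :=
          R.cover_sr_mul hc1 ⟨fun h => absurd h (not_lt.mpr hx.le), fun h => absurd h h2⟩
        refine ⟨⟨hcov, ?_⟩, ?_⟩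
        · rw [R.s_sr_mul_comm]; exact b1
        · show R.endb (R.s (R.s (R.sr i) • β) * (R.s (R.sr i) * x))
            (l.map (fun β => R.s (R.sr i) • β)) = R.s (R.sr i) * R.endb (R.s β * x) l
          rw [R.s_sr_mul_comm]; exact b2
      · exact Or.inr ⟨k, b1, b2, R.le_trans' b3 (R.le_of_step hc1.1)⟩

theorem bruhat_cchain_aux (n : ℕ) : ∀ u v : W, R.len u = n → R.Le v u →
    ∃ a, R.CChain u a ∧ R.endb u a = v := by
  induction n using Nat.strong_induction_on with
  | _ n ih =>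
    intro u v hn h
    by_cases huv : v = u
    · exact ⟨[], trivial, huv.symm⟩
    have hlt := R.len_lt_of_le h huv
    have hu1 : u ≠ 1 := by
      intro h1
      rw [h1, R.len_one] at hlt
      omega
    obtain ⟨i, hi⟩ := R.exists_neg_of_ne_one hu1
    have hl := R.len_sr_neg hi
    have hpre : R.Le v (R.s (R.sr i) * u) → ∃ a, R.CChain u a ∧ R.endb u a = v := by
      intro h'
      obtain ⟨a, ha1, ha2⟩ := ih (R.len (R.s (R.sr i) * u)) (by omega) _ v rfl h'
      exact ⟨R.sr i :: a, ⟨R.cover_sr hi, ha1⟩, ha2⟩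
    by_cases hv : (v • (rho : I → ℝ)) i < 0
    · obtain ⟨a, ha1, ha2⟩ := ih (R.len (R.s (R.sr i) * u)) (by omega) _ _ rfl
        (R.le_sr_mul_of_neg h hi hv)
      have hx : 0 < ((R.s (R.sr i) * u) • (rho : I → ℝ)) i := by
        rw [R.sr_mul_rho]; linarith
      rcases R.bruhat_conj_chain i a _ ha1 hx with ⟨b1, b2⟩ | ⟨k, b1, b2, b3⟩
      · rw [R.s_mul_s_mul] at b1 b2
        rw [ha2, R.s_mul_s_mul] at b2
        exact ⟨_, b1, b2⟩
      · rw [ha2] at b2
        have b4 := R.le_sr_mul_left b2 b1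
        rw [R.s_mul_s_mul] at b4
        exact hpre (R.le_trans' b4 b3)
    · exact hpre (R.le_sr_mul_right h (R.bruhat_pos_of_not_neg hv))

/-- chain lemma -/
theorem exists_cchain {u v : W} (h : R.Le v u) : ∃ a, R.CChain u a ∧ R.endb u a = v := by
  exact R.bruhat_cchain_aux _ u v rfl h

theorem bruhat_w0_aux (n : ℕ) : ∀ u : W, R.Pos.card - R.len u = n → R.Le u R.w0 := by
  induction n using Nat.strong_induction_on with
  | _ n ih =>
    intro u hn
    by_cases h : ∀ i, (u • (rho : I → ℝ)) i < 0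
    · rw [R.eq_w0 h]
      exact R.le_refl' _
    · obtain ⟨i, hi⟩ := not_forall.mp h
      have hp := R.bruhat_pos_of_not_neg hi
      have a1 := R.len_sr_pos hp
      have a2 := R.len_le (R.s (R.sr i) * u)
      exact R.le_trans' (R.bruhat_le_of_pos hp)
        (ih (R.Pos.card - R.len (R.s (R.sr i) * u)) (by omega) _ rfl)

theorem le_w0 (u : W) : R.Le u R.w0 := by
  exact R.bruhat_w0_aux _ u rfl

theorem bruhat_one_aux (n : ℕ) : ∀ u : W, R.len u = n → R.Le 1 u := by
  induction n using Nat.strong_induction_on with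
  | _ n ih =>
    intro u hn
    by_cases h : u = 1
    · rw [h]
      exact R.le_refl' _
    · obtain ⟨i, hi⟩ := R.exists_neg_of_ne_one h
      have a1 := R.len_sr_neg hi
      exact R.le_trans' (ih (R.len (R.s (R.sr i) * u)) (by omega) _ rfl) (R.bruhat_le_of_neg hi)

theorem one_le (u : W) : R.Le 1 u := by
  exact R.bruhat_one_aux _ u rfl

theorem bruhat_sr_fix {p : I → ℝ} {i : I} (h : p i = 0) : R.s (R.sr i) • p = p := by
  rw [R.s_sr_smul, h, zero_smul, sub_zero]

theorem bruhat_stab_aux {p : I → ℝ} {v : W}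
    (hv : ∀ i, p i = 0 → 0 < (v • (rho : I → ℝ)) i) (n : ℕ) : ∀ u : W, R.len u = n →
    R.Le v u →
    ∃ y : W, y • p = p ∧ (∀ i, p i = 0 → 0 < ((y * u) • (rho : I → ℝ)) i) ∧ R.Le v (y * u) := by
  induction n using Nat.strong_induction_on with
  | _ n ih =>
    intro u hn h
    by_cases hu : ∀ i, p i = 0 → 0 < (u • (rho : I → ℝ)) i
    · exact ⟨1, one_smul _ _, by simpa using hu, by simpa using h⟩
    · obtain ⟨i, hi⟩ := not_forall.mp hu
      obtain ⟨hi1, hi2⟩ := Classical.not_imp.mp hi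
      have hneg : (u • (rho : I → ℝ)) i < 0 :=
        lt_of_le_of_ne (not_lt.mp hi2) (R.smul_rho_ne u i)
      have a1 := R.len_sr_neg hneg
      obtain ⟨y, hy1, hy2, hy3⟩ := ih (R.len (R.s (R.sr i) * u)) (by omega) _ rfl
        (R.le_sr_mul_right h (hv i hi1))
      refine ⟨y * R.s (R.sr i), ?_, ?_, ?_⟩
      · rw [mul_smul, R.bruhat_sr_fix hi1, hy1]
      · rw [mul_assoc]; exact hy2
      · rw [mul_assoc]; exact hy3

/-- going down inside the stabiliser of a dominant point -/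
theorem exists_stab_down {p : I → ℝ} {u v : W} (h : R.Le v u)
    (hv : ∀ i, p i = 0 → 0 < (v • (rho : I → ℝ)) i) :
    ∃ y : W, y • p = p ∧ (∀ i, p i = 0 → 0 < ((y * u) • (rho : I → ℝ)) i) ∧ R.Le v (y * u) := by
  exact R.bruhat_stab_aux hv _ u rfl h

theorem bruhat_stab_pos (R : RD I ι W) {p : I → ℝ} (hp : Dom p) {w y : W}
    (hw : ∀ j, p j = 0 → 0 < (w • (rho : I → ℝ)) j) (hy : y • p = p) {i : I} (hi : p i = 0)
    (hyi : 0 < (y • (rho : I → ℝ)) i) : 0 < ((y * w) • (rho : I → ℝ)) i := by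
  have hg : y⁻¹ • R.sr i ∈ R.Pos := by
    by_contra hc
    have := (R.cv_smul_rho_neg_iff (R.sr i) y).mpr hc
    rw [R.cv_sr] at this
    linarith
  have h0 : R.cv (y⁻¹ • R.sr i) p = 0 := by
    rw [← R.cv_smul, hy, R.cv_sr, hi]
  have hco : ∀ j, (0 : ℝ) ≤ (R.co (y⁻¹ • R.sr i) j : ℝ) := fun j => by
    exact_mod_cast R.pos_co _ hg j
  rw [R.cv_apply] at h0
  have hz := (Finset.sum_eq_zero_iff_of_nonneg
    (fun j _ => mul_nonneg (hco j) (hp j))).mp h0
  have h1 : ((y * w) • (rho : I → ℝ)) i = R.cv (y⁻¹ • R.sr i) (w • rho) := by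
    rw [← R.cv_smul, R.cv_sr, mul_smul]
  rw [h1]
  refine lt_of_le_of_ne ?_ (R.cv_smul_rho_ne _ w).symm
  rw [R.cv_apply]
  refine Finset.sum_nonneg (fun j _ => ?_)
  rcases mul_eq_zero.mp (hz j (Finset.mem_univ j)) with h2 | h2
  · rw [h2, zero_mul]
  · exact mul_nonneg (hco j) (hw j h2).le

theorem bruhat_stab_mul_aux {p : I → ℝ} (hp : Dom p) {u v : W} (h : R.Le v u)
    (hu : ∀ i, p i = 0 → 0 < (u • (rho : I → ℝ)) i)
    (hv : ∀ i, p i = 0 → 0 < (v • (rho : I → ℝ)) i) (n : ℕ) : ∀ y : W, R.len y = n →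
    y • p = p → R.Le (y * v) (y * u) := by
  induction n using Nat.strong_induction_on with
  | _ n ih =>
    intro y hn hy
    by_cases h1 : y = 1
    · rw [h1, one_mul, one_mul]
      exact h
    · obtain ⟨i, hi⟩ := R.exists_neg_of_ne_one h1
      have a1 := R.len_sr_neg hi
      have hpi : p i = 0 := by
        have b1 : R.cv (R.sr i) (y • rho) < 0 := by rwa [R.cv_sr]
        have b2 := R.cv_le_of_rho_neg b1 hp
        rw [hy, R.cv_sr] at b2
        exact le_antisymm b2 (hp i)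
      have hy' : (R.s (R.sr i) * y) • p = p := by
        rw [mul_smul, hy, R.bruhat_sr_fix hpi]
      have hx : 0 < ((R.s (R.sr i) * y) • (rho : I → ℝ)) i := by
        rw [R.sr_mul_rho]; linarith
      have b3 := R.le_sr_mul_of_pos (ih (R.len (R.s (R.sr i) * y)) (by omega) _ rfl hy')
        (R.bruhat_stab_pos hp hu hy' hpi hx) (R.bruhat_stab_pos hp hv hy' hpi hx)
      rwa [mul_assoc, mul_assoc, R.s_mul_s_mul, R.s_mul_s_mul] at b3

/-- the order between minimal coset representatives is seen from every chamber at `p` -/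
theorem le_stab_mul {p : I → ℝ} (hp : Dom p) {u v : W} (h : R.Le v u)
    (hu : ∀ i, p i = 0 → 0 < (u • (rho : I → ℝ)) i)
    (hv : ∀ i, p i = 0 → 0 < (v • (rho : I → ℝ)) i) {y : W} (hy : y • p = p) :
    R.Le (y * v) (y * u) := by
  exact R.bruhat_stab_mul_aux hp h hu hv _ y rfl hy

end RD

end Pool.Agent.Lib.MP_1e3767_al
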