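import Pool.Agent.Lib.MP_1e3767_al.LieChar

set_option linter.unusedSectionVars false

namespace Pool.Agent.Lib.MP_1e3767_al

open Finset

namespace Rlz
variable {I ι W : Type*} [Fintype I] [DecidableEq I] [Fintype ι] [Group W] [Fintype W]
  [DistribMulAction W (I → ℝ)] [SMulCommClass W ℝ (I → ℝ)] [MulAction W ι] {R : RD I ι W}
  {L : Type*} [LieRing L] [LieAlgebra ℂ L] [Module.Finite ℂ L] (T : Rlz R.toRD0 L)
  {M : Type*} [AddCommGroup M] [Module ℂ M] [LieRingModule L M] [LieModule ℂ L M]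

theorem casimir_symm (x y : L) : killingForm ℂ L x y = killingForm ℂ L y x :=
  LieModule.traceForm_comm ℂ L L x y

theorem casimir_inv (x y z : L) : killingForm ℂ L ⁅x, y⁆ z = killingForm ℂ L x ⁅y, z⁆ :=
  LieModule.traceForm_apply_lie_apply ℂ L L x y z

theorem casimir_skew (z x y : L) :
    killingForm ℂ L ⁅z, x⁆ y + killingForm ℂ L ⁅z, y⁆ x = 0 := by
  rw [casimir_inv, casimir_inv, ← map_add, ← lie_skew x y, neg_add_cancel, map_zero]

theorem kill_ef (α : ι) : (R.dd α : ℂ) * killingForm ℂ L (T.e α) (T.f α) = 1 := by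
  have h1 : killingForm ℂ L (T.h α) (T.h α) = 2 * killingForm ℂ L (T.e α) (T.f α) := by
    have h2 : ⁅T.f α, T.h α⁆ = (2 : ℂ) • T.f α := by
      rw [← lie_skew, T.lie_hf α α, neg_neg, R.cv_self]
      norm_num
    calc killingForm ℂ L (T.h α) (T.h α) = killingForm ℂ L ⁅T.e α, T.f α⁆ (T.h α) := by
          rw [T.lie_ef]
      _ = killingForm ℂ L (T.e α) ⁅T.f α, T.h α⁆ := casimir_inv _ _ _
      _ = 2 * killingForm ℂ L (T.e α) (T.f α) := by rw [h2, map_smul, smul_eq_mul]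
  rw [T.kill_hh] at h1
  have h3 : (R.KK α α : ℂ) ≠ 0 := by exact_mod_cast (R.KK_self_pos α).ne'
  have h4 : (R.dd α : ℂ) = 2 / (R.KK α α : ℂ) := by
    unfold RD0.dd
    push_cast
    rfl
  rw [h4, div_mul_eq_mul_div, ← h1, div_self h3]

theorem casimir_f_eq (α : ι) : ∃ c : ℂ, T.f α = c • T.e (R.ng α) := by
  obtain ⟨c, hc⟩ := Submodule.mem_span_singleton.1 (T.f_mem α)
  exact ⟨c, hc.symm⟩

theorem casimir_hf (α β : ι) : killingForm ℂ L (T.h α) (T.f β) = 0 := by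
  obtain ⟨c, hc⟩ := T.casimir_f_eq β
  rw [hc, map_smul, T.kill_he, smul_zero]

theorem casimir_ef {α β : ι} (h : β ≠ α) : killingForm ℂ L (T.e α) (T.f β) = 0 := by
  obtain ⟨c, hc⟩ := T.casimir_f_eq β
  have : R.ng β ≠ R.ng α := fun h' => h (by rw [← R.ng_ng β, h', R.ng_ng])
  rw [hc, map_smul, T.kill_ee α _ this, smul_zero]

theorem casimir_hsum (γ : ι) :
    ∑ β, ((R.dd β : ℂ) ^ 2 * killingForm ℂ L (T.h γ) (T.h β)) • T.h β = T.h γ := by
  have h1 : ∀ β, ((R.dd β : ℂ) ^ 2 * killingForm ℂ L (T.h γ) (T.h β)) • T.h β =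
      ∑ i, ((R.dd β : ℂ) ^ 2 * (R.KK γ β : ℂ) * (R.co β i : ℂ)) • T.h (R.sr i) := by
    intro β
    rw [T.kill_hh]
    conv_lhs => rw [T.h_eq β]
    rw [smul_sum]
    exact sum_congr rfl fun i _ => by rw [smul_smul]
  rw [sum_congr rfl fun β _ => h1 β, sum_comm]
  conv_rhs => rw [T.h_eq γ]
  refine sum_congr rfl fun i _ => ?_
  rw [← sum_smul]
  congr 1
  have := congrArg (fun x : ℝ => (x : ℂ)) (R.frame_co γ i)
  push_cast at this
  exact this

theorem casimir_span (a : ι → ℂ) (u v : ι → L)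
    (hh : ∀ γ, ∑ α, (a α * killingForm ℂ L (T.h γ) (u α)) • v α = 0)
    (he : ∀ γ, ∑ α, (a α * killingForm ℂ L (T.e γ) (u α)) • v α = T.e γ) (z : L) :
    z = ∑ β, ((R.dd β : ℂ) ^ 2 * killingForm ℂ L z (T.h β)) • T.h β +
      ∑ α, (a α * killingForm ℂ L z (u α)) • v α := by
  have hz : z ∈ Submodule.span ℂ (Set.range T.h ∪ Set.range T.e) := by
    rw [T.span_top]; trivial
  induction hz using Submodule.span_induction with
  | mem x hx =>
    rcases hx with ⟨γ, rfl⟩ | ⟨γ, rfl⟩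
    · rw [T.casimir_hsum, hh, add_zero]
    · rw [he, sum_eq_zero, zero_add]
      intro β _
      rw [casimir_symm, T.kill_he, mul_zero, zero_smul]
  | zero => simp
  | add x y _ _ hx hy =>
    simp only [map_add, LinearMap.add_apply, mul_add, add_smul, sum_add_distrib]
    rw [add_add_add_comm, ← hx, ← hy]
  | smul c x _ hx =>
    have e1 : ∀ (p : ι → ℂ) (s t : ι → L),
        ∑ β, (p β * killingForm ℂ L (c • x) (s β)) • t β =
          c • ∑ β, (p β * killingForm ℂ L x (s β)) • t β := by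
      intro p s t
      rw [smul_sum]
      refine sum_congr rfl fun β _ => ?_
      rw [map_smul, LinearMap.smul_apply, smul_eq_mul, smul_smul, mul_left_comm]
    rw [e1 (fun β => (R.dd β : ℂ) ^ 2), e1 a, ← smul_add, ← hx]

/-- completeness relation, first form -/
theorem frame1 (z : L) :
    z = ∑ β, ((R.dd β : ℂ) ^ 2 * killingForm ℂ L z (T.h β)) • T.h β +
      ∑ α, ((R.dd α : ℂ) * killingForm ℂ L z (T.f α)) • T.e α := by
  refine T.casimir_span (fun α => (R.dd α : ℂ)) T.f T.e (fun γ => ?_) (fun γ => ?_) z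
  · exact sum_eq_zero fun α _ => by rw [T.casimir_hf, mul_zero, zero_smul]
  · rw [sum_eq_single γ, T.kill_ef, one_smul]
    · intro α _ hα
      rw [T.casimir_ef hα, mul_zero, zero_smul]
    · intro h
      exact absurd (mem_univ γ) h

/-- completeness relation, second form -/
theorem frame2 (z : L) :
    z = ∑ β, ((R.dd β : ℂ) ^ 2 * killingForm ℂ L z (T.h β)) • T.h β +
      ∑ α, ((R.dd α : ℂ) * killingForm ℂ L z (T.e α)) • T.f α := by
  refine T.casimir_span (fun α => (R.dd α : ℂ)) T.e T.f (fun γ => ?_) (fun γ => ?_) z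
  · exact sum_eq_zero fun α _ => by rw [T.kill_he, mul_zero, zero_smul]
  · rw [sum_eq_single (R.ng γ)]
    · obtain ⟨c, hc⟩ := T.casimir_f_eq (R.ng γ)
      rw [R.ng_ng] at hc
      have h1 := T.kill_ef (R.ng γ)
      rw [hc, map_smul, smul_eq_mul, casimir_symm] at h1
      rw [hc, smul_smul, mul_assoc, mul_comm _ c, h1, one_smul]
    · intro α _ hα
      rw [T.kill_ee γ α hα, mul_zero, zero_smul]
    · intro h
      exact absurd (mem_univ _) h

/-- a pair of dual frames gives a central operator -/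
theorem frame_comm {J : Type*} [Fintype J] (x y : J → L)
    (h1 : ∀ z, z = ∑ j, killingForm ℂ L z (y j) • x j)
    (h2 : ∀ z, z = ∑ j, killingForm ℂ L z (x j) • y j) (z : L) (m : M) :
    ⁅z, ∑ j, ⁅x j, ⁅y j, m⁆⁆⁆ = ∑ j, ⁅x j, ⁅y j, ⁅z, m⁆⁆⁆ := by
  have a1 : ∀ j, ⁅⁅z, x j⁆, ⁅y j, m⁆⁆ =
      ∑ k, killingForm ℂ L ⁅z, x j⁆ (y k) • ⁅x k, ⁅y j, m⁆⁆ := by
    intro j
    conv_lhs => rw [h1 ⁅z, x j⁆]
    rw [sum_lie]
    exact sum_congr rfl fun k _ => smul_lie _ _ _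
  have a2 : ∀ j, ⁅x j, ⁅⁅z, y j⁆, m⁆⁆ =
      ∑ k, killingForm ℂ L ⁅z, y j⁆ (x k) • ⁅x j, ⁅y k, m⁆⁆ := by
    intro j
    conv_lhs => rw [h2 ⁅z, y j⁆]
    rw [sum_lie, lie_sum]
    exact sum_congr rfl fun k _ => by rw [smul_lie, lie_smul]
  have a3 : ∑ j, ⁅⁅z, x j⁆, ⁅y j, m⁆⁆ + ∑ j, ⁅x j, ⁅⁅z, y j⁆, m⁆⁆ = 0 := by
    rw [sum_congr rfl fun j _ => a1 j, sum_congr rfl fun j _ => a2 j, sum_comm,
      ← sum_add_distrib]
    refine sum_eq_zero fun j _ => ?_
    rw [← sum_add_distrib]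
    refine sum_eq_zero fun k _ => ?_
    rw [← add_smul, casimir_skew, zero_smul]
  have a4 : ∀ j, ⁅z, ⁅x j, ⁅y j, m⁆⁆⁆ =
      (⁅⁅z, x j⁆, ⁅y j, m⁆⁆ + ⁅x j, ⁅⁅z, y j⁆, m⁆⁆) + ⁅x j, ⁅y j, ⁅z, m⁆⁆⁆ := by
    intro j
    rw [leibniz_lie z (x j), leibniz_lie z (y j) m, lie_add, add_assoc]
  rw [lie_sum, sum_congr rfl fun j _ => a4 j, sum_add_distrib, sum_add_distrib, a3, zero_add]

/-- the Casimir operator is a scalar on an irreducible module -/
theorem exists_casimir [Module.Finite ℂ M] [LieModule.IsIrreducible ℂ L M] :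
    ∃ c : ℂ, ∀ m : M, ∑ β, (R.dd β : ℂ) ^ 2 • ⁅T.h β, ⁅T.h β, m⁆⁆ +
      ∑ α, (R.dd α : ℂ) • ⁅T.e α, ⁅T.f α, m⁆⁆ = c • m := by
  let x : ι ⊕ ι → L := Sum.elim (fun β => (R.dd β : ℂ) ^ 2 • T.h β) (fun α => (R.dd α : ℂ) • T.e α)
  let y : ι ⊕ ι → L := Sum.elim T.h T.f
  have h1 : ∀ z, z = ∑ j, killingForm ℂ L z (y j) • x j := by
    intro z
    rw [Fintype.sum_sum_type]
    conv_lhs => rw [T.frame1 z]
    simp only [x, y, Sum.elim_inl, Sum.elim_inr, smul_smul, mul_comm]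
  have h2 : ∀ z, z = ∑ j, killingForm ℂ L z (x j) • y j := by
    intro z
    rw [Fintype.sum_sum_type]
    conv_lhs => rw [T.frame2 z]
    simp only [x, y, Sum.elim_inl, Sum.elim_inr, map_smul, smul_eq_mul]
  let C : Module.End ℂ M := ∑ j, LieModule.toEnd ℂ L M (x j) * LieModule.toEnd ℂ L M (y j)
  have hC : ∀ m, C m = ∑ j, ⁅x j, ⁅y j, m⁆⁆ := by
    intro m
    simp only [C, LinearMap.sum_apply, Module.End.mul_apply, LieModule.toEnd_apply_apply]
  have : Nontrivial M := LieModule.nontrivial_of_isIrreducible ℂ L M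
  obtain ⟨c, hc⟩ := Module.End.exists_eigenvalue C
  let N : LieSubmodule ℂ L M :=
    { C.eigenspace c with
      lie_mem := fun {z m} hm => by
        have hm' : C m = c • m := Module.End.mem_eigenspace_iff.1 hm
        refine Module.End.mem_eigenspace_iff.2 ?_
        rw [hC, ← frame_comm x y h1 h2, ← hC, hm', lie_smul] }
  have hN : N = ⊤ := by
    rcases eq_bot_or_eq_top N with h | h
    · exfalso
      apply hc
      have : (N : Submodule ℂ M) = ⊥ := by rw [h]; rfl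
      exact this
    · exact h
  refine ⟨c, fun m => ?_⟩
  have hm : m ∈ N := by rw [hN]; trivial
  have hm' : C m = c • m := Module.End.mem_eigenspace_iff.1 hm
  rw [← hm', hC, Fintype.sum_sum_type]
  simp only [x, y, Sum.elim_inl, Sum.elim_inr, smul_lie]

open Classical in
theorem casimir_coeff {n : ℕ} (a : Fin n → ℂ) (wt : Fin n → I → ℝ) (v : I → ℝ) :
    (∑ j, a j • (ex (wt j) : GR I)).coeff v = ∑ j, if wt j = v then a j else 0 := by
  rw [AddMonoidAlgebra.coeff_sum, Finsupp.finsetSum_apply]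
  refine sum_congr rfl fun j _ => ?_
  rw [AddMonoidAlgebra.coeff_smul, Finsupp.smul_apply, ex, AddMonoidAlgebra.coeff_single,
    Finsupp.single_apply]
  split_ifs <;> simp

theorem casimir_diag {n : ℕ} (b : Module.Basis (Fin n) ℂ M) (p q : L) (j : Fin n) :
    b.repr ⁅p, ⁅q, b j⁆⁆ j = ∑ i, b.repr ⁅q, b j⁆ i * b.repr ⁅p, b i⁆ j := by
  conv_lhs => rw [← b.sum_repr ⁅q, b j⁆]
  rw [lie_sum, map_sum, Finsupp.finsetSum_apply]
  exact sum_congr rfl fun i _ => by rw [lie_smul, map_smul, Finsupp.smul_apply, smul_eq_mul]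

/-- Freudenthal trace identities -/
theorem freudenthal [Module.Finite ℂ M] [LieModule.IsIrreducible ℂ L M] {X : GR I}
    (h : T.HasChar M X) : ∃ (B : ι → GR I) (c : ℂ),
      (∀ β v, (B β).coeff v - (B β).coeff (v + R.rt β) = (R.cv β v : ℂ) * X.coeff v) ∧
      ∀ v, c * X.coeff v = (R.QQ v v : ℂ) * X.coeff v + ∑ β, (R.dd β : ℂ) * (B β).coeff v := by
  classical
  obtain ⟨n, b, wt, hb, rfl⟩ := h
  obtain ⟨c, hc⟩ := T.exists_casimir (M := M)
  have hX : ∀ v, (∑ j, (ex (wt j) : GR I)).coeff v = ∑ j, if wt j = v then (1 : ℂ) else 0 := by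
    intro v
    rw [← casimir_coeff (fun _ => (1 : ℂ)) wt v]
    simp only [one_smul]
  refine ⟨fun β => ∑ j, b.repr ⁅T.e β, ⁅T.f β, b j⁆⁆ j • ex (wt j), c, fun β v => ?_, fun v => ?_⟩
  · rw [casimir_coeff, casimir_coeff, hX]
    have e1 : (∑ i, if wt i = v + R.rt β then b.repr ⁅T.e β, ⁅T.f β, b i⁆⁆ i else 0) =
        ∑ j, if wt j = v then b.repr ⁅T.f β, ⁅T.e β, b j⁆⁆ j else 0 := by
      have l1 : ∀ i, (if wt i = v + R.rt β then b.repr ⁅T.e β, ⁅T.f β, b i⁆⁆ i else 0) =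
          ∑ j, if wt i = v + R.rt β then b.repr ⁅T.f β, b i⁆ j * b.repr ⁅T.e β, b j⁆ i else 0 := by
        intro i
        rw [casimir_diag]
        split_ifs <;> simp
      have l2 : ∀ j, (if wt j = v then b.repr ⁅T.f β, ⁅T.e β, b j⁆⁆ j else 0) =
          ∑ i, if wt j = v then b.repr ⁅T.e β, b j⁆ i * b.repr ⁅T.f β, b i⁆ j else 0 := by
        intro j
        rw [casimir_diag]
        split_ifs <;> simp
      rw [sum_congr rfl fun i _ => l1 i, sum_congr rfl fun j _ => l2 j, sum_comm]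
      refine sum_congr rfl fun j _ => sum_congr rfl fun i _ => ?_
      by_cases hw : wt i = wt j + R.rt β
      · rw [hw, mul_comm]
        simp only [add_left_inj]
      · rw [T.repr_eq_zero b wt hb (T.isWt_e (hb j) β) hw]
        simp
    rw [e1, ← sum_sub_distrib, mul_sum]
    refine sum_congr rfl fun j _ => ?_
    split_ifs with hj
    · have e2 : ⁅T.e β, ⁅T.f β, b j⁆⁆ = ⁅T.h β, b j⁆ + ⁅T.f β, ⁅T.e β, b j⁆⁆ := by
        rw [leibniz_lie, T.lie_ef]
      rw [e2, T.isWt_h (hb j) β, hj, map_add, map_smul, Finsupp.add_apply, Finsupp.smul_apply,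
        Module.Basis.repr_self, Finsupp.single_eq_same, smul_eq_mul, add_sub_cancel_right]
    · simp
  · simp only [casimir_coeff, hX, mul_sum]
    rw [sum_comm, ← sum_add_distrib]
    refine sum_congr rfl fun j _ => ?_
    split_ifs with hj
    · have e3 := congrArg (fun m => b.repr m j) (hc (b j))
      have e4 : ∀ β, ⁅T.h β, ⁅T.h β, b j⁆⁆ = ((R.cv β v : ℂ) * (R.cv β v : ℂ)) • b j := by
        intro β
        rw [T.isWt_h (hb j) β, lie_smul, T.isWt_h (hb j) β, smul_smul, hj]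
      simp only [e4, map_add, map_sum, map_smul, Finsupp.add_apply, Finsupp.finsetSum_apply,
        Finsupp.smul_apply, Module.Basis.repr_self, Finsupp.single_eq_same, smul_eq_mul,
        mul_one] at e3
      rw [mul_one, mul_one, ← e3]
      congr 1
      unfold RD0.QQ
      push_cast
      rfl
    · simp

end Rlz

end Pool.Agent.Lib.MP_1e3767_al
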