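import Pool.Agent.Lib.MP_1e3767_al.Bruhat

set_option linter.unusedSectionVars false

namespace Pool.Agent.Lib.MP_1e3767_al

open Finset

namespace RD
variable {I ι W : Type*} [Fintype I] [DecidableEq I] [Fintype ι] [Group W] [Fintype W]
  [DistribMulAction W (I → ℝ)] [SMulCommClass W ℝ (I → ℝ)] [MulAction W ι] (R : RD I ι W)

@[simp] theorem endp_nil (u : W) : R.endp u [] = u := rfl

@[simp] theorem endp_cons (u : W) (p : ℝ × ι) (l : List (ℝ × ι)) :
    R.endp u (p :: l) = R.endp (R.s p.2 * u) l := rfl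

theorem endp_append (u : W) (a b : List (ℝ × ι)) :
    R.endp u (a ++ b) = R.endp (R.endp u a) b := by
  induction a generalizing u with
  | nil => rfl
  | cons p a ih => simpa using ih _

theorem path_append (μ : I → ℝ) (u : W) (a b : List (ℝ × ι)) (t : ℝ) :
    R.path μ u (a ++ b) t = R.path μ (R.endp u a) b t + R.corr μ u a t := by
  induction a generalizing u with
  | nil => simp [corr]
  | cons p a ih => simp only [List.cons_append, path, corr, endp_cons, ih, add_assoc]

theorem path_eq_corr (μ : I → ℝ) (u : W) (a : List (ℝ × ι)) (t : ℝ) :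
    R.path μ u a t = t • (R.endp u a • μ) + R.corr μ u a t := by
  have h := R.path_append μ u a [] t
  rw [List.append_nil] at h
  rw [h, path]

theorem corr_append (μ : I → ℝ) (u : W) (a b : List (ℝ × ι)) (t : ℝ) :
    R.corr μ u (a ++ b) t = R.corr μ (R.endp u a) b t + R.corr μ u a t := by
  induction a generalizing u with
  | nil => simp [corr]
  | cons p a ih => simp only [List.cons_append, corr, endp_cons, ih, add_assoc]

theorem icpt_append (μ : I → ℝ) (u : W) (a b : List (ℝ × ι)) :
    R.icpt μ u (a ++ b) = R.icpt μ (R.endp u a) b + R.icpt μ u a := by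
  induction a generalizing u with
  | nil => simp [icpt]
  | cons p a ih => simp only [List.cons_append, icpt, endp_cons, ih, add_assoc]

/-- after all the turning times -/
theorem corr_of_ge (μ : I → ℝ) (u : W) (a : List (ℝ × ι)) {t : ℝ} (h : ∀ p ∈ a, p.1 ≤ t) :
    R.corr μ u a t = R.icpt μ u a := by
  induction a generalizing u with
  | nil => rfl
  | cons p a ih =>
    simp only [corr, icpt]
    rw [ih _ (fun q hq => h q (List.mem_cons_of_mem _ hq)),
      min_eq_right (h p List.mem_cons_self)]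

/-- before all the turning times -/
theorem path_of_le (μ : I → ℝ) (u : W) (a : List (ℝ × ι)) {t : ℝ} (h : ∀ p ∈ a, t ≤ p.1) :
    R.path μ u a t = t • (u • μ) := by
  induction a generalizing u with
  | nil => rfl
  | cons p a ih =>
    simp only [path]
    rw [ih _ (fun q hq => h q (List.mem_cons_of_mem _ hq)),
      min_eq_left (h p List.mem_cons_self), mul_smul (R.s p.2) u μ, R.s_smul', smul_sub,
      smul_smul t, mul_comm t, sub_add_cancel]

/-- between two groups of turning times -/
theorem path_between (μ : I → ℝ) (u : W) (a b : List (ℝ × ι)) {t : ℝ} (ha : ∀ p ∈ a, p.1 ≤ t)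
    (hb : ∀ p ∈ b, t ≤ p.1) :
    R.path μ u (a ++ b) t = R.icpt μ u a + t • (R.endp u a • μ) := by
  rw [path_append, R.path_of_le μ _ b hb, R.corr_of_ge μ u a ha, add_comm]

/-- a block of turns at one time -/
theorem corr_const (μ : I → ℝ) (u : W) (a : List (ℝ × ι)) {c : ℝ} (h : ∀ p ∈ a, p.1 = c) (t : ℝ) :
    R.corr μ u a t = min t c • (u • μ - R.endp u a • μ) := by
  induction a generalizing u with
  | nil => simp [corr]
  | cons p a ih =>
    simp only [corr, endp_cons]
    rw [ih _ (fun q hq => h q (List.mem_cons_of_mem _ hq)), h p List.mem_cons_self,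
      mul_smul (R.s p.2) u μ, R.s_smul', mul_comm _ (min t c), mul_smul (min t c), ← smul_add]
    congr 1
    abel

theorem continuous_path (μ : I → ℝ) (u : W) (a : List (ℝ × ι)) : Continuous (R.path μ u a) := by
  induction a generalizing u with
  | nil =>
    show Continuous fun t : ℝ => t • (u • μ)
    exact continuous_id.smul continuous_const
  | cons p a ih =>
    show Continuous fun t : ℝ =>
      R.path μ (R.s p.2 * u) a t + (R.cv p.2 (u • μ) * min t p.1) • R.rt p.2
    exact (ih _).add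
      ((continuous_const.mul (continuous_id.min continuous_const)).smul continuous_const)

theorem path_smul (c : ℝ) (μ : I → ℝ) (u : W) (a : List (ℝ × ι)) (t : ℝ) :
    R.path (c • μ) u a t = c • R.path μ u a t := by
  induction a generalizing u with
  | nil => simp only [path]; rw [smul_comm u c μ, smul_comm t c]
  | cons p a ih =>
    simp only [path]
    rw [ih, smul_comm u c μ, map_smul, smul_add, smul_smul c, smul_eq_mul, mul_assoc]

theorem path_add (μ ν : I → ℝ) (u : W) (a : List (ℝ × ι)) (t : ℝ) :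
    R.path (μ + ν) u a t = R.path μ u a t + R.path ν u a t := by
  induction a generalizing u with
  | nil => simp only [path, smul_add]
  | cons p a ih =>
    simp only [path]
    rw [ih, smul_add u, map_add, add_mul, add_smul]
    abel

theorem isChain_mono {u : W} {a0 a1 : ℝ} {l : List (ℝ × ι)} (h : R.IsChain u a0 l)
    (h1 : a1 ≤ a0) : R.IsChain u a1 l := by
  cases l with
  | nil => trivial
  | cons p l => exact ⟨h.1, h1.trans h.2.1, h.2.2⟩

theorem isChain_raise {u : W} {a0 a1 : ℝ} {l : List (ℝ × ι)} (h : R.IsChain u a0 l)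
    (h1 : ∀ p ∈ l, a1 ≤ p.1) : R.IsChain u a1 l := by
  cases l with
  | nil => trivial
  | cons p l => exact ⟨h.1, h1 p List.mem_cons_self, h.2.2⟩

theorem isChain_mem {u : W} {a0 : ℝ} {l : List (ℝ × ι)} (h : R.IsChain u a0 l) :
    ∀ p ∈ l, a0 ≤ p.1 ∧ p.1 ≤ 1 := by
  induction l generalizing u a0 with
  | nil => simp
  | cons p l ih =>
    intro q hq
    rcases List.mem_cons.1 hq with rfl | hq
    · exact ⟨h.2.1, h.2.2.1⟩
    · exact ⟨h.2.1.trans (ih h.2.2.2 q hq).1, (ih h.2.2.2 q hq).2⟩

theorem isChain_iff (u : W) (a0 : ℝ) (l : List (ℝ × ι)) :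
    R.IsChain u a0 l ↔ R.CChain u (l.map Prod.snd) ∧ (∀ p ∈ l, a0 ≤ p.1 ∧ p.1 ≤ 1) ∧
      l.Pairwise (fun p q => p.1 ≤ q.1) := by
  induction l generalizing u a0 with
  | nil => simp [IsChain, CChain]
  | cons p l ih =>
    simp only [IsChain, List.map_cons, CChain, ih, List.forall_mem_cons, List.pairwise_cons]
    constructor
    · rintro ⟨h1, h2, h3, h4, h5, h6⟩
      exact ⟨⟨h1, h4⟩, ⟨⟨h2, h3⟩, fun q hq => ⟨h2.trans (h5 q hq).1, (h5 q hq).2⟩⟩,
        fun q hq => (h5 q hq).1, h6⟩
    · rintro ⟨⟨h1, h4⟩, ⟨⟨h2, h3⟩, h5⟩, h6, h7⟩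
      exact ⟨h1, h2, h3, h4, fun q hq => ⟨h6 q hq, (h5 q hq).2⟩, h7⟩

theorem isChain_append (u : W) (a0 : ℝ) (a b : List (ℝ × ι)) :
    R.IsChain u a0 (a ++ b) ↔ R.IsChain u a0 a ∧ R.IsChain (R.endp u a) a0 b ∧
      ∀ p ∈ a, ∀ q ∈ b, p.1 ≤ q.1 := by
  induction a generalizing u a0 with
  | nil => simp [IsChain]
  | cons p a ih =>
    simp only [List.cons_append, IsChain, endp_cons, ih, List.forall_mem_cons]
    constructor
    · rintro ⟨h1, h2, h3, h4, h5, h6⟩
      exact ⟨⟨h1, h2, h3, h4⟩, R.isChain_mono h5 h2, fun q hq => (R.isChain_mem h5 q hq).1, h6⟩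
    · rintro ⟨⟨h1, h2, h3, h4⟩, h5, h6, h7⟩
      exact ⟨h1, h2, h3, h4, R.isChain_raise h5 h6, h7⟩

theorem isChain_map_const {u : W} {bs : List ι} (h : R.CChain u bs) {a0 c : ℝ} (h0 : a0 ≤ c)
    (h1 : c ≤ 1) : R.IsChain u a0 (bs.map fun β => (c, β)) := by
  induction bs generalizing u a0 with
  | nil => trivial
  | cons β bs ih => exact ⟨h.1, h0, h1, ih h.2 le_rfl⟩

theorem endp_map_const (u : W) (bs : List ι) (c : ℝ) :
    R.endp u (bs.map fun β => (c, β)) = R.endb u bs := by
  induction bs generalizing u with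
  | nil => rfl
  | cons β bs ih => exact ih _

theorem le_endp {u : W} {a0 : ℝ} {l : List (ℝ × ι)} (h : R.IsChain u a0 l) :
    R.Le (R.endp u l) u := by
  induction l generalizing u a0 with
  | nil => exact Relation.ReflTransGen.refl
  | cons p l ih => exact Relation.ReflTransGen.head ⟨p.2, h.1.1, rfl⟩ (ih h.2.2.2)

theorem isChain_length {u : W} {a0 : ℝ} {l : List (ℝ × ι)} (h : R.IsChain u a0 l) :
    R.len (R.endp u l) + l.length = R.len u := by
  induction l generalizing u a0 with
  | nil => rfl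
  | cons p l ih =>
    have h1 := ih h.2.2.2
    have h2 := h.1.2
    rw [endp_cons, List.length_cons]
    omega

/-- splitting at a time, first part closed -/
theorem split_le {u : W} {a0 : ℝ} {l : List (ℝ × ι)} (h : R.IsChain u a0 l) (t : ℝ) :
    ∃ a b, l = a ++ b ∧ (∀ p ∈ a, p.1 ≤ t) ∧ ∀ p ∈ b, t < p.1 := by
  induction l generalizing u a0 with
  | nil => exact ⟨[], [], rfl, by simp, by simp⟩
  | cons p l ih =>
    by_cases hp : p.1 ≤ t
    · obtain ⟨a, b, rfl, ha, hb⟩ := ih h.2.2.2
      exact ⟨p :: a, b, rfl, List.forall_mem_cons.2 ⟨hp, ha⟩, hb⟩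
    · refine ⟨[], p :: l, rfl, by simp, List.forall_mem_cons.2 ⟨not_le.1 hp, fun q hq => ?_⟩⟩
      exact (not_le.1 hp).trans_le (R.isChain_mem h.2.2.2 q hq).1

/-- splitting at a time, first part open -/
theorem split_lt {u : W} {a0 : ℝ} {l : List (ℝ × ι)} (h : R.IsChain u a0 l) (t : ℝ) :
    ∃ a b, l = a ++ b ∧ (∀ p ∈ a, p.1 < t) ∧ ∀ p ∈ b, t ≤ p.1 := by
  induction l generalizing u a0 with
  | nil => exact ⟨[], [], rfl, by simp, by simp⟩
  | cons p l ih =>
    by_cases hp : p.1 < t
    · obtain ⟨a, b, rfl, ha, hb⟩ := ih h.2.2.2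
      exact ⟨p :: a, b, rfl, List.forall_mem_cons.2 ⟨hp, ha⟩, hb⟩
    · refine ⟨[], p :: l, rfl, by simp, List.forall_mem_cons.2 ⟨not_lt.1 hp, fun q hq => ?_⟩⟩
      exact (not_lt.1 hp).trans (R.isChain_mem h.2.2.2 q hq).1

theorem path_zero (μ : I → ℝ) {u : W} {l : List (ℝ × ι)} (h : R.IsChain u 0 l) :
    R.path μ u l 0 = 0 := by
  rw [R.path_of_le μ u l (fun p hp => (R.isChain_mem h p hp).1), zero_smul]

theorem isLS_append (μ : I → ℝ) (u : W) (a b : List (ℝ × ι)) :
    R.IsLS μ u (a ++ b) ↔ R.IsLS μ u a ∧ R.IsLS μ (R.endp u a) b := by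
  induction a generalizing u with
  | nil => simp [IsLS]
  | cons p a ih => simp only [List.cons_append, IsLS, endp_cons, ih, and_assoc]

theorem inQ_icpt {μ : I → ℝ} {u : W} {a : List (ℝ × ι)} (h : R.IsLS μ u a) :
    R.InQ (R.icpt μ u a) := by
  induction a generalizing u with
  | nil => exact R.inQ_zero
  | cons p a ih =>
    obtain ⟨⟨z, hz⟩, h2⟩ := h
    simp only [icpt]
    rw [hz]
    exact R.inQ_add (ih h2) (R.inQ_zsmul (R.inQ_rt _) z)

theorem isLS_const_zero (μ : I → ℝ) (u : W) (a : List (ℝ × ι)) (h : ∀ p ∈ a, p.1 = 0) :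
    R.IsLS μ u a := by
  induction a generalizing u with
  | nil => trivial
  | cons p a ih =>
    refine ⟨⟨0, ?_⟩, ih _ fun q hq => h q (List.mem_cons_of_mem _ hq)⟩
    rw [h p List.mem_cons_self]
    simp

theorem isLS_const_one {μ : I → ℝ} (hμ : IntV μ) (u : W) (a : List (ℝ × ι))
    (h : ∀ p ∈ a, p.1 = 1) : R.IsLS μ u a := by
  induction a generalizing u with
  | nil => trivial
  | cons p a ih =>
    refine ⟨?_, ih _ fun q hq => h q (List.mem_cons_of_mem _ hq)⟩
    rw [h p List.mem_cons_self, mul_one]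
    exact R.cv_int _ (R.intV_smul hμ u)

theorem path_aux_int_min {a : ℝ} (h0 : 0 ≤ a) (h1 : a ≤ 1) :
    ∫ t in (0:ℝ)..1, min t a = a - a ^ 2 / 2 := by
  have hc : Continuous fun t : ℝ => min t a := continuous_id.min continuous_const
  rw [← intervalIntegral.integral_add_adjacent_intervals (hc.intervalIntegrable 0 a)
    (hc.intervalIntegrable a 1)]
  have e1 : ∫ t in (0:ℝ)..a, min t a = ∫ t in (0:ℝ)..a, t := by
    refine intervalIntegral.integral_congr fun t ht => ?_
    rw [Set.uIcc_of_le h0] at ht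
    exact min_eq_left ht.2
  have e2 : ∫ t in a..(1:ℝ), min t a = ∫ _t in a..(1:ℝ), a := by
    refine intervalIntegral.integral_congr fun t ht => ?_
    rw [Set.uIcc_of_le h1] at ht
    exact min_eq_right ht.1
  rw [e1, e2, integral_id, intervalIntegral.integral_const, smul_eq_mul]
  ring

theorem integral_ht_path (μ : I → ℝ) {u : W} {l : List (ℝ × ι)} (h : R.IsChain u 0 l) :
    ∫ t in (0:ℝ)..1, R.ht (R.path μ u l t) = R.Phi μ u l := by
  induction l generalizing u with
  | nil =>
    simp only [path, Phi, map_smul, smul_eq_mul]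
    rw [intervalIntegral.integral_mul_const, integral_id]
    ring
  | cons p l ih =>
    obtain ⟨_, h0, h1, h2⟩ := h
    have hc1 : Continuous fun t => R.ht (R.path μ (R.s p.2 * u) l t) :=
      R.continuous_ht.comp (R.continuous_path μ _ l)
    have hc2 : Continuous fun t : ℝ =>
        R.cv p.2 (u • μ) * R.ht (R.rt p.2) * min t p.1 :=
      continuous_const.mul (continuous_id.min continuous_const)
    have e : ∀ t : ℝ, R.ht (R.path μ u (p :: l) t) = R.ht (R.path μ (R.s p.2 * u) l t) +
        R.cv p.2 (u • μ) * R.ht (R.rt p.2) * min t p.1 := by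
      intro t
      simp only [path, map_add, map_smul, smul_eq_mul]
      ring
    simp only [e]
    rw [intervalIntegral.integral_add (hc1.intervalIntegrable 0 1) (hc2.intervalIntegrable 0 1),
      ih (R.isChain_mono h2 h0), intervalIntegral.integral_const_mul, path_aux_int_min h0 h1]
    rfl

theorem path_aux_head (μ : I → ℝ) {u : W} {a0 : ℝ} {p : ℝ × ι} {l : List (ℝ × ι)}
    (h : R.IsChain u a0 (p :: l)) (i : I) {t : ℝ} (ht : t ≤ p.1) :
    R.path μ u (p :: l) t i = t * (u • μ) i := by
  rw [R.path_of_le μ u (p :: l)]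
  · simp
  · intro q hq
    rcases List.mem_cons.1 hq with rfl | hq
    · exact ht
    · exact ht.trans (R.isChain_mem h.2.2.2 q hq).1

theorem path_aux_tail (μ : I → ℝ) (u : W) (p : ℝ × ι) (l : List (ℝ × ι)) (i : I) {t : ℝ}
    (ht : p.1 ≤ t) :
    R.path μ u (p :: l) t i =
      R.path μ (R.s p.2 * u) l t i + R.cv p.2 (u • μ) * p.1 * R.rt p.2 i := by
  simp only [path, Pi.add_apply, Pi.smul_apply, smul_eq_mul, min_eq_right ht]

/-- on a stretch where all elements are ascending at `i` the `i`-th coordinate increases -/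
theorem monotone_path {μ : I → ℝ} (hμ : Dom μ) (i : I) {u : W} {a0 : ℝ} {l : List (ℝ × ι)}
    (h : R.IsChain u a0 l)
    (hs : ∀ a b, l = a ++ b → 0 < (R.endp u a • (rho : I → ℝ)) i) :
    Monotone (fun t => R.path μ u l t i) := by
  induction l generalizing u a0 with
  | nil =>
    have h0 : 0 ≤ (u • μ) i := by
      have := R.cv_ge_of_rho_pos (β := R.sr i) (w := u)
        (by rw [R.cv_sr]; simpa using hs [] [] rfl) hμ
      rwa [R.cv_sr] at this
    intro s t hst
    simp only [path, Pi.smul_apply, smul_eq_mul]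
    exact mul_le_mul_of_nonneg_right hst h0
  | cons p l ih =>
    have h0 : 0 ≤ (u • μ) i := by
      have := R.cv_ge_of_rho_pos (β := R.sr i) (w := u)
        (by rw [R.cv_sr]; simpa using hs [] (p :: l) rfl) hμ
      rwa [R.cv_sr] at this
    have hm := ih h.2.2.2 fun a b e => by
      simpa using hs (p :: a) b (by rw [e]; rfl)
    refine MonotoneOn.Iic_union_Ici (a := p.1) ?_ ?_
    · intro s hs' t ht hst
      simp only [R.path_aux_head μ h i hs', R.path_aux_head μ h i ht]
      exact mul_le_mul_of_nonneg_right hst h0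
    · intro s hs' t ht hst
      simp only [R.path_aux_tail μ u p l i hs', R.path_aux_tail μ u p l i ht]
      exact add_le_add_left (hm hst) _

theorem antitone_path {μ : I → ℝ} (hμ : Dom μ) (i : I) {u : W} {a0 : ℝ} {l : List (ℝ × ι)}
    (h : R.IsChain u a0 l)
    (hs : ∀ a b, l = a ++ b → (R.endp u a • (rho : I → ℝ)) i < 0) :
    Antitone (fun t => R.path μ u l t i) := by
  induction l generalizing u a0 with
  | nil =>
    have h0 : (u • μ) i ≤ 0 := by
      have := R.cv_le_of_rho_neg (β := R.sr i) (w := u)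
        (by rw [R.cv_sr]; simpa using hs [] [] rfl) hμ
      rwa [R.cv_sr] at this
    intro s t hst
    simp only [path, Pi.smul_apply, smul_eq_mul]
    exact mul_le_mul_of_nonpos_right hst h0
  | cons p l ih =>
    have h0 : (u • μ) i ≤ 0 := by
      have := R.cv_le_of_rho_neg (β := R.sr i) (w := u)
        (by rw [R.cv_sr]; simpa using hs [] (p :: l) rfl) hμ
      rwa [R.cv_sr] at this
    have hm := ih h.2.2.2 fun a b e => by
      simpa using hs (p :: a) b (by rw [e]; rfl)
    refine AntitoneOn.Iic_union_Ici (a := p.1) ?_ ?_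
    · intro s hs' t ht hst
      simp only [R.path_aux_head μ h i hs', R.path_aux_head μ h i ht]
      exact mul_le_mul_of_nonpos_right hst h0
    · intro s hs' t ht hst
      simp only [R.path_aux_tail μ u p l i hs', R.path_aux_tail μ u p l i ht]
      exact add_le_add_left (hm hst) _

theorem continuous_upath (μ P : I → ℝ) (n : ℕ) (η : ℕ → W) (t : ℕ → ℝ) :
    Continuous (upath μ P n η t) := by
  unfold upath
  refine (continuous_const.add (continuous_id.smul continuous_const)).add
    (continuous_finsetSum _ fun j _ => ?_)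
  exact (continuous_id.min continuous_const).smul continuous_const

/-- the unfolded path between two turning times -/
theorem upath_between (μ P : I → ℝ) (n : ℕ) (η : ℕ → W) (t : ℕ → ℝ) {j : ℕ} (hj : j ≤ n) {τ : ℝ}
    (h1 : ∀ k < j, t k ≤ τ) (h2 : ∀ k, j ≤ k → k < n → τ ≤ t k) :
    upath μ P n η t τ = P + ∑ k ∈ range j, t k • (η k • μ - η (k + 1) • μ) + τ • (η j • μ) := by
  induction n, hj using Nat.le_induction with
  | base =>
    unfold upath
    rw [add_right_comm]
    congr 2
    refine sum_congr rfl fun k hk => ?_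
    rw [min_eq_right (h1 k (mem_range.1 hk))]
  | succ n hn ih =>
    rw [← ih fun k hk hk' => h2 k hk (Nat.lt_succ_of_lt hk')]
    unfold upath
    rw [sum_range_succ, min_eq_left (h2 n hn (Nat.lt_succ_self n)), smul_sub]
    abel

theorem mn_le {π : ℝ → I → ℝ} (h : Continuous π) (i : I) {t : ℝ} (ht : t ∈ Set.Icc (0:ℝ) 1) :
    mn i π ≤ π t i :=
  csInf_le (isCompact_Icc.image ((continuous_apply i).comp h)).bddBelow ⟨t, ht, rfl⟩

theorem exists_eq_mn {π : ℝ → I → ℝ} (h : Continuous π) (i : I) :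
    ∃ t ∈ Set.Icc (0:ℝ) 1, π t i = mn i π :=
  (isCompact_Icc.image ((continuous_apply i).comp h)).sInf_mem
    ⟨π 0 i, 0, ⟨le_rfl, zero_le_one⟩, rfl⟩

theorem mn_eq {π : ℝ → I → ℝ} {i : I} {m : ℝ} (h : ∀ t ∈ Set.Icc (0:ℝ) 1, m ≤ π t i)
    {a : ℝ} (ha : a ∈ Set.Icc (0:ℝ) 1) (he : π a i = m) : mn i π = m := by
  refine IsLeast.csInf_eq ⟨⟨a, ha, he⟩, ?_⟩
  rintro _ ⟨t, ht, rfl⟩
  exact h t ht

end RD

end Pool.Agent.Lib.MP_1e3767_al
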