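import Pool.Agent.Lib.MP_1e3767_al.RdEq
import Pool.Agent.Lib.MP_1e3767_al.Path

set_option linter.unusedSectionVars false

namespace Pool.Agent.Lib.MP_1e3767_al

open Finset

namespace RD
variable {I ι W : Type*} [Fintype I] [DecidableEq I] [Fintype ι] [Group W] [Fintype W]
  [DistribMulAction W (I → ℝ)] [SMulCommClass W ℝ (I → ℝ)] [MulAction W ι] (R : RD I ι W)

/-- attach times to a list of labels -/
def cmk0 : List ι → (ℕ → ℝ) → List (ℝ × ι)
  | [], _ => []
  | β :: bs, a => (a 0, β) :: cmk0 bs (fun n => a (n + 1))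

/-- attach times to a list of tagged labels -/
def cmk : List (ι × Fin 4) → (ℕ → ℝ) → List ((ℝ × ι) × Fin 4)
  | [], _ => []
  | q :: T, a => ((a 0, q.1), q.2) :: cmk T (fun n => a (n + 1))

theorem cmk_fst (T : List (ι × Fin 4)) : ∀ a : ℕ → ℝ,
    (cmk T a).map Prod.fst = cmk0 (T.map Prod.fst) a := by
  induction T with
  | nil => intro a; rfl
  | cons q T ih => intro a; simp only [cmk, List.map_cons, cmk0, ih]

theorem cmk_type (T : List (ι × Fin 4)) : ∀ a : ℕ → ℝ,
    (cmk T a).map (fun q => (q.1.2, q.2)) = T := by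
  induction T with
  | nil => intro a; rfl
  | cons q T ih => intro a; simp only [cmk, List.map_cons, ih]

theorem cmk0_snd (bs : List ι) : ∀ a : ℕ → ℝ, (cmk0 bs a).map Prod.snd = bs := by
  induction bs with
  | nil => intro a; rfl
  | cons q T ih => intro a; simp only [cmk0, List.map_cons, ih]

theorem exists_cmk (l : List ((ℝ × ι) × Fin 4)) (h : ∀ q ∈ l, q.1.1 ∈ Set.Icc (0:ℝ) 1) :
    ∃ a : ℕ → ℝ, (∀ n, a n ∈ Set.Icc (0:ℝ) 1) ∧ cmk (l.map fun q => (q.1.2, q.2)) a = l := by
  induction l with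
  | nil => exact ⟨fun _ => 0, fun _ => ⟨le_rfl, zero_le_one⟩, rfl⟩
  | cons q l ih =>
    obtain ⟨a, ha, he⟩ := ih fun p hp => h p (List.mem_cons_of_mem _ hp)
    refine ⟨fun n => Nat.casesOn n q.1.1 a, fun n => ?_, ?_⟩
    · cases n with
      | zero => exact h q List.mem_cons_self
      | succ n => exact ha n
    · simp only [List.map_cons, cmk]
      rw [he]; rfl

theorem exists_cmk0 (l : List (ℝ × ι)) (h : ∀ q ∈ l, q.1 ∈ Set.Icc (0:ℝ) 1) :
    ∃ a : ℕ → ℝ, (∀ n, a n ∈ Set.Icc (0:ℝ) 1) ∧ cmk0 (l.map Prod.snd) a = l := by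
  induction l with
  | nil => exact ⟨fun _ => 0, fun _ => ⟨le_rfl, zero_le_one⟩, rfl⟩
  | cons q l ih =>
    obtain ⟨a, ha, he⟩ := ih fun p hp => h p (List.mem_cons_of_mem _ hp)
    refine ⟨fun n => Nat.casesOn n q.1 a, fun n => ?_, ?_⟩
    · cases n with
      | zero => exact h q List.mem_cons_self
      | succ n => exact ha n
    · simp only [List.map_cons, cmk0]
      rw [he]; rfl

section Fam
variable {X : Type*} [TopologicalSpace X]

theorem compact_shift {a : X → ℕ → ℝ} (ha : Continuous a) :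
    Continuous fun x => fun n => a x (n + 1) :=
  continuous_pi fun n => (continuous_apply (n + 1)).comp ha

theorem compact_cv (β : ι) (u : W) {μ : X → I → ℝ} (hμ : Continuous μ) :
    Continuous fun x => R.cv β (u • μ x) :=
  (R.continuous_cv β).comp ((continuous_wsmul u).comp hμ)

theorem compact_path {μ : X → I → ℝ} (hμ : Continuous μ) (t : ℝ) (bs : List ι) :
    ∀ (u : W) (a : X → ℕ → ℝ), Continuous a →
      Continuous fun x => R.path (μ x) u (cmk0 bs (a x)) t := by
  induction bs with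
  | nil =>
    intro u a _
    exact ((continuous_wsmul u).comp hμ).const_smul t
  | cons β bs ih =>
    intro u a ha
    simp only [cmk0, path]
    exact (ih _ _ (compact_shift ha)).add (((R.compact_cv β u hμ).mul
      (continuous_const.min ((continuous_apply 0).comp ha))).smul continuous_const)

theorem compact_phi (μ : I → ℝ) (bs : List ι) :
    ∀ (u : W) (a : X → ℕ → ℝ), Continuous a →
      Continuous fun x => R.Phi μ u (cmk0 bs (a x)) := by
  induction bs with
  | nil => intro u a _; exact continuous_const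
  | cons β bs ih =>
    intro u a ha
    simp only [cmk0, Phi]
    have h0 : Continuous fun x => a x 0 := (continuous_apply 0).comp ha
    exact (ih _ _ (compact_shift ha)).add
      (continuous_const.mul (h0.sub ((h0.pow 2).div_const 2)))

theorem compact_chain (bs : List ι) :
    ∀ (u : W) (a0 : X → ℝ) (a : X → ℕ → ℝ), Continuous a0 → Continuous a →
      IsClosed {x | R.IsChain u (a0 x) (cmk0 bs (a x))} := by
  induction bs with
  | nil => intro u a0 a _ _; simp [cmk0, IsChain]
  | cons β bs ih =>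
    intro u a0 a h0 ha
    have h1 : Continuous fun x => a x 0 := (continuous_apply 0).comp ha
    simp only [cmk0, IsChain, Set.setOf_and]
    exact isClosed_const.inter ((isClosed_le h0 h1).inter
      ((isClosed_le h1 continuous_const).inter (ih _ _ _ h1 (compact_shift ha))))

theorem compact_imp (p : Prop) {q : X → Prop} (h : IsClosed {x | q x}) :
    IsClosed {x | p → q x} := by
  by_cases hp : p
  · simpa [hp] using h
  · simp [hp]

theorem compact_tagged {μ : X → I → ℝ} (hμ : Continuous μ) (T : List (ι × Fin 4)) :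
    ∀ (u : W) (P : X → I → ℝ) (a : X → ℕ → ℝ), Continuous P → Continuous a →
      IsClosed {x | R.Tagged (μ x) u (P x) (cmk T (a x))} := by
  induction T with
  | nil => intro u P a _ _; simp [cmk, Tagged]
  | cons q T ih =>
    intro u P a hP ha
    have h1 : Continuous fun x => a x 0 := (continuous_apply 0).comp ha
    have h2 := R.compact_cv q.1 u hμ
    simp only [cmk, Tagged, Set.setOf_and]
    refine (compact_imp _ (isClosed_eq (((R.continuous_cv q.1).comp hP).add (h1.mul h2))
      continuous_const)).inter ((compact_imp _ (isClosed_eq h1 continuous_const)).inter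
      ((compact_imp _ (isClosed_eq h1 continuous_const)).inter
        (ih _ _ _ (hP.add ((h2.mul h1).smul continuous_const)) (compact_shift ha))))

theorem compact_domDat {lam μ κ : X → I → ℝ} (hl : Continuous lam) (hμ : Continuous μ)
    (hκ : Continuous κ) (bs : List ι) {a : X → ℕ → ℝ} (ha : Continuous a) :
    IsClosed {x | R.DomDat (lam x) (μ x) (κ x) (cmk0 bs (a x))} := by
  simp only [DomDat, IsMax, endp, cmk0_snd, Set.setOf_and]
  refine ((R.compact_chain bs _ _ _ continuous_const ha).inter isClosed_const).inter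
    (IsClosed.inter ?_ (isClosed_eq (hl.add (R.compact_path hμ 1 bs _ _ ha)) hκ))
  simp only [Set.setOf_forall]
  exact isClosed_iInter fun t => isClosed_iInter fun _ =>
    isClosed_dom.preimage (hl.add (R.compact_path hμ t bs _ _ ha))

end Fam

theorem compact_length {lam μ κ : I → ℝ} {l : List (ℝ × ι)} (h : R.DomDat lam μ κ l) :
    l.length = R.len R.w0 := by
  have := R.isChain_length h.1.1
  rw [h.1.2, R.len_one] at this
  omega

theorem exists_max {lam μ κ : I → ℝ} (h : ∃ l, R.DomDat lam μ κ l) :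
    ∃ l, R.DomDat lam μ κ l ∧ ∀ l', R.DomDat lam μ κ l' → R.Phi μ R.w0 l' ≤ R.Phi μ R.w0 l := by
  have hK : IsCompact (Set.univ.pi fun _ : ℕ => Set.Icc (0:ℝ) 1) :=
    isCompact_univ_pi fun _ => isCompact_Icc
  let S : Set ℝ := ⋃ bs ∈ {bs : List ι | bs.length = R.len R.w0},
    (fun a => R.Phi μ R.w0 (cmk0 bs a)) ''
      ((Set.univ.pi fun _ : ℕ => Set.Icc (0:ℝ) 1) ∩ {a | R.DomDat lam μ κ (cmk0 bs a)})
  have hS : IsCompact S := (List.finite_length_eq ι _).isCompact_biUnion fun bs _ =>
    (hK.inter_right (R.compact_domDat continuous_const continuous_const continuous_const bs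
      continuous_id)).image (R.compact_phi μ bs _ _ continuous_id)
  have hmem : ∀ l, R.DomDat lam μ κ l → R.Phi μ R.w0 l ∈ S := fun l hl => by
    obtain ⟨a, ha, he⟩ := exists_cmk0 l fun q hq => R.isChain_mem hl.1.1 q hq
    refine Set.mem_biUnion (x := l.map Prod.snd) (by simpa using R.compact_length hl)
      ⟨a, ⟨fun n _ => ha n, ?_⟩, ?_⟩
    · change R.DomDat lam μ κ _
      rwa [he]
    · simp only [he]
  obtain ⟨l0, hl0⟩ := h
  obtain ⟨m, hm, hmax⟩ := hS.exists_isGreatest ⟨_, hmem l0 hl0⟩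
  obtain ⟨bs, -, a, ⟨-, ha⟩, rfl⟩ := Set.mem_iUnion₂.1 hm
  exact ⟨_, ha, fun l' hl' => hmax (hmem l' hl')⟩

theorem isClosed_tagDat :
    IsClosed {L : (I → ℝ) × (I → ℝ) × (I → ℝ) | ∃ l, R.TagDat L.1 L.2.1 L.2.2 l} := by
  have hK : IsCompact (Set.univ.pi fun _ : ℕ => Set.Icc (0:ℝ) 1) :=
    isCompact_univ_pi fun _ => isCompact_Icc
  have : CompactSpace (Set.univ.pi fun _ : ℕ => Set.Icc (0:ℝ) 1) := isCompact_iff_compactSpace.1 hK
  have he : {L : (I → ℝ) × (I → ℝ) × (I → ℝ) | ∃ l, R.TagDat L.1 L.2.1 L.2.2 l} =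
      ⋃ T ∈ {T : List (ι × Fin 4) | T.length = R.len R.w0}, Prod.fst ''
        {x : ((I → ℝ) × (I → ℝ) × (I → ℝ)) × (Set.univ.pi fun _ : ℕ => Set.Icc (0:ℝ) 1) |
          R.TagDat x.1.1 x.1.2.1 x.1.2.2 (cmk T x.2.1)} := by
    ext L
    simp only [Set.mem_setOf_eq, Set.mem_iUnion, Set.mem_image, exists_prop]
    constructor
    · rintro ⟨l, hl⟩
      obtain ⟨a, ha, he⟩ := exists_cmk l fun q hq =>
        R.isChain_mem hl.1.1.1 q.1 (List.mem_map_of_mem hq)
      refine ⟨l.map fun q => (q.1.2, q.2), by simpa using R.compact_length hl.1,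
        (L, ⟨a, fun n _ => ha n⟩), ?_, rfl⟩
      change R.TagDat _ _ _ (cmk _ a)
      rwa [he]
    · rintro ⟨T, -, x, hx, rfl⟩
      exact ⟨_, hx⟩
  rw [he]
  refine (List.finite_length_eq _ _).isClosed_biUnion fun T _ =>
    isClosedMap_fst_of_compactSpace _ ?_
  simp only [TagDat, cmk_fst, cmk_type, Set.setOf_and]
  have ha : Continuous fun x : ((I → ℝ) × (I → ℝ) × (I → ℝ)) ×
      (Set.univ.pi fun _ : ℕ => Set.Icc (0:ℝ) 1) => (x.2.1 : ℕ → ℝ) :=
    continuous_subtype_val.comp continuous_snd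
  exact (R.compact_domDat (by fun_prop) (by fun_prop) (by fun_prop) _ ha).inter
    ((R.compact_tagged (by fun_prop) T _ _ _ (by fun_prop) ha).inter isClosed_const)

end RD

end Pool.Agent.Lib.MP_1e3767_al
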