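import Pool.Agent.Lib.MP_1e3767_al.Bruhat

set_option linter.unusedSectionVars false

namespace Pool.Agent.Lib.MP_1e3767_al

open Finset

namespace RD
variable {I ι W : Type*} [Fintype I] [DecidableEq I] [Fintype ι] [Group W] [Fintype W]
  [DistribMulAction W (I → ℝ)] [SMulCommClass W ℝ (I → ℝ)] [MulAction W ι] (R : RD I ι W)

theorem conv_cv_ne {μ : I → ℝ} (hμ : Reg μ) (β : ι) (w : W) : R.cv β (w • μ) ≠ 0 := by
  intro h
  rcases lt_or_gt_of_ne (R.cv_smul_rho_ne β w) with h1 | h1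
  · have := (R.cv_neg_iff_of_reg β w hμ).2 h1
    linarith
  · have := (R.cv_pos_iff_of_reg β w hμ).2 h1
    linarith

theorem conv_ht_ne (β : ι) : R.ht (R.rt β) ≠ 0 := by
  by_cases h : β ∈ R.Pos
  · exact (R.ht_rt_pos h).ne'
  · exact (R.ht_rt_neg h).ne

theorem conv_lin (f : (I → ℝ) →ₗ[ℝ] ℝ) (μ : I → ℝ) (β : ι) (w : W) :
    f ((R.s β * w) • μ) = f (w • μ) - R.cv β (w • μ) * f (R.rt β) := by
  rw [mul_smul, R.s_smul', map_sub, f.map_smul (R.cv β (w • μ)), smul_eq_mul]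

theorem conv_step {μ : I → ℝ} (hμ : Reg μ) (w : W) (β : ι)
    (h : R.ht (w • μ) < R.ht ((R.s β * w) • μ)) : ∃ β', R.s β' = R.s β ∧ R.Step w β' := by
  by_cases hb : β ∈ R.Pos
  · exact ⟨β, rfl, (R.step_iff_ht hb hμ).2 h⟩
  · refine ⟨R.ng β, R.s_ng β, (R.step_iff_ht ((R.ng_mem_Pos β).2 hb) hμ).2 ?_⟩
    rw [R.s_ng]
    exact h

theorem conv_sign {X Y a b : ℝ} (hX : X ≠ 0) (h : 0 < (Y * a) * (-(Y * b))) :
    (-(X * a)) * (-(X * b)) < 0 := by
  have h1 : a * b < 0 := by
    by_contra hc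
    have hc' : 0 ≤ a * b := not_lt.1 hc
    have : 0 ≤ Y ^ 2 * (a * b) := mul_nonneg (sq_nonneg _) hc'
    nlinarith
  have h2 : 0 < X ^ 2 := by positivity
  have : X ^ 2 * (a * b) < 0 := mul_neg_of_pos_of_neg h2 h1
  nlinarith

/-- diamond lemma (Hurwitz moves in the dihedral group, periodicity) -/
theorem diamond {μ : I → ℝ} (hμ : Reg μ) {u : W} {β γ : ι} (h1 : R.Step u β)
    (h2 : R.Step (R.s β * u) γ) (σ : (I → ℝ) →ₗ[ℝ] ℝ)
    (h0 : σ ((R.s γ * (R.s β * u)) • μ) = σ (u • μ)) (hpos : σ (u • μ) < σ ((R.s β * u) • μ)) :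
    ∃ β' γ', R.Step u β' ∧ R.Step (R.s β' * u) γ' ∧
      R.s γ' * (R.s β' * u) = R.s γ * (R.s β * u) ∧ σ ((R.s β' * u) • μ) < σ (u • μ) := by
  by_contra hne
  have ha0 := R.ht_step_lt h1 hμ
  have hc0 := R.ht_step_lt h2 hμ
  set v : W := R.s γ * (R.s β * u) with hv
  have never : ∀ b g : ι, R.s g * (R.s b * u) = v → σ ((R.s b * u) • μ) < σ (u • μ) →
      R.ht (u • μ) < R.ht ((R.s b * u) • μ) → ¬ R.ht ((R.s b * u) • μ) < R.ht (v • μ) := by
    intro b g hbg hs ha hc
    obtain ⟨b', hb', sb⟩ := R.conv_step hμ u b ha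
    rw [← hbg] at hc
    obtain ⟨g', hg', sg⟩ := R.conv_step hμ (R.s b * u) g hc
    exact hne ⟨b', g', sb, by rw [hb']; exact sg, by rw [hb', hg', hbg], by rw [hb']; exact hs⟩
  have key : ∀ k : ℕ, ∃ b g : ι, R.s g * R.s b = R.s γ * R.s β ∧
      R.s b * u = (R.s γ * R.s β) ^ k * (R.s β * u) ∧
      0 < (σ ((R.s b * u) • μ) - σ (u • μ)) * (R.ht (v • μ) - R.ht ((R.s b * u) • μ)) ∧
      (k ≠ 0 → (σ ((R.s b * u) • μ) - σ (u • μ)) *
        (R.ht ((R.s b * u) • μ) - R.ht (u • μ)) < 0) := by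
    intro k
    induction k with
    | zero =>
      refine ⟨β, γ, rfl, by simp, mul_pos (by linarith) (by linarith), fun h => absurd rfl h⟩
    | succ k ih =>
      obtain ⟨b, g, e1, e2, p1, -⟩ := ih
      have e3 : R.s (R.s g • b) * R.s g = R.s γ * R.s β := by
        rw [R.s_conj, ← e1]
        group
      have ev : R.s g * (R.s b * u) = v := by rw [← mul_assoc, e1, hv, mul_assoc]
      have ev' : R.s (R.s g • b) * (R.s g * u) = v := by rw [← mul_assoc, e3, hv, mul_assoc]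
      have q1 := R.conv_lin σ μ g (R.s b * u)
      have q2 := R.conv_lin R.ht μ g (R.s b * u)
      have q3 := R.conv_lin σ μ g u
      have q4 := R.conv_lin R.ht μ g u
      rw [ev] at q1 q2
      have p2 : (σ ((R.s g * u) • μ) - σ (u • μ)) *
          (R.ht ((R.s g * u) • μ) - R.ht (u • μ)) < 0 := by
        have r1 : σ ((R.s b * u) • μ) - σ (u • μ) =
            R.cv g ((R.s b * u) • μ) * σ (R.rt g) := by linarith
        have r2 : R.ht (v • μ) - R.ht ((R.s b * u) • μ) =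
            -(R.cv g ((R.s b * u) • μ) * R.ht (R.rt g)) := by linarith
        have r3 : σ ((R.s g * u) • μ) - σ (u • μ) = -(R.cv g (u • μ) * σ (R.rt g)) := by
          linarith
        have r4 : R.ht ((R.s g * u) • μ) - R.ht (u • μ) =
            -(R.cv g (u • μ) * R.ht (R.rt g)) := by linarith
        rw [r1, r2] at p1
        rw [r3, r4]
        exact conv_sign (R.conv_cv_ne hμ g u) p1
      refine ⟨g, R.s g • b, e3, ?_, ?_, fun _ => p2⟩
      · rw [pow_succ', mul_assoc, ← e2, ← e1, mul_assoc, R.s_mul_s_mul]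
      · have cne : R.ht (v • μ) - R.ht ((R.s g * u) • μ) ≠ 0 := by
          have q5 := R.conv_lin R.ht μ (R.s g • b) (R.s g * u)
          rw [ev'] at q5
          have : R.ht (v • μ) - R.ht ((R.s g * u) • μ) =
              -(R.cv (R.s g • b) ((R.s g * u) • μ) * R.ht (R.rt (R.s g • b))) := by linarith
          rw [this]
          exact neg_ne_zero.2 (mul_ne_zero (R.conv_cv_ne hμ _ _) (R.conv_ht_ne _))
        rcases mul_neg_iff.1 p2 with ⟨s1, s2⟩ | ⟨s1, s2⟩
        · exact mul_pos s1 (by linarith)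
        · have := never g (R.s g • b) ev' (by linarith) (by linarith)
          have c1 : R.ht (v • μ) - R.ht ((R.s g * u) • μ) < 0 :=
            lt_of_le_of_ne (by linarith [not_lt.1 this]) cne
          exact mul_pos_of_neg_of_neg s1 c1
  obtain ⟨b, g, -, e2, -, p2⟩ := key (Fintype.card W)
  rw [pow_card_eq_one, one_mul] at e2
  have p3 := p2 Fintype.card_ne_zero
  rw [e2] at p3
  have : 0 < (σ ((R.s β * u) • μ) - σ (u • μ)) * (R.ht ((R.s β * u) • μ) - R.ht (u • μ)) :=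
    mul_pos (by linarith) (by linarith)
  linarith

/-- chains of steps as functions -/
def ConvCh (n : ℕ) (k : ℕ → W) : Prop :=
  ∀ j < n, ∃ β, R.Step (k j) β ∧ k (j + 1) = R.s β * k j

theorem conv_ch_of_cchain (a : List ι) : ∀ u : W, R.CChain u a →
    ∃ k : ℕ → W, k 0 = u ∧ k a.length = R.endb u a ∧ R.ConvCh a.length k := by
  induction a with
  | nil => intro u _; exact ⟨fun _ => u, rfl, rfl, fun j hj => absurd hj (by simp)⟩
  | cons β l ih =>
    intro u h
    obtain ⟨k, k0, kn, hk⟩ := ih _ h.2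
    refine ⟨fun j => Nat.casesOn j u k, rfl, kn, ?_⟩
    intro j hj
    cases j with
    | zero => exact ⟨β, h.1.1, k0⟩
    | succ j => exact hk j (by simpa using hj)

theorem conv_ch_lt {n : ℕ} {k : ℕ → W} (hk : R.ConvCh n k) {i j : ℕ} (hij : i < j)
    (hj : j ≤ n) : R.Le (k j) (k i) ∧ R.len (k j) < R.len (k i) := by
  induction j, hij using Nat.le_induction with
  | base =>
    obtain ⟨β, hs, he⟩ := hk i hj
    rw [Nat.succ_eq_add_one, he]
    exact ⟨R.le_of_step hs, R.len_step hs⟩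
  | succ j hij ih =>
    obtain ⟨β, hs, he⟩ := hk j hj
    obtain ⟨i1, i2⟩ := ih (by omega)
    rw [he]
    exact ⟨R.le_trans' (R.le_of_step hs) i1, (R.len_step hs).trans i2⟩

/-- one exchange at a first maximiser -/
theorem conv_exchange {μ : I → ℝ} (hμ : Reg μ) (g : (I → ℝ) →ₗ[ℝ] ℝ) {a : W} {β γ : ι}
    (h1 : R.Step a β) (h2 : R.Step (R.s β * a) γ) (g1 : g (a • μ) < g ((R.s β * a) • μ))
    (g2 : g ((R.s γ * (R.s β * a)) • μ) ≤ g ((R.s β * a) • μ)) :
    ∃ β' γ', R.Step a β' ∧ R.Step (R.s β' * a) γ' ∧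
      R.s γ' * (R.s β' * a) = R.s γ * (R.s β * a) ∧
      g ((R.s β' * a) • μ) < g ((R.s β * a) • μ) := by
  have t1 := R.ht_step_lt h1 hμ
  have t2 := R.ht_step_lt h2 hμ
  set A := R.ht (a • μ) with hA
  set B := R.ht ((R.s β * a) • μ) with hB
  set E := R.ht ((R.s γ * (R.s β * a)) • μ) with hE
  set ga := g (a • μ) with hga
  set gb := g ((R.s β * a) • μ) with hgb
  set ge := g ((R.s γ * (R.s β * a)) • μ) with hge
  obtain ⟨β', γ', s1, s2, e, hσ⟩ := R.diamond hμ h1 h2 ((E - A) • g - (ge - ga) • R.ht)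
    (by
      simp only [LinearMap.sub_apply, LinearMap.smul_apply, smul_eq_mul]
      rw [← hA, ← hE, ← hga, ← hge]
      ring)
    (by
      simp only [LinearMap.sub_apply, LinearMap.smul_apply, smul_eq_mul]
      rw [← hA, ← hB, ← hga, ← hgb]
      have c1 : 0 < (E - B) * (gb - ga) := mul_pos (by linarith) (by linarith)
      have c2 : 0 ≤ (B - A) * (gb - ge) := mul_nonneg (by linarith) (by linarith)
      nlinarith)
  refine ⟨β', γ', s1, s2, e, ?_⟩
  have t3 := R.ht_step_lt s1 hμ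
  have t4 := R.ht_step_lt s2 hμ
  rw [e, ← hE] at t4
  rw [← hA] at t3
  simp only [LinearMap.sub_apply, LinearMap.smul_apply, smul_eq_mul] at hσ
  rw [← hA, ← hga] at hσ
  set T := R.ht ((R.s β' * a) • μ) with hT
  set gt := g ((R.s β' * a) • μ) with hgt
  by_contra hc
  have hc' : gb ≤ gt := not_lt.1 hc
  have c1 : 0 ≤ (E - T) * (gt - ga) := mul_nonneg (by linarith) (by linarith)
  have c2 : 0 ≤ (T - A) * (gt - ge) := mul_nonneg (by linarith) (by linarith)
  nlinarith

/-- no functional is constant on the ends and larger on the open interval -/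
theorem conv_no_face {μ : I → ℝ} (hμ : Reg μ) {u v : W} (h : R.Le v u)
    (hl : R.len v + 2 ≤ R.len u) (g : (I → ℝ) →ₗ[ℝ] ℝ) (huv : g (v • μ) = g (u • μ))
    (hg : ∀ τ, R.Le v τ → R.Le τ u → τ ≠ u → τ ≠ v → g (u • μ) < g (τ • μ)) : False := by
  classical
  obtain ⟨a, ha, he⟩ := R.exists_cchain h
  have hlen := R.cchain_len ha
  rw [he] at hlen
  obtain ⟨k1, k10, k1n, hk1⟩ := R.conv_ch_of_cchain a u ha
  rw [he] at k1n
  have hn : 2 ≤ a.length := by omega
  generalize a.length = n at hn k1n hk1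
  have hfin : Set.Finite {x : ℝ | ∃ k : ℕ → W, k 0 = u ∧ k n = v ∧ R.ConvCh n k ∧
      x = ∑ j ∈ range (n + 1), g (k j • μ)} := by
    refine (Set.finite_range (fun κ : Fin (n + 1) → W => ∑ j, g (κ j • μ))).subset ?_
    rintro x ⟨k, -, -, -, rfl⟩
    exact ⟨fun j => k j, (Finset.sum_range (fun j => g (k j • μ))).symm⟩
  obtain ⟨x, ⟨k, k0, kn, hk, rfl⟩, hmin⟩ :=
    Set.exists_min_image _ id hfin ⟨_, k1, k10, k1n, hk1, rfl⟩
  have hone : g (u • μ) < g (k 1 • μ) := by
    obtain ⟨i1, i2⟩ := R.conv_ch_lt hk (i := 0) (j := 1) (by omega) (by omega)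
    obtain ⟨i3, i4⟩ := R.conv_ch_lt hk (i := 1) (j := n) (by omega) le_rfl
    rw [k0] at i1 i2
    rw [kn] at i3 i4
    refine hg _ i3 i1 ?_ ?_
    · intro e; rw [e] at i2; exact lt_irrefl _ i2
    · intro e; rw [e] at i4; exact lt_irrefl _ i4
  have hex : ∃ i, i ≤ n ∧ ∀ j ≤ n, g (k j • μ) ≤ g (k i • μ) := by
    obtain ⟨i, hi, hm⟩ := Finset.exists_max_image (range (n + 1)) (fun j => g (k j • μ))
      ⟨0, by simp⟩
    exact ⟨i, by simpa [Nat.lt_succ_iff] using hi, fun j hj => hm j (by simpa [Nat.lt_succ_iff])⟩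
  obtain ⟨hi, hmax⟩ := Nat.find_spec hex
  have hfirst : ∀ j < Nat.find hex, ¬ (j ≤ n ∧ ∀ j' ≤ n, g (k j' • μ) ≤ g (k j • μ)) :=
    fun j hj => Nat.find_min hex hj
  generalize Nat.find hex = i at hi hmax hfirst
  have h1 := hmax 1 (by omega)
  have i0 : i ≠ 0 := by
    rintro rfl
    rw [k0] at h1
    linarith
  have iN : i ≠ n := by
    rintro rfl
    rw [kn] at h1
    linarith
  obtain ⟨i, rfl⟩ := Nat.exists_eq_add_one_of_ne_zero i0
  obtain ⟨β, s1, e1⟩ := hk i (by omega)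
  obtain ⟨γ, s2, e2⟩ := hk (i + 1) (by omega)
  have g1 : g (k i • μ) < g (k (i + 1) • μ) := by
    by_contra hc
    exact hfirst i (by omega) ⟨by omega, fun j hj => (hmax j hj).trans (not_lt.1 hc)⟩
  have g2 := hmax (i + 1 + 1) (by omega)
  rw [e2] at g2
  rw [e1] at s2 g1 g2
  obtain ⟨β', γ', s3, s4, e3, g3⟩ := R.conv_exchange hμ g s1 s2 g1 g2
  rw [← e1] at g3
  rw [← e1, ← e2] at e3
  have hnew : R.ConvCh n (Function.update k (i + 1) (R.s β' * k i)) := by
    intro j hj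
    by_cases j1 : j = i
    · subst j1
      refine ⟨β', ?_, ?_⟩
      · rw [Function.update_of_ne (by omega)]; exact s3
      · rw [Function.update_self, Function.update_of_ne (by omega)]
    · by_cases j2 : j = i + 1
      · subst j2
        refine ⟨γ', ?_, ?_⟩
        · rw [Function.update_self]; exact s4
        · rw [Function.update_self, Function.update_of_ne (by omega)]; exact e3.symm
      · obtain ⟨δ, s5, e5⟩ := hk j hj
        refine ⟨δ, ?_, ?_⟩
        · rw [Function.update_of_ne j2]; exact s5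
        · rw [Function.update_of_ne j2, Function.update_of_ne (by omega)]; exact e5
  have hle := hmin _ ⟨Function.update k (i + 1) (R.s β' * k i),
    by rw [Function.update_of_ne (by omega)]; exact k0,
    by rw [Function.update_of_ne (by omega)]; exact kn, hnew, rfl⟩
  have hlt : ∑ j ∈ range (n + 1), g (Function.update k (i + 1) (R.s β' * k i) j • μ) <
      ∑ j ∈ range (n + 1), g (k j • μ) := by
    refine Finset.sum_lt_sum (fun j _ => ?_) ⟨i + 1, by simp; omega, ?_⟩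
    · by_cases j2 : j = i + 1
      · subst j2
        rw [Function.update_self]; exact g3.le
      · rw [Function.update_of_ne j2]
    · rw [Function.update_self]; exact g3
  exact absurd hle (not_le.2 hlt)

/-- a Bruhat interval of length at least two is not an edge of its polytope -/
theorem conv {μ : I → ℝ} (hμ : Reg μ) {u v : W} (h : R.Le v u) (hl : R.len v + 2 ≤ R.len u) :
    ∃ (p : W → ℝ) (q : ℝ), (∀ τ, 0 ≤ p τ) ∧ ∑ τ, p τ = 1 ∧
      (∀ τ, p τ ≠ 0 → R.Le v τ ∧ R.Le τ u ∧ τ ≠ u ∧ τ ≠ v) ∧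
      ∑ τ, p τ • (τ • μ) = q • (u • μ) + (1 - q) • (v • μ) := by
  classical
  by_contra hne
  set P : Set (W → ℝ) := stdSimplex ℝ W ∩
    {p | ∀ τ, ¬ (R.Le v τ ∧ R.Le τ u ∧ τ ≠ u ∧ τ ≠ v) → p τ = 0} with hP
  set L : (W → ℝ) →ₗ[ℝ] (I → ℝ) := Fintype.linearCombination ℝ (fun τ : W => τ • μ) with hL
  have hPc : Convex ℝ P := by
    refine (convex_stdSimplex ℝ W).inter ?_
    intro x hx y hy a b _ _ _ τ hτ
    simp [hx τ hτ, hy τ hτ]
  have hPk : IsCompact P := by
    refine (isCompact_stdSimplex ℝ W).inter_right ?_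
    simp only [Set.ofPred_forall]
    exact isClosed_iInter fun τ => isClosed_iInter fun _ =>
      isClosed_eq (continuous_apply τ) continuous_const
  have hdis : Disjoint (L '' P) (line[ℝ, v • μ, u • μ] : Set (I → ℝ)) := by
    rw [Set.disjoint_left]
    rintro x ⟨p, ⟨hp1, hp2⟩, rfl⟩ hx
    obtain ⟨q, hq⟩ := mem_affineSpan_pair_iff_exists_lineMap_eq.1 hx
    refine hne ⟨p, q, hp1.1, hp1.2, fun τ hτ => ?_, ?_⟩
    · by_contra hc
      exact hτ (hp2 τ hc)
    · rw [hL, Fintype.linearCombination_apply, AffineMap.lineMap_apply_module] at hq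
      rw [← hq, add_comm]
  obtain ⟨f, a, b, f1, hab, f2⟩ := geometric_hahn_banach_compact_closed (hPc.linear_image L)
    (hPk.image L.continuous_of_finiteDimensional) (AffineSubspace.convex _)
    (AffineSubspace.closed_of_finiteDimensional _) hdis
  have f3 : ∀ q : ℝ, b < (1 - q) * f (v • μ) + q * f (u • μ) := by
    intro q
    have := f2 _ (AffineMap.lineMap_mem_affineSpan_pair q (v • μ) (u • μ))
    rwa [AffineMap.lineMap_apply_module, map_add, f.map_smul (1 - q), f.map_smul q, smul_eq_mul,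
      smul_eq_mul] at this
  have f4 : f (v • μ) = f (u • μ) := by
    by_contra hc
    have hd : f (u • μ) - f (v • μ) ≠ 0 := sub_ne_zero.2 (Ne.symm hc)
    have := f3 ((b - f (v • μ)) / (f (u • μ) - f (v • μ)))
    have e : (1 - (b - f (v • μ)) / (f (u • μ) - f (v • μ))) * f (v • μ) +
        (b - f (v • μ)) / (f (u • μ) - f (v • μ)) * f (u • μ) = b := by
      field_simp
      ring
    linarith
  refine R.conv_no_face hμ h hl (-(f : (I → ℝ) →ₗ[ℝ] ℝ)) (by simp [f4]) ?_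
  intro τ t1 t2 t3 t4
  have hmem : τ • μ ∈ L '' P := by
    refine ⟨Pi.single τ 1, ⟨single_mem_stdSimplex ℝ τ, fun τ' hτ' => ?_⟩, ?_⟩
    · refine Pi.single_eq_of_ne ?_ _
      rintro rfl
      exact hτ' ⟨t1, t2, t3, t4⟩
    · rw [hL, Fintype.linearCombination_apply_single, one_smul]
  have := f1 _ hmem
  have f5 := f3 1
  simp only [LinearMap.neg_apply, ContinuousLinearMap.coe_coe]
  linarith

end RD

end Pool.Agent.Lib.MP_1e3767_al
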