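import Pool.Agent.Lib.MP_1e3767_al.Path

set_option linter.unusedSectionVars false

namespace Pool.Agent.Lib.MP_1e3767_al

open Finset

namespace RD
variable {I ι W : Type*} [Fintype I] [DecidableEq I] [Fintype ι] [Group W] [Fintype W]
  [DistribMulAction W (I → ℝ)] [SMulCommClass W ℝ (I → ℝ)] [MulAction W ι] (R : RD I ι W)

theorem crystal_pos_of_not_neg (R : RD I ι W) {u : W} {i : I}
    (h : ¬ (u • (rho : I → ℝ)) i < 0) : 0 < (u • (rho : I → ℝ)) i :=
  lt_of_le_of_ne (not_lt.mp h) (R.smul_rho_ne u i).symm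

theorem crystal_last_aux (i : I) (l : List (ℝ × ι)) : ∀ {u : W} {a0 : ℝ}, R.IsChain u a0 l →
    0 < (R.endp u l • (rho : I → ℝ)) i →
    (∀ b1 b2, l = b1 ++ b2 → 0 < (R.endp u b1 • (rho : I → ℝ)) i) ∨
    ∃ a c b, l = a ++ (c, R.sr i) :: b ∧ (R.endp u a • (rho : I → ℝ)) i < 0 ∧
      ∀ b1 b2, b = b1 ++ b2 →
        0 < (R.endp (R.s (R.sr i) * R.endp u a) b1 • (rho : I → ℝ)) i := by
  induction l with
  | nil =>
    intro u a0 _ he
    left
    intro b1 b2 hb
    have h1 : b1 = [] := (List.append_eq_nil_iff.mp hb.symm).1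
    subst h1
    exact he
  | cons p l ih =>
    intro u a0 h he
    obtain ⟨hc, -, -, hl⟩ := h
    rcases ih hl he with h1 | ⟨a, c, b, rfl, h2, h3⟩
    · by_cases hu : (u • (rho : I → ℝ)) i < 0
      · right
        have h0 := h1 [] l rfl
        have hp : p.2 = R.sr i := R.eq_sr_of_cover hc hu h0
        refine ⟨[], p.1, l, ?_, hu, ?_⟩
        · rw [← hp]; rfl
        · intro b1 b2 hb
          have h4 := h1 b1 b2 hb
          rw [hp] at h4
          exact h4
      · left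
        intro b1 b2 hb
        cases b1 with
        | nil => exact R.crystal_pos_of_not_neg hu
        | cons q b1 =>
          obtain ⟨rfl, hb'⟩ := List.cons.inj hb
          exact h1 b1 b2 hb'
    · right
      exact ⟨p :: a, c, b, rfl, h2, h3⟩

/-- last change from descending to ascending -/
theorem last_change (i : I) {u : W} {a0 : ℝ} {l : List (ℝ × ι)} (h : R.IsChain u a0 l)
    (hu : (u • (rho : I → ℝ)) i < 0) (he : 0 < (R.endp u l • (rho : I → ℝ)) i) :
    ∃ a c b, l = a ++ (c, R.sr i) :: b ∧ (R.endp u a • (rho : I → ℝ)) i < 0 ∧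
      ∀ b1 b2, b = b1 ++ b2 → 0 < (R.endp (R.s (R.sr i) * R.endp u a) b1 • (rho : I → ℝ)) i := by
  rcases R.crystal_last_aux i l h he with h1 | h1
  · exact absurd (h1 [] l rfl) (not_lt.mpr hu.le)
  · exact h1

/-- first change from descending to ascending -/
theorem first_change (i : I) {u : W} {a0 : ℝ} {l : List (ℝ × ι)} (h : R.IsChain u a0 l)
    (hu : (u • (rho : I → ℝ)) i < 0) (he : 0 < (R.endp u l • (rho : I → ℝ)) i) :
    ∃ a c b, l = a ++ (c, R.sr i) :: b ∧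
      ∀ a1 a2, a = a1 ++ a2 → (R.endp u a1 • (rho : I → ℝ)) i < 0 := by
  induction l generalizing u a0 with
  | nil => exact absurd he (not_lt.mpr hu.le)
  | cons p l ih =>
    obtain ⟨hc, -, -, hl⟩ := h
    by_cases hv : ((R.s p.2 * u) • (rho : I → ℝ)) i < 0
    · obtain ⟨a, c, b, rfl, h2⟩ := ih hl hv he
      refine ⟨p :: a, c, b, rfl, ?_⟩
      intro a1 a2 ha
      cases a1 with
      | nil => exact hu
      | cons q a1 =>
        obtain ⟨rfl, ha'⟩ := List.cons.inj ha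
        exact h2 a1 a2 ha'
    · have hp : p.2 = R.sr i := R.eq_sr_of_cover hc hu (R.crystal_pos_of_not_neg hv)
      refine ⟨[], p.1, l, ?_, ?_⟩
      · rw [← hp]; rfl
      · intro a1 a2 ha
        have h1 : a1 = [] := (List.append_eq_nil_iff.mp ha.symm).1
        subst h1
        exact hu

/-- conjugating a stretch with constant sign at `i` by the simple reflection -/
theorem conj_chain (μ : I → ℝ) (i : I) {u : W} {a0 : ℝ} {l : List (ℝ × ι)} (h : R.IsChain u a0 l)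
    (hs : ∀ a b, l = a ++ b →
      ((R.endp u a • (rho : I → ℝ)) i < 0 ↔ (u • (rho : I → ℝ)) i < 0)) :
    R.IsChain (R.s (R.sr i) * u) a0 (l.map fun p => (p.1, R.s (R.sr i) • p.2)) ∧
    R.endp (R.s (R.sr i) * u) (l.map fun p => (p.1, R.s (R.sr i) • p.2)) =
      R.s (R.sr i) * R.endp u l ∧
    (R.IsLS μ u l → R.IsLS μ (R.s (R.sr i) * u) (l.map fun p => (p.1, R.s (R.sr i) • p.2))) ∧
    ∀ t, R.corr μ (R.s (R.sr i) * u) (l.map fun p => (p.1, R.s (R.sr i) • p.2)) t =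
      R.s (R.sr i) • R.corr μ u l t := by
  induction l generalizing u a0 with
  | nil =>
    refine ⟨trivial, rfl, fun _ => trivial, fun t => ?_⟩
    simp only [List.map_nil, corr, smul_zero]
  | cons p l ih =>
    obtain ⟨hc, h0, h1, hl⟩ := h
    have hp : ((R.s p.2 * u) • (rho : I → ℝ)) i < 0 ↔ (u • (rho : I → ℝ)) i < 0 :=
      hs [p] l rfl
    have hs' : ∀ a b, l = a ++ b →
        ((R.endp (R.s p.2 * u) a • (rho : I → ℝ)) i < 0 ↔
          ((R.s p.2 * u) • (rho : I → ℝ)) i < 0) := by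
      intro a b hab
      exact (hs (p :: a) b (by rw [hab]; rfl)).trans hp.symm
    obtain ⟨i1, i2, i3, i4⟩ := ih hl hs'
    have hcv : R.cv (R.s (R.sr i) • p.2) ((R.s (R.sr i) * u) • μ) = R.cv p.2 (u • μ) := by
      rw [mul_smul, R.cv_smul_smul]
    refine ⟨⟨R.cover_sr_mul hc hp.symm, h0, h1, ?_⟩, ?_, ?_, ?_⟩
    · show R.IsChain (R.s (R.s (R.sr i) • p.2) * (R.s (R.sr i) * u)) p.1 _
      rw [R.s_sr_mul_comm]
      exact i1
    · rw [List.map_cons, endp_cons, endp_cons]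
      show R.endp (R.s (R.s (R.sr i) • p.2) * (R.s (R.sr i) * u)) _ = _
      rw [R.s_sr_mul_comm]
      exact i2
    · rintro ⟨hz, hls⟩
      refine ⟨?_, ?_⟩
      · show ∃ z : ℤ, R.cv (R.s (R.sr i) • p.2) ((R.s (R.sr i) * u) • μ) * p.1 = z
        rw [hcv]
        exact hz
      · show R.IsLS μ (R.s (R.s (R.sr i) • p.2) * (R.s (R.sr i) * u)) _
        rw [R.s_sr_mul_comm]
        exact i3 hls
    · intro t
      show R.corr μ (R.s (R.s (R.sr i) • p.2) * (R.s (R.sr i) * u)) _ t +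
          (R.cv (R.s (R.sr i) • p.2) ((R.s (R.sr i) * u) • μ) * min t p.1) •
            R.rt (R.s (R.sr i) • p.2) =
        R.s (R.sr i) • (R.corr μ (R.s p.2 * u) l t + (R.cv p.2 (u • μ) * min t p.1) • R.rt p.2)
      rw [R.s_sr_mul_comm, i4, hcv, R.smul_rt, smul_add,
        smul_comm (R.s (R.sr i)) (R.cv p.2 (u • μ) * min t p.1) (R.rt p.2)]

theorem continuous_of_mem_BB {μ : I → ℝ} {π : ℝ → I → ℝ} (h : π ∈ R.BB μ) : Continuous π := by
  obtain ⟨l, -, -, rfl⟩ := h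
  exact R.continuous_path μ _ l

theorem zero_of_mem_BB {μ : I → ℝ} {π : ℝ → I → ℝ} (h : π ∈ R.BB μ) : π 0 = 0 := by
  obtain ⟨l, hm, -, rfl⟩ := h
  exact R.path_zero μ hm.1

theorem intV_end {μ : I → ℝ} (hi : IntV μ) {π : ℝ → I → ℝ} (h : π ∈ R.BB μ) : IntV (π 1) := by
  obtain ⟨l, hm, hls, rfl⟩ := h
  rw [R.path_eq_corr, R.corr_of_ge μ _ l (fun p hp => (R.isChain_mem hm.1 p hp).2), hm.2,
    one_smul, one_smul]
  intro i
  obtain ⟨z1, h1⟩ := hi i
  obtain ⟨z2, h2⟩ := R.intV_of_inQ (R.inQ_icpt hls) i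
  refine ⟨z1 + z2, ?_⟩
  rw [Pi.add_apply, h1, h2, Int.cast_add]

theorem crystal_finite_times {m : ℝ} (hm : m ≠ 0) :
    {a : ℝ | 0 ≤ a ∧ a ≤ 1 ∧ ∃ z : ℤ, m * a = z}.Finite := by
  refine ((Set.finite_Icc (-⌈|m|⌉) ⌈|m|⌉).image (fun z : ℤ => (z : ℝ) / m)).subset ?_
  rintro a ⟨h0, h1, z, hz⟩
  have h2 : |(z : ℝ)| ≤ |m| := by
    rw [← hz, abs_mul, abs_of_nonneg h0]
    exact mul_le_of_le_one_right (abs_nonneg m) h1
  have h3 : |(z : ℝ)| ≤ (⌈|m|⌉ : ℝ) := h2.trans (Int.le_ceil _)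
  have h4 : |z| ≤ ⌈|m|⌉ := by exact_mod_cast h3
  refine ⟨z, abs_le.mp h4, ?_⟩
  show (z : ℝ) / m = a
  rw [← hz, mul_div_cancel_left₀ a hm]

theorem crystal_finite_terms (m : ℝ) (v : I → ℝ) :
    {g : ℝ → I → ℝ | ∃ a : ℝ, (0 ≤ a ∧ a ≤ 1 ∧ ∃ z : ℤ, m * a = z) ∧
      g = fun t => (m * min t a) • v}.Finite := by
  by_cases hm : m = 0
  · refine (Set.finite_singleton (0 : ℝ → I → ℝ)).subset ?_
    rintro g ⟨a, -, rfl⟩
    subst hm
    funext t
    simp
  · refine ((crystal_finite_times hm).image (fun a : ℝ => fun t : ℝ => (m * min t a) • v)).subset ?_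
    rintro g ⟨a, ha, rfl⟩
    exact ⟨a, ha, rfl⟩

theorem crystal_finite_aux (μ : I → ℝ) (n : ℕ) : ∀ u : W, R.len u = n →
    {π : ℝ → I → ℝ | ∃ l, R.IsChain u 0 l ∧ R.IsLS μ u l ∧ π = R.path μ u l}.Finite := by
  induction n using Nat.strong_induction_on with
  | _ n ih =>
    intro u hu
    have hfin : ∀ β : ι, {π : ℝ → I → ℝ | ∃ c l, R.IsChain u 0 ((c, β) :: l) ∧
        R.IsLS μ u ((c, β) :: l) ∧ π = R.path μ u ((c, β) :: l)}.Finite := by
      intro β
      by_cases hc : R.Cover u β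
      · have h1 := ih (R.len (R.s β * u)) (by have := hc.2; omega) (R.s β * u) rfl
        refine (h1.image2 (· + ·) (crystal_finite_terms (R.cv β (u • μ)) (R.rt β))).subset ?_
        rintro π ⟨c, l, ⟨-, h0, h2, hl⟩, ⟨hz, hls⟩, rfl⟩
        exact ⟨R.path μ (R.s β * u) l, ⟨l, R.isChain_mono hl h0, hls, rfl⟩,
          fun t => (R.cv β (u • μ) * min t c) • R.rt β, ⟨c, ⟨h0, h2, hz⟩, rfl⟩, rfl⟩
      · refine Set.finite_empty.subset ?_
        rintro π ⟨c, l, ⟨h0, -⟩, -⟩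
        exact absurd h0 hc
    refine ((Set.finite_singleton (R.path μ u [])).union (Set.finite_iUnion hfin)).subset ?_
    rintro π ⟨l, h1, h2, rfl⟩
    cases l with
    | nil => exact Or.inl rfl
    | cons p l => exact Or.inr (Set.mem_iUnion.mpr ⟨p.2, p.1, l, h1, h2, rfl⟩)

theorem finite_BB (μ : I → ℝ) : (R.BB μ).Finite := by
  refine (R.crystal_finite_aux μ _ R.w0 rfl).subset ?_
  rintro π ⟨l, hm, hls, rfl⟩
  exact ⟨l, hm.1, hls, rfl⟩

/-- the path between two groups of turns is the path of the middle group, shifted -/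
theorem crystal_path_mid (μ : I → ℝ) (u : W) (a b c : List (ℝ × ι)) {t : ℝ}
    (ha : ∀ p ∈ a, p.1 ≤ t) (hc : ∀ p ∈ c, t ≤ p.1) :
    R.path μ u (a ++ (b ++ c)) t = R.path μ (R.endp u a) b t + R.icpt μ u a := by
  rw [R.path_append, R.corr_of_ge μ u a ha, R.path_append, R.path_of_le μ _ c hc,
    R.path_eq_corr μ _ b]

/-- at a turn labelled by the simple root the coordinate is an integer -/
theorem crystal_int_at (μ : I → ℝ) (i : I) {u : W} {a0 c : ℝ} {a b : List (ℝ × ι)}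
    (h : R.IsChain u a0 (a ++ (c, R.sr i) :: b)) (hls : R.IsLS μ u (a ++ (c, R.sr i) :: b)) :
    ∃ z : ℤ, R.path μ u (a ++ (c, R.sr i) :: b) c i = z := by
  obtain ⟨-, h2, h3⟩ := (R.isChain_append u a0 a _).mp h
  obtain ⟨l1, ⟨z1, hz1⟩, -⟩ := (R.isLS_append μ u a _).mp hls
  have hb : ∀ p ∈ (c, R.sr i) :: b, c ≤ p.1 := by
    intro p hp
    rcases List.mem_cons.mp hp with rfl | hp
    · exact le_rfl
    · exact (R.isChain_mem h2.2.2.2 p hp).1
  rw [R.path_between μ u a _ (fun p hp => h3 p hp (c, R.sr i) List.mem_cons_self) hb]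
  obtain ⟨z2, hz2⟩ := R.intV_of_inQ (R.inQ_icpt l1) i
  refine ⟨z2 + z1, ?_⟩
  have hz3 : (R.endp u a • μ) i * c = z1 := by
    rw [← R.cv_sr i (R.endp u a • μ)]
    exact hz1
  rw [Pi.add_apply, hz2, Pi.smul_apply, smul_eq_mul, mul_comm, hz3, Int.cast_add]

theorem mn_int {μ : I → ℝ} (hμ : Dom μ) {π : ℝ → I → ℝ} (h : π ∈ R.BB μ) (i : I) :
    ∃ z : ℤ, mn i π = z := by
  have hcont := R.continuous_of_mem_BB h
  obtain ⟨l, ⟨hch, hend⟩, hls, rfl⟩ := h
  obtain ⟨ts, hts, hmin⟩ := exists_eq_mn hcont i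
  obtain ⟨A, C, rfl, hA, hC⟩ := R.split_le hch ts
  obtain ⟨cA, cC, hAC⟩ := (R.isChain_append _ _ A C).mp hch
  have key : ∀ (c : ℝ) (a b : List (ℝ × ι)), A ++ C = a ++ (c, R.sr i) :: b →
      R.path μ R.w0 (A ++ C) c i ≤ R.path μ R.w0 (A ++ C) ts i →
      ∃ z : ℤ, mn i (R.path μ R.w0 (A ++ C)) = z := by
    intro c a b hab hle
    have hc : c ∈ Set.Icc (0:ℝ) 1 :=
      R.isChain_mem hch (c, R.sr i) (by rw [hab]; simp)
    have h1 := mn_le hcont i hc
    have h2 : ∃ z : ℤ, R.path μ R.w0 (A ++ C) c i = z := by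
      rw [hab] at hch hls ⊢
      exact R.crystal_int_at μ i hch hls
    obtain ⟨z, hz⟩ := h2
    exact ⟨z, by rw [← hz]; exact le_antisymm h1 (hle.trans hmin.le)⟩
  by_cases hk : (R.endp R.w0 A • (rho : I → ℝ)) i < 0
  · have he : 0 < (R.endp (R.endp R.w0 A) C • (rho : I → ℝ)) i := by
      rw [← R.endp_append, hend, one_smul]
      exact one_pos
    obtain ⟨a, c, b, rfl, h2⟩ := R.first_change i cC hk he
    obtain ⟨ca, cb, -⟩ := (R.isChain_append _ _ a _).mp cC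
    have hc : ts < c := hC (c, R.sr i) (by simp)
    have hb : ∀ p ∈ (c, R.sr i) :: b, c ≤ p.1 := by
      intro p hp
      rcases List.mem_cons.mp hp with rfl | hp
      · exact le_rfl
      · exact (R.isChain_mem cb.2.2.2 p hp).1
    refine key c (A ++ a) b (by rw [List.append_assoc]) ?_
    rw [R.crystal_path_mid μ _ A a _ (fun p hp => (hA p hp).trans hc.le) hb,
      R.crystal_path_mid μ _ A a _ hA (fun p hp => hc.le.trans (hb p hp)),
      Pi.add_apply, Pi.add_apply]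
    exact add_le_add_left (R.antitone_path hμ i ca h2 hc.le) _
  · obtain ⟨a, c, b, rfl, -, h2⟩ :=
      R.last_change i cA (R.w0_neg i) (R.crystal_pos_of_not_neg hk)
    obtain ⟨-, cb, hab⟩ := (R.isChain_append _ _ a _).mp cA
    have hc : c ≤ ts := hA (c, R.sr i) (by simp)
    have ha : ∀ p ∈ a ++ [(c, R.sr i)], p.1 ≤ c := by
      intro p hp
      rcases List.mem_append.mp hp with hp | hp
      · exact hab p hp (c, R.sr i) List.mem_cons_self
      · rw [List.mem_singleton.mp hp]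
    have hsplit : (a ++ (c, R.sr i) :: b) ++ C = (a ++ [(c, R.sr i)]) ++ (b ++ C) := by simp
    have hend' : R.endp R.w0 (a ++ [(c, R.sr i)]) = R.s (R.sr i) * R.endp R.w0 a := by
      rw [R.endp_append]; rfl
    refine key c a (b ++ C) (by simp) ?_
    rw [hsplit, R.crystal_path_mid μ _ _ b C ha (fun p hp => hc.trans (hC p hp).le),
      R.crystal_path_mid μ _ _ b C (fun p hp => (ha p hp).trans hc) (fun p hp => (hC p hp).le),
      Pi.add_apply, Pi.add_apply, hend']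
    exact add_le_add_left (R.monotone_path hμ i cb.2.2.2 h2 hc) _

end RD

end Pool.Agent.Lib.MP_1e3767_al
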