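import Pool.Agent.Lib.MP_1e3767_al.Crystal

set_option linter.unusedSectionVars false

namespace Pool.Agent.Lib.MP_1e3767_al

open Finset

namespace RD
variable {I ι W : Type*} [Fintype I] [DecidableEq I] [Fintype ι] [Group W] [Fintype W]
  [DistribMulAction W (I → ℝ)] [SMulCommClass W ℝ (I → ℝ)] [MulAction W ι] (R : RD I ι W)

theorem crystalF_f_bound {l : List (ℝ × ι)} {b : ℝ} (h : ∀ p ∈ l, p.1 < b) :
    ∃ c < b, ∀ p ∈ l, p.1 ≤ c := by
  induction l with
  | nil => exact ⟨b - 1, by linarith, by simp⟩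
  | cons q l ih =>
    obtain ⟨c, hc, hc2⟩ := ih (fun p hp => h p (List.mem_cons_of_mem _ hp))
    refine ⟨max c q.1, max_lt hc (h q List.mem_cons_self), ?_⟩
    intro p hp
    rcases List.mem_cons.1 hp with rfl | hp
    · exact le_max_right _ _
    · exact (hc2 p hp).trans (le_max_left _ _)

/-- the last time at which a continuous function leaves the region below a level -/
theorem crystalF_f_time {g : ℝ → ℝ} (hg : Continuous g) {y t0 : ℝ} (ht0 : t0 ∈ Set.Icc (0:ℝ) 1)
    (h0 : g t0 < y) (h1 : y ≤ g 1) :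
    ∃ b, 0 < b ∧ b ≤ 1 ∧ g b = y ∧ (∀ t ∈ Set.Icc b 1, y ≤ g t) ∧
      ∀ c < b, ∃ t, c < t ∧ t < b ∧ g t < y := by
  set T : Set ℝ := {t | t ∈ Set.Icc (0:ℝ) 1 ∧ g t < y} with hT
  have hne : T.Nonempty := ⟨t0, ht0, h0⟩
  have hbd : BddAbove T := ⟨1, fun t ht => ht.1.2⟩
  have hb1 : sSup T ≤ 1 := csSup_le hne (fun t ht => ht.1.2)
  have hb0 : t0 ≤ sSup T := le_csSup hbd ⟨ht0, h0⟩
  have hgt : ∀ t, sSup T < t → t ≤ 1 → y ≤ g t := by
    intro t ht ht1
    by_contra hlt
    have : t ∈ T := ⟨⟨by linarith [ht0.1], ht1⟩, not_le.1 hlt⟩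
    exact absurd (le_csSup hbd this) (not_le.2 ht)
  have hle : g (sSup T) ≤ y := by
    have hcl : sSup T ∈ closure T := csSup_mem_closure hne hbd
    have hsub : closure T ⊆ {t | g t ≤ y} :=
      closure_minimal (fun t ht => le_of_lt ht.2) (isClosed_le hg continuous_const)
    exact hsub hcl
  have hge : y ≤ g (sSup T) := by
    rcases eq_or_lt_of_le hb1 with he | hlt
    · rw [he]; exact h1
    · have hcl : sSup T ∈ closure (Set.Ioc (sSup T) 1) := by
        rw [closure_Ioc hlt.ne]; exact ⟨le_rfl, hb1⟩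
      have hsub : closure (Set.Ioc (sSup T) 1) ⊆ {t | y ≤ g t} :=
        closure_minimal (fun t ht => hgt t ht.1 ht.2) (isClosed_le continuous_const hg)
      exact hsub hcl
  have heq : g (sSup T) = y := le_antisymm hle hge
  have hlt0 : t0 < sSup T := by
    rcases eq_or_lt_of_le hb0 with he | hlt
    · rw [← he] at heq; linarith
    · exact hlt
  refine ⟨sSup T, lt_of_le_of_lt ht0.1 hlt0, hb1, heq, ?_, ?_⟩
  · intro t ht
    rcases eq_or_lt_of_le ht.1 with he | hlt
    · rw [← he]; exact hge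
    · exact hgt t hlt ht.2
  · intro c hc
    obtain ⟨t, ht, hct⟩ := exists_lt_of_lt_csSup hne hc
    refine ⟨t, hct, ?_, ht.2⟩
    rcases eq_or_lt_of_le (le_csSup hbd ht) with he | hlt
    · have := ht.2; rw [he] at this; linarith
    · exact hlt

theorem crystalF_f_sr_mul (i : I) (w : W) (μ : I → ℝ) :
    ((R.s (R.sr i) * w) • μ) i = -(w • μ) i := by
  rw [mul_smul, R.s_sr_smul]
  simp only [Pi.sub_apply, Pi.smul_apply, smul_eq_mul, R.rt_sr_self]
  ring

/-- closure under lowering operators -/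
theorem f_exists {μ : I → ℝ} (hμ : Dom μ) {π : ℝ → I → ℝ} (h : π ∈ R.BB μ) (i : I)
    (h1 : mn i π + 1 ≤ π 1 i) : ∃ π' ∈ R.BB μ, R.FRel i π π' := by
  have hcont : Continuous π := R.continuous_of_mem_BB h
  obtain ⟨z, hz⟩ := R.mn_int hμ h i
  obtain ⟨t0, ht0, ht0e⟩ := exists_eq_mn hcont i
  have hmn : ∀ t ∈ Set.Icc (0:ℝ) 1, mn i π ≤ π t i := fun t ht => mn_le hcont i ht
  obtain ⟨b, hb0, hb1, hbe, hbge, hblt⟩ := crystalF_f_time (g := fun t => π t i)
    ((continuous_apply i).comp hcont) (y := mn i π + 1) ht0 (by simp only [ht0e]; linarith) h1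
  obtain ⟨l, ⟨hch, hend⟩, hLS, hπ⟩ := h
  obtain ⟨l1, C, hl, hl1, hC⟩ := R.split_lt hch b
  obtain ⟨c, hcb, hc⟩ := crystalF_f_bound hl1
  obtain ⟨t1, hct1, ht1b, ht1⟩ := hblt c hcb
  subst hl
  obtain ⟨hch1, hchC, -⟩ := (R.isChain_append _ _ _ _).1 hch
  obtain ⟨hLS1, hLSC⟩ := (R.isLS_append _ _ _ _).1 hLS
  -- the slope just before `b`
  have hπb : π b i = R.icpt μ R.w0 l1 i + b * (R.endp R.w0 l1 • μ) i := by
    rw [hπ, R.path_between μ R.w0 l1 C (fun p hp => (hl1 p hp).le) hC]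
    simp
  have hπt1 : π t1 i = R.icpt μ R.w0 l1 i + t1 * (R.endp R.w0 l1 • μ) i := by
    rw [hπ, R.path_between μ R.w0 l1 C (fun p hp => (hc p hp).trans hct1.le)
      (fun p hp => ht1b.le.trans (hC p hp))]
    simp
  have hslope : 0 < (R.endp R.w0 l1 • μ) i := by
    by_contra hle
    have hle := not_lt.1 hle
    have h2 : (b - t1) * (R.endp R.w0 l1 • μ) i ≤ 0 :=
      mul_nonpos_of_nonneg_of_nonpos (by linarith) hle
    nlinarith
  have hasc : 0 < (R.endp R.w0 l1 • (rho : I → ℝ)) i := by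
    rcases lt_or_gt_of_ne (R.smul_rho_ne (R.endp R.w0 l1) i) with hlt | hgt
    · have := R.cv_le_of_rho_neg (β := R.sr i) (w := R.endp R.w0 l1) (by rw [R.cv_sr]; exact hlt) hμ
      rw [R.cv_sr] at this
      linarith
    · exact hgt
  obtain ⟨zP1, hzP1⟩ := R.intV_of_inQ (R.inQ_icpt hLS1) i
  obtain ⟨A, a, B, hl1e, hk, hB⟩ := R.last_change i hch1 (R.w0_neg i) hasc
  subst hl1e
  obtain ⟨hchA, hchaB, hAB⟩ := (R.isChain_append _ _ _ _).1 hch1
  obtain ⟨hLSA, hLSaB⟩ := (R.isLS_append _ _ _ _).1 hLS1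
  obtain ⟨-, ha0, -, hchB⟩ := hchaB
  obtain ⟨⟨z1, hz1⟩, hLSB⟩ := hLSaB
  simp only at ha0 hchB hz1 hLSB
  obtain ⟨zA, hzA⟩ := R.intV_of_inQ (R.inQ_icpt hLSA) i
  have hmem : (a, R.sr i) ∈ A ++ (a, R.sr i) :: B := by simp
  have hac : a ≤ c := hc _ hmem
  have hab : a < b := hl1 _ hmem
  have hAa : ∀ p ∈ A, p.1 ≤ a := fun p hp => hAB p hp (a, R.sr i) List.mem_cons_self
  have haB : ∀ p ∈ B, a ≤ p.1 := fun p hp => (R.isChain_mem hchB p hp).1
  have hBb : ∀ p ∈ B, p.1 ≤ b := fun p hp => (hl1 p (by simp [hp])).le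
  set k := R.endp R.w0 A with hkdef
  set k' := R.s (R.sr i) * k with hk'def
  have hu : R.endp R.w0 (A ++ (a, R.sr i) :: B) = R.endp k' B := by
    rw [R.endp_append, R.endp_cons]
  rw [hu] at hchC hLSC hπb hasc
  set u := R.endp k' B with hudef
  have hkk : R.s (R.sr i) * k' = k := R.s_mul_s_mul _ _
  have hk'μ : (k' • μ) i = -(k • μ) i := R.crystalF_f_sr_mul i k μ
  rw [R.cv_sr] at hz1
  -- the old path
  have hold : ∀ t, π t = R.path μ u C t + R.corr μ k' B t +
      ((k • μ) i * min t a) • R.rt (R.sr i) + R.corr μ R.w0 A t := by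
    intro t
    rw [hπ, List.append_assoc, R.path_append, List.cons_append]
    simp only [path]
    rw [R.path_append, R.cv_sr]
  have hmid : ∀ t ∈ Set.Icc a b, π t i = R.path μ k' B t i + (2 * z1 + zA) := by
    intro t ht
    rw [hold t, R.path_of_le μ u C (fun p hp => ht.2.trans (hC p hp)),
      R.corr_of_ge μ R.w0 A (fun p hp => (hAa p hp).trans ht.1), R.path_eq_corr μ k' B t,
      min_eq_right ht.1, hz1]
    simp only [Pi.add_apply, Pi.smul_apply, smul_eq_mul, R.rt_sr_self, hzA]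
    ring
  have hmono : MonotoneOn (fun t => π t i) (Set.Icc a b) := by
    intro s hs t ht hst
    have := R.monotone_path hμ i hchB hB hst
    simp only at this ⊢
    rw [hmid s hs, hmid t ht]
    linarith
  have hpa : R.path μ k' B a i = -z1 := by
    rw [R.path_of_le μ k' B haB]
    simp only [Pi.smul_apply, smul_eq_mul, hk'μ]
    linarith
  have hπa : π a i = mn i π := by
    have e1 : π a i = ((z1 + zA : ℤ) : ℝ) := by
      rw [hmid a ⟨le_rfl, hab.le⟩, hpa]; push_cast; ring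
    have e2 : mn i π ≤ π a i := hmn a ⟨ha0, hab.le.trans hb1⟩
    have e3 : π a i ≤ π t1 i :=
      hmono ⟨le_rfl, hab.le⟩ ⟨hac.trans hct1.le, ht1b.le⟩ (hac.trans hct1.le)
    have e4 : (z : ℝ) ≤ ((z1 + zA : ℤ) : ℝ) := by rw [← e1, ← hz]; exact e2
    have e5 : ((z1 + zA : ℤ) : ℝ) < ((z + 1 : ℤ) : ℝ) := by
      rw [← e1]; push_cast; rw [← hz]; linarith
    have e6 : z ≤ z1 + zA := by exact_mod_cast e4
    have e7 : z1 + zA < z + 1 := by exact_mod_cast e5
    have e8 : z1 + zA = z := by omega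
    rw [e1, e8, hz]
  -- the new list
  have hk'pos : 0 < (k' • (rho : I → ℝ)) i := hB [] B rfl
  obtain ⟨hcc, hce, hcl, hcr⟩ := R.conj_chain μ i hchB (by
    intro b1 b2 hb
    have := hB b1 b2 hb
    constructor
    · intro h'; linarith
    · intro h'; linarith)
  rw [hkk] at hcc hce hcl hcr
  rw [← hudef] at hce
  set B' := B.map fun p => (p.1, R.s (R.sr i) • p.2) with hB'def
  have hB't : ∀ p ∈ B', a ≤ p.1 ∧ p.1 ≤ b := by
    intro p hp
    obtain ⟨q, hq, rfl⟩ := List.mem_map.1 hp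
    exact ⟨haB q hq, hBb q hq⟩
  have hdesc : ((R.s (R.sr i) * u) • (rho : I → ℝ)) i < 0 := by
    rw [R.sr_mul_rho]; linarith
  have huu : R.s (R.sr i) * (R.s (R.sr i) * u) = u := R.s_mul_s_mul _ _
  have huμ : ((R.s (R.sr i) * u) • μ) i = -(u • μ) i := R.crystalF_f_sr_mul i u μ
  refine ⟨R.path μ R.w0 (A ++ (B' ++ (b, R.sr i) :: C)),
    ⟨A ++ (B' ++ (b, R.sr i) :: C), ⟨?_, ?_⟩, ?_, rfl⟩,
    a, b, mn i π, ha0, hab.le, hb1, hmn, hπa, hbe, hmono, hbge, ?_⟩
  · refine (R.isChain_append _ _ _ _).2 ⟨hchA, (R.isChain_append _ _ _ _).2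
      ⟨R.isChain_mono hcc ha0, ?_, ?_⟩, ?_⟩
    · rw [hce]
      refine ⟨R.cover_sr hdesc, hb0.le, hb1, ?_⟩
      simp only [huu]
      exact R.isChain_raise hchC hC
    · intro p hp q hq
      rcases List.mem_cons.1 hq with rfl | hq
      · exact (hB't p hp).2
      · exact (hB't p hp).2.trans (hC q hq)
    · intro p hp q hq
      rcases List.mem_append.1 hq with hq | hq
      · exact (hAa p hp).trans (hB't q hq).1
      · rcases List.mem_cons.1 hq with rfl | hq
        · exact (hAa p hp).trans hab.le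
        · exact (hAa p hp).trans (hab.le.trans (hC q hq))
  · rw [R.endp_append, R.endp_append, hce, R.endp_cons]
    simp only [huu]
    rw [R.endp_append, hu] at hend
    exact hend
  · refine (R.isLS_append _ _ _ _).2 ⟨hLSA, (R.isLS_append _ _ _ _).2 ⟨hcl hLSB, ?_⟩⟩
    rw [hce]
    refine ⟨⟨zP1 - z - 1, ?_⟩, ?_⟩
    · simp only at hbe ⊢
      rw [R.cv_sr, huμ]
      push_cast
      rw [← hz, ← hzP1]
      linarith
    · simp only [huu]
      exact hLSC
  · intro t
    have hnew : R.path μ R.w0 (A ++ (B' ++ (b, R.sr i) :: C)) t =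
        R.path μ u C t + (-(u • μ) i * min t b) • R.rt (R.sr i) +
          (R.corr μ k' B t - R.corr μ k' B t i • R.rt (R.sr i)) + R.corr μ R.w0 A t := by
      rw [R.path_append, R.path_append, hce, hcr, R.s_sr_smul]
      simp only [path]
      rw [huu, R.cv_sr, huμ]
    have hτ : max a (min t b) ∈ Set.Icc a b :=
      ⟨le_max_left _ _, max_le hab.le (min_le_right _ _)⟩
    have hkey : π (max a (min t b)) i - mn i π =
        (u • μ) i * min t b + R.corr μ k' B t i + (k • μ) i * min t a := by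
      rw [← hπa, hmid _ hτ, hmid a ⟨le_rfl, hab.le⟩, hpa]
      rcases le_total t a with hta | hta
      · have e1 := congrFun (R.path_eq_corr μ k' B t) i
        rw [R.path_of_le μ k' B (fun p hp => hta.trans (haB p hp))] at e1
        simp only [Pi.add_apply, Pi.smul_apply, smul_eq_mul, hk'μ] at e1
        rw [min_eq_left (hta.trans hab.le), max_eq_left hta, min_eq_left hta, hpa]
        linarith
      · rcases le_total t b with htb | htb
        · rw [min_eq_left htb, max_eq_right hta, min_eq_right hta, R.path_eq_corr μ k' B t]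
          simp only [Pi.add_apply, Pi.smul_apply, smul_eq_mul]
          linarith
        · rw [min_eq_right htb, max_eq_right hab.le, min_eq_right hta, R.path_eq_corr μ k' B b,
            R.corr_of_ge μ k' B hBb, R.corr_of_ge μ k' B (fun p hp => (hBb p hp).trans htb)]
          simp only [Pi.add_apply, Pi.smul_apply, smul_eq_mul]
          linarith
    rw [hkey, hnew, hold t]
    module

/-- first time at which a continuous function goes below the level `m` -/
theorem crystalF_e_time {g : ℝ → ℝ} (hc : Continuous g) {m : ℝ} (h0 : m ≤ g 0) {t0 : ℝ}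
    (ht0 : t0 ∈ Set.Icc (0:ℝ) 1) (hlt : g t0 < m) :
    ∃ a, 0 ≤ a ∧ a ≤ 1 ∧ (∀ t ∈ Set.Icc 0 a, m ≤ g t) ∧ g a = m ∧
      ∀ c, a < c → ∃ t, a < t ∧ t < c ∧ g t < m := by
  set S : Set ℝ := {t | t ∈ Set.Icc (0:ℝ) 1 ∧ g t < m} with hS
  have hne : S.Nonempty := ⟨t0, ht0, hlt⟩
  have hbd : BddBelow S := ⟨0, fun t ht => ht.1.1⟩
  have ha0 : 0 ≤ sInf S := le_csInf hne (fun t ht => ht.1.1)
  have ha1 : sInf S ≤ 1 := (csInf_le hbd ⟨ht0, hlt⟩).trans ht0.2
  have hlo : ∀ t, 0 ≤ t → t < sInf S → m ≤ g t := by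
    intro t h1 h2
    by_contra hcon
    have : t ∈ S := ⟨⟨h1, h2.le.trans ha1⟩, lt_of_not_ge hcon⟩
    exact absurd (csInf_le hbd this) (not_le.mpr h2)
  have hge : m ≤ g (sInf S) := by
    rcases ha0.eq_or_lt with he | hl
    · rw [← he]; exact h0
    · have hcl : IsClosed {t | m ≤ g t} := isClosed_le continuous_const hc
      have hsub : Set.Ico 0 (sInf S) ⊆ {t | m ≤ g t} := fun t ht => hlo t ht.1 ht.2
      have hmem : sInf S ∈ closure (Set.Ico 0 (sInf S)) := by
        rw [closure_Ico hl.ne]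
        exact ⟨ha0, le_rfl⟩
      exact hcl.closure_subset_iff.mpr hsub hmem
  have hle : g (sInf S) ≤ m := by
    have hcl : IsClosed {t | g t ≤ m} := isClosed_le hc continuous_const
    have hsub : S ⊆ {t | g t ≤ m} := fun t ht => le_of_lt ht.2
    exact hcl.closure_subset_iff.mpr hsub (csInf_mem_closure hne hbd)
  have heq : g (sInf S) = m := le_antisymm hle hge
  refine ⟨sInf S, ha0, ha1, ?_, heq, ?_⟩
  · intro t ht
    rcases ht.2.eq_or_lt with he | hl
    · rw [he]; exact hge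
    · exact hlo t ht.1 hl
  · intro c hc'
    obtain ⟨t, htS, htc⟩ := exists_lt_of_csInf_lt hne hc'
    refine ⟨t, ?_, htc, htS.2⟩
    rcases (csInf_le hbd htS).eq_or_lt with he | hl
    · exfalso
      have := htS.2
      rw [← he, heq] at this
      exact lt_irrefl _ this
    · exact hl

theorem crystalF_e_gap (a : ℝ) (l : List (ℝ × ι)) (h : ∀ p ∈ l, a < p.1) :
    ∃ c, a < c ∧ ∀ p ∈ l, c ≤ p.1 := by
  induction l with
  | nil => exact ⟨a + 1, by linarith, by simp⟩
  | cons q l ih =>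
    obtain ⟨c, hc, hc'⟩ := ih (fun p hp => h p (List.mem_cons_of_mem _ hp))
    refine ⟨min c q.1, lt_min hc (h q List.mem_cons_self), ?_⟩
    intro p hp
    rcases List.mem_cons.mp hp with rfl | hp
    · exact min_le_right _ _
    · exact (min_le_left _ _).trans (hc' p hp)

/-- closure under raising operators -/
theorem e_exists {μ : I → ℝ} (hμ : Dom μ) {π' : ℝ → I → ℝ} (h : π' ∈ R.BB μ) (i : I)
    (h1 : mn i π' ≤ -1) : ∃ π ∈ R.BB μ, R.FRel i π π' := by
  have hcont : Continuous π' := R.continuous_of_mem_BB h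
  have hzero : π' 0 = 0 := R.zero_of_mem_BB h
  obtain ⟨zm, hzm⟩ := R.mn_int hμ h i
  have hmn : ∀ t ∈ Set.Icc (0:ℝ) 1, (zm : ℝ) ≤ π' t i := fun t ht => hzm ▸ mn_le hcont i ht
  obtain ⟨t0, ht0, ht0e⟩ := exists_eq_mn hcont i
  have hci : Continuous (fun t => π' t i) := (continuous_apply i).comp hcont
  obtain ⟨a, ha0, ha1, hpre, hga, hnear⟩ :=
    crystalF_e_time (m := (zm : ℝ) + 1) hci (by rw [hzero]; simp only [Pi.zero_apply]; linarith)
      ht0 (by show π' t0 i < _; linarith)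
  obtain ⟨l, ⟨hch, hend⟩, hls, rfl⟩ := h
  obtain ⟨A, l2, rfl, hA, hl2⟩ := R.split_le hch a
  obtain ⟨hchA, hch2, -⟩ := (R.isChain_append _ _ _ _).mp hch
  obtain ⟨hlsA, hls2⟩ := (R.isLS_append _ _ _ _).mp hls
  set u := R.endp R.w0 A with hu
  obtain ⟨c, hac, hc⟩ := crystalF_e_gap a l2 hl2
  obtain ⟨t1, hat1, ht1c, ht1⟩ := hnear c hac
  have hga' : R.icpt μ R.w0 A i + a * (u • μ) i = (zm : ℝ) + 1 := by
    have := R.path_between μ R.w0 A l2 hA (fun p hp => (hl2 p hp).le)
    rw [this] at hga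
    simpa using hga
  have hneg : (u • μ) i < 0 := by
    have := R.path_between μ R.w0 A l2 (t := t1) (fun p hp => (hA p hp).trans hat1.le)
      (fun p hp => ht1c.le.trans (hc p hp))
    rw [this] at ht1
    simp only [Pi.add_apply, Pi.smul_apply, smul_eq_mul] at ht1
    by_contra hcon
    have h2 : 0 ≤ (u • μ) i := le_of_not_gt hcon
    have h3 : a * (u • μ) i ≤ t1 * (u • μ) i := mul_le_mul_of_nonneg_right hat1.le h2
    linarith
  have hdesc : (u • (rho : I → ℝ)) i < 0 := by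
    rcases lt_or_gt_of_ne (R.smul_rho_ne u i) with hlt | hgt
    · exact hlt
    · exfalso
      have := R.cv_ge_of_rho_pos (β := R.sr i) (w := u) (by rw [R.cv_sr]; exact hgt) hμ
      rw [R.cv_sr] at this
      linarith
  have hend2 : R.endp u l2 = 1 := by rw [hu, ← R.endp_append]; exact hend
  obtain ⟨B, b, C, rfl, hB⟩ := R.first_change i hch2 hdesc (by rw [hend2]; simp [rho])
  obtain ⟨hchB, hch3, hBle⟩ := (R.isChain_append _ _ _ _).mp hch2
  obtain ⟨hlsB, hls3⟩ := (R.isLS_append _ _ _ _).mp hls2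
  set k := R.endp u B with hk
  obtain ⟨-, -, hb1, hchC⟩ := hch3
  obtain ⟨⟨zb, hzb⟩, hlsC⟩ := hls3
  simp only at hb1 hchC hzb hlsC
  rw [R.cv_sr] at hzb
  have hcb : c ≤ b := hc (b, R.sr i) (by simp)
  have hab : a ≤ b := hac.le.trans hcb
  have hBa : ∀ p ∈ B, a < p.1 := fun p hp => hl2 p (by simp [hp])
  have hBb : ∀ p ∈ B, p.1 ≤ b := fun p hp => hBle p hp (b, R.sr i) (by simp)
  have hCb : ∀ p ∈ C, b ≤ p.1 := fun p hp => (R.isChain_mem hchC p hp).1
  have hrest : ∀ p ∈ (b, R.sr i) :: C, b ≤ p.1 := by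
    intro p hp
    rcases List.mem_cons.mp hp with rfl | hp
    · exact le_rfl
    · exact hCb p hp
  have hchB' : R.IsChain u a B := R.isChain_raise hchB (fun p hp => (hBa p hp).le)
  obtain ⟨hcj1, hcj2, hcj3, hcj4⟩ := R.conj_chain μ i hchB'
    (fun x y hxy => ⟨fun _ => hdesc, fun _ => hB x y hxy⟩)
  set B' := B.map (fun p => (p.1, R.s (R.sr i) • p.2)) with hB'
  -- the old path on the middle stretch
  have hmid : ∀ t ∈ Set.Icc a b, R.path μ R.w0 (A ++ (B ++ (b, R.sr i) :: C)) t i =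
      R.icpt μ R.w0 A i + R.path μ u B t i := by
    intro t ht
    rw [R.path_append, R.corr_of_ge μ R.w0 A (fun p hp => (hA p hp).trans ht.1), ← hu,
      R.path_append, R.path_of_le μ _ _ (fun p hp => ht.2.trans (hrest p hp)),
      ← R.path_eq_corr]
    simp only [Pi.add_apply]
    ring
  have hanti : Antitone (fun t => R.path μ u B t i) := R.antitone_path hμ i hchB hB
  have hantiOn : ∀ s ∈ Set.Icc a b, ∀ t ∈ Set.Icc a b, s ≤ t →
      R.path μ R.w0 (A ++ (B ++ (b, R.sr i) :: C)) t i ≤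
        R.path μ R.w0 (A ++ (B ++ (b, R.sr i) :: C)) s i := by
    intro s hs t ht hst
    rw [hmid s hs, hmid t ht]
    have := hanti hst
    simp only at this
    linarith
  obtain ⟨zA, hzA⟩ := R.intV_of_inQ (R.inQ_icpt hlsA) i
  obtain ⟨zB, hzB⟩ := R.intV_of_inQ (R.inQ_icpt hlsB) i
  have hBend : R.path μ u B b i = b * (k • μ) i + R.icpt μ u B i := by
    rw [R.path_eq_corr, R.corr_of_ge μ u B hBb]
    simp [hk]
  have hgb : R.path μ R.w0 (A ++ (B ++ (b, R.sr i) :: C)) b i = (zm : ℝ) := by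
    have e1 : R.path μ R.w0 (A ++ (B ++ (b, R.sr i) :: C)) b i = ((zA + zb + zB : ℤ) : ℝ) := by
      rw [hmid b ⟨hab, le_rfl⟩, hBend, hzA, hzB]
      push_cast
      linarith
    have e2 := hmn b ⟨ha0.trans hab, hb1⟩
    have e3 := hantiOn t1 ⟨hat1.le, ht1c.le.trans hcb⟩ b ⟨hab, le_rfl⟩ (ht1c.le.trans hcb)
    rw [e1] at e2 e3 ⊢
    have e4 : zm ≤ zA + zb + zB := by exact_mod_cast e2
    have e5 : zA + zb + zB < zm + 1 := by
      have : ((zA + zb + zB : ℤ) : ℝ) < (zm : ℝ) + 1 := lt_of_le_of_lt e3 ht1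
      exact_mod_cast this
    have e6 : zA + zb + zB = zm := by omega
    rw [e6]
  -- the new list
  have hB'mem : ∀ p ∈ B', a ≤ p.1 ∧ p.1 ≤ b := by
    intro p hp
    obtain ⟨q, hq, rfl⟩ := List.mem_map.mp hp
    exact ⟨(hBa q hq).le, hBb q hq⟩
  have hnewch : R.IsChain R.w0 0 (A ++ (a, R.sr i) :: (B' ++ C)) := by
    refine (R.isChain_append _ _ _ _).mpr ⟨hchA, ⟨R.cover_sr hdesc, ha0, ha1, ?_⟩, ?_⟩
    · refine (R.isChain_append _ _ _ _).mpr ⟨hcj1, ?_, ?_⟩
      · show R.IsChain (R.endp (R.s (R.sr i) * u) B') a C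
        rw [hcj2]
        exact R.isChain_mono hchC hab
      · intro p hp q hq
        exact (hB'mem p hp).2.trans (hCb q hq)
    · intro p hp q hq
      refine (hA p hp).trans ?_
      rcases List.mem_cons.mp hq with rfl | hq
      · exact le_rfl
      · rcases List.mem_append.mp hq with hq | hq
        · exact (hB'mem q hq).1
        · exact hab.trans (hCb q hq)
  have hnewend : R.endp R.w0 (A ++ (a, R.sr i) :: (B' ++ C)) = 1 := by
    rw [R.endp_append, ← hu, R.endp_cons, R.endp_append]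
    simp only
    rw [hcj2, ← hend2, R.endp_append, R.endp_cons]
  have hnewls : R.IsLS μ R.w0 (A ++ (a, R.sr i) :: (B' ++ C)) := by
    refine (R.isLS_append _ _ _ _).mpr ⟨hlsA, ⟨zm + 1 - zA, ?_⟩, ?_⟩
    · show R.cv (R.sr i) (u • μ) * a = _
      rw [R.cv_sr]
      push_cast
      linarith
    · refine (R.isLS_append _ _ _ _).mpr ⟨hcj3 hlsB, ?_⟩
      show R.IsLS μ (R.endp (R.s (R.sr i) * u) B') C
      rw [hcj2]
      exact hlsC
  -- comparison of the two paths
  have hdiff : ∀ t, R.path μ R.w0 (A ++ (B ++ (b, R.sr i) :: C)) t =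
      R.path μ R.w0 (A ++ (a, R.sr i) :: (B' ++ C)) t -
        ((u • μ) i * min t a - (k • μ) i * min t b - R.corr μ u B t i) • R.rt (R.sr i) := by
    intro t
    have e1 : R.path μ u ((a, R.sr i) :: (B' ++ C)) t =
        R.path μ (R.s (R.sr i) * u) (B' ++ C) t +
          (R.cv (R.sr i) (u • μ) * min t a) • R.rt (R.sr i) := rfl
    have e2 : R.path μ k ((b, R.sr i) :: C) t =
        R.path μ (R.s (R.sr i) * k) C t +
          (R.cv (R.sr i) (k • μ) * min t b) • R.rt (R.sr i) := rfl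
    rw [R.path_append μ R.w0 A, R.path_append μ R.w0 A, ← hu, R.path_append μ u B, ← hk, e1, e2,
      R.path_append, hcj2, hcj4, R.s_sr_smul, R.cv_sr, R.cv_sr]
    simp only [sub_smul]
    abel
  have hy : ∀ t, (u • μ) i * min t a - (k • μ) i * min t b - R.corr μ u B t i =
      (zm : ℝ) + 1 - R.path μ R.w0 (A ++ (B ++ (b, R.sr i) :: C)) (max a (min t b)) i := by
    intro t
    have hpc : R.path μ u B t i = t * (k • μ) i + R.corr μ u B t i := by
      rw [R.path_eq_corr]
      simp [hk]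
    rcases le_total t a with hta | hat
    · have e1 : max a (min t b) = a := max_eq_left ((min_le_left _ _).trans hta)
      have e2 : R.path μ u B t i = t * (u • μ) i := by
        rw [R.path_of_le μ u B (fun p hp => hta.trans (hBa p hp).le)]
        simp
      rw [e1, hga, min_eq_left hta, min_eq_left (hta.trans hab)]
      linarith
    · rcases le_total t b with htb | hbt
      · rw [min_eq_right hat, min_eq_left htb, max_eq_right hat, hmid t ⟨hat, htb⟩]
        linarith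
      · rw [min_eq_right hat, min_eq_right hbt, max_eq_right hab, hmid b ⟨hab, le_rfl⟩, hBend,
          R.corr_of_ge μ u B (fun p hp => (hBb p hp).trans hbt)]
        linarith
  set P' := R.path μ R.w0 (A ++ (B ++ (b, R.sr i) :: C)) with hP'
  set P := R.path μ R.w0 (A ++ (a, R.sr i) :: (B' ++ C)) with hP
  have hco : ∀ t, P t i = P' t i + 2 * ((zm : ℝ) + 1 - P' (max a (min t b)) i) := by
    intro t
    have := congrFun (hdiff t) i
    rw [hy t] at this
    simp only [Pi.sub_apply, Pi.smul_apply, smul_eq_mul, R.rt_sr_self] at this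
    linarith
  have hin : ∀ t ∈ Set.Icc a b, P t i = 2 * ((zm : ℝ) + 1) - P' t i := by
    intro t ht
    rw [hco t, min_eq_left ht.2, max_eq_right ht.1]
    ring
  have hout : ∀ t ∈ Set.Icc b 1, (zm : ℝ) + 1 + 1 ≤ P t i := by
    intro t ht
    rw [hco t, min_eq_right ht.1, max_eq_right hab, hgb]
    have := hmn t ⟨ha0.trans (hab.trans ht.1), ht.2⟩
    linarith
  refine ⟨P, ⟨_, ⟨hnewch, hnewend⟩, hnewls, rfl⟩, a, b, (zm : ℝ) + 1, ha0, hab, hb1, ?_, ?_, ?_,
    ?_, hout, ?_⟩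
  · intro t ht
    rcases le_total t a with hta | hat
    · rw [hco t, max_eq_left ((min_le_left _ _).trans hta), hga]
      have := hpre t ⟨ht.1, hta⟩
      linarith
    · rcases le_total t b with htb | hbt
      · rw [hin t ⟨hat, htb⟩]
        have := hantiOn a ⟨le_rfl, hab⟩ t ⟨hat, htb⟩ hat
        linarith
      · have := hout t ⟨hbt, ht.2⟩
        linarith
  · rw [hin a ⟨le_rfl, hab⟩, hga]; ring
  · rw [hin b ⟨hab, le_rfl⟩, hgb]; ring
  · intro s hs t ht hst
    show P s i ≤ P t i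
    rw [hin s hs, hin t ht]
    have := hantiOn s hs t ht hst
    linarith
  · intro t
    have hcl : max a (min t b) ∈ Set.Icc a b := ⟨le_max_left _ _, max_le hab (min_le_right _ _)⟩
    rw [hdiff t, hy t, hin _ hcl]
    congr 2
    ring

end RD

end Pool.Agent.Lib.MP_1e3767_al
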