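import Mathlib

/-!
Definitions for the saturation theorem with factor k_R.
Weights live in `I → ℝ` (coordinates in the basis of fundamental weights).
-/

namespace Pool.Agent.Lib.MP_1e3767_al

open Finset

/-- Numerical root datum with a base. -/
structure RD0 (I ι : Type*) [Fintype I] [DecidableEq I] where
  rt : ι → I → ℝ
  co : ι → I → ℤ
  cf : ι → I → ℤ
  sr : I → ι
  refl : ι → ι → ι
  Pos : Finset ι
  rt_inj : Function.Injective rt
  rt_int : ∀ β i, ∃ z : ℤ, rt β i = z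
  rt_eq : ∀ β, rt β = ∑ i, (cf β i : ℝ) • rt (sr i)
  co_sr : ∀ i, co (sr i) = Pi.single i 1
  sr_indep : LinearIndependent ℝ (fun i => rt (sr i))
  pair_self : ∀ β, ∑ i, (co β i : ℝ) * rt β i = 2
  pos_cf : ∀ β ∈ Pos, ∀ i, 0 ≤ cf β i
  pos_co : ∀ β ∈ Pos, ∀ i, 0 ≤ co β i
  neg_cf : ∀ β ∉ Pos, ∀ i, cf β i ≤ 0
  neg_co : ∀ β ∉ Pos, ∀ i, co β i ≤ 0
  reduced : ∀ β γ (c : ℝ), rt γ = c • rt β → γ = β ∨ rt γ = -rt β
  rt_refl : ∀ β γ, rt (refl β γ) = rt γ - (∑ i, (co β i : ℝ) * rt γ i) • rt β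
  co_refl : ∀ β γ i, (co (refl β γ) i : ℝ) = co γ i - (∑ j, (co γ j : ℝ) * rt β j) * co β i

/-- Root datum with its Weyl group. -/
structure RD (I ι W : Type*) [Fintype I] [DecidableEq I] [Group W]
    [DistribMulAction W (I → ℝ)] [MulAction W ι] extends RD0 I ι where
  s : ι → W
  smul_rt : ∀ (w : W) β, rt (w • β) = w • rt β
  smul_co : ∀ (w : W) β (v : I → ℝ),
    ∑ i, (co (w • β) i : ℝ) * (w • v) i = ∑ i, (co β i : ℝ) * v i
  s_smul : ∀ β (v : I → ℝ), s β • v = v - (∑ i, (co β i : ℝ) * v i) • rt β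
  faithful : ∀ w : W, (∀ v : I → ℝ, w • v = v) → w = 1
  gen : ∀ p : W → Prop, p 1 → (∀ i w, p w → p (s (sr i) * w)) → ∀ w, p w

section Vec
variable {I : Type*}

/-- dominant -/
def Dom (v : I → ℝ) : Prop := ∀ i, 0 ≤ v i
/-- regular dominant -/
def Reg (v : I → ℝ) : Prop := ∀ i, 0 < v i
/-- integral weight -/
def IntV (v : I → ℝ) : Prop := ∀ i, ∃ z : ℤ, v i = z
/-- the Weyl vector -/
def rho : I → ℝ := fun _ => 1

/-- group ring of the weight space -/
abbrev GR (I : Type*) := AddMonoidAlgebra ℂ (I → ℝ)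
/-- formal exponential -/
noncomputable def ex (v : I → ℝ) : GR I := AddMonoidAlgebra.single v 1

/-- minimum of the `i`-th coordinate of a path on the unit interval -/
noncomputable def mn (i : I) (π : ℝ → I → ℝ) : ℝ := sInf ((fun t => π t i) '' Set.Icc 0 1)
end Vec

namespace RD0
variable {I ι : Type*} [Fintype I] [DecidableEq I] (R : RD0 I ι)

/-- pairing with the coroot -/
def cv (β : ι) : (I → ℝ) →ₗ[ℝ] ℝ where
  toFun v := ∑ i, (R.co β i : ℝ) * v i
  map_add' v w := by simp [mul_add, sum_add_distrib]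
  map_smul' c v := by simp [mul_sum, mul_left_comm]

/-- the opposite root -/
def ng (β : ι) : ι := R.refl β β

/-- root lattice -/
def InQ (v : I → ℝ) : Prop := ∃ c : I → ℤ, v = ∑ i, (c i : ℝ) • R.rt (R.sr i)
/-- positive cone of the root lattice -/
def InQp (v : I → ℝ) : Prop := ∃ c : I → ℕ, v = ∑ i, (c i : ℝ) • R.rt (R.sr i)

/-- pairing with the sum of the positive coroots -/
def ht : (I → ℝ) →ₗ[ℝ] ℝ := ∑ β ∈ R.Pos, R.cv β
/-- Weyl invariant convex function equal to `ht` on the dominant chamber -/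
def fabs (v : I → ℝ) : ℝ := ∑ β ∈ R.Pos, |R.cv β v|

/-- `k` is divisible by all nonzero root coefficients -/
def KDiv (k : ℕ) : Prop := ∀ β i, R.cf β i ≠ 0 → R.cf β i ∣ (k : ℤ)

/-- a list of roots that is a basis -/
def IsBas (L : List ι) : Prop :=
  LinearIndependent ℝ (fun j : Fin L.length => R.rt (L.get j)) ∧
    Submodule.span ℝ (R.rt '' {γ | γ ∈ L}) = ⊤

/-- the lowering relation on paths (Littelmann root operator) -/
def FRel (i : I) (π π' : ℝ → I → ℝ) : Prop :=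
  ∃ a b m : ℝ, 0 ≤ a ∧ a ≤ b ∧ b ≤ 1 ∧ (∀ t ∈ Set.Icc (0:ℝ) 1, m ≤ π t i) ∧ π a i = m ∧
    π b i = m + 1 ∧ MonotoneOn (fun t => π t i) (Set.Icc a b) ∧
    (∀ t ∈ Set.Icc b 1, m + 1 ≤ π t i) ∧
    ∀ t, π' t = π t - (π (max a (min t b)) i - m) • R.rt (R.sr i)

/-- Weyl denominator -/
noncomputable def delta : GR I :=
  ∏ β ∈ R.Pos, (ex ((1/2 : ℝ) • R.rt β) - ex (-((1/2 : ℝ) • R.rt β)))

variable [Fintype ι]
/-- Killing form on coroots -/
def KK (α β : ι) : ℝ := ∑ γ, R.cv α (R.rt γ) * R.cv β (R.rt γ)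
/-- half the squared length of a root -/
noncomputable def dd (α : ι) : ℝ := 2 / R.KK α α
/-- the invariant form on weights -/
noncomputable def QQ (x y : I → ℝ) : ℝ := ∑ β, R.dd β ^ 2 * (R.cv β x * R.cv β y)

end RD0

namespace RD
variable {I ι W : Type*} [Fintype I] [DecidableEq I] [Group W]
  [DistribMulAction W (I → ℝ)] [MulAction W ι] (R : RD I ι W)

/-- length -/
noncomputable def len (w : W) : ℕ := (R.Pos.filter (fun β => R.cv β (w • rho) < 0)).card
/-- `w → s β * w` is an edge of the Bruhat graph, going down -/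
def Step (w : W) (β : ι) : Prop := β ∈ R.Pos ∧ R.cv β (w • rho) < 0
/-- `w → s β * w` is a Bruhat cover -/
def Cover (w : W) (β : ι) : Prop := R.Step w β ∧ R.len (R.s β * w) + 1 = R.len w
/-- Bruhat order `v ≤ u` -/
def Le (v u : W) : Prop :=
  Relation.ReflTransGen (fun a b => ∃ β, R.Step a β ∧ b = R.s β * a) u v
/-- sign character -/
noncomputable def sgn (w : W) : ℂ := (-1) ^ R.len w

open Classical in
/-- longest element -/
noncomputable def w0 (_R : RD I ι W) : W :=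
  if h : ∃ w : W, ∀ i, (w • (rho : I → ℝ)) i < 0 then h.choose else 1

/-- end point of a list of reflections -/
def endb : W → List ι → W
  | u, [] => u
  | u, β :: l => endb (R.s β * u) l

/-- chain of covers -/
def CChain : W → List ι → Prop
  | _, [] => True
  | u, β :: l => R.Cover u β ∧ CChain (R.s β * u) l

/-- end point of a timed list -/
def endp (u : W) (l : List (ℝ × ι)) : W := R.endb u (l.map Prod.snd)

/-- timed chain of covers, times increasing in `[a0, 1]` -/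
def IsChain : W → ℝ → List (ℝ × ι) → Prop
  | _, _, [] => True
  | u, a0, p :: l => R.Cover u p.2 ∧ a0 ≤ p.1 ∧ p.1 ≤ 1 ∧ IsChain (R.s p.2 * u) p.1 l

/-- the piecewise linear path of shape `μ` -/
noncomputable def path (μ : I → ℝ) : W → List (ℝ × ι) → ℝ → I → ℝ
  | u, [], t => t • (u • μ)
  | u, p :: l, t => path μ (R.s p.2 * u) l t + (R.cv p.2 (u • μ) * min t p.1) • R.rt p.2

/-- total shift of the intercept -/
noncomputable def icpt (μ : I → ℝ) : W → List (ℝ × ι) → I → ℝ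
  | _, [] => 0
  | u, p :: l => icpt μ (R.s p.2 * u) l + (R.cv p.2 (u • μ) * p.1) • R.rt p.2

/-- the correction term: `path (l ++ l') = path l' + corr l` -/
noncomputable def corr (μ : I → ℝ) : W → List (ℝ × ι) → ℝ → I → ℝ
  | _, [], _ => 0
  | u, p :: l, t => corr μ (R.s p.2 * u) l t + (R.cv p.2 (u • μ) * min t p.1) • R.rt p.2

/-- Lakshmibai Seshadri integrality -/
def IsLS (μ : I → ℝ) : W → List (ℝ × ι) → Prop
  | _, [] => True
  | u, p :: l => (∃ z : ℤ, R.cv p.2 (u • μ) * p.1 = z) ∧ IsLS μ (R.s p.2 * u) l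

/-- integral of the height along the path, in closed form -/
noncomputable def Phi (μ : I → ℝ) : W → List (ℝ × ι) → ℝ
  | u, [] => R.ht (u • μ) / 2
  | u, p :: l =>
      Phi μ (R.s p.2 * u) l + R.cv p.2 (u • μ) * R.ht (R.rt p.2) * (p.1 - p.1 ^ 2 / 2)

/-- maximal timed chain from the longest element to the identity -/
def IsMax (l : List (ℝ × ι)) : Prop := R.IsChain R.w0 0 l ∧ R.endp R.w0 l = 1

/-- dominant real datum from `lam` to `κ` of shape `μ` -/
def DomDat (lam μ κ : I → ℝ) (l : List (ℝ × ι)) : Prop :=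
  R.IsMax l ∧ (∀ t ∈ Set.Icc (0:ℝ) 1, Dom (lam + R.path μ R.w0 l t)) ∧
    lam + R.path μ R.w0 l 1 = κ

/-- LS paths of shape `μ` -/
def BB (μ : I → ℝ) : Set (ℝ → I → ℝ) :=
  {π | ∃ l, R.IsMax l ∧ R.IsLS μ R.w0 l ∧ π = R.path μ R.w0 l}

/-- tags: 0 internal fold, 1 bounce at a wall, 2 time zero, 3 time one -/
def Tagged (μ : I → ℝ) : W → (I → ℝ) → List ((ℝ × ι) × Fin 4) → Prop
  | _, _, [] => True
  | u, P, q :: l =>
      (q.2 = 1 → R.cv q.1.2 P + q.1.1 * R.cv q.1.2 (u • μ) = 0) ∧ (q.2 = 2 → q.1.1 = 0) ∧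
        (q.2 = 3 → q.1.1 = 1) ∧
        Tagged μ (R.s q.1.2 * u) (P + (R.cv q.1.2 (u • μ) * q.1.1) • R.rt q.1.2) l

/-- unfolded labels of the internal folds; `x` is the inverse frame -/
def labels : W → List (ι × Fin 4) → List ι
  | _, [] => []
  | x, q :: l =>
      if q.2 = 0 then (x • q.1) :: labels x l
      else if q.2 = 1 then labels (x * R.s q.1) l else labels x l

/-- tagged dominant datum whose internal labels form a basis -/
def TagDat (lam μ κ : I → ℝ) (l : List ((ℝ × ι) × Fin 4)) : Prop :=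
  R.DomDat lam μ κ (l.map Prod.fst) ∧ R.Tagged μ R.w0 lam l ∧
    R.IsBas (R.labels 1 (l.map (fun q => (q.1.2, q.2))))

/-- alternating sum -/
noncomputable def AA [Fintype W] (v : I → ℝ) : GR I := ∑ w : W, R.sgn w • ex (w • v)

/-- character of the set of LS paths -/
noncomputable def chB (μ : I → ℝ) : GR I := ∑ᶠ π ∈ R.BB μ, ex (π 1)

end RD

section Unf
variable {I W : Type*} [SMul W (I → ℝ)]

/-- unfolded path starting at `P`, directions `η j • μ`, turning at times `t j` -/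
noncomputable def upath (μ P : I → ℝ) (n : ℕ) (η : ℕ → W) (t : ℕ → ℝ) (τ : ℝ) : I → ℝ :=
  P + τ • (η n • μ) + ∑ j ∈ range n, min τ (t j) • (η j • μ - η (j + 1) • μ)
end Unf

namespace RD
variable {I ι W : Type*} [Fintype I] [DecidableEq I] [Group W]
  [DistribMulAction W (I → ℝ)] [MulAction W ι] (R : RD I ι W)

/-- every turn goes down in the Bruhat order seen from every chamber containing the point -/
def UTurn (μ P : I → ℝ) (n : ℕ) (η : ℕ → W) (t : ℕ → ℝ) : Prop :=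
  ∀ j < n, ∀ x : W, Dom (x • upath μ P n η t (t j)) → R.Le (x * η (j + 1)) (x * η j)

/-- weakly valid unfolded datum -/
def UValid (μ P : I → ℝ) (n : ℕ) (η : ℕ → W) (t : ℕ → ℝ) : Prop :=
  (∀ j k, j ≤ k → k < n → t j ≤ t k) ∧ (∀ j < n, 0 ≤ t j ∧ t j ≤ 1) ∧ R.UTurn μ P n η t

/-- strictly valid unfolded datum -/
def UGood (μ P : I → ℝ) (n : ℕ) (η : ℕ → W) (t : ℕ → ℝ) : Prop :=
  (∀ j k, j < k → k < n → t j < t k) ∧ (∀ j < n, 0 < t j ∧ t j < 1) ∧
    (∀ j < n, η (j + 1) ≠ η j) ∧ R.UTurn μ P n η t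

/-- the functional that is maximised -/
noncomputable def Psi (μ P : I → ℝ) (n : ℕ) (η : ℕ → W) (t : ℕ → ℝ) : ℝ :=
  ∫ τ in (0:ℝ)..1, R.fabs (upath μ P n η t τ)

/-- the datum maximises `Psi` among valid data with the same end orbit -/
def UMax (μ P κ : I → ℝ) (n : ℕ) (η : ℕ → W) (t : ℕ → ℝ) : Prop :=
  (∃ x : W, x • upath μ P n η t 1 = κ) ∧
    ∀ (n' : ℕ) (η' : ℕ → W) (t' : ℕ → ℝ), R.UValid μ P n' η' t' →
      (∃ x : W, x • upath μ P n' η' t' 1 = κ) → R.Psi μ P n' η' t' ≤ R.Psi μ P n η t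

/-- genericity of a triple -/
def Generic (lam μ κ : I → ℝ) : Prop :=
  (∀ (x η : W) (S : Set (I → ℝ)), S ⊆ {q | ∃ a b : W, q = a • μ - b • μ} →
      Submodule.span ℝ S ≠ ⊤ → x • κ - lam - η • μ ∉ Submodule.span ℝ S) ∧
  ∀ (x η : W) (δ : ι) (S : Set ((I → ℝ) × ℝ)),
    S ⊆ {q | ∃ a b c d : W, q = (a • μ - b • μ, R.cv δ (c • μ - d • μ)) ∨
      q = (a • μ - b • μ, -R.cv δ (c • μ))} →
    Submodule.span ℝ S ≠ ⊤ → (x • κ - lam - η • μ, R.cv δ lam) ∉ Submodule.span ℝ S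

end RD

/-- realisation of a root datum in a complex Lie algebra -/
structure Rlz {I ι : Type*} [Fintype I] [DecidableEq I] [Fintype ι] (R : RD0 I ι)
    (L : Type*) [LieRing L] [LieAlgebra ℂ L] where
  h : ι → L
  e : ι → L
  f : ι → L
  lie_ef : ∀ α, ⁅e α, f α⁆ = h α
  lie_he : ∀ α β, ⁅h β, e α⁆ = (R.cv β (R.rt α) : ℂ) • e α
  lie_hh : ∀ α β, ⁅h α, h β⁆ = 0
  h_eq : ∀ β, h β = ∑ i, (R.co β i : ℂ) • h (R.sr i)
  f_mem : ∀ α, f α ∈ Submodule.span ℂ {e (R.ng α)}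
  e_mem : ∀ α, e (R.ng α) ∈ Submodule.span ℂ {f α}
  span_top : Submodule.span ℂ (Set.range h ∪ Set.range e) = ⊤
  lie_ee : ∀ α β, β ≠ R.ng α → ⁅e α, e β⁆ ∈ Submodule.span ℂ (e '' {γ | R.rt γ = R.rt α + R.rt β})
  kill_hh : ∀ α β, killingForm ℂ L (h α) (h β) = (R.KK α β : ℂ)
  kill_he : ∀ α β, killingForm ℂ L (h α) (e β) = 0
  kill_ee : ∀ α β, β ≠ R.ng α → killingForm ℂ L (e α) (e β) = 0

namespace Rlz
variable {I ι : Type*} [Fintype I] [DecidableEq I] [Fintype ι] {R : RD0 I ι}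
  {L : Type*} [LieRing L] [LieAlgebra ℂ L] (T : Rlz R L)
  {M : Type*} [AddCommGroup M] [Module ℂ M] [LieRingModule L M] [LieModule ℂ L M]

/-- `m` has weight `v` -/
def IsWt (v : I → ℝ) (m : M) : Prop := ∀ i, ⁅T.h (R.sr i), m⁆ = (v i : ℂ) • m

variable (M) in
/-- weight space -/
def wsp (v : I → ℝ) : Submodule ℂ M where
  carrier := {m | T.IsWt v m}
  add_mem' := fun {a b} ha hb i => by rw [lie_add, ha i, hb i, smul_add]
  zero_mem' := fun i => by simp
  smul_mem' := fun c a ha i => by rw [lie_smul, ha i, smul_comm]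

variable (M) in
/-- `X` is the character of `M` -/
def HasChar (X : GR I) : Prop :=
  ∃ (n : ℕ) (b : Module.Basis (Fin n) ℂ M) (wt : Fin n → I → ℝ),
    (∀ j, T.IsWt (wt j) (b j)) ∧ X = ∑ j, ex (wt j)

/-- highest weight vector -/
def IsHWv (lam : I → ℝ) (m : M) : Prop :=
  m ≠ 0 ∧ T.IsWt lam m ∧ ∀ β ∈ R.Pos, ⁅T.e β, m⁆ = 0

end Rlz

end Pool.Agent.Lib.MP_1e3767_al
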