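import Pool.Agent.Lib.MP_1e3767_al.Form
import Pool.Agent.Lib.MP_1e3767_al.Alt

set_option linter.unusedSectionVars false

namespace Pool.Agent.Lib.MP_1e3767_al

open Finset

namespace RD
variable {I ι W : Type*} [Fintype I] [DecidableEq I] [Fintype ι] [Group W] [Fintype W]
  [DistribMulAction W (I → ℝ)] [SMulCommClass W ℝ (I → ℝ)] [MulAction W ι] (R : RD I ι W)

private theorem delta_aux_mul {X Y : GR I} {a b : I → ℝ}
    (hX : ∀ x, X.coeff x ≠ 0 → R.InQp (a - x)) (hY : ∀ x, Y.coeff x ≠ 0 → R.InQp (b - x)) :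
    (∀ x, (X * Y).coeff x ≠ 0 → R.InQp (a + b - x)) ∧
      (X * Y).coeff (a + b) = X.coeff a * Y.coeff b := by
  classical
  constructor
  · intro x hx
    rw [AddMonoidAlgebra.coeff_mul_apply_left, Finsupp.sum] at hx
    obtain ⟨h, -, hne⟩ := Finset.exists_ne_zero_of_sum_ne_zero hx
    have h1 := hX h (left_ne_zero_of_mul hne)
    have h2 := hY _ (right_ne_zero_of_mul hne)
    have h3 := R.inQp_add h1 h2
    have e : a - h + (b - (-h + x)) = a + b - x := by abel
    rwa [e] at h3
  · rw [AddMonoidAlgebra.coeff_mul_apply_left, Finsupp.sum_eq_single a]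
    · have e : -a + (a + b) = b := by abel
      rw [e]
    · intro h hh hne
      by_contra h0
      have h1 := hX h hh
      have h2 := hY _ (right_ne_zero_of_mul h0)
      have e : b - (-h + (a + b)) = -(a - h) := by abel
      rw [e] at h2
      have h3 := R.ht_nonneg_of_inQp h2
      rw [map_neg] at h3
      have h4 := R.eq_zero_of_inQp h1 (by linarith)
      exact hne (sub_eq_zero.mp h4).symm
    · intro _
      simp

private theorem delta_aux_ex_sum {A : Type*} (S : Finset A) (v : A → I → ℝ) :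
    ∏ a ∈ S, (ex (v a) : GR I) = ex (∑ a ∈ S, v a) := by
  classical
  induction S using Finset.induction_on with
  | empty => simp [ex_zero]
  | insert a S ha ih => rw [Finset.prod_insert ha, Finset.sum_insert ha, ih, ex_add]

private theorem delta_aux_factor {β : ι} (hβ : β ∈ R.Pos) :
    (∀ x, ((1 : GR I) - ex (-R.rt β)).coeff x ≠ 0 → R.InQp (0 - x)) ∧
      ((1 : GR I) - ex (-R.rt β)).coeff 0 = 1 := by
  classical
  have hc : ∀ x, ((1 : GR I) - ex (-R.rt β)).coeff x =
      (if (0 : I → ℝ) = x then 1 else 0) - (if -R.rt β = x then 1 else 0) := by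
    intro x
    rw [← ex_zero, AddMonoidAlgebra.coeff_sub, Finsupp.sub_apply, coeff_ex, coeff_ex]
  constructor
  · intro x hx
    rw [hc] at hx
    by_cases h0 : (0 : I → ℝ) = x
    · rw [← h0, sub_zero]
      exact R.inQp_zero
    · by_cases h1 : -R.rt β = x
      · rw [← h1, zero_sub, neg_neg]
        exact R.inQp_rt hβ
      · rw [if_neg h0, if_neg h1] at hx
        simp at hx
  · rw [hc, if_pos rfl, if_neg (neg_ne_zero.mpr (R.rt_ne_zero β)), sub_zero]

private theorem delta_aux_prod (S : Finset ι) (hS : S ⊆ R.Pos) :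
    (∀ x, (∏ β ∈ S, ((1 : GR I) - ex (-R.rt β))).coeff x ≠ 0 → R.InQp (0 - x)) ∧
      (∏ β ∈ S, ((1 : GR I) - ex (-R.rt β))).coeff 0 = 1 := by
  classical
  induction S using Finset.induction_on with
  | empty =>
    rw [Finset.prod_empty, ← ex_zero]
    constructor
    · intro x hx
      rw [coeff_ex] at hx
      by_cases h0 : (0 : I → ℝ) = x
      · rw [← h0, sub_zero]
        exact R.inQp_zero
      · simp [h0] at hx
    · rw [coeff_ex]
      simp
  | insert a S ha ih =>
    have h1 := delta_aux_factor R (hS (Finset.mem_insert_self a S))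
    have h2 := ih (fun x hx => hS (Finset.mem_insert_of_mem hx))
    have h3 := delta_aux_mul R h1.1 h2.1
    rw [Finset.prod_insert ha]
    rw [add_zero] at h3
    refine ⟨h3.1, ?_⟩
    rw [h3.2, h1.2, h2.2, one_mul]

theorem delta_alt (i : I) (x : I → ℝ) :
    R.delta.coeff (R.s (R.sr i) • x) = -R.delta.coeff x := by
  classical
  set w : W := R.s (R.sr i) with hw
  let e : (I → ℝ) ≃+ (I → ℝ) := DistribMulAction.toAddEquiv (I → ℝ) w
  let σ := AddMonoidAlgebra.domCongr ℂ ℂ e
  let g : ι → GR I := fun β => ex ((1/2 : ℝ) • R.rt β) - ex (-((1/2 : ℝ) • R.rt β))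
  have hex : ∀ v : I → ℝ, σ (ex v) = ex (w • v) := by
    intro v
    simp [σ, ex, e]
  have hg : ∀ β, σ (g β) = g (w • β) := by
    intro β
    simp only [g, map_sub, hex, smul_neg, smul_comm w (1/2 : ℝ), R.smul_rt]
  have hd : R.delta = ∏ β ∈ R.Pos, g β := rfl
  have hneg : g (w • R.sr i) = -g (R.sr i) := by
    simp only [g, hw, R.s_smul_self, R.rt_ng, smul_neg, neg_neg, neg_sub]
  have hσ : σ R.delta = -R.delta := by
    rw [hd, map_prod]
    simp only [hg]
    rw [← Finset.mul_prod_erase _ _ (R.sr_pos i), ← Finset.mul_prod_erase _ g (R.sr_pos i),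
      hneg, hw, R.prod_erase_s_sr i g, neg_mul]
  have hc : (σ R.delta).coeff x = R.delta.coeff (w • x) := by
    have h1 : e.symm x = w • x := by
      rw [AddEquiv.symm_apply_eq]
      change x = w • w • x
      rw [← mul_smul, hw, R.s_mul_s, one_smul]
    rw [← h1]
    exact AddMonoidAlgebra.coeff_domCongr e R.delta x
  rw [← hc, hσ, AddMonoidAlgebra.coeff_neg, Finsupp.neg_apply]

theorem delta_eq_prod : R.delta = ex rho * ∏ β ∈ R.Pos, (1 - ex (-R.rt β)) := by
  have h1 : ∀ β, (ex ((1/2 : ℝ) • R.rt β) - ex (-((1/2 : ℝ) • R.rt β)) : GR I) =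
      ex ((1/2 : ℝ) • R.rt β) * (1 - ex (-R.rt β)) := by
    intro β
    have e : (1/2 : ℝ) • R.rt β + -R.rt β = -((1/2 : ℝ) • R.rt β) := by
      ext j
      simp only [Pi.add_apply, Pi.smul_apply, Pi.neg_apply, smul_eq_mul]
      ring
    rw [mul_sub, mul_one, ← ex_add, e]
  have h2 : ∑ β ∈ R.Pos, (1/2 : ℝ) • R.rt β = (rho : I → ℝ) := by
    rw [← Finset.smul_sum, R.sum_pos_rt, smul_smul]
    norm_num
  unfold RD0.delta
  simp only [h1]
  rw [Finset.prod_mul_distrib, delta_aux_ex_sum, h2]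

theorem delta_supp {x : I → ℝ} (h : R.delta.coeff x ≠ 0) : R.InQp (rho - x) := by
  rw [R.delta_eq_prod, coeff_ex_mul] at h
  have h1 := (delta_aux_prod R R.Pos subset_rfl).1 _ h
  rwa [zero_sub, neg_sub] at h1

theorem delta_top : R.delta.coeff rho = 1 := by
  rw [R.delta_eq_prod, coeff_ex_mul, sub_self]
  exact (delta_aux_prod R R.Pos subset_rfl).2

/-- Weyl denominator formula -/
theorem delta_eq : R.delta = R.AA rho := by
  refine R.eq_AA_of_alt (fun i => by simp [rho]) R.delta_alt R.delta_top ?_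
  intro x hx hne
  have hq := R.delta_supp hne
  have hint := R.intV_of_inQ (R.inQ_of_inQp hq)
  have hdom : Dom (-(rho - x)) := by
    intro i
    obtain ⟨z, hz⟩ := hint i
    have h1 := hx i
    have h2 : ((rho : I → ℝ) - x) i = 1 - x i := rfl
    have h3 : (z : ℝ) < 1 := by linarith
    have h4 : z < 1 := by exact_mod_cast h3
    have h5 : z ≤ 0 := by omega
    have h6 : (z : ℝ) ≤ 0 := by exact_mod_cast h5
    rw [Pi.neg_apply, hz]
    linarith
  have h0 := R.eq_zero_of_inQp_of_dom hq hdom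
  exact (sub_eq_zero.mp h0).symm

theorem mul_supp {X Y : GR I} {a b : I → ℝ} (hX : ∀ x, X.coeff x ≠ 0 → R.InQp (a - x))
    (hY : ∀ x, Y.coeff x ≠ 0 → R.InQp (b - x)) :
    (∀ x, (X * Y).coeff x ≠ 0 → R.InQp (a + b - x)) ∧
      (X * Y).coeff (a + b) = X.coeff a * Y.coeff b :=
  delta_aux_mul R hX hY

end RD

end Pool.Agent.Lib.MP_1e3767_al
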