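import Pool.Agent.Lib.MP_1e3767_al.DpFold

set_option linter.unusedSectionVars false

namespace Pool.Agent.Lib.MP_1e3767_al

open Finset Filter Topology

/-- rounding down to the grid of mesh `1 / M` -/
noncomputable def DpCone_fl (M : ℕ) (x : ℝ) : ℝ := (⌊(M : ℝ) * x⌋ : ℝ) / M

theorem DpCone_fl_mul {M : ℕ} (hM : 0 < M) (x : ℝ) :
    (M : ℝ) * DpCone_fl M x = (⌊(M : ℝ) * x⌋ : ℝ) := by
  have h : (M : ℝ) ≠ 0 := Nat.cast_ne_zero.2 hM.ne'
  unfold DpCone_fl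
  field_simp

theorem DpCone_fl_le {M : ℕ} (hM : 0 < M) (x : ℝ) : DpCone_fl M x ≤ x := by
  have h : (0 : ℝ) < M := Nat.cast_pos.2 hM
  unfold DpCone_fl
  rw [div_le_iff₀' h]
  exact Int.floor_le _

theorem DpCone_fl_ge {M : ℕ} (hM : 0 < M) (x : ℝ) : x - 1 / (M : ℝ) ≤ DpCone_fl M x := by
  have h : (0 : ℝ) < M := Nat.cast_pos.2 hM
  unfold DpCone_fl
  rw [le_div_iff₀' h, mul_sub, mul_one_div_cancel h.ne']
  exact (Int.sub_one_lt_floor _).le

theorem DpCone_fl_mono (M : ℕ) {x y : ℝ} (h : x ≤ y) : DpCone_fl M x ≤ DpCone_fl M y := by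
  unfold DpCone_fl
  have h0 : (0 : ℝ) ≤ M := Nat.cast_nonneg M
  refine div_le_div_of_nonneg_right ?_ h0
  exact Int.cast_le.2 (Int.floor_le_floor (mul_le_mul_of_nonneg_left h h0))

theorem DpCone_fl_nonneg (M : ℕ) {x : ℝ} (h : 0 ≤ x) : 0 ≤ DpCone_fl M x := by
  unfold DpCone_fl
  have h0 : (0 : ℝ) ≤ M := Nat.cast_nonneg M
  exact div_nonneg (Int.cast_nonneg (Int.floor_nonneg.2 (mul_nonneg h0 h))) h0

theorem DpCone_fl_tendsto (x : ℝ) : Tendsto (fun M : ℕ => DpCone_fl M x) atTop (𝓝 x) := by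
  have h1 : Tendsto (fun M : ℕ => x - 1 / (M : ℝ)) atTop (𝓝 (x - 0)) :=
    tendsto_const_nhds.sub tendsto_one_div_atTop_nhds_zero_nat
  rw [sub_zero] at h1
  refine tendsto_of_tendsto_of_tendsto_of_le_of_le' h1 tendsto_const_nhds ?_ ?_
  · filter_upwards [eventually_gt_atTop 0] with M hM using DpCone_fl_ge hM x
  · filter_upwards [eventually_gt_atTop 0] with M hM using DpCone_fl_le hM x

theorem DpCone_fl_int {I : Type*} {M : ℕ} (hM : 0 < M) (k : ℕ) (v : I → ℝ) :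
    IntV (((k : ℝ) * M) • fun i => DpCone_fl M (v i)) := by
  intro i
  refine ⟨k * ⌊(M : ℝ) * v i⌋, ?_⟩
  rw [Pi.smul_apply, smul_eq_mul, mul_assoc, DpCone_fl_mul hM]
  push_cast
  rfl

namespace RD
variable {I ι W : Type*} [Fintype I] [DecidableEq I] [Fintype ι] [Group W] [Fintype W]
  [DistribMulAction W (I → ℝ)] [SMulCommClass W ℝ (I → ℝ)] [MulAction W ι] (R : RD I ι W)

theorem isClosed_inC : IsClosed {g : V3 I | R.InC g} := by
  have he : {g : V3 I | R.InC g} = {g : V3 I | Dom g.2.1} ∩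
      {L : (I → ℝ) × (I → ℝ) × (I → ℝ) | ∃ l, R.TagDat L.1 L.2.1 L.2.2 l} := by
    ext g
    constructor
    · rintro ⟨h1, h2⟩
      exact ⟨h1, R.tagDat_of_domDat h1 h2⟩
    · rintro ⟨h1, l, h2⟩
      exact ⟨h1, _, h2.1⟩
  rw [he]
  exact (isClosed_dom.preimage (continuous_fst.comp continuous_snd)).inter R.isClosed_tagDat

theorem inC_smul {g : V3 I} (h : R.InC g) {c : ℝ} (hc : 0 ≤ c) : R.InC (c • g) := by
  obtain ⟨h1, l, h2⟩ := h
  exact ⟨fun i => mul_nonneg hc (h1 i), l, R.domDat_smul h2 hc⟩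

theorem dom_of_inC {g : V3 I} (h : R.InC g) : Dom g.1 ∧ Dom g.2.1 ∧ Dom g.2.2 := by
  obtain ⟨h1, l, h2⟩ := h
  exact ⟨(R.dom_of_domDat h2).1, h1, (R.dom_of_domDat h2).2⟩

/-- joint continuity of the path in the shape, the turning times and the time -/
theorem DpCone_cont {X : Type*} [TopologicalSpace X] {μ : X → I → ℝ} (hμ : Continuous μ)
    {t : X → ℝ} (ht : Continuous t) (bs : List ι) :
    ∀ (u : W) (a : X → ℕ → ℝ), Continuous a →
      Continuous fun x => R.path (μ x) u (perturbTl (a x) bs) (t x) := by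
  induction bs with
  | nil =>
    intro u a _
    exact ht.smul ((continuous_wsmul u).comp hμ)
  | cons β bs ih =>
    intro u a ha
    simp only [perturbTl, path]
    exact (ih _ _ (compact_shift ha)).add (((R.compact_cv β u hμ).mul
      (ht.min ((continuous_apply 0).comp ha))).smul continuous_const)

theorem DpCone_isLS {ν : I → ℝ} (hν : IntV ν) (c : ℝ) (bs : List ι) :
    ∀ (u : W) (a : ℕ → ℝ), (∀ k, ∃ z : ℤ, c * a k = z) →
      R.IsLS (c • ν) u (perturbTl a bs) := by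
  induction bs with
  | nil => intro u a _; trivial
  | cons β bs ih =>
    intro u a ha
    refine ⟨?_, ih _ _ fun k => ha (k + 1)⟩
    obtain ⟨z, hz⟩ := ha 0
    obtain ⟨y, hy⟩ := R.cv_int β (R.intV_smul hν u)
    refine ⟨y * z, ?_⟩
    change R.cv β (u • c • ν) * a 0 = _
    rw [smul_comm u c ν, map_smul, smul_eq_mul, hy]
    push_cast
    rw [← hz]
    ring

variable {R} (Λ : R.Lat)

theorem Lat.re_zero : Λ.RE 0 := by
  have h0 : Dom (0 : I → ℝ) := fun _ => le_rfl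
  have hi : IntV (0 : I → ℝ) := fun _ => ⟨0, by simp⟩
  have h := R.rp_prv h0 h0 hi hi 1 1 (by simpa using h0)
  refine ⟨?_, Λ.E.zero_mem, Λ.E.zero_mem⟩
  rw [one_smul, one_smul, add_zero] at h
  exact h

theorem Lat.re_add {f h : V3 I} (hf : Λ.RE f) (hh : Λ.RE h) : Λ.RE (f + h) :=
  ⟨Λ.add f h hf.1 hh.1 hf.2.1 hf.2.2 hh.2.1 hh.2.2, Λ.E.add_mem hf.2.1 hh.2.1,
    Λ.E.add_mem hf.2.2 hh.2.2⟩

theorem Lat.re_nsmul {f : V3 I} (hf : Λ.RE f) (n : ℕ) : Λ.RE ((n : ℝ) • f) := by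
  induction n with
  | zero => simpa using Λ.re_zero
  | succ n ih =>
    rw [Nat.cast_succ, add_smul, one_smul]
    exact Λ.re_add ih hf

theorem Lat.DpCone_dense_aux {lam μ : I → ℝ} (hμ : Dom μ) {a : ℕ → ℝ} {bs : List ι}
    (hm : R.IsMax (perturbTl a bs))
    (hd : ∀ t ∈ Set.Icc (0:ℝ) 1, Reg (lam + R.path μ R.w0 (perturbTl a bs) t)) :
    ((lam, μ, lam + R.path μ R.w0 (perturbTl a bs) 1) : V3 I) ∈
      closure {h : V3 I | ∃ n : ℕ, 0 < n ∧ Λ.RE ((n : ℝ) • h)} := by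
  obtain ⟨hch, hend⟩ := hm
  rw [endp, perturbTl_snd] at hend
  obtain ⟨hc, hb, hmono⟩ := (R.perturb_chain _ _ _ _).1 hch
  let x : ℕ → (I → ℝ) × (I → ℝ) × (ℕ → ℝ) := fun M =>
    (fun i => DpCone_fl M (lam i), fun i => DpCone_fl M (μ i), fun k => DpCone_fl M (a k))
  have hx : Tendsto x atTop (𝓝 (lam, μ, a)) :=
    (tendsto_pi_nhds.2 fun i => DpCone_fl_tendsto _).prodMk_nhds
      ((tendsto_pi_nhds.2 fun i => DpCone_fl_tendsto _).prodMk_nhds
        (tendsto_pi_nhds.2 fun i => DpCone_fl_tendsto _))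
  have hF : Continuous fun z : ((I → ℝ) × (I → ℝ) × (ℕ → ℝ)) × ℝ =>
      z.1.1 + R.path z.1.2.1 R.w0 (perturbTl z.1.2.2 bs) z.2 :=
    (continuous_fst.comp continuous_fst).add
      (R.DpCone_cont (by fun_prop) continuous_snd bs _ _ (by fun_prop))
  have hev : ∀ᶠ y : (I → ℝ) × (I → ℝ) × (ℕ → ℝ) in 𝓝 (lam, μ, a), ∀ t ∈ Set.Icc (0:ℝ) 1,
      Reg (y.1 + R.path y.2.1 R.w0 (perturbTl y.2.2 bs) t) := by
    refine isCompact_Icc.eventually_forall_of_forall_eventually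
      (P := fun (y : (I → ℝ) × (I → ℝ) × (ℕ → ℝ)) (t : ℝ) =>
        Reg (y.1 + R.path y.2.1 R.w0 (perturbTl y.2.2 bs) t)) fun t ht => ?_
    refine eventually_all.2 fun i => ?_
    exact (((continuous_apply i).comp hF).continuousAt (x := ((lam, μ, a), t))).eventually
      (lt_mem_nhds (hd t ht i))
  have hG : Continuous fun y : (I → ℝ) × (I → ℝ) × (ℕ → ℝ) =>
      ((y.1, y.2.1, y.1 + R.path y.2.1 R.w0 (perturbTl y.2.2 bs) 1) : V3 I) :=
    continuous_fst.prodMk ((continuous_fst.comp continuous_snd).prodMk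
      (hF.comp (continuous_id.prodMk continuous_const)))
  refine mem_closure_of_tendsto ((hG.tendsto (lam, μ, a)).comp hx) ?_
  filter_upwards [hx.eventually hev, eventually_gt_atTop 0] with M hM hM0
  have hdat : R.DomDat (x M).1 (x M).2.1
      ((x M).1 + R.path (x M).2.1 R.w0 (perturbTl (x M).2.2 bs) 1) (perturbTl (x M).2.2 bs) := by
    refine ⟨⟨(R.perturb_chain _ _ _ _).2 ⟨hc, fun k hk => ⟨DpCone_fl_nonneg M (hb k hk).1,
      (DpCone_fl_le hM0 _).trans (hb k hk).2⟩, fun j k hj hk => DpCone_fl_mono M (hmono j k hj hk)⟩,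
      by rw [endp, perturbTl_snd, hend]⟩, fun t ht i => (hM t ht i).le, rfl⟩
  have hn : (0 : ℝ) ≤ ((Λ.N * (M * M) : ℕ) : ℝ) := Nat.cast_nonneg _
  have hE : ∀ v : I → ℝ, ((Λ.N * (M * M) : ℕ) : ℝ) • (fun i => DpCone_fl M (v i)) ∈ Λ.E := by
    intro v
    have h1 := Λ.big _ (DpCone_fl_int hM0 M v)
    rw [smul_smul] at h1
    push_cast
    exact h1
  refine ⟨Λ.N * (M * M), Nat.mul_pos Λ.N_pos (Nat.mul_pos hM0 hM0),
    ⟨fun i => mul_nonneg hn (DpCone_fl_nonneg M (hμ i)), _, R.domDat_smul hdat hn, ?_⟩,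
    hE lam, hE μ⟩
  have h2 := R.DpCone_isLS (DpCone_fl_int hM0 Λ.N μ) (M : ℝ) bs R.w0 (x M).2.2
    fun k => ⟨_, DpCone_fl_mul hM0 (a k)⟩
  rw [smul_smul] at h2
  have h3 : ((Λ.N * (M * M) : ℕ) : ℝ) = (M : ℝ) * ((Λ.N : ℝ) * M) := by
    push_cast
    ring
  rw [h3]
  exact h2

/-- rays through LS triples are dense in the cone -/
theorem Lat.dense {g : V3 I} (h : R.InC g) :
    g ∈ closure {h : V3 I | ∃ n : ℕ, 0 < n ∧ Λ.RE ((n : ℝ) • h)} := by
  obtain ⟨lam, μ, κ⟩ := g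
  obtain ⟨hμ, l, hm, hd, he⟩ := h
  obtain ⟨a, ha⟩ := perturbTl_ex l
  generalize l.map Prod.snd = bs at ha
  subst ha
  simp only at hμ hd he
  subst he
  have hc : Continuous fun d : ℝ => ((lam + d • rho, μ,
      lam + d • rho + R.path μ R.w0 (perturbTl a bs) 1) : V3 I) := by fun_prop
  have ht : Tendsto (fun d : ℝ => ((lam + d • rho, μ,
      lam + d • rho + R.path μ R.w0 (perturbTl a bs) 1) : V3 I)) (𝓝[>] 0)
      (𝓝 (lam, μ, lam + R.path μ R.w0 (perturbTl a bs) 1)) := by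
    have h1 := (hc.tendsto 0).mono_left (nhdsWithin_le_nhds (s := Set.Ioi (0 : ℝ)))
    simpa using h1
  refine isClosed_closure.mem_of_tendsto ht ?_
  filter_upwards [self_mem_nhdsWithin] with d hd0
  refine Λ.DpCone_dense_aux hμ hm fun t ht i => ?_
  have h1 := hd t ht i
  have h2 : (0 : ℝ) < d := hd0
  simp only [Pi.add_apply, Pi.smul_apply, rho, smul_eq_mul] at h1 ⊢
  linarith

include Λ

/-- the cone is convex -/
theorem Lat.inC_add {g h : V3 I} (hg : R.InC g) (hh : R.InC h) : R.InC (g + h) := by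
  have h1 : g + h ∈ closure {g : V3 I | R.InC g} := by
    refine map_mem_closure₂ (f := fun a b : V3 I => a + b) continuous_add (Λ.dense hg)
      (Λ.dense hh) ?_
    rintro a ⟨n, hn, ha⟩ b ⟨m, hm, hb⟩
    have h2 := R.inC_of_rp (Λ.re_add (Λ.re_nsmul ha m) (Λ.re_nsmul hb n)).1
    have hn' : (0 : ℝ) < n := Nat.cast_pos.2 hn
    have hm' : (0 : ℝ) < m := Nat.cast_pos.2 hm
    have h3 := R.inC_smul h2 (c := ((n : ℝ) * m)⁻¹) (by positivity)
    have h4 : ((n : ℝ) * m)⁻¹ • ((m : ℝ) • (n : ℝ) • a + (n : ℝ) • (m : ℝ) • b) = a + b := by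
      rw [smul_smul (m : ℝ), smul_smul (n : ℝ), mul_comm (m : ℝ), ← smul_add, smul_smul,
        inv_mul_cancel₀ (by positivity), one_smul]
    rw [h4] at h3
    exact h3
  rwa [R.isClosed_inC.closure_eq] at h1

theorem Lat.tc_small {g δ : V3 I} (hg : R.InC g) (h : R.Tc g δ) :
    ∃ ε0 : ℝ, 0 < ε0 ∧ ∀ ε, 0 ≤ ε → ε ≤ ε0 → R.InC (g + ε • δ) := by
  obtain ⟨e, he, h⟩ := h
  refine ⟨e, he, fun ε h0 h1 => ?_⟩
  have h2 := Λ.inC_add (R.inC_smul hg (c := 1 - ε / e) (sub_nonneg.2 ((div_le_one he).2 h1)))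
    (R.inC_smul h (c := ε / e) (div_nonneg h0 he.le))
  have h3 : (1 - ε / e) • g + (ε / e) • (g + e • δ) = g + ε • δ := by
    rw [smul_add, smul_smul, div_mul_cancel₀ _ he.ne', ← add_assoc, ← add_smul, sub_add_cancel,
      one_smul]
  rwa [h3] at h2

theorem Lat.tc_add {g a b : V3 I} (ha : R.Tc g a) (hb : R.Tc g b) : R.Tc g (a + b) := by
  obtain ⟨e, he, ha⟩ := ha
  obtain ⟨f, hf, hb⟩ := hb
  have hs : 0 < e + f := add_pos he hf
  refine ⟨e * f / (e + f), by positivity, ?_⟩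
  have h2 := Λ.inC_add (R.inC_smul ha (c := f / (e + f)) (by positivity))
    (R.inC_smul hb (c := e / (e + f)) (by positivity))
  have h3 : (f / (e + f)) • (g + e • a) + (e / (e + f)) • (g + f • b) =
      g + (e * f / (e + f)) • (a + b) := by
    have h4 : f / (e + f) + e / (e + f) = 1 := by
      field_simp
      ring
    have h5 : f / (e + f) * e = e * f / (e + f) := by ring
    have h6 : e / (e + f) * f = e * f / (e + f) := by ring
    rw [smul_add, smul_add, smul_smul, smul_smul, h5, h6, add_add_add_comm, ← add_smul, h4,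
      one_smul, smul_add]
  rwa [h3] at h2

theorem Lat.tc_smul {g a : V3 I} (hg : R.InC g) (ha : R.Tc g a) {c : ℝ} (hc : 0 ≤ c) :
    R.Tc g (c • a) := by
  rcases hc.eq_or_lt with rfl | hc
  · exact ⟨1, one_pos, by simpa using hg⟩
  · obtain ⟨e, he, ha⟩ := ha
    refine ⟨e / c, div_pos he hc, ?_⟩
    rwa [smul_smul, div_mul_cancel₀ _ hc.ne']

theorem Lat.tc_of_inC {g h : V3 I} (hg : R.InC g) (hh : R.InC h) : R.Tc g h :=
  ⟨1, one_pos, by rw [one_smul]; exact Λ.inC_add hg hh⟩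

theorem Lat.hc_self {g : V3 I} (hg : R.InC g) : R.Hc g g := by
  refine ⟨Λ.tc_of_inC hg hg, 1, one_pos, ?_⟩
  have h := R.inC_smul hg (c := 0) le_rfl
  rw [zero_smul] at h
  rwa [one_smul, add_neg_cancel]

theorem Lat.hc_zero {g : V3 I} (hg : R.InC g) : R.Hc g 0 := by
  have h : R.Tc g 0 := ⟨1, one_pos, by simpa using hg⟩
  exact ⟨h, by rwa [neg_zero]⟩

theorem Lat.hc_add {g a b : V3 I} (ha : R.Hc g a) (hb : R.Hc g b) : R.Hc g (a + b) :=
  ⟨Λ.tc_add ha.1 hb.1, by rw [neg_add]; exact Λ.tc_add ha.2 hb.2⟩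

theorem Lat.hc_neg {g a : V3 I} (ha : R.Hc g a) : R.Hc g (-a) :=
  ⟨ha.2, by rw [neg_neg]; exact ha.1⟩

theorem Lat.hc_smul {g a : V3 I} (hg : R.InC g) (ha : R.Hc g a) (c : ℝ) : R.Hc g (c • a) := by
  rcases le_total 0 c with hc | hc
  · exact ⟨Λ.tc_smul hg ha.1 hc, by rw [← smul_neg]; exact Λ.tc_smul hg ha.2 hc⟩
  · refine ⟨?_, ?_⟩
    · have h := Λ.tc_smul hg ha.2 (neg_nonneg.2 hc)
      rwa [neg_smul_neg] at h
    · have h := Λ.tc_smul hg ha.1 (neg_nonneg.2 hc)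
      rwa [neg_smul] at h

/-- the tangent cone at a point of the face is smaller -/
theorem Lat.tc_mono {g g' δ : V3 I} (hg : R.InC g) (h' : R.Hc g g') (h : R.Tc g' δ) :
    R.Tc g δ := by
  have _ := hg
  obtain ⟨e, he, h1⟩ := h'.2
  obtain ⟨f, hf, h2⟩ := h
  refine ⟨e * f, mul_pos he hf, ?_⟩
  have h3 := Λ.inC_add h1 (R.inC_smul h2 he.le)
  have h4 : g + e • -g' + e • (g' + f • δ) = g + (e * f) • δ := by
    rw [smul_add, smul_smul, smul_neg]
    abel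
  rwa [h4] at h3

/-- the third component of the lineality space as a subspace -/
theorem Lat.exists_sub {g : V3 I} (hg : R.InC g) :
    ∃ D : Submodule ℝ (I → ℝ), ∀ v, v ∈ D ↔ R.Hc g (kap v) :=
  ⟨{ carrier := {v | R.Hc g (kap v)}
     add_mem' := fun {a b} ha hb => by
       change R.Hc g (kap (a + b))
       rw [kap_add]
       exact Λ.hc_add ha hb
     zero_mem' := Λ.hc_zero hg
     smul_mem' := fun c a ha => by
       change R.Hc g (kap (c • a))
       rw [kap_smul]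
       exact Λ.hc_smul hg ha c }, fun _ => Iff.rfl⟩

theorem Lat.tc_of_ev {g δ : V3 I} (h : ∀ᶠ ε in 𝓝[>] (0 : ℝ), R.InC (g + ε • δ)) :
    R.Tc g δ := by
  obtain ⟨e, h1, h2⟩ := (h.and self_mem_nhdsWithin).exists
  exact ⟨e, h2, h1⟩

end RD

end Pool.Agent.Lib.MP_1e3767_al
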