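import Pool.Agent.Lib.MP_1e3767_al.Len

set_option linter.unusedSectionVars false

namespace Pool.Agent.Lib.MP_1e3767_al

open Finset

namespace RD
variable {I ι W : Type*} [Fintype I] [DecidableEq I] [Fintype ι] [Group W] [Fintype W]
  [DistribMulAction W (I → ℝ)] [SMulCommClass W ℝ (I → ℝ)] [MulAction W ι] (R : RD I ι W)

theorem form_reindex (w : W) (g : ι → ℝ) : ∑ γ, g (w • γ) = ∑ γ, g γ :=
  Equiv.sum_comp (MulAction.toPerm w) g

theorem KK_symm (α β : ι) : R.KK α β = R.KK β α := by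
  unfold RD0.KK
  exact sum_congr rfl fun γ _ => mul_comm _ _

theorem KK_self_pos (α : ι) : 0 < R.KK α α := by
  unfold RD0.KK
  refine sum_pos' (fun γ _ => mul_self_nonneg _) ⟨α, mem_univ _, ?_⟩
  rw [R.cv_self]; norm_num

theorem dd_pos (α : ι) : 0 < R.dd α := by
  unfold RD0.dd
  exact div_pos two_pos (R.KK_self_pos α)

theorem form_KK_smul (w : W) (α β : ι) : R.KK (w • α) (w • β) = R.KK α β := by
  unfold RD0.KK
  rw [← form_reindex w]
  refine sum_congr rfl fun γ _ => ?_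
  rw [R.smul_rt, R.cv_smul_smul, R.cv_smul_smul]

theorem dd_smul (w : W) (α : ι) : R.dd (w • α) = R.dd α := by
  unfold RD0.dd
  rw [R.form_KK_smul]

theorem dd_ng (α : ι) : R.dd (R.ng α) = R.dd α := by
  rw [← R.s_smul_self, R.dd_smul]

/-- reindex the sum by the reflection -/
theorem sum_mul_cv (φ : (I → ℝ) →ₗ[ℝ] ℝ) (α : ι) :
    2 * ∑ γ, φ (R.rt γ) * R.cv α (R.rt γ) = φ (R.rt α) * R.KK α α := by
  have h := form_reindex (R.s α) (fun γ => φ (R.rt γ) * R.cv α (R.rt γ))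
  have h2 : ∑ γ, φ (R.rt (R.s α • γ)) * R.cv α (R.rt (R.s α • γ)) =
      φ (R.rt α) * R.KK α α - ∑ γ, φ (R.rt γ) * R.cv α (R.rt γ) := by
    unfold RD0.KK
    rw [mul_sum, ← sum_sub_distrib]
    refine sum_congr rfl fun γ _ => ?_
    rw [R.rt_s_smul, map_sub, map_sub, map_smul, map_smul, R.cv_self]
    simp only [smul_eq_mul]
    ring
  rw [h2] at h
  linarith

theorem dd_mul_KK (α β : ι) : R.dd α * R.KK α β = R.cv β (R.rt α) := by
  have h := R.sum_mul_cv (R.cv β) α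
  have h2 : 2 * R.KK β α = R.cv β (R.rt α) * R.KK α α := h
  have h3 := (R.KK_self_pos α).ne'
  rw [R.KK_symm β α] at h2
  unfold RD0.dd
  field_simp
  linarith

theorem dd_symm (α β : ι) : R.dd β * R.cv β (R.rt α) = R.dd α * R.cv α (R.rt β) := by
  rw [← R.dd_mul_KK α β, ← R.dd_mul_KK β α, R.KK_symm β α]
  ring

theorem QQ_symm (x y : I → ℝ) : R.QQ x y = R.QQ y x := by
  unfold RD0.QQ
  exact sum_congr rfl fun γ _ => by ring

theorem QQ_add_left (x x' y : I → ℝ) : R.QQ (x + x') y = R.QQ x y + R.QQ x' y := by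
  unfold RD0.QQ
  rw [← sum_add_distrib]
  exact sum_congr rfl fun γ _ => by rw [map_add]; ring

theorem QQ_smul_left (c : ℝ) (x y : I → ℝ) : R.QQ (c • x) y = c * R.QQ x y := by
  unfold RD0.QQ
  rw [mul_sum]
  exact sum_congr rfl fun γ _ => by rw [map_smul, smul_eq_mul]; ring

theorem QQ_sub_left (x x' y : I → ℝ) : R.QQ (x - x') y = R.QQ x y - R.QQ x' y := by
  unfold RD0.QQ
  rw [← sum_sub_distrib]
  exact sum_congr rfl fun γ _ => by rw [map_sub]; ring

theorem QQ_sum_left {A : Type*} (S : Finset A) (x : A → I → ℝ) (y : I → ℝ) :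
    R.QQ (∑ a ∈ S, x a) y = ∑ a ∈ S, R.QQ (x a) y := by
  unfold RD0.QQ
  rw [sum_comm]
  refine sum_congr rfl fun γ _ => ?_
  rw [map_sum, sum_mul, mul_sum]

theorem QQ_smul_smul (w : W) (x y : I → ℝ) : R.QQ (w • x) (w • y) = R.QQ x y := by
  unfold RD0.QQ
  rw [← form_reindex w]
  refine sum_congr rfl fun γ _ => ?_
  rw [R.dd_smul, R.cv_smul_smul, R.cv_smul_smul]

theorem QQ_self_nonneg (x : I → ℝ) : 0 ≤ R.QQ x x := by
  unfold RD0.QQ
  exact sum_nonneg fun γ _ => mul_nonneg (sq_nonneg _) (mul_self_nonneg _)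

theorem eq_zero_of_QQ {x : I → ℝ} (h : R.QQ x x ≤ 0) : x = 0 := by
  have h0 : R.QQ x x = 0 := le_antisymm h (R.QQ_self_nonneg x)
  unfold RD0.QQ at h0
  rw [sum_eq_zero_iff_of_nonneg
    (fun γ _ => mul_nonneg (sq_nonneg _) (mul_self_nonneg _))] at h0
  funext i
  have h1 := h0 (R.sr i) (mem_univ _)
  rw [R.cv_sr] at h1
  rcases mul_eq_zero.1 h1 with h2 | h2
  · exact absurd h2 (pow_pos (R.dd_pos _) 2).ne'
  · exact mul_self_eq_zero.1 h2

theorem form_QQ_rt_self (α : ι) : R.QQ (R.rt α) (R.rt α) = 2 * R.dd α := by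
  have h : R.QQ (R.rt α) (R.rt α) = R.dd α ^ 2 * R.KK α α := by
    unfold RD0.QQ RD0.KK
    rw [mul_sum]
    refine sum_congr rfl fun β _ => ?_
    have := R.dd_symm α β
    calc R.dd β ^ 2 * (R.cv β (R.rt α) * R.cv β (R.rt α))
        = (R.dd β * R.cv β (R.rt α)) ^ 2 := by ring
      _ = (R.dd α * R.cv α (R.rt β)) ^ 2 := by rw [this]
      _ = _ := by ring
  have h2 := R.dd_mul_KK α α
  rw [R.cv_self] at h2
  rw [h, pow_two, mul_assoc, h2, mul_comm]

theorem QQ_rt (α : ι) (v : I → ℝ) : R.QQ (R.rt α) v = R.dd α * R.cv α v := by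
  have h := R.QQ_smul_smul (R.s α) v (R.rt α)
  have h1 : R.s α • R.rt α = (-1 : ℝ) • R.rt α := by
    rw [R.s_smul', R.cv_self]
    module
  rw [h1, R.s_smul', R.QQ_sub_left, R.QQ_smul_left, R.QQ_symm v ((-1 : ℝ) • _),
    R.QQ_symm (R.rt α) ((-1 : ℝ) • _), R.QQ_smul_left, R.QQ_smul_left, R.form_QQ_rt_self,
    R.QQ_symm v] at h
  linarith

theorem form_cv_single (α : ι) (i : I) : R.cv α (Pi.single i 1) = R.co α i := by
  rw [R.cv_apply, sum_eq_single i]
  · simp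
  · intro j _ hj
    simp [Pi.single_eq_of_ne hj]
  · intro h
    exact absurd (mem_univ i) h

theorem form_QQ_comb (c : I → ℝ) (v : I → ℝ) :
    R.QQ (∑ j, c j • R.rt (R.sr j)) v = ∑ j, c j * (R.dd (R.sr j) * v j) := by
  rw [R.QQ_sum_left]
  refine sum_congr rfl fun j _ => ?_
  rw [R.QQ_smul_left, R.QQ_rt, R.cv_sr]

theorem dd_co (α : ι) (i : I) : R.dd α * R.co α i = R.cf α i * R.dd (R.sr i) := by
  rw [← R.form_cv_single, ← R.QQ_rt, R.rt_eq α, R.form_QQ_comb, sum_eq_single i]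
  · simp
  · intro j _ hj
    simp [Pi.single_eq_of_ne hj]
  · intro h
    exact absurd (mem_univ i) h

/-- tight frame identity on coroots -/
theorem frame_co (α : ι) (i : I) :
    ∑ β, R.dd β ^ 2 * R.KK α β * R.co β i = R.co α i := by
  apply mul_left_cancel₀ (R.dd_pos α).ne'
  rw [← R.form_cv_single α, ← R.QQ_rt, mul_sum]
  unfold RD0.QQ
  refine sum_congr rfl fun β _ => ?_
  rw [← R.dd_mul_KK α β, R.form_cv_single]
  ring

theorem eq_of_QQ_eq {x y : I → ℝ} (hx : Reg x) (hy : Dom y) (hq : R.InQp (x - y))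
    (h : R.QQ x x = R.QQ y y) : y = x := by
  obtain ⟨c, hc⟩ := hq
  have h1 : R.QQ (x - y) (x + y) = 0 := by
    rw [R.QQ_sub_left, R.QQ_symm x, R.QQ_symm y, R.QQ_add_left, R.QQ_add_left, h,
      R.QQ_symm y x]
    ring
  rw [hc, R.form_QQ_comb (fun j => (c j : ℝ))] at h1
  have hpos : ∀ j, 0 < R.dd (R.sr j) * (x + y) j := fun j =>
    mul_pos (R.dd_pos _) (add_pos_of_pos_of_nonneg (hx j) (hy j))
  rw [sum_eq_zero_iff_of_nonneg
    (fun j _ => mul_nonneg (Nat.cast_nonneg _) (hpos j).le)] at h1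
  have h2 : x - y = 0 := by
    rw [hc]
    refine sum_eq_zero fun j _ => ?_
    rcases mul_eq_zero.1 (h1 j (mem_univ _)) with h3 | h3
    · rw [h3, zero_smul]
    · exact absurd h3 (hpos j).ne'
  exact (sub_eq_zero.1 h2).symm

theorem eq_zero_of_inQp_of_dom {q : I → ℝ} (hq : R.InQp q) (h : Dom (-q)) : q = 0 := by
  obtain ⟨c, hc⟩ := hq
  apply R.eq_zero_of_QQ
  have h1 := R.form_QQ_comb (fun j => (c j : ℝ)) q
  rw [← hc] at h1
  rw [h1]
  refine sum_nonpos fun j _ => mul_nonpos_of_nonneg_of_nonpos (Nat.cast_nonneg _)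
    (mul_nonpos_of_nonneg_of_nonpos (R.dd_pos _).le ?_)
  have := h j
  simpa using this

end RD

end Pool.Agent.Lib.MP_1e3767_al
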