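import Pool.Agent.Lib.MP_1e3767_al.Sat
import Pool.Agent.Lib.MP_1e3767_al.Form
import Pool.Agent.Lib.MP_1e3767_al.Conv

/-!
Definitions for deep saturation.
-/

set_option linter.unusedSectionVars false

namespace Pool.Agent.Lib.MP_1e3767_al

open Finset Filter Topology

/-- triples of weights -/
abbrev V3 (I : Type*) := (I → ℝ) × (I → ℝ) × (I → ℝ)

/-- all three weights are regular dominant -/
def Reg3 {I : Type*} (g : V3 I) : Prop := Reg g.1 ∧ Reg g.2.1 ∧ Reg g.2.2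

/-- the triple `(0, 0, v)` -/
def kap {I : Type*} (v : I → ℝ) : V3 I := (0, 0, v)

/-- weakly increasing times between `a` and `b` -/
def TmW {ι : Type*} : ℝ → List (ℝ × ι) → ℝ → Prop
  | a, [], b => a ≤ b
  | a, p :: l, b => a ≤ p.1 ∧ TmW p.1 l b

/-- strictly increasing times between `a` and `b` -/
def TmS {ι : Type*} : ℝ → List (ℝ × ι) → ℝ → Prop
  | a, [], b => a < b
  | a, p :: l, b => a < p.1 ∧ TmS p.1 l b

/-- a family of lists with fixed labels whose numbers converge -/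
def Tl {X ι : Type*} (F : Filter X) : (X → List (ℝ × ι)) → List (ℝ × ι) → Prop
  | l, [] => ∀ x, l x = []
  | l, p :: l0 => ∃ (a : X → ℝ) (l' : X → List (ℝ × ι)), (∀ x, l x = (a x, p.2) :: l' x) ∧
      Tendsto a F (𝓝 p.1) ∧ Tl F l' l0

namespace RD
variable {I ι W : Type*} [Fintype I] [DecidableEq I] [Fintype ι] [Group W] [Fintype W]
  [DistribMulAction W (I → ℝ)] [SMulCommClass W ℝ (I → ℝ)] [MulAction W ι] (R : RD I ι W)

/-- the real cone -/
def InC (g : V3 I) : Prop := Dom g.2.1 ∧ ∃ l, R.DomDat g.1 g.2.1 g.2.2 l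

/-- triples joined by an LS path -/
def Rp (g : V3 I) : Prop :=
  Dom g.2.1 ∧ ∃ l, R.DomDat g.1 g.2.1 g.2.2 l ∧ R.IsLS g.2.1 R.w0 l

/-- the lattice -/
def InL (g : V3 I) : Prop := IntV g.1 ∧ IntV g.2.1 ∧ R.InQ (g.1 + g.2.1 - g.2.2)

/-- tangent cone -/
def Tc (g δ : V3 I) : Prop := ∃ ε : ℝ, 0 < ε ∧ R.InC (g + ε • δ)

/-- lineality space of the tangent cone -/
def Hc (g δ : V3 I) : Prop := R.Tc g δ ∧ R.Tc g (-δ)

/-- unfolded list (times, labels): every turn happens at a regular point and is a cover seen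
from the chamber of that point; `P` is the intercept -/
def CovP (μ : I → ℝ) : W → (I → ℝ) → List (ℝ × ι) → Prop
  | _, _, [] => True
  | u, P, p :: l => (∃ x : W, Reg (x • (P + p.1 • (u • μ))) ∧ R.Cover (x * u) (x • p.2)) ∧
      CovP μ (R.s p.2 * u) (P + (R.cv p.2 (u • μ) * p.1) • R.rt p.2) l

/-- levels to times -/
noncomputable def tim (μ : I → ℝ) : W → List (ℝ × ι) → List (ℝ × ι)
  | _, [] => []
  | u, p :: l => (p.1 / R.cv p.2 (u • μ), p.2) :: tim μ (R.s p.2 * u) l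

/-- times to levels -/
noncomputable def lev (μ : I → ℝ) : W → List (ℝ × ι) → List (ℝ × ι)
  | _, [] => []
  | u, p :: l => (R.cv p.2 (u • μ) * p.1, p.2) :: lev μ (R.s p.2 * u) l

/-- total shift of a list of levels -/
noncomputable def sumL (L : List (ℝ × ι)) : I → ℝ := (L.map fun p => p.1 • R.rt p.2).sum

/-- end point of the unfolded path with levels `L` -/
noncomputable def End (lam μ : I → ℝ) (u : W) (L : List (ℝ × ι)) : I → ℝ :=
  lam + R.sumL L + R.endp u L • μ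

/-- nice path given by levels -/
def NP (lam μ : I → ℝ) (u : W) (L : List (ℝ × ι)) (y : W) : Prop :=
  Reg lam ∧ Reg μ ∧ R.CovP μ u lam (R.tim μ u L) ∧ TmS 0 (R.tim μ u L) 1 ∧
    Reg (y • R.End lam μ u L)

/-- the triple of a nice path -/
noncomputable def psi (lam μ : I → ℝ) (u : W) (L : List (ℝ × ι)) (y : W) : V3 I :=
  (lam, μ, y • R.End lam μ u L)

/-- the lines of the path meet the walls one at a time -/
def Gen (lam μ : I → ℝ) (u : W) (L : List (ℝ × ι)) : Prop :=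
  ∀ L1 L2, L = L1 ++ L2 → ∀ (τ : ℝ) (γ γ' : ι),
    R.cv γ (lam + R.sumL L1 + τ • (R.endp u L1 • μ)) = 0 →
    R.cv γ' (lam + R.sumL L1 + τ • (R.endp u L1 • μ)) = 0 → γ' = γ ∨ γ' = R.ng γ

/-- the path crosses the wall of `γ` downwards between `L1` and `L2`, at time `τ` -/
def Cross (lam μ : I → ℝ) (u : W) (L1 L2 : List (ℝ × ι)) (γ : ι) (τ : ℝ) : Prop :=
  TmS 0 (R.tim μ u L1) τ ∧ TmS τ (R.tim μ (R.endp u L1) L2) 1 ∧
    R.cv γ (lam + R.sumL L1 + τ • (R.endp u L1 • μ)) = 0 ∧ R.cv γ (R.endp u L1 • μ) < 0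

/-- nice path inside the face of `g` -/
def Good (g : V3 I) (lam μ : I → ℝ) (u : W) (L : List (ℝ × ι)) (y : W) : Prop :=
  R.NP lam μ u L y ∧ (∀ p ∈ L, R.Hc g (kap (y • R.rt p.2))) ∧ R.Hc g (R.psi lam μ u L y)

/-- the basis of simple roots -/
noncomputable def sbas : Module.Basis I ℝ (I → ℝ) :=
  Module.Basis.mk R.sr_indep (by rw [R.span_sr])

/-- coefficient of a simple root -/
noncomputable def crd (i : I) : (I → ℝ) →ₗ[ℝ] ℝ := R.sbas.coord i

/-- `κ - a lam - b μ` -/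
def wv (_R : RD I ι W) (a b : W) : V3 I →ₗ[ℝ] (I → ℝ) where
  toFun g := g.2.2 - a • g.1 - b • g.2.1
  map_add' g h := by
    simp only [Prod.fst_add, Prod.snd_add, smul_add]
    abel
  map_smul' c g := by
    simp only [Prod.smul_fst, Prod.smul_snd, RingHom.id_apply, smul_sub, smul_comm a c,
      smul_comm b c]

/-- action of `z` as a linear map -/
def act (_R : RD I ι W) (z : W) : (I → ℝ) →ₗ[ℝ] (I → ℝ) :=
  DistribSMul.toLinearMap ℝ (I → ℝ) z

/-- the finite family of functionals -/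
noncomputable def ell (q : W × W × W × I) : V3 I →ₗ[ℝ] ℝ :=
  R.crd q.2.2.2 ∘ₗ R.act q.2.2.1 ∘ₗ R.wv q.1 q.2.1

/-- the functional is nonnegative on the cone -/
def Valid (q : W × W × W × I) : Prop := ∀ h, R.InC h → 0 ≤ R.ell q h

/-- every element of `N` outside `Cov` splits -/
def F3P (N Cov : Set ι) : Prop :=
  (∀ β ∈ N, β ∈ R.Pos) ∧ ∀ β ∈ N, β ∉ Cov → ∃ γ ∈ N, ∃ γ' ∈ N,
    R.rt γ + R.rt γ' = R.cv β (R.rt γ) • R.rt β ∧ R.dd γ' = R.dd γ ∧ γ ≠ γ'

/-- a lattice on which `Rp` is a semigroup -/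
structure Lat where
  E : AddSubgroup (I → ℝ)
  N : ℕ
  N_pos : 0 < N
  int : ∀ v ∈ E, IntV v
  big : ∀ v, IntV v → (N : ℝ) • v ∈ E
  add : ∀ g h : V3 I, R.Rp g → R.Rp h → g.1 ∈ E → g.2.1 ∈ E → h.1 ∈ E → h.2.1 ∈ E → R.Rp (g + h)

variable {R} in
/-- LS triples with first two weights in the lattice -/
def Lat.RE (Λ : R.Lat) (f : V3 I) : Prop := R.Rp f ∧ f.1 ∈ Λ.E ∧ f.2.1 ∈ Λ.E

variable {R} in
/-- localisation of the semigroup at the face of `g` -/
def Lat.Rs (Λ : R.Lat) (g δ : V3 I) : Prop := ∃ f, Λ.RE f ∧ R.Hc g f ∧ Λ.RE (f + δ)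

theorem act_apply (z : W) (v : I → ℝ) : R.act z v = z • v := rfl

theorem wv_apply (a b : W) (g : V3 I) : R.wv a b g = g.2.2 - a • g.1 - b • g.2.1 := rfl

theorem ell_apply (q : W × W × W × I) (g : V3 I) :
    R.ell q g = R.crd q.2.2.2 (q.2.2.1 • R.wv q.1 q.2.1 g) := rfl

theorem sbas_apply (i : I) : R.sbas i = R.rt (R.sr i) := by simp [sbas]

theorem crd_expand (v : I → ℝ) : ∑ i, R.crd i v • R.rt (R.sr i) = v := by
  have := R.sbas.sum_repr v
  simpa [crd, sbas_apply] using this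

theorem crd_sum (c : I → ℝ) (i : I) : R.crd i (∑ j, c j • R.rt (R.sr j)) = c i := by
  have := R.basicB_uniq (R.crd_expand (∑ j, c j • R.rt (R.sr j))) i
  exact this

theorem crd_rt (β : ι) (i : I) : R.crd i (R.rt β) = R.cf β i := by
  rw [R.rt_eq β, R.crd_sum]

theorem crd_sr (i j : I) : R.crd i (R.rt (R.sr j)) = if i = j then 1 else 0 := by
  rw [R.crd_rt, R.cf_sr, Pi.single_apply]
  split_ifs <;> simp

theorem inQ_iff (v : I → ℝ) : R.InQ v ↔ ∀ i, ∃ z : ℤ, R.crd i v = z := by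
  constructor
  · rintro ⟨c, rfl⟩ i
    exact ⟨c i, R.crd_sum (fun j => (c j : ℝ)) i⟩
  · intro h
    choose c hc using h
    refine ⟨c, ?_⟩
    conv_lhs => rw [← R.crd_expand v]
    exact Finset.sum_congr rfl fun i _ => by rw [hc i]

theorem inC_of_rp {g : V3 I} (h : R.Rp g) : R.InC g := by
  obtain ⟨h1, l, h2, -⟩ := h
  exact ⟨h1, l, h2⟩

theorem kap_add (v w : I → ℝ) : (kap (v + w) : V3 I) = kap v + kap w := by simp [kap]

theorem kap_neg (v : I → ℝ) : (kap (-v) : V3 I) = -kap v := by simp [kap]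

theorem kap_smul (c : ℝ) (v : I → ℝ) : (kap (c • v) : V3 I) = c • kap v := by simp [kap]

theorem kap_zero : (kap 0 : V3 I) = 0 := rfl

theorem endp_nil' (u : W) : R.endp u [] = u := rfl

theorem endp_cons' (u : W) (p : ℝ × ι) (l : List (ℝ × ι)) :
    R.endp u (p :: l) = R.endp (R.s p.2 * u) l := rfl

theorem sumL_nil : R.sumL [] = 0 := rfl

theorem sumL_cons (p : ℝ × ι) (L : List (ℝ × ι)) :
    R.sumL (p :: L) = p.1 • R.rt p.2 + R.sumL L := by simp [sumL]

theorem sumL_append (a b : List (ℝ × ι)) : R.sumL (a ++ b) = R.sumL a + R.sumL b := by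
  simp [sumL]

end RD

end Pool.Agent.Lib.MP_1e3767_al
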