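import Pool.Agent.Lib.MP_1e3767_al.DpDefs

set_option linter.unusedSectionVars false

namespace Pool.Agent.Lib.MP_1e3767_al

open Finset Filter Topology

namespace RD
variable {I ι W : Type*} [Fintype I] [DecidableEq I] [Fintype ι] [Group W] [Fintype W]
  [DistribMulAction W (I → ℝ)] [SMulCommClass W ℝ (I → ℝ)] [MulAction W ι] (R : RD I ι W)

/-- for a cover the map `len_phi` is onto -/
theorem cover_surj {w : W} {β γ : ι} (h : R.Cover w β) (hγ : R.Step w γ) (hne : γ ≠ β) :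
    ∃ δ, R.Step (R.s β * w) δ ∧ R.len_phi β δ = γ := by
  classical
  have hm : β ∈ R.len_inv w := (R.len_mem_inv w β).mpr h.1
  have hc : ((R.len_inv w).erase β).card ≤ (R.len_inv (R.s β * w)).card := by
    have h1 := Finset.card_erase_add_one hm
    have h2 := h.2
    rw [R.len_eq_card, R.len_eq_card] at h2
    omega
  obtain ⟨δ, hδ, e2⟩ := Finset.surj_on_of_inj_on_of_card_le (s := R.len_inv (R.s β * w))
    (t := (R.len_inv w).erase β) (fun δ _ => R.len_phi β δ)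
    (fun δ hδ => by
      have h2 := R.len_phi_mem h.1 ((R.len_mem_inv _ δ).mp hδ)
      exact Finset.mem_erase.mpr ⟨h2.1, (R.len_mem_inv _ _).mpr h2.2⟩)
    (fun a b ha hb e => R.len_phi_inj β ((R.len_mem_inv _ a).mp ha).1
      ((R.len_mem_inv _ b).mp hb).1 e)
    hc γ (Finset.mem_erase.mpr ⟨hne, (R.len_mem_inv _ _).mpr hγ⟩)
  exact ⟨δ, (R.len_mem_inv _ δ).mp hδ, e2.symm⟩

/-- a step that is not a cover splits -/
theorem f3 {w : W} {β : ι} (h : R.Step w β) (hn : ¬ R.Cover w β) :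
    ∃ γ γ', R.Step w γ ∧ R.Step w γ' ∧ 0 < R.cv γ ((R.s β * w) • rho) ∧
      0 < R.cv γ' ((R.s β * w) • rho) ∧
      R.rt γ + R.rt γ' = R.cv β (R.rt γ) • R.rt β ∧ R.dd γ' = R.dd γ ∧ γ ≠ γ' := by
  classical
  have hm : β ∈ R.len_inv w := (R.len_mem_inv w β).mpr h
  have hc : ((R.len_inv (R.s β * w)).image (R.len_phi β)).card <
      ((R.len_inv w).erase β).card := by
    have h1 := Finset.card_erase_add_one hm
    have h2 := R.len_step h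
    have h3 : R.len (R.s β * w) + 1 ≠ R.len w := fun e => hn ⟨h, e⟩
    have h4 := Finset.card_image_le (s := R.len_inv (R.s β * w)) (f := R.len_phi β)
    rw [R.len_eq_card, R.len_eq_card] at h2 h3
    omega
  obtain ⟨γ, hγ, hni⟩ := Finset.exists_mem_notMem_of_card_lt_card hc
  obtain ⟨hne, hγ⟩ := Finset.mem_erase.mp hγ
  obtain ⟨hp, hneg⟩ := (R.len_mem_inv _ _).mp hγ
  have h1 : R.s β • γ ∉ R.Pos := fun h1 => hni (Finset.mem_image.mpr ⟨R.s β • γ,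
    (R.len_mem_inv _ _).mpr ⟨h1, by rwa [R.len_cv_s_mul, R.len_s_s_smul]⟩, by
      rw [len_phi, R.len_s_s_smul, if_pos hp]⟩)
  have h2 : 0 < R.cv γ ((R.s β * w) • rho) := by
    refine lt_of_le_of_ne (not_lt.mp fun h2 => hni (Finset.mem_image.mpr ⟨γ,
      (R.len_mem_inv _ _).mpr ⟨hp, h2⟩, ?_⟩)) (R.cv_smul_rho_ne _ _).symm
    rw [len_phi, if_neg h1]
  have h3 : R.rt γ + R.rt (R.ng (R.s β • γ)) = R.cv β (R.rt γ) • R.rt β := by
    rw [R.rt_ng, R.rt_s_smul]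
    abel
  refine ⟨γ, R.ng (R.s β • γ), ⟨hp, hneg⟩, ⟨(R.ng_mem_Pos _).mpr h1, ?_⟩, h2, ?_, h3,
    by rw [R.dd_ng, R.dd_smul], fun e => ?_⟩
  · rw [R.cv_ng, ← R.len_cv_s_mul]
    linarith
  · rw [R.len_cv_s_mul, R.smul_ng, R.len_s_s_smul, R.cv_ng]
    linarith
  · rw [← e] at h3
    have h4 : R.rt γ = (R.cv β (R.rt γ) / 2) • R.rt β := by
      rw [div_eq_inv_mul, mul_smul, ← h3]
      module
    rcases R.eq_or_eq_ng β γ _ h4 with h5 | h5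
    · exact hne h5
    · exact (R.ng_mem_Pos β).mp (h5 ▸ hp) h.1

theorem f3p_start (u : W) :
    R.F3P {γ | γ ∈ R.Pos ∧ 0 < R.cv γ (u • rho)} {γ | R.Cover (R.s γ * u) γ} := by
  refine ⟨fun β hβ => hβ.1, fun β hβ hn => ?_⟩
  have h : R.Step (R.s β * u) β := ⟨hβ.1, by
    rw [R.len_cv_s_mul, R.s_smul_self, R.cv_ng]
    linarith [hβ.2]⟩
  obtain ⟨γ, γ', h1, h2, h3, h4, h5⟩ := R.f3 h hn
  rw [R.s_mul_s_mul] at h3 h4
  exact ⟨γ, ⟨h1.1, h3⟩, γ', ⟨h2.1, h4⟩, h5⟩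

theorem f3p_end (w : W) : R.F3P {β | R.Step w β} {β | R.Cover w β} := by
  refine ⟨fun β hβ => hβ.1, fun β hβ hn => ?_⟩
  obtain ⟨γ, γ', h1, h2, -, -, h5⟩ := R.f3 hβ hn
  exact ⟨γ, h1, γ', h2, h5⟩

theorem dpEnd_lin (φ : (I → ℝ) →ₗ[ℝ] ℝ) {β γ γ' : ι} {n : ℝ}
    (h : R.rt γ + R.rt γ' = n • R.rt β) : φ (R.rt γ) + φ (R.rt γ') = n * φ (R.rt β) := by
  rw [← map_add, h, map_smul, smul_eq_mul]

theorem dpEnd_lt {β γ γ' : ι} {n : ℝ} (h : R.rt γ + R.rt γ' = n • R.rt β)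
    (hd : R.dd γ' = R.dd γ) (hne : γ ≠ γ') : n ^ 2 * R.dd β < 4 * R.dd γ := by
  have h1 : 0 < R.QQ (R.rt γ - R.rt γ') (R.rt γ - R.rt γ') :=
    not_le.mp fun hc => hne (R.rt_inj (sub_eq_zero.mp (R.eq_zero_of_QQ hc)))
  have h2 : R.QQ (R.rt γ + R.rt γ') (R.rt γ + R.rt γ') = n ^ 2 * (2 * R.dd β) := by
    rw [h, R.QQ_smul_left, R.QQ_symm, R.QQ_smul_left, R.form_QQ_rt_self]
    ring
  rw [R.QQ_sub_left, R.QQ_rt, R.QQ_rt, map_sub, map_sub, R.cv_self, R.cv_self, hd] at h1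
  rw [R.QQ_add_left, R.QQ_rt, R.QQ_rt, map_add, map_add, R.cv_self, R.cv_self, hd] at h2
  linarith

/-- a subset that is closed under splitting contains an element of `Cov` -/
theorem f3p_ext {N Cov : Set ι} (h : R.F3P N Cov) (S : Set ι) (hS : S ⊆ N) (hne : S.Nonempty)
    (hcl : ∀ β ∈ S, ∀ γ ∈ N, ∀ γ' ∈ N, ∀ n : ℝ, 0 < n → R.rt γ + R.rt γ' = n • R.rt β →
      γ ∈ S ∧ γ' ∈ S) : ∃ β ∈ S, β ∈ Cov := by
  obtain ⟨β, hβ, hmax⟩ := Set.exists_max_image S (fun β => R.dd β / R.ht (R.rt β) ^ 2)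
    (Set.toFinite S) hne
  refine ⟨β, hβ, by_contra fun hn => ?_⟩
  obtain ⟨γ, hγ, γ', hγ', h1, h2, h3⟩ := h.2 β (hS hβ) hn
  have h4 := R.dpEnd_lt h1 h2 h3
  have h5 := R.dpEnd_lin R.ht h1
  have p0 := R.ht_rt_pos (h.1 β (hS hβ))
  have p1 := R.ht_rt_pos (h.1 γ hγ)
  have p2 := R.ht_rt_pos (h.1 γ' hγ')
  have hn0 : 0 < R.cv β (R.rt γ) := by
    by_contra hc
    nlinarith [mul_nonneg (neg_nonneg.mpr (not_lt.mp hc)) p0.le]
  obtain ⟨g1, g2⟩ := hcl β hβ γ hγ γ' hγ' _ hn0 h1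
  have key : ∀ a : ℝ, 0 < a → 2 * a ≤ R.cv β (R.rt γ) * R.ht (R.rt β) →
      ¬ R.dd γ / a ^ 2 ≤ R.dd β / R.ht (R.rt β) ^ 2 := fun a ha hle hc => by
    rw [div_le_div_iff₀ (by positivity) (by positivity)] at hc
    have k1 : (2 * a) ^ 2 ≤ (R.cv β (R.rt γ) * R.ht (R.rt β)) ^ 2 := by gcongr
    have k2 := mul_le_mul_of_nonneg_left k1 (R.dd_pos β).le
    have k3 := mul_lt_mul_of_pos_right h4 (pow_pos p0 2)
    nlinarith
  rcases le_total (R.ht (R.rt γ)) (R.ht (R.rt γ')) with hl | hl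
  · exact key _ p1 (by linarith) (hmax γ g1)
  · exact key _ p2 (by linarith) (h2 ▸ hmax γ' g2)

theorem end1 {N Cov : Set ι} (h : R.F3P N Cov) (φ : (I → ℝ) →ₗ[ℝ] ℝ)
    (hφ : ∀ β ∈ N, β ∈ Cov → 0 ≤ φ (R.rt β)) : ∀ β ∈ N, 0 ≤ φ (R.rt β) := by
  intro β hβ
  obtain ⟨β0, hβ0, hmin⟩ := Set.exists_min_image N (fun β => φ (R.rt β) / R.ht (R.rt β))
    (Set.toFinite N) ⟨β, hβ⟩
  set m := φ (R.rt β0) / R.ht (R.rt β0) with hm
  have hle : ∀ γ ∈ N, m * R.ht (R.rt γ) ≤ φ (R.rt γ) := fun γ hγ =>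
    (le_div_iff₀ (R.ht_rt_pos (h.1 γ hγ))).mp (hmin γ hγ)
  obtain ⟨δ, hδ, hc⟩ := R.f3p_ext h {γ | γ ∈ N ∧ φ (R.rt γ) = m * R.ht (R.rt γ)}
    (fun _ hγ => hγ.1) ⟨β0, hβ0, by
      rw [hm, div_mul_cancel₀ _ (R.ht_rt_pos (h.1 β0 hβ0)).ne']⟩
    (fun b hb γ hγ γ' hγ' n _ he => by
      have h1 := R.dpEnd_lin φ he
      have h2 := R.dpEnd_lin R.ht he
      have h3 := hle γ hγ
      have h4 := hle γ' hγ'
      have h5 : m * R.ht (R.rt γ) + m * R.ht (R.rt γ') = φ (R.rt γ) + φ (R.rt γ') := by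
        rw [← mul_add, h1, h2, hb.2]
        ring
      exact ⟨⟨hγ, by linarith⟩, hγ', by linarith⟩)
  have h1 := hφ δ hδ.1 hc
  rw [hδ.2] at h1
  have h2 : 0 ≤ m := nonneg_of_mul_nonneg_left h1 (R.ht_rt_pos (h.1 δ hδ.1))
  exact (mul_nonneg h2 (R.ht_rt_pos (h.1 β hβ)).le).trans (hle β hβ)

theorem end2 {N Cov : Set ι} (h : R.F3P N Cov) {J : Type*} (φ : J → (I → ℝ) →ₗ[ℝ] ℝ)
    (hφ : ∀ j, ∀ β ∈ N, 0 ≤ φ j (R.rt β)) {β : ι} (hβ : β ∈ N) (h0 : ∀ j, φ j (R.rt β) = 0) :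
    ∃ β' ∈ N, β' ∈ Cov ∧ ∀ j, φ j (R.rt β') = 0 := by
  obtain ⟨δ, hδ, hc⟩ := R.f3p_ext h {γ | γ ∈ N ∧ ∀ j, φ j (R.rt γ) = 0}
    (fun _ hγ => hγ.1) ⟨β, hβ, h0⟩
    (fun b hb γ hγ γ' hγ' n _ he => by
      have h1 : ∀ j, φ j (R.rt γ) + φ j (R.rt γ') = 0 := fun j => by
        rw [R.dpEnd_lin (φ j) he, hb.2 j, mul_zero]
      exact ⟨⟨hγ, fun j => by linarith [h1 j, hφ j γ hγ, hφ j γ' hγ']⟩,
        hγ', fun j => by linarith [h1 j, hφ j γ hγ, hφ j γ' hγ']⟩)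
  exact ⟨δ, hδ.1, hc, hδ.2⟩

theorem end3 {N Cov : Set ι} (h : R.F3P N Cov) (φ : I → (I → ℝ) →ₗ[ℝ] ℝ)
    (hφ : ∀ j, ∀ β ∈ N, ∃ n : ℕ, φ j (R.rt β) = n) (hne : ∀ β ∈ N, ∃ j, φ j (R.rt β) ≠ 0)
    {i : I} {β : ι} (hβ : β ∈ N) (h1 : ∀ j, φ j (R.rt β) = if j = i then 1 else 0) :
    ∃ β' ∈ N, β' ∈ Cov ∧ ∀ j, φ j (R.rt β') = if j = i then 1 else 0 := by
  obtain ⟨b, hb, hmax⟩ := Set.exists_max_image
    {γ | γ ∈ N ∧ ∀ j, φ j (R.rt γ) = if j = i then 1 else 0} R.dd (Set.toFinite _) ⟨β, hβ, h1⟩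
  refine ⟨b, hb.1, by_contra fun hn => ?_, hb.2⟩
  obtain ⟨γ, hγ, γ', hγ', e1, e2, e3⟩ := h.2 b hb.1 hn
  have h0 : ∀ j, ∀ δ ∈ N, 0 ≤ φ j (R.rt δ) := fun j δ hδ => by
    obtain ⟨n, hn⟩ := hφ j δ hδ
    rw [hn]
    positivity
  have h2 : ∀ j, j ≠ i → φ j (R.rt γ) = 0 ∧ φ j (R.rt γ') = 0 := fun j hj => by
    have := R.dpEnd_lin (φ j) e1
    rw [hb.2 j, if_neg hj, mul_zero] at this
    exact ⟨by linarith [h0 j γ hγ, h0 j γ' hγ'], by linarith [h0 j γ hγ, h0 j γ' hγ']⟩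
  obtain ⟨a, ha⟩ := hφ i γ hγ
  obtain ⟨a', ha'⟩ := hφ i γ' hγ'
  have ha0 : a ≠ 0 := fun e => by
    obtain ⟨j, hj⟩ := hne γ hγ
    by_cases hji : j = i
    · exact hj (by rw [hji, ha, e, Nat.cast_zero])
    · exact hj (h2 j hji).1
  have ha0' : a' ≠ 0 := fun e => by
    obtain ⟨j, hj⟩ := hne γ' hγ'
    by_cases hji : j = i
    · exact hj (by rw [hji, ha', e, Nat.cast_zero])
    · exact hj (h2 j hji).2
  have h3 := R.dpEnd_lin (φ i) e1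
  rw [hb.2 i, if_pos rfl, mul_one, ha, ha'] at h3
  have h4 := R.dpEnd_lt e1 e2 e3
  have h5 := R.dd_symm γ b
  obtain ⟨z, hz⟩ := R.cv_int γ (R.intV_rt b)
  rw [← h3] at h4 h5
  rw [hz] at h5
  have p0 := R.dd_pos b
  have p1 := R.dd_pos γ
  have q1 : (1 : ℝ) ≤ a := by exact_mod_cast Nat.pos_of_ne_zero ha0
  have q2 : (1 : ℝ) ≤ a' := by exact_mod_cast Nat.pos_of_ne_zero ha0'
  have h6 : (0 : ℝ) < z := (mul_pos_iff_of_pos_left p1).mp (by rw [← h5]; positivity)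
  have h7 : ((a : ℝ) + a') * z < 4 := by
    refine lt_of_mul_lt_mul_right ?_ p1.le
    calc ((a : ℝ) + a') * z * R.dd γ = ((a : ℝ) + a') * (R.dd γ * z) := by ring
      _ = ((a : ℝ) + a') ^ 2 * R.dd b := by rw [← h5]; ring
      _ < _ := h4
  have h8 : (0 : ℤ) < z := by exact_mod_cast h6
  have h9 : ((a : ℤ) + a') * z < 4 := by exact_mod_cast h7
  have h10 : z = 1 := by
    by_contra hc
    have : (2 : ℤ) ≤ a + a' := by omega
    nlinarith [show (2 : ℤ) ≤ z by omega]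
  rw [h10] at h5 h9
  have h11 : R.dd b < R.dd γ := by
    push_cast at h5
    nlinarith
  rcases (by omega : a = 1 ∨ a' = 1) with e | e
  · refine absurd (hmax γ ⟨hγ, fun j => ?_⟩) (not_le.mpr h11)
    split_ifs with hj
    · rw [hj, ha, e, Nat.cast_one]
    · exact (h2 j hj).1
  · refine absurd (hmax γ' ⟨hγ', fun j => ?_⟩) (not_le.mpr (e2 ▸ h11))
    split_ifs with hj
    · rw [hj, ha', e, Nat.cast_one]
    · exact (h2 j hj).2

/-- chain of covers with labels in the lineality space of a convex cone -/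
theorem chain_lin {μ : I → ℝ} (hμ : Reg μ) (T : Set (I → ℝ)) (h0 : (0 : I → ℝ) ∈ T)
    (hadd : ∀ a ∈ T, ∀ b ∈ T, a + b ∈ T) (hsm : ∀ c : ℝ, 0 ≤ c → ∀ a ∈ T, c • a ∈ T)
    {u v : W} (hle : R.Le v u) (h1 : u • μ - v • μ ∈ T)
    (h2 : ∀ ζ, R.Le v ζ → R.Le ζ u → ζ • μ - u • μ ∈ T) :
    ∃ bs, R.CChain u bs ∧ R.endb u bs = v ∧ ∀ β ∈ bs, R.rt β ∈ T ∧ -R.rt β ∈ T := by
  obtain ⟨n, hn⟩ : ∃ n, R.len u - R.len v = n := ⟨_, rfl⟩
  induction n using Nat.strong_induction_on generalizing u v with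
  | _ n ih =>
    have h3 := h2 v (R.le_refl' v) hle
    by_cases hl : R.len v + 2 ≤ R.len u
    · obtain ⟨p, q, p0, p1, ps, pe⟩ := R.conv hμ hle hl
      obtain ⟨τ, -, hτ⟩ := Finset.exists_ne_zero_of_sum_ne_zero (p1.trans_ne one_ne_zero)
      obtain ⟨a1, a2, a3, a4⟩ := ps τ hτ
      classical
      have hS : ∑ ζ ∈ univ.erase τ, p ζ • (ζ • μ - u • μ) ∈ T := by
        refine Finset.sum_induction _ (· ∈ T) (fun a b ha hb => hadd a ha b hb) h0 fun ζ _ => ?_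
        by_cases hz : p ζ = 0
        · rw [hz, zero_smul]
          exact h0
        · exact hsm _ (p0 ζ) _ (h2 ζ (ps ζ hz).1 (ps ζ hz).2.1)
      have hq : (1 - q) • (u • μ - v • μ) ∈ T := by
        rcases le_total 0 (1 - q) with h | h
        · exact hsm _ h _ h1
        · rw [← neg_sub (v • μ), smul_neg, ← neg_smul]
          exact hsm _ (neg_nonneg.2 h) _ h3
      have e : ∑ ζ, p ζ • (ζ • μ - u • μ) = (1 - q) • (v • μ - u • μ) := by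
        simp only [smul_sub]
        rw [Finset.sum_sub_distrib, pe, ← Finset.sum_smul, p1]
        generalize u • μ = a, v • μ = b
        module
      rw [← Finset.add_sum_erase _ _ (Finset.mem_univ τ)] at e
      have h4 : u • μ - τ • μ ∈ T := by
        have h5 := hsm (p τ)⁻¹ (inv_nonneg.2 (p0 τ)) _ (hadd _ hS _ hq)
        rw [eq_sub_of_add_eq' e] at h5
        have e2 : (1 - q) • (v • μ - u • μ) - p τ • (τ • μ - u • μ) + (1 - q) • (u • μ - v • μ) =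
            p τ • (u • μ - τ • μ) := by
          generalize u • μ = a, v • μ = b, τ • μ = c
          module
        rwa [e2, smul_smul, inv_mul_cancel₀ hτ, one_smul] at h5
      have l1 := R.len_lt_of_le a2 a3
      have l2 := R.len_lt_of_le a1 a4.symm
      obtain ⟨b1, c1, e1, t1⟩ := ih _ (by omega) a2 h4
        (fun ζ x y => h2 ζ (R.le_trans' a1 x) y) rfl
      obtain ⟨b2, c2, e2, t2⟩ := ih _ (by omega) a1
        (by simpa using hadd _ (h2 τ a1 a2) _ h1)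
        (fun ζ x y => by simpa using hadd _ (h2 ζ x (R.le_trans' y a2)) _ h4) rfl
      refine ⟨b1 ++ b2, (R.cchain_append _ _ _).2 ⟨c1, by rwa [e1]⟩, ?_, fun β hβ => ?_⟩
      · rw [R.endb_append, e1, e2]
      · exact (List.mem_append.1 hβ).elim (t1 β) (t2 β)
    · obtain ⟨a, c, e⟩ := R.exists_cchain hle
      refine ⟨a, c, e, fun β hβ => ?_⟩
      have l := R.cchain_len c
      rw [e] at l
      obtain ⟨γ, rfl⟩ : ∃ γ, a = [γ] :=
        List.length_eq_one_iff.1 (le_antisymm (by omega) (List.length_pos_of_mem hβ))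
      obtain rfl : β = γ := by simpa using hβ
      have hc : R.cv β (u • μ) < 0 := (R.cv_neg_iff_of_reg β u hμ).2 c.1.1.2
      have hv : v • μ = u • μ - R.cv β (u • μ) • R.rt β := by
        rw [← e, ← R.s_smul', ← mul_smul]
        rfl
      have i0 : 0 ≤ (-R.cv β (u • μ))⁻¹ := inv_nonneg.2 (neg_nonneg.2 hc.le)
      have i1 := hsm _ i0 _ h3
      have i2 := hsm _ i0 _ h1
      rw [hv, sub_sub_cancel_left, ← neg_smul, smul_smul, inv_mul_cancel₀ (neg_ne_zero.2 hc.ne),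
        one_smul] at i1
      rw [hv, sub_sub_cancel, smul_smul, inv_neg, neg_mul, inv_mul_cancel₀ hc.ne, neg_smul,
        one_smul] at i2
      exact ⟨i1, i2⟩

/-- a point that lies on one wall only -/
theorem semireg {p : I → ℝ} {γ : ι} (h0 : R.cv γ p = 0)
    (h1 : ∀ γ', R.cv γ' p = 0 → γ' = γ ∨ γ' = R.ng γ) :
    ∃ (x : W) (i : I), x • γ = R.sr i ∧ (x • p) i = 0 ∧ ∀ j, j ≠ i → 0 < (x • p) j := by
  obtain ⟨x, hx⟩ := R.exists_dom p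
  have hz : ∀ j, (x • p) j = 0 → x • γ = R.sr j ∨ x • γ = R.ng (R.sr j) := fun j hj => by
    rw [← R.cv_sr j (x • p), R.cv_smul] at hj
    rcases h1 _ hj with h | h
    · exact Or.inl (by rw [← h, smul_inv_smul])
    · exact Or.inr (by rw [← R.ng_ng γ, ← h, R.smul_ng, smul_inv_smul])
  obtain ⟨i, hi⟩ : ∃ i, (x • p) i = 0 := by
    by_contra hc
    have hr : Reg (x • p) := fun j => (hx j).lt_of_ne fun h => hc ⟨j, h.symm⟩
    rw [← R.cv_smul_smul x] at h0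
    by_cases hp : x • γ ∈ R.Pos
    · exact (R.cv_pos hp hr).ne' h0
    · exact (R.cv_neg hp hr).ne h0
  have hj : ∀ j, j ≠ i → 0 < (x • p) j := fun j hj => by
    refine (hx j).lt_of_ne fun h => hj (R.sr_inj ?_)
    have n1 : ∀ a b, R.sr a ≠ R.ng (R.sr b) := fun a b e =>
      (R.ng_mem_Pos _).1 (e ▸ R.sr_pos a) (R.sr_pos b)
    rcases hz j h.symm with a | a <;> rcases hz i hi with b | b
    · exact a.symm.trans b
    · exact absurd (a.symm.trans b) (n1 _ _)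
    · exact absurd (b.symm.trans a) (n1 _ _)
    · rw [← R.ng_ng (R.sr j), ← a, b, R.ng_ng]
  rcases hz i hi with h | h
  · exact ⟨x, i, h, hi, hj⟩
  · refine ⟨R.s (R.sr i) * x, i, ?_, ?_, ?_⟩
    · rw [mul_smul, h, R.smul_ng, R.s_smul_self, R.ng_ng]
    · rwa [mul_smul, R.bruhat_sr_fix hi]
    · rwa [mul_smul, R.bruhat_sr_fix hi]

theorem exists_reg_of_ne {p : I → ℝ} (h : ∀ γ, R.cv γ p ≠ 0) : ∃ x : W, Reg (x • p) := by
  obtain ⟨x, hx⟩ := R.exists_dom p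
  refine ⟨x, fun i => (hx i).lt_of_ne' ?_⟩
  rw [← R.cv_sr i (x • p), R.cv_smul]
  exact h _

theorem frame_unique (R : RD I ι W) {p : I → ℝ} {x z : W} (hx : Reg (x • p)) (hz : Dom (z • p)) :
    z = x := by
  exact mul_inv_eq_one.1 (R.eq_one_of_reg hx (by rwa [mul_smul, inv_smul_smul]))

theorem exists_frame (φ : (I → ℝ) →ₗ[ℝ] ℝ) : ∃ z : W, ∀ j, 0 ≤ φ (z⁻¹ • R.rt (R.sr j)) := by
  obtain ⟨z, hz⟩ := Finite.exists_max fun z : W => φ (z⁻¹ • (rho : I → ℝ))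
  refine ⟨z, fun j => ?_⟩
  have h := hz (R.s (R.sr j) * z)
  rw [mul_inv_rev, R.s_inv, mul_smul, R.s_sr_smul, show (rho : I → ℝ) j = 1 from rfl, one_smul,
    smul_sub, map_sub] at h
  linarith

/-- a dominant functional whose kernel is spanned by roots is a fundamental coweight -/
theorem fund (φ : (I → ℝ) →ₗ[ℝ] ℝ) (hφ : φ ≠ 0)
    (hk : ∀ v, φ v = 0 → v ∈ Submodule.span ℝ {v | ∃ γ, v = R.rt γ ∧ φ v = 0}) (z : W)
    (hz : ∀ j, 0 ≤ φ (z⁻¹ • R.rt (R.sr j))) :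
    ∃ (i : I) (c : ℝ), 0 < c ∧ ∀ v, φ v = c * R.crd i (z • v) := by
  have hexp : ∀ v, φ v = ∑ j, R.crd j (z • v) * φ (z⁻¹ • R.rt (R.sr j)) := fun v => by
    have h := congrArg (φ ∘ₗ R.act z⁻¹) (R.crd_expand (z • v))
    rw [map_sum] at h
    simp only [map_smul, LinearMap.comp_apply, R.act_apply, inv_smul_smul, smul_eq_mul] at h
    exact h.symm
  obtain ⟨i, hi⟩ : ∃ i, φ (z⁻¹ • R.rt (R.sr i)) ≠ 0 := by
    by_contra hc
    refine hφ (LinearMap.ext fun v => ?_)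
    rw [hexp v]
    exact Finset.sum_eq_zero fun j _ => by rw [not_not.1 (not_exists.1 hc j), mul_zero]
  have hker : ∀ v, φ v = 0 → R.crd i (z • v) = 0 := fun v hv => by
    refine (Submodule.span_le (p := LinearMap.ker (R.crd i ∘ₗ R.act z))).2 ?_ (hk v hv)
    rintro _ ⟨γ, rfl, h⟩
    change R.crd i (z • R.rt γ) = 0
    rw [hexp] at h
    refine (mul_eq_zero.1 ?_).resolve_right hi
    rw [← R.smul_rt] at h ⊢
    by_cases hp : z • γ ∈ R.Pos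
    · refine (Finset.sum_eq_zero_iff_of_nonneg fun j _ => mul_nonneg ?_ (hz j)).1 h i (mem_univ i)
      rw [R.crd_rt]
      exact_mod_cast R.pos_cf _ hp j
    · refine (Finset.sum_eq_zero_iff_of_nonpos fun j _ =>
        mul_nonpos_of_nonpos_of_nonneg ?_ (hz j)).1 h i (mem_univ i)
      rw [R.crd_rt]
      exact_mod_cast R.neg_cf _ hp j
  refine ⟨i, _, (hz i).lt_of_ne' hi, fun v => ?_⟩
  have h := hker (φ (z⁻¹ • R.rt (R.sr i)) • v - φ v • z⁻¹ • R.rt (R.sr i)) (by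
    rw [map_sub, φ.map_smul, φ.map_smul, smul_eq_mul, smul_eq_mul, mul_comm, sub_self])
  rw [smul_sub, smul_comm z, smul_comm z, smul_inv_smul, map_sub, (R.crd i).map_smul,
    (R.crd i).map_smul, R.crd_sr, if_pos rfl, smul_eq_mul, smul_eq_mul] at h
  linarith

theorem cv_ne_comb {γ γ' : ι} (h1 : γ' ≠ γ) (h2 : γ' ≠ R.ng γ) {a b : ℝ} (ha : a ≠ 0) :
    ∃ v, a * R.cv γ v - b * R.cv γ' v ≠ 0 := by
  by_contra hc
  have h : ∀ v, a * R.cv γ v - b * R.cv γ' v = 0 := fun v => not_not.1 (not_exists.1 hc v)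
  have h3 : ∀ v, R.QQ (R.rt γ - (R.dd γ * b / (a * R.dd γ')) • R.rt γ') v = 0 := fun v => by
    have h4 := (R.dd_pos γ').ne'
    rw [R.QQ_sub_left, R.QQ_smul_left, R.QQ_rt, R.QQ_rt]
    field_simp
    linear_combination R.dd γ * h v
  rcases R.eq_or_eq_ng _ _ _ (sub_eq_zero.1 (R.eq_zero_of_QQ (h3 _).le)) with e | e
  · exact h1 e.symm
  · exact h2 (by rw [e, R.ng_ng])

end RD

end Pool.Agent.Lib.MP_1e3767_al
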