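import Pool.Agent.Lib.MP_1e3767_al.DpDefs

set_option linter.unusedSectionVars false

namespace Pool.Agent.Lib.MP_1e3767_al

open Finset Filter Topology

namespace RD
variable {I ι W : Type*} [Fintype I] [DecidableEq I] [Fintype ι] [Group W] [Fintype W]
  [DistribMulAction W (I → ℝ)] [SMulCommClass W ℝ (I → ℝ)] [MulAction W ι] (R : RD I ι W)

/-- the conclusion of the folding lemma -/
def dpFoldC (μ : I → ℝ) (c : ℝ) (l : List (ℝ × ι)) (u : W) (P : I → ℝ) (a : ℝ) (x : W) : Prop :=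
  ∃ l', R.IsChain (x * u) a l' ∧
    (∀ τ ∈ Set.Icc a 1, Dom (x • P + R.path μ (x * u) l' τ)) ∧
    (∃ y : W, x • P + R.path μ (x * u) l' 1 = y • (P + R.icpt μ u l + R.endp u l • μ)) ∧
    (IntV (c • P) → R.IsLS (c • μ) u l → R.IsLS (c • μ) (x * u) l')

theorem dpFold_tm {l : List (ℝ × ι)} : ∀ {a b : ℝ}, TmW a l b → a ≤ b := by
  induction l with
  | nil => exact fun h => h
  | cons p l ih => exact fun h => h.1.trans (ih h.2)

theorem dpFold_smul (μ P : I → ℝ) (x u : W) (τ : ℝ) :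
    x • (P + τ • (u • μ)) = x • P + τ • ((x * u) • μ) := by
  rw [smul_add, smul_comm x τ, mul_smul]

/-- one more turn in front of a folded path -/
theorem dpFold_cons {μ C C' : I → ℝ} {v : W} {a σ : ℝ} {β : ι} {l : List (ℝ × ι)}
    (hl : R.IsChain (R.s β * v) σ l) (ha : Dom (C + a • (v • μ))) (hσ : Dom (C + σ • (v • μ)))
    (hC : C + (R.cv β (v • μ) * σ) • R.rt β = C') (h1 : σ ≤ 1)
    (hd : ∀ τ ∈ Set.Icc σ 1, Dom (C' + R.path μ (R.s β * v) l τ)) :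
    (∀ τ ∈ Set.Icc a 1, Dom (C + R.path μ v ((σ, β) :: l) τ)) ∧
      C + R.path μ v ((σ, β) :: l) 1 = C' + R.path μ (R.s β * v) l 1 := by
  have e : ∀ τ, σ ≤ τ → C + R.path μ v ((σ, β) :: l) τ = C' + R.path μ (R.s β * v) l τ := by
    intro τ h
    rw [← hC]
    simp only [path, min_eq_right h]
    abel
  refine ⟨fun τ hτ => ?_, e 1 h1⟩
  rcases le_total τ σ with h | h
  · rw [R.path_of_le μ _ _ (t := τ) (fun p hp => by
      rcases List.mem_cons.1 hp with hp | hp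
      · rw [hp]; exact h
      · exact h.trans (R.isChain_mem hl p hp).1)]
    exact fold_dom_between ha hσ hτ.1 h
  · rw [e τ h]
    exact hd τ ⟨h, hτ.2⟩

/-- bouncing at the walls until the segment stays dominant -/
theorem dpFold_ind {μ : I → ℝ} (hμ : Dom μ) (c : ℝ) (l : List (ℝ × ι)) (u : W) (P : I → ℝ)
    {b : ℝ} (hb1 : b ≤ 1)
    (hd : ∀ (a : ℝ) (x : W), a ≤ b → Dom (x • P + a • ((x * u) • μ)) →
      Dom (x • P + b • ((x * u) • μ)) → R.dpFoldC μ c l u P a x)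
    (a : ℝ) (x : W) (hab : a ≤ b) (hx : Dom (x • P + a • ((x * u) • μ))) :
    R.dpFoldC μ c l u P a x := by
  obtain ⟨N, hN⟩ : ∃ N, R.len (x * u) = N := ⟨_, rfl⟩
  induction N using Nat.strong_induction_on generalizing a x with
  | _ N ih =>
  by_cases hb : Dom (x • P + b • ((x * u) • μ))
  · exact hd a x hab hx hb
  obtain ⟨i, σ, hi, haσ, hσb, hD, h0⟩ := fold_hit hab hx hb
  have hneg : ((x * u) • (rho : I → ℝ)) i < 0 := by
    rcases lt_or_gt_of_ne (R.smul_rho_ne (x * u) i) with h | h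
    · exact h
    · have := R.cv_ge_of_rho_pos (β := R.sr i) (w := x * u) (by rwa [R.cv_sr]) hμ
      rw [R.cv_sr] at this
      exact absurd hi (not_lt.2 this)
  have hass : R.s (R.sr i) * x * u = R.s (R.sr i) * (x * u) := mul_assoc _ _ _
  have hx' : Dom ((R.s (R.sr i) * x) • P + σ • ((R.s (R.sr i) * x * u) • μ)) := by
    rw [← dpFold_smul, mul_smul, dpFold_smul, R.s_sr_smul]
    have : (x • P + σ • ((x * u) • μ)) i = 0 := by simpa using h0
    rw [this, zero_smul, sub_zero]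
    exact hD
  obtain ⟨l', q1, q2, ⟨y, q3⟩, q4⟩ := ih _
    (by rw [← hN, hass]; have := R.len_sr_neg hneg; omega) σ (R.s (R.sr i) * x) hσb hx' rfl
  have hnext : x • P + (R.cv (R.sr i) ((x * u) • μ) * σ) • R.rt (R.sr i) =
      (R.s (R.sr i) * x) • P := by
    rw [mul_smul (R.s (R.sr i)) x, R.s_sr_smul, R.cv_sr, sub_eq_add_neg, ← neg_smul]
    congr 2
    linarith
  rw [hass] at q1 q2 q3 q4
  obtain ⟨r1, r2⟩ := R.dpFold_cons q1 hx hD hnext (hσb.trans hb1) q2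
  refine ⟨(σ, R.sr i) :: l', ⟨R.cover_sr hneg, haσ, hσb.trans hb1, q1⟩, r1, ⟨y, r2.trans q3⟩,
    fun h1 h2 => ⟨?_, q4 h1 h2⟩⟩
  obtain ⟨z, hz⟩ := R.intV_smul h1 x i
  refine ⟨-z, ?_⟩
  rw [smul_comm x c P, Pi.smul_apply, smul_eq_mul] at hz
  show R.cv (R.sr i) ((x * u) • c • μ) * σ = _
  rw [R.cv_sr, smul_comm (x * u) c μ, Pi.smul_apply, smul_eq_mul, Int.cast_neg, ← hz]
  linear_combination c * h0

/-- folding with an integrality flag, from direction `u`, intercept `P`, time `a`, frame `x` -/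
theorem dp_fold_aux {μ : I → ℝ} (hμ : Dom μ) (c : ℝ) (l : List (ℝ × ι)) :
    ∀ (u : W) (P : I → ℝ) (a : ℝ) (x : W), R.CovP μ u P l → TmW a l 1 →
      Dom (x • (P + a • (u • μ))) →
      ∃ l', R.IsChain (x * u) a l' ∧
        (∀ τ ∈ Set.Icc a 1, Dom (x • P + R.path μ (x * u) l' τ)) ∧
        (∃ y : W, x • P + R.path μ (x * u) l' 1 = y • (P + R.icpt μ u l + R.endp u l • μ)) ∧
        (IntV (c • P) → R.IsLS (c • μ) u l → R.IsLS (c • μ) (x * u) l') := by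
  induction l with
  | nil =>
    intro u P a x _ ht hx
    rw [dpFold_smul] at hx
    refine R.dpFold_ind hμ c [] u P le_rfl (fun a x _ hx hb => ?_) a x ht hx
    refine ⟨[], trivial, fun τ hτ => fold_dom_between hx hb hτ.1 hτ.2, ⟨x, ?_⟩,
      fun _ _ => trivial⟩
    simp only [path, icpt, endp_nil, add_zero, one_smul, smul_add, mul_smul]
  | cons p l ih =>
    intro u P a x hc ht hx
    rw [dpFold_smul] at hx
    obtain ⟨⟨x', hr, hcov⟩, hc⟩ := hc
    have hp1 : p.1 ≤ 1 := dpFold_tm ht.2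
    refine R.dpFold_ind hμ c (p :: l) u P hp1 (fun a x hab hx hb => ?_) a x ht.1 hx
    obtain rfl : x = x' := by
      have h1 : x * x'⁻¹ = 1 := R.eq_one_of_reg hr (by
        rw [mul_smul, inv_smul_smul, dpFold_smul]; exact hb)
      exact mul_inv_eq_one.1 h1
    have hass : x * (R.s p.2 * u) = R.s (x • p.2) * (x * u) := by
      rw [R.s_conj]; group
    obtain ⟨l', q1, q2, ⟨y, q3⟩, q4⟩ := ih _ _ p.1 x hc ht.2 (by
      have : P + (R.cv p.2 (u • μ) * p.1) • R.rt p.2 + p.1 • ((R.s p.2 * u) • μ) =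
          P + p.1 • (u • μ) := by
        rw [mul_smul (R.s p.2) u μ, R.s_smul', smul_sub, smul_smul p.1, mul_comm p.1]
        abel
      rw [this, dpFold_smul]
      exact hb)
    have hnext : x • P + (R.cv (x • p.2) ((x * u) • μ) * p.1) • R.rt (x • p.2) =
        x • (P + (R.cv p.2 (u • μ) * p.1) • R.rt p.2) := by
      rw [mul_smul x u, R.cv_smul_smul, R.smul_rt, smul_add, smul_comm x]
    rw [hass] at q1 q2 q3 q4
    obtain ⟨r1, r2⟩ := R.dpFold_cons q1 hx hb hnext hp1 q2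
    refine ⟨(p.1, x • p.2) :: l', ⟨hcov, hab, hp1, q1⟩, r1, ⟨y, (r2.trans q3).trans ?_⟩,
      fun h1 h2 => ⟨?_, q4 ?_ h2.2⟩⟩
    · simp only [icpt, endp_cons]
      congr 1
      abel
    · show ∃ z : ℤ, R.cv (x • p.2) ((x * u) • c • μ) * p.1 = z
      rw [mul_smul x u, R.cv_smul_smul]
      exact h2.1
    · obtain ⟨z, hz⟩ := h2.1
      rw [smul_comm u c μ, map_smul, smul_eq_mul, mul_assoc] at hz
      intro i
      obtain ⟨z1, hz1⟩ := h1 i
      obtain ⟨z2, hz2⟩ := R.intV_rt p.2 i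
      refine ⟨z1 + z * z2, ?_⟩
      rw [smul_add, smul_smul, hz, Pi.add_apply, hz1, Pi.smul_apply, hz2, smul_eq_mul]
      push_cast
      rfl

/-- folding with an integrality flag -/
theorem dp_fold {lam μ κ : I → ℝ} (hl : Dom lam) (hμ : Dom μ) (hκ : Dom κ) {u y : W}
    {l : List (ℝ × ι)} (hc : R.CovP μ u lam l) (ht : TmW 0 l 1)
    (he : y • (lam + R.icpt μ u l + R.endp u l • μ) = κ) (c : ℝ) :
    ∃ l', R.DomDat lam μ κ l' ∧
      (IntV (c • lam) → IntV (c • μ) → R.IsLS (c • μ) u l → R.IsLS (c • μ) R.w0 l') := by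
  obtain ⟨l', q1, q2, ⟨y', q3⟩, q4⟩ := R.dp_fold_aux hμ c l u lam 0 1 hc ht (by simpa using hl)
  simp only [one_mul, one_smul] at q1 q2 q3 q4
  obtain ⟨as, ha1, ha2⟩ := R.exists_cchain (R.le_w0 u)
  obtain ⟨bs, hb1, hb2⟩ := R.exists_cchain (R.one_le (R.endp u l'))
  have cA : ∀ p ∈ (as.map fun β => ((0 : ℝ), β)), p.1 = 0 := by
    intro p hp
    obtain ⟨β, -, rfl⟩ := List.mem_map.1 hp
    rfl
  have cB : ∀ p ∈ (bs.map fun β => ((1 : ℝ), β)), p.1 = 1 := by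
    intro p hp
    obtain ⟨β, -, rfl⟩ := List.mem_map.1 hp
    rfl
  have hB1 : R.IsChain (R.endp u l') 0 (bs.map fun β => ((1 : ℝ), β)) :=
    R.isChain_map_const hb1 zero_le_one le_rfl
  have hlB : R.IsChain u 0 (l' ++ bs.map fun β => ((1 : ℝ), β)) := by
    rw [R.isChain_append]
    exact ⟨q1, hB1, fun p hp q hq => (R.isChain_mem q1 p hp).2.trans (cB q hq).ge⟩
  have hpath : ∀ τ ∈ Set.Icc (0 : ℝ) 1, R.path μ R.w0 ((as.map fun β => ((0 : ℝ), β)) ++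
      (l' ++ bs.map fun β => ((1 : ℝ), β))) τ = R.path μ u l' τ := by
    intro τ hτ
    rw [R.path_append, R.corr_const μ _ _ cA,
      min_eq_right hτ.1, zero_smul, add_zero, R.endp_map_const, ha2, R.path_append,
      R.path_of_le μ _ _ (t := τ) (fun p hp => hτ.2.trans (cB p hp).ge), ← R.path_eq_corr]
  have h1 : (1 : ℝ) ∈ Set.Icc (0 : ℝ) 1 := ⟨zero_le_one, le_rfl⟩
  refine ⟨(as.map fun β => ((0 : ℝ), β)) ++ (l' ++ bs.map fun β => ((1 : ℝ), β)),
    ⟨⟨?_, ?_⟩, fun τ hτ => ?_, ?_⟩, fun i1 i2 i3 => ?_⟩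
  · rw [R.isChain_append, R.endp_map_const, ha2]
    exact ⟨R.isChain_map_const ha1 le_rfl zero_le_one, hlB,
      fun p hp q hq => (cA p hp).le.trans (R.isChain_mem hlB q hq).1⟩
  · rw [R.endp_append, R.endp_append, R.endp_map_const, R.endp_map_const, ha2, hb2]
  · rw [hpath τ hτ]
    exact q2 τ hτ
  · rw [hpath 1 h1]
    exact R.end_eq hκ (q2 1 h1) he q3
  · rw [R.isLS_append, R.endp_map_const, ha2, R.isLS_append]
    exact ⟨R.isLS_const_zero _ _ _ cA, q4 i1 i3, R.isLS_const_one i2 _ _ cB⟩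

/-- scaling a dominant datum -/
theorem domDat_smul {lam μ κ : I → ℝ} {l : List (ℝ × ι)} (h : R.DomDat lam μ κ l) {c : ℝ}
    (hc : 0 ≤ c) : R.DomDat (c • lam) (c • μ) (c • κ) l := by
  obtain ⟨hm, hd, he⟩ := h
  refine ⟨hm, fun t ht i => ?_, ?_⟩
  · rw [R.path_smul, ← smul_add]
    exact mul_nonneg hc (hd t ht i)
  · rw [R.path_smul, ← smul_add, he]

/-- straight unfolded paths, real form -/
theorem inC_prv {lam μ : I → ℝ} (hl : Dom lam) (hμ : Dom μ) (η y : W)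
    (hκ : Dom (y • (lam + η • μ))) : R.InC (lam, μ, y • (lam + η • μ)) := by
  obtain ⟨l, h, -⟩ := R.dp_fold hl hμ hκ (u := η) (y := y) (l := []) trivial zero_le_one
    (by simp only [icpt, endp_nil, add_zero]) 1
  exact ⟨hμ, l, h⟩

/-- straight unfolded paths, integral form -/
theorem rp_prv {lam μ : I → ℝ} (hl : Dom lam) (hμ : Dom μ) (hli : IntV lam) (hμi : IntV μ)
    (η y : W) (hκ : Dom (y • (lam + η • μ))) : R.Rp (lam, μ, y • (lam + η • μ)) := by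
  obtain ⟨l, h, h'⟩ := R.dp_fold hl hμ hκ (u := η) (y := y) (l := []) trivial zero_le_one
    (by simp only [icpt, endp_nil, add_zero]) 1
  simp only [one_smul] at h'
  exact ⟨hμ, l, h, h' hli hμi trivial⟩

theorem inL_of_rp {g : V3 I} (h : R.Rp g) (h1 : IntV g.1) (h2 : IntV g.2.1) : R.InL g := by
  obtain ⟨-, l, ⟨hm, -, he⟩, hls⟩ := h
  refine ⟨h1, h2, ?_⟩
  rw [R.path_eq_corr, R.corr_of_ge _ _ _ (fun p hp => (R.isChain_mem hm.1 p hp).2), hm.2,
    one_smul, one_smul] at he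
  have : g.1 + g.2.1 - g.2.2 = -R.icpt g.2.1 R.w0 l := by
    rw [← he]
    abel
  rw [this]
  exact R.inQ_neg (R.inQ_icpt hls)

/-- saturation in the language of triples -/
theorem rp_sat {k : ℕ} (hk : R.KDiv k) {g : V3 I} (h : R.InC g) (hL : R.InL g) :
    R.Rp ((k : ℝ) • g) := by
  obtain ⟨π, ⟨l, hm, hls, rfl⟩, hd, he⟩ := R.sat hk h.1 hL.1 hL.2.1 hL.2.2 h.2
  exact ⟨fun i => mul_nonneg (Nat.cast_nonneg k) (h.1 i), l, ⟨hm, hd, he⟩, hls⟩

theorem rp_iff_bb (g : V3 I) : R.Rp g ↔ Dom g.2.1 ∧ ∃ π ∈ R.BB g.2.1,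
    (∀ t ∈ Set.Icc (0:ℝ) 1, Dom (g.1 + π t)) ∧ g.1 + π 1 = g.2.2 := by
  constructor
  · rintro ⟨h1, l, ⟨hm, hd, he⟩, hls⟩
    exact ⟨h1, _, ⟨l, hm, hls, rfl⟩, hd, he⟩
  · rintro ⟨h1, π, ⟨l, hm, hls, rfl⟩, hd, he⟩
    exact ⟨h1, l, ⟨hm, hd, he⟩, hls⟩

theorem exists_kDiv : ∃ k : ℕ, 0 < k ∧ R.KDiv k := by
  classical
  refine ⟨∏ q ∈ (univ : Finset (ι × I)).filter (fun q => R.cf q.1 q.2 ≠ 0),
    (R.cf q.1 q.2).natAbs, prod_pos fun q hq => Int.natAbs_pos.2 (mem_filter.1 hq).2,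
    fun β i h => ?_⟩
  rw [← Int.natAbs_dvd, Int.natCast_dvd_natCast]
  exact dvd_prod_of_mem (fun q : ι × I => (R.cf q.1 q.2).natAbs) (a := (β, i))
    (mem_filter.2 ⟨mem_univ _, h⟩)

end RD

end Pool.Agent.Lib.MP_1e3767_al
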