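import Pool.Agent.Lib.MP_1e3767_al.DpList
import Pool.Agent.Lib.MP_1e3767_al.DpFold

set_option linter.unusedSectionVars false

namespace Pool.Agent.Lib.MP_1e3767_al

open Finset Filter Topology

namespace RD
variable {I ι W : Type*} [Fintype I] [DecidableEq I] [Fintype ι] [Group W] [Fintype W]
  [DistribMulAction W (I → ℝ)] [SMulCommClass W ℝ (I → ℝ)] [MulAction W ι] (R : RD I ι W)

section
variable {X : Type*} {F : Filter X}

theorem dpFam_smul (z : W) {v : X → I → ℝ} {v0 : I → ℝ} (hv : Tendsto v F (𝓝 v0)) :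
    Tendsto (fun x => z • v x) F (𝓝 (z • v0)) :=
  ((continuous_wsmul z).tendsto v0).comp hv

theorem dpFam_cv {v : X → I → ℝ} {v0 : I → ℝ} (hv : Tendsto v F (𝓝 v0)) (β : ι) (z : W) :
    Tendsto (fun x => R.cv β (z • v x)) F (𝓝 (R.cv β (z • v0))) :=
  ((R.continuous_cv β).tendsto _).comp (dpFam_smul z hv)

theorem dpFam_ne {μ : I → ℝ} (h : Reg μ) (β : ι) (u : W) : R.cv β (u • μ) ≠ 0 := by
  rw [R.cv_smul]
  by_cases hp : u⁻¹ • β ∈ R.Pos
  · exact (R.cv_pos hp h).ne'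
  · exact (R.cv_neg hp h).ne

theorem tl_const (F : Filter X) (l0 : List (ℝ × ι)) : Tl F (fun _ => l0) l0 := by
  induction l0 with
  | nil => exact fun _ => rfl
  | cons p l0 ih => exact ⟨fun _ => p.1, fun _ => l0, fun _ => rfl, tendsto_const_nhds, ih⟩

theorem tl_cons {a : X → ℝ} {a0 : ℝ} (β : ι) {l : X → List (ℝ × ι)} {l0 : List (ℝ × ι)}
    (ha : Tendsto a F (𝓝 a0)) (h : Tl F l l0) :
    Tl F (fun x => (a x, β) :: l x) ((a0, β) :: l0) := by
  exact ⟨a, l, fun _ => rfl, ha, h⟩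

theorem tl_append {a b : X → List (ℝ × ι)} {a0 b0 : List (ℝ × ι)} (ha : Tl F a a0)
    (hb : Tl F b b0) : Tl F (fun x => a x ++ b x) (a0 ++ b0) := by
  induction a0 generalizing a with
  | nil =>
    have e : (fun x => a x ++ b x) = b := funext fun x => by rw [ha x]; rfl
    rw [e]; exact hb
  | cons p a0 ih =>
    obtain ⟨c, a', e, hc, h'⟩ := ha
    exact ⟨c, fun x => a' x ++ b x, fun x => by beta_reduce; rw [e x]; rfl, hc, ih h'⟩

theorem tl_map_fst (g : X → ℝ → ℝ) (h : ∀ r, Tendsto (fun x => g x r) F (𝓝 r))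
    (l0 : List (ℝ × ι)) : Tl F (fun x => l0.map fun p => (g x p.1, p.2)) l0 := by
  induction l0 with
  | nil => exact fun _ => rfl
  | cons p l0 ih => exact ⟨fun x => g x p.1, _, fun _ => rfl, h p.1, ih⟩

theorem tl_snd {l : X → List (ℝ × ι)} {l0 : List (ℝ × ι)} (h : Tl F l l0) (x : X) :
    (l x).map Prod.snd = l0.map Prod.snd := by
  induction l0 generalizing l with
  | nil => rw [h x]
  | cons p l0 ih =>
    obtain ⟨c, l', e, -, h'⟩ := h
    rw [e x, List.map_cons, List.map_cons, ih h']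

theorem tl_endp {l : X → List (ℝ × ι)} {l0 : List (ℝ × ι)} (h : Tl F l l0) (u : W) (x : X) :
    R.endp u (l x) = R.endp u l0 := by
  unfold endp
  rw [tl_snd h x]

theorem tl_sumL {l : X → List (ℝ × ι)} {l0 : List (ℝ × ι)} (h : Tl F l l0) :
    Tendsto (fun x => R.sumL (l x)) F (𝓝 (R.sumL l0)) := by
  induction l0 generalizing l with
  | nil =>
    have e : (fun x => R.sumL (l x)) = fun _ => R.sumL [] := funext fun x => by rw [h x]
    rw [e]; exact tendsto_const_nhds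
  | cons p l0 ih =>
    obtain ⟨c, l', e, hc, h'⟩ := h
    have e' : (fun x => R.sumL (l x)) = fun x => c x • R.rt p.2 + R.sumL (l' x) :=
      funext fun x => by rw [e x, R.sumL_cons]
    rw [e', R.sumL_cons]
    exact (hc.smul_const _).add (ih h')

theorem tl_tim {μ : X → I → ℝ} {μ0 : I → ℝ} (h0 : Reg μ0) (hμ : Tendsto μ F (𝓝 μ0))
    {L : X → List (ℝ × ι)} {L0 : List (ℝ × ι)} (h : Tl F L L0) (u : W) :
    Tl F (fun x => R.tim (μ x) u (L x)) (R.tim μ0 u L0) := by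
  induction L0 generalizing L u with
  | nil => exact fun x => by beta_reduce; rw [h x]; rfl
  | cons p l0 ih =>
    obtain ⟨c, l', e, hc, h'⟩ := h
    refine ⟨fun x => c x / R.cv p.2 (u • μ x), fun x => R.tim (μ x) (R.s p.2 * u) (l' x),
      fun x => by beta_reduce; rw [e x]; rfl, ?_, ih h' _⟩
    exact hc.div (R.dpFam_cv hμ p.2 u) (R.dpFam_ne h0 p.2 u)

theorem reg_ev {v : X → I → ℝ} {v0 : I → ℝ} (h0 : Reg v0) (hv : Tendsto v F (𝓝 v0)) :
    ∀ᶠ x in F, Reg (v x) := by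
  exact Filter.eventually_all.2 fun i =>
    (((continuous_apply i).tendsto v0).comp hv).eventually (lt_mem_nhds (h0 i))

theorem cov_ev {μ P : X → I → ℝ} {μ0 P0 : I → ℝ} (hμ : Tendsto μ F (𝓝 μ0))
    (hP : Tendsto P F (𝓝 P0)) {l : X → List (ℝ × ι)} {l0 : List (ℝ × ι)} (h : Tl F l l0) {u : W}
    (hc : R.CovP μ0 u P0 l0) : ∀ᶠ x in F, R.CovP (μ x) u (P x) (l x) := by
  induction l0 generalizing l u P P0 with
  | nil => exact Eventually.of_forall fun x => by rw [h x]; trivial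
  | cons p l0 ih =>
    obtain ⟨c, l', e, hc', h'⟩ := h
    obtain ⟨⟨z, hz, hcov⟩, hrest⟩ := hc
    have t1 : Tendsto (fun x => z • (P x + c x • (u • μ x))) F (𝓝 (z • (P0 + p.1 • (u • μ0)))) :=
      dpFam_smul z (hP.add (hc'.smul (dpFam_smul u hμ)))
    have t2 : Tendsto (fun x => P x + (R.cv p.2 (u • μ x) * c x) • R.rt p.2) F
        (𝓝 (P0 + (R.cv p.2 (u • μ0) * p.1) • R.rt p.2)) :=
      hP.add (((R.dpFam_cv hμ p.2 u).mul hc').smul_const _)
    filter_upwards [reg_ev hz t1, ih t2 h' hrest] with x h1 h2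
    rw [e x]
    exact ⟨⟨z, h1, hcov⟩, h2⟩

theorem tmS_ev {a b : X → ℝ} {a0 b0 : ℝ} (ha : Tendsto a F (𝓝 a0)) (hb : Tendsto b F (𝓝 b0))
    {l : X → List (ℝ × ι)} {l0 : List (ℝ × ι)} (h : Tl F l l0) (ht : TmS a0 l0 b0) :
    ∀ᶠ x in F, TmS (a x) (l x) (b x) := by
  induction l0 generalizing l a a0 with
  | nil =>
    filter_upwards [ha.eventually_lt hb ht] with x hx
    rw [h x]; exact hx
  | cons p l0 ih =>
    obtain ⟨c, l', e, hc', h'⟩ := h
    filter_upwards [ha.eventually_lt hc' ht.1, ih hc' h' ht.2] with x h1 h2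
    rw [e x]
    exact ⟨h1, h2⟩

theorem tendsto_End {lam μ : X → I → ℝ} {lam0 μ0 : I → ℝ} (hl : Tendsto lam F (𝓝 lam0))
    (hμ : Tendsto μ F (𝓝 μ0)) {L : X → List (ℝ × ι)} {L0 : List (ℝ × ι)} (h : Tl F L L0) (u : W) :
    Tendsto (fun x => R.End (lam x) (μ x) u (L x)) F (𝓝 (R.End lam0 μ0 u L0)) := by
  have e : (fun x => R.End (lam x) (μ x) u (L x)) =
      fun x => lam x + R.sumL (L x) + R.endp u L0 • μ x :=
    funext fun x => by rw [End, R.tl_endp h u x]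
  rw [e]
  exact (hl.add (R.tl_sumL h)).add (dpFam_smul _ hμ)

/-- nice paths are stable -/
theorem np_ev {lam μ : X → I → ℝ} {lam0 μ0 : I → ℝ} (hl : Tendsto lam F (𝓝 lam0))
    (hμ : Tendsto μ F (𝓝 μ0)) {L : X → List (ℝ × ι)} {L0 : List (ℝ × ι)} (h : Tl F L L0)
    {u y : W} (h0 : R.NP lam0 μ0 u L0 y) : ∀ᶠ x in F, R.NP (lam x) (μ x) u (L x) y := by
  obtain ⟨a1, a2, a3, a4, a5⟩ := h0
  have ht := R.tl_tim a2 hμ h u
  filter_upwards [reg_ev a1 hl, reg_ev a2 hμ, R.cov_ev hμ hl ht a3,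
    tmS_ev tendsto_const_nhds tendsto_const_nhds ht a4,
    reg_ev a5 (dpFam_smul y (R.tendsto_End hl hμ h u))] with x b1 b2 b3 b4 b5
  exact ⟨b1, b2, b3, b4, b5⟩

theorem dpFam_icpt (μ : I → ℝ) {l : X → List (ℝ × ι)} {l0 : List (ℝ × ι)} (h : Tl F l l0)
    (u : W) : Tendsto (fun x => R.icpt μ u (l x)) F (𝓝 (R.icpt μ u l0)) := by
  induction l0 generalizing l u with
  | nil =>
    have e : (fun x => R.icpt μ u (l x)) = fun _ => R.icpt μ u [] := funext fun x => by rw [h x]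
    rw [e]; exact tendsto_const_nhds
  | cons p l0 ih =>
    obtain ⟨c, l', e, hc, h'⟩ := h
    have e' : (fun x => R.icpt μ u (l x)) = fun x => R.icpt μ (R.s p.2 * u) (l' x) +
        (R.cv p.2 (u • μ) * c x) • R.rt p.2 := funext fun x => by rw [e x]; rfl
    rw [e']
    exact (ih h' _).add ((hc.const_mul _).smul_const _)

end

theorem dpFam_fold {lam μ : I → ℝ} {u y : W} {L : List (ℝ × ι)} (h : R.NP lam μ u L y) (c : ℝ) :
    ∃ l', R.DomDat lam μ (y • R.End lam μ u L) l' ∧ (IntV (c • lam) → IntV (c • μ) →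
      R.IsLS (c • μ) u (R.tim μ u L) → R.IsLS (c • μ) R.w0 l') := by
  obtain ⟨a1, a2, a3, a4, a5⟩ := h
  refine R.dp_fold (y := y) (fun i => (a1 i).le) (fun i => (a2 i).le) (fun i => (a5 i).le) a3
    (tmW_of_tmS a4) ?_ c
  rw [R.icpt_tim a2, R.endp_tim, End]

theorem np_inC {lam μ : I → ℝ} {u y : W} {L : List (ℝ × ι)} (h : R.NP lam μ u L y) :
    R.InC (R.psi lam μ u L y) := by
  obtain ⟨l', h1, -⟩ := R.dpFam_fold h 1
  exact ⟨fun i => (h.2.1 i).le, l', h1⟩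

theorem np_int {lam μ : I → ℝ} {u y : W} {L : List (ℝ × ι)} (h : R.NP lam μ u L y) {c : ℝ}
    (hc : 0 ≤ c) (h1 : IntV (c • lam)) (h2 : IntV (c • μ)) (h3 : ∀ p ∈ L, ∃ z : ℤ, c * p.1 = z) :
    R.Rp (c • R.psi lam μ u L y) := by
  obtain ⟨l', a1, a2⟩ := R.dpFam_fold h c
  refine ⟨fun i => mul_nonneg hc (h.2.1 i).le, l', R.domDat_smul a1 hc, ?_⟩
  exact a2 h1 h2 (R.isLS_tim h.2.1 c u L h3)

/-- spread the times -/
def dpFam_spr (ε : ℝ) : ℝ → List (ℝ × ι) → List (ℝ × ι)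
  | _, [] => []
  | s, p :: l => (p.1 + s * ε, p.2) :: dpFam_spr ε (s + 1) l

theorem dpFam_lin (a s : ℝ) : Tendsto (fun ε : ℝ => a + s * ε) (𝓝[>] (0:ℝ)) (𝓝 a) := by
  have h : Tendsto (fun ε : ℝ => a + s * ε) (𝓝 (0:ℝ)) (𝓝 (a + s * 0)) :=
    tendsto_const_nhds.add (tendsto_id.const_mul s)
  rw [mul_zero, add_zero] at h
  exact h.mono_left nhdsWithin_le_nhds

theorem dpFam_tl_spr (s : ℝ) (l : List (ℝ × ι)) :
    Tl (𝓝[>] (0:ℝ)) (fun ε => dpFam_spr ε s l) l := by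
  induction l generalizing s with
  | nil => exact fun _ => rfl
  | cons p l ih => exact ⟨fun ε => p.1 + s * ε, _, fun _ => rfl, dpFam_lin _ _, ih (s + 1)⟩

theorem dpFam_tmS (l : List (ℝ × ι)) (a s : ℝ) (ht : TmW a l 1) (ha : a < 1)
    (h1 : ∀ p ∈ l, p.1 < 1) :
    ∀ᶠ ε in 𝓝[>] (0:ℝ), TmS (a + s * ε) (dpFam_spr ε (s + 1) l) 1 := by
  induction l generalizing a s with
  | nil => exact (dpFam_lin a s).eventually (gt_mem_nhds ha)
  | cons p l ih =>
    filter_upwards [ih p.1 (s + 1) ht.2 (h1 p List.mem_cons_self)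
      fun q hq => h1 q (List.mem_cons_of_mem _ hq), self_mem_nhdsWithin] with ε b1 b2
    refine ⟨?_, b1⟩
    have := ht.1
    have b3 : 0 < ε := b2
    show a + s * ε < p.1 + (s + 1) * ε
    linarith

/-- equal times can be separated -/
theorem strictify {μ P : I → ℝ} {u : W} {l : List (ℝ × ι)} (hc : R.CovP μ u P l)
    (ht : TmW 0 l 1) (h1 : ∀ p ∈ l, p.1 < 1) {U : Set (I → ℝ)} (hU : U ∈ 𝓝 (R.icpt μ u l)) :
    ∃ l', l'.map Prod.snd = l.map Prod.snd ∧ R.CovP μ u P l' ∧ TmS 0 l' 1 ∧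
      R.icpt μ u l' ∈ U := by
  have hT := dpFam_tl_spr 1 l
  have e1 := R.cov_ev (F := 𝓝[>] (0:ℝ)) tendsto_const_nhds tendsto_const_nhds hT hc
  have e2 := dpFam_tmS l 0 0 ht zero_lt_one h1
  have e3 := (R.dpFam_icpt μ hT u).eventually hU
  obtain ⟨ε, b1, b2, b3⟩ := (e1.and (e2.and e3)).exists
  refine ⟨dpFam_spr ε 1 l, tl_snd hT ε, b1, ?_, b3⟩
  simpa using b2

end RD

end Pool.Agent.Lib.MP_1e3767_al
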