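import Pool.Agent.Lib.MP_1e3767_al.DpStar

set_option linter.unusedSectionVars false

namespace Pool.Agent.Lib.MP_1e3767_al

open Finset Filter Topology

namespace RD
variable {I ι W : Type*} [Fintype I] [DecidableEq I] [Fintype ι] [Group W] [Fintype W]
  [DistribMulAction W (I → ℝ)] [SMulCommClass W ℝ (I → ℝ)] [MulAction W ι] (R : RD I ι W)

/-- bounded or divergent along a common subsequence, with constant colour -/
theorem ult {J A : Type*} [Finite J] [Finite A] (x : J → ℕ → ℕ) (r : ℕ → A) :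
    ∃ (n0 : ℕ) (C : Set J), (∀ j, (∀ n, n ≤ x j n) → j ∉ C) ∧ ∀ B : ℕ, ∃ n, r n = r n0 ∧
      (∀ j ∈ C, x j n = x j n0) ∧ ∀ j, j ∉ C → B ≤ x j n := by
  classical
  let U : Ultrafilter ℕ := hyperfilter ℕ
  obtain ⟨a, ha⟩ : ∃ a, ∀ᶠ n in (U : Filter ℕ), r n = a :=
    Ultrafilter.eventually_exists_iff.1 (Eventually.of_forall fun n => ⟨r n, rfl⟩)
  have hc : ∀ j, ∃ c, (∃ c', ∀ᶠ n in (U : Filter ℕ), x j n = c') →
      ∀ᶠ n in (U : Filter ℕ), x j n = c := fun j => by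
    by_cases h : ∃ c', ∀ᶠ n in (U : Filter ℕ), x j n = c'
    · obtain ⟨c, hc⟩ := h
      exact ⟨c, fun _ => hc⟩
    · exact ⟨0, fun h' => absurd h' h⟩
  choose c hc using hc
  have h0 : ∀ᶠ n in (U : Filter ℕ), r n = a ∧
      ∀ j, (∃ c', ∀ᶠ n in (U : Filter ℕ), x j n = c') → x j n = c j := by
    refine ha.and (eventually_all.2 fun j => ?_)
    by_cases h : ∃ c', ∀ᶠ n in (U : Filter ℕ), x j n = c'
    · exact (hc j h).mono fun n hn _ => hn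
    · exact Eventually.of_forall fun n h' => absurd h' h
  obtain ⟨n0, hn0⟩ := h0.exists
  refine ⟨n0, {j | ∃ c', ∀ᶠ n in (U : Filter ℕ), x j n = c'}, ?_, fun B => ?_⟩
  · rintro j hj ⟨c', hc'⟩
    have h1 : ∀ᶠ n in (U : Filter ℕ), c' < n :=
      Nat.hyperfilter_le_atTop (eventually_gt_atTop c')
    obtain ⟨n, h2, h3⟩ := (hc'.and h1).exists
    have := hj n
    omega
  · have h1 : ∀ᶠ n in (U : Filter ℕ), ∀ j, ¬ (∃ c', ∀ᶠ n in (U : Filter ℕ), x j n = c') →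
        B ≤ x j n := by
      refine eventually_all.2 fun j => ?_
      by_cases h : ∃ c', ∀ᶠ n in (U : Filter ℕ), x j n = c'
      · exact Eventually.of_forall fun n h' => absurd h h'
      · have h2 : ∀ᶠ n in (U : Filter ℕ), ∀ c' ∈ Finset.range B, ¬ x j n = c' :=
          (eventually_all_finset _).2 fun c' _ =>
            Ultrafilter.eventually_not.2 fun h3 => h ⟨c', h3⟩
        exact h2.mono fun n hn _ => by
          by_contra h4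
          exact hn _ (Finset.mem_range.2 (not_le.1 h4)) rfl
    obtain ⟨n, h2, h3⟩ := (h0.and h1).exists
    exact ⟨n, h2.1.trans hn0.1.symm, fun j hj => (h2.2 j hj).trans (hn0.2 j hj).symm, h3⟩

theorem dpfin_res {k : ℕ} (hk : 0 < k) {a b : ℝ} (ha : ∃ z : ℤ, a = z) (hb : ∃ z : ℤ, b = z)
    (h : ((⌊a⌋ : ℤ) : ZMod k) = ((⌊b⌋ : ℤ) : ZMod k)) : ∃ z : ℤ, (k : ℝ)⁻¹ * (a - b) = z := by
  obtain ⟨y, rfl⟩ := ha
  obtain ⟨z, rfl⟩ := hb
  rw [Int.floor_intCast, Int.floor_intCast] at h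
  obtain ⟨w, hw⟩ := (ZMod.intCast_eq_intCast_iff_dvd_sub z y k).1 h.symm
  refine ⟨w, ?_⟩
  have h1 : (k : ℝ) ≠ 0 := Nat.cast_ne_zero.2 hk.ne'
  have h2 : (y : ℝ) - z = k * w := by exact_mod_cast hw
  rw [h2, inv_mul_cancel_left₀ h1]

theorem dpfin_bound (u : V3 I) : ∃ B : ℕ, (∀ i, u.1 i < B ∧ u.2.1 i < B ∧ u.2.2 i < B) ∧
    ∀ q, R.ell q u ≤ B := by
  obtain ⟨b1, h1⟩ := (Set.finite_range fun i => max (u.1 i) (max (u.2.1 i) (u.2.2 i))).bddAbove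
  obtain ⟨b2, h2⟩ := (Set.finite_range fun q => R.ell q u).bddAbove
  obtain ⟨B, hB⟩ := exists_nat_gt (max b1 b2)
  refine ⟨B, fun i => ?_, fun q => ((h2 ⟨q, rfl⟩).trans (le_max_right _ _)).trans hB.le⟩
  have h3 := ((h1 ⟨i, rfl⟩).trans (le_max_left _ _)).trans_lt hB
  simpa only [max_lt_iff] using h3

variable {R} (Λ : R.Lat)

/-- deep saturation for paths -/
theorem Lat.deep : ∃ c : ℕ, ∀ σ : V3 I, R.InC σ → R.InL σ → σ.1 ∈ Λ.E → σ.2.1 ∈ Λ.E →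
    (∀ i, (c : ℝ) ≤ σ.1 i ∧ (c : ℝ) ≤ σ.2.1 i ∧ (c : ℝ) ≤ σ.2.2 i) → R.Rp σ := by
  by_contra hcon
  push Not at hcon
  choose σ hC hL h1 h2 hb hn using hcon
  obtain ⟨k, hk, hK⟩ := R.exists_kDiv
  have : NeZero k := ⟨hk.ne'⟩
  have hk' : (k : ℝ) ≠ 0 := Nat.cast_ne_zero.2 hk.ne'
  obtain ⟨n0, C, hC0, hB⟩ := ult (J := Option (W × W × W × I))
    (fun j n => j.elim n fun q => ⌊R.ell q (σ n)⌋₊)
    (fun n => ((fun i => ((⌊(σ n).1 i⌋ : ℤ) : ZMod k), fun i => ((⌊(σ n).2.1 i⌋ : ℤ) : ZMod k),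
      fun i => ((⌊R.crd i ((σ n).1 + (σ n).2.1 - (σ n).2.2)⌋ : ℤ) : ZMod k)) :
        (I → ZMod k) × (I → ZMod k) × (I → ZMod k)))
  have hx : ∀ q n, R.Valid q → ((⌊R.ell q (σ n)⌋₊ : ℕ) : ℝ) = R.ell q (σ n) := fun q n hq => by
    obtain ⟨z, hz⟩ := R.ell_int q (hL n)
    have h0 := hq _ (hC n)
    rw [hz] at h0 ⊢
    have h3 : 0 ≤ z := by exact_mod_cast h0
    obtain ⟨m, rfl⟩ := Int.eq_ofNat_of_zero_le h3
    simp
  have key : ∀ u : V3 I, (∀ q, R.Valid q → some q ∈ C → R.ell q u = R.ell q (σ n0)) →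
      ∃ n, R.InL ((k : ℝ)⁻¹ • (σ n - σ n0)) ∧ Reg3 (σ n - u) ∧ R.InC (σ n - u) ∧
        ∀ q, R.Valid q → some q ∈ C → R.ell q (σ n - u) = 0 := by
    intro u hu
    obtain ⟨B, hB1, hB2⟩ := R.dpfin_bound u
    obtain ⟨n, e1, e2, e3⟩ := hB B
    have hBn : (B : ℝ) ≤ n := Nat.cast_le.2 (e3 none (hC0 none fun _ => le_rfl))
    have hr : Reg3 (σ n - u) :=
      ⟨fun i => sub_pos.2 ((hB1 i).1.trans_le (hBn.trans (hb n i).1)),
        fun i => sub_pos.2 ((hB1 i).2.1.trans_le (hBn.trans (hb n i).2.1)),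
        fun i => sub_pos.2 ((hB1 i).2.2.trans_le (hBn.trans (hb n i).2.2))⟩
    have hz : ∀ q, R.Valid q → some q ∈ C → R.ell q (σ n - u) = 0 := fun q hq hq' => by
      have h3 : ⌊R.ell q (σ n)⌋₊ = ⌊R.ell q (σ n0)⌋₊ := e2 _ hq'
      rw [map_sub, hu q hq hq', ← hx q n hq, ← hx q n0 hq, h3, sub_self]
    refine ⟨n, ⟨fun i => ?_, fun i => ?_, (R.inQ_iff _).2 fun i => ?_⟩, hr,
      Λ.poly hr fun q hq => ?_, hz⟩
    · exact dpfin_res hk ((hL n).1 i) ((hL n0).1 i) (congrFun (congrArg Prod.fst e1) i)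
    · exact dpfin_res hk ((hL n).2.1 i) ((hL n0).2.1 i)
        (congrFun (congrArg (fun p => p.2.1) e1) i)
    · have h3 := dpfin_res hk ((R.inQ_iff _).1 (hL n).2.2 i) ((R.inQ_iff _).1 (hL n0).2.2 i)
        (congrFun (congrArg (fun p => p.2.2) e1) i)
      rw [← map_sub, ← smul_eq_mul, ← map_smul] at h3
      have e : ((k : ℝ)⁻¹ • (σ n - σ n0)).1 + ((k : ℝ)⁻¹ • (σ n - σ n0)).2.1 -
          ((k : ℝ)⁻¹ • (σ n - σ n0)).2.2 = (k : ℝ)⁻¹ • ((σ n).1 + (σ n).2.1 - (σ n).2.2 -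
            ((σ n0).1 + (σ n0).2.1 - (σ n0).2.2)) := by
        simp only [Prod.smul_fst, Prod.smul_snd, Prod.fst_sub, Prod.snd_sub]
        module
      rw [e]
      exact h3
    · by_cases hq' : some q ∈ C
      · exact (hz q hq hq').ge
      · have h3 : B ≤ ⌊R.ell q (σ n)⌋₊ := e3 _ hq'
        have h4 : (B : ℝ) ≤ R.ell q (σ n) := by
          rw [← hx q n hq]
          exact Nat.cast_le.2 h3
        rw [map_sub]
        linarith [hB2 q]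
  obtain ⟨n1, -, g1, g2, g3⟩ := key (σ n0) fun _ _ _ => rfl
  have g4 : R.InL (σ n1 - σ n0) := by
    rw [sub_eq_add_neg]
    exact R.inL_add (hL n1) (R.inL_neg (hL n0))
  obtain ⟨f, f1, f2, f3⟩ := Λ.star g2 g1 g4 (Λ.E.sub_mem (h1 n1) (h1 n0))
    (Λ.E.sub_mem (h2 n1) (h2 n0)) (hC n0) (hL n0) (h1 n0) (h2 n0)
  obtain ⟨n2, t1, -, t2, -⟩ := key (σ n0 + (k : ℝ) • f) fun q hq hq' => by
    have h3 := (Λ.tc_iff g2 g1 f).1 f2.1 q hq (g3 q hq hq')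
    have h4 := (Λ.tc_iff g2 g1 (-f)).1 f2.2 q hq (g3 q hq hq')
    rw [map_neg] at h4
    rw [map_add, map_smul, show R.ell q f = 0 by linarith, smul_zero, add_zero]
  have t3 : R.InL ((k : ℝ)⁻¹ • (σ n2 - (σ n0 + (k : ℝ) • f))) := by
    have e : (k : ℝ)⁻¹ • (σ n2 - (σ n0 + (k : ℝ) • f)) = (k : ℝ)⁻¹ • (σ n2 - σ n0) + -f := by
      rw [← sub_sub, smul_sub, inv_smul_smul₀ hk', sub_eq_add_neg]
    rw [e]
    exact R.inL_add t1 (R.inL_neg (Λ.inL_of_re f1))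
  have t4 := R.rp_sat hK (R.inC_smul t2 (inv_nonneg.2 (Nat.cast_nonneg k))) t3
  rw [smul_inv_smul₀ hk'] at t4
  have f4 := Λ.re_nsmul f1 k
  have t5 : Λ.RE (σ n2 - (σ n0 + (k : ℝ) • f)) :=
    ⟨t4, Λ.E.sub_mem (h1 n2) (Λ.E.add_mem (h1 n0) f4.2.1),
      Λ.E.sub_mem (h2 n2) (Λ.E.add_mem (h2 n0) f4.2.2)⟩
  have t6 := Λ.re_add (Λ.re_add t5 f3) (Λ.re_nsmul f1 (k - 1))
  have e : σ n2 - (σ n0 + (k : ℝ) • f) + (f + σ n0) + ((k - 1 : ℕ) : ℝ) • f = σ n2 := by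
    rw [Nat.cast_pred hk]
    module
  rw [e] at t6
  exact hn n2 t6.1

end RD

end Pool.Agent.Lib.MP_1e3767_al
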