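import Pool.Agent.Lib.MP_1e3767_al.DpFam
import Pool.Agent.Lib.MP_1e3767_al.DpEnd

set_option linter.unusedSectionVars false

namespace Pool.Agent.Lib.MP_1e3767_al

open Finset Filter Topology

namespace RD
variable {I ι W : Type*} [Fintype I] [DecidableEq I] [Fintype ι] [Group W] [Fintype W]
  [DistribMulAction W (I → ℝ)] [SMulCommClass W ℝ (I → ℝ)] [MulAction W ι] (R : RD I ι W)

theorem dpMove_refl (γ : ι) (P : I → ℝ) (ε : ℝ) :
    P + (ε - R.cv γ P) • R.rt γ = R.s γ • (P - ε • R.rt γ) := by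
  rw [s_smul', map_sub, map_smul, cv_self, smul_eq_mul]
  module

theorem End_e0 (lam μ : I → ℝ) (u : W) (L : List (ℝ × ι)) (γ : ι) (ε : ℝ) :
    R.End lam μ (R.s γ * u) ((-ε, γ) :: L) = R.End lam μ u L - ε • R.rt γ := by
  unfold End
  rw [sumL_cons, endp_cons', s_mul_s_mul]
  simp only [neg_smul]
  abel

theorem End_e1 (lam μ : I → ℝ) (u : W) (L : List (ℝ × ι)) (γ : ι) (ε : ℝ) :
    R.End lam μ u (L ++ [(R.cv γ (R.endp u L • μ) + ε, γ)]) = R.End lam μ u L + ε • R.rt γ := by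
  unfold End
  rw [sumL_append, sumL_cons, sumL_nil, endp_append, endp_cons', endp_nil', mul_smul, s_smul']
  simp only [add_smul]
  abel

theorem End_e2 (lam μ : I → ℝ) (u : W) (L1 L2 : List (ℝ × ι)) (γ : ι) (ε : ℝ) :
    R.s γ • R.End lam μ u (L1 ++ (ε - R.cv γ (lam + R.sumL L1), γ) ::
        L2.map fun p => (p.1, R.s γ • p.2)) = R.End lam μ u (L1 ++ L2) - ε • R.rt γ := by
  unfold End
  rw [sumL_append, sumL_cons, endp_append, endp_cons', sumL_smul, sumL_append, endp_append]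
  dsimp only
  rw [endp_smul, mul_smul]
  have e : lam + (R.sumL L1 + ((ε - R.cv γ (lam + R.sumL L1)) • R.rt γ + R.s γ • R.sumL L2)) +
      R.s γ • R.endp (R.endp u L1) L2 • μ =
      R.s γ • (lam + (R.sumL L1 + R.sumL L2) + R.endp (R.endp u L1) L2 • μ - ε • R.rt γ) := by
    have e1 := R.dpMove_refl γ (lam + R.sumL L1) ε
    have e2 : lam + (R.sumL L1 + R.sumL L2) + R.endp (R.endp u L1) L2 • μ - ε • R.rt γ =
        (lam + R.sumL L1 - ε • R.rt γ) + R.sumL L2 + R.endp (R.endp u L1) L2 • μ := by abel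
    rw [e2, smul_add, smul_add, ← e1]
    abel
  rw [e, ← mul_smul, s_mul_s, one_smul]

variable {X : Type*} {F : Filter X}

theorem dpMove_smul (w : W) {v : X → I → ℝ} {v0 : I → ℝ} (h : Tendsto v F (𝓝 v0)) :
    Tendsto (fun x => w • v x) F (𝓝 (w • v0)) :=
  ((continuous_wsmul w).tendsto v0).comp h

theorem dpMove_cv (γ : ι) {v : X → I → ℝ} {v0 : I → ℝ} (h : Tendsto v F (𝓝 v0)) :
    Tendsto (fun x => R.cv γ (v x)) F (𝓝 (R.cv γ v0)) :=
  ((R.continuous_cv γ).tendsto v0).comp h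

theorem dpMove_sub (γ : ι) {v : X → I → ℝ} {v0 : I → ℝ} (h : Tendsto v F (𝓝 v0)) {ε : X → ℝ}
    (hε : Tendsto ε F (𝓝 0)) : Tendsto (fun x => v x - ε x • R.rt γ) F (𝓝 v0) := by
  have := h.sub (hε.smul_const (R.rt γ))
  rwa [zero_smul, sub_zero] at this

/-- a new first turn shortly after time zero -/
theorem e0_ev {lam μ : X → I → ℝ} {lam0 μ0 : I → ℝ} (hl : Tendsto lam F (𝓝 lam0))
    (hμ : Tendsto μ F (𝓝 μ0)) {L : X → List (ℝ × ι)} {L0 : List (ℝ × ι)} (h : Tl F L L0)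
    {u y : W} (h0 : R.NP lam0 μ0 u L0 y) {γ : ι} (hγ : R.Cover (R.s γ * u) γ) {ε : X → ℝ}
    (hε : Tendsto ε F (𝓝 0)) (hp : ∀ᶠ x in F, 0 < ε x) :
    ∀ᶠ x in F, R.NP (lam x) (μ x) (R.s γ * u) ((-ε x, γ) :: L x) y := by
  obtain ⟨r1, r2, c0, t0, g0⟩ := h0
  have hc0 : R.cv γ ((R.s γ * u) • μ0) < 0 := (R.cv_neg_iff_of_reg γ _ r2).2 hγ.1.2
  have hw := dpMove_smul (R.s γ * u) hμ
  have hc := R.dpMove_cv γ hw
  have ht : Tendsto (fun x => -ε x / R.cv γ ((R.s γ * u) • μ x)) F (𝓝 0) := by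
    have := hε.neg.div hc hc0.ne
    rwa [neg_zero, zero_div] at this
  have hpt : Tendsto (fun x => lam x + (-ε x / R.cv γ ((R.s γ * u) • μ x)) • ((R.s γ * u) • μ x))
      F (𝓝 lam0) := by
    have := hl.add (ht.smul hw)
    simpa using this
  have hT := R.tl_tim r2 hμ h u
  filter_upwards [reg_ev r1 hl, reg_ev r2 hμ, reg_ev r1 hpt,
    R.cov_ev hμ (R.dpMove_sub γ hl hε) hT c0, tmS_ev ht tendsto_const_nhds hT t0,
    reg_ev g0 (dpMove_smul y (R.dpMove_sub γ (R.tendsto_End hl hμ h u) hε)), hp,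
    hc.eventually_lt_const hc0] with x a1 a2 a3 a4 a5 a6 a7 a8
  refine ⟨a1, a2, ?_, ?_, ?_⟩
  · refine ⟨⟨1, ?_, ?_⟩, ?_⟩
    · rw [one_smul]
      exact a3
    · rw [one_mul, one_smul]
      exact hγ
    · dsimp only
      rw [s_mul_s_mul, mul_div_cancel₀ _ a8.ne, neg_smul, ← sub_eq_add_neg]
      exact a4
  · refine ⟨div_pos_of_neg_of_neg (neg_lt_zero.2 a7) a8, ?_⟩
    dsimp only
    rw [s_mul_s_mul]
    exact a5
  · rw [End_e0]
    exact a6

/-- a new last turn shortly before time one -/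
theorem e1_ev {lam μ : X → I → ℝ} {lam0 μ0 : I → ℝ} (hl : Tendsto lam F (𝓝 lam0))
    (hμ : Tendsto μ F (𝓝 μ0)) {L : X → List (ℝ × ι)} {L0 : List (ℝ × ι)} (h : Tl F L L0)
    {u y : W} (h0 : R.NP lam0 μ0 u L0 y) {γ : ι} (hγ : R.Cover (y * R.endp u L0) (y • γ))
    {ε : X → ℝ} (hε : Tendsto ε F (𝓝 0)) (hp : ∀ᶠ x in F, 0 < ε x) :
    ∀ᶠ x in F, R.NP (lam x) (μ x) u
      (L x ++ [(R.cv γ (R.endp u (L x) • μ x) + ε x, γ)]) y := by
  obtain ⟨r1, r2, c0, t0, g0⟩ := h0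
  have hc0 : R.cv γ (R.endp u L0 • μ0) < 0 := by
    refine (R.cv_neg_iff_of_reg γ _ r2).2 ?_
    have := hγ.1.2
    rwa [mul_smul, cv_smul_smul] at this
  have hw := dpMove_smul (R.endp u L0) hμ
  have hc := R.dpMove_cv γ hw
  have ht : Tendsto (fun x => (R.cv γ (R.endp u L0 • μ x) + ε x) / R.cv γ (R.endp u L0 • μ x))
      F (𝓝 1) := by
    have := (hc.add hε).div hc hc0.ne
    rwa [add_zero, div_self hc0.ne] at this
  have hpt : Tendsto (fun x => lam x + R.sumL (L x) +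
      ((R.cv γ (R.endp u L0 • μ x) + ε x) / R.cv γ (R.endp u L0 • μ x)) • (R.endp u L0 • μ x))
      F (𝓝 (R.End lam0 μ0 u L0)) := by
    have := (hl.add (R.tl_sumL h)).add (ht.smul hw)
    rwa [one_smul] at this
  have hE : Tendsto (fun x => R.End (lam x) (μ x) u (L x) + ε x • R.rt γ) F
      (𝓝 (R.End lam0 μ0 u L0)) := by
    have := (R.tendsto_End hl hμ h u).add (hε.smul_const (R.rt γ))
    rwa [zero_smul, add_zero] at this
  have hT := R.tl_tim r2 hμ h u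
  filter_upwards [reg_ev r1 hl, reg_ev r2 hμ, reg_ev g0 (dpMove_smul y hpt),
    R.cov_ev hμ hl hT c0, tmS_ev tendsto_const_nhds ht hT t0,
    reg_ev g0 (dpMove_smul y hE), hp, hc.eventually_lt_const hc0] with x a1 a2 a3 a4 a5 a6 a7 a8
  refine ⟨a1, a2, ?_, ?_, ?_⟩
  · rw [tim_append, covP_append, endp_tim, R.icpt_tim a2, R.tl_endp h u x]
    exact ⟨a4, ⟨y, a3, hγ⟩, trivial⟩
  · rw [tim_append, R.tl_endp h u x]
    refine (tmS_append _ _ _ _ _).2 ⟨a5, ?_⟩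
    change (R.cv γ (R.endp u L0 • μ x) + ε x) / R.cv γ (R.endp u L0 • μ x) < 1
    rw [div_lt_one_of_neg a8]
    linarith
  · rw [End_e1]
    exact a6

/-- a new turn shortly before a wall is crossed; the rest is reflected -/
theorem e2_ev {lam μ : X → I → ℝ} {lam0 μ0 : I → ℝ} (hl : Tendsto lam F (𝓝 lam0))
    (hμ : Tendsto μ F (𝓝 μ0)) {L1 L2 : X → List (ℝ × ι)} {A1 A2 : List (ℝ × ι)}
    (h1 : Tl F L1 A1) (h2 : Tl F L2 A2) {u y : W} (h0 : R.NP lam0 μ0 u (A1 ++ A2) y)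
    (hg : R.Gen lam0 μ0 u (A1 ++ A2)) {γ : ι} {τ : ℝ} (hx : R.Cross lam0 μ0 u A1 A2 γ τ)
    {ε : X → ℝ} (hε : Tendsto ε F (𝓝 0)) (hp : ∀ᶠ x in F, 0 < ε x) :
    ∀ᶠ x in F, R.NP (lam x) (μ x) u
      (L1 x ++ (ε x - R.cv γ (lam x + R.sumL (L1 x)), γ) ::
        (L2 x).map fun p => (p.1, R.s γ • p.2)) (y * R.s γ) := by
  obtain ⟨r1, r2, c0, -, g0⟩ := h0
  obtain ⟨t1, t2, z0, hc0⟩ := hx
  rw [tim_append, covP_append, endp_tim, R.icpt_tim r2] at c0
  obtain ⟨c1, c2⟩ := c0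
  obtain ⟨z, i, zi, -, zj⟩ := R.semireg z0 (fun γ' h' => hg A1 A2 rfl τ γ γ' z0 h')
  have hw := dpMove_smul (R.endp u A1) hμ
  have hc := R.dpMove_cv γ hw
  have hP := hl.add (R.tl_sumL h1)
  have ht : Tendsto (fun x => (ε x - R.cv γ (lam x + R.sumL (L1 x))) /
      R.cv γ (R.endp u A1 • μ x)) F (𝓝 τ) := by
    have := (hε.sub (R.dpMove_cv γ hP)).div hc hc0.ne
    have e : (0 - R.cv γ (lam0 + R.sumL A1)) / R.cv γ (R.endp u A1 • μ0) = τ := by
      rw [div_eq_iff hc0.ne]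
      rw [map_add _ (lam0 + R.sumL A1), map_smul, smul_eq_mul] at z0
      linarith
    rwa [e] at this
  have hpt := dpMove_smul z (hP.add (ht.smul hw))
  have hj : ∀ᶠ x in F, ∀ j, j ≠ i → 0 < (z • (lam x + R.sumL (L1 x) +
      ((ε x - R.cv γ (lam x + R.sumL (L1 x))) / R.cv γ (R.endp u A1 • μ x)) •
        (R.endp u A1 • μ x))) j := by
    refine eventually_all.2 fun j => ?_
    by_cases e : j = i
    · exact Eventually.of_forall fun x h => absurd e h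
    · exact ((tendsto_pi_nhds.1 hpt j).eventually_const_lt (zj j e)).mono fun x h _ => h
  have hcov : R.Cover (z * R.endp u A1) (z • γ) := by
    rw [zi]
    apply R.cover_sr
    rw [← R.cv_sr i ((z * R.endp u A1) • rho), ← zi, mul_smul, cv_smul_smul]
    exact (R.cv_neg_iff_of_reg γ _ r2).1 hc0
  have hT1 := R.tl_tim r2 hμ h1 u
  have hT2 := R.tl_tim r2 hμ h2 (R.endp u A1)
  filter_upwards [reg_ev r1 hl, reg_ev r2 hμ, hj, R.cov_ev hμ hl hT1 c1,
    R.cov_ev hμ (R.dpMove_sub γ hP hε) hT2 c2, tmS_ev tendsto_const_nhds ht hT1 t1,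
    tmS_ev ht tendsto_const_nhds hT2 t2,
    reg_ev g0 (dpMove_smul y (R.dpMove_sub γ (R.tendsto_End hl hμ (tl_append h1 h2) u) hε)), hp,
    hc.eventually_lt_const hc0] with x a1 a2 a3 a4 a5 a6 a7 a8 a9 a10
  refine ⟨a1, a2, ?_, ?_, ?_⟩
  · rw [tim_append, covP_append, endp_tim, R.icpt_tim a2, R.tl_endp h1 u x]
    refine ⟨a4, ⟨z, fun j => ?_, hcov⟩, ?_⟩
    · by_cases e : j = i
      · refine lt_of_lt_of_eq ?_ (R.cv_sr j _)
        rw [e, ← zi, cv_smul_smul, map_add _ (lam x + R.sumL (L1 x)), map_smul,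
          smul_eq_mul, div_mul_cancel₀ _ a10.ne]
        linarith
      · exact a3 j e
    · dsimp only
      rw [mul_div_cancel₀ _ a10.ne, tim_smul, R.dpMove_refl]
      exact R.covP_smul _ _ _ _ _ a5
  · rw [tim_append, R.tl_endp h1 u x]
    refine (tmS_append _ _ _ _ _).2 ⟨a6, ?_⟩
    dsimp only
    rw [tim_smul]
    exact (tmS_map _ _ _ (fun β => R.s γ • β)).2 a7
  · rw [mul_smul, End_e2]
    exact a8

end RD

end Pool.Agent.Lib.MP_1e3767_al
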