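import Pool.Agent.Lib.MP_1e3767_al.DpFam
import Pool.Agent.Lib.MP_1e3767_al.DpEnd

set_option linter.unusedSectionVars false

namespace Pool.Agent.Lib.MP_1e3767_al

open Finset Filter Topology

namespace RD
variable {I ι W : Type*} [Fintype I] [DecidableEq I] [Fintype ι] [Group W] [Fintype W]
  [DistribMulAction W (I → ℝ)] [SMulCommClass W ℝ (I → ℝ)] [MulAction W ι] (R : RD I ι W)

/-- every root of `K` that is positive at `p` decreases in the direction `m` -/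
def DpTriFull (K : Set ι) (p m : I → ℝ) : Prop := ∀ γ ∈ K, 0 < R.cv γ p → R.cv γ m < 0

theorem dpTri_ne {x : W} {p : I → ℝ} (hx : Reg (x • p)) (γ : ι) : R.cv γ p ≠ 0 := by
  rw [← R.cv_smul_smul x γ p]
  by_cases h : x • γ ∈ R.Pos
  · exact (R.cv_pos h hx).ne'
  · exact (R.cv_neg h hx).ne

theorem dpTri_pos {x : W} {p : I → ℝ} (hx : Reg (x • p)) {γ : ι} (h : 0 < R.cv γ p) :
    x • γ ∈ R.Pos := by
  by_contra hn
  have h1 := R.cv_neg hn hx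
  rw [R.cv_smul_smul] at h1
  linarith

theorem dpTri_seg {K : Set ι} (hng : ∀ γ ∈ K, R.ng γ ∈ K) {P m : I → ℝ}
    (hm : ∀ γ, R.cv γ m ≠ 0) {a b : ℝ} (ha : ∀ γ, R.cv γ (P + a • m) ≠ 0)
    (hf : R.DpTriFull K (P + a • m) m) :
    R.DpTriFull K (P + b • m) m ∨
      ∃ γ τ, γ ∈ K ∧ a < τ ∧ τ < b ∧ R.cv γ (P + τ • m) = 0 ∧ R.cv γ m < 0 := by
  by_cases h : R.DpTriFull K (P + b • m) m
  · exact Or.inl h
  · right
    unfold DpTriFull at h
    push Not at h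
    obtain ⟨γ, hγ, h1, h2⟩ := h
    have h3 : 0 < R.cv γ m := lt_of_le_of_ne h2 (hm γ).symm
    have h4 : R.cv γ (P + a • m) < 0 := by
      rcases lt_or_gt_of_ne (ha γ) with h5 | h5
      · exact h5
      · have := hf γ hγ h5
        linarith
    rw [map_add, map_smul, smul_eq_mul] at h1 h4
    refine ⟨R.ng γ, -R.cv γ P / R.cv γ m, hng γ hγ, ?_, ?_, ?_, ?_⟩
    · rw [lt_div_iff₀ h3]
      linarith
    · rw [div_lt_iff₀ h3]
      linarith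
    · rw [R.cv_ng, map_add, map_smul, smul_eq_mul, div_mul_cancel₀ _ h3.ne']
      ring
    · rw [R.cv_ng]
      linarith

theorem dpTri_turn {K : Set ι} {μ p : I → ℝ} (hμ : Reg μ) {u x : W} {β : ι}
    (hx : Reg (x • p)) (hc : R.Cover (x * u) (x • β)) (hs : ∀ γ ∈ K, R.s β • γ ∈ K)
    (hβ : β ∉ K) (hf : R.DpTriFull K p (u • μ)) : R.DpTriFull K p ((R.s β * u) • μ) := by
  intro δ hδ hp
  have h1 : x • δ ∈ R.Pos := R.dpTri_pos hx hp
  have e1 : R.s (x • β) • x • δ = x • R.s β • δ := by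
    rw [R.s_conj, ← mul_smul, ← mul_smul, mul_assoc, inv_mul_cancel, mul_one]
  have h2 : ∃ γ ∈ K, x • γ ∈ R.Pos ∧ R.len_phi (x • β) (x • δ) = x • γ := by
    unfold len_phi
    by_cases h : R.s (x • β) • x • δ ∈ R.Pos
    · rw [if_pos h]
      exact ⟨_, hs δ hδ, e1 ▸ h, e1⟩
    · rw [if_neg h]
      exact ⟨δ, hδ, h1, rfl⟩
  obtain ⟨γ, hγ, h3, e2⟩ := h2
  have h4 : 0 < R.cv γ p := by
    rw [← R.cv_smul_smul x γ p]
    exact R.cv_pos h3 hx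
  have h5 : R.Step (x * u) (x • γ) := by
    refine ⟨h3, ?_⟩
    rw [mul_smul, R.cv_smul_smul]
    exact (R.cv_neg_iff_of_reg γ u hμ).1 (hf γ hγ h4)
  have h6 : x • γ ≠ x • β := fun e => hβ (smul_left_cancel x e ▸ hγ)
  obtain ⟨δ', h7, e3⟩ := R.cover_surj hc h5 h6
  have e4 : δ' = x • δ := R.len_phi_inj (x • β) h7.1 h1 (e3.trans e2.symm)
  have h8 := h7.2
  have e5 : R.s (x • β) * (x * u) = x * (R.s β * u) := by
    rw [R.s_conj]
    group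
  rw [e4, e5, mul_smul, R.cv_smul_smul] at h8
  exact (R.cv_neg_iff_of_reg δ _ hμ).2 h8

theorem dpTri_aux {K : Set ι} (hng : ∀ γ ∈ K, R.ng γ ∈ K) {μ : I → ℝ} (hμ : Reg μ)
    (L : List (ℝ × ι)) : ∀ (u : W) (P : I → ℝ) (a : ℝ), R.CovP μ u P (R.tim μ u L) →
      TmS a (R.tim μ u L) 1 → (∀ p ∈ L, ∀ γ ∈ K, R.s p.2 • γ ∈ K) → (∀ p ∈ L, p.2 ∉ K) →
      (∀ γ, R.cv γ (P + a • (u • μ)) ≠ 0) → R.DpTriFull K (P + a • (u • μ)) (u • μ) →
      R.DpTriFull K (R.End P μ u L) (R.endp u L • μ) ∨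
      ∃ L1 L2 γ τ, γ ∈ K ∧ L = L1 ++ L2 ∧ TmS a (R.tim μ u L1) τ ∧
        TmS τ (R.tim μ (R.endp u L1) L2) 1 ∧
        R.cv γ (P + R.sumL L1 + τ • (R.endp u L1 • μ)) = 0 ∧ R.cv γ (R.endp u L1 • μ) < 0 := by
  induction L with
  | nil =>
    intro u P a _ _ _ _ ha hf
    rcases R.dpTri_seg hng (fun γ => R.conv_cv_ne hμ γ u) (b := 1) ha hf with h | h
    · left
      have e : R.End P μ u [] = P + (1 : ℝ) • (u • μ) := by
        rw [End, R.sumL_nil, R.endp_nil', add_zero, one_smul]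
      rw [e]
      exact h
    · right
      obtain ⟨γ, τ, h1, h2, h3, h4, h5⟩ := h
      refine ⟨[], [], γ, τ, h1, rfl, h2, h3, ?_, h5⟩
      rw [R.sumL_nil, add_zero]
      exact h4
  | cons p L ih =>
    intro u P a hc ht hs hL ha hf
    obtain ⟨⟨x, hx, hcov⟩, hc'⟩ := hc
    obtain ⟨ht1, ht2⟩ := ht
    have hne := R.conv_cv_ne hμ p.2 u
    dsimp only at hx hcov hc' ht1 ht2
    rw [mul_div_cancel₀ _ hne] at hc'
    rcases R.dpTri_seg hng (fun γ => R.conv_cv_ne hμ γ u) (b := p.1 / R.cv p.2 (u • μ)) ha hf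
      with h | h
    · have h1 := R.dpTri_turn hμ hx hcov (hs p List.mem_cons_self) (hL p List.mem_cons_self) h
      have e : P + (p.1 / R.cv p.2 (u • μ)) • (u • μ) =
          P + p.1 • R.rt p.2 + (p.1 / R.cv p.2 (u • μ)) • ((R.s p.2 * u) • μ) := by
        rw [mul_smul, R.s_smul', smul_sub, smul_smul, div_mul_cancel₀ _ hne]
        abel
      have h2 := R.dpTri_ne hx
      rw [e] at h1 h2
      rcases ih (R.s p.2 * u) (P + p.1 • R.rt p.2) _ hc' ht2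
        (fun q hq => hs q (List.mem_cons_of_mem _ hq))
        (fun q hq => hL q (List.mem_cons_of_mem _ hq)) h2 h1 with h3 | h3
      · left
        have e2 : R.End P μ u (p :: L) = R.End (P + p.1 • R.rt p.2) μ (R.s p.2 * u) L := by
          rw [End, End, R.sumL_cons, R.endp_cons', ← add_assoc]
        rw [e2, R.endp_cons']
        exact h3
      · right
        obtain ⟨L1, L2, γ, τ, k1, k2, k3, k4, k5, k6⟩ := h3
        refine ⟨p :: L1, L2, γ, τ, k1, by rw [k2, List.cons_append], ⟨ht1, k3⟩, k4, ?_, k6⟩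
        rw [R.sumL_cons, R.endp_cons', ← add_assoc]
        exact k5
    · right
      obtain ⟨γ, τ, h1, h2, h3, h4, h5⟩ := h
      refine ⟨[], p :: L, γ, τ, h1, rfl, h2, ⟨h3, ht2⟩, ?_, h5⟩
      rw [R.sumL_nil, add_zero]
      exact h4

/-- a class of roots has a move at the start, at the end or at a wall -/
theorem tri {lam μ : I → ℝ} {u y : W} {L : List (ℝ × ι)} (h : R.NP lam μ u L y) (K : Set ι)
    (hng : ∀ γ ∈ K, R.ng γ ∈ K) (hs : ∀ p ∈ L, ∀ γ ∈ K, R.s p.2 • γ ∈ K)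
    (hL : ∀ p ∈ L, p.2 ∉ K) (hne : K.Nonempty) :
    (∃ γ ∈ K, γ ∈ R.Pos ∧ 0 < R.cv γ (u • rho)) ∨
    (∃ γ ∈ K, R.Step (y * R.endp u L) (y • γ)) ∨
    ∃ L1 L2 γ τ, γ ∈ K ∧ L = L1 ++ L2 ∧ R.Cross lam μ u L1 L2 γ τ := by
  obtain ⟨hl, hμ, hc, ht, hy⟩ := h
  by_cases hA : ∃ γ ∈ K, γ ∈ R.Pos ∧ 0 < R.cv γ (u • rho)
  · exact Or.inl hA
  right
  have e0 : lam + (0 : ℝ) • (u • μ) = lam := by rw [zero_smul, add_zero]
  have hl1 : Reg ((1 : W) • lam) := by rwa [one_smul]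
  have hf : R.DpTriFull K (lam + (0 : ℝ) • (u • μ)) (u • μ) := by
    rw [e0]
    intro γ hγ hp
    have h1 := R.dpTri_pos hl1 hp
    rw [one_smul] at h1
    rw [R.cv_neg_iff_of_reg γ u hμ]
    rcases lt_or_gt_of_ne (R.cv_smul_rho_ne γ u) with h2 | h2
    · exact h2
    · exact absurd ⟨γ, hγ, h1, h2⟩ hA
  rcases R.dpTri_aux hng hμ L u lam 0 hc ht hs hL (by rw [e0]; exact R.dpTri_ne hl1) hf
    with h1 | h1
  · left
    have h2 : ∃ γ ∈ K, 0 < R.cv γ (R.End lam μ u L) := by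
      obtain ⟨γ, hγ⟩ := hne
      rcases lt_or_gt_of_ne (R.dpTri_ne hy γ) with h3 | h3
      · refine ⟨R.ng γ, hng γ hγ, ?_⟩
        rw [R.cv_ng]
        linarith
      · exact ⟨γ, hγ, h3⟩
    obtain ⟨γ, hγ, h3⟩ := h2
    refine ⟨γ, hγ, R.dpTri_pos hy h3, ?_⟩
    rw [mul_smul, R.cv_smul_smul]
    exact (R.cv_neg_iff_of_reg γ _ hμ).1 (h1 γ hγ h3)
  · right
    obtain ⟨L1, L2, γ, τ, k1, k2, k3⟩ := h1
    exact ⟨L1, L2, γ, τ, k1, k2, k3⟩

/-- a small shift of the starting point makes the path generic -/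
theorem exists_gen {lam μ : I → ℝ} {u y : W} {L : List (ℝ × ι)} (h : R.NP lam μ u L y) :
    ∃ δ, R.NP (lam + δ) μ u L y ∧ R.Gen (lam + δ) μ u L := by
  have hμ : Reg μ := h.2.1
  have h1 : ∀ᶠ δ in 𝓝 (0 : I → ℝ), R.NP (lam + δ) μ u L y := by
    refine R.np_ev (lam := fun δ => lam + δ) (μ := fun _ => μ) (L := fun _ => L) ?_
      tendsto_const_nhds (tl_const _ L) h
    have : Tendsto (fun δ : I → ℝ => lam + δ) (𝓝 0) (𝓝 (lam + 0)) :=
      tendsto_const_nhds.add tendsto_id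
    rwa [add_zero] at this
  obtain ⟨U, hU, hUo, hU0⟩ := eventually_nhds_iff.1 h1
  let φ : List (ℝ × ι) × ι × ι → (I → ℝ) →L[ℝ] ℝ := fun q =>
    LinearMap.toContinuousLinearMap
      (R.cv q.2.2 (R.endp u q.1 • μ) • R.cv q.2.1 - R.cv q.2.1 (R.endp u q.1 • μ) • R.cv q.2.2)
  have hφ : ∀ q v, φ q v = R.cv q.2.2 (R.endp u q.1 • μ) * R.cv q.2.1 v -
      R.cv q.2.1 (R.endp u q.1 • μ) * R.cv q.2.2 v := fun q v => rfl
  have hfin : Set.Finite {q : List (ℝ × ι) × ι × ι |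
      q.1 ∈ L.inits ∧ q.2.2 ≠ q.2.1 ∧ q.2.2 ≠ R.ng q.2.1} := by
    refine ((List.finite_toSet L.inits).prod (Set.finite_univ (α := ι × ι))).subset ?_
    intro q hq
    exact ⟨hq.1, Set.mem_univ _⟩
  obtain ⟨δ, hδ, hav⟩ := exists_avoid _ hfin φ (fun q => -φ q (lam + R.sumL q.1)) (by
    intro q hq e
    obtain ⟨v, hv⟩ := R.cv_ne_comb hq.2.1 hq.2.2 (b := R.cv q.2.1 (R.endp u q.1 • μ))
      (R.conv_cv_ne hμ q.2.2 (R.endp u q.1))
    apply hv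
    rw [← hφ q v, e]
    rfl) hUo ⟨0, hU0⟩
  refine ⟨δ, hU δ hδ, ?_⟩
  intro L1 L2 e τ γ γ' k1 k2
  by_contra hn
  push Not at hn
  have hm : L1 ∈ L.inits := by
    rw [List.mem_inits, e]
    exact ⟨L2, rfl⟩
  apply hav (L1, γ, γ') ⟨hm, hn.1, hn.2⟩
  rw [hφ, hφ]
  simp only [map_add, map_smul, smul_eq_mul] at k1 k2 ⊢
  linear_combination R.cv γ' (R.endp u L1 • μ) * k1 - R.cv γ (R.endp u L1 • μ) * k2

end RD

end Pool.Agent.Lib.MP_1e3767_al
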