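import Pool.Agent.Lib.MP_1e3767_al.DpNice
import Pool.Agent.Lib.MP_1e3767_al.DpMove
import Pool.Agent.Lib.MP_1e3767_al.DpTri

set_option linter.unusedSectionVars false

namespace Pool.Agent.Lib.MP_1e3767_al

open Finset Filter Topology

namespace RD
variable {I ι W : Type*} [Fintype I] [DecidableEq I] [Fintype ι] [Group W] [Fintype W]
  [DistribMulAction W (I → ℝ)] [SMulCommClass W ℝ (I → ℝ)] [MulAction W ι] (R : RD I ι W)

/-- rounding to the lattice `N / M` -/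
noncomputable def rd (N : ℕ) (M : ℕ) (r : ℝ) : ℝ := N * ⌊M * r / N⌋ / M

theorem dpint_inv : Tendsto (fun M : ℕ => (M : ℝ)⁻¹) atTop (𝓝 0) :=
  tendsto_inv_atTop_nhds_zero_nat (𝕜 := ℝ)

theorem dpint_pos : ∀ᶠ M : ℕ in atTop, (0 : ℝ) < M :=
  (eventually_gt_atTop 0).mono fun _ h => Nat.cast_pos.2 h

theorem tendsto_rd {N : ℕ} (hN : 0 < N) (r : ℝ) : Tendsto (fun M => rd N M r) atTop (𝓝 r) := by
  have hN' : (0 : ℝ) < N := Nat.cast_pos.2 hN
  have h1 : Tendsto (fun M : ℕ => r - N * (M : ℝ)⁻¹) atTop (𝓝 r) := by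
    simpa using (dpint_inv.const_mul (N : ℝ)).const_sub r
  refine tendsto_of_tendsto_of_tendsto_of_le_of_le' h1 tendsto_const_nhds ?_ ?_
  · filter_upwards [dpint_pos] with M hM
    have h := Int.lt_floor_add_one ((M : ℝ) * r / N)
    rw [div_lt_iff₀ hN'] at h
    rw [rd, le_div_iff₀ hM, sub_mul, mul_assoc, inv_mul_cancel₀ hM.ne']
    nlinarith
  · filter_upwards [dpint_pos] with M hM
    have h := Int.floor_le ((M : ℝ) * r / N)
    rw [le_div_iff₀ hN'] at h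
    rw [rd, div_le_iff₀ hM]
    nlinarith

theorem rd_int (N M : ℕ) (r : ℝ) : ∃ z : ℤ, (M : ℝ) * rd N M r = N * z := by
  rcases Nat.eq_zero_or_pos M with rfl | hM
  · exact ⟨0, by simp⟩
  · have : (M : ℝ) ≠ 0 := (Nat.cast_pos.2 hM).ne'
    exact ⟨⌊(M : ℝ) * r / N⌋, by rw [rd]; field_simp⟩

/-- rounding of a vector -/
noncomputable def dpintV (N M : ℕ) (v : I → ℝ) : I → ℝ := fun i => rd N M (v i)

/-- rounding of the levels of a list -/
noncomputable def dpintL (N M : ℕ) (L : List (ℝ × ι)) : List (ℝ × ι) :=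
  L.map fun p => (rd N M p.1, p.2)

theorem dpint_tV {N : ℕ} (hN : 0 < N) (v : I → ℝ) :
    Tendsto (fun M => dpintV N M v) atTop (𝓝 v) :=
  tendsto_pi_nhds.2 fun i => tendsto_rd hN (v i)

theorem dpint_snd (N M : ℕ) (L : List (ℝ × ι)) :
    (dpintL N M L).map Prod.snd = L.map Prod.snd := by
  simp [dpintL, Function.comp_def]

theorem dpint_app (N M : ℕ) (A B : List (ℝ × ι)) :
    dpintL N M (A ++ B) = dpintL N M A ++ dpintL N M B := List.map_append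

theorem dpint_lev (N M : ℕ) (L : List (ℝ × ι)) :
    ∀ p ∈ dpintL N M L, ∃ z : ℤ, (M : ℝ) * p.1 = z := by
  intro p hp
  obtain ⟨q, -, rfl⟩ := List.mem_map.1 hp
  obtain ⟨z, hz⟩ := rd_int N M q.1
  exact ⟨N * z, by rw [hz]; push_cast; ring⟩

theorem dpint_sum_int (c : ℝ) (L : List (ℝ × ι)) (h : ∀ p ∈ L, ∃ z : ℤ, c * p.1 = z) :
    IntV (c • R.sumL L) := by
  induction L with
  | nil => exact fun i => ⟨0, by simp [sumL]⟩
  | cons p L ih =>
    intro i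
    obtain ⟨a, ha⟩ := h p (by simp)
    obtain ⟨b, hb⟩ := R.rt_int p.2 i
    obtain ⟨d, hd⟩ := ih (fun q hq => h q (by simp [hq])) i
    refine ⟨a * b + d, ?_⟩
    rw [R.sumL_cons, smul_add, Pi.add_apply, hd, smul_smul, ha, Pi.smul_apply, hb]
    simp

variable {R} (Λ : R.Lat)

theorem Lat.rd_mem (M : ℕ) (v : I → ℝ) : (M : ℝ) • (fun i => rd Λ.N M (v i)) ∈ Λ.E := by
  choose z hz using fun i => rd_int Λ.N M (v i)
  have e : ((M : ℝ) • fun i => rd Λ.N M (v i)) = (Λ.N : ℝ) • fun i => (z i : ℝ) :=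
    funext fun i => hz i
  rw [e]
  exact Λ.big _ fun i => ⟨z i, rfl⟩

theorem Lat.dpint_tL (L : List (ℝ × ι)) : Tl atTop (fun M => dpintL Λ.N M L) L :=
  tl_map_fst (fun M r => rd Λ.N M r) (tendsto_rd Λ.N_pos) L

theorem Lat.dpint_re {lam μ : I → ℝ} {u y : W} {L : List (ℝ × ι)} (h : R.NP lam μ u L y) (M : ℕ)
    (h1 : (M : ℝ) • lam ∈ Λ.E) (h2 : (M : ℝ) • μ ∈ Λ.E)
    (h3 : ∀ p ∈ L, ∃ z : ℤ, (M : ℝ) * p.1 = z) : Λ.RE ((M : ℝ) • R.psi lam μ u L y) :=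
  ⟨R.np_int h (Nat.cast_nonneg M) (Λ.int _ h1) (Λ.int _ h2) h3, h1, h2⟩

variable {g : V3 I} {lam μ : I → ℝ} {u y : W} {L : List (ℝ × ι)}

theorem Lat.dpint_main (hg : R.InC g) (h : R.Good g lam μ u L y) {δ : V3 I}
    (hδ : ∀ᶠ M : ℕ in atTop, Λ.RE ((M : ℝ) •
      R.psi (dpintV Λ.N M lam) (dpintV Λ.N M μ) u (dpintL Λ.N M L) y + δ)) : Λ.Rs g δ := by
  obtain ⟨M, h1, h2⟩ := (hδ.and
    (R.np_ev (dpint_tV Λ.N_pos lam) (dpint_tV Λ.N_pos μ) (Λ.dpint_tL L) h.1)).exists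
  exact ⟨_, Λ.dpint_re h2 M (Λ.rd_mem M lam) (Λ.rd_mem M μ) (dpint_lev _ _ _),
    Λ.hc_smul hg (Λ.good_psi hg h _ _ _ (dpint_snd _ _ _)) _, h1⟩

/-- the form of `dpint_main` for a shift of the third weight -/
theorem Lat.dpint_kap (hg : R.InC g) (h : R.Good g lam μ u L y) {v : I → ℝ} {u' y' : W}
    {L' : ℕ → List (ℝ × ι)}
    (h1 : ∀ᶠ M : ℕ in atTop, R.NP (dpintV Λ.N M lam) (dpintV Λ.N M μ) u' (L' M) y')
    (h2 : ∀ M : ℕ, (M : ℝ) ≠ 0 → ∀ p ∈ L' M, ∃ z : ℤ, (M : ℝ) * p.1 = z)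
    (h3 : ∀ M : ℕ, y' • R.End (dpintV Λ.N M lam) (dpintV Λ.N M μ) u' (L' M) =
      y • R.End (dpintV Λ.N M lam) (dpintV Λ.N M μ) u (dpintL Λ.N M L) + (M : ℝ)⁻¹ • v) :
    Λ.Rs g (kap v) := by
  refine Λ.dpint_main hg h ?_
  filter_upwards [h1, dpint_pos] with M a b
  convert Λ.dpint_re a M (Λ.rd_mem M lam) (Λ.rd_mem M μ) (h2 M b.ne') using 1
  simp only [psi, kap, h3, Prod.smul_mk, Prod.mk_add_mk, add_zero, smul_add, smul_smul,
    mul_inv_cancel₀ b.ne', one_smul]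

theorem Lat.rs_lm (hg : R.InC g) (h : R.Good g lam μ u L y) {a b : I → ℝ} (ha : a ∈ Λ.E)
    (hb : b ∈ Λ.E) : Λ.Rs g (a, b, y • a + (y * R.endp u L) • b) := by
  refine Λ.dpint_main hg h ?_
  have k : ∀ v c : I → ℝ, Tendsto (fun M : ℕ => dpintV Λ.N M v + (M : ℝ)⁻¹ • c) atTop (𝓝 v) :=
    fun v c => by simpa using (dpint_tV Λ.N_pos v).add (dpint_inv.smul_const c)
  filter_upwards [R.np_ev (k lam a) (k μ b) (Λ.dpint_tL L) h.1, dpint_pos] with M h1 h2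
  have e : ∀ v c : I → ℝ, (M : ℝ) • (v + (M : ℝ)⁻¹ • c) = (M : ℝ) • v + c := fun v c => by
    rw [smul_add, smul_smul, mul_inv_cancel₀ h2.ne', one_smul]
  convert Λ.dpint_re h1 M (by rw [e]; exact Λ.E.add_mem (Λ.rd_mem M lam) ha)
    (by rw [e]; exact Λ.E.add_mem (Λ.rd_mem M μ) hb) (dpint_lev _ _ _) using 1
  simp only [psi, Prod.smul_mk, Prod.mk_add_mk, e, End, R.endp_congr u (dpint_snd Λ.N M L)]
  congr 2
  rw [← e]
  congr 1
  simp only [smul_add, mul_smul, smul_comm y (M : ℝ)⁻¹, smul_comm (R.endp u L) (M : ℝ)⁻¹]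
  abel

theorem Lat.rs_lab (hg : R.InC g) (h : R.Good g lam μ u L y) {p : ℝ × ι} (hp : p ∈ L) (z : ℤ) :
    Λ.Rs g (kap ((z : ℝ) • y • R.rt p.2)) := by
  obtain ⟨A, B, rfl⟩ := List.append_of_mem hp
  have k : Tendsto (fun M : ℕ => rd Λ.N M p.1 + (M : ℝ)⁻¹ * z) atTop (𝓝 p.1) := by
    simpa using (tendsto_rd Λ.N_pos p.1).add (dpint_inv.mul_const (z : ℝ))
  refine Λ.dpint_kap hg h (u' := u) (y' := y)
    (L' := fun M => dpintL Λ.N M A ++ (rd Λ.N M p.1 + (M : ℝ)⁻¹ * z, p.2) :: dpintL Λ.N M B)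
    (R.np_ev (dpint_tV Λ.N_pos lam) (dpint_tV Λ.N_pos μ)
      (tl_append (Λ.dpint_tL A) (tl_cons p.2 k (Λ.dpint_tL B))) h.1) ?_ fun M => ?_
  · intro M hM q hq
    rcases List.mem_append.1 hq with hq | hq
    · exact dpint_lev _ _ _ q hq
    · rcases List.mem_cons.1 hq with rfl | hq
      · obtain ⟨w, hw⟩ := rd_int Λ.N M p.1
        exact ⟨Λ.N * w + z, by rw [mul_add, hw, mul_inv_cancel_left₀ hM]; push_cast; ring⟩
      · exact dpint_lev _ _ _ q hq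
  · have e : dpintL Λ.N M (A ++ p :: B) =
        dpintL Λ.N M A ++ (rd Λ.N M p.1, p.2) :: dpintL Λ.N M B := by simp [dpintL]
    rw [e, End, End, R.endp_congr u (b := dpintL Λ.N M A ++ (rd Λ.N M p.1, p.2) :: dpintL Λ.N M B)
      (by simp)]
    simp only [R.sumL_append, R.sumL_cons, add_smul, smul_add, mul_smul, smul_comm y (M : ℝ)⁻¹,
      smul_comm y (z : ℝ)]
    abel

theorem Lat.rs_e0 (hg : R.InC g) (h : R.Good g lam μ u L y) {γ : ι}
    (hγ : R.Cover (R.s γ * u) γ) : Λ.Rs g (kap (-(y • R.rt γ))) := by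
  refine Λ.dpint_kap hg h (R.e0_ev (dpint_tV Λ.N_pos lam) (dpint_tV Λ.N_pos μ) (Λ.dpint_tL L)
    h.1 hγ dpint_inv (dpint_pos.mono fun M hM => inv_pos.2 hM)) ?_ fun M => ?_
  · intro M hM q hq
    rcases List.mem_cons.1 hq with rfl | hq
    · exact ⟨-1, by simp [mul_inv_cancel₀ hM]⟩
    · exact dpint_lev _ _ _ q hq
  · rw [R.End_e0, smul_sub, smul_comm y (M : ℝ)⁻¹, smul_neg, sub_eq_add_neg]

theorem Lat.rs_e1 (hg : R.InC g) (h : R.Good g lam μ u L y) {β : ι}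
    (hβ : R.Cover (y * R.endp u L) β) : Λ.Rs g (kap (R.rt β)) := by
  refine Λ.dpint_kap hg h (R.e1_ev (γ := y⁻¹ • β) (dpint_tV Λ.N_pos lam) (dpint_tV Λ.N_pos μ)
    (Λ.dpint_tL L) h.1 (by rwa [smul_inv_smul]) dpint_inv
    (dpint_pos.mono fun M hM => inv_pos.2 hM)) ?_ fun M => ?_
  · intro M hM q hq
    rcases List.mem_append.1 hq with hq | hq
    · exact dpint_lev _ _ _ q hq
    · rw [List.mem_singleton.1 hq]
      obtain ⟨w, hw⟩ := R.cv_int (y⁻¹ • β)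
        (R.intV_smul (Λ.int _ (Λ.rd_mem M μ)) (R.endp u (dpintL Λ.N M L)))
      rw [smul_comm, map_smul, smul_eq_mul] at hw
      refine ⟨w + 1, ?_⟩
      rw [mul_add, mul_inv_cancel₀ hM, Int.cast_add, ← hw, Int.cast_one]
      rfl
  · rw [R.End_e1, smul_add, smul_comm y (M : ℝ)⁻¹, R.smul_rt, smul_inv_smul]

theorem Lat.rs_e2 (hg : R.InC g) {L1 L2 : List (ℝ × ι)} (h : R.Good g lam μ u (L1 ++ L2) y)
    (hG : R.Gen lam μ u (L1 ++ L2)) {γ : ι} {τ : ℝ} (hx : R.Cross lam μ u L1 L2 γ τ) :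
    Λ.Rs g (kap (-(y • R.rt γ))) := by
  refine Λ.dpint_kap hg h (R.e2_ev (dpint_tV Λ.N_pos lam) (dpint_tV Λ.N_pos μ) (Λ.dpint_tL L1)
    (Λ.dpint_tL L2) h.1 hG hx dpint_inv (dpint_pos.mono fun M hM => inv_pos.2 hM)) ?_ fun M => ?_
  · intro M hM q hq
    rcases List.mem_append.1 hq with hq | hq
    · exact dpint_lev _ _ _ q hq
    · rcases List.mem_cons.1 hq with rfl | hq
      · obtain ⟨a, ha⟩ := R.cv_int γ (Λ.int _ (Λ.rd_mem M lam))
        obtain ⟨b, hb⟩ := R.cv_int γ (R.dpint_sum_int _ _ (dpint_lev Λ.N M L1))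
        rw [map_smul, smul_eq_mul] at ha hb
        refine ⟨1 - (a + b), ?_⟩
        rw [mul_sub, mul_inv_cancel₀ hM, map_add, mul_add, hb, Int.cast_sub, Int.cast_add, ← ha,
          Int.cast_one]
        rfl
      · obtain ⟨r, hr, rfl⟩ := List.mem_map.1 hq
        exact dpint_lev _ _ _ r hr
  · rw [mul_smul, R.End_e2, dpint_app, smul_sub, smul_comm y (M : ℝ)⁻¹, smul_neg, sub_eq_add_neg]

include Λ

/-- a generic nice path in the face that cannot be extended inside the face -/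
theorem Lat.exists_max_good (hg : R.InC g) (hr : Reg3 g) :
    ∃ lam μ u L y, R.Good g lam μ u L y ∧ R.Gen lam μ u L ∧
      (∀ γ, R.Cover (R.s γ * u) γ → ¬ R.Hc g (kap (y • R.rt γ))) ∧
      ∀ β, R.Cover (y * R.endp u L) β → ¬ R.Hc g (kap (R.rt β)) := by
  set S : Set ℕ := {n | ∃ lam μ u L y, R.Good g lam μ u L y ∧
    R.len u + (R.Pos.card - R.len (y * R.endp u L)) = n} with hS
  have hb : BddAbove S := ⟨2 * R.Pos.card, by
    rintro n ⟨lam, μ, u, L, y, -, rfl⟩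
    have := R.len_le u
    omega⟩
  have hn : S.Nonempty := by
    obtain ⟨lam, u, L, y, h, -⟩ := Λ.nice hg hr
    exact ⟨_, lam, _, u, L, y, h, rfl⟩
  obtain ⟨lam, μ, u, L, y, h, hm⟩ := Nat.sSup_mem hn hb
  have hmax : ∀ u' L', R.Good g lam μ u' L' y →
      R.len u' + (R.Pos.card - R.len (y * R.endp u' L')) ≤
        R.len u + (R.Pos.card - R.len (y * R.endp u L)) := fun u' L' h' =>
    hm ▸ le_csSup hb ⟨lam, μ, u', L', y, h', rfl⟩
  have t0 : Tendsto (fun x : ℝ => x) (𝓝[>] 0) (𝓝 0) := tendsto_id.mono_left nhdsWithin_le_nhds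
  obtain ⟨δ, h1, h2⟩ := R.exists_gen h.1
  refine ⟨lam + δ, μ, u, L, y, ⟨h1, h.2.1, Λ.good_psi hg h _ _ L rfl⟩, h2, fun γ hγ hc => ?_,
    fun β hβ hc => ?_⟩
  · obtain ⟨ε, hε⟩ := (R.e0_ev tendsto_const_nhds tendsto_const_nhds (tl_const _ L) h.1 hγ t0
      self_mem_nhdsWithin).exists
    have e : R.psi lam μ (R.s γ * u) ((-ε, γ) :: L) y =
        R.psi lam μ u L y + (-ε) • kap (y • R.rt γ) := by
      simp only [psi, kap, R.End_e0, Prod.smul_mk, Prod.mk_add_mk, smul_zero, add_zero,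
        smul_comm y ε, neg_smul, sub_eq_add_neg, Prod.neg_mk, neg_zero, smul_add, smul_neg]
    have k := hmax _ _ ⟨hε, fun p hp => by
      rcases List.mem_cons.1 hp with rfl | hp
      · exact hc
      · exact h.2.1 p hp, e ▸ Λ.hc_add h.2.2 (Λ.hc_smul hg hc _)⟩
    have l := hγ.2
    rw [R.endp_cons', R.s_mul_s_mul] at k
    rw [R.s_mul_s_mul] at l
    omega
  · obtain ⟨ε, hε⟩ := (R.e1_ev (γ := y⁻¹ • β) tendsto_const_nhds tendsto_const_nhds
      (tl_const _ L) h.1 (by rwa [smul_inv_smul]) t0 self_mem_nhdsWithin).exists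
    have e0 : y • R.rt (y⁻¹ • β) = R.rt β := by rw [R.smul_rt, smul_inv_smul]
    have e : R.psi lam μ u (L ++ [(R.cv (y⁻¹ • β) (R.endp u L • μ) + ε, y⁻¹ • β)]) y =
        R.psi lam μ u L y + ε • kap (R.rt β) := by
      simp only [psi, kap, R.End_e1, Prod.smul_mk, Prod.mk_add_mk, smul_zero, add_zero,
        smul_add, smul_comm y ε, e0]
    have k := hmax _ _ ⟨hε, fun p hp => by
      rcases List.mem_append.1 hp with hp | hp
      · exact h.2.1 p hp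
      · rw [List.mem_singleton.1 hp, e0]
        exact hc, e ▸ Λ.hc_add h.2.2 (Λ.hc_smul hg hc _)⟩
    have e2 : y * (R.s (y⁻¹ • β) * R.endp u L) = R.s β * (y * R.endp u L) := by
      rw [R.s_conj]
      group
    have l := hβ.2
    have l2 := R.len_le (y * R.endp u L)
    rw [R.endp_append, R.endp_cons', R.endp_nil', e2] at k
    omega

end RD

end Pool.Agent.Lib.MP_1e3767_al
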