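import Pool.Agent.Lib.MP_1e3767_al.LieSat
import Pool.Agent.Lib.MP_1e3767_al.DpFold

set_option linter.unusedSectionVars false

namespace Pool.Agent.Lib.MP_1e3767_al

open Finset

universe v

namespace Rlz
variable {I ι W : Type*} [Fintype I] [DecidableEq I] [Fintype ι] [Group W] [Fintype W]
  [DistribMulAction W (I → ℝ)] [SMulCommClass W ℝ (I → ℝ)] [MulAction W ι] {R : RD I ι W}
  {L : Type*} [LieRing L] [LieAlgebra ℂ L] [Module.Finite ℂ L] (T : Rlz R.toRD0 L)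

/-- a finite-dimensional irreducible module with highest weight `lam` exists -/
def Ex (lam : I → ℝ) : Prop :=
  ∃ (M : Type v) (_ : AddCommGroup M) (_ : Module ℂ M) (_ : LieRingModule L M)
    (_ : LieModule ℂ L M), Module.Finite ℂ M ∧ LieModule.IsIrreducible ℂ L M ∧
      ∃ m : M, T.IsHWv lam m

theorem dpLieA_reg {lam : I → ℝ} (h : Dom lam) : Reg (lam + rho) := fun i => by
  have := h i
  simp only [Pi.add_apply, rho]
  linarith

theorem dpLieA_dom {lam : I → ℝ} (h : Dom lam) : Dom (lam + rho) := fun i =>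
  (dpLieA_reg h i).le

theorem dpLieA_uniq {M : Type*} [AddCommGroup M] [Module ℂ M] [LieRingModule L M]
    [LieModule ℂ L M] [LieModule.IsIrreducible ℂ L M] {lam κ : I → ℝ} {m m' : M}
    (h : T.IsHWv lam m) (h' : T.IsHWv κ m') : lam = κ := by
  have h1 := T.inQp_of_wsp_ne_bot h (v := κ)
    (Submodule.ne_bot_iff _ |>.2 ⟨m', h'.2.1, h'.1⟩)
  have h2 := T.inQp_of_wsp_ne_bot h' (v := lam)
    (Submodule.ne_bot_iff _ |>.2 ⟨m, h.2.1, h.1⟩)
  have h3 := R.ht_nonneg_of_inQp h2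
  refine sub_eq_zero.1 (R.eq_zero_of_inQp h1 ?_)
  rw [map_sub] at h3 ⊢
  linarith

theorem dpLieA_irr {M : Type*} [AddCommGroup M] [Module ℂ M] [LieRingModule L M]
    [LieModule ℂ L M] [Module.Finite ℂ M] [Nontrivial M] [LieModule.IsIrreducible ℂ L M]
    {X : GR I} (hX : T.HasChar M X) {κ : I → ℝ} (hκ : Dom κ) :
    ∃ n : ℕ, (R.delta * X).coeff (κ + rho) = n ∧ (n ≠ 0 ↔ ∃ m : M, T.IsHWv κ m) := by
  obtain ⟨lam, m, h⟩ := T.exists_isHWv (T.iSup_wsp_of_hasChar hX)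
  rw [T.weyl_char h hX, R.coeff_AA_dom (dpLieA_reg (T.dom_of_isHWv h).1) (dpLieA_dom hκ)]
  by_cases h0 : lam = κ
  · subst h0
    exact ⟨1, by simp, fun _ => ⟨m, h⟩, fun _ => one_ne_zero⟩
  · refine ⟨0, ?_, fun hn => absurd rfl hn, ?_⟩
    · rw [if_neg (fun e => h0 (add_right_cancel e)), Nat.cast_zero]
    · rintro ⟨m', h1⟩
      exact absurd (T.dpLieA_uniq h h1) h0

theorem dpLieA_split {M : Type*} [AddCommGroup M] [Module ℂ M] [LieRingModule L M]
    [LieModule ℂ L M] {N N' : LieSubmodule ℂ L M} (hc : IsCompl N N') (κ : I → ℝ) :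
    (∃ m : M, T.IsHWv κ m) ↔ (∃ m : N, T.IsHWv κ m) ∨ (∃ m : N', T.IsHWv κ m) := by
  constructor
  · rintro ⟨m, h0, hw, hm⟩
    have hmem : m ∈ N ⊔ N' := by rw [hc.sup_eq_top]; trivial
    obtain ⟨a, ha, b, hb, rfl⟩ := (LieSubmodule.mem_sup N N' m).1 hmem
    have h1 : ∀ (x : L) (c : ℂ), ⁅x, a + b⁆ = c • (a + b) → ⁅x, a⁆ = c • a := fun x c hx => by
      have h2 : ⁅x, a⁆ - c • a = c • b - ⁅x, b⁆ := by
        rw [lie_add, smul_add] at hx
        rw [sub_eq_sub_iff_add_eq_add, hx, add_comm]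
      have h3 : ⁅x, a⁆ - c • a ∈ N ⊓ N' :=
        (LieSubmodule.mem_inf N N' _).2 ⟨sub_mem (N.lie_mem ha) (N.smul_mem c ha),
          h2 ▸ sub_mem (N'.smul_mem c hb) (N'.lie_mem hb)⟩
      rwa [hc.inf_eq_bot, LieSubmodule.mem_bot, sub_eq_zero] at h3
    by_cases ha0 : a = 0
    · subst ha0
      rw [zero_add] at h0 hm hw
      exact Or.inr ⟨⟨b, hb⟩, fun e => h0 (congrArg Subtype.val e), fun i => Subtype.ext (hw i),
        fun β hβ => Subtype.ext (hm β hβ)⟩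
    · exact Or.inl ⟨⟨a, ha⟩, fun e => ha0 (congrArg Subtype.val e),
        fun i => Subtype.ext (h1 _ _ (hw i)), fun β hβ => Subtype.ext
          ((h1 _ 0 ((hm β hβ).trans (zero_smul ℂ _).symm)).trans (zero_smul ℂ _))⟩
  · rintro (⟨m, h0, hw, hm⟩ | ⟨m, h0, hw, hm⟩)
    · exact ⟨m, fun e => h0 (Subtype.ext e), fun i => congrArg Subtype.val (hw i),
        fun β hβ => congrArg Subtype.val (hm β hβ)⟩
    · exact ⟨m, fun e => h0 (Subtype.ext e), fun i => congrArg Subtype.val (hw i),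
        fun β hβ => congrArg Subtype.val (hm β hβ)⟩

universe u in
theorem dpLieA_aux [LieAlgebra.IsKilling ℂ L] {κ : I → ℝ} (hκ : Dom κ) (k : ℕ) :
    ∀ (M : Type u) [AddCommGroup M] [Module ℂ M] [LieRingModule L M] [LieModule ℂ L M]
      [Module.Finite ℂ M], Module.finrank ℂ M = k → ∀ X : GR I, T.HasChar M X →
      ∃ n : ℕ, (R.delta * X).coeff (κ + rho) = n ∧ (n ≠ 0 ↔ ∃ m : M, T.IsHWv κ m) := by
  induction k using Nat.strong_induction_on with
  | _ k ih =>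
    intro M _ _ _ _ _ hk X hX
    rcases subsingleton_or_nontrivial M with hM | hM
    · obtain ⟨n, b, wt, -, rfl⟩ := hX
      have hn : IsEmpty (Fin n) := ⟨fun j => b.ne_zero j (Subsingleton.elim _ _)⟩
      refine ⟨0, by simp, fun hn => absurd rfl hn, ?_⟩
      rintro ⟨m, h0, -⟩
      exact absurd (Subsingleton.elim _ _) h0
    by_cases hirr : ∀ N : LieSubmodule ℂ L M, N ≠ ⊥ → N = ⊤
    · have := LieModule.IsIrreducible.mk hirr
      exact T.dpLieA_irr hX hκ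
    push Not at hirr
    obtain ⟨N, hb, ht⟩ := hirr
    obtain ⟨N', hc⟩ := CR.weyl N
    have ht' : N' ≠ ⊤ := fun e => hb (by have := hc.inf_eq_bot; rwa [e, inf_top_eq] at this)
    have hlt : ∀ P : LieSubmodule ℂ L M, P ≠ ⊤ → Module.finrank ℂ P < k := fun P hP =>
      hk ▸ Submodule.finrank_lt (s := P.toSubmodule)
        (fun e => hP ((LieSubmodule.toSubmodule_eq_top P).1 e))
    have hsup := T.iSup_wsp_of_hasChar hX
    obtain ⟨Y, hY⟩ := T.exists_hasChar (T.iSup_wsp_sub hc hsup)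
    obtain ⟨Y', hY'⟩ := T.exists_hasChar (T.iSup_wsp_sub hc.symm hsup)
    obtain ⟨n, h1, h2⟩ := ih _ (hlt N ht) N rfl Y hY
    obtain ⟨n', h1', h2'⟩ := ih _ (hlt N' ht') N' rfl Y' hY'
    refine ⟨n + n', ?_, ?_⟩
    · rw [T.hasChar_unique hX (T.hasChar_compl hc hY hY'), mul_add, Nat.cast_add, ← h1, ← h1']
      simp
    · rw [T.dpLieA_split hc, ← h2, ← h2']
      omega

theorem dpLieA_quot [LieAlgebra.IsKilling ℂ L] (k : ℕ) :
    ∀ (M : Type v) [AddCommGroup M] [Module ℂ M] [LieRingModule L M] [LieModule ℂ L M]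
      [Module.Finite ℂ M], Module.finrank ℂ M = k → ∀ m : M, m ≠ 0 →
      ∃ (N : Type v) (_ : AddCommGroup N) (_ : Module ℂ N) (_ : LieRingModule L N)
        (_ : LieModule ℂ L N), Module.Finite ℂ N ∧ LieModule.IsIrreducible ℂ L N ∧
          ∃ p : M →ₗ⁅ℂ,L⁆ N, p m ≠ 0 := by
  induction k using Nat.strong_induction_on with
  | _ k ih =>
    intro M _ _ _ _ _ hk m hm
    have : Nontrivial M := ⟨m, 0, hm⟩
    by_cases hirr : ∀ N : LieSubmodule ℂ L M, N ≠ ⊥ → N = ⊤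
    · exact ⟨M, inferInstance, inferInstance, inferInstance, inferInstance, inferInstance,
        LieModule.IsIrreducible.mk hirr, LieModuleHom.id, hm⟩
    push Not at hirr
    obtain ⟨N, hb, ht⟩ := hirr
    obtain ⟨N', hc⟩ := CR.weyl N
    have hb' : N' ≠ ⊥ := fun e => ht (by have := hc.sup_eq_top; rwa [e, sup_bot_eq] at this)
    have key : ∃ P : LieSubmodule ℂ L M, P ≠ ⊥ ∧ m ∉ P := by
      by_cases h1 : m ∈ N
      · refine ⟨N', hb', fun h2 => hm ?_⟩
        have h3 := (LieSubmodule.mem_inf N N' _).2 ⟨h1, h2⟩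
        rwa [hc.inf_eq_bot, LieSubmodule.mem_bot] at h3
      · exact ⟨N, hb, h1⟩
    obtain ⟨P, hP, hmP⟩ := key
    have : Module.Finite ℂ (M ⧸ P) := Module.Finite.quotient ℂ P.toSubmodule
    have hlt : Module.finrank ℂ (M ⧸ P) < k := by
      have h1 := Submodule.finrank_quotient_add_finrank P.toSubmodule
      have h2 : Module.finrank ℂ P.toSubmodule ≠ 0 := fun e =>
        hP ((LieSubmodule.toSubmodule_eq_bot P).1 (Submodule.finrank_eq_zero.1 e))
      have h3 : Module.finrank ℂ (M ⧸ P) = Module.finrank ℂ (M ⧸ P.toSubmodule) := rfl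
      omega
    obtain ⟨Q, _, _, _, _, hf, hi, p, hp⟩ := ih _ hlt (M ⧸ P) rfl
      (LieSubmodule.Quotient.mk' P m) fun e => hmP ((LieSubmodule.Quotient.mk_eq_zero P).1 e)
    exact ⟨Q, inferInstance, inferInstance, inferInstance, inferInstance, hf, hi,
      p.comp (LieSubmodule.Quotient.mk' P), hp⟩

/-- highest weight vectors are detected by the coefficient of `κ + rho` -/
theorem hw_iff [LieAlgebra.IsKilling ℂ L] {M : Type*} [AddCommGroup M] [Module ℂ M]
    [LieRingModule L M] [LieModule ℂ L M] [Module.Finite ℂ M] {X : GR I} (hX : T.HasChar M X)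
    {κ : I → ℝ} (hκ : Dom κ) :
    ∃ n : ℕ, (R.delta * X).coeff (κ + rho) = n ∧ (n ≠ 0 ↔ ∃ m : M, T.IsHWv κ m) :=
  T.dpLieA_aux hκ _ M rfl X hX

/-- highest weight vectors of a tensor product are detected by LS paths -/
theorem rp_iff [LieAlgebra.IsKilling ℂ L]
    {A : Type*} [AddCommGroup A] [Module ℂ A] [LieRingModule L A] [LieModule ℂ L A]
    [Module.Finite ℂ A] [LieModule.IsIrreducible ℂ L A]
    {B : Type*} [AddCommGroup B] [Module ℂ B] [LieRingModule L B] [LieModule ℂ L B]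
    [Module.Finite ℂ B] [LieModule.IsIrreducible ℂ L B]
    {lam μ κ : I → ℝ} {a : A} {b : B} (ha : T.IsHWv lam a) (hb : T.IsHWv μ b) (hκ : Dom κ) :
    R.Rp (lam, μ, κ) ↔ ∃ m : TensorProduct ℂ A B, T.IsHWv κ m := by
  classical
  obtain ⟨hld, hli⟩ := T.dom_of_isHWv ha
  obtain ⟨hmd, hmi⟩ := T.dom_of_isHWv hb
  obtain ⟨n, h1, h2⟩ := T.hw_iff (T.hasChar_tensor (T.char_eq_chB ha) (T.char_eq_chB hb)) hκ
  rw [← mul_assoc, R.delta_eq, R.AA_rho_mul_chB hld hli, R.brauer hld hli hmd hmi,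
    AddMonoidAlgebra.coeff_sum, Finsupp.finsetSum_apply,
    Finset.sum_congr rfl (g := fun π => ((if lam + π 1 = κ then 1 else 0 : ℕ) : ℂ)),
    ← Nat.cast_sum, Nat.cast_inj] at h1
  · rw [← h2, ← h1, R.rp_iff_bb]
    constructor
    · rintro ⟨-, π, hπ, hd, he⟩ h0
      have h3 := Finset.sum_eq_zero_iff.1 h0 π
        (Finset.mem_filter.2 ⟨(Set.Finite.mem_toFinset _).2 hπ, hd⟩)
      rw [if_pos he] at h3
      exact one_ne_zero h3
    · intro h
      obtain ⟨π, hπ, hne⟩ := Finset.exists_ne_zero_of_sum_ne_zero h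
      rw [Finset.mem_filter, Set.Finite.mem_toFinset] at hπ
      exact ⟨hmd, π, hπ.1, hπ.2, by_contra fun e => hne (if_neg e)⟩
  · intro π hπ
    have h3 : Dom (lam + π 1) := (Finset.mem_filter.1 hπ).2 1 ⟨zero_le_one, le_refl _⟩
    rw [add_right_comm, R.coeff_AA_dom (dpLieA_reg h3) (dpLieA_dom hκ)]
    simp only [add_left_inj]
    split_ifs <;> simp

/-- a nonzero vector survives in an irreducible quotient -/
theorem exists_irr_quot [LieAlgebra.IsKilling ℂ L] (M : Type v) [AddCommGroup M] [Module ℂ M]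
    [LieRingModule L M] [LieModule ℂ L M] [Module.Finite ℂ M] {m : M} (hm : m ≠ 0) :
    ∃ (N : Type v) (_ : AddCommGroup N) (_ : Module ℂ N) (_ : LieRingModule L N)
      (_ : LieModule ℂ L N), Module.Finite ℂ N ∧ LieModule.IsIrreducible ℂ L N ∧
        ∃ p : M →ₗ⁅ℂ,L⁆ N, p m ≠ 0 :=
  dpLieA_quot _ M rfl m hm

theorem isHWv_map {M N : Type*} [AddCommGroup M] [Module ℂ M] [LieRingModule L M]
    [LieModule ℂ L M] [AddCommGroup N] [Module ℂ N] [LieRingModule L N] [LieModule ℂ L N]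
    (p : M →ₗ⁅ℂ,L⁆ N) {lam : I → ℝ} {m : M} (h : T.IsHWv lam m) (h0 : p m ≠ 0) :
    T.IsHWv lam (p m) :=
  ⟨h0, fun i => by rw [← LieModuleHom.map_lie, h.2.1 i, map_smul],
    fun β hβ => by rw [← LieModuleHom.map_lie, h.2.2 β hβ, map_zero]⟩

theorem isHWv_tmul {A B : Type*} [AddCommGroup A] [Module ℂ A] [LieRingModule L A]
    [LieModule ℂ L A] [AddCommGroup B] [Module ℂ B] [LieRingModule L B] [LieModule ℂ L B]
    {lam μ : I → ℝ} {a : A} {b : B} (ha : T.IsHWv lam a) (hb : T.IsHWv μ b) :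
    T.IsHWv (lam + μ) (a ⊗ₜ[ℂ] b) := by
  refine ⟨fun e => ?_, fun i => ?_, fun β hβ => ?_⟩
  · obtain ⟨φ, hφ⟩ := Module.Projective.exists_dual_eq_one ℂ ha.1
    have h1 := congrArg (TensorProduct.lift ((LinearMap.lsmul ℂ B).comp φ)) e
    rw [TensorProduct.lift.tmul, map_zero, LinearMap.comp_apply, hφ, LinearMap.lsmul_apply,
      one_smul] at h1
    exact hb.1 h1
  · rw [TensorProduct.LieModule.lie_tmul_right, ha.2.1 i, hb.2.1 i, ← TensorProduct.smul_tmul',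
      TensorProduct.tmul_smul, ← add_smul, Pi.add_apply, Complex.ofReal_add]
  · rw [TensorProduct.LieModule.lie_tmul_right, ha.2.2 β hβ, hb.2.2 β hβ,
      TensorProduct.zero_tmul, TensorProduct.tmul_zero, add_zero]

theorem ex_of_rp [LieAlgebra.IsKilling ℂ L] {lam μ κ : I → ℝ} (hl : Ex.{v} T lam)
    (hμ : Ex.{v} T μ) (h : R.Rp (lam, μ, κ)) : Ex.{v} T κ := by
  obtain ⟨A, _, _, _, _, _, _, a, ha⟩ := hl
  obtain ⟨B, _, _, _, _, _, _, b, hb⟩ := hμ
  have hκ : Dom κ := by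
    obtain ⟨-, π, -, hd, he⟩ := (R.rp_iff_bb _).1 h
    exact (show lam + π 1 = κ from he) ▸ hd 1 ⟨zero_le_one, le_refl _⟩
  obtain ⟨m, hm⟩ := (T.rp_iff ha hb hκ).1 h
  obtain ⟨N, _, _, _, _, hf, hi, p, hp⟩ := exists_irr_quot (L := L) (TensorProduct ℂ A B) hm.1
  exact ⟨N, inferInstance, inferInstance, inferInstance, inferInstance, hf, hi, p m,
    T.isHWv_map p hm hp⟩

end Rlz

end Pool.Agent.Lib.MP_1e3767_al
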