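import Pool.Agent.Lib.MP_1e3767_al.DpLieA

set_option linter.unusedSectionVars false

namespace Pool.Agent.Lib.MP_1e3767_al

open Finset

universe v

namespace Rlz
variable {I ι W : Type*} [Fintype I] [DecidableEq I] [Fintype ι] [Group W] [Fintype W]
  [DistribMulAction W (I → ℝ)] [SMulCommClass W ℝ (I → ℝ)] [MulAction W ι] {R : RD I ι W}
  {L : Type*} [LieRing L] [LieAlgebra ℂ L] [Module.Finite ℂ L] (T : Rlz R.toRD0 L)

/-- top term of the Leibniz rule -/
theorem leib_top {U U' U'' : Type*} [AddCommGroup U] [Module ℂ U] [AddCommGroup U'] [Module ℂ U']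
    [AddCommGroup U''] [Module ℂ U''] (P : U →ₗ[ℂ] U' →ₗ[ℂ] U'') (E : U →ₗ[ℂ] U)
    (E' : U' →ₗ[ℂ] U') (E'' : U'' →ₗ[ℂ] U'')
    (h : ∀ m m', E'' (P m m') = P (E m) m' + P m (E' m')) (n n' : ℕ) {m : U} {m' : U'}
    (h1 : (E ^ (n + 1)) m = 0) (h2 : (E' ^ (n' + 1)) m' = 0) :
    (E'' ^ (n + n')) (P m m') = ((n + n').choose n : ℂ) • P ((E ^ n) m) ((E' ^ n') m') := by
  induction n generalizing n' m m' with
  | zero =>
    induction n' generalizing m' with
    | zero => simp
    | succ b ihb =>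
      have hm : E m = 0 := by simpa using h1
      have h3 : (E' ^ (b + 1)) (E' m') = 0 := by
        rw [pow_succ, Module.End.mul_apply] at h2; exact h2
      have h4 := ihb h3
      rw [zero_add] at h4
      rw [zero_add, pow_succ, Module.End.mul_apply, h, hm, map_zero, LinearMap.zero_apply,
        zero_add, h4, pow_succ E' b, Module.End.mul_apply]
      simp
  | succ a iha =>
    have h1' : (E ^ (a + 1)) (E m) = 0 := by
      rw [pow_succ, Module.End.mul_apply] at h1; exact h1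
    induction n' generalizing m' with
    | zero =>
      have hm : E' m' = 0 := by simpa using h2
      have h4 := iha 0 h1' h2
      rw [add_zero] at h4
      rw [add_zero, pow_succ, Module.End.mul_apply, h, hm, map_zero, add_zero, h4,
        pow_succ E a, Module.End.mul_apply]
      simp
    | succ b ihb =>
      have h3 : (E' ^ (b + 1)) (E' m') = 0 := by
        rw [pow_succ, Module.End.mul_apply] at h2; exact h2
      have h4 := ihb h3
      have h5 := iha (b + 1) h1' h2
      have e1 : a + (b + 1) = a + 1 + b := by omega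
      rw [e1] at h5
      have e2 : a + 1 + (b + 1) = (a + 1 + b) + 1 := by omega
      rw [e2, pow_succ E'' (a + 1 + b), Module.End.mul_apply, h, map_add, h4, h5,
        Nat.choose_succ_succ, ← Module.End.mul_apply (E ^ a) E, ← pow_succ,
        ← Module.End.mul_apply (E' ^ b) E', ← pow_succ, ← add_smul]
      push_cast
      rfl

theorem dplieb_pow {U : Type*} [AddCommGroup U] [Module ℂ U] [LieRingModule L U]
    [LieModule ℂ L U] (q : I → ℝ) (E : U →ₗ[ℂ] U)
    (hE : ∀ v m, T.IsWt v m → T.IsWt (v + q) (E m)) {v : I → ℝ} {m : U} (hv : T.IsWt v m)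
    (k : ℕ) : T.IsWt (v + (k : ℝ) • q) ((E ^ k) m) := by
  induction k with
  | zero => simpa using hv
  | succ k ih =>
    have h1 := hE _ _ ih
    rw [pow_succ', Module.End.mul_apply]
    convert h1 using 1
    push_cast
    rw [add_smul, one_smul, add_assoc]

theorem dplieb_ne_bot {U : Type*} [AddCommGroup U] [Module ℂ U] [LieRingModule L U]
    [LieModule ℂ L U] {v : I → ℝ} {m : U} (hv : T.IsWt v m) (hm : m ≠ 0) : T.wsp U v ≠ ⊥ := by
  intro hb
  have := T.mem_wsp.2 hv
  rw [hb] at this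
  exact hm ((Submodule.mem_bot ℂ).1 this)

theorem dplieb_top {U : Type*} [AddCommGroup U] [Module ℂ U] [LieRingModule L U]
    [LieModule ℂ L U] [Module.Finite ℂ U] (q : I → ℝ) (hq : 0 < R.ht q) (E : U →ₗ[ℂ] U)
    (hE : ∀ v m, T.IsWt v m → T.IsWt (v + q) (E m)) {v : I → ℝ} {m : U} (hv : T.IsWt v m)
    (hm : m ≠ 0) : ∃ n : ℕ, (E ^ n) m ≠ 0 ∧ (E ^ (n + 1)) m = 0 := by
  have hfin : {v : I → ℝ | T.wsp U v ≠ ⊥}.Finite :=
    Submodule.finite_ne_bot_of_iSupIndep (T.iSupIndep_wsp (M := U))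
  have hex : ∃ k : ℕ, (E ^ k) m = 0 := by
    by_contra! hc
    have hinj : Function.Injective (fun k : ℕ => v + (k : ℝ) • q) := by
      intro a b hab
      have h1 := congrArg R.ht hab
      simp only [map_add, map_smul, smul_eq_mul] at h1
      have h2 : (a : ℝ) = b := mul_right_cancel₀ hq.ne' (by linarith)
      exact_mod_cast h2
    refine Set.infinite_of_injective_forall_mem hinj (fun k => ?_) hfin
    exact T.dplieb_ne_bot (T.dplieb_pow q E hE hv k) (hc k)
  exact Nat.exists_not_and_succ_of_not_zero_of_exists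
    (p := fun k => (E ^ k) m = 0) (by simpa using hm) hex

/-- string argument: a product that is nonzero on extremal vectors has no zero divisors among
weight vectors -/
theorem string_arg {U U' U'' : Type*} [AddCommGroup U] [Module ℂ U] [LieRingModule L U]
    [LieModule ℂ L U] [Module.Finite ℂ U] [AddCommGroup U'] [Module ℂ U'] [LieRingModule L U']
    [LieModule ℂ L U'] [Module.Finite ℂ U'] [AddCommGroup U''] [Module ℂ U'']
    (P : U →ₗ[ℂ] U' →ₗ[ℂ] U'') {J : Type*} (q : J → I → ℝ) (hq : ∀ j, 0 < R.ht (q j))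
    (E : J → U →ₗ[ℂ] U) (E' : J → U' →ₗ[ℂ] U') (E'' : J → U'' →ₗ[ℂ] U'')
    (hE : ∀ j v m, T.IsWt v m → T.IsWt (v + q j) (E j m))
    (hE' : ∀ j v m, T.IsWt v m → T.IsWt (v + q j) (E' j m))
    (h : ∀ j m m', E'' j (P m m') = P (E j m) m' + P m (E' j m'))
    (h0 : ∀ v v' m m', m ≠ 0 → m' ≠ 0 → T.IsWt v m → T.IsWt v' m' → (∀ j, E j m = 0) →
      (∀ j, E' j m' = 0) → P m m' ≠ 0)
    {v v' : I → ℝ} {m : U} {m' : U'} (hm : m ≠ 0) (hm' : m' ≠ 0) (hv : T.IsWt v m)
    (hv' : T.IsWt v' m') : P m m' ≠ 0 := by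
  intro hP
  have hfin : {v : I → ℝ | T.wsp U v ≠ ⊥}.Finite :=
    Submodule.finite_ne_bot_of_iSupIndep (T.iSupIndep_wsp (M := U))
  have hfin' : {v : I → ℝ | T.wsp U' v ≠ ⊥}.Finite :=
    Submodule.finite_ne_bot_of_iSupIndep (T.iSupIndep_wsp (M := U'))
  let S : Set ((I → ℝ) × (I → ℝ)) :=
    {p | ∃ (x : U) (x' : U'), x ≠ 0 ∧ x' ≠ 0 ∧ T.IsWt p.1 x ∧ T.IsWt p.2 x' ∧ P x x' = 0}
  have hS : S.Finite := by
    refine (hfin.prod hfin').subset ?_
    rintro p ⟨x, x', hx, hx', hw, hw', -⟩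
    exact ⟨T.dplieb_ne_bot hw hx, T.dplieb_ne_bot hw' hx'⟩
  have hne : S.Nonempty := ⟨(v, v'), m, m', hm, hm', hv, hv', hP⟩
  obtain ⟨p, ⟨x, x', hx, hx', hw, hw', hP0⟩, hmax⟩ :=
    Set.exists_max_image S (fun p => R.ht p.1 + R.ht p.2) hS hne
  have key : ∀ j, E j x = 0 ∧ E' j x' = 0 := by
    intro j
    obtain ⟨n, hn, hn1⟩ := T.dplieb_top (q j) (hq j) (E j) (hE j) hw hx
    obtain ⟨n', hn', hn1'⟩ := T.dplieb_top (q j) (hq j) (E' j) (hE' j) hw' hx'
    have h1 := leib_top P (E j) (E' j) (E'' j) (h j) n n' hn1 hn1'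
    rw [hP0, map_zero] at h1
    have hc : (((n + n').choose n : ℕ) : ℂ) ≠ 0 := by
      exact_mod_cast (Nat.choose_pos (Nat.le_add_right n n')).ne'
    have h2 := (smul_eq_zero.1 h1.symm).resolve_left hc
    have h3 := hmax (p.1 + (n : ℝ) • q j, p.2 + (n' : ℝ) • q j)
      ⟨_, _, hn, hn', T.dplieb_pow _ _ (hE j) hw n, T.dplieb_pow _ _ (hE' j) hw' n', h2⟩
    simp only [map_add, map_smul, smul_eq_mul] at h3
    have h4 := hq j
    have h5 : (0 : ℝ) ≤ n := Nat.cast_nonneg n
    have h6 : (0 : ℝ) ≤ n' := Nat.cast_nonneg n'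
    have h7 : (n : ℝ) = 0 := by nlinarith
    have h8 : (n' : ℝ) = 0 := by nlinarith
    have h9 : n = 0 := by exact_mod_cast h7
    have h10 : n' = 0 := by exact_mod_cast h8
    subst h9 h10
    exact ⟨by simpa using hn1, by simpa using hn1'⟩
  exact h0 _ _ x x' hx hx' hw hw' (fun j => (key j).1) (fun j => (key j).2) hP0

theorem dplieb_mult {A : Type*} [AddCommGroup A] [Module ℂ A] [LieRingModule L A]
    [LieModule ℂ L A] [LieModule.IsIrreducible ℂ L A] {lam v : I → ℝ} {a x : A}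
    (ha : T.IsHWv lam a) (hx : T.IsWt v x) (he : ∀ β ∈ R.Pos, ⁅T.e β, x⁆ = 0) :
    ∃ c : ℂ, x = c • a := by
  by_cases h0 : x = 0
  · exact ⟨0, by rw [h0, zero_smul]⟩
  have hx' : T.IsHWv v x := ⟨h0, hx, he⟩
  have h1 := T.inQp_of_wsp_ne_bot ha (T.dplieb_ne_bot hx h0)
  have h2 := T.inQp_of_wsp_ne_bot hx' (T.dplieb_ne_bot ha.2.1 ha.1)
  have h3 : lam - v = 0 := by
    refine R.eq_zero_of_inQp h1 ?_
    have h4 := R.ht_nonneg_of_inQp h1
    have h5 := R.ht_nonneg_of_inQp h2
    rw [map_sub] at h4 h5 ⊢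
    linarith
  have h4 : x ∈ T.wsp A lam := by
    rw [sub_eq_zero.1 h3]
    exact hx
  rw [T.wsp_hw ha] at h4
  obtain ⟨c, hc⟩ := Submodule.mem_span_singleton.1 h4
  exact ⟨c, hc.symm⟩

theorem dplieb_tmul {A B : Type*} [AddCommGroup A] [Module ℂ A] [AddCommGroup B] [Module ℂ B]
    {a : A} {b : B} (hb : b ≠ 0) (h : a ⊗ₜ[ℂ] b = 0) : a = 0 := by
  obtain ⟨φ, hφ⟩ := Module.Projective.exists_dual_eq_one ℂ hb
  have := congrArg (fun t => TensorProduct.rid ℂ A (LinearMap.lTensor A φ t)) h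
  simpa [hφ] using this

/-- a weight vector of a tensor product killed by both families of raising operators -/
theorem ker_both
    {A : Type*} [AddCommGroup A] [Module ℂ A] [LieRingModule L A] [LieModule ℂ L A]
    [Module.Finite ℂ A] [LieModule.IsIrreducible ℂ L A]
    {B : Type*} [AddCommGroup B] [Module ℂ B] [LieRingModule L B] [LieModule ℂ L B]
    [Module.Finite ℂ B] [LieModule.IsIrreducible ℂ L B]
    {lam μ v : I → ℝ} {a : A} {b : B} (ha : T.IsHWv lam a) (hb : T.IsHWv μ b)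
    {m : TensorProduct ℂ A B} (hv : T.IsWt v m)
    (h1 : ∀ β ∈ R.Pos, (LieModule.toEnd ℂ L A (T.e β)).rTensor B m = 0)
    (h2 : ∀ β ∈ R.Pos, (LieModule.toEnd ℂ L B (T.e β)).lTensor A m = 0) :
    ∃ c : ℂ, m = c • (a ⊗ₜ[ℂ] b) := by
  obtain ⟨X, n, e, wt, hwt, -⟩ := T.exists_hasChar (T.iSup_wsp_of_hw ha)
  let C : Fin n → TensorProduct ℂ A B →ₗ[ℂ] B := fun j =>
    (TensorProduct.lid ℂ B).toLinearMap ∘ₗ LinearMap.rTensor B (e.coord j)
  have hC : ∀ j (x : A) (y : B), C j (x ⊗ₜ[ℂ] y) = e.repr x j • y := by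
    intro j x y
    simp [C]
  have hsum : ∀ t : TensorProduct ℂ A B, t = ∑ j, e j ⊗ₜ[ℂ] C j t := by
    intro t
    induction t using TensorProduct.induction_on with
    | zero => simp
    | tmul x y =>
      simp only [hC, TensorProduct.tmul_smul, TensorProduct.smul_tmul']
      rw [← TensorProduct.sum_tmul, e.sum_repr]
    | add s t hs ht =>
      simp only [map_add, TensorProduct.tmul_add, Finset.sum_add_distrib]
      rw [← hs, ← ht]
  have hCe : ∀ j (y : L) (t : TensorProduct ℂ A B),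
      C j ((LieModule.toEnd ℂ L B y).lTensor A t) = ⁅y, C j t⁆ := by
    intro j y t
    induction t using TensorProduct.induction_on with
    | zero => simp
    | tmul x z => simp [hC]
    | add s t hs ht => simp only [map_add, lie_add, hs, ht]
  have hCh : ∀ j i (t : TensorProduct ℂ A B),
      C j ⁅T.h (R.sr i), t⁆ = (wt j i : ℂ) • C j t + ⁅T.h (R.sr i), C j t⁆ := by
    intro j i t
    have h3 : (e.coord j).comp (LieModule.toEnd ℂ L A (T.h (R.sr i)))
        = (wt j i : ℂ) • e.coord j := by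
      refine e.ext fun k => ?_
      simp only [LinearMap.comp_apply, LieModule.toEnd_apply_apply, hwt k i, map_smul,
        LinearMap.smul_apply, Module.Basis.coord_apply, Module.Basis.repr_self, smul_eq_mul]
      by_cases hk : k = j
      · subst hk; rfl
      · rw [Finsupp.single_eq_of_ne (Ne.symm hk)]; simp
    induction t using TensorProduct.induction_on with
    | zero => simp
    | tmul x z =>
      have h4 := LinearMap.congr_fun h3 x
      simp only [LinearMap.comp_apply, LieModule.toEnd_apply_apply, LinearMap.smul_apply,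
        Module.Basis.coord_apply, smul_eq_mul] at h4
      rw [TensorProduct.LieModule.lie_tmul_right, map_add, hC, hC, hC, h4, lie_smul, smul_smul]
    | add s t hs ht =>
      simp only [map_add, lie_add, hs, ht, smul_add]
      abel
  have hmul : ∀ j, ∃ c : ℂ, C j m = c • b := by
    intro j
    refine T.dplieb_mult (v := v - wt j) hb (fun i => ?_) (fun β hβ => ?_)
    · have h3 := hCh j i m
      rw [hv i, map_smul] at h3
      rw [Pi.sub_apply]
      push_cast
      rw [sub_smul, h3]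
      abel
    · rw [← hCe, h2 β hβ, map_zero]
  choose c hc using hmul
  have hm : m = (∑ j, c j • e j) ⊗ₜ[ℂ] b := by
    rw [TensorProduct.sum_tmul]
    refine (hsum m).trans (Finset.sum_congr rfl fun j _ => ?_)
    rw [hc j, TensorProduct.tmul_smul, TensorProduct.smul_tmul']
  generalize (∑ j, c j • e j) = a0 at hm
  subst hm
  obtain ⟨d, hd⟩ : ∃ d : ℂ, a0 = d • a := by
    refine T.dplieb_mult (v := v - μ) ha (fun i => ?_) (fun β hβ => ?_)
    · have h3 := hv i
      rw [TensorProduct.LieModule.lie_tmul_right, hb.2.1 i] at h3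
      rw [← sub_eq_zero]
      refine dplieb_tmul hb.1 ?_
      rw [Pi.sub_apply]
      push_cast
      rw [TensorProduct.sub_tmul, sub_smul, TensorProduct.sub_tmul, ← TensorProduct.smul_tmul',
        ← TensorProduct.smul_tmul', ← h3, TensorProduct.tmul_smul]
      abel
    · refine dplieb_tmul hb.1 ?_
      simpa using h1 β hβ
  exact ⟨d, by rw [hd, TensorProduct.smul_tmul']⟩

theorem dplieb_rT {A B : Type*} [AddCommGroup A] [Module ℂ A] [LieRingModule L A]
    [LieModule ℂ L A] [AddCommGroup B] [Module ℂ B] [LieRingModule L B] [LieModule ℂ L B]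
    (β : ι) (v : I → ℝ) (m : TensorProduct ℂ A B) (hm : T.IsWt v m) :
    T.IsWt (v + R.rt β) ((LieModule.toEnd ℂ L A (T.e β)).rTensor B m) := by
  intro i
  have key : ∀ t : TensorProduct ℂ A B,
      ⁅T.h (R.sr i), (LieModule.toEnd ℂ L A (T.e β)).rTensor B t⁆ =
        (LieModule.toEnd ℂ L A (T.e β)).rTensor B ⁅T.h (R.sr i), t⁆ +
          (R.rt β i : ℂ) • (LieModule.toEnd ℂ L A (T.e β)).rTensor B t := by
    intro t
    induction t using TensorProduct.induction_on with
    | zero => simp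
    | tmul x y =>
      simp only [LinearMap.rTensor_tmul, LieModule.toEnd_apply_apply,
        TensorProduct.LieModule.lie_tmul_right, map_add]
      rw [leibniz_lie, T.lie_he, R.cv_sr, smul_lie, TensorProduct.add_tmul,
        TensorProduct.smul_tmul']
      abel
    | add s t hs ht =>
      simp only [map_add, lie_add, hs, ht, smul_add]
      abel
  rw [key, hm i, map_smul, Pi.add_apply]
  push_cast
  rw [add_smul]

theorem dplieb_lT {A B : Type*} [AddCommGroup A] [Module ℂ A] [LieRingModule L A]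
    [LieModule ℂ L A] [AddCommGroup B] [Module ℂ B] [LieRingModule L B] [LieModule ℂ L B]
    (β : ι) (v : I → ℝ) (m : TensorProduct ℂ A B) (hm : T.IsWt v m) :
    T.IsWt (v + R.rt β) ((LieModule.toEnd ℂ L B (T.e β)).lTensor A m) := by
  intro i
  have key : ∀ t : TensorProduct ℂ A B,
      ⁅T.h (R.sr i), (LieModule.toEnd ℂ L B (T.e β)).lTensor A t⁆ =
        (LieModule.toEnd ℂ L B (T.e β)).lTensor A ⁅T.h (R.sr i), t⁆ +
          (R.rt β i : ℂ) • (LieModule.toEnd ℂ L B (T.e β)).lTensor A t := by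
    intro t
    induction t using TensorProduct.induction_on with
    | zero => simp
    | tmul x y =>
      simp only [LinearMap.lTensor_tmul, LieModule.toEnd_apply_apply,
        TensorProduct.LieModule.lie_tmul_right, map_add]
      rw [leibniz_lie, T.lie_he, R.cv_sr, smul_lie, TensorProduct.tmul_add,
        TensorProduct.tmul_smul]
      abel
    | add s t hs ht =>
      simp only [map_add, lie_add, hs, ht, smul_add]
      abel
  rw [key, hm i, map_smul, Pi.add_apply]
  push_cast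
  rw [add_smul]

theorem dplieb_lie {A B : Type*} [AddCommGroup A] [Module ℂ A] [LieRingModule L A]
    [LieModule ℂ L A] [AddCommGroup B] [Module ℂ B] [LieRingModule L B] [LieModule ℂ L B]
    (x : L) (t : TensorProduct ℂ A B) :
    ⁅x, t⁆ = (LieModule.toEnd ℂ L A x).rTensor B t + (LieModule.toEnd ℂ L B x).lTensor A t := by
  induction t using TensorProduct.induction_on with
  | zero => simp
  | tmul a b => simp [TensorProduct.LieModule.lie_tmul_right]
  | add s t hs ht =>
    simp only [map_add, lie_add, hs, ht]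
    abel

theorem dplieb_main
    {A : Type*} [AddCommGroup A] [Module ℂ A] [LieRingModule L A] [LieModule ℂ L A]
    [Module.Finite ℂ A] [LieModule.IsIrreducible ℂ L A]
    {B : Type*} [AddCommGroup B] [Module ℂ B] [LieRingModule L B] [LieModule ℂ L B]
    [Module.Finite ℂ B] [LieModule.IsIrreducible ℂ L B]
    {A' : Type*} [AddCommGroup A'] [Module ℂ A'] [LieRingModule L A'] [LieModule ℂ L A']
    [Module.Finite ℂ A'] [LieModule.IsIrreducible ℂ L A']
    {B' : Type*} [AddCommGroup B'] [Module ℂ B'] [LieRingModule L B'] [LieModule ℂ L B']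
    [Module.Finite ℂ B'] [LieModule.IsIrreducible ℂ L B']
    {NA : Type*} [AddCommGroup NA] [Module ℂ NA] [LieRingModule L NA] [LieModule ℂ L NA]
    {NB : Type*} [AddCommGroup NB] [Module ℂ NB] [LieRingModule L NB] [LieModule ℂ L NB]
    {lam μ κ lam' μ' κ' : I → ℝ} {a : A} {b : B} {a' : A'} {b' : B'}
    (ha : T.IsHWv lam a) (hb : T.IsHWv μ b) (ha' : T.IsHWv lam' a') (hb' : T.IsHWv μ' b')
    (pA : TensorProduct ℂ A A' →ₗ⁅ℂ,L⁆ NA) (pB : TensorProduct ℂ B B' →ₗ⁅ℂ,L⁆ NB)
    (hpA : pA (a ⊗ₜ[ℂ] a') ≠ 0) (hpB : pB (b ⊗ₜ[ℂ] b') ≠ 0)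
    {m : TensorProduct ℂ A B} {m' : TensorProduct ℂ A' B'} (hm : T.IsHWv κ m)
    (hm' : T.IsHWv κ' m') : ∃ t : TensorProduct ℂ NA NB, T.IsHWv (κ + κ') t := by
  let P : TensorProduct ℂ A B →ₗ[ℂ] TensorProduct ℂ A' B' →ₗ[ℂ] TensorProduct ℂ NA NB :=
    TensorProduct.curry (TensorProduct.map pA.toLinearMap pB.toLinearMap ∘ₗ
      (TensorProduct.tensorTensorTensorComm ℂ A B A' B').toLinearMap)
  have hP : ∀ (x : A) (y : B) (x' : A') (y' : B'),
      P (x ⊗ₜ[ℂ] y) (x' ⊗ₜ[ℂ] y') = pA (x ⊗ₜ[ℂ] x') ⊗ₜ[ℂ] pB (y ⊗ₜ[ℂ] y') := by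
    intro x y x' y'
    simp [P]
  have hr : ∀ (z : L) s s', (LieModule.toEnd ℂ L NA z).rTensor NB (P s s') =
      P ((LieModule.toEnd ℂ L A z).rTensor B s) s' +
        P s ((LieModule.toEnd ℂ L A' z).rTensor B' s') := by
    intro z s s'
    induction s using TensorProduct.induction_on with
    | zero => simp
    | tmul x y =>
      induction s' using TensorProduct.induction_on with
      | zero => simp
      | tmul x' y' =>
        simp only [LinearMap.rTensor_tmul, LieModule.toEnd_apply_apply, hP]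
        rw [← LieModuleHom.map_lie, TensorProduct.LieModule.lie_tmul_right, map_add,
          TensorProduct.add_tmul]
      | add s t hs ht =>
        simp only [map_add, hs, ht]
        abel
    | add s t hs ht =>
      simp only [map_add, LinearMap.add_apply, hs, ht]
      abel
  have hl : ∀ (z : L) s s', (LieModule.toEnd ℂ L NB z).lTensor NA (P s s') =
      P ((LieModule.toEnd ℂ L B z).lTensor A s) s' +
        P s ((LieModule.toEnd ℂ L B' z).lTensor A' s') := by
    intro z s s'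
    induction s using TensorProduct.induction_on with
    | zero => simp
    | tmul x y =>
      induction s' using TensorProduct.induction_on with
      | zero => simp
      | tmul x' y' =>
        simp only [LinearMap.lTensor_tmul, LieModule.toEnd_apply_apply, hP]
        rw [← LieModuleHom.map_lie, TensorProduct.LieModule.lie_tmul_right, map_add,
          TensorProduct.tmul_add]
      | add s t hs ht =>
        simp only [map_add, hs, ht]
        abel
    | add s t hs ht =>
      simp only [map_add, LinearMap.add_apply, hs, ht]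
      abel
  have hz : ∀ (z : L) s s', ⁅z, P s s'⁆ = P ⁅z, s⁆ s' + P s ⁅z, s'⁆ := by
    intro z s s'
    rw [dplieb_lie z (P s s'), dplieb_lie z s, dplieb_lie z s', hr, hl]
    simp only [map_add, LinearMap.add_apply]
    abel
  refine ⟨P m m', ?_, fun i => ?_, fun β hβ => ?_⟩
  · refine T.string_arg P (J := Bool × {β // β ∈ R.Pos}) (fun j => R.rt j.2.1)
      (fun j => R.ht_rt_pos j.2.2)
      (fun j => bif j.1 then (LieModule.toEnd ℂ L A (T.e j.2.1)).rTensor B
        else (LieModule.toEnd ℂ L B (T.e j.2.1)).lTensor A)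
      (fun j => bif j.1 then (LieModule.toEnd ℂ L A' (T.e j.2.1)).rTensor B'
        else (LieModule.toEnd ℂ L B' (T.e j.2.1)).lTensor A')
      (fun j => bif j.1 then (LieModule.toEnd ℂ L NA (T.e j.2.1)).rTensor NB
        else (LieModule.toEnd ℂ L NB (T.e j.2.1)).lTensor NA)
      ?_ ?_ ?_ ?_ hm.1 hm'.1 hm.2.1 hm'.2.1
    · rintro ⟨_ | _, β⟩ v s hs
      · exact T.dplieb_lT β.1 v s hs
      · exact T.dplieb_rT β.1 v s hs
    · rintro ⟨_ | _, β⟩ v s hs
      · exact T.dplieb_lT β.1 v s hs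
      · exact T.dplieb_rT β.1 v s hs
    · rintro ⟨_ | _, β⟩ s s'
      · exact hl _ s s'
      · exact hr _ s s'
    · intro v v' s s' hs hs' hv hv' h1 h2
      obtain ⟨c, rfl⟩ := T.ker_both ha hb hv (fun β hβ => h1 (true, ⟨β, hβ⟩))
        (fun β hβ => h1 (false, ⟨β, hβ⟩))
      obtain ⟨c', rfl⟩ := T.ker_both ha' hb' hv' (fun β hβ => h2 (true, ⟨β, hβ⟩))
        (fun β hβ => h2 (false, ⟨β, hβ⟩))
      have hc : c ≠ 0 := fun h0 => hs (by rw [h0, zero_smul])
      have hc' : c' ≠ 0 := fun h0 => hs' (by rw [h0, zero_smul])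
      rw [map_smul, map_smul, LinearMap.smul_apply, hP]
      exact smul_ne_zero hc' (smul_ne_zero hc fun h0 => hpA (dplieb_tmul hpB h0))
  · rw [hz, hm.2.1 i, hm'.2.1 i, map_smul, map_smul, LinearMap.smul_apply, Pi.add_apply]
    push_cast
    rw [add_smul]
  · rw [hz, hm.2.2 β hβ, hm'.2.2 β hβ]
    simp

theorem dplieb_dom {g : V3 I} (hg : R.Rp g) : Dom g.2.2 := by
  obtain ⟨-, l, ⟨-, h1, h2⟩, -⟩ := hg
  rw [← h2]
  exact h1 1 ⟨zero_le_one, le_rfl⟩

/-- the semigroup property -/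
theorem rp_add [LieAlgebra.IsKilling ℂ L] {g h : V3 I} (hg : R.Rp g) (hh : R.Rp h)
    (g1 : Ex.{v} T g.1) (g2 : Ex.{v} T g.2.1) (h1 : Ex.{v} T h.1) (h2 : Ex.{v} T h.2.1) :
    R.Rp (g + h) := by
  obtain ⟨A, _, _, _, _, _, _, a, ha⟩ := g1
  obtain ⟨B, _, _, _, _, _, _, b, hb⟩ := g2
  obtain ⟨A', _, _, _, _, _, _, a', ha'⟩ := h1
  obtain ⟨B', _, _, _, _, _, _, b', hb'⟩ := h2
  have dg := dplieb_dom hg
  have dh := dplieb_dom hh
  obtain ⟨m, hm⟩ := (T.rp_iff ha hb dg).1 hg
  obtain ⟨m', hm'⟩ := (T.rp_iff ha' hb' dh).1 hh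
  have haa := T.isHWv_tmul ha ha'
  have hbb := T.isHWv_tmul hb hb'
  obtain ⟨NA, _, _, _, _, _, _, pA, hpA⟩ :=
    exists_irr_quot (L := L) (TensorProduct ℂ A A') haa.1
  obtain ⟨NB, _, _, _, _, _, _, pB, hpB⟩ :=
    exists_irr_quot (L := L) (TensorProduct ℂ B B') hbb.1
  have hd : Dom (g.2.2 + h.2.2) := fun i => add_nonneg (dg i) (dh i)
  exact (T.rp_iff (T.isHWv_map pA haa hpA) (T.isHWv_map pB hbb hpB) hd).2
    (T.dplieb_main ha hb ha' hb' pA pB hpA hpB hm hm')

end Rlz

end Pool.Agent.Lib.MP_1e3767_al
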