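import Pool.Agent.Lib.MP_1e3767_al.DpLieB
import Pool.Agent.Lib.MP_1e3767_al.DpFin
import Pool.Agent.Lib.MP_1e3767_al.DpCone

set_option linter.unusedSectionVars false

namespace Pool.Agent.Lib.MP_1e3767_al

open Finset

universe v

namespace Rlz
variable {I ι W : Type*} [Fintype I] [DecidableEq I] [Fintype ι] [Group W] [Fintype W]
  [DistribMulAction W (I → ℝ)] [SMulCommClass W ℝ (I → ℝ)] [MulAction W ι] {R : RD I ι W}
  {L : Type*} [LieRing L] [LieAlgebra ℂ L] [Module.Finite ℂ L] (T : Rlz R.toRD0 L)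

theorem DpLieC_dom {lam : I → ℝ} (h : Ex.{v} T lam) : Dom lam ∧ IntV lam := by
  obtain ⟨M, _, _, _, _, _, _, m, hm⟩ := h
  exact T.dom_of_isHWv hm

/-- extremal weights of existing modules -/
def DpLieC_EE (a : I → ℝ) : Prop := ∃ w : W, Ex.{v} T (w • a)

theorem DpLieC_add [LieAlgebra.IsKilling ℂ L] {a b : I → ℝ} (ha : DpLieC_EE.{v} T a)
    (hb : DpLieC_EE.{v} T b) : DpLieC_EE.{v} T (a + b) := by
  obtain ⟨x, hx⟩ := ha
  obtain ⟨z, hz⟩ := hb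
  obtain ⟨y, hy⟩ := R.exists_dom (x • a + (x * z⁻¹) • z • b)
  have h := T.ex_of_rp hx hz (R.rp_prv (T.DpLieC_dom hx).1 (T.DpLieC_dom hz).1
    (T.DpLieC_dom hx).2 (T.DpLieC_dom hz).2 (x * z⁻¹) y hy)
  refine ⟨y * x, ?_⟩
  rwa [mul_smul x, inv_smul_smul, ← smul_add, ← mul_smul] at h

theorem DpLieC_smul {a : I → ℝ} (ha : DpLieC_EE.{v} T a) (w : W) :
    DpLieC_EE.{v} T (w • a) := by
  obtain ⟨x, hx⟩ := ha
  exact ⟨x * w⁻¹, by rwa [mul_smul, inv_smul_smul]⟩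

theorem DpLieC_sum (R : RD I ι W) (a : I → ℝ) : ∑ w : W, w • a = 0 := by
  funext i
  have h1 : R.s (R.sr i) • ∑ w : W, w • a = ∑ w : W, w • a := by
    rw [smul_sum]
    simp only [← mul_smul]
    exact Equiv.sum_comp (Equiv.mulLeft (R.s (R.sr i))) (fun w => w • a)
  rw [R.s_sr_smul, sub_eq_self] at h1
  exact (smul_eq_zero.1 h1).resolve_right (R.rt_ne_zero _)

theorem DpLieC_zero [LieAlgebra.IsKilling ℂ L] {a : I → ℝ} (ha : DpLieC_EE.{v} T a) :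
    DpLieC_EE.{v} T 0 := by
  rw [← DpLieC_sum R a]
  exact sum_induction_nonempty _ _ (fun _ _ => T.DpLieC_add) univ_nonempty
    fun w _ => T.DpLieC_smul ha w

theorem DpLieC_neg [LieAlgebra.IsKilling ℂ L] {a : I → ℝ} (ha : DpLieC_EE.{v} T a) :
    DpLieC_EE.{v} T (-a) := by
  classical
  have h := DpLieC_sum R a
  rw [← add_sum_erase _ _ (mem_univ (1 : W)), one_smul] at h
  rw [neg_eq_of_add_eq_zero_right h]
  exact sum_induction _ _ (fun _ _ => T.DpLieC_add) (T.DpLieC_zero ha)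
    fun w _ => T.DpLieC_smul ha w

theorem DpLieC_ex {a : I → ℝ} (ha : DpLieC_EE.{v} T a) (hd : Dom a) : Ex.{v} T a := by
  obtain ⟨x, hx⟩ := ha
  rwa [R.dom_unique hd (T.DpLieC_dom hx).1] at hx

theorem DpLieC_card (R : RD I ι W) {a : I → ℝ} (ha : IntV a) :
    R.InQ ((Fintype.card W : ℝ) • a) := by
  have h : (Fintype.card W : ℝ) • a = ∑ w : W, (a - w • a) := by
    rw [sum_sub_distrib, DpLieC_sum R a, sub_zero, sum_const, card_univ, Nat.cast_smul_eq_nsmul]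
  rw [h]
  exact sum_induction _ R.InQ (fun _ _ => R.inQ_add) R.inQ_zero fun w _ => R.inQ_sub_smul ha w

/-- the lattice of extremal weights of existing modules -/
theorem exists_lat [LieAlgebra.IsKilling ℂ L] {v0 : I → ℝ} (h0 : Reg v0) (hv : Ex.{v} T v0) :
    ∃ Λ : R.Lat, ∀ lam, Ex.{v} T lam → lam ∈ Λ.E := by
  have h1 : DpLieC_EE.{v} T v0 := ⟨1, by rwa [one_smul]⟩
  let E : AddSubgroup (I → ℝ) :=
    { carrier := {a | DpLieC_EE.{v} T a}
      add_mem' := T.DpLieC_add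
      zero_mem' := T.DpLieC_zero h1
      neg_mem' := T.DpLieC_neg }
  have hn : ∀ i, ∃ n : ℕ, 0 < n ∧ v0 i = n := fun i => by
    obtain ⟨z, hz⟩ := (T.DpLieC_dom hv).2 i
    have h2 : 0 < z := by
      have := h0 i
      rw [hz] at this
      exact_mod_cast this
    obtain ⟨n, rfl⟩ := Int.eq_ofNat_of_zero_le h2.le
    exact ⟨n, by exact_mod_cast h2, by exact_mod_cast hz⟩
  choose n hn0 hn using hn
  have hrt : ∀ i, (n i : ℝ) • R.rt (R.sr i) ∈ E := fun i => by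
    have h2 : v0 - R.s (R.sr i) • v0 ∈ E := E.sub_mem h1 (T.DpLieC_smul h1 _)
    rwa [R.s_sr_smul, sub_sub_cancel, hn i] at h2
  refine ⟨⟨E, (∏ i, n i) * Fintype.card W, Nat.mul_pos (prod_pos fun i _ => hn0 i)
    Fintype.card_pos, ?_, ?_, ?_⟩, fun lam hl => ⟨1, by rwa [one_smul]⟩⟩
  · rintro a ⟨x, hx⟩
    have := R.intV_smul (T.DpLieC_dom hx).2 x⁻¹
    rwa [inv_smul_smul] at this
  · intro a ha
    obtain ⟨c, hc⟩ := DpLieC_card R ha
    rw [Nat.cast_mul, mul_smul, hc, smul_sum]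
    refine E.sum_mem fun i _ => ?_
    obtain ⟨k, hk⟩ := dvd_prod_of_mem n (mem_univ i)
    have h2 := E.zsmul_mem (hrt i) (c i * k)
    rw [← Int.cast_smul_eq_zsmul ℝ, smul_smul] at h2
    rw [hk, smul_smul]
    convert h2 using 2
    push_cast
    ring
  · intro g h hg hh g1 g2 h1 h2
    exact T.rp_add hg hh (T.DpLieC_ex g1 (R.dom_of_inC (R.inC_of_rp hg)).1)
      (T.DpLieC_ex g2 hg.1) (T.DpLieC_ex h1 (R.dom_of_inC (R.inC_of_rp hh)).1)
      (T.DpLieC_ex h2 hh.1)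

/-- deep saturation for a realised root datum -/
theorem lie_deep [LieAlgebra.IsKilling ℂ L] : ∃ c : ℕ, ∀ lam μ ν : I → ℝ,
    (∀ i, (c : ℝ) ≤ lam i) → (∀ i, (c : ℝ) ≤ μ i) → (∀ i, (c : ℝ) ≤ ν i) → IntV ν →
    R.InQ (lam + μ + ν) → (∃ l, R.DomDat lam μ (-(R.w0 • ν)) l) → Ex.{v} T lam → Ex.{v} T μ →
    R.Rp (lam, μ, -(R.w0 • ν)) := by
  by_cases h : ∃ v0 : I → ℝ, Reg v0 ∧ Ex.{v} T v0
  · obtain ⟨v0, h0, hv⟩ := h
    obtain ⟨Λ, hΛ⟩ := T.exists_lat h0 hv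
    obtain ⟨c, hc⟩ := Λ.deep
    refine ⟨c, fun lam μ ν h1 h2 h3 hni hQ hd hl hμ => ?_⟩
    refine hc (lam, μ, -(R.w0 • ν)) ⟨(T.DpLieC_dom hμ).1, hd⟩
      ⟨(T.DpLieC_dom hl).2, (T.DpLieC_dom hμ).2, ?_⟩ (hΛ _ hl) (hΛ _ hμ)
      fun i => ⟨h1 i, h2 i, ?_⟩
    · have := R.inQ_sub hQ (R.inQ_sub_smul hni R.w0)
      convert this using 1
      simp only
      abel
    · have h4 : Dom (ν - (c : ℝ) • (rho : I → ℝ)) := fun j => by
        simpa [rho] using h3 j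
      have h5 := R.w0_anti h4 i
      rw [smul_sub, smul_comm R.w0 (c : ℝ)] at h5
      obtain ⟨z, hz⟩ := R.intV_smul (a := rho) (fun _ => ⟨1, by simp [rho]⟩) R.w0 i
      have h6 := R.w0_neg i
      rw [hz] at h6
      have h7 : (z : ℝ) ≤ -1 := by
        have : z < 0 := by exact_mod_cast h6
        exact_mod_cast (by omega : z ≤ -1)
      simp only [Pi.neg_apply, Pi.sub_apply, Pi.smul_apply, smul_eq_mul, hz] at h5 ⊢
      have h8 : (0 : ℝ) ≤ c := Nat.cast_nonneg c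
      nlinarith
  · refine ⟨1, fun lam μ ν h1 _ _ _ _ _ hl _ => (h ⟨lam, fun i => ?_, hl⟩).elim⟩
    exact lt_of_lt_of_le (by simp) (h1 i)

end Rlz

end Pool.Agent.Lib.MP_1e3767_al
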