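import Pool.Agent.Lib.MP_1e3767_al.DpDefs

set_option linter.unusedSectionVars false

namespace Pool.Agent.Lib.MP_1e3767_al

open Finset Filter Topology

namespace RD
variable {I ι W : Type*} [Fintype I] [DecidableEq I] [Fintype ι] [Group W] [Fintype W]
  [DistribMulAction W (I → ℝ)] [SMulCommClass W ℝ (I → ℝ)] [MulAction W ι] (R : RD I ι W)

theorem dpList_cv_ne {μ : I → ℝ} (hμ : Reg μ) (u : W) (β : ι) : R.cv β (u • μ) ≠ 0 := by
  rw [R.cv_smul]
  by_cases h : u⁻¹ • β ∈ R.Pos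
  · exact (R.cv_pos h hμ).ne'
  · exact (R.cv_neg h hμ).ne

theorem dpList_s_mul (z u : W) (β : ι) : R.s (z • β) * (z * u) = z * (R.s β * u) := by
  rw [R.s_conj]
  group

theorem tmW_of_tmS {a b : ℝ} {l : List (ℝ × ι)} (h : TmS a l b) : TmW a l b := by
  induction l generalizing a with
  | nil => exact le_of_lt h
  | cons p l ih => exact ⟨le_of_lt h.1, ih h.2⟩

theorem tmS_append (a b : ℝ) (l1 l2 : List (ℝ × ι)) (p : ℝ × ι) :
    TmS a (l1 ++ p :: l2) b ↔ TmS a l1 p.1 ∧ TmS p.1 l2 b := by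
  induction l1 generalizing a with
  | nil => exact Iff.rfl
  | cons q l ih =>
    show (a < q.1 ∧ TmS q.1 (l ++ p :: l2) b) ↔ (a < q.1 ∧ TmS q.1 l p.1) ∧ TmS p.1 l2 b
    rw [ih, and_assoc]

theorem tmS_map (a b : ℝ) (l : List (ℝ × ι)) (φ : ι → ι) :
    TmS a (l.map fun p => (p.1, φ p.2)) b ↔ TmS a l b := by
  induction l generalizing a with
  | nil => exact Iff.rfl
  | cons q l ih =>
    show (a < q.1 ∧ TmS q.1 (l.map fun p => (p.1, φ p.2)) b) ↔ (a < q.1 ∧ TmS q.1 l b)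
    rw [ih]

theorem tim_snd (μ : I → ℝ) (u : W) (L : List (ℝ × ι)) :
    (R.tim μ u L).map Prod.snd = L.map Prod.snd := by
  induction L generalizing u with
  | nil => rfl
  | cons p l ih =>
    show p.2 :: (R.tim μ (R.s p.2 * u) l).map Prod.snd = p.2 :: l.map Prod.snd
    rw [ih]

theorem lev_snd (μ : I → ℝ) (u : W) (l : List (ℝ × ι)) :
    (R.lev μ u l).map Prod.snd = l.map Prod.snd := by
  induction l generalizing u with
  | nil => rfl
  | cons p l ih =>
    show p.2 :: (R.lev μ (R.s p.2 * u) l).map Prod.snd = p.2 :: l.map Prod.snd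
    rw [ih]

theorem endp_congr (u : W) {a b : List (ℝ × ι)} (h : a.map Prod.snd = b.map Prod.snd) :
    R.endp u a = R.endp u b := by
  unfold endp
  rw [h]

theorem endp_tim (μ : I → ℝ) (u v : W) (L : List (ℝ × ι)) :
    R.endp v (R.tim μ u L) = R.endp v L := by
  exact R.endp_congr v (R.tim_snd μ u L)

theorem tim_append (μ : I → ℝ) (u : W) (a b : List (ℝ × ι)) :
    R.tim μ u (a ++ b) = R.tim μ u a ++ R.tim μ (R.endp u a) b := by
  induction a generalizing u with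
  | nil => rfl
  | cons p l ih =>
    show (p.1 / R.cv p.2 (u • μ), p.2) :: R.tim μ (R.s p.2 * u) (l ++ b) =
      (p.1 / R.cv p.2 (u • μ), p.2) ::
        (R.tim μ (R.s p.2 * u) l ++ R.tim μ (R.endp (R.s p.2 * u) l) b)
    rw [ih]

theorem tim_lev {μ : I → ℝ} (hμ : Reg μ) (u : W) (l : List (ℝ × ι)) :
    R.tim μ u (R.lev μ u l) = l := by
  induction l generalizing u with
  | nil => rfl
  | cons p l ih =>
    show (R.cv p.2 (u • μ) * p.1 / R.cv p.2 (u • μ), p.2) ::
      R.tim μ (R.s p.2 * u) (R.lev μ (R.s p.2 * u) l) = p :: l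
    rw [ih, mul_div_cancel_left₀ _ (R.dpList_cv_ne hμ u p.2)]

theorem icpt_tim {μ : I → ℝ} (hμ : Reg μ) (u : W) (L : List (ℝ × ι)) :
    R.icpt μ u (R.tim μ u L) = R.sumL L := by
  induction L generalizing u with
  | nil => rfl
  | cons p l ih =>
    show R.icpt μ (R.s p.2 * u) (R.tim μ (R.s p.2 * u) l) +
      (R.cv p.2 (u • μ) * (p.1 / R.cv p.2 (u • μ))) • R.rt p.2 = R.sumL (p :: l)
    rw [ih, mul_div_cancel₀ _ (R.dpList_cv_ne hμ u p.2), sumL_cons, add_comm]

theorem isLS_tim {μ : I → ℝ} (hμ : Reg μ) (c : ℝ) (u : W) (L : List (ℝ × ι))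
    (h : ∀ p ∈ L, ∃ z : ℤ, c * p.1 = z) : R.IsLS (c • μ) u (R.tim μ u L) := by
  induction L generalizing u with
  | nil => exact trivial
  | cons p l ih =>
    obtain ⟨z, hz⟩ := h p List.mem_cons_self
    refine ⟨⟨z, ?_⟩, ih (R.s p.2 * u) fun q hq => h q (List.mem_cons_of_mem _ hq)⟩
    show R.cv p.2 (u • c • μ) * (p.1 / R.cv p.2 (u • μ)) = z
    rw [smul_comm u c μ, map_smul, smul_eq_mul, mul_assoc,
      mul_div_cancel₀ _ (R.dpList_cv_ne hμ u p.2), hz]

theorem sumL_mem (S : Submodule ℝ (I → ℝ)) (y : W) (L : List (ℝ × ι))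
    (h : ∀ p ∈ L, y • R.rt p.2 ∈ S) : y • R.sumL L ∈ S := by
  induction L with
  | nil => rw [sumL_nil, smul_zero]; exact S.zero_mem
  | cons p l ih =>
    rw [sumL_cons, smul_add, smul_comm y p.1]
    exact S.add_mem (S.smul_mem _ (h p List.mem_cons_self))
      (ih fun q hq => h q (List.mem_cons_of_mem _ hq))

theorem icpt_mem (S : Submodule ℝ (I → ℝ)) (y : W) (μ : I → ℝ) (u : W) (l : List (ℝ × ι))
    (h : ∀ p ∈ l, y • R.rt p.2 ∈ S) : y • R.icpt μ u l ∈ S := by
  induction l generalizing u with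
  | nil =>
    show y • (0 : I → ℝ) ∈ S
    rw [smul_zero]; exact S.zero_mem
  | cons p l ih =>
    show y • (R.icpt μ (R.s p.2 * u) l + (R.cv p.2 (u • μ) * p.1) • R.rt p.2) ∈ S
    rw [smul_add, smul_comm y (R.cv p.2 (u • μ) * p.1)]
    exact S.add_mem (ih _ fun q hq => h q (List.mem_cons_of_mem _ hq))
      (S.smul_mem _ (h p List.mem_cons_self))

theorem covP_append (μ : I → ℝ) (u : W) (P : I → ℝ) (a b : List (ℝ × ι)) :
    R.CovP μ u P (a ++ b) ↔
      R.CovP μ u P a ∧ R.CovP μ (R.endp u a) (P + R.icpt μ u a) b := by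
  induction a generalizing u P with
  | nil =>
    show R.CovP μ u P b ↔ True ∧ R.CovP μ u (P + 0) b
    rw [add_zero, true_and]
  | cons p l ih =>
    show ((∃ x : W, Reg (x • (P + p.1 • (u • μ))) ∧ R.Cover (x * u) (x • p.2)) ∧
        R.CovP μ (R.s p.2 * u) (P + (R.cv p.2 (u • μ) * p.1) • R.rt p.2) (l ++ b)) ↔
      ((∃ x : W, Reg (x • (P + p.1 • (u • μ))) ∧ R.Cover (x * u) (x • p.2)) ∧
        R.CovP μ (R.s p.2 * u) (P + (R.cv p.2 (u • μ) * p.1) • R.rt p.2) l) ∧
      R.CovP μ (R.endp (R.s p.2 * u) l)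
        (P + (R.icpt μ (R.s p.2 * u) l + (R.cv p.2 (u • μ) * p.1) • R.rt p.2)) b
    rw [ih, and_assoc, add_assoc, add_comm ((R.cv p.2 (u • μ) * p.1) • R.rt p.2)]

theorem endp_smul (z u : W) (L : List (ℝ × ι)) :
    R.endp (z * u) (L.map fun p => (p.1, z • p.2)) = z * R.endp u L := by
  induction L generalizing u with
  | nil => rfl
  | cons p l ih =>
    show R.endp (R.s (z • p.2) * (z * u)) (l.map fun p => (p.1, z • p.2)) =
      z * R.endp (R.s p.2 * u) l
    rw [R.dpList_s_mul, ih]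

theorem sumL_smul (z : W) (L : List (ℝ × ι)) :
    R.sumL (L.map fun p => (p.1, z • p.2)) = z • R.sumL L := by
  induction L with
  | nil => rw [List.map_nil, sumL_nil, smul_zero]
  | cons p l ih =>
    rw [List.map_cons, sumL_cons, sumL_cons, ih, smul_add, smul_comm z p.1, R.smul_rt]

theorem tim_smul (μ : I → ℝ) (z u : W) (L : List (ℝ × ι)) :
    R.tim μ (z * u) (L.map fun p => (p.1, z • p.2)) =
      (R.tim μ u L).map fun p => (p.1, z • p.2) := by
  induction L generalizing u with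
  | nil => rfl
  | cons p l ih =>
    show (p.1 / R.cv (z • p.2) ((z * u) • μ), z • p.2) ::
        R.tim μ (R.s (z • p.2) * (z * u)) (l.map fun p => (p.1, z • p.2)) =
      (p.1 / R.cv p.2 (u • μ), z • p.2) ::
        (R.tim μ (R.s p.2 * u) l).map fun p => (p.1, z • p.2)
    rw [R.dpList_s_mul, ih, mul_smul, R.cv_smul_smul]

theorem covP_smul (μ : I → ℝ) (z u : W) (P : I → ℝ) (l : List (ℝ × ι)) (h : R.CovP μ u P l) :
    R.CovP μ (z * u) (z • P) (l.map fun p => (p.1, z • p.2)) := by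
  induction l generalizing u P with
  | nil => exact trivial
  | cons p l ih =>
    obtain ⟨⟨x, hx, hc⟩, h2⟩ := h
    refine ⟨⟨x * z⁻¹, ?_, ?_⟩, ?_⟩
    · show Reg ((x * z⁻¹) • (z • P + p.1 • ((z * u) • μ)))
      rw [mul_smul z u, ← smul_comm z p.1, ← smul_add, mul_smul, inv_smul_smul]
      exact hx
    · show R.Cover (x * z⁻¹ * (z * u)) ((x * z⁻¹) • z • p.2)
      rw [mul_smul, inv_smul_smul, mul_assoc, inv_mul_cancel_left]
      exact hc
    · show R.CovP μ (R.s (z • p.2) * (z * u))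
        (z • P + (R.cv (z • p.2) ((z * u) • μ) * p.1) • R.rt (z • p.2))
        (l.map fun p => (p.1, z • p.2))
      rw [R.dpList_s_mul, mul_smul z u, R.cv_smul_smul, R.smul_rt,
        ← smul_comm z (R.cv p.2 (u • μ) * p.1), ← smul_add]
      exact ih _ _ h2

/-- a chain of covers performed at one time, at a regular point -/
theorem covP_const (μ : I → ℝ) (x : W) (t : ℝ) (bs : List ι) : ∀ (u : W) (P : I → ℝ),
    Reg (x • (P + t • (u • μ))) → R.CChain (x * u) bs →
      R.CovP μ u P (bs.map fun β => (t, x⁻¹ • β)) ∧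
      x * R.endp u (bs.map fun β => (t, x⁻¹ • β)) = R.endb (x * u) bs := by
  induction bs with
  | nil => intro u P _ _; exact ⟨trivial, rfl⟩
  | cons β bs ih =>
    intro u P hreg hch
    obtain ⟨hc, hch'⟩ := hch
    have e1 : x * (R.s (x⁻¹ • β) * u) = R.s β * (x * u) := by
      have := R.dpList_s_mul x u (x⁻¹ • β)
      rw [smul_inv_smul] at this
      exact this.symm
    have e2 : P + (R.cv (x⁻¹ • β) (u • μ) * t) • R.rt (x⁻¹ • β) +
        t • ((R.s (x⁻¹ • β) * u) • μ) = P + t • (u • μ) := by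
      rw [mul_smul (R.s (x⁻¹ • β)) u, R.s_smul']
      generalize u • μ = v
      module
    obtain ⟨h1, h2⟩ := ih (R.s (x⁻¹ • β) * u)
      (P + (R.cv (x⁻¹ • β) (u • μ) * t) • R.rt (x⁻¹ • β)) (by rw [e2]; exact hreg)
      (by rw [e1]; exact hch')
    refine ⟨⟨⟨x, hreg, ?_⟩, h1⟩, ?_⟩
    · show R.Cover (x * u) (x • x⁻¹ • β)
      rw [smul_inv_smul]
      exact hc
    · show x * R.endp (R.s (x⁻¹ • β) * u) (bs.map fun β => (t, x⁻¹ • β)) =
        R.endb (R.s β * (x * u)) bs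
      rw [h2, e1]

end RD

end Pool.Agent.Lib.MP_1e3767_al
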