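import Pool.Agent.Lib.MP_1e3767_al.DpFam
import Pool.Agent.Lib.MP_1e3767_al.DpEnd
import Pool.Agent.Lib.MP_1e3767_al.DpCone

set_option linter.unusedSectionVars false

namespace Pool.Agent.Lib.MP_1e3767_al

open Finset Filter Topology

namespace RD
variable {I ι W : Type*} [Fintype I] [DecidableEq I] [Fintype ι] [Group W] [Fintype W]
  [DistribMulAction W (I → ℝ)] [SMulCommClass W ℝ (I → ℝ)] [MulAction W ι] (R : RD I ι W)

theorem DpNice_shift (μ P δ : I → ℝ) (n : ℕ) (η : ℕ → W) (t : ℕ → ℝ) (τ : ℝ) :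
    upath μ (P + δ) n η t τ = upath μ P n η t τ + δ := by
  unfold upath
  abel

theorem DpNice_tmW {a c b : ℝ} (l1 l2 : List (ℝ × ι)) (h1 : ∀ p ∈ l1, p.1 = c) (hac : a ≤ c)
    (h2 : TmW c l2 b) : TmW a (l1 ++ l2) b := by
  induction l1 generalizing a with
  | nil =>
    cases l2 with
    | nil => exact le_trans hac h2
    | cons q l2 => exact ⟨le_trans hac h2.1, h2.2⟩
  | cons p l1 ih =>
    have hp := h1 p List.mem_cons_self
    exact ⟨hac.trans hp.ge, ih (fun q hq => h1 q (List.mem_cons_of_mem _ hq)) hp.le⟩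

/-- strictly valid data are stable under a shift of the starting point -/
theorem ugood_shift {μ P : I → ℝ} {n : ℕ} {η : ℕ → W} {t : ℕ → ℝ} (h : R.UGood μ P n η t) :
    ∀ᶠ δ in 𝓝 (0 : I → ℝ), R.UGood μ (P + δ) n η t := by
  have key : ∀ j ∈ range n, ∀ᶠ δ in 𝓝 (0 : I → ℝ), ∀ z : W,
      Dom (z • (upath μ P n η t (t j) + δ)) → Dom (z • upath μ P n η t (t j)) := by
    intro j _
    obtain ⟨r, hr, hr'⟩ := near_dom (W := W) (upath μ P n η t (t j))
    filter_upwards [Metric.ball_mem_nhds (0 : I → ℝ) hr] with δ hδ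
    refine hr' _ ?_
    rw [dist_eq_norm, add_sub_cancel_left]
    rwa [mem_ball_zero_iff] at hδ
  filter_upwards [(Filter.eventually_all_finset _).2 key] with δ hδ
  refine ⟨h.1, h.2.1, h.2.2.1, fun j hj x hx => h.2.2.2 j hj x (hδ j (mem_range.2 hj) x ?_)⟩
  rwa [DpNice_shift] at hx

theorem upath_shift (μ P δ : I → ℝ) (n : ℕ) (η : ℕ → W) (t : ℕ → ℝ) (τ : ℝ) :
    upath μ (P + δ) n η t τ = upath μ P n η t τ + δ := by
  exact DpNice_shift μ P δ n η t τ

/-- insertion of a direction at the turn `j` is a direction into the cone -/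
theorem tc_insert {lam μ κ : I → ℝ} (hl : Dom lam) (hμ : Dom μ) (hκ : Reg κ) {n : ℕ} {η : ℕ → W}
    {t : ℕ → ℝ} (h : R.UGood μ lam n η t) {y : W} (he : y • upath μ lam n η t 1 = κ) {j : ℕ}
    (hj : j < n) (ζ : W) {a b : ℝ} (hab : a ≤ b)
    (hζ : ∀ z : W, Dom (z • upath μ lam n η t (t j)) →
      R.Le (z * ζ) (z * η j) ∧ R.Le (z * η (j + 1)) (z * ζ)) :
    R.Tc (lam, μ, κ) (kap (y • (a • (η j • μ - ζ • μ) + b • (ζ • μ - η (j + 1) • μ)))) := by
  classical
  obtain ⟨v, hv⟩ : ∃ v, v = a • (η j • μ - ζ • μ) + b • (ζ • μ - η (j + 1) • μ) := ⟨_, rfl⟩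
  rw [← hv]
  obtain ⟨ε0, h0, h1⟩ := R.dbl_valid h (fun k => if k = j then ζ else η k)
    (fun k => if k = j then a else 0) (fun k => if k = j then b else 0)
    (fun k _ => by split_ifs; exacts [hab, le_rfl])
    (fun k hk z hz => by
      by_cases e : k = j
      · subst e
        simpa using hζ z hz
      · simp only [if_neg e]
        exact ⟨Relation.ReflTransGen.refl, h.2.2.2 k hk z hz⟩)
  have ev : ∀ᶠ ε in 𝓝[>] (0 : ℝ), ∀ i, 0 < (κ + ε • (y • v)) i := by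
    refine Filter.eventually_all.2 fun i => ?_
    have hc : Continuous fun ε : ℝ => (κ + ε • (y • v)) i := by fun_prop
    have h2 : 0 < (κ + (0 : ℝ) • (y • v)) i := by simpa using hκ i
    exact (continuousAt_const.eventually_lt hc.continuousAt h2).filter_mono nhdsWithin_le_nhds
  obtain ⟨ε, hd, hε⟩ := (ev.and (Ioo_mem_nhdsGT h0)).exists
  have hV := h1 ε hε.1 hε.2
  have hx : t j + ε * a ≤ 1 := by
    have h2 := (hV.2.1 (2 * j) (by omega)).2
    have e1 : 2 * j % 2 = 0 := by omega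
    have e2 : 2 * j / 2 = j := by omega
    simpa only [dblT, e1, e2, if_true] using h2
  have hy : t j + ε * b ≤ 1 := by
    have h2 := (hV.2.1 (2 * j + 1) (by omega)).2
    have e1 : ¬ (2 * j + 1) % 2 = 0 := by omega
    have e2 : (2 * j + 1) / 2 = j := by omega
    simpa only [dblT, e1, e2, if_false, if_true] using h2
  have hE : y • upath μ lam (2 * n) (dblW η fun k => if k = j then ζ else η k)
      (dblT t (fun k => if k = j then a else 0) (fun k => if k = j then b else 0) ε) 1 =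
      κ + ε • (y • v) := by
    rw [upath_dbl, sum_eq_single_of_mem j (mem_range.2 hj)]
    · simp only [if_true]
      rw [min_eq_right hx, min_eq_right hy, min_eq_right (h.2.1 j hj).2.le, add_sub_cancel_left,
        add_sub_cancel_left, smul_add y, he, ← smul_comm y ε v, hv, smul_add ε, smul_smul ε,
        smul_smul ε]
    · intro k _ e
      simp only [if_neg e, mul_zero, add_zero, sub_self, zero_smul]
  obtain ⟨l, hl', -⟩ := R.fold_valid hμ hl (fun i => (hd i).le) hV ⟨y, hE⟩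
  refine ⟨ε, hε.1, ?_⟩
  have e : ((lam, μ, κ) : V3 I) + ε • kap (y • v) = (lam, μ, κ + ε • (y • v)) := by
    simp [kap]
  rw [e]
  exact ⟨hμ, l, hl'⟩

/-- replacing every turn by a chain of covers -/
theorem list_of_chains (μ : I → ℝ) (S : Set ι) (n : ℕ) :
    ∀ (P : I → ℝ) (η : ℕ → W) (t : ℕ → ℝ) (a : ℝ), a ≤ 1 →
      (∀ j k, j < k → k < n → t j ≤ t k) → (∀ j < n, a ≤ t j ∧ t j < 1) →
      (∀ j < n, ∃ (x : W) (bs : List ι), Reg (x • upath μ P n η t (t j)) ∧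
        R.CChain (x * η j) bs ∧ R.endb (x * η j) bs = x * η (j + 1) ∧ ∀ β ∈ bs, x⁻¹ • β ∈ S) →
      ∃ l, R.CovP μ (η 0) P l ∧ TmW a l 1 ∧ (∀ p ∈ l, p.1 < 1 ∧ p.2 ∈ S) ∧
        R.endp (η 0) l = η n ∧ P + R.icpt μ (η 0) l + η n • μ = upath μ P n η t 1 := by
  induction n with
  | zero =>
    intro P η t a ha _ _ _
    refine ⟨[], trivial, ha, by simp, rfl, ?_⟩
    simp [upath, icpt]
  | succ n ih =>
    intro P η t a _ hm h01 hc
    obtain ⟨x, bs, hr, hch, hend, hS⟩ := hc 0 (Nat.succ_pos n)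
    have h0 : ∀ k < n + 1, t 0 ≤ t k := fun k hk => by
      rcases Nat.eq_zero_or_pos k with rfl | h
      · exact le_rfl
      · exact hm 0 k h hk
    rw [unfold_upath_before μ P (n + 1) η t h0] at hr
    obtain ⟨c1, c2⟩ := R.covP_const μ x (t 0) bs (η 0) P hr hch
    rw [hend] at c2
    have c3 := mul_left_cancel c2
    obtain ⟨l1, hl1⟩ : ∃ l1, l1 = bs.map fun β => (t 0, x⁻¹ • β) := ⟨_, rfl⟩
    have c4 : R.icpt μ (η 0) l1 = t 0 • (η 0 • μ - η 1 • μ) := by
      have e : l1 = (bs.map fun β => x⁻¹ • β).map fun β => (t 0, β) := by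
        rw [hl1, List.map_map]
        rfl
      rw [e, R.fold_icpt_const, ← R.endp_map_const _ _ (t 0), ← e, hl1, c3]
    have c5 : ∀ p ∈ l1, p.1 = t 0 ∧ p.2 ∈ S := by
      intro p hp
      rw [hl1] at hp
      obtain ⟨β, hβ, rfl⟩ := List.mem_map.1 hp
      exact ⟨rfl, hS β hβ⟩
    rw [← hl1] at c1 c3
    have t1 := (h01 0 (Nat.succ_pos n)).2
    obtain ⟨l2, d1, d2, d3, d4, d5⟩ := ih (P + t 0 • (η 0 • μ - η 1 • μ)) (fun k => η (k + 1))
      (fun k => t (k + 1)) (t 0) t1.le (fun j k h hk => hm _ _ (by omega) (by omega))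
      (fun j hj => ⟨h0 _ (by omega), (h01 _ (by omega)).2⟩)
      (fun j hj => by
        obtain ⟨x', bs', g1, g2⟩ := hc (j + 1) (by omega)
        rw [unfold_upath_succ, min_eq_right (h0 _ (by omega))] at g1
        exact ⟨x', bs', g1, g2⟩)
    refine ⟨l1 ++ l2, ?_, DpNice_tmW l1 l2 (fun p hp => (c5 p hp).1)
      (h01 0 (Nat.succ_pos n)).1 d2, ?_, ?_, ?_⟩
    · rw [R.covP_append, c3, c4]
      exact ⟨c1, d1⟩
    · intro p hp
      rcases List.mem_append.1 hp with hp | hp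
      · exact ⟨(c5 p hp).1 ▸ t1, (c5 p hp).2⟩
      · exact d3 p hp
    · rw [R.endp_append, c3]
      exact d4
    · rw [R.icpt_append, c3, c4, unfold_upath_succ, min_eq_right t1.le, ← d5]
      abel

variable {R} (Λ : R.Lat)
include Λ

theorem Lat.hc_of_ev {g δ : V3 I} (h : ∀ᶠ ε in 𝓝 (0 : ℝ), R.InC (g + ε • δ)) : R.Hc g δ := by
  refine ⟨Λ.tc_of_ev (h.filter_mono nhdsWithin_le_nhds), Λ.tc_of_ev ?_⟩
  have h1 : Tendsto (fun ε : ℝ => -ε) (𝓝 0) (𝓝 0) := by
    simpa using (continuous_neg (G := ℝ)).tendsto 0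
  refine ((h1.eventually h).filter_mono nhdsWithin_le_nhds).mono fun ε hε => ?_
  rwa [neg_smul, ← smul_neg] at hε

theorem Lat.hc_mono {g g' δ : V3 I} (hg : R.InC g) (h' : R.Hc g g') (h : R.Hc g' δ) :
    R.Hc g δ := ⟨Λ.tc_mono hg h' h.1, Λ.tc_mono hg h' h.2⟩

/-- every regular point of the cone has a nice path in its face -/
theorem Lat.nice {g : V3 I} (hg : R.InC g) (hr : Reg3 g) :
    ∃ lam u L y, R.Good g lam g.2.1 u L y ∧ R.wv y (y * R.endp u L) g ∈
      Submodule.span ℝ {v | ∃ γ, v = R.rt γ ∧ R.Hc g (kap v)} := by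
  classical
  obtain ⟨lam, μ, κ⟩ := g
  obtain ⟨hl, hμ, hκ⟩ : Reg lam ∧ Reg μ ∧ Reg κ := hr
  have hμd : Dom μ := fun i => (hμ i).le
  obtain ⟨-, l0, hl0⟩ := id hg
  obtain ⟨n, η, t, hG, hx⟩ := R.unfold hμ hl0.1.1 hl0.2.1
  obtain ⟨y, hy⟩ := hx 1 ⟨zero_le_one, le_rfl⟩
  have hy' : y • upath μ lam n η t 1 = κ := hy.trans hl0.2.2
  have hev : ∀ᶠ δ in 𝓝 (0 : I → ℝ),
      R.UGood μ (lam + δ) n η t ∧ Reg (lam + δ) ∧ Reg (κ + y • δ) := by
    refine (R.ugood_shift hG).and ((reg_ev hl ?_).and (reg_ev hκ ?_))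
    · have : Continuous fun δ : I → ℝ => lam + δ := by fun_prop
      simpa using this.tendsto 0
    · have : Continuous fun δ : I → ℝ => κ + y • δ :=
        continuous_const.add (continuous_wsmul y)
      simpa using this.tendsto 0
  have hend : ∀ δ, y • upath μ (lam + δ) n η t 1 = κ + y • δ := fun δ => by
    rw [upath_shift, smul_add, hy']
  have hval : ∀ P, R.UGood μ P n η t → R.UValid μ P n η t := fun P h =>
    ⟨fun j k hjk hk => by
      rcases hjk.eq_or_lt with rfl | hlt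
      · exact le_rfl
      · exact (h.1 j k hlt hk).le, fun j hj => ⟨(h.2.1 j hj).1.le, (h.2.1 j hj).2.le⟩, h.2.2.2⟩
  have hC : ∀ᶠ δ in 𝓝 (0 : I → ℝ), R.InC (lam + δ, μ, κ + y • δ) := hev.mono fun δ hδ => by
    obtain ⟨l, h1, -⟩ := R.fold_valid hμd (fun i => (hδ.2.1 i).le) (fun i => (hδ.2.2 i).le)
      (hval _ hδ.1) ⟨y, hend δ⟩
    exact ⟨hμd, l, h1⟩
  have hH : ∀ δ : I → ℝ, R.Hc (lam, μ, κ) (δ, 0, y • δ) := fun δ => by
    have h1 : Tendsto (fun ε : ℝ => ε • δ) (𝓝 0) (𝓝 0) := by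
      have : Continuous fun ε : ℝ => ε • δ := by fun_prop
      simpa using this.tendsto 0
    refine Λ.hc_of_ev ((h1.eventually hC).mono fun ε hε => ?_)
    simpa [smul_comm y ε] using hε
  obtain ⟨U, hU1, hU2, hU3⟩ := mem_nhds_iff.1 hev
  obtain ⟨δ, hδU, hδ⟩ := exists_avoid (E := I → ℝ) (Set.Iio n ×ˢ (Set.univ : Set ι))
    ((Set.finite_Iio n).prod Set.finite_univ)
    (fun a => LinearMap.toContinuousLinearMap (R.cv a.2))
    (fun a => -R.cv a.2 (upath μ lam n η t (t a.1)))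
    (fun a _ h => by
      have := congrArg (fun f : (I → ℝ) →L[ℝ] ℝ => f (R.rt a.2)) h
      simp [R.cv_self] at this) hU2 ⟨0, hU3⟩
  obtain ⟨hG1, hl1, hκ1⟩ := hU1 hδU
  have hg1 : R.Hc (lam, μ, κ) (lam + δ, μ, κ + y • δ) := by
    have := Λ.hc_add (Λ.hc_self hg) (hH δ)
    simpa using this
  obtain ⟨D, hD⟩ := Λ.exists_sub hg
  have hch : ∀ j < n, ∃ (x : W) (bs : List ι), Reg (x • upath μ (lam + δ) n η t (t j)) ∧
      R.CChain (x * η j) bs ∧ R.endb (x * η j) bs = x * η (j + 1) ∧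
      ∀ β ∈ bs, x⁻¹ • β ∈ {γ | R.Hc (lam, μ, κ) (kap (y • R.rt γ))} := by
    intro j hj
    obtain ⟨x, hx⟩ := R.exists_reg_of_ne (p := upath μ (lam + δ) n η t (t j)) (fun γ h => by
      rw [upath_shift, map_add] at h
      exact hδ (j, γ) ⟨hj, trivial⟩ (by
        change R.cv γ δ = -R.cv γ (upath μ lam n η t (t j))
        linarith))
    have hle : R.Le (x * η (j + 1)) (x * η j) := hG1.2.2.2 j hj x (fun i => (hx i).le)
    have hins : ∀ (ζ : W) (a b : ℝ), a ≤ b → R.Le (x * ζ) (x * η j) →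
        R.Le (x * η (j + 1)) (x * ζ) → R.Tc (lam, μ, κ)
          (kap (y • (a • (η j • μ - ζ • μ) + b • (ζ • μ - η (j + 1) • μ)))) :=
      fun ζ a b hab h1 h2 => Λ.tc_mono hg hg1
        (R.tc_insert (fun i => (hl1 i).le) hμd hκ1 hG1 (hend δ) hj ζ hab (fun z hz => by
          rw [R.frame_unique hx hz]
          exact ⟨h1, h2⟩))
    obtain ⟨bs, b1, b2, b3⟩ := R.chain_lin hμ {v | R.Tc (lam, μ, κ) (kap (y • x⁻¹ • v))}
      (by
        simp only [Set.mem_ofPred_eq, smul_zero]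
        exact (Λ.hc_zero hg).1)
      (fun a ha b hb => by
        simp only [Set.mem_ofPred_eq, smul_add, kap_add] at ha hb ⊢
        exact Λ.tc_add ha hb)
      (fun c hc a ha => by
        simp only [Set.mem_ofPred_eq] at ha ⊢
        rw [smul_comm x⁻¹ c, smul_comm y c, kap_smul]
        exact Λ.tc_smul hg ha hc) hle
      (by
        have := hins (η j) 0 1 zero_le_one (R.le_refl' _) hle
        simpa [smul_sub, mul_smul] using this)
      (fun ζ h1 h2 => by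
        have := hins (x⁻¹ * ζ) (-1) 0 (by norm_num) (by simpa using h2) (by simpa using h1)
        simpa [smul_sub, mul_smul, neg_add_eq_sub] using this)
    refine ⟨x, bs, hx, b1, b2, fun β hβ => ?_⟩
    have h1 := (b3 β hβ).1
    have h2 := (b3 β hβ).2
    simp only [Set.mem_ofPred_eq, smul_neg, kap_neg] at h1 h2 ⊢
    rw [R.smul_rt]
    exact ⟨h1, h2⟩
  obtain ⟨l, c1, c2, c3, c4, c5⟩ := R.list_of_chains μ
    {γ | R.Hc (lam, μ, κ) (kap (y • R.rt γ))} n (lam + δ) η t 0 zero_le_one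
    (fun j k hjk hk => (hG1.1 j k hjk hk).le) (fun j hj => ⟨(hG1.2.1 j hj).1.le, (hG1.2.1 j hj).2⟩)
    hch
  have hκ2 : y • (lam + δ + R.icpt μ (η 0) l + η n • μ) = κ + y • δ := by rw [c5, hend]
  have hUn : {v : I → ℝ | Reg (y • (lam + δ + v + η n • μ))} ∈ 𝓝 (R.icpt μ (η 0) l) := by
    have h1 : Continuous fun v : I → ℝ => y • (lam + δ + v + η n • μ) :=
      (continuous_wsmul y).comp (by fun_prop)
    exact reg_ev (by rw [hκ2]; exact hκ1) (h1.tendsto _)
  obtain ⟨l', d1, d2, d3, d4⟩ := R.strictify c1 c2 (fun p hp => (c3 p hp).1) hUn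
  have hlab : ∀ l2 : List (ℝ × ι), l2.map Prod.snd = l.map Prod.snd → ∀ p ∈ l2,
      R.Hc (lam, μ, κ) (kap (y • R.rt p.2)) := fun l2 h p hp => by
    have : p.2 ∈ l.map Prod.snd := h ▸ List.mem_map_of_mem hp
    obtain ⟨q, hq, e⟩ := List.mem_map.1 this
    rw [← e]
    exact (c3 q hq).2
  have hsnd : (R.lev μ (η 0) l').map Prod.snd = l.map Prod.snd := by rw [R.lev_snd, d1]
  have hendp : R.endp (η 0) (R.lev μ (η 0) l') = η n := by rw [R.endp_congr _ hsnd, c4]
  have hsum : R.sumL (R.lev μ (η 0) l') = R.icpt μ (η 0) l' := by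
    rw [← R.icpt_tim hμ (η 0), R.tim_lev hμ]
  refine ⟨lam + δ, η 0, R.lev μ (η 0) l', y, ⟨⟨hl1, hμ, ?_, ?_, ?_⟩, hlab _ hsnd, ?_⟩, ?_⟩
  · rwa [R.tim_lev hμ]
  · rwa [R.tim_lev hμ]
  · rw [End, hsum, hendp]
    exact d4
  · have h1 : y • R.icpt μ (η 0) l' - y • R.icpt μ (η 0) l ∈ D :=
      D.sub_mem (R.icpt_mem D y μ _ _ fun p hp => (hD _).2 (hlab l' d1 p hp))
        (R.icpt_mem D y μ _ _ fun p hp => (hD _).2 (hlab l rfl p hp))
    have h2 := Λ.hc_add hg1 ((hD _).1 h1)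
    have h3 : R.psi (lam + δ) μ (η 0) (R.lev μ (η 0) l') y = (lam + δ, μ, κ + y • δ) +
        kap (y • R.icpt μ (η 0) l' - y • R.icpt μ (η 0) l) := by
      rw [psi, End, hsum, hendp, ← hκ2]
      simp only [kap, Prod.mk_add_mk, add_zero, smul_add, Prod.mk.injEq, true_and]
      abel
    rw [h3]
    exact h2
  · have h1 : R.wv y (y * R.endp (η 0) (R.lev μ (η 0) l')) (lam, μ, κ) =
        y • R.icpt μ (η 0) l := by
      rw [hendp, wv_apply]
      have : κ = y • (lam + δ + R.icpt μ (η 0) l + η n • μ) - y • δ := by rw [hκ2]; abel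
      simp only [mul_smul]
      rw [this]
      simp only [smul_add]
      abel
    rw [h1]
    exact R.icpt_mem _ y μ _ _ fun p hp => Submodule.subset_span
      ⟨y • p.2, (R.smul_rt y p.2).symm, hlab l rfl p hp⟩

theorem Lat.good_hm {g : V3 I} (hg : R.InC g) {lam μ : I → ℝ} {u y : W} {L : List (ℝ × ι)}
    (h : R.Good g lam μ u L y) (a b : I → ℝ) :
    R.Hc g (a, b, y • a + (y * R.endp u L) • b) := by
  refine Λ.hc_mono hg h.2.2 (Λ.hc_of_ev ?_)
  have h1 : ∀ v d : I → ℝ, Tendsto (fun ε : ℝ => v + ε • d) (𝓝 0) (𝓝 v) := fun v d => by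
    have : Continuous fun ε : ℝ => v + ε • d := by fun_prop
    simpa using this.tendsto 0
  refine (R.np_ev (h1 lam a) (h1 μ b) (tl_const _ L) h.1).mono fun ε hε => ?_
  have h2 := R.np_inC hε
  have h3 : R.psi (lam + ε • a) (μ + ε • b) u L y =
      R.psi lam μ u L y + ε • (a, b, y • a + (y * R.endp u L) • b) := by
    simp only [psi, End, Prod.smul_mk, Prod.mk_add_mk, smul_add, mul_smul,
      smul_comm (R.endp u L) ε, smul_comm y ε, Prod.mk.injEq, true_and]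
    abel
  rwa [h3] at h2

/-- all triples of the same shape lie in the face -/
theorem Lat.good_psi {g : V3 I} (hg : R.InC g) {lam μ : I → ℝ} {u y : W} {L : List (ℝ × ι)}
    (h : R.Good g lam μ u L y) (a b : I → ℝ) (L' : List (ℝ × ι))
    (hL : L'.map Prod.snd = L.map Prod.snd) : R.Hc g (R.psi a b u L' y) := by
  obtain ⟨D, hD⟩ := Λ.exists_sub hg
  have h1 : y • R.sumL L' ∈ D := R.sumL_mem D y L' fun p hp => by
    have : p.2 ∈ L.map Prod.snd := hL ▸ List.mem_map_of_mem hp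
    obtain ⟨q, hq, e⟩ := List.mem_map.1 this
    rw [← e]
    exact (hD _).2 (h.2.1 q hq)
  have h2 := Λ.hc_add (Λ.good_hm hg h a b) ((hD _).1 h1)
  have h3 : R.psi a b u L' y = (a, b, y • a + (y * R.endp u L) • b) + kap (y • R.sumL L') := by
    simp only [psi, End, R.endp_congr u hL, kap, Prod.mk_add_mk, add_zero, smul_add, mul_smul,
      Prod.mk.injEq, true_and]
    abel
  rwa [h3]

theorem Lat.tc_iff_wv {g : V3 I} (hg : R.InC g) {lam μ : I → ℝ} {u y : W} {L : List (ℝ × ι)}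
    (h : R.Good g lam μ u L y) (δ : V3 I) :
    R.Tc g δ ↔ R.Tc g (kap (R.wv y (y * R.endp u L) δ)) := by
  have h1 := Λ.good_hm hg h δ.1 δ.2.1
  have h2 : δ = (δ.1, δ.2.1, y • δ.1 + (y * R.endp u L) • δ.2.1) +
      kap (R.wv y (y * R.endp u L) δ) := by
    obtain ⟨a, b, c⟩ := δ
    simp only [kap, wv_apply, Prod.mk_add_mk, add_zero, Prod.mk.injEq, true_and]
    abel
  constructor
  · intro ht
    have h3 := Λ.tc_add h1.2 ht
    rwa [neg_add_eq_iff_eq_add.2 h2] at h3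
  · intro ht
    rw [h2]
    exact Λ.tc_add h1.1 ht

end RD

end Pool.Agent.Lib.MP_1e3767_al
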