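import Pool.Agent.Lib.MP_1e3767_al.DpNice

set_option linter.unusedSectionVars false

namespace Pool.Agent.Lib.MP_1e3767_al

open Finset Filter Topology

namespace RD
variable {I ι W : Type*} [Fintype I] [DecidableEq I] [Fintype ι] [Group W] [Fintype W]
  [DistribMulAction W (I → ℝ)] [SMulCommClass W ℝ (I → ℝ)] [MulAction W ι] (R : RD I ι W)

theorem ell_int (q : W × W × W × I) {g : V3 I} (h : R.InL g) : ∃ z : ℤ, R.ell q g = z := by
  obtain ⟨h1, h2, h3⟩ := h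
  have e : R.wv q.1 q.2.1 g = -(g.1 + g.2.1 - g.2.2) + (g.1 - q.1 • g.1) +
      (g.2.1 - q.2.1 • g.2.1) := by
    rw [wv_apply]
    abel
  rw [ell_apply, e]
  exact (R.inQ_iff _).1 (R.inQ_smul (R.inQ_add (R.inQ_add (R.inQ_neg h3) (R.inQ_sub_smul h1 _))
    (R.inQ_sub_smul h2 _)) _) _

omit R in
theorem dpPoly_avoid {J : Type*} [Countable J] (a : J → W) (c : J → I → ℝ)
    (N : J → Submodule ℝ (I → ℝ)) {U : Set ((I → ℝ) × (I → ℝ))} (hU : IsOpen U)
    (hne : U.Nonempty) : ∃ L ∈ U, ∀ j, N j ≠ ⊤ → L.2 - a j • L.1 - c j ∉ N j := by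
  have h : ∀ j, IsOpen {L : (I → ℝ) × (I → ℝ) | N j ≠ ⊤ → L.2 - a j • L.1 - c j ∉ N j} ∧
      Dense {L : (I → ℝ) × (I → ℝ) | N j ≠ ⊤ → L.2 - a j • L.1 - c j ∉ N j} := by
    intro j
    by_cases hN : N j = ⊤
    · simp [hN]
    · have := perturb_od (LinearMap.snd ℝ (I → ℝ) (I → ℝ) -
        DistribSMul.toLinearMap ℝ (I → ℝ) (a j) ∘ₗ LinearMap.fst ℝ (I → ℝ) (I → ℝ))
        (fun v => ⟨(0, v), by simp⟩) (N j) hN (c j)
      simpa [hN] using this
  obtain ⟨L, h1, h2⟩ :=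
    (dense_iInter_of_isOpen (fun j => (h j).1) fun j => (h j).2).inter_open_nonempty U hU hne
  exact ⟨L, h1, fun j => Set.mem_iInter.1 h2 j⟩

omit R in
theorem dpPoly_reg {v w : I → ℝ} (hw : ∀ i, 1 ≤ w i) (h : dist v w < 1) : Reg v := by
  intro i
  have h1 := (dist_le_pi_dist v w i).trans_lt h
  rw [Real.dist_eq, abs_lt] at h1
  linarith [hw i, h1.1]

omit R in
theorem dpPoly_comb {v w : I → ℝ} (hv : Reg v) (hw : Reg w) {s : ℝ} (h0 : 0 ≤ s) (h1 : s < 1) :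
    Reg (v + s • (w - v)) := by
  intro i
  have a1 := mul_pos (sub_pos.2 h1) (hv i)
  have a2 := mul_nonneg h0 (hw i).le
  simp only [Pi.add_apply, Pi.smul_apply, Pi.sub_apply, smul_eq_mul]
  nlinarith

/-- a regular starting point in general position -/
theorem exists_start (σ : V3 I) : ∃ g0 : V3 I, R.InC g0 ∧ Reg3 g0 ∧
    ∀ (a b : W) (S : Set ι),
      (Submodule.span ℝ (R.rt '' S) ≠ ⊤ → R.wv a b g0 ∉ Submodule.span ℝ (R.rt '' S)) ∧
      (Submodule.span ℝ (insert (R.wv a b σ) (R.rt '' S)) ≠ ⊤ →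
        R.wv a b g0 ∉ Submodule.span ℝ (insert (R.wv a b σ) (R.rt '' S))) := by
  have hρ : Dom (rho : I → ℝ) := fun _ => zero_le_one
  have h1 : ∀ i, 1 ≤ ((1 : W) • ((rho : I → ℝ) + (1 : W) • (rho : I → ℝ))) i := fun i => by
    simp [rho]
  have h0 := R.inC_prv hρ hρ 1 1 fun i => zero_le_one.trans (h1 i)
  obtain ⟨μ, U, hμ, -, hU, hne, hall⟩ := R.exists_open hρ h0.2 one_pos
  obtain ⟨L, hL, hav⟩ := dpPoly_avoid (J := W × W × Set ι × Bool) (fun j => j.1)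
    (fun j => j.2.1 • μ) (fun j => Submodule.span ℝ (cond j.2.2.2 (R.rt '' j.2.2.1)
      (insert (R.wv j.1 j.2.1 σ) (R.rt '' j.2.2.1)))) hU hne
  obtain ⟨d1, d2, d3⟩ := hall L hL
  exact ⟨(L.1, μ, L.2), ⟨fun i => (hμ i).le, d3⟩,
    ⟨dpPoly_reg (fun _ => le_rfl) d1, hμ, dpPoly_reg h1 d2⟩,
    fun a b S => ⟨hav (a, b, S, true), hav (a, b, S, false)⟩⟩

variable {R} (Λ : R.Lat)
include Λ

/-- the regular part of the cone is cut out by the valid functionals -/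
theorem Lat.poly {σ : V3 I} (hr : Reg3 σ) (h : ∀ q, R.Valid q → 0 ≤ R.ell q σ) : R.InC σ := by
  obtain ⟨g0, c0, r0, hs0⟩ := R.exists_start σ
  have hcp : IsCompact (Set.Icc (0 : ℝ) 1 ∩ {s : ℝ | R.InC (g0 + s • (σ - g0))}) :=
    isCompact_Icc.inter_right (R.isClosed_inC.preimage (f := fun s : ℝ => g0 + s • (σ - g0))
      (by fun_prop))
  obtain ⟨s, ⟨⟨s0, s1⟩, hg⟩, hmax⟩ :=
    hcp.exists_isGreatest ⟨0, ⟨le_rfl, zero_le_one⟩, by simpa using c0⟩
  rcases s1.eq_or_lt with rfl | s1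
  · simpa using hg
  exfalso
  have rg : Reg3 (g0 + s • (σ - g0)) :=
    ⟨dpPoly_comb r0.1 hr.1 s0 s1, dpPoly_comb r0.2.1 hr.2.1 s0 s1, dpPoly_comb r0.2.2 hr.2.2 s0 s1⟩
  have hg' : R.InC (g0 + s • (σ - g0)) := hg
  obtain ⟨g, eg⟩ : ∃ g, g = g0 + s • (σ - g0) := ⟨_, rfl⟩
  rw [← eg] at rg hg'
  have nt : ¬ R.Tc g (σ - g0) := by
    intro ht
    obtain ⟨ε0, e0, he⟩ := Λ.tc_small hg' ht
    have p1 : 0 < min ε0 (1 - s) := lt_min e0 (sub_pos.2 s1)
    have h1 := he _ p1.le (min_le_left _ _)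
    rw [eg, add_assoc, ← add_smul] at h1
    have h2 := hmax ⟨⟨add_nonneg s0 p1.le, by linarith [min_le_right ε0 (1 - s)]⟩, h1⟩
    linarith
  obtain ⟨lam, u, L, y, hgood, hw⟩ := Λ.nice hg' rg
  obtain ⟨D, hD⟩ := Λ.exists_sub hg'
  have tw := Λ.tc_iff_wv hg' hgood
  generalize y * R.endp u L = w at hw tw
  obtain ⟨S, hS⟩ : ∃ S : Set ι, S = {γ | R.Hc g (kap (R.rt γ))} := ⟨_, rfl⟩
  have eS : {v | ∃ γ, v = R.rt γ ∧ R.Hc g (kap v)} = R.rt '' S := by
    ext v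
    constructor
    · rintro ⟨γ, rfl, hγ⟩
      exact ⟨γ, hS ▸ hγ, rfl⟩
    · rintro ⟨γ, hγ, rfl⟩
      exact ⟨γ, rfl, by simpa [hS] using hγ⟩
  rw [eS] at hw
  obtain ⟨a1, a2⟩ := hs0 y w S
  have hND : Submodule.span ℝ (R.rt '' S) ≤ D := by
    rw [Submodule.span_le]
    rintro _ ⟨γ, hγ, rfl⟩
    exact (hD _).2 (by simpa [hS] using hγ)
  have hNt : Submodule.span ℝ (R.rt '' S) ≠ ⊤ := fun ht =>
    nt ((tw _).2 ((hD _).1 (hND (ht ▸ Submodule.mem_top))).1)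
  have a3 := a1 hNt
  have ew : R.wv y w g = (1 - s) • R.wv y w g0 + s • R.wv y w σ := by
    rw [eg, map_add, map_smul, map_sub]
    module
  have s1' : (1 - s) ≠ 0 := (sub_pos.2 s1).ne'
  have htop : Submodule.span ℝ (insert (R.wv y w σ) (R.rt '' S)) = ⊤ := by
    by_contra hne
    refine a2 hne (Submodule.mem_span_insert.2 ⟨-((1 - s)⁻¹ * s), (1 - s)⁻¹ • R.wv y w g,
      Submodule.smul_mem _ _ hw, ?_⟩)
    rw [ew, smul_add, smul_smul, smul_smul, inv_mul_cancel₀ s1']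
    module
  obtain ⟨φ, f1, f2⟩ := LinearMap.exists_extend_of_notMem
    (0 : Submodule.span ℝ (R.rt '' S) →ₗ[ℝ] ℝ) a3 1
  have f0 : ∀ v ∈ Submodule.span ℝ (R.rt '' S), φ v = 0 := fun v hv =>
    LinearMap.congr_fun f1 ⟨v, hv⟩
  have f3 : (1 - s) + s * φ (R.wv y w σ) = 0 := by
    have := f0 _ hw
    rwa [ew, map_add, map_smul, map_smul, f2, smul_eq_mul, smul_eq_mul, mul_one] at this
  have f4 : φ (R.wv y w σ) < 0 := by
    by_contra hc
    have := mul_nonneg s0 (not_lt.1 hc)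
    linarith
  have hker : ∀ v, φ v = 0 → v ∈ Submodule.span ℝ (R.rt '' S) := by
    intro v hv
    obtain ⟨c, z, hz, rfl⟩ := Submodule.mem_span_insert.1 (htop ▸ Submodule.mem_top (x := v))
    rw [map_add, map_smul, f0 z hz, add_zero, smul_eq_mul] at hv
    rw [(mul_eq_zero.1 hv).resolve_right f4.ne, zero_smul, zero_add]
    exact hz
  have hval : ∀ k, R.InC k → 0 ≤ φ (R.wv y w k) := by
    intro k hk
    by_contra hc
    have hc := not_le.1 hc
    have f5 : φ (R.wv y w (σ - g0)) < 0 := by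
      rw [map_sub, map_sub, f2]
      linarith
    have c1 : 0 ≤ φ (R.wv y w (σ - g0)) / φ (R.wv y w k) := div_nonneg_of_nonpos f5.le hc.le
    have t1 := Λ.tc_smul hg' ((tw k).1 (Λ.tc_of_inC hg' hk)) c1
    have t2 := ((hD _).1 (hND (hker (R.wv y w (σ - g0) -
      (φ (R.wv y w (σ - g0)) / φ (R.wv y w k)) • R.wv y w k) (by
        rw [map_sub φ, map_smul, smul_eq_mul, div_mul_cancel₀ _ hc.ne, sub_self])))).1
    have t3 := Λ.tc_add t1 t2
    rw [← kap_smul, ← kap_add, add_sub_cancel] at t3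
    exact nt ((tw _).2 t3)
  obtain ⟨z, hz⟩ := R.exists_frame φ
  obtain ⟨i, c, c1, hc⟩ := R.fund φ (fun h0 => by simp [h0] at f2) (fun v hv =>
    Submodule.span_mono (by
      rintro _ ⟨γ, hγ, rfl⟩
      exact ⟨γ, rfl, f0 _ (Submodule.subset_span ⟨γ, hγ, rfl⟩)⟩) (hker v hv)) z hz
  have b1 := h (y, w, z, i) fun k hk => by
    have := hval k hk
    rw [hc] at this
    exact (mul_nonneg_iff_of_pos_left c1).1 this
  rw [hc] at f4
  exact absurd (mul_nonneg c1.le b1) (not_le.2 f4)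

theorem Lat.tc_iff {g : V3 I} (hg : R.InC g) (hr : Reg3 g) (δ : V3 I) :
    R.Tc g δ ↔ ∀ q, R.Valid q → R.ell q g = 0 → 0 ≤ R.ell q δ := by
  constructor
  · rintro ⟨ε, e0, he⟩ q hq h0
    have := hq _ he
    rw [map_add, map_smul, h0, zero_add, smul_eq_mul] at this
    exact (mul_nonneg_iff_of_pos_left e0).1 this
  · intro h
    have ht : Tendsto (fun ε : ℝ => g + ε • δ) (𝓝[>] 0) (𝓝 g) := by
      have hc : Continuous fun ε : ℝ => g + ε • δ := by fun_prop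
      simpa using (hc.tendsto 0).mono_left nhdsWithin_le_nhds
    have e1 := reg_ev hr.1 ht.fst_nhds
    have e2 := reg_ev hr.2.1 ht.snd_nhds.fst_nhds
    have e3 := reg_ev hr.2.2 ht.snd_nhds.snd_nhds
    have e4 : ∀ᶠ ε in 𝓝[>] (0 : ℝ), ∀ q, R.Valid q → 0 ≤ R.ell q (g + ε • δ) := by
      refine eventually_all.2 fun q => ?_
      by_cases hq : R.Valid q
      · rcases (hq g hg).eq_or_lt with h0 | h0
        · filter_upwards [self_mem_nhdsWithin] with ε hε _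
          rw [map_add, map_smul, ← h0, zero_add, smul_eq_mul]
          exact mul_nonneg (le_of_lt hε) (h q hq h0.symm)
        · have := (((R.ell q).continuous_of_finiteDimensional.tendsto g).comp ht).eventually
            (lt_mem_nhds h0)
          filter_upwards [this] with ε hε _
          exact hε.le
      · exact Eventually.of_forall fun _ h1 => absurd h1 hq
    refine Λ.tc_of_ev ?_
    filter_upwards [e1, e2, e3, e4] with ε a b c d
    exact Λ.poly ⟨a, b, c⟩ d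

end RD

end Pool.Agent.Lib.MP_1e3767_al
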