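import Pool.Agent.Lib.MP_1e3767_al.DpCone

set_option linter.unusedSectionVars false

namespace Pool.Agent.Lib.MP_1e3767_al

open Finset Filter Topology

theorem dpRs_add {I : Type*} {v w : I → ℝ} (hv : IntV v) (hw : IntV w) : IntV (v + w) := by
  intro i
  obtain ⟨a, ha⟩ := hv i
  obtain ⟨b, hb⟩ := hw i
  exact ⟨a + b, by simp [ha, hb]⟩

theorem dpRs_neg {I : Type*} {v : I → ℝ} (hv : IntV v) : IntV (-v) := by
  intro i
  obtain ⟨a, ha⟩ := hv i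
  exact ⟨-a, by simp [ha]⟩

theorem dpRs_zero {I : Type*} : IntV (0 : I → ℝ) := fun _ => ⟨0, by simp⟩

theorem dpRs_mem {I : Type*} {E : AddSubgroup (I → ℝ)} {v : I → ℝ} (hv : v ∈ E) (n : ℕ) :
    (n : ℝ) • v ∈ E := by
  rw [Nat.cast_smul_eq_nsmul]
  exact E.nsmul_mem hv n

namespace RD
variable {I ι W : Type*} [Fintype I] [DecidableEq I] [Fintype ι] [Group W] [Fintype W]
  [DistribMulAction W (I → ℝ)] [SMulCommClass W ℝ (I → ℝ)] [MulAction W ι] (R : RD I ι W)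

theorem inL_zero : R.InL 0 :=
  ⟨dpRs_zero, dpRs_zero, by simpa using R.inQ_zero⟩

theorem inL_add {a b : V3 I} (ha : R.InL a) (hb : R.InL b) : R.InL (a + b) := by
  refine ⟨dpRs_add ha.1 hb.1, dpRs_add ha.2.1 hb.2.1, ?_⟩
  have h := R.inQ_add ha.2.2 hb.2.2
  have e : (a + b).1 + (a + b).2.1 - (a + b).2.2
      = a.1 + a.2.1 - a.2.2 + (b.1 + b.2.1 - b.2.2) := by
    simp only [Prod.fst_add, Prod.snd_add]
    abel
  rw [e]
  exact h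

theorem inL_neg {a : V3 I} (ha : R.InL a) : R.InL (-a) := by
  refine ⟨dpRs_neg ha.1, dpRs_neg ha.2.1, ?_⟩
  have h := R.inQ_neg ha.2.2
  have e : (-a).1 + (-a).2.1 - (-a).2.2 = -(a.1 + a.2.1 - a.2.2) := by
    simp only [Prod.fst_neg, Prod.snd_neg]
    abel
  rw [e]
  exact h

theorem inL_nsmul {a : V3 I} (ha : R.InL a) (n : ℕ) : R.InL ((n : ℝ) • a) := by
  induction n with
  | zero => simpa using R.inL_zero
  | succ n ih =>
    rw [Nat.cast_succ, add_smul, one_smul]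
    exact R.inL_add ih ha

theorem inL_kap {v : I → ℝ} (hv : R.InQ v) : R.InL (kap v) := by
  refine ⟨dpRs_zero, dpRs_zero, ?_⟩
  have h := R.inQ_neg hv
  simpa [kap] using h

variable {R} (Λ : R.Lat) {g : V3 I}

theorem Lat.inL_of_re {f : V3 I} (h : Λ.RE f) : R.InL f :=
  R.inL_of_rp h.1 (Λ.int _ h.2.1) (Λ.int _ h.2.2)

theorem Lat.rs_zero (hg : R.InC g) : Λ.Rs g 0 :=
  ⟨0, Λ.re_zero, Λ.hc_zero hg, by simpa using Λ.re_zero⟩

theorem Lat.rs_add {a b : V3 I} (ha : Λ.Rs g a) (hb : Λ.Rs g b) : Λ.Rs g (a + b) := by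
  obtain ⟨f, h1, h2, h3⟩ := ha
  obtain ⟨f', k1, k2, k3⟩ := hb
  refine ⟨f + f', Λ.re_add h1 k1, Λ.hc_add h2 k2, ?_⟩
  rw [add_add_add_comm]
  exact Λ.re_add h3 k3

theorem Lat.rs_nsmul (hg : R.InC g) {a : V3 I} (ha : Λ.Rs g a) (n : ℕ) :
    Λ.Rs g ((n : ℝ) • a) := by
  induction n with
  | zero => simpa using Λ.rs_zero hg
  | succ n ih =>
    rw [Nat.cast_succ, add_smul, one_smul]
    exact Λ.rs_add ih ha

theorem Lat.rs_sum (hg : R.InC g) {A : Type*} (S : Finset A) (a : A → V3 I)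
    (h : ∀ j ∈ S, Λ.Rs g (a j)) : Λ.Rs g (∑ j ∈ S, a j) :=
  Finset.sum_induction a (Λ.Rs g) (fun _ _ => Λ.rs_add) (Λ.rs_zero hg) h

theorem Lat.tc_of_rs (hg : R.InC g) {a : V3 I} (ha : Λ.Rs g a) : R.Tc g a := by
  obtain ⟨f, -, h2, h3⟩ := ha
  have h := Λ.tc_add (Λ.tc_of_inC hg (R.inC_of_rp h3.1)) h2.2
  have e : f + a + -f = a := by abel
  rwa [e] at h

/-- inside the face the localisation is a group -/
theorem Lat.rs_neg (hg : R.InC g) (hL : R.InL g) (h1 : g.1 ∈ Λ.E) (h2 : g.2.1 ∈ Λ.E) {a : V3 I}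
    (ha : Λ.Rs g a) (hn : R.Tc g (-a)) : Λ.Rs g (-a) := by
  obtain ⟨f, f1, -, f3⟩ := id ha
  have ea : a = f + a + -f := by abel
  have aL : R.InL a := by
    rw [ea]
    exact R.inL_add (Λ.inL_of_re f3) (R.inL_neg (Λ.inL_of_re f1))
  have a1 : (-a).1 ∈ Λ.E := by
    have h := Λ.E.sub_mem f1.2.1 f3.2.1
    simpa using h
  have a2 : (-a).2.1 ∈ Λ.E := by
    have h := Λ.E.sub_mem f1.2.2 f3.2.2
    simpa using h
  obtain ⟨ε, e0, he⟩ := Λ.tc_small hg hn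
  obtain ⟨N, hN⟩ := exists_nat_one_div_lt e0
  have N0 : (0 : ℝ) < (N : ℝ) + 1 := by positivity
  have c1 := R.inC_smul (he _ (by positivity) hN.le) N0.le
  have e1 : ((N : ℝ) + 1) • (g + (1 / ((N : ℝ) + 1)) • -a) = ((N + 1 : ℕ) : ℝ) • g + -a := by
    rw [smul_add, smul_smul, mul_one_div_cancel N0.ne', one_smul, Nat.cast_succ]
  rw [e1] at c1
  obtain ⟨k, k0, hk⟩ := R.exists_kDiv
  have gL := R.inL_nsmul hL (N + 1)
  have r1 : Λ.RE ((k : ℝ) • (((N + 1 : ℕ) : ℝ) • g + -a)) :=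
    ⟨R.rp_sat hk c1 (R.inL_add gL (R.inL_neg aL)),
      dpRs_mem (Λ.E.add_mem (dpRs_mem h1 (N + 1)) a1) k,
      dpRs_mem (Λ.E.add_mem (dpRs_mem h2 (N + 1)) a2) k⟩
  have r2 : Λ.RE ((k : ℝ) • (((N + 1 : ℕ) : ℝ) • g)) :=
    ⟨R.rp_sat hk (R.inC_smul hg (Nat.cast_nonneg _)) gL,
      dpRs_mem (dpRs_mem h1 (N + 1)) k, dpRs_mem (dpRs_mem h2 (N + 1)) k⟩
  have r3 : Λ.Rs g ((k : ℝ) • -a) :=
    ⟨_, r2, Λ.hc_smul hg (Λ.hc_smul hg (Λ.hc_self hg) _) _, by rw [← smul_add]; exact r1⟩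
  obtain ⟨j, rfl⟩ : ∃ j, k = j + 1 := ⟨k - 1, by omega⟩
  have r4 := Λ.rs_add r3 (Λ.rs_nsmul hg ha j)
  have e2 : ((j + 1 : ℕ) : ℝ) • -a + (j : ℝ) • a = -a := by
    rw [Nat.cast_succ, add_smul, one_smul, smul_neg]
    abel
  rwa [e2] at r4

end RD

end Pool.Agent.Lib.MP_1e3767_al
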