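import Pool.Agent.Lib.MP_1e3767_al.DpInt
import Pool.Agent.Lib.MP_1e3767_al.DpRs
import Pool.Agent.Lib.MP_1e3767_al.DpPoly

set_option linter.unusedSectionVars false

namespace Pool.Agent.Lib.MP_1e3767_al

open Finset Filter Topology

namespace RD
variable {I ι W : Type*} [Fintype I] [DecidableEq I] [Fintype ι] [Group W] [Fintype W]
  [DistribMulAction W (I → ℝ)] [SMulCommClass W ℝ (I → ℝ)] [MulAction W ι] (R : RD I ι W)

theorem star_wv_inQ (a b : W) {h : V3 I} (hL : R.InL h) : R.InQ (R.wv a b h) := by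
  have h1 := R.inQ_add (R.inQ_add (R.inQ_neg hL.2.2) (R.inQ_sub_smul hL.1 a))
    (R.inQ_sub_smul hL.2.1 b)
  have h2 : R.wv a b h = -(h.1 + h.2.1 - h.2.2) + (h.1 - a • h.1) + (h.2.1 - b • h.2.1) := by
    rw [wv_apply]; abel
  rwa [h2]

theorem star_expand (z : W) (v : I → ℝ) :
    v = ∑ j, R.crd j (z • v) • R.rt (z⁻¹ • R.sr j) := by
  have h1 := congrArg (fun x => z⁻¹ • x) (R.crd_expand (z • v))
  simp only [inv_smul_smul, Finset.smul_sum] at h1
  refine h1.symm.trans (Finset.sum_congr rfl fun j _ => ?_)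
  rw [smul_comm, R.smul_rt]

theorem star_crd (z : W) (i j : I) :
    R.crd i (z • R.rt (z⁻¹ • R.sr j)) = if i = j then 1 else 0 := by
  rw [R.smul_rt, smul_inv_smul, R.crd_sr]

theorem star_kap_sum {A : Type*} (S : Finset A) (v : A → I → ℝ) :
    (kap (∑ j ∈ S, v j) : V3 I) = ∑ j ∈ S, kap (v j) := by
  classical
  induction S using Finset.induction_on with
  | empty => simp [kap]
  | insert a S ha ih => rw [Finset.sum_insert ha, Finset.sum_insert ha, kap_add, ih]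

/-- the functional attached to a frame and an index -/
noncomputable def starF (z : W) (i : I) : (I → ℝ) →ₗ[ℝ] ℝ := R.crd i ∘ₗ R.act z

theorem starF_apply (z : W) (i : I) (v : I → ℝ) : R.starF z i v = R.crd i (z • v) := rfl

theorem starF_fund (z' : W) (i' : I) (z : W)
    (hz : ∀ j, 0 ≤ R.starF z' i' (z⁻¹ • R.rt (R.sr j))) :
    ∃ (i : I) (c : ℝ), 0 < c ∧ ∀ v, R.starF z' i' v = c * R.crd i (z • v) := by
  refine R.fund _ (fun h => ?_) (fun v hv => ?_) z hz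
  · have h1 := R.star_crd z' i' i'
    rw [← starF_apply, h] at h1
    simp at h1
  · rw [R.star_expand z' v]
    refine Submodule.sum_mem _ fun j _ => ?_
    by_cases hj : j = i'
    · rw [hj, ← starF_apply, hv, zero_smul]
      exact Submodule.zero_mem _
    · refine Submodule.smul_mem _ _ (Submodule.subset_span ⟨_, rfl, ?_⟩)
      rw [starF_apply, R.star_crd, if_neg (Ne.symm hj)]

variable {R} (Λ : R.Lat) {g : V3 I} {lam μ : I → ℝ} {u y : W} {L : List (ℝ × ι)}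

/-- every class of roots outside a subgroup containing the labels has a move -/
theorem Lat.star_move (hg : R.InC g) (h : R.Good g lam μ u L y) (hG : R.Gen lam μ u L)
    (A : AddSubgroup (I → ℝ)) (hA : ∀ p ∈ L, y • R.rt p.2 ∈ A) {ψ : ι} (hψ : R.rt ψ ∉ A) :
    ∃ χ, (R.rt χ - R.rt ψ ∈ A ∨ R.rt χ + R.rt ψ ∈ A) ∧
      ((∃ γ, (γ ∈ R.Pos ∧ 0 < R.cv γ (u • rho)) ∧ R.rt χ = -(y • R.rt γ)) ∨
        R.Step (y * R.endp u L) χ ∨ Λ.Rs g (kap (R.rt χ))) := by
  have hng : ∀ γ, (y • R.rt γ - R.rt ψ ∈ A ∨ y • R.rt γ + R.rt ψ ∈ A) →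
      (y • R.rt (R.ng γ) - R.rt ψ ∈ A ∨ y • R.rt (R.ng γ) + R.rt ψ ∈ A) := by
    intro γ hγ
    rw [R.rt_ng, smul_neg]
    rcases hγ with h1 | h1
    · right
      have := A.neg_mem h1
      rwa [neg_sub, sub_eq_neg_add] at this
    · left
      have := A.neg_mem h1
      rwa [neg_add, ← sub_eq_add_neg] at this
  rcases R.tri h.1 {γ | y • R.rt γ - R.rt ψ ∈ A ∨ y • R.rt γ + R.rt ψ ∈ A} hng
    (fun p hp γ hγ => by
      obtain ⟨n, hn⟩ := R.cv_int p.2 (R.intV_rt γ)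
      have h1 : R.cv p.2 (R.rt γ) • y • R.rt p.2 ∈ A := by
        rw [hn, Int.cast_smul_eq_zsmul]
        exact A.zsmul_mem (hA p hp) n
      simp only [Set.mem_ofPred_eq] at hγ ⊢
      rw [R.rt_s_smul, smul_sub, smul_comm y]
      rcases hγ with h2 | h2
      · left
        have := A.sub_mem h2 h1
        rwa [sub_right_comm] at this
      · right
        have := A.sub_mem h2 h1
        rwa [add_sub_right_comm] at this)
    (fun p hp hK => by
      rcases hK with h2 | h2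
      · have := A.sub_mem (hA p hp) h2
        rw [sub_sub_cancel] at this
        exact hψ this
      · have := A.sub_mem h2 (hA p hp)
        rw [add_sub_cancel_left] at this
        exact hψ this)
    ⟨y⁻¹ • ψ, Or.inl (by rw [R.smul_rt, smul_inv_smul, sub_self]; exact A.zero_mem)⟩ with
    ⟨γ, hK, h0⟩ | ⟨γ, hK, h1⟩ | ⟨L1, L2, γ, τ, hK, rfl, hx⟩
  · refine ⟨y • R.ng γ, ?_, Or.inl ⟨γ, h0, ?_⟩⟩
    · rw [R.smul_rt]
      exact hng γ hK
    · rw [R.smul_rt, R.rt_ng, smul_neg]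
  · refine ⟨y • γ, ?_, Or.inr (Or.inl h1)⟩
    rw [R.smul_rt]
    exact hK
  · refine ⟨y • R.ng γ, ?_, Or.inr (Or.inr ?_)⟩
    · rw [R.smul_rt]
      exact hng γ hK
    · rw [R.smul_rt, R.rt_ng, smul_neg]
      exact Λ.rs_e2 hg h hG hx

/-- the group of third components of units of the localisation -/
def Lat.unitG (hg : R.InC g) : AddSubgroup (I → ℝ) where
  carrier := {v | Λ.Rs g (kap v) ∧ Λ.Rs g (kap (-v))}
  add_mem' := fun {a b} ha hb => by
    refine ⟨?_, ?_⟩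
    · rw [kap_add]
      exact Λ.rs_add ha.1 hb.1
    · rw [neg_add, kap_add]
      exact Λ.rs_add ha.2 hb.2
  zero_mem' := ⟨Λ.rs_zero hg, by rw [neg_zero]; exact Λ.rs_zero hg⟩
  neg_mem' := fun {a} ha => ⟨ha.2, by rw [neg_neg]; exact ha.1⟩

/-- a family of moves: all are tangent, none lies in the face, and every simple class that is
met contains an integral move -/
theorem Lat.star_end (hg : R.InC g) {J : Type*} (φ : J → (I → ℝ) →ₗ[ℝ] ℝ)
    (hT : ∀ v, R.Tc g (kap v) ↔ ∀ q, 0 ≤ φ q v) {N Cov : Set ι} (hN : R.F3P N Cov) (a : W)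
    (m : (I → ℝ) →ₗ[ℝ] (I → ℝ)) (hm : ∀ β, ∃ χ, m (R.rt β) = R.rt χ)
    (hc : ∀ β ∈ Cov, Λ.Rs g (kap (m (R.rt β))) ∧ ¬ R.Hc g (kap (m (R.rt β)))) :
    (∀ β ∈ N, R.Tc g (kap (m (R.rt β))) ∧ ¬ R.Hc g (kap (m (R.rt β)))) ∧
    ∀ S : Set I, (∀ v, R.Tc g (kap v) ↔ ∀ j ∈ S, 0 ≤ R.crd j (a • v)) → ∀ i ∈ S, ∀ β ∈ N,
      (∀ j ∈ S, R.crd j (a • m (R.rt β)) = if j = i then 1 else 0) →
      ∃ χ, Λ.Rs g (kap (R.rt χ)) ∧ ∀ j ∈ S, R.crd j (a • R.rt χ) = if j = i then 1 else 0 := by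
  classical
  have h1 : ∀ q, ∀ β ∈ N, 0 ≤ (φ q ∘ₗ m) (R.rt β) := fun q =>
    R.end1 hN (φ q ∘ₗ m) fun β _ hβ => (hT _).1 (Λ.tc_of_rs hg (hc β hβ).1) q
  have h2 : ∀ β ∈ N, R.Tc g (kap (m (R.rt β))) ∧ ¬ R.Hc g (kap (m (R.rt β))) := by
    intro β hβ
    refine ⟨(hT _).2 fun q => h1 q β hβ, fun hH => ?_⟩
    obtain ⟨β', -, b2, b3⟩ := R.end2 hN (fun q => φ q ∘ₗ m) h1 hβ (fun q => by
      have e1 := (hT _).1 hH.1 q
      have e2 := (hT (-m (R.rt β))).1 (by rw [kap_neg]; exact hH.2) q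
      rw [map_neg] at e2
      change φ q (m (R.rt β)) = 0
      linarith)
    refine (hc β' b2).2 ⟨(hT _).2 fun q => (b3 q).ge, ?_⟩
    rw [← kap_neg]
    refine (hT _).2 fun q => ?_
    have : φ q (m (R.rt β')) = 0 := b3 q
    rw [map_neg, this, neg_zero]
  refine ⟨h2, fun S hS i hi β hβ hb => ?_⟩
  have hval : ∀ j v, (if j ∈ S then R.starF a j ∘ₗ m else 0 : (I → ℝ) →ₗ[ℝ] ℝ) v =
      if j ∈ S then R.crd j (a • m v) else 0 := fun j v => by
    split_ifs <;> rfl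
  obtain ⟨β', b1, b2, b3⟩ := R.end3 hN (fun j => if j ∈ S then R.starF a j ∘ₗ m else 0)
    (fun j γ hγ => by
      rw [hval]
      split_ifs with hj
      · have e1 := (hS _).1 (h2 γ hγ).1 j hj
        obtain ⟨χ, hχ⟩ := hm γ
        rw [hχ, ← R.smul_rt, R.crd_rt] at e1 ⊢
        have e2 : 0 ≤ R.cf (a • χ) j := by exact_mod_cast e1
        obtain ⟨n, hn⟩ := Int.eq_ofNat_of_zero_le e2
        exact ⟨n, by rw [hn]; simp⟩
      · exact ⟨0, by simp⟩)
    (fun γ hγ => by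
      by_contra hcon
      push Not at hcon
      refine (h2 γ hγ).2 ⟨(h2 γ hγ).1, ?_⟩
      rw [← kap_neg]
      refine (hS _).2 fun j hj => ?_
      have e1 := hcon j
      rw [hval, if_pos hj] at e1
      rw [smul_neg, map_neg, e1, neg_zero])
    (i := i) hβ (fun j => by
      rw [hval]
      by_cases hj : j ∈ S
      · rw [if_pos hj, hb j hj]
      · rw [if_neg hj, if_neg (fun e : j = i => hj (e ▸ hi))])
  obtain ⟨χ, hχ⟩ := hm β'
  refine ⟨χ, hχ ▸ (hc β' b2).1, fun j hj => ?_⟩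
  have e1 := b3 j
  rw [hval, if_pos hj, hχ] at e1
  exact e1

/-- the localisation at a regular face is saturated -/
theorem Lat.star {g h : V3 I} (hg : R.InC g) (hr : Reg3 g) (hL : R.InL g) (h1 : g.1 ∈ Λ.E)
    (h2 : g.2.1 ∈ Λ.E) (hh : R.InC h) (hhL : R.InL h) (h3 : h.1 ∈ Λ.E) (h4 : h.2.1 ∈ Λ.E) :
    Λ.Rs g h := by
  classical
  obtain ⟨lam, μ, u, L, y, hgood, hgen, hm0, hm1⟩ := Λ.exists_max_good hg hr
  obtain ⟨D, hD⟩ := Λ.exists_sub hg
  let J := {q : W × W × W × I // R.Valid q ∧ R.ell q g = 0}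
  let φ : J → (I → ℝ) →ₗ[ℝ] ℝ := fun q => R.starF q.1.2.2.1 q.1.2.2.2
  have hT : ∀ v, R.Tc g (kap v) ↔ ∀ q, 0 ≤ φ q v := fun v => by
    have e : ∀ q : W × W × W × I, R.ell q (kap v) = R.starF q.2.2.1 q.2.2.2 v := fun q => by
      simp [ell_apply, wv_apply, kap, starF_apply]
    rw [Λ.tc_iff hg hr]
    exact ⟨fun H q => by rw [← e]; exact H q.1 q.2.1 q.2.2,
      fun H q a b => by rw [e]; exact H ⟨q, a, b⟩⟩
  have hD0 : ∀ v ∈ D, ∀ q, φ q v = 0 := fun v hv q => by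
    have e1 := (hT _).1 ((hD v).1 hv).1 q
    have e2 := (hT (-v)).1 (by rw [kap_neg]; exact ((hD v).1 hv).2) q
    rw [map_neg] at e2
    linarith
  obtain ⟨z, hz⟩ := R.exists_frame (∑ q : J, φ q)
  obtain ⟨A0, B0⟩ := Λ.star_end hg φ hT (R.f3p_start u) z (-R.act y)
    (fun β => ⟨y • R.ng β, by rw [R.smul_rt, R.rt_ng, smul_neg]; rfl⟩)
    (fun β hβ => ⟨Λ.rs_e0 hg hgood hβ, fun hH => hm0 β hβ (by
      have := Λ.hc_neg hH
      rw [← kap_neg] at this
      simpa [act_apply] using this)⟩)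
  obtain ⟨A1, B1⟩ := Λ.star_end hg φ hT (R.f3p_end (y * R.endp u L)) z LinearMap.id
    (fun β => ⟨β, rfl⟩) (fun β hβ => ⟨Λ.rs_e1 hg hgood hβ, hm1 β hβ⟩)
  have hUD : ∀ v ∈ Λ.unitG hg, v ∈ D := fun v hv =>
    (hD v).2 ⟨Λ.tc_of_rs hg hv.1, by rw [← kap_neg]; exact Λ.tc_of_rs hg hv.2⟩
  have hroot : ∀ ψ, R.rt ψ ∈ D → R.rt ψ ∈ Λ.unitG hg := by
    intro ψ hψ
    by_contra hcon
    obtain ⟨χ, c1, c2⟩ := Λ.star_move hg hgood hgen (Λ.unitG hg) (fun p hp =>
      ⟨by simpa using Λ.rs_lab hg hgood hp 1, by simpa using Λ.rs_lab hg hgood hp (-1)⟩) hcon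
    have hχ : R.rt χ ∈ D := by
      rcases c1 with c | c
      · simpa using D.add_mem (hUD _ c) hψ
      · simpa using D.sub_mem (hUD _ c) hψ
    have hχ' := (hD _).1 hχ
    have hU : R.rt χ ∈ Λ.unitG hg := by
      rcases c2 with ⟨γ, hγ, e⟩ | c | c
      · rw [e] at hχ'
        exact absurd hχ' (A0 γ hγ).2
      · exact absurd hχ' (A1 χ c).2
      · exact ⟨c, by rw [kap_neg]; exact Λ.rs_neg hg hL h1 h2 c hχ'.2⟩
    rcases c1 with c | c
    · exact hcon (by simpa using (Λ.unitG hg).sub_mem hU c)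
    · exact hcon (by simpa using (Λ.unitG hg).sub_mem c hU)
  have hmv : ∀ ψ, R.rt ψ ∉ D → ∃ χ, (R.rt χ - R.rt ψ ∈ D ∨ R.rt χ + R.rt ψ ∈ D) ∧
      R.Tc g (kap (R.rt χ)) ∧
      ((∃ γ, (γ ∈ R.Pos ∧ 0 < R.cv γ (u • rho)) ∧ R.rt χ = -(y • R.rt γ)) ∨
        R.Step (y * R.endp u L) χ ∨ Λ.Rs g (kap (R.rt χ))) := by
    intro ψ hψ
    obtain ⟨χ, c1, c2⟩ := Λ.star_move hg hgood hgen D.toAddSubgroup
      (fun p hp => (hD _).2 (hgood.2.1 p hp)) hψ
    refine ⟨χ, c1, ?_, c2⟩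
    rcases c2 with ⟨γ, hγ, e⟩ | c | c
    · rw [e]
      exact (A0 γ hγ).1
    · exact (A1 χ c).1
    · exact Λ.tc_of_rs hg c
  have hfr : ∀ j q, 0 ≤ φ q (z⁻¹ • R.rt (R.sr j)) := by
    intro j
    rw [← R.smul_rt]
    by_cases hψ : R.rt (z⁻¹ • R.sr j) ∈ D
    · exact fun q => (hD0 _ hψ q).ge
    obtain ⟨χ, c1, c2, -⟩ := hmv _ hψ
    rcases c1 with c | c
    · intro q
      have e1 := hD0 _ c q
      have e2 := (hT _).1 c2 q
      rw [map_sub] at e1
      linarith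
    · have e0 : ∀ q, φ q (R.rt (z⁻¹ • R.sr j)) ≤ 0 := fun q => by
        have e1 := hD0 _ c q
        have e2 := (hT _).1 c2 q
        rw [map_add] at e1
        linarith
      have e3 := hz j
      rw [← R.smul_rt, LinearMap.sum_apply] at e3
      have e4 := (Finset.sum_eq_zero_iff_of_nonpos (fun q _ => e0 q)).1
        (le_antisymm (Finset.sum_nonpos fun q _ => e0 q) e3)
      exact fun q => (e4 q (Finset.mem_univ q)).ge
  choose idx cst hcst hφ using fun q : J => R.starF_fund q.1.2.2.1 q.1.2.2.2 z (fun j => hfr j q)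
  have hS : ∀ v, R.Tc g (kap v) ↔ ∀ j ∈ Set.range idx, 0 ≤ R.crd j (z • v) := fun v => by
    rw [hT]
    constructor
    · rintro H _ ⟨q, rfl⟩
      have e1 : 0 ≤ R.starF q.1.2.2.1 q.1.2.2.2 v := H q
      rw [hφ] at e1
      exact nonneg_of_mul_nonneg_right e1 (hcst q)
    · intro H q
      change 0 ≤ R.starF q.1.2.2.1 q.1.2.2.2 v
      rw [hφ]
      exact mul_nonneg (hcst q).le (H _ ⟨q, rfl⟩)
  have hSD : ∀ v, v ∈ D ↔ ∀ j ∈ Set.range idx, R.crd j (z • v) = 0 := fun v => by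
    rw [hD, Hc, ← kap_neg, hS, hS]
    constructor
    · intro H j hj
      have e1 := H.1 j hj
      have e2 := H.2 j hj
      rw [smul_neg, map_neg] at e2
      linarith
    · intro H
      exact ⟨fun j hj => (H j hj).ge, fun j hj => by rw [smul_neg, map_neg, H j hj, neg_zero]⟩
  have hout : ∀ j, j ∉ Set.range idx → ∀ n : ℤ,
      (n : ℝ) • R.rt (z⁻¹ • R.sr j) ∈ Λ.unitG hg := fun j hj n => by
    rw [Int.cast_smul_eq_zsmul]
    refine (Λ.unitG hg).zsmul_mem (hroot _ ((hSD _).2 fun i hi => ?_)) n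
    rw [R.star_crd, if_neg (fun e : i = j => hj (e ▸ hi))]
  have hQD : ∀ v, R.InQ v → v ∈ D → v ∈ Λ.unitG hg := fun v hv hvD => by
    rw [R.star_expand z v]
    refine AddSubgroup.sum_mem _ fun j _ => ?_
    by_cases hj : j ∈ Set.range idx
    · rw [(hSD v).1 hvD j hj, zero_smul]
      exact AddSubgroup.zero_mem _
    · obtain ⟨n, hn⟩ := (R.inQ_iff _).1 (R.inQ_smul hv z) j
      rw [hn]
      exact hout j hj n
  have hin : ∀ i ∈ Set.range idx, Λ.Rs g (kap (R.rt (z⁻¹ • R.sr i))) := by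
    intro i hi
    have hψ : R.rt (z⁻¹ • R.sr i) ∉ D := fun hψ => by
      have := (hSD _).1 hψ i hi
      rw [R.star_crd, if_pos rfl] at this
      exact one_ne_zero this
    obtain ⟨χ, c1, c2, c3⟩ := hmv _ hψ
    have hc : ∀ j ∈ Set.range idx, R.crd j (z • R.rt χ) = if j = i then 1 else 0 := by
      rcases c1 with c | c
      · intro j hj
        have e1 := (hSD _).1 c j hj
        rw [smul_sub, map_sub, R.star_crd] at e1
        linarith
      · have e1 := (hSD _).1 c i hi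
        have e2 := (hS _).1 c2 i hi
        rw [smul_add, map_add, R.star_crd, if_pos rfl] at e1
        linarith
    obtain ⟨χ', d1, d2⟩ : ∃ χ', Λ.Rs g (kap (R.rt χ')) ∧
        ∀ j ∈ Set.range idx, R.crd j (z • R.rt χ') = if j = i then 1 else 0 := by
      rcases c3 with ⟨γ, hγ, e⟩ | c | c
      · exact B0 _ hS i hi γ hγ (fun j hj => by rw [← hc j hj, e]; rfl)
      · exact B1 _ hS i hi χ c hc
      · exact ⟨χ, c, hc⟩
    have e1 := hQD _ (R.inQ_sub (R.inQ_rt (z⁻¹ • R.sr i)) (R.inQ_rt χ'))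
      ((hSD _).2 fun j hj => by rw [smul_sub, map_sub, R.star_crd, d2 j hj, sub_self])
    have e2 := Λ.rs_add e1.1 d1
    rwa [← kap_add, sub_add_cancel] at e2
  have hv1 := (hS _).1 ((Λ.tc_iff_wv hg hgood h).1 (Λ.tc_of_inC hg hh))
  have hv2 := (R.inQ_iff _).1 (R.inQ_smul (R.star_wv_inQ y (y * R.endp u L) hhL) z)
  have hv3 : Λ.Rs g (kap (R.wv y (y * R.endp u L) h)) := by
    rw [R.star_expand z (R.wv y (y * R.endp u L) h), star_kap_sum]
    refine Λ.rs_sum hg _ _ fun j _ => ?_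
    obtain ⟨n, hn⟩ := hv2 j
    by_cases hj : j ∈ Set.range idx
    · have e1 := hv1 j hj
      rw [hn] at e1 ⊢
      obtain ⟨k, hk⟩ := Int.eq_ofNat_of_zero_le (show 0 ≤ n by exact_mod_cast e1)
      rw [hk, Int.cast_natCast, kap_smul]
      exact Λ.rs_nsmul hg (hin j hj) k
    · rw [hn]
      exact (hout j hj n).1
  have e1 := Λ.rs_add (Λ.rs_lm hg hgood h3 h4) hv3
  have e2 : h = (h.1, h.2.1, y • h.1 + (y * R.endp u L) • h.2.1) +
      kap (R.wv y (y * R.endp u L) h) := by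
    obtain ⟨a, b, c⟩ := h
    simp only [kap, wv_apply, Prod.mk_add_mk, add_zero, Prod.mk.injEq, true_and]
    abel
  rwa [← e2] at e1

end RD

end Pool.Agent.Lib.MP_1e3767_al
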