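import Pool.Agent.Lib.MP_1e3767_al.Stmt

/-!
Definition used in the statement of deep saturation.
-/

namespace Pool.Agent.Lib.MP_1e3767_al

universe u

variable {ι M N : Type u} [AddCommGroup M] [Module ℂ M] [AddCommGroup N] [Module ℂ N]
  {P : RootPairing ι ℂ M N}

/-- `lam` takes natural number values at least `c` on the simple coroots. -/
def IsDeep (b : P.Base) (c : ℕ) (lam : M) : Prop :=
  ∀ i ∈ b.support, ∃ n : ℕ, c ≤ n ∧ P.toLinearMap lam (P.coroot i) = n

end Pool.Agent.Lib.MP_1e3767_al
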