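import Pool.Agent.Lib.MP_1e3767_al.RdEq
import Pool.Agent.Lib.MP_1e3767_al.Path

set_option linter.unusedSectionVars false

namespace Pool.Agent.Lib.MP_1e3767_al

open Finset

namespace RD
variable {I ι W : Type*} [Fintype I] [DecidableEq I] [Fintype ι] [Group W] [Fintype W]
  [DistribMulAction W (I → ℝ)] [SMulCommClass W ℝ (I → ℝ)] [MulAction W ι] (R : RD I ι W)

theorem tagged_append (μ : I → ℝ) (u : W) (P : I → ℝ) (a b : List ((ℝ × ι) × Fin 4)) :
    R.Tagged μ u P (a ++ b) ↔ R.Tagged μ u P a ∧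
      R.Tagged μ (R.endp u (a.map Prod.fst)) (P + R.icpt μ u (a.map Prod.fst)) b := by
  induction a generalizing u P with
  | nil => simp [Tagged, icpt]
  | cons q a ih =>
    simp only [List.cons_append, Tagged, List.map_cons, endp_cons, icpt, ih]
    have : P + (R.cv q.1.2 (u • μ) * q.1.1) • R.rt q.1.2 +
        R.icpt μ (R.s q.1.2 * u) (a.map Prod.fst) =
        P + (R.icpt μ (R.s q.1.2 * u) (a.map Prod.fst) +
          (R.cv q.1.2 (u • μ) * q.1.1) • R.rt q.1.2) := by abel
    rw [this]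
    tauto

theorem fold_tagged_of (μ : I → ℝ) (l : List ((ℝ × ι) × Fin 4))
    (h : ∀ q ∈ l, q.2 ≠ 1 ∧ (q.2 = 2 → q.1.1 = 0) ∧ (q.2 = 3 → q.1.1 = 1)) (u : W) (P : I → ℝ) :
    R.Tagged μ u P l := by
  induction l generalizing u P with
  | nil => trivial
  | cons q l ih =>
    have hq := h q (by simp)
    exact ⟨fun h1 => absurd h1 hq.1, hq.2.1, hq.2.2,
      ih (fun r hr => h r (by simp [hr])) _ _⟩

theorem fold_labels_zero (x : W) (bs : List ι) (r : List (ι × Fin 4)) :
    R.labels x ((bs.map fun β => (β, (0 : Fin 4))) ++ r) =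
      (bs.map fun β => x • β) ++ R.labels x r := by
  induction bs with
  | nil => simp
  | cons β bs ih => simp [labels, ih]

theorem fold_labels_skip (x : W) (a r : List (ι × Fin 4)) (h : ∀ q ∈ a, q.2 ≠ 0 ∧ q.2 ≠ 1) :
    R.labels x (a ++ r) = R.labels x r := by
  induction a with
  | nil => simp
  | cons q a ih =>
    have hq := h q (by simp)
    simp only [List.cons_append, labels, if_neg hq.1, if_neg hq.2]
    exact ih (fun p hp => h p (by simp [hp]))

theorem fold_labels_end (x : W) (a r : List (ι × Fin 4)) (h : ∀ q ∈ r, q.2 ≠ 0 ∧ q.2 ≠ 1) :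
    R.labels x (a ++ r) = R.labels x a := by
  induction a generalizing x with
  | nil =>
    have := R.fold_labels_skip x r [] h
    simpa using this
  | cons q a ih => simp only [List.cons_append, labels, ih]

theorem fold_icpt_const (μ : I → ℝ) (u : W) (bs : List ι) (c : ℝ) :
    R.icpt μ u (bs.map fun β => (c, β)) = c • (u • μ - R.endb u bs • μ) := by
  have hc : ∀ p ∈ (bs.map fun β => (c, β)), p.1 = c := by
    intro p hp
    obtain ⟨β, -, rfl⟩ := List.mem_map.1 hp
    rfl
  rw [← R.corr_of_ge μ u _ (t := c) (fun p hp => (hc p hp).le), R.corr_const μ u _ hc,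
    min_self, R.endp_map_const]

theorem fold_dom_between {C v : I → ℝ} {a b τ : ℝ} (ha : Dom (C + a • v))
    (hb : Dom (C + b • v)) (h1 : a ≤ τ) (h2 : τ ≤ b) : Dom (C + τ • v) := by
  intro i
  have e1 := ha i
  have e2 := hb i
  simp only [Pi.add_apply, Pi.smul_apply, smul_eq_mul] at e1 e2 ⊢
  rcases le_total 0 (v i) with h | h
  · nlinarith [mul_le_mul_of_nonneg_right h1 h]
  · nlinarith [mul_le_mul_of_nonpos_right h2 h]

/-- the first wall that is hit -/
theorem fold_hit {C v : I → ℝ} {a b : ℝ} (hab : a ≤ b) (ha : Dom (C + a • v))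
    (hb : ¬ Dom (C + b • v)) :
    ∃ i τ, v i < 0 ∧ a ≤ τ ∧ τ ≤ b ∧ Dom (C + τ • v) ∧ C i + τ * v i = 0 := by
  classical
  have hA : ∀ k, 0 ≤ C k + a * v k := fun k => by simpa using ha k
  obtain ⟨i0, hi0⟩ : ∃ k, C k + b * v k < 0 := by
    by_contra hc
    push Not at hc
    exact hb fun k => by simpa using hc k
  have hv0 : v i0 < 0 := by
    by_contra hc
    push Not at hc
    nlinarith [hA i0, mul_le_mul_of_nonneg_right hab hc]
  obtain ⟨i, hi, hmin⟩ := Finset.exists_min_image (univ.filter fun k => v k < 0)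
    (fun k => -C k / v k) ⟨i0, by simp [hv0]⟩
  have hvi : v i < 0 := by simpa using hi
  have key : ∀ k, v k < 0 → C k + (-C k / v k) * v k = 0 := fun k hk => by
    rw [div_mul_cancel₀ _ hk.ne]; ring
  have haτ : a ≤ -C i / v i := by
    by_contra hc
    push Not at hc
    nlinarith [key i hvi, hA i, mul_lt_mul_of_neg_right hc hvi]
  refine ⟨i, -C i / v i, hvi, haτ, ?_, ?_, key i hvi⟩
  · have h1 := hmin i0 (by simp [hv0])
    by_contra hc
    push Not at hc
    have h2 : b < -C i0 / v i0 := lt_of_lt_of_le hc h1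
    nlinarith [key i0 hv0, mul_lt_mul_of_neg_right h2 hv0]
  · intro k
    simp only [Pi.add_apply, Pi.smul_apply, smul_eq_mul]
    rcases lt_or_ge (v k) 0 with h | h
    · have h1 := hmin k (by simp [h])
      nlinarith [key k h, mul_le_mul_of_nonpos_right h1 h.le]
    · nlinarith [hA k, mul_le_mul_of_nonneg_right haτ h]

theorem fold_smul_upath (μ P : I → ℝ) (n : ℕ) (η : ℕ → W) (t : ℕ → ℝ) {j : ℕ} (hj : j ≤ n)
    {τ : ℝ} (h1 : ∀ k < j, t k ≤ τ) (h2 : ∀ k, j ≤ k → k < n → τ ≤ t k) (x : W) :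
    x • upath μ P n η t τ =
      x • (P + ∑ k ∈ range j, t k • (η k • μ - η (k + 1) • μ)) + τ • ((x * η j) • μ) := by
  rw [upath_between μ P n η t hj h1 h2, smul_add, smul_comm x τ, mul_smul]

/-- the conclusion of the folding lemma -/
def FoldC (μ P : I → ℝ) (n : ℕ) (η : ℕ → W) (t : ℕ → ℝ) (Rel : ℕ → List ι → Prop)
    (j : ℕ) (a : ℝ) (x : W) : Prop :=
  ∃ (l : List ((ℝ × ι) × Fin 4)) (Ls : ℕ → List ι),
    R.IsChain (x * η j) a (l.map Prod.fst) ∧
    R.Tagged μ (x * η j) (x • (P + ∑ k ∈ range j, t k • (η k • μ - η (k + 1) • μ))) l ∧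
    (∀ q ∈ l, q.2 = 0 ∨ q.2 = 1) ∧ (∀ k, j ≤ k → k < n → Rel k (Ls k)) ∧
    R.labels x⁻¹ (l.map fun q => (q.1.2, q.2)) = ((List.range' j (n - j)).map Ls).flatten ∧
    ∀ τ ∈ Set.Icc a 1,
      Dom (x • (P + ∑ k ∈ range j, t k • (η k • μ - η (k + 1) • μ)) +
        R.path μ (x * η j) (l.map Prod.fst) τ) ∧
      ∃ y : W, x • (P + ∑ k ∈ range j, t k • (η k • μ - η (k + 1) • μ)) +
        R.path μ (x * η j) (l.map Prod.fst) τ = y • upath μ P n η t τ

/-- either the segment up to time `b` stays dominant or we bounce at the first wall -/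
theorem fold_step {μ P : I → ℝ} (hμ : Dom μ) (n : ℕ) (η : ℕ → W) (t : ℕ → ℝ)
    (Rel : ℕ → List ι → Prop) (j : ℕ) (hj : j ≤ n) (a : ℝ) (_ha1 : a ≤ 1)
    (h1 : ∀ k < j, t k ≤ a) (h2 : ∀ k, j ≤ k → k < n → a ≤ t k) (x : W)
    (hx : Dom (x • upath μ P n η t a)) (b : ℝ) (hab : a ≤ b) (hb1 : b ≤ 1)
    (hb2 : ∀ k, j ≤ k → k < n → b ≤ t k)
    (ih : ∀ a', a' ≤ 1 → (∀ k < j, t k ≤ a') → (∀ k, j ≤ k → k < n → a' ≤ t k) → ∀ x' : W,
      Dom (x' • upath μ P n η t a') → R.len (x' * η j) < R.len (x * η j) →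
        R.FoldC μ P n η t Rel j a' x')
    (hd : Dom (x • (P + ∑ k ∈ range j, t k • (η k • μ - η (k + 1) • μ)) + b • ((x * η j) • μ)) →
      R.FoldC μ P n η t Rel j a x) :
    R.FoldC μ P n η t Rel j a x := by
  by_cases hb : Dom (x • (P + ∑ k ∈ range j, t k • (η k • μ - η (k + 1) • μ)) +
    b • ((x * η j) • μ))
  · exact hd hb
  have e := fun σ (hσ : a ≤ σ) (hσ' : σ ≤ b) (y : W) => fold_smul_upath μ P n η t hj (τ := σ)
    (fun k hk => (h1 k hk).trans hσ) (fun k hk hk' => hσ'.trans (hb2 k hk hk')) y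
  have hxa := hx
  rw [fold_smul_upath μ P n η t hj h1 h2 x] at hxa
  obtain ⟨i, σ, hi, haσ, hσb, hD, h0⟩ := fold_hit hab hxa hb
  set C := x • (P + ∑ k ∈ range j, t k • (η k • μ - η (k + 1) • μ)) with hC
  have hneg : ((x * η j) • (rho : I → ℝ)) i < 0 := by
    rcases lt_or_gt_of_ne (R.smul_rho_ne (x * η j) i) with h | h
    · exact h
    · have := R.cv_ge_of_rho_pos (β := R.sr i) (w := x * η j) (by rwa [R.cv_sr]) hμ
      rw [R.cv_sr] at this
      exact absurd hi (not_lt.2 this)
  have hass : R.s (R.sr i) * x * η j = R.s (R.sr i) * (x * η j) := mul_assoc _ _ _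
  have hx' : Dom ((R.s (R.sr i) * x) • upath μ P n η t σ) := by
    rw [mul_smul, e σ haσ hσb x, R.s_sr_smul]
    have : (C + σ • ((x * η j) • μ)) i = 0 := by simpa using h0
    rw [this, zero_smul, sub_zero]
    exact hD
  obtain ⟨l, Ls, q1, q2, q3, q4, q5, q6⟩ := ih σ (hσb.trans hb1)
    (fun k hk => (h1 k hk).trans haσ) (fun k hk hk' => hσb.trans (hb2 k hk hk')) _ hx'
    (by rw [hass]; have := R.len_sr_neg hneg; omega)
  have hnext : C + (R.cv (R.sr i) ((x * η j) • μ) * σ) • R.rt (R.sr i) =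
      (R.s (R.sr i) * x) • (P + ∑ k ∈ range j, t k • (η k • μ - η (k + 1) • μ)) := by
    rw [mul_smul (R.s (R.sr i)) x, ← hC, R.s_sr_smul, R.cv_sr, sub_eq_add_neg, ← neg_smul]
    congr 2
    linarith
  rw [hass] at q1 q2 q6
  refine ⟨((σ, R.sr i), 1) :: l, Ls, ⟨R.cover_sr hneg, haσ, hσb.trans hb1, q1⟩,
    ⟨fun _ => ?_, fun h => absurd h (show ¬ (1 : Fin 4) = 2 by decide),
      fun h => absurd h (show ¬ (1 : Fin 4) = 3 by decide), ?_⟩,
    ?_, q4, ?_, fun τ hτ => ?_⟩
  · show R.cv (R.sr i) C + σ * R.cv (R.sr i) ((x * η j) • μ) = 0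
    rw [R.cv_sr, R.cv_sr]
    exact h0
  · show R.Tagged μ (R.s (R.sr i) * (x * η j))
      (C + (R.cv (R.sr i) ((x * η j) • μ) * σ) • R.rt (R.sr i)) l
    rw [hnext]
    exact q2
  · intro q hq
    rcases List.mem_cons.1 hq with h | h
    · exact Or.inr (by rw [h])
    · exact q3 q h
  · rw [← q5, mul_inv_rev, R.s_inv]
    simp [labels]
  · rcases le_total τ σ with h | h
    · rw [R.path_of_le μ _ _ (t := τ) (fun p hp => by
        rcases List.mem_cons.1 hp with hp | hp
        · rw [hp]; exact h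
        · exact h.trans (R.isChain_mem q1 p hp).1)]
      exact ⟨fold_dom_between hxa hD hτ.1 h, x, (e τ hτ.1 (h.trans hσb) x).symm⟩
    · have : C + R.path μ (x * η j) (List.map Prod.fst (((σ, R.sr i), (1 : Fin 4)) :: l)) τ =
          (R.s (R.sr i) * x) • (P + ∑ k ∈ range j, t k • (η k • μ - η (k + 1) • μ)) +
            R.path μ (R.s (R.sr i) * (x * η j)) (l.map Prod.fst) τ := by
        rw [← hnext]
        simp only [List.map_cons, path, min_eq_right h]
        abel
      rw [this]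
      exact q6 τ ⟨h, hτ.2⟩

/-- folding an unfolded datum into the dominant chamber, from turn `j`, time `a`, frame `x` -/
theorem fold_aux {μ P : I → ℝ} (hμ : Dom μ) (n : ℕ) (η : ℕ → W) (t : ℕ → ℝ)
    (Rel : ℕ → List ι → Prop) (hm : ∀ j k, j ≤ k → k < n → t j ≤ t k)
    (hI : ∀ j < n, t j ≤ 1)
    (hf : ∀ j < n, ∀ x : W, Dom (x • upath μ P n η t (t j)) →
      ∃ bs, R.CChain (x * η j) bs ∧ R.endb (x * η j) bs = x * η (j + 1) ∧
        Rel j (bs.map fun β => x⁻¹ • β))
    (j : ℕ) (hj : j ≤ n) (a : ℝ) (ha1 : a ≤ 1) (h1 : ∀ k < j, t k ≤ a)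
    (h2 : ∀ k, j ≤ k → k < n → a ≤ t k) (x : W) (hx : Dom (x • upath μ P n η t a)) :
    ∃ (l : List ((ℝ × ι) × Fin 4)) (Ls : ℕ → List ι),
      R.IsChain (x * η j) a (l.map Prod.fst) ∧
      R.Tagged μ (x * η j) (x • (P + ∑ k ∈ range j, t k • (η k • μ - η (k + 1) • μ))) l ∧
      (∀ q ∈ l, q.2 = 0 ∨ q.2 = 1) ∧ (∀ k, j ≤ k → k < n → Rel k (Ls k)) ∧
      R.labels x⁻¹ (l.map fun q => (q.1.2, q.2)) = ((List.range' j (n - j)).map Ls).flatten ∧
      ∀ τ ∈ Set.Icc a 1,
        Dom (x • (P + ∑ k ∈ range j, t k • (η k • μ - η (k + 1) • μ)) +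
          R.path μ (x * η j) (l.map Prod.fst) τ) ∧
        ∃ y : W, x • (P + ∑ k ∈ range j, t k • (η k • μ - η (k + 1) • μ)) +
          R.path μ (x * η j) (l.map Prod.fst) τ = y • upath μ P n η t τ := by
  classical
  obtain ⟨m, hmn⟩ : ∃ m, n - j = m := ⟨_, rfl⟩
  induction m generalizing j a x with
  | zero =>
    have hjn : j = n := by omega
    obtain ⟨N, hN⟩ : ∃ N, R.len (x * η j) = N := ⟨_, rfl⟩
    induction N using Nat.strong_induction_on generalizing a x with
    | _ N ihN =>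
    exact R.fold_step hμ n η t Rel j hj a ha1 h1 h2 x hx 1 ha1 le_rfl
      (fun k hk hk' => by omega)
      (fun a' ha' h1' h2' x' hx' hl => ihN _ (hN ▸ hl) a' ha' h1' h2' x' hx' rfl)
      (fun hb => by
        refine ⟨[], fun _ => [], trivial, trivial, by simp, fun k hk hk' => by omega,
          by simp [hmn, labels], fun τ hτ => ?_⟩
        have e := fun σ (hσ : a ≤ σ) => fold_smul_upath μ P n η t hj (τ := σ)
          (fun k hk => (h1 k hk).trans hσ) (fun k hk hk' => by omega) x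
        refine ⟨?_, x, ?_⟩
        · exact fold_dom_between (e a le_rfl ▸ hx) hb hτ.1 hτ.2
        · rw [e τ hτ.1]; rfl)
  | succ m ihm =>
    have hjn : j < n := by omega
    obtain ⟨N, hN⟩ : ∃ N, R.len (x * η j) = N := ⟨_, rfl⟩
    induction N using Nat.strong_induction_on generalizing a x with
    | _ N ihN =>
    have haj : a ≤ t j := h2 j le_rfl hjn
    exact R.fold_step hμ n η t Rel j hj a ha1 h1 h2 x hx (t j) haj (hI j hjn)
      (fun k hk hk' => hm j k hk hk')
      (fun a' ha' h1' h2' x' hx' hl => ihN _ (hN ▸ hl) a' ha' h1' h2' x' hx' rfl)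
      (fun hb => by
        have e := fun σ (hσ : a ≤ σ) (hσ' : σ ≤ t j) => fold_smul_upath μ P n η t hj (τ := σ)
          (fun k hk => (h1 k hk).trans hσ) (fun k hk hk' => hσ'.trans (hm j k hk hk')) x
        have hxb : Dom (x • upath μ P n η t (t j)) := e (t j) haj le_rfl ▸ hb
        obtain ⟨bs, hc, he, hR⟩ := hf j hjn x hxb
        obtain ⟨l, Ls, q1, q2, q3, q4, q5, q6⟩ := ihm (j + 1) hjn (t j) (hI j hjn)
          (fun k hk => by
            rcases Nat.lt_succ_iff_lt_or_eq.1 hk with h | h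
            · exact (h1 k h).trans haj
            · rw [h])
          (fun k hk hk' => hm j k (by omega) hk') x hxb (by omega)
        have hfst : ((bs.map fun β => ((t j, β), (0 : Fin 4))) ++ l).map Prod.fst =
            (bs.map fun β => (t j, β)) ++ l.map Prod.fst := by
          simp [List.map_append, List.map_map, Function.comp_def]
        have hfst0 : (bs.map fun β => ((t j, β), (0 : Fin 4))).map Prod.fst =
            bs.map fun β => (t j, β) := by
          simp [List.map_map, Function.comp_def]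
        have hcst : ∀ p ∈ (bs.map fun β => (t j, β)), p.1 = t j := by
          intro p hp
          obtain ⟨β, -, rfl⟩ := List.mem_map.1 hp
          rfl
        have hnext : x • (P + ∑ k ∈ range j, t k • (η k • μ - η (k + 1) • μ)) +
            t j • ((x * η j) • μ - (x * η (j + 1)) • μ) =
            x • (P + ∑ k ∈ range (j + 1), t k • (η k • μ - η (k + 1) • μ)) := by
          rw [sum_range_succ, ← add_assoc, smul_add x (P + _), smul_comm x (t j), smul_sub x,
            mul_smul, mul_smul]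
        refine ⟨(bs.map fun β => ((t j, β), (0 : Fin 4))) ++ l,
          fun k => if k = j then bs.map fun β => x⁻¹ • β else Ls k, ?_, ?_, ?_, ?_, ?_, ?_⟩
        · rw [hfst, R.isChain_append, R.endp_map_const, he]
          exact ⟨R.isChain_map_const hc haj (hI j hjn), R.isChain_mono q1 haj,
            fun p hp q hq => (hcst p hp).le.trans (R.isChain_mem q1 q hq).1⟩
        · rw [R.tagged_append, hfst0, R.endp_map_const, R.fold_icpt_const, he, hnext]
          refine ⟨R.fold_tagged_of μ _ (fun q hq => ?_) _ _, q2⟩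
          obtain ⟨β, -, rfl⟩ := List.mem_map.1 hq
          exact ⟨show (0 : Fin 4) ≠ 1 by decide,
            fun h => absurd h (show ¬ (0 : Fin 4) = 2 by decide),
            fun h => absurd h (show ¬ (0 : Fin 4) = 3 by decide)⟩
        · intro q hq
          rcases List.mem_append.1 hq with h | h
          · obtain ⟨β, -, rfl⟩ := List.mem_map.1 h
            exact Or.inl rfl
          · exact q3 q h
        · intro k hk hk'
          by_cases hkj : k = j
          · simp only [hkj, if_true]; exact hR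
          · simp only [if_neg hkj]; exact q4 k (by omega) hk'
        · have e1 : ((bs.map fun β => ((t j, β), (0 : Fin 4))) ++ l).map
              (fun q => (q.1.2, q.2)) =
              (bs.map fun β => (β, (0 : Fin 4))) ++ l.map fun q => (q.1.2, q.2) := by
            simp [List.map_append, List.map_map, Function.comp_def]
          have e2 : n - j = (n - (j + 1)) + 1 := by omega
          rw [e1, R.fold_labels_zero, q5, e2, List.range'_succ, List.map_cons, List.flatten_cons,
            if_pos rfl]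
          congr 2
          refine List.map_congr_left fun k hk => ?_
          have := (List.mem_range'_1.1 hk).1
          rw [if_neg (by omega)]
        · intro τ hτ
          rw [hfst]
          rcases le_total τ (t j) with h | h
          · rw [R.path_of_le μ _ _ (t := τ) (fun p hp => by
              rcases List.mem_append.1 hp with hp | hp
              · exact h.trans (hcst p hp).ge
              · exact h.trans (R.isChain_mem q1 p hp).1)]
            exact ⟨fold_dom_between (e a le_rfl haj ▸ hx) hb hτ.1 h, x, (e τ hτ.1 h).symm⟩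
          · rw [R.path_append, R.corr_const μ _ _ hcst, min_eq_right h, R.endp_map_const, he,
              add_comm (R.path μ _ _ τ), ← add_assoc, hnext]
            exact q6 τ ⟨h, hτ.2⟩)

/-- folding, extended to a maximal chain -/
theorem fold_max {μ P : I → ℝ} (hμ : Dom μ) (hP : Dom P) (n : ℕ) (η : ℕ → W) (t : ℕ → ℝ)
    (Rel : ℕ → List ι → Prop) (hm : ∀ j k, j ≤ k → k < n → t j ≤ t k)
    (hI : ∀ j < n, 0 ≤ t j ∧ t j ≤ 1)
    (hf : ∀ j < n, ∀ x : W, Dom (x • upath μ P n η t (t j)) →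
      ∃ bs, R.CChain (x * η j) bs ∧ R.endb (x * η j) bs = x * η (j + 1) ∧
        Rel j (bs.map fun β => x⁻¹ • β)) :
    ∃ (l : List ((ℝ × ι) × Fin 4)) (Ls : ℕ → List ι),
      R.IsMax (l.map Prod.fst) ∧ R.Tagged μ R.w0 P l ∧ (∀ k < n, Rel k (Ls k)) ∧
      R.labels 1 (l.map fun q => (q.1.2, q.2)) = ((List.range n).map Ls).flatten ∧
      ∀ τ ∈ Set.Icc (0:ℝ) 1, Dom (P + R.path μ R.w0 (l.map Prod.fst) τ) ∧
        ∃ y : W, P + R.path μ R.w0 (l.map Prod.fst) τ = y • upath μ P n η t τ := by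
  classical
  have hx : Dom ((1 : W) • upath μ P n η t 0) := by
    rw [fold_smul_upath μ P n η t (Nat.zero_le n) (τ := 0) (fun k hk => by omega)
      (fun k _ hk => (hI k hk).1) 1]
    simpa using hP
  obtain ⟨l, Ls, q1, q2, q3, q4, q5, q6⟩ := R.fold_aux hμ n η t Rel hm (fun j hj => (hI j hj).2)
    hf 0 (Nat.zero_le n) 0 zero_le_one (fun k hk => by omega) (fun k _ hk => (hI k hk).1) 1 hx
  simp only [one_mul, one_smul, range_zero, sum_empty, add_zero, inv_one, Nat.sub_zero]
    at q1 q2 q5 q6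
  obtain ⟨as, ha1, ha2⟩ := R.exists_cchain (R.le_w0 (η 0))
  obtain ⟨bs, hb1, hb2⟩ := R.exists_cchain (R.one_le (R.endp (η 0) (l.map Prod.fst)))
  have hA : (as.map fun β => (((0 : ℝ), β), (2 : Fin 4))).map Prod.fst =
      as.map fun β => ((0 : ℝ), β) := by
    simp [List.map_map, Function.comp_def]
  have hB : (bs.map fun β => (((1 : ℝ), β), (3 : Fin 4))).map Prod.fst =
      bs.map fun β => ((1 : ℝ), β) := by
    simp [List.map_map, Function.comp_def]
  have cA : ∀ p ∈ (as.map fun β => ((0 : ℝ), β)), p.1 = 0 := by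
    intro p hp
    obtain ⟨β, -, rfl⟩ := List.mem_map.1 hp
    rfl
  have cB : ∀ p ∈ (bs.map fun β => ((1 : ℝ), β)), p.1 = 1 := by
    intro p hp
    obtain ⟨β, -, rfl⟩ := List.mem_map.1 hp
    rfl
  have hB1 : R.IsChain (R.endp (η 0) (l.map Prod.fst)) 0 (bs.map fun β => ((1 : ℝ), β)) :=
    R.isChain_map_const hb1 zero_le_one le_rfl
  have hlB : R.IsChain (η 0) 0 (l.map Prod.fst ++ bs.map fun β => ((1 : ℝ), β)) := by
    rw [R.isChain_append]
    exact ⟨q1, hB1, fun p hp q hq => (R.isChain_mem q1 p hp).2.trans (cB q hq).ge⟩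
  refine ⟨(as.map fun β => (((0 : ℝ), β), (2 : Fin 4))) ++
    (l ++ bs.map fun β => (((1 : ℝ), β), (3 : Fin 4))), Ls, ⟨?_, ?_⟩, ?_,
    fun k hk => q4 k (Nat.zero_le k) hk, ?_, fun τ hτ => ?_⟩
  · rw [List.map_append, List.map_append, hA, hB, R.isChain_append, R.endp_map_const, ha2]
    exact ⟨R.isChain_map_const ha1 le_rfl zero_le_one, hlB,
      fun p hp q hq => (cA p hp).le.trans (R.isChain_mem hlB q hq).1⟩
  · rw [List.map_append, List.map_append, hA, hB, R.endp_append, R.endp_append,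
      R.endp_map_const, R.endp_map_const, ha2, hb2]
  · rw [R.tagged_append, hA, R.endp_map_const, R.fold_icpt_const, ha2, zero_smul, add_zero,
      R.tagged_append]
    refine ⟨R.fold_tagged_of μ _ (fun q hq => ?_) _ _, q2,
      R.fold_tagged_of μ _ (fun q hq => ?_) _ _⟩
    · obtain ⟨β, -, rfl⟩ := List.mem_map.1 hq
      exact ⟨show (2 : Fin 4) ≠ 1 by decide, fun _ => rfl,
        fun h => absurd h (show ¬ (2 : Fin 4) = 3 by decide)⟩
    · obtain ⟨β, -, rfl⟩ := List.mem_map.1 hq
      exact ⟨show (3 : Fin 4) ≠ 1 by decide,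
        fun h => absurd h (show ¬ (3 : Fin 4) = 2 by decide), fun _ => rfl⟩
  · rw [List.map_append, List.map_append, R.fold_labels_skip, R.fold_labels_end, q5,
      List.range_eq_range']
    · intro q hq
      obtain ⟨r, hr, rfl⟩ := List.mem_map.1 hq
      obtain ⟨β, -, rfl⟩ := List.mem_map.1 hr
      exact ⟨show (3 : Fin 4) ≠ 0 by decide, show (3 : Fin 4) ≠ 1 by decide⟩
    · intro q hq
      obtain ⟨r, hr, rfl⟩ := List.mem_map.1 hq
      obtain ⟨β, -, rfl⟩ := List.mem_map.1 hr
      exact ⟨show (2 : Fin 4) ≠ 0 by decide, show (2 : Fin 4) ≠ 1 by decide⟩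
  · have : R.path μ R.w0 (((as.map fun β => (((0 : ℝ), β), (2 : Fin 4))) ++
        (l ++ bs.map fun β => (((1 : ℝ), β), (3 : Fin 4)))).map Prod.fst) τ =
        R.path μ (η 0) (l.map Prod.fst) τ := by
      rw [List.map_append, List.map_append, hA, hB, R.path_append, R.corr_const μ _ _ cA,
        min_eq_right hτ.1, zero_smul, add_zero, R.endp_map_const, ha2, R.path_append,
        R.path_of_le μ _ _ (t := τ) (fun p hp => hτ.2.trans (cB p hp).ge), ← R.path_eq_corr]
    rw [this]
    exact q6 τ hτ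

end RD

end Pool.Agent.Lib.MP_1e3767_al
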