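import Mathlib

/-!
Demazure operators on the group ring of the weight lattice. Weights are written in the basis of
fundamental weights, so they are functions `I → ℤ`, and the simple root number `i` is the row
`C i` of the Cartan matrix `C`.
-/

namespace Pool.Agent.Lib.MP_1e3767_al

variable {I : Type*}

/-- The simple reflection `x ↦ x - x_i α_i`. -/
def sRefl (C : Matrix I I ℤ) (i : I) (x : I → ℤ) : I → ℤ := fun j => x j - x i * C i j

/-- The formal exponential of a weight. -/
noncomputable def eWt (x : I → ℤ) : AddMonoidAlgebra ℤ (I → ℤ) := AddMonoidAlgebra.single x 1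

/-- The Demazure operator: the additive map sending `e^x`, with `n = x_i`, to the sum of
`e^(x - j α_i)` over `0 ≤ j ≤ n` minus the sum of `e^(x + j α_i)` over `1 ≤ j ≤ -n - 1`. -/
noncomputable def demOp (C : Matrix I I ℤ) (i : I) (X : AddMonoidAlgebra ℤ (I → ℤ)) :
    AddMonoidAlgebra ℤ (I → ℤ) :=
  X.coeff.sum fun x c => c •
    (∑ j ∈ Finset.range (x i + 1).toNat, eWt (fun k => x k - j * C i k) -
      ∑ j ∈ Finset.range (-x i - 1).toNat, eWt (fun k => x k + (j + 1) * C i k))

/-- The composition of the Demazure operators along a word. -/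
noncomputable def demWord (C : Matrix I I ℤ) (l : List I) (X : AddMonoidAlgebra ℤ (I → ℤ)) :
    AddMonoidAlgebra ℤ (I → ℤ) :=
  l.foldr (demOp C) X

/-- `c` is supported on dominant weights and `D_l0 (e^lam D_l e^mu)` is the sum of the
`c κ • D_l0 e^κ`. -/
def IsExpansion (C : Matrix I I ℤ) (l0 l : List I) (lam mu : I → ℤ) (c : (I → ℤ) →₀ ℤ) : Prop :=
  (∀ κ ∈ c.support, ∀ i, 0 ≤ κ i) ∧
    demWord C l0 (eWt lam * demWord C l (eWt mu)) = c.sum fun κ n => n • demWord C l0 (eWt κ)

end Pool.Agent.Lib.MP_1e3767_al
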