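import Pool.Agent.Lib.MP_1e3767_al.H27Dem
import Pool.Agent.Lib.MP_1e3767_al.H27Stmt

set_option linter.unusedSectionVars false

namespace Pool.Agent.Lib.MP_1e3767_al

open Finset

section Lat
variable {I : Type*}

/-- real coordinates of a weight -/
def cz : (I → ℤ) →+ (I → ℝ) where
  toFun x i := x i
  map_zero' := by ext; simp
  map_add' x y := by ext; simp

theorem cz_apply (x : I → ℤ) (i : I) : cz x i = x i := rfl

theorem cz_inj : Function.Injective (cz (I := I)) := fun _ _ h => funext fun i =>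
  Int.cast_injective (α := ℝ) (congrFun h i)

theorem cz_nsmul (n : ℕ) (x : I → ℤ) : cz (n • x) = (n : ℝ) • cz x := by
  rw [map_nsmul, Nat.cast_smul_eq_nsmul]

theorem cz_int (x : I → ℤ) : IntV (cz x) := fun i => ⟨x i, rfl⟩

theorem cz_dom {x : I → ℤ} (h : ∀ i, 0 ≤ x i) : Dom (cz x) := fun i => Int.cast_nonneg (h i)

theorem exists_cz {v : I → ℝ} (h : IntV v) : ∃ x, cz x = v := by
  choose x hx using h
  exact ⟨x, funext fun i => (hx i).symm⟩

/-- the embedding of the integral group ring -/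
noncomputable def emb : AddMonoidAlgebra ℤ (I → ℤ) →+* GR I :=
  (AddMonoidAlgebra.mapDomainRingHom ℂ cz).comp
    (AddMonoidAlgebra.mapRingHom (I → ℤ) (Int.castRingHom ℂ))

theorem emb_eWt (x : I → ℤ) : emb (eWt x) = ex (cz x) := by
  simp [emb, eWt, ex]

theorem emb_inj : Function.Injective (emb (I := I)) :=
  (AddMonoidAlgebra.mapDomain_injective cz_inj).comp
    (AddMonoidAlgebra.map_injective (Int.castRingHom ℂ).toAddMonoidHom Int.cast_injective)

theorem eWt_add (x y : I → ℤ) : eWt (x + y) = eWt x * eWt y := by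
  simp [eWt, AddMonoidAlgebra.single_mul_single]

theorem eWt_ind {p : AddMonoidAlgebra ℤ (I → ℤ) → Prop} (h0 : p 0)
    (ha : ∀ X Y, p X → p Y → p (X + Y)) (hs : ∀ (c : ℤ) x, p (c • eWt x)) (X) : p X :=
  AddMonoidAlgebra.induction_linear X h0 ha fun x c => by
    have := hs c x
    rwa [eWt, AddMonoidAlgebra.smul_single, smul_eq_mul, mul_one] at this

variable (C : Matrix I I ℤ)

theorem demOp_zero (i : I) : demOp C i 0 = 0 := by simp [demOp]

theorem demOp_add (i : I) (X Y) : demOp C i (X + Y) = demOp C i X + demOp C i Y := by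
  unfold demOp
  rw [AddMonoidAlgebra.coeff_add, Finsupp.sum_add_index' (by simp) fun _ _ _ => add_smul _ _ _]

theorem demOp_smul_eWt (i : I) (c : ℤ) (x : I → ℤ) : demOp C i (c • eWt x) = c •
    (∑ j ∈ Finset.range (x i + 1).toNat, eWt (fun k => x k - j * C i k) -
      ∑ j ∈ Finset.range (-x i - 1).toNat, eWt (fun k => x k + (j + 1) * C i k)) := by
  unfold demOp
  rw [eWt, AddMonoidAlgebra.smul_single, smul_eq_mul, mul_one, AddMonoidAlgebra.coeff_single]
  exact Finsupp.sum_single_index (zero_smul _ _)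

theorem demOp_fix (i : I) {x : I → ℤ} (h : x i = 0) : demOp C i (eWt x) = eWt x := by
  have := demOp_smul_eWt C i 1 x
  rw [one_smul, one_smul, h] at this
  simpa using this

/-- the operator of a word as an additive map -/
noncomputable def demHom (l : List I) : AddMonoidAlgebra ℤ (I → ℤ) →+ AddMonoidAlgebra ℤ (I → ℤ) :=
  AddMonoidHom.mk' (demWord C l) fun X Y => by
    induction l with
    | nil => rfl
    | cons i l ih => exact (congrArg (demOp C i) ih).trans (demOp_add C i _ _)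

end Lat

namespace RD
variable {I ι W : Type*} [Fintype I] [DecidableEq I] [Fintype ι] [Group W] [Fintype W]
  [DistribMulAction W (I → ℝ)] [SMulCommClass W ℝ (I → ℝ)] [MulAction W ι] (R : RD I ι W)

/-- action on the group ring -/
noncomputable def sg (w : W) : GR I ≃ₐ[ℂ] GR I :=
  AddMonoidAlgebra.domCongr ℂ ℂ (DistribMulAction.toAddEquiv (I → ℝ) w)

theorem sg_ex (w : W) (v : I → ℝ) : sg w (ex v) = ex (w • v) := by
  simp [sg, ex]

theorem sg_mul (u v : W) (X : GR I) : sg (u * v) X = sg u (sg v X) := by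
  refine AddMonoidAlgebra.induction_linear X (by simp) (fun X Y h1 h2 => by simp [h1, h2])
    fun x c => ?_
  have : AddMonoidAlgebra.single x c = c • (ex x : GR I) := by simp [ex]
  rw [this, map_smul, map_smul, map_smul, sg_ex, sg_ex, sg_ex, mul_smul]

theorem sg_one (X : GR I) : sg (1 : W) X = X := by
  refine AddMonoidAlgebra.induction_linear X (by simp) (fun X Y h1 h2 => by simp [h1, h2])
    fun x c => ?_
  have : AddMonoidAlgebra.single x c = c • (ex x : GR I) := by simp [ex]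
  rw [this, map_smul, sg_ex, one_smul]

/-- antisymmetrisation -/
noncomputable def alt : GR I →+ GR I :=
  AddMonoidHom.mk' (fun X => ∑ u : W, R.sgn u • sg u X) fun X Y => by
    simp only [map_add, smul_add, sum_add_distrib]

theorem alt_apply (X : GR I) : R.alt X = ∑ u : W, R.sgn u • sg u X := rfl

theorem alt_ex (v : I → ℝ) : R.alt (ex v) = R.AA v := by
  simp only [alt_apply, sg_ex, AA]

theorem alt_sg (i : I) (X : GR I) : R.alt (sg (R.s (R.sr i)) X) = -R.alt X := by
  rw [alt_apply, alt_apply, ← Equiv.sum_comp (Equiv.mulRight (R.s (R.sr i))), ← sum_neg_distrib]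
  refine sum_congr rfl fun u _ => ?_
  rw [Equiv.coe_mulRight, ← sg_mul, mul_assoc, R.s_mul_s, mul_one, R.sgn_mul, R.sgn_sr, mul_neg,
    mul_one, neg_smul]

theorem alt_mul {Y : GR I} (hY : ∀ i, sg (R.s (R.sr i)) Y = Y) (X : GR I) :
    R.alt (X * Y) = R.alt X * Y := by
  have h : ∀ u : W, sg u Y = Y := R.gen _ (sg_one Y) fun i u hu => by rw [sg_mul, hu, hY]
  simp only [alt_apply, map_mul, h, sum_mul, smul_mul_assoc]

theorem one_sub_ne (i : I) : (1 - ex (-R.rt (R.sr i)) : GR I) ≠ 0 := by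
  intro h
  have h1 := congrArg (fun X : GR I => X.coeff 0) (sub_eq_zero.1 h)
  simp only [← ex_zero, coeff_ex, if_true, neg_eq_zero, R.rt_ne_zero, if_false] at h1
  exact one_ne_zero h1

variable {C : Matrix I I ℤ} (hC : ∀ i j, (C i j : ℝ) = R.rt (R.sr i) j)
include hC

theorem dem_id (i : I) (Y) : (1 - ex (-R.rt (R.sr i))) * emb (demOp C i Y) =
    emb Y - ex (-R.rt (R.sr i)) * sg (R.s (R.sr i)) (emb Y) := by
  refine eWt_ind (p := fun Y => (1 - ex (-R.rt (R.sr i))) * emb (demOp C i Y) =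
    emb Y - ex (-R.rt (R.sr i)) * sg (R.s (R.sr i)) (emb Y)) (by simp [demOp_zero])
    (fun X Y h1 h2 => by
      rw [demOp_add, map_add, map_add, map_add, mul_add, h1, h2]
      ring) (fun c x => ?_) Y
  let a : ℤ → GR I := fun j => ex (cz x - (j : ℝ) • R.rt (R.sr i))
  have ha : ∀ j, ex (-R.rt (R.sr i)) * a j = a (j + 1) := fun j => by
    simp only [a]
    rw [← ex_add]
    congr 1
    push_cast
    module
  have e1 : ∀ j : ℕ, emb (eWt fun k => x k - j * C i k) = a j := fun j => by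
    rw [emb_eWt]
    congr 1
    ext k
    simp [cz_apply, hC]
  have e2 : ∀ j : ℕ, emb (eWt fun k => x k + (j + 1) * C i k) = a (-(j + 1 : ℕ)) := fun j => by
    rw [emb_eWt]
    congr 1
    ext k
    simp only [cz_apply, Pi.sub_apply, Pi.smul_apply, smul_eq_mul, ← hC]
    push_cast
    ring
  have e3 : emb (eWt x) = a 0 := by simp [a, emb_eWt]
  have e4 : sg (R.s (R.sr i)) (a 0) = a (x i) := by
    simp only [a, Int.cast_zero, zero_smul, sub_zero]
    rw [sg_ex, R.s_sr_smul, cz_apply]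
  rw [demOp_smul_eWt, map_zsmul, map_zsmul, map_zsmul, mul_smul_comm, mul_smul_comm, ← smul_sub,
    e3, e4, ha, map_sub, map_sum, map_sum, mul_sub, mul_sum, mul_sum]
  congr 1
  simp only [e1, e2, sub_mul, one_mul, ha]
  have t1 := Finset.sum_range_sub' (fun j : ℕ => a j) (x i + 1).toNat
  have t2 := Finset.sum_range_sub (fun j : ℕ => a (-j)) (-x i - 1).toNat
  have t3 : ∀ j : ℕ, -((j + 1 : ℕ) : ℤ) + 1 = -j := fun j => by push_cast; ring
  simp only [t3]
  push_cast at t1 t2 ⊢
  rw [t1, t2]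
  rcases le_total 0 (x i + 1) with h | h
  · rw [Int.toNat_of_nonneg h, Int.toNat_eq_zero.2 (by omega : -x i - 1 ≤ 0)]
    simp
  · rw [Int.toNat_eq_zero.2 h, Int.toNat_of_nonneg (by omega : 0 ≤ -x i - 1),
      show -(-x i - 1) = x i + 1 by ring]
    simp

theorem dem_inv (i : I) (Y) : sg (R.s (R.sr i)) (emb (demOp C i Y)) = emb (demOp C i Y) := by
  have h1 := R.dem_id hC i Y
  have h2 := congrArg (sg (R.s (R.sr i))) h1
  have e : R.s (R.sr i) • -R.rt (R.sr i) = R.rt (R.sr i) := by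
    rw [smul_neg, ← R.smul_rt, R.s_smul_self, R.rt_ng, neg_neg]
  have e2 : (ex (-R.rt (R.sr i)) : GR I) * ex (R.rt (R.sr i)) = 1 := by
    rw [← ex_add, neg_add_cancel, ex_zero]
  rw [map_mul, map_sub, map_sub, map_one, map_mul, sg_ex, e, ← sg_mul, R.s_mul_s, sg_one] at h2
  refine mul_left_cancel₀ (R.one_sub_ne i) ?_
  linear_combination (-ex (-R.rt (R.sr i))) * h2 - h1 +
    (emb Y - sg (R.s (R.sr i)) (emb (demOp C i Y))) * e2

theorem alt_dem (i : I) (Y) :
    R.alt (ex rho * emb (demOp C i Y)) = R.alt (ex rho * emb Y) := by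
  have e : sg (R.s (R.sr i)) (ex rho : GR I) = ex rho * ex (-R.rt (R.sr i)) := by
    rw [sg_ex, R.s_sr_smul, ← ex_add, sub_eq_add_neg]
    simp [rho]
  have h1 : ex rho * emb (demOp C i Y) - sg (R.s (R.sr i)) (ex rho * emb (demOp C i Y)) =
      ex rho * emb Y - sg (R.s (R.sr i)) (ex rho * emb Y) := by
    rw [map_mul, map_mul, e, R.dem_inv hC]
    linear_combination ex rho * R.dem_id hC i Y
  have h2 := congrArg R.alt h1
  rw [map_sub, map_sub, alt_sg, alt_sg, sub_neg_eq_add, sub_neg_eq_add, ← two_smul ℂ,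
    ← two_smul ℂ] at h2
  exact smul_right_injective _ two_ne_zero h2

theorem dem_mul (l : List I) {Z} (hZ : ∀ i ∈ l, sg (R.s (R.sr i)) (emb Z) = emb Z) (Y) :
    demWord C l (Z * Y) = Z * demWord C l Y := by
  induction l with
  | nil => rfl
  | cons i l ih =>
    change demOp C i (demWord C l (Z * Y)) = Z * demOp C i (demWord C l Y)
    rw [ih fun j hj => hZ j (List.mem_cons_of_mem _ hj)]
    refine emb_inj (mul_left_cancel₀ (R.one_sub_ne i) ?_)
    rw [R.dem_id hC, map_mul, map_mul, map_mul, hZ i List.mem_cons_self,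
      mul_left_comm (1 - _), R.dem_id hC]
    ring

omit hC in
/-- Demazure product of a word -/
noncomputable def demW (l : List I) : W := l.foldr R.bruhatUp 1

/-- Demazure character formula for LS paths -/
theorem dem_chr {μ : I → ℤ} (hμ : ∀ i, 0 ≤ μ i) (l : List I) :
    emb (demWord C l (eWt μ)) = ∑ π ∈ R.SW (R.demW l) (cz μ), ex (π 1) := by
  induction l with
  | nil => exact (emb_eWt μ).trans (R.sw_one ex).symm
  | cons i l ih =>
    have key : ∀ w : W, (w • (rho : I → ℝ)) i < 0 →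
        ∑ π ∈ R.SW w (cz μ), (ex (π 1) - ex (R.s (R.sr i) • π 1 - R.rt (R.sr i)) : GR I) =
          (1 - ex (-R.rt (R.sr i))) * ∑ π ∈ R.SW w (cz μ), ex (π 1) := fun w hw => by
      rw [sum_sub_distrib, R.sw_desc (cz_dom hμ) (cz_int μ) hw fun v => ex (v - R.rt (R.sr i)),
        sub_mul, one_mul, mul_sum]
      congr 1
      exact sum_congr rfl fun π _ => by rw [← ex_add, neg_add_eq_sub]
    refine mul_left_cancel₀ (R.one_sub_ne i) ?_
    change _ * emb (demOp C i (demWord C l (eWt μ))) = _ * ∑ π ∈ R.SW (R.bruhatUp i (R.demW l)) _, _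
    have e : ∑ π ∈ R.SW (R.demW l) (cz μ), (ex (π 1) : GR I) - ex (-R.rt (R.sr i)) *
        sg (R.s (R.sr i)) (∑ π ∈ R.SW (R.demW l) (cz μ), ex (π 1)) = ∑ π ∈ R.SW (R.demW l) (cz μ),
          (ex (π 1) - ex (R.s (R.sr i) • π 1 - R.rt (R.sr i))) := by
      rw [map_sum, mul_sum, ← sum_sub_distrib]
      exact sum_congr rfl fun π _ => by rw [sg_ex, ← ex_add, neg_add_eq_sub]
    rw [R.dem_id hC, ih, e]
    unfold bruhatUp
    split_ifs with h
    · exact key _ h
    · have h2 : ((R.s (R.sr i) * R.demW l) • (rho : I → ℝ)) i < 0 := by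
        rw [R.sr_mul_rho]
        linarith [R.crystal_pos_of_not_neg h]
      rw [← key _ h2, R.sw_asc (cz_dom hμ) (cz_int μ) h2, R.s_mul_s_mul]

theorem demW_w0 {l0 : List I} (h0 : l0.foldr (sRefl C) (fun _ => 1) = fun _ => -1) :
    R.demW l0 = R.w0 := by
  have key : ∀ l : List I, ∃ u : W, R.Le u (R.demW l) ∧
      u • (rho : I → ℝ) = cz (l.foldr (sRefl C) fun _ => 1) := fun l => by
    induction l with
    | nil => exact ⟨1, R.le_refl' _, by ext; simp [rho, cz_apply]⟩
    | cons i l ih =>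
      obtain ⟨u, h1, h2⟩ := ih
      refine ⟨R.s (R.sr i) * u, R.le_trans' ?_ (R.bruhat_lift h1 i).1, ?_⟩
      · unfold bruhatUp
        split_ifs with h
        · exact R.bruhat_le_of_neg h
        · exact R.le_refl' _
      · ext j
        rw [mul_smul, h2, R.s_sr_smul]
        simp [cz_apply, sRefl, hC]
  obtain ⟨u, h1, h2⟩ := key l0
  obtain rfl : u = R.w0 := R.eq_w0 fun i => by rw [h2, h0, cz_apply]; simp
  by_contra h
  exact absurd (R.len_lt_of_le h1 (Ne.symm h)) (not_lt.2 (R.len_le_of_le (R.le_w0 _)))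

theorem dem_w0_inv {l0 : List I} (h0 : R.demW l0 = R.w0) (i : I) (Y) :
    sg (R.s (R.sr i)) (emb (demWord C l0 Y)) = emb (demWord C l0 Y) := by
  have hd : ∀ μ : I → ℤ, (∀ i, 0 ≤ μ i) →
      sg (R.s (R.sr i)) (emb (demWord C l0 (eWt μ))) = emb (demWord C l0 (eWt μ)) := fun μ hμ => by
    rw [R.dem_chr hC hμ, h0, map_sum, ← R.sw_desc (cz_dom hμ) (cz_int μ) (R.w0_neg i) ex]
    exact sum_congr rfl fun π _ => sg_ex _ _
  refine eWt_ind (p := fun Y => sg (R.s (R.sr i)) (emb (demHom C l0 Y)) = emb (demHom C l0 Y))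
    (by simp) (fun X Y h1 h2 => by simp only [map_add, h1, h2]) (fun c x => ?_) Y
  rw [map_zsmul, map_zsmul, map_zsmul]
  congr 1
  obtain ⟨y, hy⟩ : ∃ y : I → ℤ, y = fun j => |x j| := ⟨_, rfl⟩
  choose z hz using fun u : W => exists_cz (R.intV_smul (cz_int y) u)
  let p : Polynomial (AddMonoidAlgebra ℤ (I → ℤ)) :=
    ∏ u : W, (Polynomial.X - Polynomial.C (eWt (z u)))
  have p1 : ∀ j k, sg (R.s (R.sr j)) (emb (p.coeff k)) = emb (p.coeff k) := fun j k => by
    have : (p.map emb).map ((sg (R.s (R.sr j)) : GR I ≃ₐ[ℂ] GR I) : GR I →+* GR I) = p.map emb := by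
      simp only [p, Polynomial.map_prod, Polynomial.map_sub, Polynomial.map_X, Polynomial.map_C,
        emb_eWt, hz, RingHom.coe_coe, sg_ex, ← mul_smul]
      exact Equiv.prod_comp (Equiv.mulLeft (R.s (R.sr j)))
        fun u => (Polynomial.X - Polynomial.C (ex (u • cz y) : GR I))
    have h2 := congrArg (fun q => q.coeff k) this
    simpa only [Polynomial.coeff_map, RingHom.coe_coe] using h2
  have p2 : p.eval (eWt y) = 0 := by
    rw [Polynomial.eval_prod]
    refine prod_eq_zero (mem_univ 1) ?_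
    rw [cz_inj ((hz 1).trans (one_smul _ _))]
    simp
  have p3 : emb (p.coeff 0) ≠ 0 := by
    rw [Polynomial.coeff_zero_eq_eval_zero, Polynomial.eval_prod, map_prod]
    refine prod_ne_zero_iff.2 fun u _ => ?_
    simp only [Polynomial.eval_sub, Polynomial.eval_X, Polynomial.eval_C, zero_sub, map_neg,
      emb_eWt, ne_eq, neg_eq_zero]
    exact AddMonoidAlgebra.single_ne_zero.2 one_ne_zero
  have p4 : ∀ k : ℕ, eWt y ^ k = eWt (k • y) := fun k => by
    induction k with
    | zero => simp [eWt, AddMonoidAlgebra.one_def]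
    | succ k ih => rw [pow_succ, ih, ← eWt_add, succ_nsmul]
  have p5 : p.coeff 0 * eWt x =
      -∑ k ∈ range p.natDegree, p.coeff (k + 1) * eWt ((k + 1) • y + x) := by
    rw [Polynomial.eval_eq_sum_range, sum_range_succ', pow_zero, mul_one] at p2
    rw [eq_neg_of_add_eq_zero_right p2, neg_mul, sum_mul]
    congr 1
    exact sum_congr rfl fun k _ => by rw [p4, eWt_add, mul_assoc]
  have p6 : ∀ k Y, demHom C l0 (p.coeff k * Y) = p.coeff k * demWord C l0 Y := fun k Y =>
    R.dem_mul hC l0 (fun j _ => p1 j k) Y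
  have p7 := congrArg (fun Y => emb (demHom C l0 Y)) p5
  simp only [map_neg, map_sum, p6, map_mul] at p7
  refine mul_left_cancel₀ p3 ?_
  change _ * sg _ (emb (demWord C l0 _)) = _ * emb (demWord C l0 _)
  rw [← p1 i 0, ← map_mul, p1, p7, map_neg, map_sum]
  congr 1
  refine sum_congr rfl fun k _ => ?_
  rw [map_mul, p1, hd _ fun j => ?_]
  rw [Pi.add_apply, Pi.smul_apply, nsmul_eq_mul, hy]
  push_cast
  nlinarith [neg_abs_le (x j), mul_nonneg (Int.natCast_nonneg k) (abs_nonneg (x j))]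

theorem dem_w0 {l0 : List I} (h0 : R.demW l0 = R.w0) (Y) :
    R.AA rho * emb (demWord C l0 Y) = R.alt (ex rho * emb Y) := by
  rw [← alt_ex, ← R.alt_mul fun i => R.dem_w0_inv hC h0 i Y]
  clear h0
  induction l0 with
  | nil => rfl
  | cons i l ih => exact (R.alt_dem hC i _).trans ih

end RD

end Pool.Agent.Lib.MP_1e3767_al
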