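import Pool.Agent.Lib.MP_1e3767_al.H27Sat
import Pool.Agent.Lib.MP_1e3767_al.Brauer

set_option linter.unusedSectionVars false

namespace Pool.Agent.Lib.MP_1e3767_al

open Finset

namespace RD
variable {I ι W : Type*} [Fintype I] [DecidableEq I] [Fintype ι] [Group W] [Fintype W]
  [DistribMulAction W (I → ℝ)] [SMulCommClass W ℝ (I → ℝ)] [MulAction W ι] (R : RD I ι W)

/-- LS paths of shape `μ` with first direction below `w` -/
def BW (w : W) (μ : I → ℝ) : Set (ℝ → I → ℝ) :=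
  {π | ∃ A l, (∀ p ∈ A, p.1 = 0) ∧ R.endp R.w0 A = w ∧ R.IsMax (A ++ l) ∧
    R.IsLS μ R.w0 (A ++ l) ∧ π = R.path μ R.w0 (A ++ l)}

variable {w : W}

theorem bw_sub {μ : I → ℝ} {π : ℝ → I → ℝ} (h : π ∈ R.BW w μ) : π ∈ R.BB μ := by
  obtain ⟨A, l, -, -, h1, h2, h3⟩ := h
  exact ⟨_, h1, h2, h3⟩

theorem bw_intro {μ : I → ℝ} {A l L : List (ℝ × ι)} (hA : ∀ p ∈ A, p.1 = 0)
    (hw : R.endp R.w0 A = w) (e : L = A ++ l) (h1 : R.IsMax L) (h2 : R.IsLS μ R.w0 L) :
    R.path μ R.w0 L ∈ R.BW w μ := by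
  subst e
  exact ⟨A, l, hA, hw, h1, h2, rfl⟩

theorem bw_dest {μ : I → ℝ} {π : ℝ → I → ℝ} (h : π ∈ R.BW w μ) :
    ∃ l, R.IsMaxW w l ∧ R.IsLS μ w l ∧
      ∀ t, π t = R.path μ w l t + min t 0 • (R.w0 • μ - w • μ) := by
  obtain ⟨A, l, hA, rfl, ⟨h1, h2⟩, h3, rfl⟩ := h
  refine ⟨l, ⟨((R.isChain_append _ _ _ _).1 h1).2.1, by rwa [R.endp_append] at h2⟩,
    ((R.isLS_append _ _ _ _).1 h3).2, fun t => ?_⟩
  rw [R.path_append, R.corr_const μ _ A hA]

theorem bw_mk {μ : I → ℝ} {π : ℝ → I → ℝ} {u : W} (hu : R.Le u w) {l : List (ℝ × ι)}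
    (h1 : R.IsMaxW u l) (h2 : R.IsLS μ u l)
    (h3 : ∀ t, π t = R.path μ u l t + min t 0 • (R.w0 • μ - u • μ)) : π ∈ R.BW w μ := by
  obtain ⟨as, a1, a2⟩ := R.exists_cchain (R.le_w0 w)
  obtain ⟨bs, b1, b2⟩ := R.exists_cchain hu
  have c0 : ∀ cs : List ι, ∀ p ∈ (cs.map fun β => ((0 : ℝ), β)), p.1 = 0 := by
    intro cs p hp
    obtain ⟨β, -, rfl⟩ := List.mem_map.1 hp
    rfl
  have hc : R.CChain R.w0 (as ++ bs) := (R.cchain_append _ _ _).2 ⟨a1, a2 ▸ b1⟩
  have he : R.endp R.w0 ((as ++ bs).map fun β => ((0 : ℝ), β)) = u := by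
    rw [R.endp_map_const, R.endb_append, a2, b2]
  refine ⟨as.map fun β => ((0 : ℝ), β), (bs.map fun β => ((0 : ℝ), β)) ++ l, c0 as,
    by rw [R.endp_map_const, a2], ?_⟩
  rw [← List.append_assoc, ← List.map_append]
  refine ⟨⟨(R.isChain_append _ _ _ _).2 ⟨R.isChain_map_const hc le_rfl zero_le_one, he ▸ h1.1,
    fun p hp q hq => (c0 _ p hp).le.trans (R.isChain_mem h1.1 q hq).1⟩,
    by rw [R.endp_append, he, h1.2]⟩, (R.isLS_append _ _ _ _).2
      ⟨R.isLS_const_zero μ _ _ (c0 _), he ▸ h2⟩, funext fun t => ?_⟩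
  rw [h3, R.path_append, R.corr_const μ _ _ (c0 _), he]

theorem bw_mono {μ : I → ℝ} {π : ℝ → I → ℝ} {u : W} (hu : R.Le u w) (h : π ∈ R.BW u μ) :
    π ∈ R.BW w μ := by
  obtain ⟨l, h1, h2, h3⟩ := R.bw_dest h
  exact R.bw_mk hu h1 h2 h3

theorem e_existsW {μ : I → ℝ} (hμ : Dom μ) {π' : ℝ → I → ℝ} (hW : π' ∈ R.BW w μ) (i : I)
    (h1 : mn i π' ≤ -1) : ∃ π ∈ R.BW w μ, R.FRel i π π' := by
  have h := R.bw_sub hW
  have hcont : Continuous π' := R.continuous_of_mem_BB h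
  have hzero : π' 0 = 0 := R.zero_of_mem_BB h
  obtain ⟨zm, hzm⟩ := R.mn_int hμ h i
  have hmn : ∀ t ∈ Set.Icc (0:ℝ) 1, (zm : ℝ) ≤ π' t i := fun t ht => hzm ▸ mn_le hcont i ht
  obtain ⟨t0, ht0, ht0e⟩ := exists_eq_mn hcont i
  have hci : Continuous (fun t => π' t i) := (continuous_apply i).comp hcont
  obtain ⟨a, ha0, ha1, hpre, hga, hnear⟩ :=
    crystalF_e_time (m := (zm : ℝ) + 1) hci (by rw [hzero]; simp only [Pi.zero_apply]; linarith)
      ht0 (by show π' t0 i < _; linarith)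
  clear h
  obtain ⟨A0, l0, hA0, hw, ⟨hch, hend⟩, hls, hπ⟩ := hW
  obtain ⟨A1, l2, rfl, hA1, hl2⟩ := R.split_le ((R.isChain_append _ _ _ _).1 hch).2.1 a
  obtain ⟨A, hAe⟩ : ∃ A, A = A0 ++ A1 := ⟨_, rfl⟩
  have hA : ∀ p ∈ A, p.1 ≤ a := fun p hp => by
    rcases List.mem_append.1 (hAe ▸ hp) with h | h
    · exact (hA0 p h).le.trans ha0
    · exact hA1 p h
  rw [← List.append_assoc, ← hAe] at hch hend hls hπ
  subst hπ
  obtain ⟨hchA, hch2, -⟩ := (R.isChain_append _ _ _ _).mp hch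
  obtain ⟨hlsA, hls2⟩ := (R.isLS_append _ _ _ _).mp hls
  set u := R.endp R.w0 A with hu
  obtain ⟨c, hac, hc⟩ := crystalF_e_gap a l2 hl2
  obtain ⟨t1, hat1, ht1c, ht1⟩ := hnear c hac
  have hga' : R.icpt μ R.w0 A i + a * (u • μ) i = (zm : ℝ) + 1 := by
    have := R.path_between μ R.w0 A l2 hA (fun p hp => (hl2 p hp).le)
    rw [this] at hga
    simpa using hga
  have hneg : (u • μ) i < 0 := by
    have := R.path_between μ R.w0 A l2 (t := t1) (fun p hp => (hA p hp).trans hat1.le)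
      (fun p hp => ht1c.le.trans (hc p hp))
    rw [this] at ht1
    simp only [Pi.add_apply, Pi.smul_apply, smul_eq_mul] at ht1
    by_contra hcon
    have h2 : 0 ≤ (u • μ) i := le_of_not_gt hcon
    have h3 : a * (u • μ) i ≤ t1 * (u • μ) i := mul_le_mul_of_nonneg_right hat1.le h2
    linarith
  have hdesc : (u • (rho : I → ℝ)) i < 0 := by
    rcases lt_or_gt_of_ne (R.smul_rho_ne u i) with hlt | hgt
    · exact hlt
    · exfalso
      have := R.cv_ge_of_rho_pos (β := R.sr i) (w := u) (by rw [R.cv_sr]; exact hgt) hμ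
      rw [R.cv_sr] at this
      linarith
  have hend2 : R.endp u l2 = 1 := by rw [hu, ← R.endp_append]; exact hend
  obtain ⟨B, b, C, rfl, hB⟩ := R.first_change i hch2 hdesc (by rw [hend2]; simp [rho])
  obtain ⟨hchB, hch3, hBle⟩ := (R.isChain_append _ _ _ _).mp hch2
  obtain ⟨hlsB, hls3⟩ := (R.isLS_append _ _ _ _).mp hls2
  set k := R.endp u B with hk
  obtain ⟨-, -, hb1, hchC⟩ := hch3
  obtain ⟨⟨zb, hzb⟩, hlsC⟩ := hls3
  simp only at hb1 hchC hzb hlsC
  rw [R.cv_sr] at hzb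
  have hcb : c ≤ b := hc (b, R.sr i) (by simp)
  have hab : a ≤ b := hac.le.trans hcb
  have hBa : ∀ p ∈ B, a < p.1 := fun p hp => hl2 p (by simp [hp])
  have hBb : ∀ p ∈ B, p.1 ≤ b := fun p hp => hBle p hp (b, R.sr i) (by simp)
  have hCb : ∀ p ∈ C, b ≤ p.1 := fun p hp => (R.isChain_mem hchC p hp).1
  have hrest : ∀ p ∈ (b, R.sr i) :: C, b ≤ p.1 := by
    intro p hp
    rcases List.mem_cons.mp hp with rfl | hp
    · exact le_rfl
    · exact hCb p hp
  have hchB' : R.IsChain u a B := R.isChain_raise hchB (fun p hp => (hBa p hp).le)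
  obtain ⟨hcj1, hcj2, hcj3, hcj4⟩ := R.conj_chain μ i hchB'
    (fun x y hxy => ⟨fun _ => hdesc, fun _ => hB x y hxy⟩)
  set B' := B.map (fun p => (p.1, R.s (R.sr i) • p.2)) with hB'
  -- the old path on the middle stretch
  have hmid : ∀ t ∈ Set.Icc a b, R.path μ R.w0 (A ++ (B ++ (b, R.sr i) :: C)) t i =
      R.icpt μ R.w0 A i + R.path μ u B t i := by
    intro t ht
    rw [R.path_append, R.corr_of_ge μ R.w0 A (fun p hp => (hA p hp).trans ht.1), ← hu,
      R.path_append, R.path_of_le μ _ _ (fun p hp => ht.2.trans (hrest p hp)),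
      ← R.path_eq_corr]
    simp only [Pi.add_apply]
    ring
  have hanti : Antitone (fun t => R.path μ u B t i) := R.antitone_path hμ i hchB hB
  have hantiOn : ∀ s ∈ Set.Icc a b, ∀ t ∈ Set.Icc a b, s ≤ t →
      R.path μ R.w0 (A ++ (B ++ (b, R.sr i) :: C)) t i ≤
        R.path μ R.w0 (A ++ (B ++ (b, R.sr i) :: C)) s i := by
    intro s hs t ht hst
    rw [hmid s hs, hmid t ht]
    have := hanti hst
    simp only at this
    linarith
  obtain ⟨zA, hzA⟩ := R.intV_of_inQ (R.inQ_icpt hlsA) i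
  obtain ⟨zB, hzB⟩ := R.intV_of_inQ (R.inQ_icpt hlsB) i
  have hBend : R.path μ u B b i = b * (k • μ) i + R.icpt μ u B i := by
    rw [R.path_eq_corr, R.corr_of_ge μ u B hBb]
    simp [hk]
  have hgb : R.path μ R.w0 (A ++ (B ++ (b, R.sr i) :: C)) b i = (zm : ℝ) := by
    have e1 : R.path μ R.w0 (A ++ (B ++ (b, R.sr i) :: C)) b i = ((zA + zb + zB : ℤ) : ℝ) := by
      rw [hmid b ⟨hab, le_rfl⟩, hBend, hzA, hzB]
      push_cast
      linarith
    have e2 := hmn b ⟨ha0.trans hab, hb1⟩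
    have e3 := hantiOn t1 ⟨hat1.le, ht1c.le.trans hcb⟩ b ⟨hab, le_rfl⟩ (ht1c.le.trans hcb)
    rw [e1] at e2 e3 ⊢
    have e4 : zm ≤ zA + zb + zB := by exact_mod_cast e2
    have e5 : zA + zb + zB < zm + 1 := by
      have : ((zA + zb + zB : ℤ) : ℝ) < (zm : ℝ) + 1 := lt_of_le_of_lt e3 ht1
      exact_mod_cast this
    have e6 : zA + zb + zB = zm := by omega
    rw [e6]
  -- the new list
  have hB'mem : ∀ p ∈ B', a ≤ p.1 ∧ p.1 ≤ b := by
    intro p hp
    obtain ⟨q, hq, rfl⟩ := List.mem_map.mp hp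
    exact ⟨(hBa q hq).le, hBb q hq⟩
  have hnewch : R.IsChain R.w0 0 (A ++ (a, R.sr i) :: (B' ++ C)) := by
    refine (R.isChain_append _ _ _ _).mpr ⟨hchA, ⟨R.cover_sr hdesc, ha0, ha1, ?_⟩, ?_⟩
    · refine (R.isChain_append _ _ _ _).mpr ⟨hcj1, ?_, ?_⟩
      · show R.IsChain (R.endp (R.s (R.sr i) * u) B') a C
        rw [hcj2]
        exact R.isChain_mono hchC hab
      · intro p hp q hq
        exact (hB'mem p hp).2.trans (hCb q hq)
    · intro p hp q hq
      refine (hA p hp).trans ?_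
      rcases List.mem_cons.mp hq with rfl | hq
      · exact le_rfl
      · rcases List.mem_append.mp hq with hq | hq
        · exact (hB'mem q hq).1
        · exact hab.trans (hCb q hq)
  have hnewend : R.endp R.w0 (A ++ (a, R.sr i) :: (B' ++ C)) = 1 := by
    rw [R.endp_append, ← hu, R.endp_cons, R.endp_append]
    simp only
    rw [hcj2, ← hend2, R.endp_append, R.endp_cons]
  have hnewls : R.IsLS μ R.w0 (A ++ (a, R.sr i) :: (B' ++ C)) := by
    refine (R.isLS_append _ _ _ _).mpr ⟨hlsA, ⟨zm + 1 - zA, ?_⟩, ?_⟩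
    · show R.cv (R.sr i) (u • μ) * a = _
      rw [R.cv_sr]
      push_cast
      linarith
    · refine (R.isLS_append _ _ _ _).mpr ⟨hcj3 hlsB, ?_⟩
      show R.IsLS μ (R.endp (R.s (R.sr i) * u) B') C
      rw [hcj2]
      exact hlsC
  -- comparison of the two paths
  have hdiff : ∀ t, R.path μ R.w0 (A ++ (B ++ (b, R.sr i) :: C)) t =
      R.path μ R.w0 (A ++ (a, R.sr i) :: (B' ++ C)) t -
        ((u • μ) i * min t a - (k • μ) i * min t b - R.corr μ u B t i) • R.rt (R.sr i) := by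
    intro t
    have e1 : R.path μ u ((a, R.sr i) :: (B' ++ C)) t =
        R.path μ (R.s (R.sr i) * u) (B' ++ C) t +
          (R.cv (R.sr i) (u • μ) * min t a) • R.rt (R.sr i) := rfl
    have e2 : R.path μ k ((b, R.sr i) :: C) t =
        R.path μ (R.s (R.sr i) * k) C t +
          (R.cv (R.sr i) (k • μ) * min t b) • R.rt (R.sr i) := rfl
    rw [R.path_append μ R.w0 A, R.path_append μ R.w0 A, ← hu, R.path_append μ u B, ← hk, e1, e2,
      R.path_append, hcj2, hcj4, R.s_sr_smul, R.cv_sr, R.cv_sr]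
    simp only [sub_smul]
    abel
  have hy : ∀ t, (u • μ) i * min t a - (k • μ) i * min t b - R.corr μ u B t i =
      (zm : ℝ) + 1 - R.path μ R.w0 (A ++ (B ++ (b, R.sr i) :: C)) (max a (min t b)) i := by
    intro t
    have hpc : R.path μ u B t i = t * (k • μ) i + R.corr μ u B t i := by
      rw [R.path_eq_corr]
      simp [hk]
    rcases le_total t a with hta | hat
    · have e1 : max a (min t b) = a := max_eq_left ((min_le_left _ _).trans hta)
      have e2 : R.path μ u B t i = t * (u • μ) i := by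
        rw [R.path_of_le μ u B (fun p hp => hta.trans (hBa p hp).le)]
        simp
      rw [e1, hga, min_eq_left hta, min_eq_left (hta.trans hab)]
      linarith
    · rcases le_total t b with htb | hbt
      · rw [min_eq_right hat, min_eq_left htb, max_eq_right hat, hmid t ⟨hat, htb⟩]
        linarith
      · rw [min_eq_right hat, min_eq_right hbt, max_eq_right hab, hmid b ⟨hab, le_rfl⟩, hBend,
          R.corr_of_ge μ u B (fun p hp => (hBb p hp).trans hbt)]
        linarith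
  set P' := R.path μ R.w0 (A ++ (B ++ (b, R.sr i) :: C)) with hP'
  set P := R.path μ R.w0 (A ++ (a, R.sr i) :: (B' ++ C)) with hP
  have hco : ∀ t, P t i = P' t i + 2 * ((zm : ℝ) + 1 - P' (max a (min t b)) i) := by
    intro t
    have := congrFun (hdiff t) i
    rw [hy t] at this
    simp only [Pi.sub_apply, Pi.smul_apply, smul_eq_mul, R.rt_sr_self] at this
    linarith
  have hin : ∀ t ∈ Set.Icc a b, P t i = 2 * ((zm : ℝ) + 1) - P' t i := by
    intro t ht
    rw [hco t, min_eq_left ht.2, max_eq_right ht.1]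
    ring
  have hout : ∀ t ∈ Set.Icc b 1, (zm : ℝ) + 1 + 1 ≤ P t i := by
    intro t ht
    rw [hco t, min_eq_right ht.1, max_eq_right hab, hgb]
    have := hmn t ⟨ha0.trans (hab.trans ht.1), ht.2⟩
    linarith
  refine ⟨P, ⟨A0, A1 ++ (a, R.sr i) :: (B' ++ C), hA0, hw, by
    rw [← List.append_assoc, ← hAe]
    exact ⟨⟨hnewch, hnewend⟩, hnewls, rfl⟩⟩, a, b, (zm : ℝ) + 1, ha0, hab, hb1, ?_, ?_, ?_,
    ?_, hout, ?_⟩
  · intro t ht
    rcases le_total t a with hta | hat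
    · rw [hco t, max_eq_left ((min_le_left _ _).trans hta), hga]
      have := hpre t ⟨ht.1, hta⟩
      linarith
    · rcases le_total t b with htb | hbt
      · rw [hin t ⟨hat, htb⟩]
        have := hantiOn a ⟨le_rfl, hab⟩ t ⟨hat, htb⟩ hat
        linarith
      · have := hout t ⟨hbt, ht.2⟩
        linarith
  · rw [hin a ⟨le_rfl, hab⟩, hga]; ring
  · rw [hin b ⟨hab, le_rfl⟩, hgb]; ring
  · intro s hs t ht hst
    show P s i ≤ P t i
    rw [hin s hs, hin t ht]
    have := hantiOn s hs t ht hst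
    linarith
  · intro t
    have hcl : max a (min t b) ∈ Set.Icc a b := ⟨le_max_left _ _, max_le hab (min_le_right _ _)⟩
    rw [hdiff t, hy t, hin _ hcl]
    congr 2
    ring

theorem f_existsW {μ : I → ℝ} (hμ : Dom μ) {π : ℝ → I → ℝ} (hW : π ∈ R.BW w μ) (i : I)
    (h0 : (w • (rho : I → ℝ)) i < 0 ∨ mn i π < 0)
    (h1 : mn i π + 1 ≤ π 1 i) : ∃ π' ∈ R.BW w μ, R.FRel i π π' := by
  have h := R.bw_sub hW
  have hzero : π 0 = 0 := R.zero_of_mem_BB h
  have hcont : Continuous π := R.continuous_of_mem_BB h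
  obtain ⟨z, hz⟩ := R.mn_int hμ h i
  obtain ⟨t0, ht0, ht0e⟩ := exists_eq_mn hcont i
  have hmn : ∀ t ∈ Set.Icc (0:ℝ) 1, mn i π ≤ π t i := fun t ht => mn_le hcont i ht
  obtain ⟨b, hb0, hb1, hbe, hbge, hblt⟩ := crystalF_f_time (g := fun t => π t i)
    ((continuous_apply i).comp hcont) (y := mn i π + 1) ht0 (by simp only [ht0e]; linarith) h1
  clear h
  obtain ⟨A0, l0, hA0, hw, ⟨hch, hend⟩, hLS, hπ⟩ := hW
  obtain ⟨l1', C, rfl, hl1', hC⟩ := R.split_lt ((R.isChain_append _ _ _ _).1 hch).2.1 b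
  obtain ⟨l1, hl1d⟩ : ∃ l1, l1 = A0 ++ l1' := ⟨_, rfl⟩
  have hl1 : ∀ p ∈ l1, p.1 < b := fun p hp => by
    rcases List.mem_append.1 (hl1d ▸ hp) with h | h
    · exact (hA0 p h).trans_lt hb0
    · exact hl1' p h
  rw [← List.append_assoc, ← hl1d] at hch hend hLS hπ
  obtain ⟨c, hcb, hc⟩ := crystalF_f_bound hl1
  obtain ⟨t1, hct1, ht1b, ht1⟩ := hblt c hcb
  obtain ⟨hch1, hchC, -⟩ := (R.isChain_append _ _ _ _).1 hch
  obtain ⟨hLS1, hLSC⟩ := (R.isLS_append _ _ _ _).1 hLS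
  -- the slope just before `b`
  have hπb : π b i = R.icpt μ R.w0 l1 i + b * (R.endp R.w0 l1 • μ) i := by
    rw [hπ, R.path_between μ R.w0 l1 C (fun p hp => (hl1 p hp).le) hC]
    simp
  have hπt1 : π t1 i = R.icpt μ R.w0 l1 i + t1 * (R.endp R.w0 l1 • μ) i := by
    rw [hπ, R.path_between μ R.w0 l1 C (fun p hp => (hc p hp).trans hct1.le)
      (fun p hp => ht1b.le.trans (hC p hp))]
    simp
  have hslope : 0 < (R.endp R.w0 l1 • μ) i := by
    by_contra hle
    have hle := not_lt.1 hle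
    have h2 : (b - t1) * (R.endp R.w0 l1 • μ) i ≤ 0 :=
      mul_nonpos_of_nonneg_of_nonpos (by linarith) hle
    nlinarith
  have hasc : 0 < (R.endp R.w0 l1 • (rho : I → ℝ)) i := by
    rcases lt_or_gt_of_ne (R.smul_rho_ne (R.endp R.w0 l1) i) with hlt | hgt
    · have := R.cv_le_of_rho_neg (β := R.sr i) (w := R.endp R.w0 l1) (by rw [R.cv_sr]; exact hlt) hμ
      rw [R.cv_sr] at this
      linarith
    · exact hgt
  obtain ⟨zP1, hzP1⟩ := R.intV_of_inQ (R.inQ_icpt hLS1) i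
  obtain ⟨A, a, B, A1, hAe, hl1e, hk, hB⟩ : ∃ A a B A1, A = A0 ++ A1 ∧
      l1 = A ++ (a, R.sr i) :: B ∧ (R.endp R.w0 A • (rho : I → ℝ)) i < 0 ∧
      ∀ b1 b2, B = b1 ++ b2 →
        0 < (R.endp (R.s (R.sr i) * R.endp R.w0 A) b1 • (rho : I → ℝ)) i := by
    have hc1 : R.IsChain w 0 l1' := hw ▸ ((R.isChain_append _ _ _ _).1 (hl1d ▸ hch1)).2.1
    rcases R.crystal_last_aux i l1' hc1 (by rwa [hl1d, R.endp_append, hw] at hasc) with
      h2 | ⟨A1, a, B, e, h2, h3⟩
    · exfalso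
      rcases h0 with h0 | h0
      · exact absurd (h2 [] l1' rfl) (not_lt.2 h0.le)
      · have h3 : t0 ≤ b := by
          by_contra h4
          have := hbge t0 ⟨(not_le.1 h4).le, ht0.2⟩
          simp only [ht0e] at this
          linarith
        have h4 : ∀ t, 0 ≤ t → t ≤ b → π t i = R.path μ w l1' t i := fun t t0 tb => by
          rw [hπ, hl1d, List.append_assoc, R.path_append, R.corr_const μ _ A0 hA0,
            min_eq_right t0, zero_smul, add_zero, hw, R.path_append,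
            R.path_of_le μ _ C (fun p hp => tb.trans (hC p hp)), ← R.path_eq_corr]
        have h5 := R.monotone_path hμ i hc1 h2 ht0.1
        simp only at h5
        rw [← h4 0 le_rfl hb0.le, ← h4 t0 ht0.1 h3, ht0e, hzero, Pi.zero_apply] at h5
        linarith
    · refine ⟨A0 ++ A1, a, B, A1, rfl, by rw [hl1d, e, List.append_assoc], ?_, ?_⟩
      · rwa [R.endp_append, hw]
      · rwa [R.endp_append, hw]
  clear hl1d
  subst hl1e
  obtain ⟨hchA, hchaB, hAB⟩ := (R.isChain_append _ _ _ _).1 hch1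
  obtain ⟨hLSA, hLSaB⟩ := (R.isLS_append _ _ _ _).1 hLS1
  obtain ⟨-, ha0, -, hchB⟩ := hchaB
  obtain ⟨⟨z1, hz1⟩, hLSB⟩ := hLSaB
  simp only at ha0 hchB hz1 hLSB
  obtain ⟨zA, hzA⟩ := R.intV_of_inQ (R.inQ_icpt hLSA) i
  have hmem : (a, R.sr i) ∈ A ++ (a, R.sr i) :: B := by simp
  have hac : a ≤ c := hc _ hmem
  have hab : a < b := hl1 _ hmem
  have hAa : ∀ p ∈ A, p.1 ≤ a := fun p hp => hAB p hp (a, R.sr i) List.mem_cons_self
  have haB : ∀ p ∈ B, a ≤ p.1 := fun p hp => (R.isChain_mem hchB p hp).1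
  have hBb : ∀ p ∈ B, p.1 ≤ b := fun p hp => (hl1 p (by simp [hp])).le
  set k := R.endp R.w0 A with hkdef
  set k' := R.s (R.sr i) * k with hk'def
  have hu : R.endp R.w0 (A ++ (a, R.sr i) :: B) = R.endp k' B := by
    rw [R.endp_append, R.endp_cons]
  rw [hu] at hchC hLSC hπb hasc
  set u := R.endp k' B with hudef
  have hkk : R.s (R.sr i) * k' = k := R.s_mul_s_mul _ _
  have hk'μ : (k' • μ) i = -(k • μ) i := R.crystalF_f_sr_mul i k μ
  rw [R.cv_sr] at hz1
  -- the old path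
  have hold : ∀ t, π t = R.path μ u C t + R.corr μ k' B t +
      ((k • μ) i * min t a) • R.rt (R.sr i) + R.corr μ R.w0 A t := by
    intro t
    rw [hπ, List.append_assoc, R.path_append, List.cons_append]
    simp only [path]
    rw [R.path_append, R.cv_sr]
  have hmid : ∀ t ∈ Set.Icc a b, π t i = R.path μ k' B t i + (2 * z1 + zA) := by
    intro t ht
    rw [hold t, R.path_of_le μ u C (fun p hp => ht.2.trans (hC p hp)),
      R.corr_of_ge μ R.w0 A (fun p hp => (hAa p hp).trans ht.1), R.path_eq_corr μ k' B t,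
      min_eq_right ht.1, hz1]
    simp only [Pi.add_apply, Pi.smul_apply, smul_eq_mul, R.rt_sr_self, hzA]
    ring
  have hmono : MonotoneOn (fun t => π t i) (Set.Icc a b) := by
    intro s hs t ht hst
    have := R.monotone_path hμ i hchB hB hst
    simp only at this ⊢
    rw [hmid s hs, hmid t ht]
    linarith
  have hpa : R.path μ k' B a i = -z1 := by
    rw [R.path_of_le μ k' B haB]
    simp only [Pi.smul_apply, smul_eq_mul, hk'μ]
    linarith
  have hπa : π a i = mn i π := by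
    have e1 : π a i = ((z1 + zA : ℤ) : ℝ) := by
      rw [hmid a ⟨le_rfl, hab.le⟩, hpa]; push_cast; ring
    have e2 : mn i π ≤ π a i := hmn a ⟨ha0, hab.le.trans hb1⟩
    have e3 : π a i ≤ π t1 i :=
      hmono ⟨le_rfl, hab.le⟩ ⟨hac.trans hct1.le, ht1b.le⟩ (hac.trans hct1.le)
    have e4 : (z : ℝ) ≤ ((z1 + zA : ℤ) : ℝ) := by rw [← e1, ← hz]; exact e2
    have e5 : ((z1 + zA : ℤ) : ℝ) < ((z + 1 : ℤ) : ℝ) := by
      rw [← e1]; push_cast; rw [← hz]; linarith
    have e6 : z ≤ z1 + zA := by exact_mod_cast e4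
    have e7 : z1 + zA < z + 1 := by exact_mod_cast e5
    have e8 : z1 + zA = z := by omega
    rw [e1, e8, hz]
  -- the new list
  have hk'pos : 0 < (k' • (rho : I → ℝ)) i := hB [] B rfl
  obtain ⟨hcc, hce, hcl, hcr⟩ := R.conj_chain μ i hchB (by
    intro b1 b2 hb
    have := hB b1 b2 hb
    constructor
    · intro h'; linarith
    · intro h'; linarith)
  rw [hkk] at hcc hce hcl hcr
  rw [← hudef] at hce
  set B' := B.map fun p => (p.1, R.s (R.sr i) • p.2) with hB'def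
  have hB't : ∀ p ∈ B', a ≤ p.1 ∧ p.1 ≤ b := by
    intro p hp
    obtain ⟨q, hq, rfl⟩ := List.mem_map.1 hp
    exact ⟨haB q hq, hBb q hq⟩
  have hdesc : ((R.s (R.sr i) * u) • (rho : I → ℝ)) i < 0 := by
    rw [R.sr_mul_rho]; linarith
  have huu : R.s (R.sr i) * (R.s (R.sr i) * u) = u := R.s_mul_s_mul _ _
  have huμ : ((R.s (R.sr i) * u) • μ) i = -(u • μ) i := R.crystalF_f_sr_mul i u μ
  refine ⟨R.path μ R.w0 (A ++ (B' ++ (b, R.sr i) :: C)),
    R.bw_intro hA0 hw (show _ = A0 ++ (A1 ++ (B' ++ (b, R.sr i) :: C)) by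
      rw [hAe, List.append_assoc]) ⟨?_, ?_⟩ ?_,
    a, b, mn i π, ha0, hab.le, hb1, hmn, hπa, hbe, hmono, hbge, ?_⟩
  · refine (R.isChain_append _ _ _ _).2 ⟨hchA, (R.isChain_append _ _ _ _).2
      ⟨R.isChain_mono hcc ha0, ?_, ?_⟩, ?_⟩
    · rw [hce]
      refine ⟨R.cover_sr hdesc, hb0.le, hb1, ?_⟩
      simp only [huu]
      exact R.isChain_raise hchC hC
    · intro p hp q hq
      rcases List.mem_cons.1 hq with rfl | hq
      · exact (hB't p hp).2
      · exact (hB't p hp).2.trans (hC q hq)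
    · intro p hp q hq
      rcases List.mem_append.1 hq with hq | hq
      · exact (hAa p hp).trans (hB't q hq).1
      · rcases List.mem_cons.1 hq with rfl | hq
        · exact (hAa p hp).trans hab.le
        · exact (hAa p hp).trans (hab.le.trans (hC q hq))
  · rw [R.endp_append, R.endp_append, hce, R.endp_cons]
    simp only [huu]
    rw [R.endp_append, hu] at hend
    exact hend
  · refine (R.isLS_append _ _ _ _).2 ⟨hLSA, (R.isLS_append _ _ _ _).2 ⟨hcl hLSB, ?_⟩⟩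
    rw [hce]
    refine ⟨⟨zP1 - z - 1, ?_⟩, ?_⟩
    · simp only at hbe ⊢
      rw [R.cv_sr, huμ]
      push_cast
      rw [← hz, ← hzP1]
      linarith
    · simp only [huu]
      exact hLSC
  · intro t
    have hnew : R.path μ R.w0 (A ++ (B' ++ (b, R.sr i) :: C)) t =
        R.path μ u C t + (-(u • μ) i * min t b) • R.rt (R.sr i) +
          (R.corr μ k' B t - R.corr μ k' B t i • R.rt (R.sr i)) + R.corr μ R.w0 A t := by
      rw [R.path_append, R.path_append, hce, hcr, R.s_sr_smul]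
      simp only [path]
      rw [huu, R.cv_sr, huμ]
    have hτ : max a (min t b) ∈ Set.Icc a b :=
      ⟨le_max_left _ _, max_le hab.le (min_le_right _ _)⟩
    have hkey : π (max a (min t b)) i - mn i π =
        (u • μ) i * min t b + R.corr μ k' B t i + (k • μ) i * min t a := by
      rw [← hπa, hmid _ hτ, hmid a ⟨le_rfl, hab.le⟩, hpa]
      rcases le_total t a with hta | hta
      · have e1 := congrFun (R.path_eq_corr μ k' B t) i
        rw [R.path_of_le μ k' B (fun p hp => hta.trans (haB p hp))] at e1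
        simp only [Pi.add_apply, Pi.smul_apply, smul_eq_mul, hk'μ] at e1
        rw [min_eq_left (hta.trans hab.le), max_eq_left hta, min_eq_left hta, hpa]
        linarith
      · rcases le_total t b with htb | htb
        · rw [min_eq_left htb, max_eq_right hta, min_eq_right hta, R.path_eq_corr μ k' B t]
          simp only [Pi.add_apply, Pi.smul_apply, smul_eq_mul]
          linarith
        · rw [min_eq_right htb, max_eq_right hab.le, min_eq_right hta, R.path_eq_corr μ k' B b,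
            R.corr_of_ge μ k' B hBb, R.corr_of_ge μ k' B (fun p hp => (hBb p hp).trans htb)]
          simp only [Pi.add_apply, Pi.smul_apply, smul_eq_mul]
          linarith
    rw [hkey, hnew, hold t]
    module

/-- a path on top of its string has first direction below `s_i w` -/
theorem top_memW {μ : I → ℝ} (hμ : Dom μ) {π : ℝ → I → ℝ} (hW : π ∈ R.BW w μ) (i : I)
    (hw : (w • (rho : I → ℝ)) i < 0) (h0 : 0 ≤ mn i π) : π ∈ R.BW (R.s (R.sr i) * w) μ := by
  have hcont := R.continuous_of_mem_BB (R.bw_sub hW)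
  obtain ⟨l, ⟨hch, hend⟩, hls, hπ⟩ := R.bw_dest hW
  obtain ⟨A, l2, rfl, hA, hl2⟩ := R.split_le hch 0
  obtain ⟨hchA, hch2, -⟩ := (R.isChain_append _ _ _ _).1 hch
  have hA0 : ∀ p ∈ A, p.1 = 0 := fun p hp => le_antisymm (hA p hp) (R.isChain_mem hchA p hp).1
  have hls2 := ((R.isLS_append _ _ _ _).1 hls).2
  rw [R.endp_append] at hend
  have hu := R.le_endp hchA
  have hπ2 : ∀ t, π t = R.path μ (R.endp w A) l2 t + min t 0 • (R.w0 • μ - R.endp w A • μ) := by
    intro t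
    rw [hπ, R.path_append, R.corr_const μ _ A hA0]
    generalize R.w0 • μ = x
    generalize w • μ = y
    generalize R.endp w A • μ = z
    module
  generalize R.endp w A = u at hch2 hls2 hend hu hπ2
  by_cases hd : (u • (rho : I → ℝ)) i < 0
  swap
  · exact R.bw_mk (R.le_sr_mul_right hu (R.crystal_pos_of_not_neg hd)) ⟨hch2, hend⟩ hls2 hπ2
  obtain ⟨B, b, C, rfl, hB⟩ := R.first_change i hch2 hd (by rw [hend]; simp [rho])
  obtain ⟨hchB, ⟨-, hb0, hb1, hchC⟩, hBle⟩ := (R.isChain_append _ _ _ _).1 hch2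
  obtain ⟨hlsB, -, hlsC⟩ := (R.isLS_append _ _ _ _).1 hls2
  simp only at hb0 hb1 hchC hlsC
  have hBb : ∀ p ∈ B, p.1 ≤ b := fun p hp => hBle p hp (b, R.sr i) (by simp)
  have hCb : ∀ p ∈ C, b ≤ p.1 := fun p hp => (R.isChain_mem hchC p hp).1
  obtain ⟨c1, c2, c3, c4⟩ := R.conj_chain μ i hchB (fun x y hxy => ⟨fun _ => hd, fun _ => hB x y hxy⟩)
  have hz : ∀ t, 0 ≤ t → t ≤ b → R.path μ u B t i = 0 := fun t t0 tb => by
    have e1 : π t i = R.path μ u B t i := by
      rw [hπ2, min_eq_right t0, zero_smul, add_zero, R.path_append, R.path_of_le μ _ _ (fun p hp => by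
        rcases List.mem_cons.1 hp with rfl | hp
        · exact tb
        · exact tb.trans (hCb p hp)), ← R.path_eq_corr]
    have e2 := mn_le hcont i (t := t) ⟨t0, tb.trans hb1⟩
    have e3 := R.antitone_path hμ i hchB hB t0
    simp only [R.path_zero μ hchB, Pi.zero_apply] at e3
    linarith
  refine R.bw_mk (l := (B.map fun p => (p.1, R.s (R.sr i) • p.2)) ++ C)
    (R.le_sr_mul_of_neg hu hw hd) ⟨(R.isChain_append _ _ _ _).2 ⟨c1, ?_, ?_⟩, ?_⟩
    ((R.isLS_append _ _ _ _).2 ⟨c3 hlsB, c2 ▸ hlsC⟩) fun t => ?_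
  · rw [c2]
    exact R.isChain_mono hchC hb0
  · intro p hp q hq
    obtain ⟨r, hr, rfl⟩ := List.mem_map.1 hp
    exact (hBb r hr).trans (hCb q hq)
  · rw [R.endp_append, c2, ← hend, R.endp_append, endp_cons]
  · have e2 : R.path μ (R.endp u B) ((b, R.sr i) :: C) t =
        R.path μ (R.s (R.sr i) * R.endp u B) C t +
          (R.cv (R.sr i) (R.endp u B • μ) * min t b) • R.rt (R.sr i) := rfl
    have hy : (R.endp u B • μ) i * min t b + R.corr μ u B t i = min t 0 * (u • μ) i := by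
      have hpc : ∀ t, R.path μ u B t i = t * (R.endp u B • μ) i + R.corr μ u B t i := fun t => by
        rw [R.path_eq_corr]
        simp
      rcases le_total t 0 with h1 | h1
      · have := hpc t
        rw [R.path_of_le μ u B (fun p hp => h1.trans (R.isChain_mem hchB p hp).1)] at this
        simp only [Pi.smul_apply, smul_eq_mul] at this
        rw [min_eq_left h1, min_eq_left (h1.trans hb0)]
        linarith
      · rw [min_eq_right h1, zero_mul]
        rcases le_total t b with h2 | h2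
        · rw [min_eq_left h2, ← hz t h1 h2, hpc]
          ring
        · rw [min_eq_right h2, ← hz b hb0 le_rfl, hpc, R.corr_of_ge μ u B hBb,
            R.corr_of_ge μ u B (fun p hp => (hBb p hp).trans h2)]
          ring
    rw [hπ2, R.path_append, R.path_append, c2, c4, e2, R.cv_sr, R.s_sr_smul,
      mul_smul (R.s (R.sr i)) u μ, R.s_sr_smul i (u • μ), eq_sub_of_add_eq hy]
    generalize R.w0 • μ = x
    generalize u • μ = y
    module

theorem fRel_ge {i : I} {π π' : ℝ → I → ℝ} (hc : Continuous π) (h : R.FRel i π π') :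
    mn i π + 1 ≤ π 1 i := by
  obtain ⟨a, b, m, a0, ab, b1, -, h2, -, -, h5, -⟩ := h
  have := mn_le hc i (t := a) ⟨a0, ab.trans b1⟩
  linarith [h5 1 ⟨b1, le_rfl⟩]

theorem mn_nonpos {μ : I → ℝ} {π : ℝ → I → ℝ} (h : π ∈ R.BB μ) (i : I) : mn i π ≤ 0 := by
  have h1 := mn_le (R.continuous_of_mem_BB h) i (t := 0) ⟨le_rfl, zero_le_one⟩
  rwa [R.zero_of_mem_BB h, Pi.zero_apply] at h1

theorem f_closedW {μ : I → ℝ} (hμ : Dom μ) {π π' : ℝ → I → ℝ} (hW : π ∈ R.BW w μ) {i : I}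
    (h0 : (w • (rho : I → ℝ)) i < 0 ∨ mn i π < 0) (h : R.FRel i π π') : π' ∈ R.BW w μ := by
  obtain ⟨π2, h1, h2⟩ := R.f_existsW hμ hW i h0
    (R.fRel_ge (R.continuous_of_mem_BB (R.bw_sub hW)) h)
  rwa [R.fRel_right_unique h h2]

theorem e_closedW {μ : I → ℝ} (hμ : Dom μ) {π π' : ℝ → I → ℝ} (hW : π' ∈ R.BW w μ) {i : I}
    (hπ : π ∈ R.BB μ) (h : R.FRel i π π') : π ∈ R.BW w μ := by
  obtain ⟨π2, h1, h2⟩ := R.e_existsW hμ hW i
    (by rw [R.fRel_mn h]; linarith [R.mn_nonpos hπ i])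
  rwa [R.fRel_left_unique h h2]

open Classical in
/-- the finite set of LS paths with first direction below `w` -/
noncomputable def SW (w : W) (μ : I → ℝ) : Finset (ℝ → I → ℝ) :=
  (R.finite_BB μ).toFinset.filter (· ∈ R.BW w μ)

theorem mem_SW {μ : I → ℝ} {π : ℝ → I → ℝ} : π ∈ R.SW w μ ↔ π ∈ R.BW w μ := by
  classical
  unfold SW
  rw [Finset.mem_filter, Set.Finite.mem_toFinset]
  exact ⟨fun h => h.2, fun h => ⟨R.bw_sub h, h⟩⟩

theorem sw_desc {μ : I → ℝ} (hμ : Dom μ) (hi : IntV μ) {G : Type*} [AddCommMonoid G] {i : I}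
    (hw : (w • (rho : I → ℝ)) i < 0) (g : (I → ℝ) → G) :
    ∑ π ∈ R.SW w μ, g (R.s (R.sr i) • π 1) = ∑ π ∈ R.SW w μ, g (π 1) := by
  rw [R.brauer_str hμ hi i 0 le_rfl ⟨0, by simp⟩ (R.SW w μ)
    (fun π hπ => R.bw_sub (R.mem_SW.1 hπ))
    (fun π hπ => by linarith [R.mn_nonpos (R.bw_sub (R.mem_SW.1 hπ)) i])
    (fun π hπ π' _ h => R.mem_SW.2 (R.f_closedW hμ (R.mem_SW.1 hπ) (Or.inl hw) h))
    (fun π' hπ π h1 h _ => R.mem_SW.2 (R.e_closedW hμ (R.mem_SW.1 hπ) h1 h)) g]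
  refine Finset.sum_congr rfl fun π _ => ?_
  rw [R.s_sr_smul, add_zero]

/-- the string property, at the level of characters -/
theorem sw_asc {μ : I → ℝ} (hμ : Dom μ) (hi : IntV μ) {G : Type*} [AddCommGroup G] {i : I}
    (hw : (w • (rho : I → ℝ)) i < 0) (g : (I → ℝ) → G) :
    ∑ π ∈ R.SW w μ, (g (π 1) - g (R.s (R.sr i) • π 1 - R.rt (R.sr i))) =
      ∑ π ∈ R.SW (R.s (R.sr i) * w) μ, (g (π 1) - g (R.s (R.sr i) • π 1 - R.rt (R.sr i))) := by
  classical
  have hsub : R.SW (R.s (R.sr i) * w) μ ⊆ R.SW w μ := fun π hπ =>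
    R.mem_SW.2 (R.bw_mono (R.bruhat_le_of_neg hw) (R.mem_SW.1 hπ))
  rw [← Finset.sum_sdiff hsub, add_eq_right, Finset.sum_sub_distrib, sub_eq_zero]
  have hm : ∀ π, π ∈ R.SW w μ \ R.SW (R.s (R.sr i) * w) μ ↔
      π ∈ R.BW w μ ∧ π ∉ R.BW (R.s (R.sr i) * w) μ := fun π => by
    rw [Finset.mem_sdiff, R.mem_SW, R.mem_SW]
  rw [R.brauer_str hμ hi i 1 zero_le_one ⟨1, by simp⟩ _
    (fun π hπ => R.bw_sub ((hm π).1 hπ).1)
    (fun π hπ => by
      obtain ⟨h1, h2⟩ := (hm π).1 hπ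
      obtain ⟨z, hz⟩ := R.mn_int hμ (R.bw_sub h1) i
      have h3 : (z : ℝ) < 0 := hz ▸ not_le.1 fun h => h2 (R.top_memW hμ h1 i hw h)
      have h4 : z ≤ -1 := by
        have : z < 0 := by exact_mod_cast h3
        omega
      have h5 : (z : ℝ) ≤ -1 := by exact_mod_cast h4
      linarith)
    (fun π hπ π' _ h => by
      obtain ⟨h1, h2⟩ := (hm π).1 hπ
      exact (hm π').2 ⟨R.f_closedW hμ h1 (Or.inl hw) h,
        fun h3 => h2 (R.e_closedW hμ h3 (R.bw_sub h1) h)⟩)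
    (fun π' hπ π h0 h hm' => by
      obtain ⟨h1, h2⟩ := (hm π').1 hπ
      exact (hm π).2 ⟨R.e_closedW hμ h1 h0 h, fun h3 => h2 (R.f_closedW hμ h3
        (Or.inr (by linarith [R.fRel_mn h])) h)⟩) g]
  refine Finset.sum_congr rfl fun π _ => ?_
  rw [R.s_sr_smul, add_smul, one_smul, sub_sub]

theorem sw_one {μ : I → ℝ} {G : Type*} [AddCommMonoid G] (g : (I → ℝ) → G) :
    ∑ π ∈ R.SW 1 μ, g (π 1) = g μ := by
  have e : R.SW 1 μ = {fun t => t • μ + min t 0 • (R.w0 • μ - μ)} := by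
    ext π
    rw [R.mem_SW, Finset.mem_singleton]
    constructor
    · intro h
      obtain ⟨l, h1, -, h3⟩ := R.bw_dest h
      have h4 := R.isChain_length h1.1
      rw [h1.2] at h4
      obtain rfl : l = [] := List.length_eq_zero_iff.1 (by omega)
      funext t
      rw [h3, path, one_smul]
    · rintro rfl
      exact R.bw_mk (R.le_refl' 1) (l := []) ⟨trivial, rfl⟩ trivial fun t => by
        rw [path, one_smul]
  rw [e, Finset.sum_singleton]
  simp

open Classical in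
theorem sum_nondomW {lam μ : I → ℝ} (hl : Dom lam) (hli : IntV lam) (hμ : Dom μ) (hi : IntV μ) :
    ∑ π ∈ (R.SW w μ).filter
      (fun π => ¬ ∀ t ∈ Set.Icc (0:ℝ) 1, Dom (lam + π t)), R.AA (lam + rho + π 1) = 0 := by
  set N := (R.SW w μ).filter
    (fun π => ¬ ∀ t ∈ Set.Icc (0:ℝ) 1, Dom (lam + π t)) with hN
  have hmem : ∀ π, π ∈ N ↔ π ∈ R.BW w μ ∧ ¬ ∀ t ∈ Set.Icc (0:ℝ) 1, Dom (lam + π t) := by
    intro π
    rw [hN, Finset.mem_filter, R.mem_SW]
  have hleast : ∀ π ∈ N, IsLeast (brauerT lam π) (sInf (brauerT lam π)) := by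
    intro π hπ
    obtain ⟨h1, h2⟩ := (hmem π).1 hπ
    exact brauerT_least (R.continuous_of_mem_BB (R.bw_sub h1))
      (R.brauerT_nonempty hli hμ (R.bw_sub h1) h2)
  rw [← Finset.sum_fiberwise N (brauerK lam)]
  refine Finset.sum_eq_zero fun o _ => ?_
  cases o with
  | none =>
    refine Finset.sum_eq_zero fun π hπ => ?_
    rw [Finset.mem_filter] at hπ
    exact absurd hπ.2 (brauerCh_ne (hleast π hπ.1).1.2)
  | some i =>
    set X := N.filter (fun π => brauerK lam π = some i) with hX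
    have hXm : ∀ π, π ∈ X ↔ π ∈ N ∧ brauerK lam π = some i := fun π => by
      rw [hX, Finset.mem_filter]
    have hB' : ∀ π ∈ X, π ∈ R.BW w μ := fun π hπ => ((hmem π).1 ((hXm π).1 hπ).1).1
    have hB : ∀ π ∈ X, π ∈ R.BB μ := fun π hπ => R.bw_sub (hB' π hπ)
    have hc : ∀ π ∈ X, lam i + 1 ≤ -mn i π := by
      intro π hπ
      obtain ⟨h1, h2⟩ := (hXm π).1 hπ
      have h3 := brauerCh_spec h2
      have h4 := mn_le (R.continuous_of_mem_BB (hB π hπ)) i (hleast π h1).1.1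
      linarith
    have key := R.brauer_str hμ hi i (lam i + 1) (by linarith [hl i])
      (by
        obtain ⟨z, hz⟩ := hli i
        exact ⟨z + 1, by rw [hz]; push_cast; ring⟩) X hB hc
      (fun π hπ π' h' hF => by
        obtain ⟨h1, h2⟩ := (hXm π).1 hπ
        obtain ⟨s, hs, he⟩ := exists_eq_mn (R.continuous_of_mem_BB (hB π hπ)) i
        have h3 : s ∈ brauerT lam π := ⟨hs, i, by rw [he]; linarith [hc π hπ]⟩
        have h4 := brauerK_congr (π' := π') (hleast π h1)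
          fun t _ ht => R.fRel_pre1 hF (ht.trans ((hleast π h1).2 h3)) hs he
        exact (hXm π').2 ⟨(hmem π').2 ⟨R.f_closedW hμ (hB' π hπ)
          (Or.inr (by linarith [hc π hπ, hl i])) hF, h4.2⟩, h4.1.trans h2⟩)
      (fun π' hπ π h' hF hm => by
        obtain ⟨h1, h2⟩ := (hXm π').1 hπ
        have h3 := R.fRel_mn hF
        have h4 := brauerK_congr (π' := π) (hleast π' h1) fun t _ ht =>
          (R.fRel_pre2 hF (ht.trans (hleast π' h1).1.1.2) fun s hs => by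
            have h5 := brauerT_before hl (R.continuous_of_mem_BB (hB π' hπ))
              (R.zero_of_mem_BB (hB π' hπ)) (hleast π' h1) i ⟨hs.1, hs.2.trans ht⟩
            linarith).symm
        exact (hXm π).2 ⟨(hmem π).2 ⟨R.e_closedW hμ (hB' π' hπ) h' hF, h4.2⟩, h4.1.trans h2⟩)
      (fun x => R.AA (lam + rho + x))
    have h2 : ∑ π ∈ X, R.AA (lam + rho + (π 1 - (π 1 i + (lam i + 1)) • R.rt (R.sr i))) =
        -∑ π ∈ X, R.AA (lam + rho + π 1) := by
      rw [← Finset.sum_neg_distrib]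
      refine Finset.sum_congr rfl fun π _ => ?_
      rw [← R.AA_s_sr i, R.s_sr_smul]
      congr 1
      have h3 : (lam + rho + π 1 : I → ℝ) i = π 1 i + (lam i + 1) := by
        simp only [Pi.add_apply, rho]
        ring
      rw [h3, add_sub_assoc]
    have h3 : ∑ π ∈ X, R.AA (lam + rho + π 1) + ∑ π ∈ X, R.AA (lam + rho + π 1) = 0 :=
      eq_neg_iff_add_eq_zero.1 (key.trans h2)
    have h4 : ∑ π ∈ X, R.AA (lam + rho + π 1) = (1 / 2 : ℂ) •
        (∑ π ∈ X, R.AA (lam + rho + π 1) + ∑ π ∈ X, R.AA (lam + rho + π 1)) := by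
      rw [← two_smul ℂ, smul_smul]
      norm_num
    rw [h4, h3, smul_zero]

end RD

end Pool.Agent.Lib.MP_1e3767_al
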