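import Pool.Agent.Lib.MP_1e3767_al.H27Chr

set_option linter.unusedSectionVars false

namespace Pool.Agent.Lib.MP_1e3767_al

open Finset

namespace RD
variable {I ι W : Type*} [Fintype I] [DecidableEq I] [Fintype ι] [Group W] [Fintype W]
  [DistribMulAction W (I → ℝ)] [SMulCommClass W ℝ (I → ℝ)] [MulAction W ι] (R : RD I ι W)

open Classical in
/-- the `lam`-dominant LS paths with first direction below `w` -/
noncomputable def SD (w : W) (lam μ : I → ℝ) : Finset (ℝ → I → ℝ) :=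
  (R.SW w μ).filter fun π => ∀ t ∈ Set.Icc (0:ℝ) 1, Dom (lam + π t)

theorem mem_SD {w : W} {lam μ : I → ℝ} {π : ℝ → I → ℝ} :
    π ∈ R.SD w lam μ ↔ π ∈ R.BW w μ ∧ ∀ t ∈ Set.Icc (0:ℝ) 1, Dom (lam + π t) := by
  classical
  unfold SD
  rw [mem_filter, R.mem_SW]

theorem full_demW {l : List I} (h : ∀ i, i ∈ l) : R.Full (R.demW l) := by
  have key : ∀ l : List I, ∀ i ∈ l,
      R.rt (R.sr i) ∈ Submodule.span ℝ (R.rt '' {γ | R.Step (R.demW l) γ}) := fun l => by
    induction l with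
    | nil => simp
    | cons j l ih =>
      have e : R.demW (j :: l) = R.bruhatUp j (R.demW l) := rfl
      have h1 : R.rt (R.sr j) ∈ Submodule.span ℝ (R.rt '' {γ | R.Step (R.demW (j :: l)) γ}) := by
        refine Submodule.subset_span ⟨_, ⟨R.sr_pos j, ?_⟩, rfl⟩
        rw [R.cv_sr, e, bruhatUp]
        split_ifs with h
        · exact h
        · rw [R.sr_mul_rho]
          linarith [R.crystal_pos_of_not_neg h]
      intro i hi
      rcases List.mem_cons.1 hi with rfl | hi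
      · exact h1
      refine Submodule.span_le.2 ?_ (ih i hi)
      rintro _ ⟨γ, hγ, rfl⟩
      by_cases h : (R.demW l • (rho : I → ℝ)) j < 0
      · exact Submodule.subset_span ⟨γ, by rwa [e, bruhatUp, if_pos h], rfl⟩
      · have h2 : γ ≠ R.sr j := fun h3 => h (by have := hγ.2; rwa [h3, R.cv_sr] at this)
        have h3 : R.rt (R.s (R.sr j) • γ) ∈
            Submodule.span ℝ (R.rt '' {γ | R.Step (R.demW (j :: l)) γ}) :=
          Submodule.subset_span ⟨_, by rw [e, bruhatUp, if_neg h]; exact R.step_sr_mul hγ h2, rfl⟩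
        rw [R.rt_s_smul] at h3
        exact (Submodule.sub_mem_iff_left _ (Submodule.smul_mem _ _ h1)).1 h3
  rw [Full, eq_top_iff, ← R.span_sr, Submodule.span_le]
  rintro _ ⟨i, rfl⟩
  exact key l i (h i)

variable {C : Matrix I I ℤ} (hC : ∀ i j, (C i j : ℝ) = R.rt (R.sr i) j)
include hC

theorem exp_iff {l0 : List I} (h0 : R.demW l0 = R.w0) (l : List I) {lam μ : I → ℤ}
    (hl : ∀ i, 0 ≤ lam i) (hμ : ∀ i, 0 ≤ μ i) (c : (I → ℤ) →₀ ℤ) :
    demWord C l0 (eWt lam * demWord C l (eWt μ)) = (c.sum fun κ n => n • demWord C l0 (eWt κ)) ↔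
      ∑ π ∈ R.SD (R.demW l) (cz lam) (cz μ), R.AA (rho + (cz lam + π 1)) =
        c.sum fun κ n => n • R.AA (rho + cz κ) := by
  classical
  have h2 : R.AA (rho : I → ℝ) ≠ 0 := R.AA_ne_zero fun _ => zero_lt_one
  have e1 : R.AA rho * emb (demWord C l0 (eWt lam * demWord C l (eWt μ))) =
      ∑ π ∈ R.SD (R.demW l) (cz lam) (cz μ), R.AA (rho + (cz lam + π 1)) := by
    rw [R.dem_w0 hC h0, map_mul emb, emb_eWt, R.dem_chr hC hμ, mul_sum, mul_sum, map_sum]
    simp only [← ex_add, alt_ex, ← add_assoc, add_comm rho (cz lam)]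
    rw [← sum_filter_add_sum_filter_not _
      (fun π : ℝ → I → ℝ => ∀ t ∈ Set.Icc (0:ℝ) 1, Dom (cz lam + π t)),
      R.sum_nondomW (cz_dom hl) (cz_int lam) (cz_dom hμ) (cz_int μ), add_zero]
    rfl
  have e2 : R.AA rho * emb (c.sum fun κ n => n • demWord C l0 (eWt κ)) =
      c.sum fun κ n => n • R.AA (rho + cz κ) := by
    rw [Finsupp.sum, Finsupp.sum, map_sum, mul_sum]
    exact sum_congr rfl fun κ _ => by
      rw [map_zsmul, mul_smul_comm, R.dem_w0 hC h0, emb_eWt, ← ex_add, alt_ex]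
  rw [← e1, ← e2, mul_right_inj' h2, emb_inj.eq_iff]

open Classical in
theorem exp_val {l0 : List I} (h0 : R.demW l0 = R.w0) {l : List I} {lam μ : I → ℤ}
    (hl : ∀ i, 0 ≤ lam i) (hμ : ∀ i, 0 ≤ μ i) {c : (I → ℤ) →₀ ℤ}
    (hc : IsExpansion C l0 l lam μ c) {ν : I → ℤ} (hν : ∀ i, 0 ≤ ν i) :
    c ν = ((R.SD (R.demW l) (cz lam) (cz μ)).filter fun π => cz lam + π 1 = cz ν).card := by
  have hr : ∀ v : I → ℝ, Dom v → Reg (rho + v) := fun v hv i => by
    have := hv i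
    simp only [Pi.add_apply, rho]
    linarith
  have hx : Dom (rho + cz ν) := fun i => (hr _ (cz_dom hν) i).le
  have h1 := congrArg (fun X : GR I => X.coeff (rho + cz ν)) ((R.exp_iff hC h0 l hl hμ c).1 hc.2)
  simp only [Finsupp.sum, AddMonoidAlgebra.coeff_sum, Finsupp.finsetSum_apply,
    AddMonoidAlgebra.coeff_smul_apply] at h1
  rw [sum_congr rfl fun π hπ => R.coeff_AA_dom
      (hr _ ((R.mem_SD.1 hπ).2 1 ⟨zero_le_one, le_rfl⟩)) hx,
    sum_congr (s₁ := c.support) rfl fun κ hκ => congrArg (c κ • ·)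
      (R.coeff_AA_dom (hr _ (cz_dom (hc.1 κ hκ))) hx)] at h1
  simp only [add_right_inj, cz_inj.eq_iff, sum_boole, smul_ite, smul_zero, sum_ite_eq',
    Finsupp.mem_support_iff, zsmul_eq_mul, mul_one] at h1
  have h2 : (c ν : ℂ) = if c ν ≠ 0 then (c ν : ℂ) else 0 := by
    split_ifs with h
    · rfl
    · rw [not_not.1 h, Int.cast_zero]
  exact_mod_cast h2.trans h1.symm

theorem exp_exists {l0 : List I} (h0 : R.demW l0 = R.w0) (l : List I) {lam μ : I → ℤ}
    (hl : ∀ i, 0 ≤ lam i) (hμ : ∀ i, 0 ≤ μ i) :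
    ∃ c, IsExpansion C l0 l lam μ c ∧ ∀ c', IsExpansion C l0 l lam μ c' → c' = c := by
  classical
  have hz : ∀ π ∈ R.SD (R.demW l) (cz lam) (cz μ), ∃ z, cz z = cz lam + π 1 := fun π hπ => by
    obtain ⟨z, hz⟩ := exists_cz (R.intV_end (cz_int μ) (R.bw_sub (R.mem_SD.1 hπ).1))
    exact ⟨lam + z, by rw [map_add, hz]⟩
  choose! z hz using hz
  have hc : IsExpansion C l0 l lam μ
      (∑ π ∈ R.SD (R.demW l) (cz lam) (cz μ), Finsupp.single (z π) 1) := by
    refine ⟨fun κ hκ i => ?_, (R.exp_iff hC h0 l hl hμ _).2 ?_⟩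
    · obtain ⟨π, hπ, h⟩ := Finsupp.mem_support_finsetSum κ hκ
      obtain rfl := mem_singleton.1 (Finsupp.support_single_subset h)
      have := (R.mem_SD.1 hπ).2 1 ⟨zero_le_one, le_rfl⟩ i
      rw [← hz π hπ, cz_apply] at this
      exact_mod_cast this
    · rw [← Finsupp.sum_finsetSum_index (by simp) fun _ _ _ => add_smul _ _ _]
      exact sum_congr rfl fun π hπ => by rw [Finsupp.sum_single_index (by simp), one_smul, hz π hπ]
  refine ⟨_, hc, fun c' hc' => Finsupp.ext fun ν => ?_⟩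
  by_cases hν : ∀ i, 0 ≤ ν i
  · rw [R.exp_val hC h0 hl hμ hc hν, R.exp_val hC h0 hl hμ hc' hν]
  · rw [Finsupp.notMem_support_iff.1 fun h => hν (hc.1 ν h),
      Finsupp.notMem_support_iff.1 fun h => hν (hc'.1 ν h)]

theorem exp_shift (l0 l m : List I) (lam : I → ℤ) {ξ μ : I → ℤ} (h1 : ∀ i ∈ l, ξ i = 0)
    (h2 : ∀ i ∈ m, μ i = 0) (c : (I → ℤ) →₀ ℤ) :
    IsExpansion C l0 l lam (ξ + μ) c ↔ IsExpansion C l0 (l ++ m) (lam + ξ) μ c := by
  have e1 : demWord C m (eWt μ) = eWt μ := by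
    induction m with
    | nil => rfl
    | cons i m ih =>
      exact (congrArg (demOp C i) (ih fun j hj => h2 j (List.mem_cons_of_mem _ hj))).trans
        (demOp_fix C i (h2 i List.mem_cons_self))
  have e2 : demWord C (l ++ m) (eWt μ) = demWord C l (eWt μ) := by
    rw [demWord, List.foldr_append]
    exact congrArg (demWord C l) e1
  rw [IsExpansion, IsExpansion, e2, eWt_add, eWt_add, mul_assoc, R.dem_mul hC l fun i hi => by
    rw [emb_eWt, sg_ex, R.s_sr_smul, cz_apply, h1 i hi, Int.cast_zero, zero_smul, sub_zero]]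

theorem refined [Nonempty I] (hc : R.Conn) {l0 : List I}
    (h0 : l0.foldr (sRefl C) (fun _ => 1) = fun _ => -1) (l : List I) {lam μ ν : I → ℤ}
    (hl : ∀ i, 0 ≤ lam i) (hμ : ∀ i, 0 ≤ μ i) {q : I → ℤ} (hq : lam + μ - ν = ∑ i, q i • C i)
    {N : ℕ} (hN : 0 < N) {c : (I → ℤ) →₀ ℤ} (hexp : IsExpansion C l0 l (N • lam) (N • μ) c)
    (hne : c (N • ν) ≠ 0) :
    ∃ (θ : ι) (i : I) (d : ℕ), 0 < d ∧ R.cf θ i = d ∧ ∀ k : ℕ, d ∣ k →
      ∃ c', IsExpansion C l0 l (k • lam) (k • μ) c' ∧ 0 < c' (k • ν) ∧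
        ∀ c'', IsExpansion C l0 l (k • lam) (k • μ) c'' → c'' = c' := by
  classical
  replace h0 := R.demW_w0 hC h0
  have sm : ∀ (n : ℕ) (x : I → ℤ), (∀ i, 0 ≤ x i) → ∀ i, 0 ≤ (n • x) i := fun n x hx i =>
    nsmul_nonneg (hx i) n
  have hν : ∀ i, 0 ≤ ν i := fun i =>
    (nsmul_nonneg_iff hN.ne').1 (hexp.1 _ (Finsupp.mem_support_iff.2 hne) i)
  let ξ : I → ℤ := fun i => if i ∈ l then 0 else μ i
  let μ' : I → ℤ := fun i => if i ∈ l then μ i else 0
  let m : List I := (univ.filter (· ∉ l)).toList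
  have e : μ = ξ + μ' := funext fun i => by
    simp only [ξ, μ', Pi.add_apply]
    split_ifs <;> simp
  have hμ' : ∀ i, 0 ≤ μ' i := fun i => by
    simp only [μ']
    split_ifs
    exacts [hμ i, le_rfl]
  have hl' : ∀ i, 0 ≤ (lam + ξ) i := fun i => by
    have := hl i
    have := hμ i
    simp only [ξ, Pi.add_apply]
    split_ifs <;> omega
  have sh : ∀ (n : ℕ) c, IsExpansion C l0 l (n • lam) (n • μ) c ↔
      IsExpansion C l0 (l ++ m) (n • (lam + ξ)) (n • μ') c := fun n c => by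
    rw [e, smul_add, smul_add]
    refine R.exp_shift hC l0 l m _ (fun i hi => ?_) (fun i hi => ?_) c
    · simp [ξ, hi]
    · have : i ∉ l := by simpa [m] using hi
      simp [μ', this]
  have hfull : R.Full (R.demW (l ++ m)) := R.full_demW fun i => by
    by_cases h : i ∈ l <;> simp [m, h]
  have hQ : R.InQ (cz (lam + ξ) + cz μ' - cz ν) := by
    refine ⟨q, ?_⟩
    rw [← map_add, ← map_sub, add_assoc, ← e, hq, map_sum]
    exact sum_congr rfl fun i _ => funext fun j => by simp [cz_apply, hC]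
  rw [R.exp_val hC h0 (sm _ _ hl') (sm _ _ hμ') ((sh N c).1 hexp) (sm _ _ hν), Nat.cast_ne_zero,
    card_ne_zero] at hne
  obtain ⟨π, hπ⟩ := hne
  obtain ⟨hπ, he⟩ := mem_filter.1 hπ
  obtain ⟨hπ, hd⟩ := R.mem_SD.1 hπ
  obtain ⟨L, L1, -, L3⟩ := R.bw_dest hπ
  simp only [cz_nsmul] at he hd L3
  obtain ⟨θ, i, d, hd0, hθ, hall⟩ := R.sat_markW hc hfull (cz_dom hμ') (cz_int (lam + ξ))
    (cz_int μ') hQ hN (l := L) ⟨L1, fun t ht => by
      have := hd t ht
      rwa [L3, min_eq_right ht.1, zero_smul, add_zero] at this, by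
      rwa [L3, min_eq_right zero_le_one, zero_smul, add_zero] at he⟩
  refine ⟨θ, i, d, hd0, hθ, fun k hk => ?_⟩
  obtain ⟨L', ⟨M1, M2, M3⟩, M4⟩ := hall k hk
  obtain ⟨c', hc', hu⟩ := R.exp_exists hC h0 l (sm k _ hl) (sm k _ hμ)
  refine ⟨c', hc', ?_, hu⟩
  rw [R.exp_val hC h0 (sm _ _ hl') (sm _ _ hμ') ((sh k c').1 hc') (sm _ _ hν), Nat.cast_pos,
    card_pos]
  simp only [cz_nsmul]
  refine ⟨_, mem_filter.2 ⟨R.mem_SD.2 ⟨R.bw_mk (R.le_refl' _) M1 M4 fun _ => rfl,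
    fun t ht => ?_⟩, ?_⟩⟩
  · simp only [min_eq_right ht.1, zero_smul, add_zero]
    exact M2 t ht
  · simp only [min_eq_right (zero_le_one' ℝ), zero_smul, add_zero]
    exact M3

end RD

end Pool.Agent.Lib.MP_1e3767_al
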