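import Pool.Agent.Lib.MP_1e3767_al.RdEq
import Pool.Agent.Lib.MP_1e3767_al.Alcove
import Pool.Agent.Lib.MP_1e3767_al.Path

set_option linter.unusedSectionVars false

namespace Pool.Agent.Lib.MP_1e3767_al

open Finset

namespace RD
variable {I ι W : Type*} [Fintype I] [DecidableEq I] [Fintype ι] [Group W] [Fintype W]
  [DistribMulAction W (I → ℝ)] [SMulCommClass W ℝ (I → ℝ)] [MulAction W ι] (R : RD I ι W)

/-- coefficients and unfolded labels of the internal folds -/
noncomputable def integralLc (μ : I → ℝ) : W → W → List ((ℝ × ι) × Fin 4) → List (ℝ × ι)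
  | _, _, [] => []
  | u, x, q :: l =>
      if q.2 = 0 then (R.cv q.1.2 (u • μ) * q.1.1, x • q.1.2) :: integralLc μ (R.s q.1.2 * u) x l
      else if q.2 = 1 then integralLc μ (R.s q.1.2 * u) (x * R.s q.1.2) l
      else integralLc μ (R.s q.1.2 * u) x l

theorem integral_labels (μ : I → ℝ) (l : List ((ℝ × ι) × Fin 4)) : ∀ u x : W,
    R.labels x (l.map (fun q => (q.1.2, q.2))) = (R.integralLc μ u x l).map Prod.snd := by
  induction l with
  | nil => intro u x; rfl
  | cons q l ih =>
    intro u x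
    simp only [List.map_cons, labels, integralLc]
    by_cases h0 : q.2 = 0
    · rw [if_pos h0, if_pos h0, List.map_cons, ih (R.s q.1.2 * u) x]
    · rw [if_neg h0, if_neg h0]
      by_cases h1 : q.2 = 1
      · rw [if_pos h1, if_pos h1, ih (R.s q.1.2 * u) _]
      · rw [if_neg h1, if_neg h1, ih (R.s q.1.2 * u) _]

theorem integral_tag {t : Fin 4} (h0 : t ≠ 0) (h1 : t ≠ 1) : t = 2 ∨ t = 3 := by
  revert t; decide

theorem integral_intV_add {a b : I → ℝ} (ha : IntV a) (hb : IntV b) : IntV (a + b) := by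
  intro i
  obtain ⟨y, hy⟩ := ha i
  obtain ⟨z, hz⟩ := hb i
  exact ⟨y + z, by simp [hy, hz]⟩

theorem integral_intV_zsmul {a : I → ℝ} (ha : IntV a) (z : ℤ) : IntV ((z : ℝ) • a) := by
  intro i
  obtain ⟨y, hy⟩ := ha i
  exact ⟨z * y, by simp [hy]⟩

/-- the unfolded end point, modulo the root lattice -/
theorem integral_unfold {μ : I → ℝ} (hμ : IntV μ) (l : List ((ℝ × ι) × Fin 4)) :
    ∀ (u x : W) (P : I → ℝ), R.Tagged μ u P l → ∃ y : W,
      R.InQ (y • (P + R.icpt μ u (l.map Prod.fst)) - x • P -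
        ((R.integralLc μ u x l).map (fun p => p.1 • R.rt p.2)).sum) := by
  induction l with
  | nil =>
    intro u x P _
    refine ⟨x, ?_⟩
    simp only [List.map_nil, icpt, integralLc, List.sum_nil, add_zero, sub_self]
    exact R.inQ_zero
  | cons q l ih =>
    intro u x P h
    obtain ⟨t1, t2, t3, ht⟩ := h
    have hP : P + R.icpt μ u ((q :: l).map Prod.fst) =
        (P + (R.cv q.1.2 (u • μ) * q.1.1) • R.rt q.1.2) +
          R.icpt μ (R.s q.1.2 * u) (l.map Prod.fst) := by
      simp only [List.map_cons, icpt]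
      abel
    have hx : x • (P + (R.cv q.1.2 (u • μ) * q.1.1) • R.rt q.1.2) =
        x • P + (R.cv q.1.2 (u • μ) * q.1.1) • R.rt (x • q.1.2) := by
      rw [smul_add, smul_comm x, R.smul_rt]
    rw [hP]
    by_cases h0 : q.2 = 0
    · obtain ⟨y, hy⟩ := ih _ x _ ht
      refine ⟨y, ?_⟩
      rw [hx] at hy
      simp only [integralLc, if_pos h0, List.map_cons, List.sum_cons]
      rw [← sub_sub]
      rw [← sub_sub] at hy
      exact hy
    · by_cases h1 : q.2 = 1
      · obtain ⟨y, hy⟩ := ih _ (x * R.s q.1.2) _ ht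
        refine ⟨y, ?_⟩
        have hc : R.cv q.1.2 (u • μ) * q.1.1 = -R.cv q.1.2 P := by
          have := t1 h1
          linarith
        have hs : P + (R.cv q.1.2 (u • μ) * q.1.1) • R.rt q.1.2 = R.s q.1.2 • P := by
          rw [hc, R.s_smul', neg_smul, sub_eq_add_neg]
        have hz : (x * R.s q.1.2) • (P + (R.cv q.1.2 (u • μ) * q.1.1) • R.rt q.1.2) = x • P := by
          rw [hs, smul_smul, mul_assoc, R.s_mul_s, mul_one]
        rw [hz] at hy
        simp only [integralLc, if_neg h0, if_pos h1]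
        exact hy
      · obtain ⟨y, hy⟩ := ih _ x _ ht
        refine ⟨y, ?_⟩
        rw [hx] at hy
        simp only [integralLc, if_neg h0, if_neg h1]
        have hi : ∃ z : ℤ, R.cv q.1.2 (u • μ) * q.1.1 = z := by
          rcases integral_tag h0 h1 with h2 | h3
          · exact ⟨0, by rw [t2 h2]; simp⟩
          · obtain ⟨z, hz⟩ := R.cv_int q.1.2 (R.intV_smul hμ u)
            exact ⟨z, by rw [t3 h3, hz, mul_one]⟩
        obtain ⟨z, hz⟩ := hi
        have hq := R.inQ_add hy (R.inQ_zsmul (R.inQ_rt (x • q.1.2)) z)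
        rw [← hz] at hq
        have he : ∀ A B C D : I → ℝ, A - (B + C) - D + C = A - B - D := by
          intro A B C D
          abel
        rw [he] at hq
        exact hq

theorem integral_coeff {k : ℕ} (hk : R.KDiv k) (M : List (ℝ × ι))
    (hM : R.IsBas (M.map Prod.snd)) (hq : R.InQ ((M.map (fun p => p.1 • R.rt p.2)).sum)) :
    ∀ p ∈ M, ∃ z : ℤ, k * p.1 = z := by
  have hlen : (M.map Prod.snd).length = M.length := List.length_map _
  have hsum : ∑ j : Fin (M.map Prod.snd).length,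
      (M[j.1]'(hlen ▸ j.2)).1 • R.rt ((M.map Prod.snd).get j) =
      (M.map (fun p => p.1 • R.rt p.2)).sum := by
    rw [← Fin.sum_univ_fun_getElem M (fun p => p.1 • R.rt p.2)]
    refine Fintype.sum_equiv (finCongr hlen) _ _ ?_
    intro j
    simp
  intro p hp
  obtain ⟨j, hj, rfl⟩ := List.getElem_of_mem hp
  exact R.coeff_int_of_isBas hk hM (fun j => (M[j.1]'(hlen ▸ j.2)).1) (hsum ▸ hq) ⟨j, hlen ▸ hj⟩

theorem integral_isLS {k : ℕ} {μ : I → ℝ} (hμ : IntV μ) (l : List ((ℝ × ι) × Fin 4)) :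
    ∀ (u x : W) (P : I → ℝ), R.Tagged μ u P l → IntV ((k : ℝ) • P) →
      (∀ p ∈ R.integralLc μ u x l, ∃ z : ℤ, k * p.1 = z) →
      R.IsLS ((k : ℝ) • μ) u (l.map Prod.fst) := by
  induction l with
  | nil => intro u x P _ _ _; trivial
  | cons q l ih =>
    intro u x P h hP hc
    obtain ⟨t1, t2, t3, ht⟩ := h
    have hi : ∃ z : ℤ, (k : ℝ) * (R.cv q.1.2 (u • μ) * q.1.1) = z := by
      by_cases h0 : q.2 = 0
      · refine hc (R.cv q.1.2 (u • μ) * q.1.1, x • q.1.2) ?_
        simp only [integralLc, if_pos h0]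
        exact List.mem_cons_self
      · by_cases h1 : q.2 = 1
        · obtain ⟨z, hz⟩ := R.cv_int q.1.2 hP
          rw [map_smul, smul_eq_mul] at hz
          refine ⟨-z, ?_⟩
          have h2 : R.cv q.1.2 (u • μ) * q.1.1 = -R.cv q.1.2 P := by
            have := t1 h1
            linarith
          rw [h2, Int.cast_neg, ← hz]
          ring
        · rcases integral_tag h0 h1 with h2 | h3
          · exact ⟨0, by rw [t2 h2]; simp⟩
          · obtain ⟨z, hz⟩ := R.cv_int q.1.2 (R.intV_smul hμ u)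
            exact ⟨k * z, by rw [t3 h3, hz]; simp⟩
    obtain ⟨z, hz⟩ := hi
    have hP' : IntV ((k : ℝ) • (P + (R.cv q.1.2 (u • μ) * q.1.1) • R.rt q.1.2)) := by
      rw [smul_add, smul_smul, hz]
      exact integral_intV_add hP (integral_intV_zsmul (R.intV_rt _) z)
    refine ⟨⟨z, ?_⟩, ?_⟩
    · rw [smul_comm u, map_smul, smul_eq_mul, mul_assoc, hz]
    · by_cases h0 : q.2 = 0
      · refine ih _ x _ ht hP' (fun p hp => hc p ?_)
        simp only [integralLc, if_pos h0]
        exact List.mem_cons_of_mem _ hp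
      · by_cases h1 : q.2 = 1
        · refine ih _ (x * R.s q.1.2) _ ht hP' (fun p hp => hc p ?_)
          simp only [integralLc, if_neg h0, if_pos h1]
          exact hp
        · refine ih _ x _ ht hP' (fun p hp => hc p ?_)
          simp only [integralLc, if_neg h0, if_neg h1]
          exact hp

/-- a tagged datum becomes an LS datum after multiplication by `k` -/
theorem isLS_of_tagDat {k : ℕ} (hk : R.KDiv k) {lam μ κ : I → ℝ} (hl : IntV lam) (hμ : IntV μ)
    (hQ : R.InQ (lam + μ - κ)) {l : List ((ℝ × ι) × Fin 4)} (h : R.TagDat lam μ κ l) :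
    R.IsLS ((k : ℝ) • μ) R.w0 (l.map Prod.fst) := by
  obtain ⟨⟨⟨hch, hend⟩, _, hκ⟩, htag, hbas⟩ := h
  rw [R.integral_labels μ l R.w0 1] at hbas
  have hic : lam + R.icpt μ R.w0 (l.map Prod.fst) = lam + -(lam + μ - κ) := by
    rw [R.path_eq_corr, hend, R.corr_of_ge μ R.w0 _ (fun p hp => (R.isChain_mem hch p hp).2),
      one_smul, one_smul] at hκ
    rw [← hκ]
    abel
  obtain ⟨y, hy⟩ := R.integral_unfold hμ l R.w0 1 lam htag
  rw [hic, one_smul] at hy
  have hint : IntV (lam + -(lam + μ - κ)) :=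
    integral_intV_add hl (R.intV_of_inQ (R.inQ_neg hQ))
  have h1 := R.inQ_sub (R.inQ_neg (R.inQ_add (R.inQ_sub_smul hint y) hy)) hQ
  have he : ∀ A B C D : I → ℝ, -((A + -B) - C + (C - A - D)) - B = D := by
    intro A B C D
    abel
  rw [he] at h1
  refine R.integral_isLS hμ l R.w0 1 lam htag ?_ (R.integral_coeff hk _ hbas h1)
  have := integral_intV_zsmul hl (k : ℤ)
  rwa [Int.cast_natCast] at this

end RD

end Pool.Agent.Lib.MP_1e3767_al
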