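import Pool.Agent.Lib.MP_1e3767_al.Path

set_option linter.unusedSectionVars false

namespace Pool.Agent.Lib.MP_1e3767_al

open Finset

/-- a direction can be followed for a small nonzero time inside an open set -/
theorem perturb_dir {E : Type*} [NormedAddCommGroup E] [NormedSpace ℝ E] {U : Set E}
    (hU : IsOpen U) {x : E} (hx : x ∈ U) (v : E) : ∃ t : ℝ, t ≠ 0 ∧ x + t • v ∈ U := by
  have hc : Continuous fun t : ℝ => x + t • v := by fun_prop
  have h1 : ∀ᶠ t in nhds (0 : ℝ), x + t • v ∈ U :=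
    hc.continuousAt.eventually (hU.mem_nhds (by simpa using hx))
  have h2 : ∀ᶠ t in nhdsWithin (0 : ℝ) {0}ᶜ, x + t • v ∈ U := h1.filter_mono nhdsWithin_le_nhds
  obtain ⟨t, h3, h4⟩ := (h2.and self_mem_nhdsWithin).exists
  exact ⟨t, h4, h3⟩

/-- the complement of the preimage of a proper affine subspace is open and dense -/
theorem perturb_od {E F : Type*} [NormedAddCommGroup E] [NormedSpace ℝ E] [FiniteDimensional ℝ E]
    [NormedAddCommGroup F] [NormedSpace ℝ F] [FiniteDimensional ℝ F] (T : E →ₗ[ℝ] F)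
    (hT : Function.Surjective T) (N : Submodule ℝ F) (hN : N ≠ ⊤) (c : F) :
    IsOpen {x | T x - c ∉ N} ∧ Dense {x | T x - c ∉ N} := by
  constructor
  · have h1 : Continuous fun x => T x - c := T.continuous_of_finiteDimensional.sub continuous_const
    exact (N.closed_of_finiteDimensional.preimage h1).isOpen_compl
  · rw [dense_iff_inter_open]
    rintro U hU ⟨x, hx⟩
    by_cases h : T x - c ∈ N
    · obtain ⟨w, hw⟩ : ∃ w, w ∉ N := by
        by_contra h2
        push Not at h2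
        exact hN (Submodule.eq_top_iff'.2 h2)
      obtain ⟨v, rfl⟩ := hT w
      obtain ⟨t, ht, hU2⟩ := perturb_dir hU hx v
      refine ⟨x + t • v, hU2, fun h3 => hw ?_⟩
      have h4 : T (x + t • v) - c - (T x - c) = t • T v := by
        rw [map_add, map_smul]; abel
      have h5 := N.sub_mem h3 h
      rw [h4] at h5
      exact (N.smul_mem_iff ht).1 h5
    · exact ⟨x, hx, h⟩

/-- a list of roots with given times -/
def perturbTl {ι : Type*} : (ℕ → ℝ) → List ι → List (ℝ × ι)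
  | _, [] => []
  | a, β :: bs => (a 0, β) :: perturbTl (fun k => a (k + 1)) bs

theorem perturbTl_snd {ι : Type*} (a : ℕ → ℝ) (bs : List ι) :
    (perturbTl a bs).map Prod.snd = bs := by
  induction bs generalizing a with
  | nil => rfl
  | cons β bs ih => simp [perturbTl, ih]

theorem perturbTl_ex {ι : Type*} (l : List (ℝ × ι)) : ∃ a, perturbTl a (l.map Prod.snd) = l := by
  induction l with
  | nil => exact ⟨0, rfl⟩
  | cons p l ih =>
    obtain ⟨a, ha⟩ := ih
    refine ⟨fun k => Nat.casesOn k p.1 a, ?_⟩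
    simp only [List.map_cons, perturbTl]
    exact congrArg₂ _ rfl ha

theorem perturbTl_mem {ι : Type*} (a : ℕ → ℝ) (bs : List ι) :
    ∀ p ∈ perturbTl a bs, ∃ k < bs.length, p.1 = a k := by
  induction bs generalizing a with
  | nil => simp [perturbTl]
  | cons β bs ih =>
    intro p hp
    rcases List.mem_cons.1 hp with rfl | hp
    · exact ⟨0, by simp, rfl⟩
    · obtain ⟨k, hk, e⟩ := ih _ p hp
      exact ⟨k + 1, by simpa using hk, e⟩

namespace RD
variable {I ι W : Type*} [Fintype I] [DecidableEq I] [Fintype ι] [Group W] [Fintype W]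
  [DistribMulAction W (I → ℝ)] [SMulCommClass W ℝ (I → ℝ)] [MulAction W ι] (R : RD I ι W)

theorem perturb_chain (u : W) (a0 : ℝ) (a : ℕ → ℝ) (bs : List ι) :
    R.IsChain u a0 (perturbTl a bs) ↔ R.CChain u bs ∧
      (∀ k < bs.length, a0 ≤ a k ∧ a k ≤ 1) ∧ ∀ j k, j < k → k < bs.length → a j ≤ a k := by
  induction bs generalizing u a0 a with
  | nil => simp [perturbTl, IsChain, CChain]
  | cons β bs ih =>
    simp only [perturbTl, IsChain, CChain, ih, List.length_cons]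
    constructor
    · rintro ⟨h1, h2, h3, h4, h5, h6⟩
      refine ⟨⟨h1, h4⟩, fun k hk => ?_, fun j k hj hk => ?_⟩
      · cases k with
        | zero => exact ⟨h2, h3⟩
        | succ k => exact ⟨h2.trans (h5 k (by omega)).1, (h5 k (by omega)).2⟩
      · cases k with
        | zero => omega
        | succ k =>
          cases j with
          | zero => exact (h5 k (by omega)).1
          | succ j => exact h6 j k (by omega) (by omega)
    · rintro ⟨⟨h1, h4⟩, h5, h6⟩
      exact ⟨h1, (h5 0 (by omega)).1, (h5 0 (by omega)).2, h4,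
        fun k hk => ⟨h6 0 (k + 1) (by omega) (by omega), (h5 (k + 1) (by omega)).2⟩,
        fun j k hj hk => h6 (j + 1) (k + 1) (by omega) (by omega)⟩

/-- the path depends on the times in a Lipschitz way -/
theorem perturb_lip (μ : I → ℝ) (u : W) (bs : List ι) : ∃ K : ℝ, 0 ≤ K ∧
    ∀ (a b : ℕ → ℝ) (d t : ℝ), 0 ≤ d → (∀ k < bs.length, |a k - b k| ≤ d) →
      ∀ i, |R.path μ u (perturbTl a bs) t i - R.path μ u (perturbTl b bs) t i| ≤ K * d := by
  induction bs generalizing u with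
  | nil => exact ⟨0, le_rfl, fun a b d t _ _ i => by simp [perturbTl]⟩
  | cons β bs ih =>
    obtain ⟨K, hK, h⟩ := ih (R.s β * u)
    refine ⟨K + |R.cv β (u • μ)| * ‖R.rt β‖, by positivity, fun a b d t hd hab i => ?_⟩
    have h1 := h (fun k => a (k + 1)) (fun k => b (k + 1)) d t hd
      (fun k hk => hab (k + 1) (by simpa using hk)) i
    have h2 : |min t (a 0) - min t (b 0)| ≤ d := by
      have h3 := abs_le.1 (hab 0 (by simp))
      rw [abs_le]
      constructor <;> simp only [min_def] <;> split_ifs <;> linarith [h3.1, h3.2]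
    have h3 : |R.rt β i| ≤ ‖R.rt β‖ := norm_le_pi_norm (R.rt β) i
    have h4 : |R.cv β (u • μ) * (min t (a 0) - min t (b 0)) * R.rt β i| ≤
        |R.cv β (u • μ)| * d * ‖R.rt β‖ := by
      rw [abs_mul, abs_mul]
      gcongr
    simp only [perturbTl, path, Pi.add_apply, Pi.smul_apply, smul_eq_mul]
    have h5 := abs_le.1 h1
    have h6 := abs_le.1 h4
    rw [abs_le]
    constructor <;> nlinarith [h5.1, h5.2, h6.1, h6.2]

/-- the path is bounded uniformly in the times -/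
theorem perturb_bd (μ : I → ℝ) (u : W) (bs : List ι) : ∃ K : ℝ, 0 ≤ K ∧
    ∀ (a : ℕ → ℝ) (t : ℝ), 0 ≤ t → t ≤ 1 → (∀ k < bs.length, 0 ≤ a k) →
      ∀ i, |R.path μ u (perturbTl a bs) t i| ≤ K := by
  induction bs generalizing u with
  | nil =>
    refine ⟨‖u • μ‖, norm_nonneg _, fun a t h0 h1 _ i => ?_⟩
    have h3 : |(u • μ) i| ≤ ‖u • μ‖ := norm_le_pi_norm (u • μ) i
    simp only [perturbTl, path, Pi.smul_apply, smul_eq_mul]
    rw [abs_mul, abs_of_nonneg h0]
    nlinarith [abs_nonneg ((u • μ) i)]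
  | cons β bs ih =>
    obtain ⟨K, hK, h⟩ := ih (R.s β * u)
    refine ⟨K + |R.cv β (u • μ)| * ‖R.rt β‖, by positivity, fun a t h0 h1 ha i => ?_⟩
    have h2 := h (fun k => a (k + 1)) t h0 h1 (fun k hk => ha (k + 1) (by simpa using hk)) i
    have h3 : |R.rt β i| ≤ ‖R.rt β‖ := norm_le_pi_norm (R.rt β) i
    have h5 : |min t (a 0)| ≤ 1 := by
      rw [abs_of_nonneg (le_min h0 (ha 0 (by simp)))]
      exact (min_le_left _ _).trans h1
    have h4 : |R.cv β (u • μ) * min t (a 0) * R.rt β i| ≤ |R.cv β (u • μ)| * 1 * ‖R.rt β‖ := by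
      rw [abs_mul, abs_mul]
      gcongr
    simp only [perturbTl, path, Pi.add_apply, Pi.smul_apply, smul_eq_mul]
    refine (abs_add_le _ _).trans ?_
    linarith

/-- the intercept is a linear function of the times whose range contains the labels -/
theorem perturb_lin {μ : I → ℝ} (hμ : Reg μ) (u : W) (bs : List ι) :
    ∃ Λ : (ℕ → ℝ) →ₗ[ℝ] (I → ℝ), (∀ a, R.icpt μ u (perturbTl a bs) = Λ a) ∧
      ∀ γ ∈ bs, R.rt γ ∈ LinearMap.range Λ := by
  induction bs generalizing u with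
  | nil => exact ⟨0, fun a => rfl, by simp⟩
  | cons β bs ih =>
    obtain ⟨Λ, h1, h2⟩ := ih (R.s β * u)
    have hc : R.cv β (u • μ) ≠ 0 := by
      rcases lt_or_gt_of_ne (R.cv_smul_rho_ne β u) with h | h
      · exact ((R.cv_neg_iff_of_reg β u hμ).2 h).ne
      · exact ((R.cv_pos_iff_of_reg β u hμ).2 h).ne'
    refine ⟨Λ ∘ₗ LinearMap.funLeft ℝ ℝ Nat.succ +
      (LinearMap.proj 0 : (ℕ → ℝ) →ₗ[ℝ] ℝ).smulRight (R.cv β (u • μ) • R.rt β), fun a => ?_,
      fun γ hγ => ?_⟩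
    · simp only [perturbTl, icpt, h1, LinearMap.add_apply, LinearMap.comp_apply,
        LinearMap.smulRight_apply, LinearMap.proj_apply, smul_smul, mul_comm]
      rfl
    · rcases List.mem_cons.1 hγ with rfl | hγ
      · refine ⟨fun k => Nat.casesOn k (R.cv γ (u • μ))⁻¹ (fun _ => 0), ?_⟩
        have h3 : LinearMap.funLeft ℝ ℝ Nat.succ
            (fun k : ℕ => (Nat.casesOn k (R.cv γ (u • μ))⁻¹ (fun _ => 0) : ℝ)) = 0 := rfl
        simp only [LinearMap.add_apply, LinearMap.comp_apply, h3, map_zero, zero_add,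
          LinearMap.smulRight_apply, LinearMap.proj_apply, smul_smul]
        rw [Nat.rec_zero, inv_mul_cancel₀ hc, one_smul]
      · obtain ⟨a, ha⟩ := h2 γ hγ
        refine ⟨fun k => Nat.casesOn k 0 a, ?_⟩
        have h3 : LinearMap.funLeft ℝ ℝ Nat.succ (fun k : ℕ => (Nat.casesOn k 0 a : ℝ)) = a := rfl
        simp only [LinearMap.add_apply, LinearMap.comp_apply, h3, ha,
          LinearMap.smulRight_apply, LinearMap.proj_apply]
        rw [Nat.rec_zero, zero_smul, add_zero]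

theorem perturb_end (μ : I → ℝ) (u : W) (a : ℕ → ℝ) (bs : List ι)
    (h : ∀ k < bs.length, a k ≤ 1) :
    R.path μ u (perturbTl a bs) 1 = R.endb u bs • μ + R.icpt μ u (perturbTl a bs) := by
  rw [R.path_eq_corr, R.corr_of_ge, one_smul, endp, perturbTl_snd]
  intro p hp
  obtain ⟨k, hk, e⟩ := perturbTl_mem a bs p hp
  exact e ▸ h k hk

/-- finitely many proper affine subspaces do not cover an open set -/
theorem exists_avoid {E : Type*} [NormedAddCommGroup E] [NormedSpace ℝ E] {A : Type*}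
    (S : Set A) (hS : S.Finite) (φ : A → E →L[ℝ] ℝ) (c : A → ℝ) (hφ : ∀ a ∈ S, φ a ≠ 0)
    {U : Set E} (hU : IsOpen U) (hne : U.Nonempty) : ∃ x ∈ U, ∀ a ∈ S, φ a x ≠ c a := by
  induction S, hS using Set.Finite.induction_on generalizing U with
  | empty => exact ⟨hne.some, hne.some_mem, by simp⟩
  | @insert a s _ _ ih =>
    have h1 : IsOpen (U ∩ {x | φ a x ≠ c a}) :=
      hU.inter (isOpen_ne_fun (φ a).continuous continuous_const)
    have h2 : (U ∩ {x | φ a x ≠ c a}).Nonempty := by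
      obtain ⟨x, hx⟩ := hne
      by_cases h : φ a x = c a
      · obtain ⟨v, hv⟩ : ∃ v, φ a v ≠ 0 := by
          by_contra h3
          push Not at h3
          exact hφ a (Set.mem_insert _ _) (ContinuousLinearMap.ext h3)
        obtain ⟨t, ht, h4⟩ := perturb_dir hU hx v
        refine ⟨x + t • v, h4, fun h5 => ?_⟩
        rw [map_add, map_smul, h, smul_eq_mul, add_eq_left] at h5
        exact mul_ne_zero ht hv h5
      · exact ⟨x, hx, h⟩
    obtain ⟨x, hx, h3⟩ := ih (fun b hb => hφ b (Set.mem_insert_of_mem _ hb)) h1 h2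
    refine ⟨x, hx.1, fun b hb => ?_⟩
    rcases Set.mem_insert_iff.1 hb with rfl | hb
    · exact hx.2
    · exact h3 b hb

/-- generic pairs are dense -/
theorem exists_generic (μ : I → ℝ) {U : Set ((I → ℝ) × (I → ℝ))} (hU : IsOpen U)
    (hne : U.Nonempty) : ∃ L ∈ U, R.Generic L.1 μ L.2 := by
  let T1 : W → ((I → ℝ) × (I → ℝ)) →ₗ[ℝ] (I → ℝ) := fun x =>
    DistribSMul.toLinearMap ℝ (I → ℝ) x ∘ₗ LinearMap.snd ℝ _ _ - LinearMap.fst ℝ _ _
  have e1 : ∀ x L, T1 x L = x • L.2 - L.1 := fun _ _ => rfl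
  have s1 : ∀ x, Function.Surjective (T1 x) := fun x v => ⟨(-v, 0), by simp [e1]⟩
  let T2 : W → ι → ((I → ℝ) × (I → ℝ)) →ₗ[ℝ] ((I → ℝ) × ℝ) := fun x δ =>
    (T1 x).prod (R.cv δ ∘ₗ LinearMap.fst ℝ _ _)
  have e2 : ∀ x δ L, T2 x δ L = (x • L.2 - L.1, R.cv δ L.1) := fun _ _ _ => rfl
  have s2 : ∀ x δ, Function.Surjective (T2 x δ) := fun x δ v =>
    ⟨((v.2 / 2) • R.rt δ, x⁻¹ • (v.1 + (v.2 / 2) • R.rt δ)), by
      rw [e2]
      refine Prod.ext (by simp) ?_
      change R.cv δ ((v.2 / 2) • R.rt δ) = v.2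
      rw [map_smul, R.cv_self, smul_eq_mul]
      ring⟩
  have f1 : {q : I → ℝ | ∃ a b : W, q = a • μ - b • μ}.Finite :=
    (Set.finite_range fun p : W × W => p.1 • μ - p.2 • μ).subset
      (by rintro q ⟨a, b, rfl⟩; exact ⟨(a, b), rfl⟩)
  have f2 : ∀ δ : ι, {q : (I → ℝ) × ℝ | ∃ a b c d : W,
      q = (a • μ - b • μ, R.cv δ (c • μ - d • μ)) ∨
        q = (a • μ - b • μ, -R.cv δ (c • μ))}.Finite := fun δ =>
    ((Set.finite_range fun p : W × W × W × W =>
      (p.1 • μ - p.2.1 • μ, R.cv δ (p.2.2.1 • μ - p.2.2.2 • μ))).union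
      (Set.finite_range fun p : W × W × W =>
        (p.1 • μ - p.2.1 • μ, -R.cv δ (p.2.2 • μ)))).subset (by
          rintro q ⟨a, b, c, d, rfl | rfl⟩
          · exact Or.inl ⟨(a, b, c, d), rfl⟩
          · exact Or.inr ⟨(a, b, c), rfl⟩)
  let J1 : Set (W × W × Set (I → ℝ)) := {j | j.2.2 ⊆ {q | ∃ a b : W, q = a • μ - b • μ} ∧
    Submodule.span ℝ j.2.2 ≠ ⊤}
  let J2 : Set (W × W × ι × Set ((I → ℝ) × ℝ)) := {j | j.2.2.2 ⊆ {q | ∃ a b c d : W,
    q = (a • μ - b • μ, R.cv j.2.2.1 (c • μ - d • μ)) ∨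
      q = (a • μ - b • μ, -R.cv j.2.2.1 (c • μ))} ∧ Submodule.span ℝ j.2.2.2 ≠ ⊤}
  have g1 : J1.Finite :=
    (Set.finite_univ.prod (Set.finite_univ.prod f1.finite_subsets)).subset
      fun j hj => ⟨trivial, trivial, hj.1⟩
  have g2 : J2.Finite :=
    (Set.finite_univ.prod (Set.finite_univ.prod (Set.finite_univ.prod
      (Set.finite_iUnion f2).finite_subsets))).subset
      fun j hj => ⟨trivial, trivial, trivial, hj.1.trans (Set.subset_iUnion
        (fun δ : ι => {q : (I → ℝ) × ℝ | ∃ a b c d : W,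
          q = (a • μ - b • μ, R.cv δ (c • μ - d • μ)) ∨
            q = (a • μ - b • μ, -R.cv δ (c • μ))}) j.2.2.1)⟩
  have o1 := fun j (hj : j ∈ J1) => perturb_od (T1 j.1) (s1 j.1) _ hj.2 (j.2.1 • μ)
  have o2 := fun j (hj : j ∈ J2) =>
    perturb_od (T2 j.1 j.2.2.1) (s2 j.1 j.2.2.1) _ hj.2 (j.2.1 • μ, 0)
  have d1 := dense_biInter_of_isOpen (fun j hj => (o1 j hj).1) g1.countable fun j hj => (o1 j hj).2
  have d2 := dense_biInter_of_isOpen (fun j hj => (o2 j hj).1) g2.countable fun j hj => (o2 j hj).2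
  have d3 := d1.inter_of_isOpen_left d2 (g1.isOpen_biInter fun j hj => (o1 j hj).1)
  obtain ⟨L, hL, h1, h2⟩ := d3.inter_open_nonempty U hU hne
  refine ⟨L, hL, fun x η S hS hs => ?_, fun x η δ S hS hs => ?_⟩
  · exact Set.mem_iInter₂.1 h1 (x, η, S) ⟨hS, hs⟩
  · have h3 := Set.mem_iInter₂.1 h2 (x, η, δ, S) ⟨hS, hs⟩
    simp only [Set.mem_ofPred_eq, e2, Prod.mk_sub_mk, sub_zero] at h3
    exact h3

/-- the pairs joined by a dominant datum of regular shape near a given triple contain an open set -/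
theorem exists_open {lam μ κ : I → ℝ} (hμ : Dom μ) (h : ∃ l, R.DomDat lam μ κ l) {ε : ℝ}
    (hε : 0 < ε) : ∃ (μ' : I → ℝ) (U : Set ((I → ℝ) × (I → ℝ))), Reg μ' ∧ dist μ' μ < ε ∧
      IsOpen U ∧ U.Nonempty ∧
      ∀ L ∈ U, dist L.1 lam < ε ∧ dist L.2 κ < ε ∧ ∃ l, R.DomDat L.1 μ' L.2 l := by
  obtain ⟨l, ⟨hch, hend⟩, hdom, hκ⟩ := h
  obtain ⟨a, ha⟩ := perturbTl_ex l
  generalize l.map Prod.snd = bs at ha
  subst ha
  rw [endp, perturbTl_snd] at hend
  obtain ⟨hc, hb, hm⟩ := (R.perturb_chain _ _ _ _).1 hch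
  obtain ⟨K1, hK1, hlip⟩ := R.perturb_lip μ R.w0 bs
  obtain ⟨K2, hK2, hbd⟩ := R.perturb_bd rho R.w0 bs
  obtain ⟨C, hC⟩ : ∃ C, C = 1 + 2 * K1 + K2 := ⟨_, rfl⟩
  obtain ⟨e, he0, he1, he2⟩ : ∃ e : ℝ, 0 < e ∧ e < 1 ∧ (2 * C) * e < ε := by
    have h1 : 0 < 2 * C := by rw [hC]; positivity
    refine ⟨min (1 / 2) (ε / (2 * C) / 2), by positivity,
      (min_le_left _ _).trans_lt (by norm_num), ?_⟩
    have h2 : min (1 / 2) (ε / (2 * C) / 2) < ε / (2 * C) :=
      (min_le_right _ _).trans_lt (half_lt_self (by positivity))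
    rwa [lt_div_iff₀' h1] at h2
  have hreg : Reg (μ + e • rho) := fun i => by
    have := hμ i
    simp only [Pi.add_apply, Pi.smul_apply, rho, smul_eq_mul]
    linarith
  obtain ⟨Λ, hΛ, hr⟩ := R.perturb_lin hreg R.w0 bs
  have hsurj : LinearMap.range Λ = ⊤ := by
    rw [eq_top_iff, ← R.span_max_chain hc hend, Submodule.span_le]
    rintro _ ⟨γ, hγ, rfl⟩
    exact hr γ hγ
  obtain ⟨σ, hσ⟩ := Λ.exists_rightInverse_of_surjective hsurj
  have hσ' : ∀ v, Λ (σ v) = v := fun v => LinearMap.congr_fun hσ v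
  obtain ⟨M, hM⟩ : ∃ M : ℝ, M = bs.length + 1 := ⟨_, rfl⟩
  have hM1 : 1 ≤ M := by rw [hM]; linarith [Nat.cast_nonneg (α := ℝ) bs.length]
  obtain ⟨r, hr0, hrM⟩ : ∃ r : ℝ, 0 < r ∧ r * (2 * M) = e :=
    ⟨e / (2 * M), by positivity, div_mul_cancel₀ _ (by positivity)⟩
  have hre : 2 * r ≤ e := by nlinarith
  obtain ⟨b, hbk⟩ : ∃ b : ℕ → ℝ, ∀ k, b k = (1 - e) * a k + 2 * r * (k + 1) := ⟨_, fun _ => rfl⟩
  have hk1 : ∀ k < bs.length, (k : ℝ) + 2 ≤ M := fun k hk => by
    rw [hM]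
    have : ((k + 1 : ℕ) : ℝ) ≤ bs.length := Nat.cast_le.2 hk
    push_cast at this
    linarith
  have key : ∀ s : ℕ → ℝ, (∀ k < bs.length, |s k| < r) →
      (∀ k < bs.length, 0 ≤ (b + s) k ∧ (b + s) k ≤ 1) ∧
      (∀ j k, j < k → k < bs.length → (b + s) j ≤ (b + s) k) ∧
      ∀ k < bs.length, |(b + s) k - a k| ≤ 2 * e := fun s hs => by
    refine ⟨fun k hk => ?_, fun j k hj hk => ?_, fun k hk => ?_⟩
    · have h1 := abs_lt.1 (hs k hk)
      have h2 := hb k hk
      have h3 := hk1 k hk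
      have h4 : (0 : ℝ) ≤ k := Nat.cast_nonneg k
      rw [Pi.add_apply, hbk]
      constructor <;> nlinarith [h1.1, h1.2, h2.1, h2.2]
    · have h1 := abs_lt.1 (hs k hk)
      have h2 := abs_lt.1 (hs j (hj.trans hk))
      have h3 := hm j k hj hk
      have h4 : ((j + 1 : ℕ) : ℝ) ≤ k := Nat.cast_le.2 hj
      push_cast at h4
      rw [Pi.add_apply, Pi.add_apply, hbk, hbk]
      nlinarith [h1.1, h2.2]
    · have h1 := abs_lt.1 (hs k hk)
      have h2 := hb k hk
      have h3 := hk1 k hk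
      have h4 : (0 : ℝ) ≤ k := Nat.cast_nonneg k
      rw [Pi.add_apply, hbk, abs_le]
      constructor <;> nlinarith [h1.1, h1.2, h2.1, h2.2]
  have est : ∀ s : ℕ → ℝ, (∀ k < bs.length, |s k| < r) → ∀ t, 0 ≤ t → t ≤ 1 → ∀ i,
      |R.path (μ + e • rho) R.w0 (perturbTl (b + s) bs) t i -
        R.path μ R.w0 (perturbTl a bs) t i| ≤ (C - 1) * e := fun s hs t h0 h1 i => by
    obtain ⟨k1, -, k3⟩ := key s hs
    have h2 := abs_le.1 (hlip (b + s) a (2 * e) t (by positivity) k3 i)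
    have h3 := abs_le.1 (hbd (b + s) t h0 h1 (fun k hk => (k1 k hk).1) i)
    rw [R.path_add, R.path_smul, Pi.add_apply, Pi.smul_apply, smul_eq_mul, abs_le, hC]
    constructor <;> nlinarith [h2.1, h2.2, h3.1, h3.2]
  have hC1 : 1 ≤ C := by rw [hC]; linarith
  have z0 : ∀ k < bs.length, |(0 : ℕ → ℝ) k| < r := fun k _ => by simpa using hr0
  obtain ⟨p, hp⟩ : ∃ p, p = R.path (μ + e • rho) R.w0 (perturbTl (b + 0) bs) 1 := ⟨_, rfl⟩
  obtain ⟨lam', hl⟩ : ∃ x : I → ℝ, ∀ i, x i = lam i + C * e := ⟨_, fun _ => rfl⟩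
  refine ⟨μ + e • rho, {L | dist L.1 lam' < e ∧ dist L.1 lam < ε ∧ dist L.2 κ < ε ∧
    ∀ k ∈ Set.Iio bs.length, |σ (L.2 - L.1 - p) k| < r}, hreg, ?_, ?_, ⟨(lam', lam' + p), ?_⟩, ?_⟩
  · rw [dist_pi_lt_iff hε]
    intro i
    simp only [Pi.add_apply, Pi.smul_apply, rho, smul_eq_mul, Real.dist_eq, mul_one,
      add_sub_cancel_left, abs_of_pos he0]
    nlinarith
  · refine (isOpen_lt (continuous_fst.dist continuous_const) continuous_const).inter
      ((isOpen_lt (continuous_fst.dist continuous_const) continuous_const).inter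
        ((isOpen_lt (continuous_snd.dist continuous_const) continuous_const).inter ?_))
    have h1 : IsOpen (⋂ k ∈ Set.Iio bs.length,
        {L : (I → ℝ) × (I → ℝ) | |σ (L.2 - L.1 - p) k| < r}) :=
      (Set.finite_Iio _).isOpen_biInter fun k _ => isOpen_lt
        ((((LinearMap.proj k : (ℕ → ℝ) →ₗ[ℝ] ℝ) ∘ₗ σ).continuous_of_finiteDimensional.comp
          (by fun_prop : Continuous fun L : (I → ℝ) × (I → ℝ) => L.2 - L.1 - p)).abs)
        continuous_const
    have h2 : (⋂ k ∈ Set.Iio bs.length, {L : (I → ℝ) × (I → ℝ) | |σ (L.2 - L.1 - p) k| < r}) =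
        {L | ∀ k ∈ Set.Iio bs.length, |σ (L.2 - L.1 - p) k| < r} := by
      ext L
      simp only [Set.mem_iInter, Set.mem_ofPred_eq]
    rw [h2] at h1
    exact h1
  · refine ⟨by simpa using he0, ?_, ?_, fun k _ => by simpa using hr0⟩
    · rw [dist_pi_lt_iff hε]
      intro i
      change dist (lam' i) (lam i) < ε
      rw [Real.dist_eq, hl, add_sub_cancel_left, abs_of_pos (by positivity)]
      nlinarith
    · rw [dist_pi_lt_iff hε]
      intro i
      have h1 := abs_le.1 (est 0 z0 1 zero_le_one le_rfl i)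
      rw [← hp] at h1
      change dist ((lam' + p) i) (κ i) < ε
      rw [Real.dist_eq, ← hκ, Pi.add_apply, Pi.add_apply, hl, abs_lt]
      constructor <;> nlinarith [h1.1, h1.2]
  · rintro L ⟨h1, h2, h3, h4⟩
    obtain ⟨k1, k2, -⟩ := key _ h4
    refine ⟨h2, h3, perturbTl (b + σ (L.2 - L.1 - p)) bs,
      ⟨(R.perturb_chain _ _ _ _).2 ⟨hc, k1, k2⟩, by rw [endp, perturbTl_snd, hend]⟩,
      fun t ht i => ?_, ?_⟩
    · have h5 := abs_le.1 (est _ h4 t ht.1 ht.2 i)
      have h6 := hdom t ht i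
      have h7 := abs_lt.1 ((dist_pi_lt_iff he0).1 h1 i)
      rw [hl] at h7
      rw [Pi.add_apply] at h6 ⊢
      linarith [h5.1, h7.1]
    · rw [R.perturb_end _ _ _ _ (fun k hk => ((key 0 z0).1 k hk).2), hΛ, add_zero] at hp
      rw [R.perturb_end _ _ _ _ (fun k hk => (k1 k hk).2), hΛ, map_add, hσ', hp]
      abel

end RD

end Pool.Agent.Lib.MP_1e3767_al
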