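import Pool.Agent.Lib.MP_1e3767_al.Path

set_option linter.unusedSectionVars false

namespace Pool.Agent.Lib.MP_1e3767_al

open Finset

namespace RD
variable {I ι W : Type*} [Fintype I] [DecidableEq I] [Fintype ι] [Group W] [Fintype W]
  [DistribMulAction W (I → ℝ)] [SMulCommClass W ℝ (I → ℝ)] [MulAction W ι] (R : RD I ι W)

/-- moving an unfolded path by a group element -/
theorem unfold_smul_upath (z : W) (μ P : I → ℝ) (n : ℕ) (η : ℕ → W) (t : ℕ → ℝ) (τ : ℝ) :
    upath μ (z • P) n (fun k => z * η k) t τ = z • upath μ P n η t τ := by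
  unfold upath
  rw [smul_add, smul_add, Finset.smul_sum, smul_comm z τ, mul_smul]
  congr 1
  refine Finset.sum_congr rfl fun j _ => ?_
  rw [smul_comm z (min τ (t j)), smul_sub z, mul_smul, mul_smul]

/-- an unfolded path with one more turn in front -/
theorem unfold_upath_succ (μ P : I → ℝ) (n : ℕ) (η : ℕ → W) (t : ℕ → ℝ) (τ : ℝ) :
    upath μ P (n + 1) η t τ =
      upath μ (P + min τ (t 0) • (η 0 • μ - η 1 • μ)) n (fun k => η (k + 1))
        (fun k => t (k + 1)) τ := by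
  unfold upath
  rw [Finset.sum_range_succ']
  simp only [zero_add]
  abel

/-- before the first turn -/
theorem unfold_upath_before (μ P : I → ℝ) (n : ℕ) (η : ℕ → W) (t : ℕ → ℝ) {τ : ℝ}
    (h : ∀ k < n, τ ≤ t k) : upath μ P n η t τ = P + τ • (η 0 • μ) := by
  have := upath_between μ P n η t (j := 0) (Nat.zero_le n) (τ := τ)
    (fun k hk => absurd hk (Nat.not_lt_zero k)) (fun k _ hk => h k hk)
  simpa using this

/-- a time strictly after `a`, not later than any turning time -/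
theorem unfold_next_time {v : W} {a : ℝ} {l : List (ℝ × ι)} (hl : R.IsChain v a l)
    (hlt : ∀ p ∈ l, a < p.1) (ha : a < 1) : ∃ b, a < b ∧ b ≤ 1 ∧ ∀ p ∈ l, b ≤ p.1 := by
  cases l with
  | nil => exact ⟨1, ha, le_rfl, fun p hp => absurd hp List.not_mem_nil⟩
  | cons q l0 =>
    obtain ⟨_, _, h1, h2⟩ := hl
    refine ⟨q.1, hlt q List.mem_cons_self, h1, fun p hp => ?_⟩
    rcases List.mem_cons.1 hp with rfl | hp
    · exact le_rfl
    · exact (R.isChain_mem h2 p hp).1

theorem unfold_asc (R : RD I ι W) {μ : I → ℝ} (hμ : Reg μ) {v : W} {p : I → ℝ} {c : ℝ}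
    (hc : 0 < c) (hd : Dom (p + c • (v • μ))) : ∀ i, p i = 0 → 0 < (v • (rho : I → ℝ)) i := by
  intro i hi
  have h1 := hd i
  rw [Pi.add_apply, Pi.smul_apply, hi, zero_add, smul_eq_mul] at h1
  have h2 : 0 ≤ (v • μ) i := nonneg_of_mul_nonneg_right h1 hc
  have h3 := R.cv_neg_iff_of_reg (R.sr i) v hμ
  rw [R.cv_sr, R.cv_sr] at h3
  have h4 : ¬ (v • (rho : I → ℝ)) i < 0 := fun h => absurd (h3.2 h) (not_lt.2 h2)
  exact lt_of_le_of_ne (not_lt.1 h4) (R.smul_rho_ne v i).symm

/-- the inductive step: a datum from time `a` on gives a datum from time `a0` on -/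
theorem unfold_step {μ : I → ℝ} {u v : W} {P : I → ℝ} {a0 a : ℝ} (h0 : a0 < a) (h1 : a < 1)
    (F : ℝ → I → ℝ) (hF : ∀ τ, τ ≤ a → F τ = P + τ • (u • μ))
    (hp : Dom (P + a • (u • μ))) (hle : R.Le v u)
    (hv : ∀ i, (P + a • (u • μ)) i = 0 → 0 < (v • (rho : I → ℝ)) i)
    {n : ℕ} {η : ℕ → W} {t : ℕ → ℝ} (e0 : η 0 = v) (e1 : ∀ j k, j < k → k < n → t j < t k)
    (e2 : ∀ j < n, a < t j ∧ t j < 1) (e3 : ∀ j < n, η (j + 1) ≠ η j)
    (e4 : R.UTurn μ (P + a • (u • μ - v • μ)) n η t)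
    (e5 : ∀ τ ∈ Set.Icc a 1, ∃ x : W, x • upath μ (P + a • (u • μ - v • μ)) n η t τ = F τ) :
    ∃ (n : ℕ) (η : ℕ → W) (t : ℕ → ℝ), η 0 = u ∧ (∀ j k, j < k → k < n → t j < t k) ∧
      (∀ j < n, a0 < t j ∧ t j < 1) ∧ (∀ j < n, η (j + 1) ≠ η j) ∧ R.UTurn μ P n η t ∧
      ∀ τ ∈ Set.Icc a0 1, ∃ x : W, x • upath μ P n η t τ = F τ := by
  obtain ⟨y, hy, hyu, hvy⟩ := R.exists_stab_down (p := P + a • (u • μ)) hle hv
  have hz : y⁻¹ • (P + a • (u • μ)) = P + a • (u • μ) := by
    rw [inv_smul_eq_iff]; exact hy.symm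
  have hzP : y⁻¹ • (P + a • (u • μ - v • μ)) = P + a • (u • μ - (y⁻¹ * v) • μ) := by
    have e : P + a • (u • μ - v • μ) = (P + a • (u • μ)) - a • (v • μ) := by
      rw [smul_sub]; abel
    rw [e, smul_sub, hz, smul_comm y⁻¹ a, mul_smul, smul_sub]
    abel
  have hmove : ∀ τ, upath μ (P + a • (u • μ - (y⁻¹ * v) • μ)) n (fun k => y⁻¹ * η k) t τ =
      y⁻¹ • upath μ (P + a • (u • μ - v • μ)) n η t τ := fun τ => by
    rw [← hzP]; exact unfold_smul_upath _ _ _ _ _ _ _
  by_cases hc : y⁻¹ * v = u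
  · have hm : ∀ τ, upath μ P n (fun k => y⁻¹ * η k) t τ =
        y⁻¹ • upath μ (P + a • (u • μ - v • μ)) n η t τ := fun τ => by
      rw [← hmove τ, hc, sub_self, smul_zero, add_zero]
    refine ⟨n, fun k => y⁻¹ * η k, t, by simp only [e0, hc], e1,
      fun j hj => ⟨h0.trans (e2 j hj).1, (e2 j hj).2⟩,
      fun j hj h => e3 j hj (mul_left_cancel h), ?_, ?_⟩
    · intro j hj x hx
      rw [hm, ← mul_smul] at hx
      have := e4 j hj _ hx
      simpa only [mul_assoc] using this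
    · intro τ hτ
      rcases le_total τ a with hτa | hτa
      · refine ⟨1, ?_⟩
        rw [one_smul, hF τ hτa, unfold_upath_before _ _ _ _ _
          (fun k hk => hτa.trans (e2 k hk).1.le)]
        simp only [e0, hc]
      · obtain ⟨x, hx⟩ := e5 τ ⟨hτa, hτ.2⟩
        refine ⟨x * y, ?_⟩
        rw [hm, mul_smul, smul_inv_smul, hx]
  · let η' : ℕ → W := fun k => Nat.casesOn k u (fun j => y⁻¹ * η j)
    let t' : ℕ → ℝ := fun k => Nat.casesOn k a (fun j => t j)
    have hη0 : η' 0 = u := rfl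
    have hηs : ∀ k, η' (k + 1) = y⁻¹ * η k := fun _ => rfl
    have ht0 : t' 0 = a := rfl
    have hts : ∀ k, t' (k + 1) = t k := fun _ => rfl
    have hm : ∀ τ, a ≤ τ → upath μ P (n + 1) η' t' τ =
        y⁻¹ • upath μ (P + a • (u • μ - v • μ)) n η t τ := fun τ hτ => by
      have hη1 : η' 1 = y⁻¹ * v := by rw [← e0]; exact hηs 0
      rw [← hmove τ, unfold_upath_succ, ht0, min_eq_right hτ, hη0, hη1]
    have hge : ∀ k < n + 1, a ≤ t' k := by
      intro k hk
      cases k with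
      | zero => exact le_rfl
      | succ k => exact (e2 k (by omega)).1.le
    have hb : ∀ τ, τ ≤ a → upath μ P (n + 1) η' t' τ = P + τ • (u • μ) := fun τ hτ => by
      rw [unfold_upath_before _ _ _ _ _ (fun k hk => hτ.trans (hge k hk)), hη0]
    refine ⟨n + 1, η', t', rfl, ?_, ?_, ?_, ?_, ?_⟩
    · intro j k hjk hk
      cases k with
      | zero => omega
      | succ k =>
        cases j with
        | zero => exact (e2 k (by omega)).1
        | succ j => exact e1 j k (by omega) (by omega)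
    · intro j hj
      cases j with
      | zero => exact ⟨h0, h1⟩
      | succ j => exact ⟨h0.trans (e2 j (by omega)).1, (e2 j (by omega)).2⟩
    · intro j hj
      cases j with
      | zero => rw [hηs 0, hη0, e0]; exact hc
      | succ j => exact fun h => e3 j (by omega) (mul_left_cancel h)
    · intro j hj x hx
      cases j with
      | zero =>
        rw [ht0, hb a le_rfl] at hx
        have hxp := R.dom_unique hp hx
        have hxz : (x * y⁻¹) • (P + a • (u • μ)) = P + a • (u • μ) := by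
          rw [mul_smul, hz, hxp]
        have := R.le_stab_mul hp hvy hyu hv hxz
        rw [hηs 0, hη0, e0]
        simpa only [mul_assoc, inv_mul_cancel_left] using this
      | succ j =>
        have hj' : j < n := by omega
        rw [hts, hm _ (e2 j hj').1.le, ← mul_smul] at hx
        have := e4 j hj' _ hx
        rw [hηs, hηs]
        simpa only [mul_assoc] using this
    · intro τ hτ
      rcases le_total τ a with hτa | hτa
      · exact ⟨1, by rw [one_smul, hF τ hτa, hb τ hτa]⟩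
      · obtain ⟨x, hx⟩ := e5 τ ⟨hτa, hτ.2⟩
        refine ⟨x * y, ?_⟩
        rw [hm τ hτa, mul_smul, smul_inv_smul, hx]

theorem unfold_ind {μ : I → ℝ} (hμ : Reg μ) (N : ℕ) :
    ∀ (l : List (ℝ × ι)) (u : W) (P : I → ℝ) (a0 : ℝ), l.length ≤ N → R.IsChain u a0 l →
      (∀ p ∈ l, a0 < p.1) → (∀ τ ∈ Set.Icc a0 1, Dom (P + R.path μ u l τ)) →
      ∃ (n : ℕ) (η : ℕ → W) (t : ℕ → ℝ), η 0 = u ∧ (∀ j k, j < k → k < n → t j < t k) ∧
        (∀ j < n, a0 < t j ∧ t j < 1) ∧ (∀ j < n, η (j + 1) ≠ η j) ∧ R.UTurn μ P n η t ∧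
        ∀ τ ∈ Set.Icc a0 1, ∃ x : W, x • upath μ P n η t τ = P + R.path μ u l τ := by
  have base : ∀ (l : List (ℝ × ι)) (u : W) (P : I → ℝ) (a0 : ℝ), (∀ p ∈ l, 1 ≤ p.1) →
      ∃ (n : ℕ) (η : ℕ → W) (t : ℕ → ℝ), η 0 = u ∧ (∀ j k, j < k → k < n → t j < t k) ∧
        (∀ j < n, a0 < t j ∧ t j < 1) ∧ (∀ j < n, η (j + 1) ≠ η j) ∧ R.UTurn μ P n η t ∧
        ∀ τ ∈ Set.Icc a0 1, ∃ x : W, x • upath μ P n η t τ = P + R.path μ u l τ := by
    intro l u P a0 h
    refine ⟨0, fun _ => u, fun _ => 0, rfl, fun j k _ hk => absurd hk (Nat.not_lt_zero k),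
      fun j hj => absurd hj (Nat.not_lt_zero j), fun j hj => absurd hj (Nat.not_lt_zero j),
      fun j hj => absurd hj (Nat.not_lt_zero j), fun τ hτ => ⟨1, ?_⟩⟩
    rw [one_smul, R.path_of_le μ u l (fun p hp => hτ.2.trans (h p hp)),
      unfold_upath_before _ _ _ _ _ (fun k hk => absurd hk (Nat.not_lt_zero k))]
  induction N with
  | zero =>
    intro l u P a0 hN _ _ _
    have : l = [] := List.length_eq_zero_iff.1 (by omega)
    subst this
    exact base [] u P a0 (fun p hp => absurd hp List.not_mem_nil)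
  | succ N ih =>
    intro l u P a0 hN hl hlt hd
    cases l with
    | nil => exact base [] u P a0 (fun p hp => absurd hp List.not_mem_nil)
    | cons q l0 =>
      have hmin : ∀ p ∈ q :: l0, q.1 ≤ p.1 := by
        intro p hp
        rcases List.mem_cons.1 hp with rfl | hp
        · exact le_rfl
        · exact (R.isChain_mem hl.2.2.2 p hp).1
      rcases le_or_gt 1 q.1 with h1 | h1
      · exact base _ u P a0 (fun p hp => h1.trans (hmin p hp))
      have h0 : a0 < q.1 := hlt q List.mem_cons_self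
      obtain ⟨B, l', hs, hB, hl'⟩ := R.split_le hl q.1
      have hBe : ∀ p ∈ B, p.1 = q.1 := fun p hp =>
        le_antisymm (hB p hp) (hmin p (by rw [hs]; exact List.mem_append_left _ hp))
      have hlen : l'.length ≤ N := by
        cases B with
        | nil =>
          rw [List.nil_append] at hs
          exact absurd (hl' q (by rw [← hs]; exact List.mem_cons_self)) (lt_irrefl _)
        | cons b B =>
          have := congrArg List.length hs
          simp only [List.length_append, List.length_cons] at this hN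
          omega
      have hch := hl
      rw [hs, R.isChain_append] at hch
      obtain ⟨hcB, hcl, _⟩ := hch
      have hcl' : R.IsChain (R.endp u B) q.1 l' :=
        R.isChain_raise hcl (fun p hp => (hl' p hp).le)
      have hafter : ∀ τ, q.1 ≤ τ → P + R.path μ u (q :: l0) τ =
          (P + q.1 • (u • μ - R.endp u B • μ)) + R.path μ (R.endp u B) l' τ := by
        intro τ hτ
        rw [hs, R.path_append, R.corr_const μ u B hBe, min_eq_right hτ]
        abel
      have hbefore : ∀ τ, τ ≤ q.1 → P + R.path μ u (q :: l0) τ = P + τ • (u • μ) := by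
        intro τ hτ
        rw [R.path_of_le μ u _ (fun p hp => hτ.trans (hmin p hp))]
      have hp : Dom (P + q.1 • (u • μ)) := by
        rw [← hbefore q.1 le_rfl]; exact hd _ ⟨h0.le, h1.le⟩
      obtain ⟨b, hb0, hb1, hb2⟩ := R.unfold_next_time hcl' hl' h1
      have hv : ∀ i, (P + q.1 • (u • μ)) i = 0 → 0 < (R.endp u B • (rho : I → ℝ)) i := by
        refine R.unfold_asc hμ (c := b - q.1) (by linarith) ?_
        have := hd b ⟨(h0.trans hb0).le, hb1⟩
        rw [hafter b hb0.le, R.path_of_le μ _ l' hb2] at this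
        convert this using 1
        rw [smul_sub, sub_smul]
        abel
      obtain ⟨n, η, t, e0, e1, e2, e3, e4, e5⟩ := ih l' (R.endp u B)
        (P + q.1 • (u • μ - R.endp u B • μ)) q.1 hlen hcl' hl' (fun τ hτ => by
          rw [← hafter τ hτ.1]; exact hd τ ⟨h0.le.trans hτ.1, hτ.2⟩)
      exact R.unfold_step h0 h1 (fun τ => P + R.path μ u (q :: l0) τ) hbefore hp
        (R.le_endp hcB) hv e0 e1 e2 e3 e4 (fun τ hτ => by
          rw [hafter τ hτ.1]; exact e5 τ hτ)

/-- unfolding, from time `a0`, all turning times later than `a0` -/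
theorem unfold_aux {μ : I → ℝ} (hμ : Reg μ) (l : List (ℝ × ι)) (u : W) (P : I → ℝ) (a0 : ℝ)
    (hl : R.IsChain u a0 l) (hlt : ∀ p ∈ l, a0 < p.1)
    (hd : ∀ τ ∈ Set.Icc a0 1, Dom (P + R.path μ u l τ)) :
    ∃ (n : ℕ) (η : ℕ → W) (t : ℕ → ℝ), η 0 = u ∧ (∀ j k, j < k → k < n → t j < t k) ∧
      (∀ j < n, a0 < t j ∧ t j < 1) ∧ (∀ j < n, η (j + 1) ≠ η j) ∧ R.UTurn μ P n η t ∧
      ∀ τ ∈ Set.Icc a0 1, ∃ x : W, x • upath μ P n η t τ = P + R.path μ u l τ :=
  R.unfold_ind hμ l.length l u P a0 le_rfl hl hlt hd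

theorem unfold {μ : I → ℝ} (hμ : Reg μ) {l : List (ℝ × ι)} {u : W} {P : I → ℝ}
    (hl : R.IsChain u 0 l) (hd : ∀ τ ∈ Set.Icc (0:ℝ) 1, Dom (P + R.path μ u l τ)) :
    ∃ (n : ℕ) (η : ℕ → W) (t : ℕ → ℝ), R.UGood μ P n η t ∧
      ∀ τ ∈ Set.Icc (0:ℝ) 1, ∃ x : W, x • upath μ P n η t τ = P + R.path μ u l τ := by
  obtain ⟨B, l', hs, hB, hl'⟩ := R.split_le hl 0
  have hBe : ∀ p ∈ B, p.1 = 0 := fun p hp =>
    le_antisymm (hB p hp) (R.isChain_mem hl p (by rw [hs]; exact List.mem_append_left _ hp)).1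
  have hch := hl
  rw [hs, R.isChain_append] at hch
  obtain ⟨_, hcl, _⟩ := hch
  have he : ∀ τ, 0 ≤ τ → R.path μ u l τ = R.path μ (R.endp u B) l' τ := by
    intro τ hτ
    rw [hs, R.path_append, R.corr_const μ u B hBe, min_eq_right hτ, zero_smul, add_zero]
  obtain ⟨n, η, t, _, e1, e2, e3, e4, e5⟩ := R.unfold_aux hμ l' (R.endp u B) P 0 hcl hl'
    (fun τ hτ => by rw [← he τ hτ.1]; exact hd τ hτ)
  exact ⟨n, η, t, ⟨e1, e2, e3, e4⟩, fun τ hτ => by rw [he τ hτ.1]; exact e5 τ hτ⟩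

end RD

end Pool.Agent.Lib.MP_1e3767_al
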