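import Pool.Agent.Lib.MP_1e3767_al.Var
import Pool.Agent.Lib.MP_1e3767_al.Conv

set_option linter.unusedSectionVars false

namespace Pool.Agent.Lib.MP_1e3767_al

open Finset

namespace RD
variable {I ι W : Type*} [Fintype I] [DecidableEq I] [Fintype ι] [Group W] [Fintype W]
  [DistribMulAction W (I → ℝ)] [SMulCommClass W ℝ (I → ℝ)] [MulAction W ι] (R : RD I ι W)

/-- extension by zero of a finite sequence -/
noncomputable def vertexExt {n : ℕ} (g : Fin n → ℝ) (k : ℕ) : ℝ :=
  if h : k < n then g ⟨k, h⟩ else 0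

theorem vertexExt_fin {n : ℕ} (g : Fin n → ℝ) (k : Fin n) : vertexExt g k = g k := dif_pos k.2

theorem vertex_sum_ext {n : ℕ} (g : Fin n → ℝ) (d : ℕ → I → ℝ) :
    ∑ k ∈ range n, vertexExt g k • d k = ∑ k : Fin n, g k • d k := by
  rw [Finset.sum_range]
  simp only [vertexExt_fin]

theorem vertex_sub {M : Type*} [AddCommMonoid M] [Module ℝ M] (p : W → ℝ)
    [Fintype {τ : W // p τ ≠ 0}] (f : W → M) :
    ∑ τ : {τ : W // p τ ≠ 0}, p τ.1 • f τ.1 = ∑ τ, p τ • f τ := by
  classical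
  rw [← Finset.sum_subtype (univ.filter fun τ => p τ ≠ 0) (by simp) fun τ => p τ • f τ]
  refine Finset.sum_subset (filter_subset _ _) fun τ _ hτ => ?_
  have : p τ = 0 := by simpa using hτ
  rw [this, zero_smul]

theorem vertex_indep {lam μ κ : I → ℝ} (hμ : Reg μ) {n : ℕ} {η : ℕ → W} {t : ℕ → ℝ}
    (hG : R.UGood μ lam n η t) (hmax : R.UMax μ lam κ n η t) :
    LinearIndependent ℝ (fun j : Fin n => η j • μ - η (j + 1) • μ) := by
  rw [Fintype.linearIndependent_iff]
  intro g hg j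
  have hs : ∑ k ∈ range n, vertexExt g k • (η k • μ - η (k + 1) • μ) = 0 := by
    rw [vertex_sum_ext g fun k => η k • μ - η (k + 1) • μ]; exact hg
  have key := R.var hμ hG hmax (A := Bool) (fun _ => 1 / 2) (fun _ => by norm_num)
    (by rw [Fintype.sum_bool]; norm_num) (fun _ k => η (k + 1))
    (fun i k => cond i (vertexExt g k) (-vertexExt g k))
    (fun i k => cond i (vertexExt g k) (-vertexExt g k)) (fun _ _ _ => le_rfl)
    (fun _ k hk z hz => ⟨hG.2.2.2 k hk z hz, R.le_refl' _⟩)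
    (by
      intro i
      cases i
      · simp only [cond_false, sub_self, smul_zero, add_zero, neg_smul, Finset.sum_neg_distrib, hs,
          neg_zero]
      · simp only [cond_true, sub_self, smul_zero, add_zero, hs])
    (by
      intro k _
      simp only [Fintype.sum_bool, cond_true, cond_false, sub_self, smul_zero, add_zero, neg_smul,
        smul_neg, add_neg_cancel])
  rcases (key true j j.2).1 with h | h
  · rw [← vertexExt_fin g j]; exact h
  · exact absurd h (hG.2.2.1 j j.2)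

theorem vertex_end {lam μ κ : I → ℝ} {n : ℕ} {η : ℕ → W} {t : ℕ → ℝ}
    (hG : R.UGood μ lam n η t) (hmax : R.UMax μ lam κ n η t) :
    ∃ x : W, x • κ - lam - η n • μ = ∑ k ∈ range n, t k • (η k • μ - η (k + 1) • μ) := by
  obtain ⟨x, hx⟩ := hmax.1
  refine ⟨x⁻¹, ?_⟩
  rw [← hx, inv_smul_smul, upath, one_smul, Finset.sum_congr rfl fun k hk => by
    rw [min_eq_right (hG.2.1 k (mem_range.1 hk)).2.le]]
  abel

theorem vertex_span {lam μ κ : I → ℝ} (hg : R.Generic lam μ κ) {n : ℕ} {η : ℕ → W} {t : ℕ → ℝ}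
    (hG : R.UGood μ lam n η t) (hmax : R.UMax μ lam κ n η t) :
    Submodule.span ℝ (Set.range fun j : Fin n => η j • μ - η (j + 1) • μ) = ⊤ := by
  by_contra hne
  obtain ⟨x, hx⟩ := R.vertex_end hG hmax
  refine hg.1 x (η n) _ ?_ hne ?_
  · rintro _ ⟨j, rfl⟩
    exact ⟨_, _, rfl⟩
  · rw [hx, Finset.sum_range]
    exact Submodule.sum_mem _ fun k _ => Submodule.smul_mem _ _ (Submodule.subset_span ⟨k, rfl⟩)

theorem vertex_reg {lam μ κ : I → ℝ} (hμ : Reg μ) (hg : R.Generic lam μ κ) {n : ℕ} {η : ℕ → W}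
    {t : ℕ → ℝ} (hG : R.UGood μ lam n η t) (hmax : R.UMax μ lam κ n η t) {j : ℕ} (hj : j < n)
    (δ : ι) : R.cv δ (upath μ lam n η t (t j)) ≠ 0 := by
  intro h0
  obtain ⟨x, hx⟩ := R.vertex_end hG hmax
  have hn := (R.vertex_indep hμ hG hmax).fintype_card_le_finrank
  rw [Fintype.card_fin] at hn
  let c : ℕ → ℝ := fun k => if k < j then R.cv δ (η (k + 1) • μ - η k • μ)
    else if k = j then -R.cv δ (η j • μ) else 0
  let q : Fin n → (I → ℝ) × ℝ := fun k => (η k • μ - η (k + 1) • μ, c k)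
  rw [upath_between μ lam n η t hj.le (fun k hk => (hG.1 k j hk hj).le) (fun k hk hkn => by
    rcases hk.eq_or_lt with rfl | h
    exacts [le_rfl, (hG.1 j k h hkn).le]), map_add, map_add, map_sum, map_smul] at h0
  have hc : ∑ k ∈ range n, t k • c k = R.cv δ lam := by
    have h1 : ∑ k ∈ range n, t k • c k = ∑ k ∈ range (j + 1), t k • c k := by
      refine (Finset.sum_subset (range_subset_range.2 hj) fun k _ hk => ?_).symm
      have hk' : j + 1 ≤ k := by simpa using hk
      simp only [c, if_neg (by omega : ¬ k < j), if_neg (by omega : ¬ k = j), smul_zero]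
    have h2 : ∑ k ∈ range j, t k • c k =
        -∑ k ∈ range j, R.cv δ (t k • (η k • μ - η (k + 1) • μ)) := by
      rw [← Finset.sum_neg_distrib]
      refine Finset.sum_congr rfl fun k hk => ?_
      simp only [c, if_pos (mem_range.1 hk), map_smul, map_sub, smul_eq_mul]
      ring
    have h3 : c j = -R.cv δ (η j • μ) := by simp only [c, lt_irrefl, if_false, if_true]
    rw [h1, Finset.sum_range_succ, h2, h3, smul_neg]
    linarith
  refine hg.2 x (η n) δ (Set.range q) ?_ ?_ ?_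
  · rintro _ ⟨k, rfl⟩
    by_cases h1 : (k : ℕ) < j
    · exact ⟨η k, η (k + 1), η (k + 1), η k, Or.inl (by simp only [q, c, if_pos h1])⟩
    · by_cases h2 : (k : ℕ) = j
      · exact ⟨η k, η (k + 1), η j, 1, Or.inr (by simp only [q, c, if_neg h1, if_pos h2])⟩
      · exact ⟨η k, η (k + 1), 1, 1, Or.inl (by
          simp only [q, c, if_neg h1, if_neg h2, sub_self, map_zero])⟩
  · intro htop
    have h1 := finrank_range_le_card (R := ℝ) q
    rw [Set.finrank, htop, finrank_top, Module.finrank_prod, Module.finrank_self,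
      Fintype.card_fin] at h1
    omega
  · have : (x • κ - lam - η n • μ, R.cv δ lam) = ∑ k : Fin n, t k • q k := by
      rw [hx, ← hc, Finset.sum_range, Finset.sum_range]
      refine Prod.ext ?_ ?_
      · rw [Prod.fst_sum]; rfl
      · rw [Prod.snd_sum]; rfl
    rw [this]
    exact Submodule.sum_mem _ fun k _ => Submodule.smul_mem _ _ (Submodule.subset_span ⟨k, rfl⟩)

/-- the chamber of a turning point is unique -/
theorem vertex_unique {lam μ κ : I → ℝ} (hμ : Reg μ) (hg : R.Generic lam μ κ) {n : ℕ} {η : ℕ → W}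
    {t : ℕ → ℝ} (hG : R.UGood μ lam n η t) (hmax : R.UMax μ lam κ n η t) {j : ℕ} (hj : j < n)
    {x z : W} (hx : Dom (x • upath μ lam n η t (t j))) (hz : Dom (z • upath μ lam n η t (t j))) :
    z = x := by
  have hr : Reg (x • upath μ lam n η t (t j)) := fun i => by
    refine lt_of_le_of_ne (hx i) (Ne.symm ?_)
    rw [← R.cv_sr i (x • upath μ lam n η t (t j)), R.cv_smul]
    exact R.vertex_reg hμ hg hG hmax hj _
  have h := R.eq_one_of_reg (w := z * x⁻¹) hr (by rwa [mul_smul, inv_smul_smul])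
  exact mul_inv_eq_one.1 h

theorem vertex_cover {lam μ κ : I → ℝ} (hμ : Reg μ) (hg : R.Generic lam μ κ) {n : ℕ} {η : ℕ → W}
    {t : ℕ → ℝ} (hG : R.UGood μ lam n η t) (hmax : R.UMax μ lam κ n η t) {j : ℕ} (hj : j < n)
    {x : W} (hx : Dom (x • upath μ lam n η t (t j))) :
    R.len (x * η j) = R.len (x * η (j + 1)) + 1 := by
  classical
  have hle := hG.2.2.2 j hj x hx
  have hlt := R.len_lt_of_le hle fun h => hG.2.2.1 j hj (mul_left_cancel h)
  by_contra hne
  obtain ⟨p, q, hp0, hp1, hp2, hp3⟩ := R.conv hμ hle (by omega)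
  have hind := Fintype.linearIndependent_iff.1 (R.vertex_indep hμ hG hmax)
  have hex : ∀ τ : W, ∃ g : Fin n → ℝ, ∑ k : Fin n, g k • (η k • μ - η (k + 1) • μ) =
      -((x⁻¹ * τ) • μ - η (j + 1) • μ) := fun τ =>
    (Submodule.mem_span_range_iff_exists_fun ℝ).1 (by
      rw [R.vertex_span hg hG hmax]; exact Submodule.mem_top)
  choose g hgs using hex
  let A := {τ : W // p τ ≠ 0}
  let ζ : A → ℕ → W := fun τ k => if k = j then x⁻¹ * τ.1 else η (k + 1)
  let θ : A → ℕ → ℝ := fun τ => vertexExt (g τ.1)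
  let y : A → ℕ → ℝ := fun τ k => if k = j then θ τ k + 1 else θ τ k
  let e : W → I → ℝ := fun τ => (x⁻¹ * τ) • μ - η (j + 1) • μ
  have hA1 : ∑ τ : A, p τ.1 = 1 := by
    have := vertex_sub (M := ℝ) p fun _ => 1
    simpa only [smul_eq_mul, mul_one, hp1] using this
  have hterm : ∀ (τ : A) (k : ℕ), θ τ k • (η k • μ - ζ τ k • μ) + y τ k • (ζ τ k • μ - η (k + 1) • μ)
      = θ τ k • (η k • μ - η (k + 1) • μ) + if k = j then e τ.1 else 0 := by
    intro τ k
    by_cases hk : k = j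
    · subst hk
      simp only [ζ, y, e, if_true]
      generalize (x⁻¹ * τ.1) • μ = a, η k • μ = b, η (k + 1) • μ = c
      module
    · simp only [ζ, y, if_neg hk, sub_self, smul_zero]
  have hend : ∀ τ : A, ∑ k ∈ range n,
      (θ τ k • (η k • μ - ζ τ k • μ) + y τ k • (ζ τ k • μ - η (k + 1) • μ)) = 0 := by
    intro τ
    simp only [hterm]
    rw [Finset.sum_add_distrib, Finset.sum_ite_eq' (range n) j, if_pos (mem_range.2 hj),
      vertex_sum_ext (g τ.1) fun k => η k • μ - η (k + 1) • μ, hgs]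
    exact neg_add_cancel _
  have he : ∑ τ : A, p τ.1 • e τ.1 = q • (η j • μ - η (j + 1) • μ) := by
    have h1 : ∑ τ, p τ • ((x⁻¹ * τ) • μ) = x⁻¹ • ∑ τ, p τ • (τ • μ) := by
      rw [Finset.smul_sum]
      exact Finset.sum_congr rfl fun τ _ => by rw [mul_smul, smul_comm x⁻¹ (p τ)]
    rw [vertex_sub p e]
    simp only [e, smul_sub]
    rw [Finset.sum_sub_distrib, h1, hp3, ← Finset.sum_smul, hp1, smul_add, smul_comm x⁻¹ q,
      smul_comm x⁻¹ (1 - q), mul_smul, mul_smul, inv_smul_smul, inv_smul_smul]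
    generalize η j • μ = b, η (j + 1) • μ = c
    module
  let a : ℕ → ℝ := fun k => ∑ τ : A, p τ.1 * θ τ k + if k = j then q else 0
  have hrow : ∀ k, ∑ τ : A, p τ.1 • (θ τ k • (η k • μ - ζ τ k • μ) +
      y τ k • (ζ τ k • μ - η (k + 1) • μ)) = a k • (η k • μ - η (k + 1) • μ) := by
    intro k
    simp only [hterm, smul_add, a, add_smul, Finset.sum_add_distrib, Finset.sum_smul, mul_smul]
    congr 1
    by_cases hk : k = j
    · subst hk
      simp only [if_true, he]
    · simp only [if_neg hk, smul_zero, Finset.sum_const_zero, zero_smul]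
  have ha : ∀ k : Fin n, a k = 0 := by
    refine hind (fun k => a k) ?_
    rw [← Finset.sum_range fun k => a k • (η k • μ - η (k + 1) • μ)]
    simp only [← hrow]
    rw [Finset.sum_comm]
    simp only [← Finset.smul_sum, hend, smul_zero, Finset.sum_const_zero]
  have key := R.var hμ hG hmax (A := A) (fun τ => p τ.1)
    (fun τ => lt_of_le_of_ne (hp0 _) (Ne.symm τ.2)) hA1 ζ θ y
    (fun τ k _ => by simp only [y]; split_ifs <;> linarith)
    (by
      intro τ k hk z hz
      by_cases hkj : k = j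
      · subst hkj
        obtain rfl := R.vertex_unique hμ hg hG hmax hk hx hz
        simp only [ζ, if_true, mul_inv_cancel_left]
        exact ⟨(hp2 _ τ.2).2.1, (hp2 _ τ.2).1⟩
      · simp only [ζ, if_neg hkj]
        exact ⟨hG.2.2.2 k hk z hz, R.le_refl' _⟩)
    hend (fun k hk => by rw [hrow, ha ⟨k, hk⟩, zero_smul])
  obtain ⟨τ, hτ⟩ : ∃ τ, p τ ≠ 0 := by
    by_contra h
    push Not at h
    simp only [h, Finset.sum_const_zero] at hp1
    exact zero_ne_one hp1
  obtain ⟨h1, h2⟩ := key ⟨τ, hτ⟩ j hj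
  simp only [ζ, y, if_true] at h1 h2
  rcases h1 with h1 | h1
  · rcases h2 with h2 | h2
    · rw [h1, zero_add] at h2
      exact one_ne_zero h2
    · exact (hp2 τ hτ).2.2.2 (inv_mul_eq_iff_eq_mul.1 h2)
  · exact (hp2 τ hτ).2.2.1 (inv_mul_eq_iff_eq_mul.1 h1)

/-- the unfolded root of a turn -/
theorem vertex_root {lam μ κ : I → ℝ} (hμ : Reg μ) (hg : R.Generic lam μ κ) {n : ℕ} {η : ℕ → W}
    {t : ℕ → ℝ} (hG : R.UGood μ lam n η t) (hmax : R.UMax μ lam κ n η t) {j : ℕ} (hj : j < n) :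
    ∃ g : ι, (∃ c : ℝ, η j • μ - η (j + 1) • μ = c • R.rt g) ∧
      ∀ x : W, Dom (x • upath μ lam n η t (t j)) →
        ∃ β, R.Cover (x * η j) β ∧ R.s β * (x * η j) = x * η (j + 1) ∧ x⁻¹ • β = g := by
  obtain ⟨x, hx⟩ := R.exists_dom (upath μ lam n η t (t j))
  obtain ⟨a, ha1, ha2⟩ := R.exists_cchain (hG.2.2.2 j hj x hx)
  have hl := R.cchain_len ha1
  rw [ha2, R.vertex_cover hμ hg hG hmax hj hx] at hl
  obtain ⟨β, rfl⟩ := List.length_eq_one_iff.1 (Nat.add_left_cancel hl)
  have h2 : R.s β * (x * η j) = x * η (j + 1) := ha2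
  refine ⟨x⁻¹ • β, ⟨R.cv β ((x * η j) • μ), ?_⟩, fun z hz => ?_⟩
  · have h3 : η (j + 1) • μ = x⁻¹ • (R.s β • ((x * η j) • μ)) := by
      rw [← mul_smul (R.s β), h2, mul_smul, inv_smul_smul]
    rw [h3, R.s_smul', smul_sub, smul_comm x⁻¹ (R.cv β ((x * η j) • μ)), R.smul_rt, mul_smul,
      inv_smul_smul, sub_sub_cancel]
  · obtain rfl := R.vertex_unique hμ hg hG hmax hj hx hz
    exact ⟨β, ha1.1, h2, rfl⟩

theorem vertex_isBas {n : ℕ} {d : Fin n → I → ℝ} (h1 : LinearIndependent ℝ d)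
    (h2 : Submodule.span ℝ (Set.range d) = ⊤) (γ : Fin n → ι) (h : ∀ j, ∃ c : ℝ, d j = c • R.rt (γ j)) :
    R.IsBas (List.ofFn γ) := by
  choose c hc using h
  have hc0 : ∀ j, c j ≠ 0 := fun j h0 => h1.ne_zero j (by rw [hc, h0, zero_smul])
  have h3 : LinearIndependent ℝ fun j => R.rt (γ j) := by
    rw [Fintype.linearIndependent_iff] at h1 ⊢
    intro g hg j
    have := h1 (fun k => g k / c k) (by
      rw [← hg]
      exact Finset.sum_congr rfl fun k _ => by rw [hc, smul_smul, div_mul_cancel₀ _ (hc0 k)]) j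
    exact (div_eq_zero_iff.1 this).resolve_right (hc0 j)
  refine ⟨?_, ?_⟩
  · have h4 := h3.comp (Fin.cast (List.length_ofFn (f := γ))) (Fin.cast_injective _)
    convert h4 using 2 with j
    simp only [List.get_ofFn, Function.comp]
  · rw [eq_top_iff, ← h2, Submodule.span_le]
    rintro _ ⟨j, rfl⟩
    rw [hc]
    exact Submodule.smul_mem _ _ (Submodule.subset_span ⟨γ j, List.mem_ofFn.2 ⟨j, rfl⟩, rfl⟩)

theorem vertex_fin {lam μ κ : I → ℝ} (hμ : Reg μ) (hg : R.Generic lam μ κ) {n : ℕ} {η : ℕ → W}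
    {t : ℕ → ℝ} (hG : R.UGood μ lam n η t) (hmax : R.UMax μ lam κ n η t) :
    ∃ γ : Fin n → ι, R.IsBas (List.ofFn γ) ∧
      ∀ j : Fin n, ∀ x : W, Dom (x • upath μ lam n η t (t j)) →
        ∃ β, R.Cover (x * η j) β ∧ R.s β * (x * η j) = x * η (j + 1) ∧ x⁻¹ • β = γ j := by
  choose γ h1 h2 using fun j : Fin n => R.vertex_root hμ hg hG hmax j.2
  exact ⟨γ, R.vertex_isBas (R.vertex_indep hμ hG hmax) (R.vertex_span hg hG hmax) γ h1, h2⟩

/-- at a generic maximiser the turns are covers whose unfolded roots form a basis -/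
theorem vertex [Nonempty ι] {lam μ κ : I → ℝ} (hμ : Reg μ) (hg : R.Generic lam μ κ) {n : ℕ}
    {η : ℕ → W} {t : ℕ → ℝ} (hG : R.UGood μ lam n η t) (hmax : R.UMax μ lam κ n η t) :
    ∃ γ : ℕ → ι, R.IsBas ((List.range n).map γ) ∧
      ∀ j < n, ∀ x : W, Dom (x • upath μ lam n η t (t j)) →
        ∃ β, R.Cover (x * η j) β ∧ R.s β * (x * η j) = x * η (j + 1) ∧ x⁻¹ • β = γ j := by
  obtain ⟨γ, h1, h2⟩ := R.vertex_fin hμ hg hG hmax
  refine ⟨fun k => if h : k < n then γ ⟨k, h⟩ else Classical.arbitrary ι, ?_, fun j hj x hx => ?_⟩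
  · convert h1 using 1
    refine List.ext_getElem (by simp) fun k hk hk' => ?_
    have hkn : k < n := by simpa using hk
    simp only [List.getElem_map, List.getElem_range, List.getElem_ofFn, dif_pos hkn]
  · simpa only [dif_pos hj] using h2 ⟨j, hj⟩ x hx

/-- the same in every rank, in the shape used for folding -/
theorem vertex_fl {lam μ κ : I → ℝ} (hμ : Reg μ) (hg : R.Generic lam μ κ) {n : ℕ}
    {η : ℕ → W} {t : ℕ → ℝ} (hG : R.UGood μ lam n η t) (hmax : R.UMax μ lam κ n η t) :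
    ∃ Γ : ℕ → List ι, R.IsBas ((List.range n).map Γ).flatten ∧
      ∀ j < n, ∀ x : W, Dom (x • upath μ lam n η t (t j)) →
        ∃ bs, R.CChain (x * η j) bs ∧ R.endb (x * η j) bs = x * η (j + 1) ∧
          (bs.map fun β => x⁻¹ • β) = Γ j := by
  obtain ⟨γ, h1, h2⟩ := R.vertex_fin hμ hg hG hmax
  refine ⟨fun k => if h : k < n then [γ ⟨k, h⟩] else [], ?_, fun j hj x hx => ?_⟩
  · convert h1 using 1
    have : ((List.range n).map fun k => if h : k < n then [γ ⟨k, h⟩] else []) =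
        (List.ofFn γ).map fun a => [a] := by
      refine List.ext_getElem (by simp) fun k hk hk' => ?_
      have hkn : k < n := by simpa using hk
      simp only [List.getElem_map, List.getElem_range, List.getElem_ofFn, dif_pos hkn]
    rw [this]
    generalize List.ofFn γ = L
    induction L with
    | nil => rfl
    | cons a L ih => rw [List.map_cons, List.flatten_cons, ih]; rfl
  · obtain ⟨β, h3, h4, h5⟩ := h2 ⟨j, hj⟩ x hx
    exact ⟨[β], ⟨h3, trivial⟩, h4, by simp only [List.map_cons, List.map_nil, dif_pos hj, h5]⟩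

end RD

end Pool.Agent.Lib.MP_1e3767_al
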