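import Pool.Agent.Lib.MP_1e3767_al.Fold
import Pool.Agent.Lib.MP_1e3767_al.Unfold
import Pool.Agent.Lib.MP_1e3767_al.Vertex
import Pool.Agent.Lib.MP_1e3767_al.Compact
import Pool.Agent.Lib.MP_1e3767_al.Perturb
import Pool.Agent.Lib.MP_1e3767_al.Integral

set_option linter.unusedSectionVars false

namespace Pool.Agent.Lib.MP_1e3767_al

open Finset

namespace RD
variable {I ι W : Type*} [Fintype I] [DecidableEq I] [Fintype ι] [Group W] [Fintype W]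
  [DistribMulAction W (I → ℝ)] [SMulCommClass W ℝ (I → ℝ)] [MulAction W ι] (R : RD I ι W)

theorem dom_of_domDat {lam μ κ : I → ℝ} {l : List (ℝ × ι)} (h : R.DomDat lam μ κ l) :
    Dom lam ∧ Dom κ := by
  obtain ⟨hm, hd, he⟩ := h
  refine ⟨?_, ?_⟩
  · have := hd 0 ⟨le_rfl, zero_le_one⟩
    rwa [R.path_zero μ hm.1, add_zero] at this
  · rw [← he]; exact hd 1 ⟨zero_le_one, le_rfl⟩

theorem psi_eq {lam μ : I → ℝ} {l : List (ℝ × ι)} (hl : R.IsChain R.w0 0 l) {n : ℕ} {η : ℕ → W}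
    {t : ℕ → ℝ} (hd : ∀ τ ∈ Set.Icc (0:ℝ) 1, Dom (lam + R.path μ R.w0 l τ))
    (he : ∀ τ ∈ Set.Icc (0:ℝ) 1, ∃ y : W, lam + R.path μ R.w0 l τ = y • upath μ lam n η t τ) :
    R.Psi μ lam n η t = R.ht lam + R.Phi μ R.w0 l := by
  have h1 : R.Psi μ lam n η t = ∫ τ in (0:ℝ)..1, (R.ht lam + R.ht (R.path μ R.w0 l τ)) := by
    unfold Psi
    refine intervalIntegral.integral_congr fun τ hτ => ?_
    rw [Set.uIcc_of_le zero_le_one] at hτ
    obtain ⟨y, hy⟩ := he τ hτ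
    have := R.fabs_of_dom (hd τ hτ)
    rw [← map_add, ← this, hy, R.fabs_smul]
  have hc : Continuous fun τ => R.ht (R.path μ R.w0 l τ) :=
    R.continuous_ht.comp (R.continuous_path μ R.w0 l)
  rw [h1, intervalIntegral.integral_add (continuous_const.intervalIntegrable _ _)
    (hc.intervalIntegrable _ _), R.integral_ht_path μ hl]
  simp

theorem end_eq (R : RD I ι W) {κ : I → ℝ} (hκ : Dom κ) {v u : I → ℝ} (hv : Dom v) {x y : W}
    (hx : x • u = κ) (hy : v = y • u) : v = κ := by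
  have h1 : (y * x⁻¹) • κ = v := by rw [← hx, mul_smul, inv_smul_smul, hy]
  have h2 := R.dom_unique hκ (w := y * x⁻¹) (by rw [h1]; exact hv)
  rw [← h1, h2]

/-- a valid unfolded datum folds to a dominant datum with the same value -/
theorem fold_valid {lam μ κ : I → ℝ} (hμ : Dom μ) (hl : Dom lam) (hκ : Dom κ) {n : ℕ} {η : ℕ → W}
    {t : ℕ → ℝ} (hv : R.UValid μ lam n η t) (he : ∃ x : W, x • upath μ lam n η t 1 = κ) :
    ∃ l, R.DomDat lam μ κ l ∧ R.Psi μ lam n η t = R.ht lam + R.Phi μ R.w0 l := by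
  obtain ⟨l, Ls, hmax, -, -, -, hd⟩ := R.fold_max hμ hl n η t (fun _ _ => True) hv.1 hv.2.1
    (fun j hj x hx => by
      obtain ⟨bs, h1, h2⟩ := R.exists_cchain (hv.2.2 j hj x hx)
      exact ⟨bs, h1, h2, trivial⟩)
  refine ⟨l.map Prod.fst, ⟨hmax, fun τ hτ => (hd τ hτ).1, ?_⟩,
    R.psi_eq hmax.1 (fun τ hτ => (hd τ hτ).1) (fun τ hτ => (hd τ hτ).2)⟩
  obtain ⟨x, hx⟩ := he
  obtain ⟨h1, y, hy⟩ := hd 1 ⟨zero_le_one, le_rfl⟩
  exact R.end_eq hκ h1 hx hy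

/-- generic triples carry a tagged datum -/
theorem tagDat_of_generic {lam μ κ : I → ℝ} (hμ : Reg μ) (hg : R.Generic lam μ κ)
    (h : ∃ l, R.DomDat lam μ κ l) : ∃ l, R.TagDat lam μ κ l := by
  obtain ⟨l, hl, hlmax⟩ := R.exists_max h
  obtain ⟨hlam, hκ⟩ := R.dom_of_domDat hl
  have hμd : Dom μ := fun i => (hμ i).le
  obtain ⟨n, η, t, hG, hx⟩ := R.unfold hμ hl.1.1 hl.2.1
  have hpsi : R.Psi μ lam n η t = R.ht lam + R.Phi μ R.w0 l :=
    R.psi_eq hl.1.1 hl.2.1 (fun τ hτ => by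
      obtain ⟨x, hx⟩ := hx τ hτ
      exact ⟨x, hx.symm⟩)
  have hend : ∃ x : W, x • upath μ lam n η t 1 = κ := by
    obtain ⟨x, hx⟩ := hx 1 ⟨zero_le_one, le_rfl⟩
    exact ⟨x, hx.trans hl.2.2⟩
  have hmax : R.UMax μ lam κ n η t := by
    refine ⟨hend, fun n' η' t' hv he => ?_⟩
    obtain ⟨l', hl', hp⟩ := R.fold_valid hμd hlam hκ hv he
    rw [hp, hpsi]
    linarith [hlmax l' hl']
  obtain ⟨Γ, hbas, hΓ⟩ := R.vertex_fl hμ hg hG hmax
  obtain ⟨l2, Ls, hm2, htag, hrel, hlab, hd⟩ := R.fold_max hμd hlam n η t (fun j L => L = Γ j)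
    (fun j k hjk hk => by
      rcases hjk.eq_or_lt with rfl | hlt
      · exact le_rfl
      · exact (hG.1 j k hlt hk).le)
    (fun j hj => ⟨(hG.2.1 j hj).1.le, (hG.2.1 j hj).2.le⟩) hΓ
  refine ⟨l2, ⟨hm2, fun τ hτ => (hd τ hτ).1, ?_⟩, htag, ?_⟩
  · obtain ⟨x, hx⟩ := hend
    obtain ⟨h1, y, hy⟩ := hd 1 ⟨zero_le_one, le_rfl⟩
    exact R.end_eq hκ h1 hx hy
  · have h1 : (List.range n).map Ls = (List.range n).map Γ :=
      List.map_congr_left fun j hj => hrel j (List.mem_range.1 hj)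
    rw [hlab, h1]
    exact hbas

/-- every triple joined by a real dominant datum carries a tagged datum -/
theorem tagDat_of_domDat {lam μ κ : I → ℝ} (hμ : Dom μ) (h : ∃ l, R.DomDat lam μ κ l) :
    ∃ l, R.TagDat lam μ κ l := by
  have hc := R.isClosed_tagDat
  have : (lam, μ, κ) ∈ closure
      {L : (I → ℝ) × (I → ℝ) × (I → ℝ) | ∃ l, R.TagDat L.1 L.2.1 L.2.2 l} := by
    rw [Metric.mem_closure_iff]
    intro ε hε
    obtain ⟨μ', U, hreg, hd, hU, hne, hall⟩ := R.exists_open hμ h hε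
    obtain ⟨L, hL, hgen⟩ := R.exists_generic μ' hU hne
    obtain ⟨h1, h2, h3⟩ := hall L hL
    refine ⟨(L.1, μ', L.2), R.tagDat_of_generic hreg hgen h3, ?_⟩
    simp only [Prod.dist_eq, max_lt_iff]
    exact ⟨by rwa [dist_comm], by rwa [dist_comm], by rwa [dist_comm]⟩
  rwa [hc.closure_eq] at this

/-- saturation at the level of paths -/
theorem sat {k : ℕ} (hk : R.KDiv k) {lam μ κ : I → ℝ} (hμ : Dom μ) (hl : IntV lam) (hμi : IntV μ)
    (hQ : R.InQ (lam + μ - κ)) (h : ∃ l, R.DomDat lam μ κ l) :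
    ∃ π ∈ R.BB ((k : ℝ) • μ), (∀ t ∈ Set.Icc (0:ℝ) 1, Dom ((k : ℝ) • lam + π t)) ∧
      (k : ℝ) • lam + π 1 = (k : ℝ) • κ := by
  obtain ⟨l, hl'⟩ := R.tagDat_of_domDat hμ h
  have hLS := R.isLS_of_tagDat hk hl hμi hQ hl'
  obtain ⟨hm, hd, he⟩ := hl'.1
  refine ⟨_, ⟨l.map Prod.fst, hm, hLS, rfl⟩, fun t ht i => ?_, ?_⟩
  · rw [R.path_smul, ← smul_add]
    exact mul_nonneg (Nat.cast_nonneg k) (hd t ht i)
  · rw [R.path_smul, ← smul_add, he]

/-- scaling down -/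
theorem domDat_of_scaled {N : ℕ} (hN : 0 < N) {lam μ κ : I → ℝ} {π : ℝ → I → ℝ}
    (hπ : π ∈ R.BB ((N : ℝ) • μ)) (hd : ∀ t ∈ Set.Icc (0:ℝ) 1, Dom ((N : ℝ) • lam + π t))
    (he : (N : ℝ) • lam + π 1 = (N : ℝ) • κ) : ∃ l, R.DomDat lam μ κ l := by
  obtain ⟨l, hm, -, rfl⟩ := hπ
  have hN' : (0 : ℝ) < N := Nat.cast_pos.2 hN
  refine ⟨l, hm, fun t ht i => ?_, ?_⟩
  · have := hd t ht i
    rw [R.path_smul, ← smul_add] at this
    exact nonneg_of_mul_nonneg_right this hN' 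
  · rw [R.path_smul, ← smul_add] at he
    exact smul_right_injective _ hN'.ne' he

end RD

end Pool.Agent.Lib.MP_1e3767_al
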