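import Pool.Agent.Lib.MP_1e3767_al.Integral
import Pool.Agent.Lib.MP_1e3767_al.Sat

set_option linter.unusedSectionVars false

namespace Pool.Agent.Lib.MP_1e3767_al

open Finset

namespace RD
variable {I ι W : Type*} [Fintype I] [DecidableEq I] [Fintype ι] [Group W] [Fintype W]
  [DistribMulAction W (I → ℝ)] [SMulCommClass W ℝ (I → ℝ)] [MulAction W ι] (R : RD I ι W)

/-- connected Dynkin diagram -/
def Conn : Prop :=
  ∀ (p : I → Prop) (i j : I), p i → (∀ a b, p a → R.rt (R.sr a) b ≠ 0 → p b) → p j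

theorem mark_key (φ : (I → ℝ) →ₗ[ℝ] ℝ)
    (h0 : ∀ i, 0 ≤ φ (R.rt (R.sr i))) (h1 : ∀ β, φ (R.rt β) ≤ 1)
    (hs : Submodule.span ℝ (R.rt '' {γ | ∃ z : ℤ, φ (R.rt γ) = z}) = ⊤) {i : I}
    (hi : 0 < φ (R.rt (R.sr i))) :
    ∃ θ ∈ R.Pos, Dom (R.rt θ) ∧ (R.cf θ i : ℝ) * φ (R.rt (R.sr i)) = 1 ∧
      ∀ j, j ≠ i → (R.cf θ j : ℝ) * φ (R.rt (R.sr j)) = 0 := by
  choose X hX using alcA_coord R
  have hsr : ∀ a b, X a (R.rt (R.sr b)) = if a = b then 1 else 0 := fun a b => by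
    rw [hX, R.cf_sr]
    by_cases hab : a = b
    · subst hab; simp
    · simp [hab]
  obtain ⟨θ0, hθ0, e0, hne0⟩ : ∃ θ ∈ R.Pos, φ (R.rt θ) = 1 ∧ (R.cf θ i : ℝ) ≠ 0 := by
    by_contra hc
    push Not at hc
    have := alcA_kill R φ h0 h1 hs (X i) (fun β hβ => by rw [hX]; exact alcA_zero R φ h0 hβ hi)
      (fun β hβ hb => by rw [hX]; exact hc β hβ hb)
    have h2 := hsr i i
    rw [this] at h2
    simp at h2
  obtain ⟨θ, hθ, hd, e, hc0⟩ := alcA_top R φ h0 h1 hθ0 e0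
  have hne : (R.cf θ i : ℝ) ≠ 0 := by rw [hc0 i hi]; exact hne0
  have hoth : ∀ j, j ≠ i → (R.cf θ j : ℝ) * φ (R.rt (R.sr j)) = 0 := fun j hji => by
    rcases (h0 j).lt_or_eq with hj | hj
    swap
    · rw [← hj, mul_zero]
    by_contra hc
    have hne' : (R.cf θ j : ℝ) ≠ 0 := fun h => hc (by rw [h, zero_mul])
    have := alcA_kill R φ h0 h1 hs ((R.cf θ j : ℝ) • X i - (R.cf θ i : ℝ) • X j)
      (fun β hβ => by
        simp [hX, alcA_zero R φ h0 hβ hi, alcA_zero R φ h0 hβ hj])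
      (fun β hβ hb => by
        simp only [LinearMap.sub_apply, LinearMap.smul_apply, hX, smul_eq_mul]
        rcases alcA_dich R φ h0 h1 hβ hθ hb e with h | h
        · rw [h i hi, h j hj]; ring
        · rw [h i hi hne, h j hj hne']; ring)
    have h2 := congrArg (fun f : (I → ℝ) →ₗ[ℝ] ℝ => f (R.rt (R.sr i))) this
    simp only [LinearMap.sub_apply, LinearMap.smul_apply, hsr, smul_eq_mul] at h2
    simp [hji] at h2
    exact hne' (by exact_mod_cast h2)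
  refine ⟨θ, hθ, hd, ?_, hoth⟩
  rw [← e, alcA_phi R φ θ, sum_eq_single i (fun j _ hj => hoth j hj) (by simp)]

/-- a dominant positive root of a connected diagram has full support -/
theorem mark_full (hc : R.Conn) {θ : ι} (hp : θ ∈ R.Pos) (hd : Dom (R.rt θ)) {i : I}
    (hi : R.cf θ i ≠ 0) (j : I) : R.cf θ j ≠ 0 := by
  refine hc (fun a => R.cf θ a ≠ 0) i j hi fun a b ha hab hb => hab ?_
  have hnp : ∀ c ∈ (univ : Finset I), (R.cf θ c : ℝ) * R.rt (R.sr c) b ≤ 0 := fun c _ => by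
    by_cases hc : c = b
    · subst hc; simp [hb]
    · exact mul_nonpos_of_nonneg_of_nonpos (by exact_mod_cast R.pos_cf θ hp c)
        (alcA_sr_nonpos R hc)
  have h1 : ∑ c, (R.cf θ c : ℝ) * R.rt (R.sr c) b = 0 :=
    le_antisymm (sum_nonpos hnp) (by rw [← alcA_rt_apply]; exact hd b)
  have h2 := (sum_eq_zero_iff_of_nonpos hnp).1 h1 a (mem_univ a)
  rcases mul_eq_zero.1 h2 with h3 | h3
  · exact absurd (by exact_mod_cast h3) ha
  · exact h3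

theorem mark_fund [Nonempty I] (hc : R.Conn) (φ : (I → ℝ) →ₗ[ℝ] ℝ)
    (h0 : ∀ i, 0 ≤ φ (R.rt (R.sr i))) (h1 : ∀ β, φ (R.rt β) ≤ 1)
    (hs : Submodule.span ℝ (R.rt '' {γ | ∃ z : ℤ, φ (R.rt γ) = z}) = ⊤) :
    ∃ (θ : ι) (i : I) (d : ℕ), 0 < d ∧ R.cf θ i = d ∧
      ∀ j, ∃ z : ℤ, d * φ (R.rt (R.sr j)) = z := by
  by_cases hz : ∀ i, φ (R.rt (R.sr i)) = 0
  · obtain ⟨i⟩ := ‹Nonempty I›
    exact ⟨R.sr i, i, 1, one_pos, by simp [R.cf_sr], fun j => ⟨0, by simp [hz j]⟩⟩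
  push Not at hz
  obtain ⟨i, hi⟩ := hz
  have hi' : 0 < φ (R.rt (R.sr i)) := lt_of_le_of_ne (h0 i) hi.symm
  obtain ⟨θ, hθ, hd, hone, hoth⟩ := R.mark_key φ h0 h1 hs hi'
  have hne : R.cf θ i ≠ 0 := fun h => by simp [h] at hone
  have hnn := R.pos_cf θ hθ i
  obtain ⟨d, hd'⟩ := Int.eq_ofNat_of_zero_le hnn
  refine ⟨θ, i, d, Nat.pos_of_ne_zero fun h => hne (by simp [hd', h]), hd', fun j => ?_⟩
  by_cases hj : j = i
  · subst hj
    refine ⟨1, ?_⟩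
    rw [hd'] at hone
    simpa using hone
  · have h2 := hoth j hj
    have h3 : (R.cf θ j : ℝ) ≠ 0 := by exact_mod_cast R.mark_full hc hθ hd hne j
    exact ⟨0, by simp [(mul_eq_zero.1 h2).resolve_left h3]⟩

theorem mark_alcove [Nonempty I] (hc : R.Conn) (φ : (I → ℝ) →ₗ[ℝ] ℝ)
    (hs : Submodule.span ℝ (R.rt '' {γ | ∃ z : ℤ, φ (R.rt γ) = z}) = ⊤) :
    ∃ (θ : ι) (i : I) (d : ℕ), 0 < d ∧ R.cf θ i = d ∧
      ∀ q, R.InQ q → ∃ z : ℤ, d * φ q = z := by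
  obtain ⟨w, ψ, h0, h1, hψ⟩ := R.exists_fund φ
  have hs' : Submodule.span ℝ (R.rt '' {γ | ∃ z : ℤ, ψ (R.rt γ) = z}) = ⊤ := by
    rw [eq_top_iff]
    intro v _
    have hv : w • v ∈ Submodule.span ℝ (R.rt '' {γ | ∃ z : ℤ, φ (R.rt γ) = z}) := by
      rw [hs]
      trivial
    have h2 := Submodule.mem_map_of_mem (f := DistribSMul.toLinearMap ℝ (I → ℝ) w⁻¹) hv
    rw [Submodule.map_span] at h2
    have e : DistribSMul.toLinearMap ℝ (I → ℝ) w⁻¹ (w • v) = v := inv_smul_smul w v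
    rw [e] at h2
    refine Submodule.span_mono ?_ h2
    rintro _ ⟨_, ⟨γ, ⟨z, hz⟩, rfl⟩, rfl⟩
    obtain ⟨y, hy⟩ := hψ (w⁻¹ • γ)
    refine ⟨w⁻¹ • γ, ⟨z + y, ?_⟩, R.smul_rt _ _⟩
    rw [hy, smul_inv_smul, hz]
    push_cast
    ring
  obtain ⟨θ, i, d, hd, hθ, ha⟩ := R.mark_fund hc ψ h0 h1 hs'
  refine ⟨θ, i, d, hd, hθ, fun q hq => ?_⟩
  obtain ⟨c, hc⟩ := R.inQ_smul hq w⁻¹
  have hq' : q = ∑ i, (c i : ℝ) • R.rt (w • R.sr i) := by
    rw [← smul_inv_smul w q, hc, smul_sum]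
    refine sum_congr rfl fun i _ => ?_
    rw [smul_comm w (c i : ℝ), R.smul_rt]
  choose a ha using ha
  choose y hy using fun i => hψ (R.sr i)
  refine ⟨∑ i, c i * (a i - d * y i), ?_⟩
  rw [hq', map_sum, mul_sum]
  push_cast
  refine sum_congr rfl fun i _ => ?_
  rw [map_smul, smul_eq_mul, ← ha i, hy i]
  ring

theorem exists_kDiv : ∃ k : ℕ, 0 < k ∧ R.KDiv k := by
  refine ⟨∏ p : ι × I, if R.cf p.1 p.2 = 0 then 1 else (R.cf p.1 p.2).natAbs, ?_, fun β i h => ?_⟩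
  · refine prod_pos fun p _ => ?_
    split_ifs with h
    · exact one_pos
    · exact Int.natAbs_pos.2 h
  · rw [← Int.natAbs_dvd, Int.natCast_dvd_natCast]
    have := dvd_prod_of_mem
      (fun p : ι × I => if R.cf p.1 p.2 = 0 then 1 else (R.cf p.1 p.2).natAbs) (mem_univ (β, i))
    simpa [h] using this

theorem mark_coeff [Nonempty I] (hc : R.Conn) {L : List ι} (hL : R.IsBas L)
    (c : Fin L.length → ℝ) (hq : R.InQ (∑ j, c j • R.rt (L.get j))) :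
    ∃ (θ : ι) (i : I) (d : ℕ), 0 < d ∧ R.cf θ i = d ∧ ∀ j, ∃ z : ℤ, d * c j = z := by
  obtain ⟨k, hk0, hk⟩ := R.exists_kDiv
  choose a ha using R.coeff_int_of_isBas hk hL c hq
  obtain ⟨g, hg⟩ := Finset.gcd_eq_sum_mul (univ : Finset (Fin L.length)) a
  have hsp : ⊤ ≤ Submodule.span ℝ (Set.range fun j : Fin L.length => R.rt (L.get j)) := by
    rw [← hL.2]
    refine Submodule.span_mono ?_
    rintro _ ⟨γ, hγ, rfl⟩
    obtain ⟨n, rfl⟩ := List.mem_iff_get.1 hγ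
    exact ⟨n, rfl⟩
  let b := Module.Basis.mk hL.1 hsp
  have hb : ∀ j n, b.coord j (R.rt (L.get n)) = if n = j then 1 else 0 := fun j n => by
    have e : R.rt (L.get n) = b n := (Module.Basis.mk_apply hL.1 hsp n).symm
    rw [e, Module.Basis.coord_apply, Module.Basis.repr_self, Finsupp.single_apply]
  let φ : (I → ℝ) →ₗ[ℝ] ℝ := ∑ j, (g j : ℝ) • b.coord j
  have hφ : ∀ n, φ (R.rt (L.get n)) = g n := fun n => by
    simp only [φ, LinearMap.sum_apply, LinearMap.smul_apply, hb, smul_eq_mul, mul_ite, mul_one,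
      mul_zero, sum_ite_eq, mem_univ, if_true]
  have hs : Submodule.span ℝ (R.rt '' {γ | ∃ z : ℤ, φ (R.rt γ) = z}) = ⊤ := by
    rw [eq_top_iff, ← hL.2]
    refine Submodule.span_mono (Set.image_mono fun γ hγ => ?_)
    obtain ⟨n, rfl⟩ := List.mem_iff_get.1 hγ
    exact ⟨g n, hφ n⟩
  obtain ⟨θ, i, d, hd, hθ, hz⟩ := R.mark_alcove hc φ hs
  refine ⟨θ, i, d, hd, hθ, fun j => ?_⟩
  obtain ⟨z, hz⟩ := hz _ hq
  obtain ⟨t, ht⟩ : (univ : Finset (Fin L.length)).gcd a ∣ a j := gcd_dvd (mem_univ j)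
  have hk' : (k : ℝ) ≠ 0 := Nat.cast_ne_zero.2 hk0.ne'
  have h1 : (k : ℝ) * φ (∑ j, c j • R.rt (L.get j)) =
      (((univ : Finset (Fin L.length)).gcd a : ℤ) : ℝ) := by
    rw [hg, map_sum, mul_sum]
    push_cast
    refine sum_congr rfl fun n _ => ?_
    rw [map_smul, hφ, smul_eq_mul, ← ha n]
    ring
  refine ⟨t * z, mul_left_cancel₀ hk' ?_⟩
  have h2 : (k : ℝ) * c j = (((univ : Finset (Fin L.length)).gcd a : ℤ) : ℝ) * t := by
    rw [ha j, ht]; push_cast; ring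
  push_cast
  rw [← hz, mul_left_comm, h2, ← h1]
  ring

theorem mark_isLS [Nonempty I] (hc : R.Conn) {lam μ κ : I → ℝ} (hl : IntV lam) (hμ : IntV μ)
    (hQ : R.InQ (lam + μ - κ)) {l : List ((ℝ × ι) × Fin 4)} (h : R.TagDat lam μ κ l) :
    ∃ (θ : ι) (i : I) (d : ℕ), 0 < d ∧ R.cf θ i = d ∧
      ∀ k : ℕ, d ∣ k → R.IsLS ((k : ℝ) • μ) R.w0 (l.map Prod.fst) := by
  obtain ⟨⟨⟨hch, hend⟩, _, hκ⟩, htag, hbas⟩ := h
  rw [R.integral_labels μ l R.w0 1] at hbas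
  have hic : lam + R.icpt μ R.w0 (l.map Prod.fst) = lam + -(lam + μ - κ) := by
    rw [R.path_eq_corr, hend, R.corr_of_ge μ R.w0 _ (fun p hp => (R.isChain_mem hch p hp).2),
      one_smul, one_smul] at hκ
    rw [← hκ]
    abel
  obtain ⟨y, hy⟩ := R.integral_unfold hμ l R.w0 1 lam htag
  rw [hic, one_smul] at hy
  have hint : IntV (lam + -(lam + μ - κ)) :=
    integral_intV_add hl (R.intV_of_inQ (R.inQ_neg hQ))
  have h1 := R.inQ_sub (R.inQ_neg (R.inQ_add (R.inQ_sub_smul hint y) hy)) hQ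
  have he : ∀ A B C D : I → ℝ, -((A + -B) - C + (C - A - D)) - B = D := by
    intro A B C D
    abel
  rw [he] at h1
  set M := R.integralLc μ R.w0 1 l with hM
  have hlen : (M.map Prod.snd).length = M.length := List.length_map _
  have hsum : ∑ j : Fin (M.map Prod.snd).length,
      (M[j.1]'(hlen ▸ j.2)).1 • R.rt ((M.map Prod.snd).get j) =
      (M.map (fun p => p.1 • R.rt p.2)).sum := by
    rw [← Fin.sum_univ_fun_getElem M (fun p => p.1 • R.rt p.2)]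
    refine Fintype.sum_equiv (finCongr hlen) _ _ ?_
    intro j
    simp
  obtain ⟨θ, i, d, hd, hθ, hz⟩ :=
    R.mark_coeff hc hbas (fun j => (M[j.1]'(hlen ▸ j.2)).1) (hsum ▸ h1)
  refine ⟨θ, i, d, hd, hθ, fun k hk => ?_⟩
  obtain ⟨e, rfl⟩ := hk
  refine R.integral_isLS hμ l R.w0 1 lam htag ?_ fun p hp => ?_
  · have := integral_intV_zsmul hl ((d * e : ℕ) : ℤ)
    rwa [Int.cast_natCast] at this
  · obtain ⟨j, hj, rfl⟩ := List.getElem_of_mem hp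
    obtain ⟨z, hz⟩ := hz ⟨j, hlen ▸ hj⟩
    refine ⟨e * z, ?_⟩
    push_cast
    rw [← hz]
    ring

/-- saturation at the level of paths by a single root coefficient -/
theorem sat_mark [Nonempty I] (hc : R.Conn) {lam μ κ : I → ℝ} (hμ : Dom μ) (hl : IntV lam)
    (hμi : IntV μ) (hQ : R.InQ (lam + μ - κ)) (h : ∃ l, R.DomDat lam μ κ l) :
    ∃ (θ : ι) (i : I) (d : ℕ), 0 < d ∧ R.cf θ i = d ∧ ∀ k : ℕ, d ∣ k →
      ∃ π ∈ R.BB ((k : ℝ) • μ), (∀ t ∈ Set.Icc (0:ℝ) 1, Dom ((k : ℝ) • lam + π t)) ∧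
        (k : ℝ) • lam + π 1 = (k : ℝ) • κ := by
  obtain ⟨l, hl'⟩ := R.tagDat_of_domDat hμ h
  obtain ⟨θ, i, d, hd, hθ, hLS⟩ := R.mark_isLS hc hl hμi hQ hl'
  refine ⟨θ, i, d, hd, hθ, fun k hk => ?_⟩
  obtain ⟨hm, hd, he⟩ := hl'.1
  refine ⟨_, ⟨l.map Prod.fst, hm, hLS k hk, rfl⟩, fun t ht i => ?_, ?_⟩
  · rw [R.path_smul, ← smul_add]
    exact mul_nonneg (Nat.cast_nonneg k) (hd t ht i)
  · rw [R.path_smul, ← smul_add, he]

end RD

end Pool.Agent.Lib.MP_1e3767_al
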