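import Pool.Agent.Lib.MP_1e3767_al.H27Var
import Pool.Agent.Lib.MP_1e3767_al.Mark

set_option linter.unusedSectionVars false

namespace Pool.Agent.Lib.MP_1e3767_al

open Finset

namespace RD
variable {I ι W : Type*} [Fintype I] [DecidableEq I] [Fintype ι] [Group W] [Fintype W]
  [DistribMulAction W (I → ℝ)] [SMulCommClass W ℝ (I → ℝ)] [MulAction W ι] (R : RD I ι W)

/-- timed chain from `w` to the identity -/
def IsMaxW (w : W) (l : List (ℝ × ι)) : Prop := R.IsChain w 0 l ∧ R.endp w l = 1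

/-- dominant real datum from `lam` to `κ` of shape `μ` with first direction below `w` -/
def DomDatW (w : W) (lam μ κ : I → ℝ) (l : List (ℝ × ι)) : Prop :=
  R.IsMaxW w l ∧ (∀ t ∈ Set.Icc (0:ℝ) 1, Dom (lam + R.path μ w l t)) ∧
    lam + R.path μ w l 1 = κ

/-- tagged dominant datum whose internal labels form a basis -/
def TagDatW (w : W) (lam μ κ : I → ℝ) (l : List ((ℝ × ι) × Fin 4)) : Prop :=
  R.DomDatW w lam μ κ (l.map Prod.fst) ∧ R.Tagged μ w lam l ∧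
    R.IsBas (R.labels 1 (l.map (fun q => (q.1.2, q.2))))

/-- the inversions of `w` span -/
def Full (w : W) : Prop := Submodule.span ℝ (R.rt '' {γ | R.Step w γ}) = ⊤

variable {w : W}

theorem compact_domDatW {X : Type*} [TopologicalSpace X] {lam μ κ : X → I → ℝ} (hl : Continuous lam) (hμ : Continuous μ)
    (hκ : Continuous κ) (bs : List ι) {a : X → ℕ → ℝ} (ha : Continuous a) :
    IsClosed {x | R.DomDatW w (lam x) (μ x) (κ x) (cmk0 bs (a x))} := by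
  simp only [DomDatW, IsMaxW, endp, cmk0_snd, Set.ofPred_and]
  refine ((R.compact_chain bs _ _ _ continuous_const ha).inter isClosed_const).inter
    (IsClosed.inter ?_ (isClosed_eq (hl.add (R.compact_path hμ 1 bs _ _ ha)) hκ))
  simp only [Set.ofPred_forall]
  exact isClosed_iInter fun t => isClosed_iInter fun _ =>
    isClosed_dom.preimage (hl.add (R.compact_path hμ t bs _ _ ha))

theorem compact_lengthW {lam μ κ : I → ℝ} {l : List (ℝ × ι)} (h : R.DomDatW w lam μ κ l) :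
    l.length = R.len w := by
  have := R.isChain_length h.1.1
  rw [h.1.2, R.len_one] at this
  omega

theorem exists_maxW {lam μ κ : I → ℝ} (h : ∃ l, R.DomDatW w lam μ κ l) :
    ∃ l, R.DomDatW w lam μ κ l ∧ ∀ l', R.DomDatW w lam μ κ l' → R.Phi μ w l' ≤ R.Phi μ w l := by
  have hK : IsCompact (Set.univ.pi fun _ : ℕ => Set.Icc (0:ℝ) 1) :=
    isCompact_univ_pi fun _ => isCompact_Icc
  let S : Set ℝ := ⋃ bs ∈ {bs : List ι | bs.length = R.len w},
    (fun a => R.Phi μ w (cmk0 bs a)) ''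
      ((Set.univ.pi fun _ : ℕ => Set.Icc (0:ℝ) 1) ∩ {a | R.DomDatW w lam μ κ (cmk0 bs a)})
  have hS : IsCompact S := (List.finite_length_eq ι _).isCompact_biUnion fun bs _ =>
    (hK.inter_right (R.compact_domDatW continuous_const continuous_const continuous_const bs
      continuous_id)).image (R.compact_phi μ bs _ _ continuous_id)
  have hmem : ∀ l, R.DomDatW w lam μ κ l → R.Phi μ w l ∈ S := fun l hl => by
    obtain ⟨a, ha, he⟩ := exists_cmk0 l fun q hq => R.isChain_mem hl.1.1 q hq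
    refine Set.mem_biUnion (x := l.map Prod.snd) (by simpa using R.compact_lengthW hl)
      ⟨a, ⟨fun n _ => ha n, ?_⟩, ?_⟩
    · change R.DomDatW w lam μ κ _
      rwa [he]
    · simp only [he]
  obtain ⟨l0, hl0⟩ := h
  obtain ⟨m, hm, hmax⟩ := hS.exists_isGreatest ⟨_, hmem l0 hl0⟩
  obtain ⟨bs, -, a, ⟨-, ha⟩, rfl⟩ := Set.mem_iUnion₂.1 hm
  exact ⟨_, ha, fun l' hl' => hmax (hmem l' hl')⟩

theorem isClosed_tagDatW :
    IsClosed {L : (I → ℝ) × (I → ℝ) × (I → ℝ) | ∃ l, R.TagDatW w L.1 L.2.1 L.2.2 l} := by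
  have hK : IsCompact (Set.univ.pi fun _ : ℕ => Set.Icc (0:ℝ) 1) :=
    isCompact_univ_pi fun _ => isCompact_Icc
  have : CompactSpace (Set.univ.pi fun _ : ℕ => Set.Icc (0:ℝ) 1) := isCompact_iff_compactSpace.1 hK
  have he : {L : (I → ℝ) × (I → ℝ) × (I → ℝ) | ∃ l, R.TagDatW w L.1 L.2.1 L.2.2 l} =
      ⋃ T ∈ {T : List (ι × Fin 4) | T.length = R.len w}, Prod.fst ''
        {x : ((I → ℝ) × (I → ℝ) × (I → ℝ)) × (Set.univ.pi fun _ : ℕ => Set.Icc (0:ℝ) 1) |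
          R.TagDatW w x.1.1 x.1.2.1 x.1.2.2 (cmk T x.2.1)} := by
    ext L
    simp only [Set.mem_ofPred_eq, Set.mem_iUnion, Set.mem_image, exists_prop]
    constructor
    · rintro ⟨l, hl⟩
      obtain ⟨a, ha, he⟩ := exists_cmk l fun q hq =>
        R.isChain_mem hl.1.1.1 q.1 (List.mem_map_of_mem hq)
      refine ⟨l.map fun q => (q.1.2, q.2), by simpa using R.compact_lengthW hl.1,
        (L, ⟨a, fun n _ => ha n⟩), ?_, rfl⟩
      change R.TagDatW w _ _ _ (cmk _ a)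
      rwa [he]
    · rintro ⟨T, -, x, hx, rfl⟩
      exact ⟨_, hx⟩
  rw [he]
  refine (List.finite_length_eq _ _).isClosed_biUnion fun T _ =>
    isClosedMap_fst_of_compactSpace _ ?_
  simp only [TagDatW, cmk_fst, cmk_type, Set.ofPred_and]
  have ha : Continuous fun x : ((I → ℝ) × (I → ℝ) × (I → ℝ)) ×
      (Set.univ.pi fun _ : ℕ => Set.Icc (0:ℝ) 1) => (x.2.1 : ℕ → ℝ) :=
    continuous_subtype_val.comp continuous_snd
  exact (R.compact_domDatW (by fun_prop) (by fun_prop) (by fun_prop) _ ha).inter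
    ((R.compact_tagged (by fun_prop) T _ _ _ (by fun_prop) ha).inter isClosed_const)

theorem exists_openW (hw : R.Full w) {lam μ κ : I → ℝ} (hμ : Dom μ) (h : ∃ l, R.DomDatW w lam μ κ l) {ε : ℝ}
    (hε : 0 < ε) : ∃ (μ' : I → ℝ) (U : Set ((I → ℝ) × (I → ℝ))), Reg μ' ∧ dist μ' μ < ε ∧
      IsOpen U ∧ U.Nonempty ∧
      ∀ L ∈ U, dist L.1 lam < ε ∧ dist L.2 κ < ε ∧ ∃ l, R.DomDatW w L.1 μ' L.2 l := by
  obtain ⟨l, ⟨hch, hend⟩, hdom, hκ⟩ := h
  obtain ⟨a, ha⟩ := perturbTl_ex l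
  generalize l.map Prod.snd = bs at ha
  subst ha
  rw [endp, perturbTl_snd] at hend
  obtain ⟨hc, hb, hm⟩ := (R.perturb_chain _ _ _ _).1 hch
  obtain ⟨K1, hK1, hlip⟩ := R.perturb_lip μ w bs
  obtain ⟨K2, hK2, hbd⟩ := R.perturb_bd rho w bs
  obtain ⟨C, hC⟩ : ∃ C, C = 1 + 2 * K1 + K2 := ⟨_, rfl⟩
  obtain ⟨e, he0, he1, he2⟩ : ∃ e : ℝ, 0 < e ∧ e < 1 ∧ (2 * C) * e < ε := by
    have h1 : 0 < 2 * C := by rw [hC]; positivity
    refine ⟨min (1 / 2) (ε / (2 * C) / 2), by positivity,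
      (min_le_left _ _).trans_lt (by norm_num), ?_⟩
    have h2 : min (1 / 2) (ε / (2 * C) / 2) < ε / (2 * C) :=
      (min_le_right _ _).trans_lt (half_lt_self (by positivity))
    rwa [lt_div_iff₀' h1] at h2
  have hreg : Reg (μ + e • rho) := fun i => by
    have := hμ i
    simp only [Pi.add_apply, Pi.smul_apply, rho, smul_eq_mul]
    linarith
  obtain ⟨Λ, hΛ, hr⟩ := R.perturb_lin hreg w bs
  have hsurj : LinearMap.range Λ = ⊤ := by
    rw [eq_top_iff, ← show _ = ⊤ from hw, Submodule.span_le]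
    rintro _ ⟨γ, hγ, rfl⟩
    refine Submodule.span_le.2 ?_ (R.len_aux_span hc hend γ hγ)
    rintro _ ⟨γ, hγ, rfl⟩
    exact hr γ hγ
  obtain ⟨σ, hσ⟩ := Λ.exists_rightInverse_of_surjective hsurj
  have hσ' : ∀ v, Λ (σ v) = v := fun v => LinearMap.congr_fun hσ v
  obtain ⟨M, hM⟩ : ∃ M : ℝ, M = bs.length + 1 := ⟨_, rfl⟩
  have hM1 : 1 ≤ M := by rw [hM]; linarith [Nat.cast_nonneg (α := ℝ) bs.length]
  obtain ⟨r, hr0, hrM⟩ : ∃ r : ℝ, 0 < r ∧ r * (2 * M) = e :=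
    ⟨e / (2 * M), by positivity, div_mul_cancel₀ _ (by positivity)⟩
  have hre : 2 * r ≤ e := by nlinarith
  obtain ⟨b, hbk⟩ : ∃ b : ℕ → ℝ, ∀ k, b k = (1 - e) * a k + 2 * r * (k + 1) := ⟨_, fun _ => rfl⟩
  have hk1 : ∀ k < bs.length, (k : ℝ) + 2 ≤ M := fun k hk => by
    rw [hM]
    have : ((k + 1 : ℕ) : ℝ) ≤ bs.length := Nat.cast_le.2 hk
    push_cast at this
    linarith
  have key : ∀ s : ℕ → ℝ, (∀ k < bs.length, |s k| < r) →
      (∀ k < bs.length, 0 ≤ (b + s) k ∧ (b + s) k ≤ 1) ∧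
      (∀ j k, j < k → k < bs.length → (b + s) j ≤ (b + s) k) ∧
      ∀ k < bs.length, |(b + s) k - a k| ≤ 2 * e := fun s hs => by
    refine ⟨fun k hk => ?_, fun j k hj hk => ?_, fun k hk => ?_⟩
    · have h1 := abs_lt.1 (hs k hk)
      have h2 := hb k hk
      have h3 := hk1 k hk
      have h4 : (0 : ℝ) ≤ k := Nat.cast_nonneg k
      rw [Pi.add_apply, hbk]
      constructor <;> nlinarith [h1.1, h1.2, h2.1, h2.2]
    · have h1 := abs_lt.1 (hs k hk)
      have h2 := abs_lt.1 (hs j (hj.trans hk))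
      have h3 := hm j k hj hk
      have h4 : ((j + 1 : ℕ) : ℝ) ≤ k := Nat.cast_le.2 hj
      push_cast at h4
      rw [Pi.add_apply, Pi.add_apply, hbk, hbk]
      nlinarith [h1.1, h2.2]
    · have h1 := abs_lt.1 (hs k hk)
      have h2 := hb k hk
      have h3 := hk1 k hk
      have h4 : (0 : ℝ) ≤ k := Nat.cast_nonneg k
      rw [Pi.add_apply, hbk, abs_le]
      constructor <;> nlinarith [h1.1, h1.2, h2.1, h2.2]
  have est : ∀ s : ℕ → ℝ, (∀ k < bs.length, |s k| < r) → ∀ t, 0 ≤ t → t ≤ 1 → ∀ i,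
      |R.path (μ + e • rho) w (perturbTl (b + s) bs) t i -
        R.path μ w (perturbTl a bs) t i| ≤ (C - 1) * e := fun s hs t h0 h1 i => by
    obtain ⟨k1, -, k3⟩ := key s hs
    have h2 := abs_le.1 (hlip (b + s) a (2 * e) t (by positivity) k3 i)
    have h3 := abs_le.1 (hbd (b + s) t h0 h1 (fun k hk => (k1 k hk).1) i)
    rw [R.path_add, R.path_smul, Pi.add_apply, Pi.smul_apply, smul_eq_mul, abs_le, hC]
    constructor <;> nlinarith [h2.1, h2.2, h3.1, h3.2]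
  have hC1 : 1 ≤ C := by rw [hC]; linarith
  have z0 : ∀ k < bs.length, |(0 : ℕ → ℝ) k| < r := fun k _ => by simpa using hr0
  obtain ⟨p, hp⟩ : ∃ p, p = R.path (μ + e • rho) w (perturbTl (b + 0) bs) 1 := ⟨_, rfl⟩
  obtain ⟨lam', hl⟩ : ∃ x : I → ℝ, ∀ i, x i = lam i + C * e := ⟨_, fun _ => rfl⟩
  refine ⟨μ + e • rho, {L | dist L.1 lam' < e ∧ dist L.1 lam < ε ∧ dist L.2 κ < ε ∧
    ∀ k ∈ Set.Iio bs.length, |σ (L.2 - L.1 - p) k| < r}, hreg, ?_, ?_, ⟨(lam', lam' + p), ?_⟩, ?_⟩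
  · rw [dist_pi_lt_iff hε]
    intro i
    simp only [Pi.add_apply, Pi.smul_apply, rho, smul_eq_mul, Real.dist_eq, mul_one,
      add_sub_cancel_left, abs_of_pos he0]
    nlinarith
  · refine (isOpen_lt (continuous_fst.dist continuous_const) continuous_const).inter
      ((isOpen_lt (continuous_fst.dist continuous_const) continuous_const).inter
        ((isOpen_lt (continuous_snd.dist continuous_const) continuous_const).inter ?_))
    have h1 : IsOpen (⋂ k ∈ Set.Iio bs.length,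
        {L : (I → ℝ) × (I → ℝ) | |σ (L.2 - L.1 - p) k| < r}) :=
      (Set.finite_Iio _).isOpen_biInter fun k _ => isOpen_lt
        ((((LinearMap.proj k : (ℕ → ℝ) →ₗ[ℝ] ℝ) ∘ₗ σ).continuous_of_finiteDimensional.comp
          (by fun_prop : Continuous fun L : (I → ℝ) × (I → ℝ) => L.2 - L.1 - p)).abs)
        continuous_const
    have h2 : (⋂ k ∈ Set.Iio bs.length, {L : (I → ℝ) × (I → ℝ) | |σ (L.2 - L.1 - p) k| < r}) =
        {L | ∀ k ∈ Set.Iio bs.length, |σ (L.2 - L.1 - p) k| < r} := by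
      ext L
      simp only [Set.mem_iInter, Set.mem_ofPred_eq]
    rw [h2] at h1
    exact h1
  · refine ⟨by simpa using he0, ?_, ?_, fun k _ => by simpa using hr0⟩
    · rw [dist_pi_lt_iff hε]
      intro i
      change dist (lam' i) (lam i) < ε
      rw [Real.dist_eq, hl, add_sub_cancel_left, abs_of_pos (by positivity)]
      nlinarith
    · rw [dist_pi_lt_iff hε]
      intro i
      have h1 := abs_le.1 (est 0 z0 1 zero_le_one le_rfl i)
      rw [← hp] at h1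
      change dist ((lam' + p) i) (κ i) < ε
      rw [Real.dist_eq, ← hκ, Pi.add_apply, Pi.add_apply, hl, abs_lt]
      constructor <;> nlinarith [h1.1, h1.2]
  · rintro L ⟨h1, h2, h3, h4⟩
    obtain ⟨k1, k2, -⟩ := key _ h4
    refine ⟨h2, h3, perturbTl (b + σ (L.2 - L.1 - p)) bs,
      ⟨(R.perturb_chain _ _ _ _).2 ⟨hc, k1, k2⟩, by rw [endp, perturbTl_snd, hend]⟩,
      fun t ht i => ?_, ?_⟩
    · have h5 := abs_le.1 (est _ h4 t ht.1 ht.2 i)
      have h6 := hdom t ht i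
      have h7 := abs_lt.1 ((dist_pi_lt_iff he0).1 h1 i)
      rw [hl] at h7
      rw [Pi.add_apply] at h6 ⊢
      linarith [h5.1, h7.1]
    · rw [R.perturb_end _ _ _ _ (fun k hk => ((key 0 z0).1 k hk).2), hΛ, add_zero] at hp
      rw [R.perturb_end _ _ _ _ (fun k hk => (k1 k hk).2), hΛ, map_add, hσ', hp]
      abel

theorem fold_maxW {μ P : I → ℝ} (hμ : Dom μ) (hP : Dom P) (n : ℕ) (η : ℕ → W) (t : ℕ → ℝ)
    (hw : R.Le (η 0) w) (Rel : ℕ → List ι → Prop) (hm : ∀ j k, j ≤ k → k < n → t j ≤ t k)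
    (hI : ∀ j < n, 0 ≤ t j ∧ t j ≤ 1)
    (hf : ∀ j < n, ∀ x : W, Dom (x • upath μ P n η t (t j)) →
      ∃ bs, R.CChain (x * η j) bs ∧ R.endb (x * η j) bs = x * η (j + 1) ∧
        Rel j (bs.map fun β => x⁻¹ • β)) :
    ∃ (l : List ((ℝ × ι) × Fin 4)) (Ls : ℕ → List ι),
      R.IsMaxW w (l.map Prod.fst) ∧ R.Tagged μ w P l ∧ (∀ k < n, Rel k (Ls k)) ∧
      R.labels 1 (l.map fun q => (q.1.2, q.2)) = ((List.range n).map Ls).flatten ∧
      ∀ τ ∈ Set.Icc (0:ℝ) 1, Dom (P + R.path μ w (l.map Prod.fst) τ) ∧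
        ∃ y : W, P + R.path μ w (l.map Prod.fst) τ = y • upath μ P n η t τ := by
  classical
  have hx : Dom ((1 : W) • upath μ P n η t 0) := by
    rw [fold_smul_upath μ P n η t (Nat.zero_le n) (τ := 0) (fun k hk => by omega)
      (fun k _ hk => (hI k hk).1) 1]
    simpa using hP
  obtain ⟨l, Ls, q1, q2, q3, q4, q5, q6⟩ := R.fold_aux hμ n η t Rel hm (fun j hj => (hI j hj).2)
    hf 0 (Nat.zero_le n) 0 zero_le_one (fun k hk => by omega) (fun k _ hk => (hI k hk).1) 1 hx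
  simp only [one_mul, one_smul, range_zero, sum_empty, add_zero, inv_one, Nat.sub_zero]
    at q1 q2 q5 q6
  obtain ⟨as, ha1, ha2⟩ := R.exists_cchain hw
  obtain ⟨bs, hb1, hb2⟩ := R.exists_cchain (R.one_le (R.endp (η 0) (l.map Prod.fst)))
  have hA : (as.map fun β => (((0 : ℝ), β), (2 : Fin 4))).map Prod.fst =
      as.map fun β => ((0 : ℝ), β) := by
    simp [List.map_map, Function.comp_def]
  have hB : (bs.map fun β => (((1 : ℝ), β), (3 : Fin 4))).map Prod.fst =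
      bs.map fun β => ((1 : ℝ), β) := by
    simp [List.map_map, Function.comp_def]
  have cA : ∀ p ∈ (as.map fun β => ((0 : ℝ), β)), p.1 = 0 := by
    intro p hp
    obtain ⟨β, -, rfl⟩ := List.mem_map.1 hp
    rfl
  have cB : ∀ p ∈ (bs.map fun β => ((1 : ℝ), β)), p.1 = 1 := by
    intro p hp
    obtain ⟨β, -, rfl⟩ := List.mem_map.1 hp
    rfl
  have hB1 : R.IsChain (R.endp (η 0) (l.map Prod.fst)) 0 (bs.map fun β => ((1 : ℝ), β)) :=
    R.isChain_map_const hb1 zero_le_one le_rfl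
  have hlB : R.IsChain (η 0) 0 (l.map Prod.fst ++ bs.map fun β => ((1 : ℝ), β)) := by
    rw [R.isChain_append]
    exact ⟨q1, hB1, fun p hp q hq => (R.isChain_mem q1 p hp).2.trans (cB q hq).ge⟩
  refine ⟨(as.map fun β => (((0 : ℝ), β), (2 : Fin 4))) ++
    (l ++ bs.map fun β => (((1 : ℝ), β), (3 : Fin 4))), Ls, ⟨?_, ?_⟩, ?_,
    fun k hk => q4 k (Nat.zero_le k) hk, ?_, fun τ hτ => ?_⟩
  · rw [List.map_append, List.map_append, hA, hB, R.isChain_append, R.endp_map_const, ha2]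
    exact ⟨R.isChain_map_const ha1 le_rfl zero_le_one, hlB,
      fun p hp q hq => (cA p hp).le.trans (R.isChain_mem hlB q hq).1⟩
  · rw [List.map_append, List.map_append, hA, hB, R.endp_append, R.endp_append,
      R.endp_map_const, R.endp_map_const, ha2, hb2]
  · rw [R.tagged_append, hA, R.endp_map_const, R.fold_icpt_const, ha2, zero_smul, add_zero,
      R.tagged_append]
    refine ⟨R.fold_tagged_of μ _ (fun q hq => ?_) _ _, q2,
      R.fold_tagged_of μ _ (fun q hq => ?_) _ _⟩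
    · obtain ⟨β, -, rfl⟩ := List.mem_map.1 hq
      exact ⟨show (2 : Fin 4) ≠ 1 by decide, fun _ => rfl,
        fun h => absurd h (show ¬ (2 : Fin 4) = 3 by decide)⟩
    · obtain ⟨β, -, rfl⟩ := List.mem_map.1 hq
      exact ⟨show (3 : Fin 4) ≠ 1 by decide,
        fun h => absurd h (show ¬ (3 : Fin 4) = 2 by decide), fun _ => rfl⟩
  · rw [List.map_append, List.map_append, R.fold_labels_skip, R.fold_labels_end, q5,
      List.range_eq_range']
    · intro q hq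
      obtain ⟨r, hr, rfl⟩ := List.mem_map.1 hq
      obtain ⟨β, -, rfl⟩ := List.mem_map.1 hr
      exact ⟨show (3 : Fin 4) ≠ 0 by decide, show (3 : Fin 4) ≠ 1 by decide⟩
    · intro q hq
      obtain ⟨r, hr, rfl⟩ := List.mem_map.1 hq
      obtain ⟨β, -, rfl⟩ := List.mem_map.1 hr
      exact ⟨show (2 : Fin 4) ≠ 0 by decide, show (2 : Fin 4) ≠ 1 by decide⟩
  · have : R.path μ w (((as.map fun β => (((0 : ℝ), β), (2 : Fin 4))) ++
        (l ++ bs.map fun β => (((1 : ℝ), β), (3 : Fin 4)))).map Prod.fst) τ =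
        R.path μ (η 0) (l.map Prod.fst) τ := by
      rw [List.map_append, List.map_append, hA, hB, R.path_append, R.corr_const μ _ _ cA,
        min_eq_right hτ.1, zero_smul, add_zero, R.endp_map_const, ha2, R.path_append,
        R.path_of_le μ _ _ (t := τ) (fun p hp => hτ.2.trans (cB p hp).ge), ← R.path_eq_corr]
    rw [this]
    exact q6 τ hτ

theorem unfoldW {μ : I → ℝ} (hμ : Reg μ) {l : List (ℝ × ι)} {u : W} {P : I → ℝ}
    (hl : R.IsChain u 0 l) (hd : ∀ τ ∈ Set.Icc (0:ℝ) 1, Dom (P + R.path μ u l τ)) :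
    ∃ (n : ℕ) (η : ℕ → W) (t : ℕ → ℝ), R.Le (η 0) u ∧ R.UGood μ P n η t ∧
      ∀ τ ∈ Set.Icc (0:ℝ) 1, ∃ x : W, x • upath μ P n η t τ = P + R.path μ u l τ := by
  obtain ⟨B, l', hs, hB, hl'⟩ := R.split_le hl 0
  have hBe : ∀ p ∈ B, p.1 = 0 := fun p hp =>
    le_antisymm (hB p hp) (R.isChain_mem hl p (by rw [hs]; exact List.mem_append_left _ hp)).1
  have hch := hl
  rw [hs, R.isChain_append] at hch
  obtain ⟨hcB, hcl, _⟩ := hch
  have he : ∀ τ, 0 ≤ τ → R.path μ u l τ = R.path μ (R.endp u B) l' τ := by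
    intro τ hτ
    rw [hs, R.path_append, R.corr_const μ u B hBe, min_eq_right hτ, zero_smul, add_zero]
  obtain ⟨n, η, t, e0, e1, e2, e3, e4, e5⟩ := R.unfold_aux hμ l' (R.endp u B) P 0 hcl hl'
    (fun τ hτ => by rw [← he τ hτ.1]; exact hd τ hτ)
  exact ⟨n, η, t, e0 ▸ R.le_endp hcB, ⟨e1, e2, e3, e4⟩,
    fun τ hτ => by rw [he τ hτ.1]; exact e5 τ hτ⟩

theorem dom_of_domDatW {lam μ κ : I → ℝ} {l : List (ℝ × ι)} (h : R.DomDatW w lam μ κ l) :
    Dom lam ∧ Dom κ := by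
  obtain ⟨hm, hd, he⟩ := h
  refine ⟨?_, ?_⟩
  · have := hd 0 ⟨le_rfl, zero_le_one⟩
    rwa [R.path_zero μ hm.1, add_zero] at this
  · rw [← he]; exact hd 1 ⟨zero_le_one, le_rfl⟩

theorem psi_eqW {lam μ : I → ℝ} {l : List (ℝ × ι)} (hl : R.IsChain w 0 l) {n : ℕ} {η : ℕ → W}
    {t : ℕ → ℝ} (hd : ∀ τ ∈ Set.Icc (0:ℝ) 1, Dom (lam + R.path μ w l τ))
    (he : ∀ τ ∈ Set.Icc (0:ℝ) 1, ∃ y : W, lam + R.path μ w l τ = y • upath μ lam n η t τ) :
    R.Psi μ lam n η t = R.ht lam + R.Phi μ w l := by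
  have h1 : R.Psi μ lam n η t = ∫ τ in (0:ℝ)..1, (R.ht lam + R.ht (R.path μ w l τ)) := by
    unfold Psi
    refine intervalIntegral.integral_congr fun τ hτ => ?_
    rw [Set.uIcc_of_le zero_le_one] at hτ
    obtain ⟨y, hy⟩ := he τ hτ
    have := R.fabs_of_dom (hd τ hτ)
    rw [← map_add, ← this, hy, R.fabs_smul]
  have hc : Continuous fun τ => R.ht (R.path μ w l τ) :=
    R.continuous_ht.comp (R.continuous_path μ w l)
  rw [h1, intervalIntegral.integral_add (continuous_const.intervalIntegrable _ _)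
    (hc.intervalIntegrable _ _), R.integral_ht_path μ hl]
  simp

theorem fold_validW {lam μ κ : I → ℝ} (hμ : Dom μ) (hl : Dom lam) (hκ : Dom κ) {n : ℕ} {η : ℕ → W}
    {t : ℕ → ℝ} (hw : R.Le (η 0) w) (hv : R.UValid μ lam n η t) (he : ∃ x : W, x • upath μ lam n η t 1 = κ) :
    ∃ l, R.DomDatW w lam μ κ l ∧ R.Psi μ lam n η t = R.ht lam + R.Phi μ w l := by
  obtain ⟨l, Ls, hmax, -, -, -, hd⟩ := R.fold_maxW hμ hl n η t hw (fun _ _ => True) hv.1 hv.2.1
    (fun j hj x hx => by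
      obtain ⟨bs, h1, h2⟩ := R.exists_cchain (hv.2.2 j hj x hx)
      exact ⟨bs, h1, h2, trivial⟩)
  refine ⟨l.map Prod.fst, ⟨hmax, fun τ hτ => (hd τ hτ).1, ?_⟩,
    R.psi_eqW hmax.1 (fun τ hτ => (hd τ hτ).1) (fun τ hτ => (hd τ hτ).2)⟩
  obtain ⟨x, hx⟩ := he
  obtain ⟨h1, y, hy⟩ := hd 1 ⟨zero_le_one, le_rfl⟩
  exact R.end_eq hκ h1 hx hy

theorem tagDat_of_genericW {lam μ κ : I → ℝ} (hμ : Reg μ) (hg : R.Generic lam μ κ)
    (h : ∃ l, R.DomDatW w lam μ κ l) : ∃ l, R.TagDatW w lam μ κ l := by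
  obtain ⟨l, hl, hlmax⟩ := R.exists_maxW h
  obtain ⟨hlam, hκ⟩ := R.dom_of_domDatW hl
  have hμd : Dom μ := fun i => (hμ i).le
  obtain ⟨n, η, t, hw, hG, hx⟩ := R.unfoldW hμ hl.1.1 hl.2.1
  have hpsi : R.Psi μ lam n η t = R.ht lam + R.Phi μ w l :=
    R.psi_eqW hl.1.1 hl.2.1 (fun τ hτ => by
      obtain ⟨x, hx⟩ := hx τ hτ
      exact ⟨x, hx.symm⟩)
  have hend : ∃ x : W, x • upath μ lam n η t 1 = κ := by
    obtain ⟨x, hx⟩ := hx 1 ⟨zero_le_one, le_rfl⟩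
    exact ⟨x, hx.trans hl.2.2⟩
  have hmax : R.UMax0 μ lam κ n η t := by
    refine ⟨hend, fun n' η' t' h0 hv he => ?_⟩
    obtain ⟨l', hl', hp⟩ := R.fold_validW hμd hlam hκ (h0 ▸ hw) hv he
    rw [hp, hpsi]
    linarith [hlmax l' hl']
  obtain ⟨Γ, hbas, hΓ⟩ := R.vertex_fl0 hμ hg hG hmax
  obtain ⟨l2, Ls, hm2, htag, hrel, hlab, hd⟩ := R.fold_maxW hμd hlam n η t hw (fun j L => L = Γ j)
    (fun j k hjk hk => by
      rcases hjk.eq_or_lt with rfl | hlt
      · exact le_rfl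
      · exact (hG.1 j k hlt hk).le)
    (fun j hj => ⟨(hG.2.1 j hj).1.le, (hG.2.1 j hj).2.le⟩) hΓ
  refine ⟨l2, ⟨hm2, fun τ hτ => (hd τ hτ).1, ?_⟩, htag, ?_⟩
  · obtain ⟨x, hx⟩ := hend
    obtain ⟨h1, y, hy⟩ := hd 1 ⟨zero_le_one, le_rfl⟩
    exact R.end_eq hκ h1 hx hy
  · have h1 : (List.range n).map Ls = (List.range n).map Γ :=
      List.map_congr_left fun j hj => hrel j (List.mem_range.1 hj)
    rw [hlab, h1]
    exact hbas

theorem tagDat_of_domDatW (hw : R.Full w) {lam μ κ : I → ℝ} (hμ : Dom μ) (h : ∃ l, R.DomDatW w lam μ κ l) :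
    ∃ l, R.TagDatW w lam μ κ l := by
  have hc := R.isClosed_tagDatW (w := w)
  have : (lam, μ, κ) ∈ closure
      {L : (I → ℝ) × (I → ℝ) × (I → ℝ) | ∃ l, R.TagDatW w L.1 L.2.1 L.2.2 l} := by
    rw [Metric.mem_closure_iff]
    intro ε hε
    obtain ⟨μ', U, hreg, hd, hU, hne, hall⟩ := R.exists_openW hw hμ h hε
    obtain ⟨L, hL, hgen⟩ := R.exists_generic μ' hU hne
    obtain ⟨h1, h2, h3⟩ := hall L hL
    refine ⟨(L.1, μ', L.2), R.tagDat_of_genericW hreg hgen h3, ?_⟩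
    simp only [Prod.dist_eq, max_lt_iff]
    exact ⟨by rwa [dist_comm], by rwa [dist_comm], by rwa [dist_comm]⟩
  rwa [hc.closure_eq] at this

theorem mark_isLSW [Nonempty I] (hc : R.Conn) {lam μ κ : I → ℝ} (hl : IntV lam) (hμ : IntV μ)
    (hQ : R.InQ (lam + μ - κ)) {l : List ((ℝ × ι) × Fin 4)} (h : R.TagDatW w lam μ κ l) :
    ∃ (θ : ι) (i : I) (d : ℕ), 0 < d ∧ R.cf θ i = d ∧
      ∀ k : ℕ, d ∣ k → R.IsLS ((k : ℝ) • μ) w (l.map Prod.fst) := by
  obtain ⟨⟨⟨hch, hend⟩, _, hκ⟩, htag, hbas⟩ := h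
  rw [R.integral_labels μ l w 1] at hbas
  have hic : lam + R.icpt μ w (l.map Prod.fst) = lam + -(lam + μ - κ) := by
    rw [R.path_eq_corr, hend, R.corr_of_ge μ w _ (fun p hp => (R.isChain_mem hch p hp).2),
      one_smul, one_smul] at hκ
    rw [← hκ]
    abel
  obtain ⟨y, hy⟩ := R.integral_unfold hμ l w 1 lam htag
  rw [hic, one_smul] at hy
  have hint : IntV (lam + -(lam + μ - κ)) :=
    integral_intV_add hl (R.intV_of_inQ (R.inQ_neg hQ))
  have h1 := R.inQ_sub (R.inQ_neg (R.inQ_add (R.inQ_sub_smul hint y) hy)) hQ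
  have he : ∀ A B C D : I → ℝ, -((A + -B) - C + (C - A - D)) - B = D := by
    intro A B C D
    abel
  rw [he] at h1
  set M := R.integralLc μ w 1 l with hM
  have hlen : (M.map Prod.snd).length = M.length := List.length_map _
  have hsum : ∑ j : Fin (M.map Prod.snd).length,
      (M[j.1]'(hlen ▸ j.2)).1 • R.rt ((M.map Prod.snd).get j) =
      (M.map (fun p => p.1 • R.rt p.2)).sum := by
    rw [← Fin.sum_univ_fun_getElem M (fun p => p.1 • R.rt p.2)]
    refine Fintype.sum_equiv (finCongr hlen) _ _ ?_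
    intro j
    simp
  obtain ⟨θ, i, d, hd, hθ, hz⟩ :=
    R.mark_coeff hc hbas (fun j => (M[j.1]'(hlen ▸ j.2)).1) (hsum ▸ h1)
  refine ⟨θ, i, d, hd, hθ, fun k hk => ?_⟩
  obtain ⟨e, rfl⟩ := hk
  refine R.integral_isLS hμ l w 1 lam htag ?_ fun p hp => ?_
  · have := integral_intV_zsmul hl ((d * e : ℕ) : ℤ)
    rwa [Int.cast_natCast] at this
  · obtain ⟨j, hj, rfl⟩ := List.getElem_of_mem hp
    obtain ⟨z, hz⟩ := hz ⟨j, hlen ▸ hj⟩
    refine ⟨e * z, ?_⟩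
    push_cast
    rw [← hz]
    ring

/-- saturation for data with first direction below `w` -/
theorem sat_markW [Nonempty I] (hc : R.Conn) (hw : R.Full w) {lam μ κ : I → ℝ} (hμ : Dom μ)
    (hl : IntV lam) (hμi : IntV μ) (hQ : R.InQ (lam + μ - κ)) {N : ℕ} (hN : 0 < N)
    {l : List (ℝ × ι)} (h : R.DomDatW w ((N : ℝ) • lam) ((N : ℝ) • μ) ((N : ℝ) • κ) l) :
    ∃ (θ : ι) (i : I) (d : ℕ), 0 < d ∧ R.cf θ i = d ∧ ∀ k : ℕ, d ∣ k →
      ∃ l, R.DomDatW w ((k : ℝ) • lam) ((k : ℝ) • μ) ((k : ℝ) • κ) l ∧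
        R.IsLS ((k : ℝ) • μ) w l := by
  have hN' : (0 : ℝ) < N := Nat.cast_pos.2 hN
  have h1 : R.DomDatW w lam μ κ l := by
    obtain ⟨hm, hd, he⟩ := h
    refine ⟨hm, fun t ht i => ?_, ?_⟩
    · have := hd t ht i
      rw [R.path_smul, ← smul_add] at this
      exact nonneg_of_mul_nonneg_right this hN'
    · rw [R.path_smul, ← smul_add] at he
      exact smul_right_injective _ hN'.ne' he
  obtain ⟨l, hl'⟩ := R.tagDat_of_domDatW hw hμ ⟨l, h1⟩
  obtain ⟨θ, i, d, hd, hθ, hLS⟩ := R.mark_isLSW hc hl hμi hQ hl'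
  refine ⟨θ, i, d, hd, hθ, fun k hk => ?_⟩
  obtain ⟨hm, hd, he⟩ := hl'.1
  refine ⟨l.map Prod.fst, ⟨hm, fun t ht i => ?_, ?_⟩, hLS k hk⟩
  · rw [R.path_smul, ← smul_add]
    exact mul_nonneg (Nat.cast_nonneg k) (hd t ht i)
  · rw [R.path_smul, ← smul_add, he]

end RD

end Pool.Agent.Lib.MP_1e3767_al
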