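import Pool.Agent.Lib.MP_1e3767_al.Vertex

set_option linter.unusedSectionVars false

namespace Pool.Agent.Lib.MP_1e3767_al

open Finset

namespace RD
variable {I ι W : Type*} [Fintype I] [DecidableEq I] [Fintype ι] [Group W] [Fintype W]
  [DistribMulAction W (I → ℝ)] [SMulCommClass W ℝ (I → ℝ)] [MulAction W ι] (R : RD I ι W)

/-- the datum maximises `Psi` among valid data with the same first direction and end orbit -/
def UMax0 (μ P κ : I → ℝ) (n : ℕ) (η : ℕ → W) (t : ℕ → ℝ) : Prop :=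
  (∃ x : W, x • upath μ P n η t 1 = κ) ∧
    ∀ (n' : ℕ) (η' : ℕ → W) (t' : ℕ → ℝ), η' 0 = η 0 → R.UValid μ P n' η' t' →
      (∃ x : W, x • upath μ P n' η' t' 1 = κ) → R.Psi μ P n' η' t' ≤ R.Psi μ P n η t

private noncomputable def varD (τ t e : ℝ) : ℝ :=
  (if t < τ then e else 0) - (min τ (t + e) - min τ t)

private theorem varD_nonneg (τ t e : ℝ) : 0 ≤ varD τ t e := by
  unfold varD
  split_ifs with h
  · rw [min_eq_right h.le]
    have := min_le_right τ (t + e)
    linarith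
  · rw [min_eq_left (not_lt.mp h)]
    have := min_le_left τ (t + e)
    linarith

private theorem varD_ne {τ t e : ℝ} (h : varD τ t e ≠ 0) : |τ - t| ≤ |e| := by
  unfold varD at h
  split_ifs at h with h1
  · rw [min_eq_right h1.le] at h
    have h2 : τ < t + e := by
      by_contra h3
      rw [min_eq_right (not_lt.mp h3)] at h
      exact h (by ring)
    rw [abs_of_pos (by linarith), abs_of_pos (by linarith)]
    linarith
  · have h1' : τ ≤ t := not_lt.mp h1
    rw [min_eq_left h1'] at h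
    have h2 : t + e < τ := by
      by_contra h3
      rw [min_eq_left (not_lt.mp h3)] at h
      exact h (by ring)
    rw [abs_of_nonpos (by linarith), abs_of_neg (by linarith)]
    linarith

private theorem varD_pos (t : ℝ) {e : ℝ} (he : e ≠ 0) : 0 < varD (t + e / 2) t e := by
  unfold varD
  rcases lt_or_gt_of_ne he with h | h
  · rw [if_neg (by linarith), min_eq_right (by linarith), min_eq_left (by linarith)]
    linarith
  · rw [if_pos (by linarith), min_eq_left (by linarith), min_eq_right (by linarith)]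
    linarith

/-- the averaged value of a linear functional along the varied paths -/
private theorem var_avg {μ P : I → ℝ} {n : ℕ} {η : ℕ → W} {t : ℕ → ℝ}
    {A : Type*} [Fintype A] (p : A → ℝ) (hp1 : ∑ i, p i = 1)
    (ζ : A → ℕ → W) (x y : A → ℕ → ℝ)
    (hbal : ∀ j < n, ∑ i,
      p i • (x i j • (η j • μ - ζ i j • μ) + y i j • (ζ i j • μ - η (j + 1) • μ)) = 0)
    (g : (I → ℝ) →ₗ[ℝ] ℝ) (ε τ : ℝ) :
    ∑ i, p i * g (upath μ P (2 * n) (dblW η (ζ i)) (dblT t (x i) (y i) ε) τ) =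
      g (upath μ P n η t τ) + ∑ i, ∑ j ∈ range n,
        p i * (varD τ (t j) (ε * x i j) * (-g (η j • μ - ζ i j • μ)) +
          varD τ (t j) (ε * y i j) * (-g (ζ i j • μ - η (j + 1) • μ))) := by
  have hb : ∀ j ∈ range n, ∑ i,
      p i * (x i j * g (η j • μ - ζ i j • μ) + y i j * g (ζ i j • μ - η (j + 1) • μ)) = 0 := by
    intro j hj
    have h := congrArg g (hbal j (mem_range.mp hj))
    rw [map_sum, map_zero] at h
    rw [← h]
    refine sum_congr rfl fun i _ => ?_
    rw [map_smul, map_add, map_smul, map_smul]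
    simp only [smul_eq_mul]
  have h1 : ∀ i, p i * g (upath μ P (2 * n) (dblW η (ζ i)) (dblT t (x i) (y i) ε) τ) =
      p i * g (upath μ P n η t τ) + ∑ j ∈ range n,
        (p i * (varD τ (t j) (ε * x i j) * (-g (η j • μ - ζ i j • μ)) +
          varD τ (t j) (ε * y i j) * (-g (ζ i j • μ - η (j + 1) • μ))) +
        (if t j < τ then ε else 0) * (p i * (x i j * g (η j • μ - ζ i j • μ) +
          y i j * g (ζ i j • μ - η (j + 1) • μ)))) := by
    intro i
    rw [upath_dbl, map_add, map_sum, mul_add, mul_sum]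
    congr 1
    refine sum_congr rfl fun j _ => ?_
    rw [map_add, map_smul, map_smul]
    simp only [smul_eq_mul, varD]
    split_ifs <;> ring
  rw [sum_congr rfl fun i _ => h1 i, sum_add_distrib, ← sum_mul, hp1, one_mul]
  congr 1
  simp only [sum_add_distrib]
  have h0 : ∑ i, ∑ j ∈ range n, (if t j < τ then ε else 0) *
      (p i * (x i j * g (η j • μ - ζ i j • μ) + y i j * g (ζ i j • μ - η (j + 1) • μ))) = 0 := by
    rw [sum_comm]
    refine sum_eq_zero fun j hj => ?_
    rw [← mul_sum, hb j hj, mul_zero]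
  rw [h0, add_zero]

theorem var0 {μ P κ : I → ℝ} (hμ : Reg μ) {n : ℕ} {η : ℕ → W} {t : ℕ → ℝ}
    (hG : R.UGood μ P n η t) (hmax : R.UMax0 μ P κ n η t)
    {A : Type*} [Fintype A] (p : A → ℝ) (hp : ∀ i, 0 < p i) (hp1 : ∑ i, p i = 1)
    (ζ : A → ℕ → W) (x y : A → ℕ → ℝ) (hxy : ∀ i, ∀ j < n, x i j ≤ y i j)
    (hval : ∀ i, ∀ j < n, ∀ z : W, Dom (z • upath μ P n η t (t j)) →
      R.Le (z * ζ i j) (z * η j) ∧ R.Le (z * η (j + 1)) (z * ζ i j))
    (hend : ∀ i, ∑ j ∈ range n,
      (x i j • (η j • μ - ζ i j • μ) + y i j • (ζ i j • μ - η (j + 1) • μ)) = 0)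
    (hbal : ∀ j < n, ∑ i,
      p i • (x i j • (η j • μ - ζ i j • μ) + y i j • (ζ i j • μ - η (j + 1) • μ)) = 0) :
    ∀ i, ∀ j < n, (x i j = 0 ∨ ζ i j = η j) ∧ (y i j = 0 ∨ ζ i j = η (j + 1)) := by
  classical
  have hcont := continuous_upath μ P n η t
  have hμd : Dom μ := fun i => (hμ i).le
  -- choice of a small parameter
  have ev1 : ∀ᶠ ε in nhdsWithin (0:ℝ) (Set.Ioi 0),
      ∀ i, R.UValid μ P (2 * n) (dblW η (ζ i)) (dblT t (x i) (y i) ε) := by
    rw [Filter.eventually_all]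
    intro i
    obtain ⟨ε0, h0, h1⟩ := R.dbl_valid hG (ζ i) (x i) (y i) (hxy i) (hval i)
    filter_upwards [Ioo_mem_nhdsGT h0] with ε hε using h1 ε hε.1 hε.2
  have key : ∀ (j : ℕ) (c : ℝ), ∀ᶠ ε in nhdsWithin (0:ℝ) (Set.Ioi 0), ∀ τ, |τ - t j| ≤ |ε * c| →
      ∀ z : W, Dom (z • upath μ P n η t τ) → Dom (z • upath μ P n η t (t j)) := by
    intro j c
    obtain ⟨δ, hδ, hδ'⟩ := near_dom (W := W) (upath μ P n η t (t j))
    obtain ⟨γ, hγ, hγ'⟩ := Metric.continuous_iff.mp hcont (t j) δ hδ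
    have hc : Filter.Tendsto (fun ε : ℝ => |ε * c|) (nhdsWithin 0 (Set.Ioi 0)) (nhds 0) := by
      have h : Continuous fun ε : ℝ => |ε * c| := by fun_prop
      have h2 := h.tendsto 0
      simp only [zero_mul, abs_zero] at h2
      exact h2.mono_left nhdsWithin_le_nhds
    filter_upwards [hc.eventually (gt_mem_nhds hγ)] with ε hε τ hτ
    exact hδ' _ (hγ' τ (by rw [Real.dist_eq]; exact lt_of_le_of_lt hτ hε))
  have ev2 : ∀ᶠ ε in nhdsWithin (0:ℝ) (Set.Ioi 0), ∀ i, ∀ j ∈ range n,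
      (∀ τ, |τ - t j| ≤ |ε * x i j| →
        ∀ z : W, Dom (z • upath μ P n η t τ) → Dom (z • upath μ P n η t (t j))) ∧
      (∀ τ, |τ - t j| ≤ |ε * y i j| →
        ∀ z : W, Dom (z • upath μ P n η t τ) → Dom (z • upath μ P n η t (t j))) := by
    rw [Filter.eventually_all]
    intro i
    rw [Filter.eventually_all_finset]
    intro j _
    exact (key j (x i j)).and (key j (y i j))
  obtain ⟨ε, ⟨hV, hN⟩, hε⟩ := ((ev1.and ev2).and self_mem_nhdsWithin).exists
  have hε0 : (0:ℝ) < ε := hε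
  -- the new times lie in the unit interval
  have hx01 : ∀ i, ∀ j < n, 0 ≤ t j + ε * x i j ∧ t j + ε * x i j ≤ 1 := by
    intro i j hj
    have h := (hV i).2.1 (2 * j) (by omega)
    have e1 : 2 * j % 2 = 0 := by omega
    have e2 : 2 * j / 2 = j := by omega
    simpa only [dblT, e1, e2, if_true] using h
  have hy01 : ∀ i, ∀ j < n, 0 ≤ t j + ε * y i j ∧ t j + ε * y i j ≤ 1 := by
    intro i j hj
    have h := (hV i).2.1 (2 * j + 1) (by omega)
    have e1 : ¬ (2 * j + 1) % 2 = 0 := by omega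
    have e2 : (2 * j + 1) / 2 = j := by omega
    simpa only [dblT, e1, e2, if_false] using h
  -- the end point is kept
  have hE : ∀ i, upath μ P (2 * n) (dblW η (ζ i)) (dblT t (x i) (y i) ε) 1 =
      upath μ P n η t 1 := by
    intro i
    rw [upath_dbl]
    have h : ∑ j ∈ range n, ((min 1 (t j + ε * x i j) - min 1 (t j)) • (η j • μ - ζ i j • μ) +
        (min 1 (t j + ε * y i j) - min 1 (t j)) • (ζ i j • μ - η (j + 1) • μ)) =
        ε • ∑ j ∈ range n,
          (x i j • (η j • μ - ζ i j • μ) + y i j • (ζ i j • μ - η (j + 1) • μ)) := by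
      rw [smul_sum]
      refine sum_congr rfl fun j hj => ?_
      have hj' := mem_range.mp hj
      rw [min_eq_right (hx01 i j hj').2, min_eq_right (hy01 i j hj').2,
        min_eq_right (hG.2.1 j hj').2.le, add_sub_cancel_left, add_sub_cancel_left, smul_add,
        smul_smul, smul_smul]
    rw [h, hend i, smul_zero, add_zero]
  have hle : ∀ i, R.Psi μ P (2 * n) (dblW η (ζ i)) (dblT t (x i) (y i) ε) ≤ R.Psi μ P n η t := by
    intro i
    refine hmax.2 _ _ _ (varA_W0 η (ζ i) 0) (hV i) ?_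
    rw [hE i]
    exact hmax.1
  -- pointwise comparison
  have hpt : ∀ τ, ∃ u v : A → ℕ → ℝ,
      R.fabs (upath μ P n η t τ) + ∑ i, ∑ j ∈ range n, p i * (u i j + v i j) ≤
        ∑ i, p i * R.fabs (upath μ P (2 * n) (dblW η (ζ i)) (dblT t (x i) (y i) ε) τ) ∧
      (∀ i, ∀ j ∈ range n, 0 ≤ u i j ∧ 0 ≤ v i j) ∧
      (∀ i, ∀ j ∈ range n, 0 < varD τ (t j) (ε * x i j) → ζ i j ≠ η j → 0 < u i j) ∧
      (∀ i, ∀ j ∈ range n, 0 < varD τ (t j) (ε * y i j) → ζ i j ≠ η (j + 1) → 0 < v i j) := by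
    intro τ
    obtain ⟨z, hz⟩ := R.exists_dom (upath μ P n η t τ)
    let g : (I → ℝ) →ₗ[ℝ] ℝ := R.ht ∘ₗ DistribSMul.toLinearMap ℝ (I → ℝ) z
    have hg : ∀ w, g w = R.ht (z • w) := fun w => rfl
    have hgs : ∀ a b : W, -g (a • μ - b • μ) = R.ht ((z * b) • μ) - R.ht ((z * a) • μ) := by
      intro a b
      rw [map_sub, hg, hg, mul_smul, mul_smul]
      ring
    refine ⟨fun i j => varD τ (t j) (ε * x i j) * (-g (η j • μ - ζ i j • μ)),
      fun i j => varD τ (t j) (ε * y i j) * (-g (ζ i j • μ - η (j + 1) • μ)), ?_, ?_, ?_, ?_⟩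
    · have h0 : R.fabs (upath μ P n η t τ) = g (upath μ P n η t τ) := by
        rw [hg, ← R.fabs_of_dom hz, R.fabs_smul]
      rw [h0, ← var_avg p hp1 ζ x y hbal g ε τ]
      refine sum_le_sum fun i _ => mul_le_mul_of_nonneg_left ?_ (hp i).le
      rw [hg, ← R.fabs_smul z]
      exact R.ht_le_fabs _
    · intro i j hj
      have hj' := mem_range.mp hj
      constructor
      · by_cases hd : varD τ (t j) (ε * x i j) = 0
        · simp only [hd, zero_mul, le_refl]
        · refine mul_nonneg (varD_nonneg _ _ _) ?_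
          have h := (hval i j hj' z ((hN i j hj).1 τ (varD_ne hd) z hz)).1
          rw [hgs]
          exact sub_nonneg.mpr (R.ht_le_of_le h hμd)
      · by_cases hd : varD τ (t j) (ε * y i j) = 0
        · simp only [hd, zero_mul, le_refl]
        · refine mul_nonneg (varD_nonneg _ _ _) ?_
          have h := (hval i j hj' z ((hN i j hj).2 τ (varD_ne hd) z hz)).2
          rw [hgs]
          exact sub_nonneg.mpr (R.ht_le_of_le h hμd)
    · intro i j hj hd hne
      refine mul_pos hd ?_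
      have h := (hval i j (mem_range.mp hj) z ((hN i j hj).1 τ (varD_ne hd.ne') z hz)).1
      rw [hgs]
      exact sub_pos.mpr (R.ht_lt_of_le h (fun e => hne (mul_left_cancel e)) hμ)
    · intro i j hj hd hne
      refine mul_pos hd ?_
      have h := (hval i j (mem_range.mp hj) z ((hN i j hj).2 τ (varD_ne hd.ne') z hz)).2
      rw [hgs]
      exact sub_pos.mpr (R.ht_lt_of_le h (fun e => hne (mul_left_cancel e).symm) hμ)
  have hc1 : Continuous fun τ => R.fabs (upath μ P n η t τ) := R.continuous_fabs.comp hcont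
  have hc2 : ∀ i, Continuous fun τ =>
      p i * R.fabs (upath μ P (2 * n) (dblW η (ζ i)) (dblT t (x i) (y i) ε) τ) := fun i =>
    continuous_const.mul (R.continuous_fabs.comp (continuous_upath _ _ _ _ _))
  have hweak : ∀ τ, R.fabs (upath μ P n η t τ) ≤
      ∑ i, p i * R.fabs (upath μ P (2 * n) (dblW η (ζ i)) (dblT t (x i) (y i) ε) τ) := by
    intro τ
    obtain ⟨u, v, h1, h2, -, -⟩ := hpt τ
    have h3 : 0 ≤ ∑ i, ∑ j ∈ range n, p i * (u i j + v i j) :=
      sum_nonneg fun i _ => sum_nonneg fun j hj =>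
        mul_nonneg (hp i).le (add_nonneg (h2 i j hj).1 (h2 i j hj).2)
    linarith
  -- no point of the unit interval has a strict inequality
  have hno : ∀ τ ∈ Set.Icc (0:ℝ) 1, ¬ R.fabs (upath μ P n η t τ) <
      ∑ i, p i * R.fabs (upath μ P (2 * n) (dblW η (ζ i)) (dblT t (x i) (y i) ε) τ) := by
    intro τ hτ hlt
    have h1 := intervalIntegral.integral_lt_integral_of_continuousOn_of_le_of_exists_lt
      (a := (0:ℝ)) (b := 1) one_pos hc1.continuousOn
      (continuous_finsetSum univ fun i _ => hc2 i).continuousOn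
      (fun s _ => hweak s) ⟨τ, hτ, hlt⟩
    rw [intervalIntegral.integral_finsetSum fun i _ => (hc2 i).intervalIntegrable 0 1] at h1
    have h2 : ∑ i, ∫ s in (0:ℝ)..1,
        p i * R.fabs (upath μ P (2 * n) (dblW η (ζ i)) (dblT t (x i) (y i) ε) s) ≤
        ∑ i, p i * R.Psi μ P n η t := by
      refine sum_le_sum fun i _ => ?_
      rw [intervalIntegral.integral_const_mul]
      exact mul_le_mul_of_nonneg_left (hle i) (hp i).le
    rw [← sum_mul, hp1, one_mul] at h2
    exact absurd (lt_of_lt_of_le h1 h2) (lt_irrefl _)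
  have hstrict : ∀ (u v : A → ℕ → ℝ), (∀ i, ∀ j ∈ range n, 0 ≤ u i j ∧ 0 ≤ v i j) →
      ∀ i, ∀ j ∈ range n, 0 < u i j + v i j →
      0 < ∑ i, ∑ j ∈ range n, p i * (u i j + v i j) := by
    intro u v h2 i j hj hpos
    have hn : ∀ i, ∀ j ∈ range n, 0 ≤ p i * (u i j + v i j) := fun i j hj =>
      mul_nonneg (hp i).le (add_nonneg (h2 i j hj).1 (h2 i j hj).2)
    exact sum_pos' (fun i _ => sum_nonneg (hn i))
      ⟨i, mem_univ _, sum_pos' (hn i) ⟨j, hj, mul_pos (hp i) hpos⟩⟩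
  intro i j hj
  have hjr := mem_range.mpr hj
  have ht01 := hG.2.1 j hj
  constructor
  · by_contra hcon
    push Not at hcon
    have hτ : t j + ε * x i j / 2 ∈ Set.Icc (0:ℝ) 1 := by
      have := hx01 i j hj
      constructor <;> linarith [this.1, this.2, ht01.1, ht01.2]
    obtain ⟨u, v, h1, h2, h3, -⟩ := hpt (t j + ε * x i j / 2)
    have h4 := h3 i j hjr (varD_pos _ (mul_ne_zero hε0.ne' hcon.1)) hcon.2
    have h5 := hstrict u v h2 i j hjr (by linarith [(h2 i j hjr).2])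
    exact hno _ hτ (by linarith)
  · by_contra hcon
    push Not at hcon
    have hτ : t j + ε * y i j / 2 ∈ Set.Icc (0:ℝ) 1 := by
      have := hy01 i j hj
      constructor <;> linarith [this.1, this.2, ht01.1, ht01.2]
    obtain ⟨u, v, h1, h2, -, h3⟩ := hpt (t j + ε * y i j / 2)
    have h4 := h3 i j hjr (varD_pos _ (mul_ne_zero hε0.ne' hcon.1)) hcon.2
    have h5 := hstrict u v h2 i j hjr (by linarith [(h2 i j hjr).1])
    exact hno _ hτ (by linarith)

theorem vertex_indep0 {lam μ κ : I → ℝ} (hμ : Reg μ) {n : ℕ} {η : ℕ → W} {t : ℕ → ℝ}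
    (hG : R.UGood μ lam n η t) (hmax : R.UMax0 μ lam κ n η t) :
    LinearIndependent ℝ (fun j : Fin n => η j • μ - η (j + 1) • μ) := by
  rw [Fintype.linearIndependent_iff]
  intro g hg j
  have hs : ∑ k ∈ range n, vertexExt g k • (η k • μ - η (k + 1) • μ) = 0 := by
    rw [vertex_sum_ext g fun k => η k • μ - η (k + 1) • μ]; exact hg
  have key := R.var0 hμ hG hmax (A := Bool) (fun _ => 1 / 2) (fun _ => by norm_num)
    (by rw [Fintype.sum_bool]; norm_num) (fun _ k => η (k + 1))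
    (fun i k => cond i (vertexExt g k) (-vertexExt g k))
    (fun i k => cond i (vertexExt g k) (-vertexExt g k)) (fun _ _ _ => le_rfl)
    (fun _ k hk z hz => ⟨hG.2.2.2 k hk z hz, R.le_refl' _⟩)
    (by
      intro i
      cases i
      · simp only [cond_false, sub_self, smul_zero, add_zero, neg_smul, Finset.sum_neg_distrib, hs,
          neg_zero]
      · simp only [cond_true, sub_self, smul_zero, add_zero, hs])
    (by
      intro k _
      simp only [Fintype.sum_bool, cond_true, cond_false, sub_self, smul_zero, add_zero, neg_smul,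
        smul_neg, add_neg_cancel])
  rcases (key true j j.2).1 with h | h
  · rw [← vertexExt_fin g j]; exact h
  · exact absurd h (hG.2.2.1 j j.2)

theorem vertex_end0 {lam μ κ : I → ℝ} {n : ℕ} {η : ℕ → W} {t : ℕ → ℝ}
    (hG : R.UGood μ lam n η t) (hmax : R.UMax0 μ lam κ n η t) :
    ∃ x : W, x • κ - lam - η n • μ = ∑ k ∈ range n, t k • (η k • μ - η (k + 1) • μ) := by
  obtain ⟨x, hx⟩ := hmax.1
  refine ⟨x⁻¹, ?_⟩
  rw [← hx, inv_smul_smul, upath, one_smul, Finset.sum_congr rfl fun k hk => by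
    rw [min_eq_right (hG.2.1 k (mem_range.1 hk)).2.le]]
  abel

theorem vertex_span0 {lam μ κ : I → ℝ} (hg : R.Generic lam μ κ) {n : ℕ} {η : ℕ → W} {t : ℕ → ℝ}
    (hG : R.UGood μ lam n η t) (hmax : R.UMax0 μ lam κ n η t) :
    Submodule.span ℝ (Set.range fun j : Fin n => η j • μ - η (j + 1) • μ) = ⊤ := by
  by_contra hne
  obtain ⟨x, hx⟩ := R.vertex_end0 hG hmax
  refine hg.1 x (η n) _ ?_ hne ?_
  · rintro _ ⟨j, rfl⟩
    exact ⟨_, _, rfl⟩
  · rw [hx, Finset.sum_range]
    exact Submodule.sum_mem _ fun k _ => Submodule.smul_mem _ _ (Submodule.subset_span ⟨k, rfl⟩)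

theorem vertex_reg0 {lam μ κ : I → ℝ} (hμ : Reg μ) (hg : R.Generic lam μ κ) {n : ℕ} {η : ℕ → W}
    {t : ℕ → ℝ} (hG : R.UGood μ lam n η t) (hmax : R.UMax0 μ lam κ n η t) {j : ℕ} (hj : j < n)
    (δ : ι) : R.cv δ (upath μ lam n η t (t j)) ≠ 0 := by
  intro h0
  obtain ⟨x, hx⟩ := R.vertex_end0 hG hmax
  have hn := (R.vertex_indep0 hμ hG hmax).fintype_card_le_finrank
  rw [Fintype.card_fin] at hn
  let c : ℕ → ℝ := fun k => if k < j then R.cv δ (η (k + 1) • μ - η k • μ)
    else if k = j then -R.cv δ (η j • μ) else 0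
  let q : Fin n → (I → ℝ) × ℝ := fun k => (η k • μ - η (k + 1) • μ, c k)
  rw [upath_between μ lam n η t hj.le (fun k hk => (hG.1 k j hk hj).le) (fun k hk hkn => by
    rcases hk.eq_or_lt with rfl | h
    exacts [le_rfl, (hG.1 j k h hkn).le]), map_add, map_add, map_sum, map_smul] at h0
  have hc : ∑ k ∈ range n, t k • c k = R.cv δ lam := by
    have h1 : ∑ k ∈ range n, t k • c k = ∑ k ∈ range (j + 1), t k • c k := by
      refine (Finset.sum_subset (range_subset_range.2 hj) fun k _ hk => ?_).symm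
      have hk' : j + 1 ≤ k := by simpa using hk
      simp only [c, if_neg (by omega : ¬ k < j), if_neg (by omega : ¬ k = j), smul_zero]
    have h2 : ∑ k ∈ range j, t k • c k =
        -∑ k ∈ range j, R.cv δ (t k • (η k • μ - η (k + 1) • μ)) := by
      rw [← Finset.sum_neg_distrib]
      refine Finset.sum_congr rfl fun k hk => ?_
      simp only [c, if_pos (mem_range.1 hk), map_smul, map_sub, smul_eq_mul]
      ring
    have h3 : c j = -R.cv δ (η j • μ) := by simp only [c, lt_irrefl, if_false, if_true]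
    rw [h1, Finset.sum_range_succ, h2, h3, smul_neg]
    linarith
  refine hg.2 x (η n) δ (Set.range q) ?_ ?_ ?_
  · rintro _ ⟨k, rfl⟩
    by_cases h1 : (k : ℕ) < j
    · exact ⟨η k, η (k + 1), η (k + 1), η k, Or.inl (by simp only [q, c, if_pos h1])⟩
    · by_cases h2 : (k : ℕ) = j
      · exact ⟨η k, η (k + 1), η j, 1, Or.inr (by simp only [q, c, if_neg h1, if_pos h2])⟩
      · exact ⟨η k, η (k + 1), 1, 1, Or.inl (by
          simp only [q, c, if_neg h1, if_neg h2, sub_self, map_zero])⟩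
  · intro htop
    have h1 := finrank_range_le_card (R := ℝ) q
    rw [Set.finrank, htop, finrank_top, Module.finrank_prod, Module.finrank_self,
      Fintype.card_fin] at h1
    omega
  · have : (x • κ - lam - η n • μ, R.cv δ lam) = ∑ k : Fin n, t k • q k := by
      rw [hx, ← hc, Finset.sum_range, Finset.sum_range]
      refine Prod.ext ?_ ?_
      · rw [Prod.fst_sum]; rfl
      · rw [Prod.snd_sum]; rfl
    rw [this]
    exact Submodule.sum_mem _ fun k _ => Submodule.smul_mem _ _ (Submodule.subset_span ⟨k, rfl⟩)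

theorem vertex_unique0 {lam μ κ : I → ℝ} (hμ : Reg μ) (hg : R.Generic lam μ κ) {n : ℕ} {η : ℕ → W}
    {t : ℕ → ℝ} (hG : R.UGood μ lam n η t) (hmax : R.UMax0 μ lam κ n η t) {j : ℕ} (hj : j < n)
    {x z : W} (hx : Dom (x • upath μ lam n η t (t j))) (hz : Dom (z • upath μ lam n η t (t j))) :
    z = x := by
  have hr : Reg (x • upath μ lam n η t (t j)) := fun i => by
    refine lt_of_le_of_ne (hx i) (Ne.symm ?_)
    rw [← R.cv_sr i (x • upath μ lam n η t (t j)), R.cv_smul]
    exact R.vertex_reg0 hμ hg hG hmax hj _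
  have h := R.eq_one_of_reg (w := z * x⁻¹) hr (by rwa [mul_smul, inv_smul_smul])
  exact mul_inv_eq_one.1 h

theorem vertex_cover0 {lam μ κ : I → ℝ} (hμ : Reg μ) (hg : R.Generic lam μ κ) {n : ℕ} {η : ℕ → W}
    {t : ℕ → ℝ} (hG : R.UGood μ lam n η t) (hmax : R.UMax0 μ lam κ n η t) {j : ℕ} (hj : j < n)
    {x : W} (hx : Dom (x • upath μ lam n η t (t j))) :
    R.len (x * η j) = R.len (x * η (j + 1)) + 1 := by
  classical
  have hle := hG.2.2.2 j hj x hx
  have hlt := R.len_lt_of_le hle fun h => hG.2.2.1 j hj (mul_left_cancel h)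
  by_contra hne
  obtain ⟨p, q, hp0, hp1, hp2, hp3⟩ := R.conv hμ hle (by omega)
  have hind := Fintype.linearIndependent_iff.1 (R.vertex_indep0 hμ hG hmax)
  have hex : ∀ τ : W, ∃ g : Fin n → ℝ, ∑ k : Fin n, g k • (η k • μ - η (k + 1) • μ) =
      -((x⁻¹ * τ) • μ - η (j + 1) • μ) := fun τ =>
    (Submodule.mem_span_range_iff_exists_fun ℝ).1 (by
      rw [R.vertex_span0 hg hG hmax]; exact Submodule.mem_top)
  choose g hgs using hex
  let A := {τ : W // p τ ≠ 0}
  let ζ : A → ℕ → W := fun τ k => if k = j then x⁻¹ * τ.1 else η (k + 1)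
  let θ : A → ℕ → ℝ := fun τ => vertexExt (g τ.1)
  let y : A → ℕ → ℝ := fun τ k => if k = j then θ τ k + 1 else θ τ k
  let e : W → I → ℝ := fun τ => (x⁻¹ * τ) • μ - η (j + 1) • μ
  have hA1 : ∑ τ : A, p τ.1 = 1 := by
    have := vertex_sub (M := ℝ) p fun _ => 1
    simpa only [smul_eq_mul, mul_one, hp1] using this
  have hterm : ∀ (τ : A) (k : ℕ), θ τ k • (η k • μ - ζ τ k • μ) + y τ k • (ζ τ k • μ - η (k + 1) • μ)
      = θ τ k • (η k • μ - η (k + 1) • μ) + if k = j then e τ.1 else 0 := by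
    intro τ k
    by_cases hk : k = j
    · subst hk
      simp only [ζ, y, e, if_true]
      generalize (x⁻¹ * τ.1) • μ = a, η k • μ = b, η (k + 1) • μ = c
      module
    · simp only [ζ, y, if_neg hk, sub_self, smul_zero]
  have hend : ∀ τ : A, ∑ k ∈ range n,
      (θ τ k • (η k • μ - ζ τ k • μ) + y τ k • (ζ τ k • μ - η (k + 1) • μ)) = 0 := by
    intro τ
    simp only [hterm]
    rw [Finset.sum_add_distrib, Finset.sum_ite_eq' (range n) j, if_pos (mem_range.2 hj),
      vertex_sum_ext (g τ.1) fun k => η k • μ - η (k + 1) • μ, hgs]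
    exact neg_add_cancel _
  have he : ∑ τ : A, p τ.1 • e τ.1 = q • (η j • μ - η (j + 1) • μ) := by
    have h1 : ∑ τ, p τ • ((x⁻¹ * τ) • μ) = x⁻¹ • ∑ τ, p τ • (τ • μ) := by
      rw [Finset.smul_sum]
      exact Finset.sum_congr rfl fun τ _ => by rw [mul_smul, smul_comm x⁻¹ (p τ)]
    rw [vertex_sub p e]
    simp only [e, smul_sub]
    rw [Finset.sum_sub_distrib, h1, hp3, ← Finset.sum_smul, hp1, smul_add, smul_comm x⁻¹ q,
      smul_comm x⁻¹ (1 - q), mul_smul, mul_smul, inv_smul_smul, inv_smul_smul]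
    generalize η j • μ = b, η (j + 1) • μ = c
    module
  let a : ℕ → ℝ := fun k => ∑ τ : A, p τ.1 * θ τ k + if k = j then q else 0
  have hrow : ∀ k, ∑ τ : A, p τ.1 • (θ τ k • (η k • μ - ζ τ k • μ) +
      y τ k • (ζ τ k • μ - η (k + 1) • μ)) = a k • (η k • μ - η (k + 1) • μ) := by
    intro k
    simp only [hterm, smul_add, a, add_smul, Finset.sum_add_distrib, Finset.sum_smul, mul_smul]
    congr 1
    by_cases hk : k = j
    · subst hk
      simp only [if_true, he]
    · simp only [if_neg hk, smul_zero, Finset.sum_const_zero, zero_smul]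
  have ha : ∀ k : Fin n, a k = 0 := by
    refine hind (fun k => a k) ?_
    rw [← Finset.sum_range fun k => a k • (η k • μ - η (k + 1) • μ)]
    simp only [← hrow]
    rw [Finset.sum_comm]
    simp only [← Finset.smul_sum, hend, smul_zero, Finset.sum_const_zero]
  have key := R.var0 hμ hG hmax (A := A) (fun τ => p τ.1)
    (fun τ => lt_of_le_of_ne (hp0 _) (Ne.symm τ.2)) hA1 ζ θ y
    (fun τ k _ => by simp only [y]; split_ifs <;> linarith)
    (by
      intro τ k hk z hz
      by_cases hkj : k = j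
      · subst hkj
        obtain rfl := R.vertex_unique0 hμ hg hG hmax hk hx hz
        simp only [ζ, if_true, mul_inv_cancel_left]
        exact ⟨(hp2 _ τ.2).2.1, (hp2 _ τ.2).1⟩
      · simp only [ζ, if_neg hkj]
        exact ⟨hG.2.2.2 k hk z hz, R.le_refl' _⟩)
    hend (fun k hk => by rw [hrow, ha ⟨k, hk⟩, zero_smul])
  obtain ⟨τ, hτ⟩ : ∃ τ, p τ ≠ 0 := by
    by_contra h
    push Not at h
    simp only [h, Finset.sum_const_zero] at hp1
    exact zero_ne_one hp1
  obtain ⟨h1, h2⟩ := key ⟨τ, hτ⟩ j hj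
  simp only [ζ, y, if_true] at h1 h2
  rcases h1 with h1 | h1
  · rcases h2 with h2 | h2
    · rw [h1, zero_add] at h2
      exact one_ne_zero h2
    · exact (hp2 τ hτ).2.2.2 (inv_mul_eq_iff_eq_mul.1 h2)
  · exact (hp2 τ hτ).2.2.1 (inv_mul_eq_iff_eq_mul.1 h1)

theorem vertex_root0 {lam μ κ : I → ℝ} (hμ : Reg μ) (hg : R.Generic lam μ κ) {n : ℕ} {η : ℕ → W}
    {t : ℕ → ℝ} (hG : R.UGood μ lam n η t) (hmax : R.UMax0 μ lam κ n η t) {j : ℕ} (hj : j < n) :
    ∃ g : ι, (∃ c : ℝ, η j • μ - η (j + 1) • μ = c • R.rt g) ∧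
      ∀ x : W, Dom (x • upath μ lam n η t (t j)) →
        ∃ β, R.Cover (x * η j) β ∧ R.s β * (x * η j) = x * η (j + 1) ∧ x⁻¹ • β = g := by
  obtain ⟨x, hx⟩ := R.exists_dom (upath μ lam n η t (t j))
  obtain ⟨a, ha1, ha2⟩ := R.exists_cchain (hG.2.2.2 j hj x hx)
  have hl := R.cchain_len ha1
  rw [ha2, R.vertex_cover0 hμ hg hG hmax hj hx] at hl
  obtain ⟨β, rfl⟩ := List.length_eq_one_iff.1 (Nat.add_left_cancel hl)
  have h2 : R.s β * (x * η j) = x * η (j + 1) := ha2
  refine ⟨x⁻¹ • β, ⟨R.cv β ((x * η j) • μ), ?_⟩, fun z hz => ?_⟩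
  · have h3 : η (j + 1) • μ = x⁻¹ • (R.s β • ((x * η j) • μ)) := by
      rw [← mul_smul (R.s β), h2, mul_smul, inv_smul_smul]
    rw [h3, R.s_smul', smul_sub, smul_comm x⁻¹ (R.cv β ((x * η j) • μ)), R.smul_rt, mul_smul,
      inv_smul_smul, sub_sub_cancel]
  · obtain rfl := R.vertex_unique0 hμ hg hG hmax hj hx hz
    exact ⟨β, ha1.1, h2, rfl⟩

theorem vertex_fin0 {lam μ κ : I → ℝ} (hμ : Reg μ) (hg : R.Generic lam μ κ) {n : ℕ} {η : ℕ → W}
    {t : ℕ → ℝ} (hG : R.UGood μ lam n η t) (hmax : R.UMax0 μ lam κ n η t) :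
    ∃ γ : Fin n → ι, R.IsBas (List.ofFn γ) ∧
      ∀ j : Fin n, ∀ x : W, Dom (x • upath μ lam n η t (t j)) →
        ∃ β, R.Cover (x * η j) β ∧ R.s β * (x * η j) = x * η (j + 1) ∧ x⁻¹ • β = γ j := by
  choose γ h1 h2 using fun j : Fin n => R.vertex_root0 hμ hg hG hmax j.2
  exact ⟨γ, R.vertex_isBas (R.vertex_indep0 hμ hG hmax) (R.vertex_span0 hg hG hmax) γ h1, h2⟩

theorem vertex_fl0 {lam μ κ : I → ℝ} (hμ : Reg μ) (hg : R.Generic lam μ κ) {n : ℕ}
    {η : ℕ → W} {t : ℕ → ℝ} (hG : R.UGood μ lam n η t) (hmax : R.UMax0 μ lam κ n η t) :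
    ∃ Γ : ℕ → List ι, R.IsBas ((List.range n).map Γ).flatten ∧
      ∀ j < n, ∀ x : W, Dom (x • upath μ lam n η t (t j)) →
        ∃ bs, R.CChain (x * η j) bs ∧ R.endb (x * η j) bs = x * η (j + 1) ∧
          (bs.map fun β => x⁻¹ • β) = Γ j := by
  obtain ⟨γ, h1, h2⟩ := R.vertex_fin0 hμ hg hG hmax
  refine ⟨fun k => if h : k < n then [γ ⟨k, h⟩] else [], ?_, fun j hj x hx => ?_⟩
  · convert h1 using 1
    have : ((List.range n).map fun k => if h : k < n then [γ ⟨k, h⟩] else []) =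
        (List.ofFn γ).map fun a => [a] := by
      refine List.ext_getElem (by simp) fun k hk hk' => ?_
      have hkn : k < n := by simpa using hk
      simp only [List.getElem_map, List.getElem_range, List.getElem_ofFn, dif_pos hkn]
    rw [this]
    generalize List.ofFn γ = L
    induction L with
    | nil => rfl
    | cons a L ih => rw [List.map_cons, List.flatten_cons, ih]; rfl
  · obtain ⟨β, h3, h4, h5⟩ := h2 ⟨j, hj⟩ x hx
    exact ⟨[β], ⟨h3, trivial⟩, h4, by simp only [List.map_cons, List.map_nil, dif_pos hj, h5]⟩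

end RD

end Pool.Agent.Lib.MP_1e3767_al
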