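import Pool.Agent.Lib.MP_1e3767_al.Delta

set_option linter.unusedSectionVars false

namespace Pool.Agent.Lib.MP_1e3767_al

open Finset

section LapD
variable {I : Type*}

/-- the operator multiplying the coefficient at `v` by `φ v` -/
noncomputable def lapD (φ : (I → ℝ) → ℝ) (X : GR I) : GR I :=
  AddMonoidAlgebra.ofCoeff (Finsupp.onFinset X.coeff.support (fun v => (φ v : ℂ) * X.coeff v)
    (fun _ hv => Finsupp.mem_support_iff.2 (right_ne_zero_of_mul hv)))

theorem lapD_coeff (φ : (I → ℝ) → ℝ) (X : GR I) (v : I → ℝ) :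
    (lapD φ X).coeff v = (φ v : ℂ) * X.coeff v := rfl

theorem lap_ext {X Y : GR I} (h : ∀ v, X.coeff v = Y.coeff v) : X = Y :=
  AddMonoidAlgebra.coeff_injective (Finsupp.ext h)

theorem lap_coeff_add (X Y : GR I) (v : I → ℝ) : (X + Y).coeff v = X.coeff v + Y.coeff v := rfl

theorem lap_coeff_sub (X Y : GR I) (v : I → ℝ) : (X - Y).coeff v = X.coeff v - Y.coeff v := by
  have h : (X - Y + Y).coeff v = (X - Y).coeff v + Y.coeff v := rfl
  rw [sub_add_cancel] at h
  rw [h]; ring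

theorem lap_coeff_smul (c : ℂ) (X : GR I) (v : I → ℝ) : (c • X).coeff v = c * X.coeff v := rfl

theorem lap_coeff_sum {A : Type*} (S : Finset A) (f : A → GR I) (v : I → ℝ) :
    (∑ a ∈ S, f a).coeff v = ∑ a ∈ S, (f a).coeff v := by
  rw [AddMonoidAlgebra.coeff_sum, Finsupp.finsetSum_apply]

theorem lapD_add (φ : (I → ℝ) → ℝ) (X Y : GR I) : lapD φ (X + Y) = lapD φ X + lapD φ Y :=
  lap_ext fun v => by simp only [lapD_coeff, lap_coeff_add]; ring

theorem lapD_sub (φ : (I → ℝ) → ℝ) (X Y : GR I) : lapD φ (X - Y) = lapD φ X - lapD φ Y :=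
  lap_ext fun v => by simp only [lapD_coeff, lap_coeff_sub]; ring

theorem lapD_zero (φ : (I → ℝ) → ℝ) : lapD φ (0 : GR I) = 0 :=
  lap_ext fun v => by simp [lapD_coeff]

theorem lapD_single (φ : (I → ℝ) → ℝ) (a : I → ℝ) (c : ℂ) :
    lapD φ (AddMonoidAlgebra.single a c) = (φ a : ℂ) • AddMonoidAlgebra.single a c :=
  lap_ext fun v => by
    classical
    rw [lapD_coeff, lap_coeff_smul, AddMonoidAlgebra.coeff_single, Finsupp.single_apply]
    split_ifs with h
    · rw [h]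
    · simp

theorem lapD_ex (φ : (I → ℝ) → ℝ) (a : I → ℝ) : lapD φ (ex a) = (φ a : ℂ) • ex a :=
  lapD_single φ a 1

/-- Leibniz rule for a linear functional -/
theorem lapD_mul (φ : (I → ℝ) →ₗ[ℝ] ℝ) (X Y : GR I) :
    lapD φ (X * Y) = lapD φ X * Y + X * lapD φ Y := by
  induction X using AddMonoidAlgebra.induction_linear with
  | zero => simp [lapD_zero]
  | add X X' h h' => rw [add_mul, lapD_add, h, h', lapD_add]; ring
  | single a c =>
    induction Y using AddMonoidAlgebra.induction_linear with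
    | zero => simp [lapD_zero]
    | add Y Y' h h' => rw [mul_add, lapD_add, h, h', lapD_add]; ring
    | single b d =>
      rw [lapD_single, lapD_single, smul_mul_assoc, mul_smul_comm, ← add_smul,
        AddMonoidAlgebra.single_mul_single, lapD_single, map_add]
      push_cast
      rfl

theorem lapD_one (φ : (I → ℝ) →ₗ[ℝ] ℝ) : lapD φ (1 : GR I) = 0 := by
  have h := lapD_mul φ (1 : GR I) 1
  rw [mul_one, mul_one, one_mul] at h
  simpa using h

theorem lapD_prod {A : Type*} [DecidableEq A] (φ : (I → ℝ) →ₗ[ℝ] ℝ) (S : Finset A)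
    (f : A → GR I) :
    lapD φ (∏ a ∈ S, f a) = ∑ a ∈ S, lapD φ (f a) * ∏ b ∈ S.erase a, f b := by
  induction S using Finset.induction_on with
  | empty => simp [lapD_one]
  | insert a S ha ih =>
    rw [prod_insert ha, lapD_mul, ih, sum_insert ha, erase_insert ha, mul_sum]
    congr 1
    refine sum_congr rfl fun b hb => ?_
    have hab : a ≠ b := fun h => ha (h ▸ hb)
    rw [erase_insert_of_ne hab, prod_insert (fun h => ha (mem_of_mem_erase h))]
    ring

end LapD

namespace RD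
variable {I ι W : Type*} [Fintype I] [DecidableEq I] [Fintype ι] [Group W] [Fintype W]
  [DistribMulAction W (I → ℝ)] [SMulCommClass W ℝ (I → ℝ)] [MulAction W ι] (R : RD I ι W)

/-- the Laplacian as a sum of squares of derivations -/
theorem lap_eq_sum (X : GR I) :
    lapD (fun v => R.QQ v v) X =
      ∑ γ, ((R.dd γ : ℂ) ^ 2) • lapD (R.cv γ) (lapD (R.cv γ) X) :=
  lap_ext fun v => by
    rw [lap_coeff_sum, lapD_coeff, RD0.QQ]
    push_cast
    rw [sum_mul]
    refine sum_congr rfl fun γ _ => ?_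
    rw [lap_coeff_smul, lapD_coeff, lapD_coeff]
    ring

theorem lap_mul (X Y : GR I) :
    lapD (fun v => R.QQ v v) (X * Y) =
      lapD (fun v => R.QQ v v) X * Y + X * lapD (fun v => R.QQ v v) Y +
        (2 : ℂ) • ∑ γ, ((R.dd γ : ℂ) ^ 2) • (lapD (R.cv γ) X * lapD (R.cv γ) Y) := by
  rw [R.lap_eq_sum, R.lap_eq_sum, R.lap_eq_sum, sum_mul, mul_sum, smul_sum, ← sum_add_distrib,
    ← sum_add_distrib]
  refine sum_congr rfl fun γ _ => ?_
  rw [lapD_mul, lapD_add, lapD_mul, lapD_mul, smul_mul_assoc, mul_smul_comm, smul_comm (2 : ℂ),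
    ← smul_add, ← smul_add, two_smul]
  congr 1
  ring

theorem lap_delta :
    lapD (fun v => R.QQ v v) R.delta = (R.QQ rho rho : ℂ) • R.delta := by
  rw [R.delta_eq]
  refine lap_ext fun v => ?_
  classical
  rw [lapD_coeff, lap_coeff_smul, AA, lap_coeff_sum, mul_sum, mul_sum]
  refine sum_congr rfl fun w _ => ?_
  rw [lap_coeff_smul, coeff_ex]
  split_ifs with h
  · rw [← h, R.QQ_smul_smul]
  · simp

theorem lap_frame (β : ι) (X : GR I) :
    ∑ γ, ((R.dd γ : ℂ) ^ 2 * (R.cv γ (R.rt β) : ℂ)) • lapD (R.cv γ) X =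
      (R.dd β : ℂ) • lapD (R.cv β) X :=
  lap_ext fun v => by
    have h := R.QQ_rt β v
    rw [RD0.QQ] at h
    have h' := congrArg (fun x : ℝ => (x : ℂ)) h
    push_cast at h'
    rw [lap_coeff_sum, lap_coeff_smul, lapD_coeff, ← mul_assoc, ← h', sum_mul]
    refine sum_congr rfl fun γ _ => ?_
    rw [lap_coeff_smul, lapD_coeff]
    ring

theorem lap_B {X : GR I} {B : ι → GR I}
    (hB : ∀ β v, (B β).coeff v - (B β).coeff (v + R.rt β) = (R.cv β v : ℂ) * X.coeff v) (β : ι) :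
    (1 - ex (-R.rt β)) * B β = lapD (R.cv β) X :=
  lap_ext fun v => by
    rw [sub_mul, one_mul, lap_coeff_sub, coeff_ex_mul, sub_neg_eq_add, hB, lapD_coeff]

theorem lap_pair {X : GR I} {B : ι → GR I}
    (hB : ∀ β v, (B β).coeff v - (B β).coeff (v + R.rt β) = (R.cv β v : ℂ) * X.coeff v) (β : ι) :
    (ex ((1/2 : ℝ) • R.rt β) - ex (-((1/2 : ℝ) • R.rt β))) * (B β + B (R.ng β)) =
      (ex ((1/2 : ℝ) • R.rt β) + ex (-((1/2 : ℝ) • R.rt β))) * lapD (R.cv β) X := by
  have h1 := R.lap_B hB β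
  have h2 := R.lap_B hB (R.ng β)
  have h3 : lapD (R.cv (R.ng β)) X = -lapD (R.cv β) X := by
    rw [eq_neg_iff_add_eq_zero]
    refine lap_ext fun v => ?_
    rw [lap_coeff_add, lapD_coeff, lapD_coeff, R.cv_ng]
    simp
  rw [R.rt_ng, neg_neg, h3] at h2
  have e1 : (ex ((1/2 : ℝ) • R.rt β) : GR I) * ex (-R.rt β) = ex (-((1/2 : ℝ) • R.rt β)) := by
    rw [← ex_add]
    congr 1
    module
  have e2 : (ex (-((1/2 : ℝ) • R.rt β)) : GR I) * ex (R.rt β) = ex ((1/2 : ℝ) • R.rt β) := by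
    rw [← ex_add]
    congr 1
    module
  linear_combination ex ((1/2 : ℝ) • R.rt β) * h1 - ex (-((1/2 : ℝ) • R.rt β)) * h2
    + B β * e1 - B (R.ng β) * e2

theorem lap_cross {X : GR I} {B : ι → GR I}
    (hB : ∀ β v, (B β).coeff v - (B β).coeff (v + R.rt β) = (R.cv β v : ℂ) * X.coeff v) :
    (2 : ℂ) • ∑ γ, ((R.dd γ : ℂ) ^ 2) • (lapD (R.cv γ) R.delta * lapD (R.cv γ) X) =
      R.delta * ∑ β, (R.dd β : ℂ) • B β := by
  classical
  set f : ι → GR I := fun β => ex ((1/2 : ℝ) • R.rt β) - ex (-((1/2 : ℝ) • R.rt β)) with hf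
  set g : ι → GR I := fun β => ex ((1/2 : ℝ) • R.rt β) + ex (-((1/2 : ℝ) • R.rt β)) with hg
  have hd : R.delta = ∏ β ∈ R.Pos, f β := rfl
  have hD : ∀ γ β, (2 : ℂ) • lapD (R.cv γ) (f β) = (R.cv γ (R.rt β) : ℂ) • g β := by
    intro γ β
    simp only [hf, hg]
    rw [lapD_sub, lapD_ex, lapD_ex, map_neg, map_smul, smul_eq_mul]
    push_cast
    module
  have hL : (2 : ℂ) • ∑ γ, ((R.dd γ : ℂ) ^ 2) • (lapD (R.cv γ) R.delta * lapD (R.cv γ) X) =
      ∑ β ∈ R.Pos, (g β * ∏ b ∈ R.Pos.erase β, f b) *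
        ∑ γ, ((R.dd γ : ℂ) ^ 2 * (R.cv γ (R.rt β) : ℂ)) • lapD (R.cv γ) X := by
    simp only [mul_sum]
    rw [sum_comm, smul_sum]
    refine sum_congr rfl fun γ _ => ?_
    rw [hd, lapD_prod, sum_mul, smul_sum, smul_sum]
    refine sum_congr rfl fun β _ => ?_
    rw [smul_comm, ← smul_mul_assoc (2:ℂ), ← smul_mul_assoc (2:ℂ), hD, smul_mul_assoc,
      smul_mul_assoc, smul_smul, mul_smul_comm]
  rw [hL, R.sum_roots (fun β => (R.dd β : ℂ) • B β), mul_sum]
  refine sum_congr rfl fun β hβ => ?_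
  have hp := R.lap_pair hB β
  rw [R.lap_frame, R.dd_ng, ← smul_add, mul_smul_comm, mul_smul_comm, hd,
    ← mul_prod_erase R.Pos f hβ]
  congr 1
  simp only [hf, hg] at hp ⊢
  linear_combination (-∏ b ∈ R.Pos.erase β,
    (ex ((1/2 : ℝ) • R.rt b) - ex (-((1/2 : ℝ) • R.rt b)))) * hp

/-- the Laplace equation for the numerator, from the Freudenthal identities -/
theorem lap (X : GR I) (B : ι → GR I) (c : ℂ)
    (hB : ∀ β v, (B β).coeff v - (B β).coeff (v + R.rt β) = (R.cv β v : ℂ) * X.coeff v)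
    (hc : ∀ v, c * X.coeff v = (R.QQ v v : ℂ) * X.coeff v + ∑ β, (R.dd β : ℂ) * (B β).coeff v)
    (v : I → ℝ) :
    (R.QQ v v : ℂ) * (R.delta * X).coeff v = (c + R.QQ rho rho) * (R.delta * X).coeff v := by
  have hX : lapD (fun v => R.QQ v v) X + ∑ β, (R.dd β : ℂ) • B β = c • X :=
    lap_ext fun u => by
      rw [lap_coeff_add, lapD_coeff, lap_coeff_sum, lap_coeff_smul, hc u]
      rfl
  have h : lapD (fun v => R.QQ v v) (R.delta * X) = (c + R.QQ rho rho) • (R.delta * X) := by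
    rw [R.lap_mul, R.lap_cross hB, R.lap_delta, add_assoc, ← mul_add, hX, smul_mul_assoc,
      mul_smul_comm, add_smul, add_comm]
  have h2 := congrArg (fun Y : GR I => Y.coeff v) h
  exact h2

/-- abstract Weyl character formula -/
theorem wcf {lam : I → ℝ} (hl : Dom lam) (X : GR I) (B : ι → GR I) (c : ℂ)
    (hinv : ∀ i v, X.coeff (R.s (R.sr i) • v) = X.coeff v) (htop : X.coeff lam = 1)
    (hsupp : ∀ v, X.coeff v ≠ 0 → R.InQp (lam - v))
    (hB : ∀ β v, (B β).coeff v - (B β).coeff (v + R.rt β) = (R.cv β v : ℂ) * X.coeff v)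
    (hc : ∀ v, c * X.coeff v = (R.QQ v v : ℂ) * X.coeff v + ∑ β, (R.dd β : ℂ) * (B β).coeff v) :
    R.delta * X = R.AA (lam + rho) := by
  have hreg : Reg (lam + rho) := fun i => by
    have := hl i
    simp only [Pi.add_apply, rho]
    linarith
  obtain ⟨hs, ht⟩ := R.mul_supp (X := R.delta) (Y := X) (a := rho) (b := lam)
    (fun x hx => R.delta_supp hx) hsupp
  rw [add_comm rho lam] at hs ht
  rw [R.delta_top, htop, mul_one] at ht
  have hc0 := R.lap X B c hB hc (lam + rho)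
  rw [ht, mul_one, mul_one] at hc0
  refine R.eq_AA_of_alt hreg (fun i x => ?_) ht fun x hx hne => ?_
  · have := coeff_mul_alt (X := X) (Y := R.delta) (R.s (R.sr i)) (-1) (hinv i)
      (fun y => by rw [R.delta_alt, neg_one_mul]) x
    rw [this, neg_one_mul]
  · have h1 := R.lap X B c hB hc x
    have h2 : (R.QQ x x : ℂ) = R.QQ (lam + rho) (lam + rho) := by
      rw [hc0]
      exact mul_right_cancel₀ hne h1
    have h3 : R.QQ (lam + rho) (lam + rho) = R.QQ x x := by exact_mod_cast h2.symm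
    exact R.eq_of_QQ_eq hreg (fun i => (hx i).le) (hs x hne) h3

end RD

end Pool.Agent.Lib.MP_1e3767_al
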