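import Pool.Agent.Lib.MP_1e3767_al.Basic

set_option linter.unusedSectionVars false

namespace Pool.Agent.Lib.MP_1e3767_al

open Finset

namespace RD
variable {I ι W : Type*} [Fintype I] [DecidableEq I] [Fintype ι] [Group W] [Fintype W]
  [DistribMulAction W (I → ℝ)] [SMulCommClass W ℝ (I → ℝ)] [MulAction W ι] (R : RD I ι W)

theorem len_reg_rho : Reg (rho : I → ℝ) := fun _ => one_pos

theorem len_cv_s_mul (β γ : ι) (w : W) (v : I → ℝ) :
    R.cv γ ((R.s β * w) • v) = R.cv (R.s β • γ) (w • v) := by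
  rw [mul_smul, R.cv_smul, R.s_inv]

theorem len_s_s_smul (β γ : ι) : R.s β • R.s β • γ = γ := by
  rw [← mul_smul, R.s_mul_s, one_smul]

/-- the inversion set -/
noncomputable def len_inv (w : W) : Finset ι := R.Pos.filter (fun β => R.cv β (w • rho) < 0)

theorem len_mem_inv (w : W) (β : ι) : β ∈ R.len_inv w ↔ R.Step w β := by
  unfold len_inv Step
  rw [Finset.mem_filter]

theorem len_eq_card (w : W) : R.len w = (R.len_inv w).card := rfl

open Classical in
/-- the map between inversion sets -/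
noncomputable def len_phi (β γ : ι) : ι := if R.s β • γ ∈ R.Pos then R.s β • γ else γ

theorem len_phi_mem {w : W} {β : ι} (h : R.Step w β) {γ : ι} (hγ : R.Step (R.s β * w) γ) :
    R.len_phi β γ ≠ β ∧ R.Step w (R.len_phi β γ) := by
  obtain ⟨hβ, hb⟩ := h
  obtain ⟨hg, hc⟩ := hγ
  rw [R.len_cv_s_mul] at hc
  unfold len_phi
  by_cases hp : R.s β • γ ∈ R.Pos
  · rw [if_pos hp]
    refine ⟨?_, hp, hc⟩
    intro e
    have e2 : γ = R.ng β := by
      rw [← R.s_smul_self, ← R.len_s_s_smul β γ, e]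
    rw [e2, R.ng_mem_Pos] at hg
    exact hg hβ
  · rw [if_neg hp]
    have h1 := R.cv_neg hp len_reg_rho
    have h2 := R.cv_pos hg len_reg_rho
    have h3 := R.cv_pos hβ len_reg_rho
    rw [R.cv_s_smul] at h1
    have hn : 0 < R.cv γ (R.rt β) := by
      by_contra hn
      push Not at hn
      nlinarith [mul_nonneg (neg_nonneg.mpr hn) h3.le]
    refine ⟨?_, hg, ?_⟩
    · intro e
      rw [e, R.s_smul_self, R.cv_ng] at hc
      linarith
    · rw [R.cv_s_smul] at hc
      nlinarith [mul_pos hn (neg_pos.mpr hb)]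

theorem len_phi_inj (β : ι) {γ δ : ι} (hγ : γ ∈ R.Pos) (hδ : δ ∈ R.Pos)
    (e : R.len_phi β γ = R.len_phi β δ) : γ = δ := by
  unfold len_phi at e
  by_cases h1 : R.s β • γ ∈ R.Pos
  · by_cases h2 : R.s β • δ ∈ R.Pos
    · rw [if_pos h1, if_pos h2] at e
      exact smul_left_cancel _ e
    · rw [if_pos h1, if_neg h2] at e
      rw [← e, R.len_s_s_smul] at h2
      exact absurd hγ h2
  · by_cases h2 : R.s β • δ ∈ R.Pos
    · rw [if_neg h1, if_pos h2] at e
      rw [e, R.len_s_s_smul] at h1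
      exact absurd hδ h1
    · rw [if_neg h1, if_neg h2] at e
      exact e

theorem len_one : R.len 1 = 0 := by
  unfold len
  rw [Finset.card_eq_zero, Finset.filter_eq_empty_iff]
  intro β hβ
  rw [one_smul]
  exact not_lt.mpr (R.cv_pos hβ len_reg_rho).le

theorem len_le (w : W) : R.len w ≤ R.Pos.card := by
  unfold len
  exact Finset.card_filter_le _ _

/-- the injection `Inv (s β w) → Inv w` minus `β` : `γ ↦ s β γ` if that is positive, else `γ` -/
theorem len_step {w : W} {β : ι} (h : R.Step w β) : R.len (R.s β * w) < R.len w := by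
  classical
  have hm : β ∈ R.len_inv w := (R.len_mem_inv w β).mpr h
  have h1 : (R.len_inv (R.s β * w)).card ≤ ((R.len_inv w).erase β).card := by
    apply Finset.card_le_card_of_injOn (R.len_phi β)
    · intro γ hγ
      have h2 := R.len_phi_mem h ((R.len_mem_inv _ γ).mp (Finset.mem_coe.mp hγ))
      exact Finset.mem_coe.mpr (Finset.mem_erase.mpr ⟨h2.1, (R.len_mem_inv _ _).mpr h2.2⟩)
    · intro γ hγ δ hδ e
      exact R.len_phi_inj β ((R.len_mem_inv _ γ).mp (Finset.mem_coe.mp hγ)).1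
        ((R.len_mem_inv _ δ).mp (Finset.mem_coe.mp hδ)).1 e
  rw [R.len_eq_card, R.len_eq_card]
  exact lt_of_le_of_lt h1 (Finset.card_erase_lt_of_mem hm)

/-- for a cover the injection above is a bijection -/
theorem inv_span {w : W} {β : ι} (h : R.Cover w β) {γ : ι} (hγ : R.Step w γ) :
    R.rt γ ∈ Submodule.span ℝ (insert (R.rt β) (R.rt '' {δ | R.Step (R.s β * w) δ})) := by
  classical
  by_cases e : γ = β
  · rw [e]
    exact Submodule.subset_span (Set.mem_insert _ _)
  have hm : β ∈ R.len_inv w := (R.len_mem_inv w β).mpr h.1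
  have hc : ((R.len_inv w).erase β).card ≤ (R.len_inv (R.s β * w)).card := by
    have h1 := Finset.card_erase_add_one hm
    have h2 := h.2
    rw [R.len_eq_card, R.len_eq_card] at h2
    omega
  obtain ⟨δ, hδ, e2⟩ := Finset.surj_on_of_inj_on_of_card_le (s := R.len_inv (R.s β * w))
    (t := (R.len_inv w).erase β) (fun δ _ => R.len_phi β δ)
    (fun δ hδ => by
      have h2 := R.len_phi_mem h.1 ((R.len_mem_inv _ δ).mp hδ)
      exact Finset.mem_erase.mpr ⟨h2.1, (R.len_mem_inv _ _).mpr h2.2⟩)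
    (fun a b ha hb e => R.len_phi_inj β ((R.len_mem_inv _ a).mp ha).1
      ((R.len_mem_inv _ b).mp hb).1 e)
    hc γ (Finset.mem_erase.mpr ⟨e, (R.len_mem_inv _ _).mpr hγ⟩)
  have hd : R.rt δ ∈ Submodule.span ℝ
      (insert (R.rt β) (R.rt '' {δ | R.Step (R.s β * w) δ})) :=
    Submodule.subset_span (Set.mem_insert_of_mem _ ⟨δ, (R.len_mem_inv _ δ).mp hδ, rfl⟩)
  have hb : R.rt β ∈ Submodule.span ℝ
      (insert (R.rt β) (R.rt '' {δ | R.Step (R.s β * w) δ})) :=
    Submodule.subset_span (Set.mem_insert _ _)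
  rw [e2]
  unfold len_phi
  by_cases hp : R.s β • δ ∈ R.Pos
  · rw [if_pos hp, R.rt_s_smul]
    exact Submodule.sub_mem _ hd (Submodule.smul_mem _ _ hb)
  · rw [if_neg hp]
    exact hd

theorem len_le_sr_mul (w : W) (i : I) : R.len w ≤ R.len (R.s (R.sr i) * w) + 1 := by
  classical
  have h1 : ((R.len_inv w).erase (R.sr i)).card ≤ (R.len_inv (R.s (R.sr i) * w)).card := by
    apply Finset.card_le_card_of_injOn (fun γ => R.s (R.sr i) • γ)
    · intro γ hγ
      obtain ⟨hne, hm⟩ := Finset.mem_erase.mp (Finset.mem_coe.mp hγ)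
      obtain ⟨hp, hc⟩ := (R.len_mem_inv _ _).mp hm
      refine Finset.mem_coe.mpr ((R.len_mem_inv _ _).mpr ⟨R.s_sr_mem_Pos hp hne, ?_⟩)
      rw [R.len_cv_s_mul, R.len_s_s_smul]
      exact hc
    · intro γ _ δ _ e
      exact smul_left_cancel _ e
  have h2 := Finset.pred_card_le_card_erase (s := R.len_inv w) (a := R.sr i)
  rw [R.len_eq_card, R.len_eq_card]
  omega

theorem len_sr_mul_apply (w : W) (i : I) (v : I → ℝ) :
    ((R.s (R.sr i) * w) • v) i = -(w • v) i := by
  rw [← R.cv_sr i ((R.s (R.sr i) * w) • v), R.len_cv_s_mul, R.s_smul_self, R.cv_ng, R.cv_sr]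

theorem len_sr_neg {w : W} {i : I} (h : (w • (rho : I → ℝ)) i < 0) :
    R.len (R.s (R.sr i) * w) + 1 = R.len w := by
  have h1 := R.len_step (w := w) (β := R.sr i) ⟨R.sr_pos i, by rw [R.cv_sr]; exact h⟩
  have h2 := R.len_le_sr_mul w i
  omega

theorem len_sr_pos {w : W} {i : I} (h : 0 < (w • (rho : I → ℝ)) i) :
    R.len (R.s (R.sr i) * w) = R.len w + 1 := by
  have h1 := R.len_sr_neg (w := R.s (R.sr i) * w) (i := i)
    (by rw [R.len_sr_mul_apply]; linarith)
  rw [R.s_mul_s_mul] at h1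
  exact h1.symm

theorem sr_mul_rho (w : W) (i : I) :
    ((R.s (R.sr i) * w) • (rho : I → ℝ)) i = -(w • (rho : I → ℝ)) i := by
  exact R.len_sr_mul_apply w i rho

theorem cover_sr {w : W} {i : I} (h : (w • (rho : I → ℝ)) i < 0) : R.Cover w (R.sr i) := by
  exact ⟨⟨R.sr_pos i, by rw [R.cv_sr]; exact h⟩, R.len_sr_neg h⟩

/-- product of a word in the simple reflections -/
def len_pr : List I → W
  | [] => 1
  | i :: L => R.s (R.sr i) * len_pr L

theorem len_exists_word (w : W) : ∃ L : List I, R.len_pr L = w := by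
  refine R.gen (fun w => ∃ L : List I, R.len_pr L = w) ⟨[], rfl⟩ ?_ w
  rintro i w ⟨L, rfl⟩
  exact ⟨i :: L, rfl⟩

theorem len_exchange (L : List I) : ∀ β : ι, β ∈ R.Pos → R.cv β (R.len_pr L • rho) < 0 →
    ∃ L' : List I, L'.length + 1 = L.length ∧ R.s β * R.len_pr L = R.len_pr L' := by
  induction L with
  | nil =>
    intro β hβ h
    have h1 := R.cv_pos hβ len_reg_rho
    rw [show R.len_pr [] = 1 from rfl, one_smul] at h
    linarith
  | cons j L ih =>
    intro β hβ h
    have e0 : R.len_pr (j :: L) = R.s (R.sr j) * R.len_pr L := rfl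
    by_cases e : β = R.sr j
    · refine ⟨L, rfl, ?_⟩
      rw [e0, e, R.s_mul_s_mul]
    · rw [e0, R.len_cv_s_mul] at h
      obtain ⟨L', hl, he⟩ := ih _ (R.s_sr_mem_Pos hβ e) h
      refine ⟨j :: L', by simp [hl], ?_⟩
      have e1 : R.len_pr (j :: L') = R.s (R.sr j) * R.len_pr L' := rfl
      rw [e0, e1, ← he, R.s_conj, R.s_inv, mul_assoc, mul_assoc, R.s_mul_s_mul]

theorem len_pr_eq_one (n : ℕ) : ∀ L : List I, L.length ≤ n →
    Dom (R.len_pr L • (rho : I → ℝ)) → R.len_pr L = 1 := by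
  induction n with
  | zero =>
    intro L hL _
    rw [List.length_eq_zero_iff.mp (Nat.le_zero.mp hL)]
    rfl
  | succ n ih =>
    intro L hL h
    cases L with
    | nil => rfl
    | cons j L =>
      have e0 : R.len_pr (j :: L) = R.s (R.sr j) * R.len_pr L := rfl
      have h1 := h j
      rw [e0, R.sr_mul_rho] at h1
      have h2 : (R.len_pr L • (rho : I → ℝ)) j < 0 :=
        lt_of_le_of_ne (by linarith) (R.smul_rho_ne _ j)
      obtain ⟨L', hl, he⟩ := R.len_exchange L (R.sr j) (R.sr_pos j) (by rw [R.cv_sr]; exact h2)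
      rw [e0, he] at h ⊢
      refine ih L' ?_ h
      simp only [List.length_cons] at hL
      omega

/-- simple transitivity on chambers (strong exchange on words, minimal word) -/
theorem eq_one_of_dom (R : RD I ι W) {w : W} (h : Dom (w • (rho : I → ℝ))) : w = 1 := by
  obtain ⟨L, rfl⟩ := R.len_exists_word w
  exact R.len_pr_eq_one L.length L le_rfl h

theorem exists_neg_of_ne_one (R : RD I ι W) {w : W} (h : w ≠ 1) :
    ∃ i, (w • (rho : I → ℝ)) i < 0 := by
  by_contra hn
  push Not at hn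
  exact h (R.eq_one_of_dom hn)

theorem exists_dom (R : RD I ι W) (v : I → ℝ) : ∃ w : W, Dom (w • v) := by
  obtain ⟨w, hw⟩ := Finite.exists_max (fun w : W => R.ht (w • v))
  refine ⟨w, fun i => ?_⟩
  have h1 := hw (R.s (R.sr i) * w)
  rw [mul_smul, R.ht_s_sr] at h1
  linarith

theorem dom_unique (R : RD I ι W) {v : I → ℝ} {w : W} (hv : Dom v) (hw : Dom (w • v)) :
    w • v = v := by
  induction hn : R.len w using Nat.strong_induction_on generalizing w with
  | _ n ih =>
    by_cases e : w = 1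
    · rw [e, one_smul]
    obtain ⟨i, hi⟩ := R.exists_neg_of_ne_one e
    have h1 : (w • v) i ≤ 0 := by
      rw [← R.cv_sr i (w • v)]
      exact R.cv_le_of_rho_neg (by rw [R.cv_sr]; exact hi) hv
    have h2 : (w • v) i = 0 := le_antisymm h1 (hw i)
    have h3 : (R.s (R.sr i) * w) • v = w • v := by
      rw [mul_smul, R.s_sr_smul, h2, zero_smul, sub_zero]
    have h4 := R.len_sr_neg hi
    rw [← h3]
    exact ih (R.len (R.s (R.sr i) * w)) (by omega) (by rw [h3]; exact hw) rfl

theorem eq_one_of_reg (R : RD I ι W) {v : I → ℝ} {w : W} (hv : Reg v) (hw : Dom (w • v)) :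
    w = 1 := by
  by_contra e
  obtain ⟨i, hi⟩ := R.exists_neg_of_ne_one e
  have h1 := (R.cv_neg_iff_of_reg (R.sr i) w hv).mpr (by rw [R.cv_sr]; exact hi)
  rw [R.cv_sr] at h1
  exact absurd (hw i) (not_le.mpr h1)

theorem smul_inj_of_reg (R : RD I ι W) {μ : I → ℝ} (hμ : Reg μ) {u v : W} (h : u • μ = v • μ) :
    u = v := by
  have h1 : (v⁻¹ * u) • μ = μ := by rw [mul_smul, h, inv_smul_smul]
  have h2 := R.eq_one_of_reg hμ (w := v⁻¹ * u) (by rw [h1]; exact fun i => (hμ i).le)
  exact (inv_mul_eq_one.mp h2).symm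

theorem w0_neg (i : I) : (R.w0 • (rho : I → ℝ)) i < 0 := by
  have h : ∃ w : W, ∀ i, (w • (rho : I → ℝ)) i < 0 := by
    obtain ⟨w, hw⟩ := R.exists_dom (-(rho : I → ℝ))
    refine ⟨w, fun j => lt_of_le_of_ne ?_ (R.smul_rho_ne w j)⟩
    have := hw j
    rw [smul_neg, Pi.neg_apply] at this
    linarith
  rw [w0, dif_pos h]
  exact h.choose_spec i

theorem eq_w0 {w : W} (h : ∀ i, (w • (rho : I → ℝ)) i < 0) : w = R.w0 := by
  have h1 : Reg (-(R.w0 • (rho : I → ℝ))) := fun i => by
    have := R.w0_neg i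
    rw [Pi.neg_apply]; linarith
  have h2 : Dom ((w * R.w0⁻¹) • (-(R.w0 • (rho : I → ℝ)))) := fun i => by
    rw [smul_neg, smul_smul, inv_mul_cancel_right, Pi.neg_apply]
    have := h i
    linarith
  exact mul_inv_eq_one.1 (R.eq_one_of_reg h1 h2)

theorem w0_anti {μ : I → ℝ} (hμ : Dom μ) : Dom (-(R.w0 • μ)) := by
  intro i
  have h : R.cv (R.sr i) (R.w0 • rho) < 0 := by rw [R.cv_sr]; exact R.w0_neg i
  have := R.cv_le_of_rho_neg h hμ
  rw [R.cv_sr] at this
  rw [Pi.neg_apply]; linarith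

theorem step_w0 {β : ι} (hβ : β ∈ R.Pos) : R.Step R.w0 β := by
  have h1 : Reg (-(R.w0 • (rho : I → ℝ))) := fun i => by
    have := R.w0_neg i
    rw [Pi.neg_apply]; linarith
  have := R.cv_pos hβ h1
  rw [map_neg] at this
  exact ⟨hβ, by linarith⟩

theorem sgn_one : R.sgn 1 = 1 := by
  rw [sgn, R.len_one, pow_zero]

theorem sgn_sr_mul (i : I) (w : W) : R.sgn (R.s (R.sr i) * w) = -R.sgn w := by
  unfold sgn
  rcases lt_or_gt_of_ne (R.smul_rho_ne w i) with h | h
  · rw [← R.len_sr_neg h, pow_succ]; ring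
  · rw [R.len_sr_pos h, pow_succ]; ring

theorem sgn_mul (u v : W) : R.sgn (u * v) = R.sgn u * R.sgn v := by
  refine R.gen (fun u => R.sgn (u * v) = R.sgn u * R.sgn v) ?_ ?_ u
  · rw [one_mul, R.sgn_one, one_mul]
  · intro i w h
    rw [mul_assoc, R.sgn_sr_mul, R.sgn_sr_mul, h]; ring

theorem sgn_sr (i : I) : R.sgn (R.s (R.sr i)) = -1 := by
  have := R.sgn_sr_mul i 1
  rwa [mul_one, R.sgn_one] at this

theorem sgn_mul_self (w : W) : R.sgn w * R.sgn w = 1 := by
  unfold sgn
  rw [← mul_pow]; norm_num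

theorem sgn_inv (w : W) : R.sgn w⁻¹ = R.sgn w := by
  have h1 := R.sgn_mul w⁻¹ w
  rw [inv_mul_cancel, R.sgn_one] at h1
  have h2 := R.sgn_mul_self w
  calc R.sgn w⁻¹ = R.sgn w⁻¹ * (R.sgn w * R.sgn w) := by rw [h2, mul_one]
    _ = R.sgn w := by rw [← mul_assoc, ← h1, one_mul]

theorem len_aux_ht (w : W) (β : ι) (μ : I → ℝ) :
    R.ht ((R.s β * w) • μ) = R.ht (w • μ) - R.cv β (w • μ) * R.ht (R.rt β) := by
  rw [mul_smul, R.s_smul', map_sub, R.ht.map_smul (R.cv β (w • μ)), smul_eq_mul]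

theorem ht_step_le {w : W} {β : ι} (h : R.Step w β) {μ : I → ℝ} (hμ : Dom μ) :
    R.ht (w • μ) ≤ R.ht ((R.s β * w) • μ) := by
  rw [R.len_aux_ht]
  have h1 := R.cv_le_of_rho_neg h.2 hμ
  have h2 := R.ht_rt_pos h.1
  nlinarith

theorem ht_step_lt {w : W} {β : ι} (h : R.Step w β) {μ : I → ℝ} (hμ : Reg μ) :
    R.ht (w • μ) < R.ht ((R.s β * w) • μ) := by
  rw [R.len_aux_ht]
  have h1 := (R.cv_neg_iff_of_reg β w hμ).2 h.2
  have h2 := R.ht_rt_pos h.1
  nlinarith

theorem step_iff_ht {w : W} {β : ι} (hβ : β ∈ R.Pos) {μ : I → ℝ} (hμ : Reg μ) :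
    R.Step w β ↔ R.ht (w • μ) < R.ht ((R.s β * w) • μ) := by
  refine ⟨fun h => R.ht_step_lt h hμ, fun h => ⟨hβ, (R.cv_neg_iff_of_reg β w hμ).1 ?_⟩⟩
  rw [R.len_aux_ht] at h
  have h2 := R.ht_rt_pos hβ
  by_contra h1
  have := mul_nonneg (not_lt.1 h1) h2.le
  linarith

theorem le_refl' (u : W) : R.Le u u := Relation.ReflTransGen.refl

theorem le_trans' {u v w : W} (h1 : R.Le u v) (h2 : R.Le v w) : R.Le u w :=
  Relation.ReflTransGen.trans h2 h1

theorem le_of_step {w : W} {β : ι} (h : R.Step w β) : R.Le (R.s β * w) w :=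
  Relation.ReflTransGen.single ⟨β, h, rfl⟩

theorem ht_le_of_le {u v : W} (h : R.Le v u) {μ : I → ℝ} (hμ : Dom μ) :
    R.ht (u • μ) ≤ R.ht (v • μ) := by
  unfold Le at h
  induction h with
  | refl => exact le_rfl
  | tail _ h2 ih =>
    obtain ⟨β, h3, rfl⟩ := h2
    exact ih.trans (R.ht_step_le h3 hμ)

theorem ht_lt_of_le {u v : W} (h : R.Le v u) (hne : v ≠ u) {μ : I → ℝ} (hμ : Reg μ) :
    R.ht (u • μ) < R.ht (v • μ) := by
  rcases Relation.ReflTransGen.cases_tail h with h1 | ⟨c, h1, β, h3, rfl⟩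
  · exact absurd h1 hne
  · exact (R.ht_le_of_le h1 fun i => (hμ i).le).trans_lt (R.ht_step_lt h3 hμ)

theorem len_le_of_le {u v : W} (h : R.Le v u) : R.len v ≤ R.len u := by
  unfold Le at h
  induction h with
  | refl => exact le_rfl
  | tail _ h2 ih =>
    obtain ⟨β, h3, rfl⟩ := h2
    exact (R.len_step h3).le.trans ih

theorem len_lt_of_le {u v : W} (h : R.Le v u) (hne : v ≠ u) : R.len v < R.len u := by
  rcases Relation.ReflTransGen.cases_tail h with h1 | ⟨c, h1, β, h3, rfl⟩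
  · exact absurd h1 hne
  · exact (R.len_step h3).trans_le (R.len_le_of_le h1)

theorem endb_append (u : W) (a b : List ι) : R.endb u (a ++ b) = R.endb (R.endb u a) b := by
  induction a generalizing u with
  | nil => rfl
  | cons β a ih => exact ih _

theorem cchain_append (u : W) (a b : List ι) :
    R.CChain u (a ++ b) ↔ R.CChain u a ∧ R.CChain (R.endb u a) b := by
  induction a generalizing u with
  | nil => exact ⟨fun h => ⟨trivial, h⟩, fun h => h.2⟩
  | cons β a ih =>
    change R.Cover u β ∧ R.CChain (R.s β * u) (a ++ b) ↔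
      (R.Cover u β ∧ R.CChain (R.s β * u) a) ∧ R.CChain (R.endb (R.s β * u) a) b
    rw [ih, and_assoc]

theorem cchain_len {u : W} {a : List ι} (h : R.CChain u a) :
    R.len (R.endb u a) + a.length = R.len u := by
  induction a generalizing u with
  | nil => rfl
  | cons β a ih =>
    have h1 := ih h.2
    have h2 := h.1.2
    change R.len (R.endb (R.s β * u) a) + (a.length + 1) = _
    omega

theorem le_of_cchain {u : W} {a : List ι} (h : R.CChain u a) : R.Le (R.endb u a) u := by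
  induction a generalizing u with
  | nil => exact R.le_refl' u
  | cons β a ih => exact R.le_trans' (ih h.2) (R.le_of_step h.1.1)

theorem len_aux_span {a : List ι} : ∀ {u : W}, R.CChain u a → R.endb u a = 1 → ∀ γ, R.Step u γ →
    R.rt γ ∈ Submodule.span ℝ (R.rt '' {γ | γ ∈ a}) := by
  induction a with
  | nil =>
    intro u _ he γ hγ
    obtain rfl : u = 1 := he
    have h1 := R.cv_pos hγ.1 (v := rho) fun _ => one_pos
    have h2 := hγ.2
    rw [one_smul] at h2
    linarith
  | cons β a ih =>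
    intro u h he γ hγ
    refine Submodule.span_le.2 ?_ (R.inv_span h.1 hγ)
    rintro x (rfl | ⟨δ, hδ, rfl⟩)
    · exact Submodule.subset_span ⟨β, List.mem_cons_self, rfl⟩
    · refine Submodule.span_mono ?_ (ih h.2 he δ hδ)
      exact Set.image_mono fun x hx => List.mem_cons_of_mem _ hx

/-- the labels of a maximal chain span the weight space -/
theorem span_max_chain {a : List ι} (h : R.CChain R.w0 a) (he : R.endb R.w0 a = 1) :
    Submodule.span ℝ (R.rt '' {γ | γ ∈ a}) = ⊤ := by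
  rw [eq_top_iff, ← R.span_sr, Submodule.span_le]
  rintro x ⟨i, rfl⟩
  exact R.len_aux_span h he _ (R.step_w0 (R.sr_pos i))

/-- chambers near a point contain the point -/
theorem near_dom (p : I → ℝ) :
    ∃ δ > 0, ∀ y : I → ℝ, dist y p < δ → ∀ z : W, Dom (z • y) → Dom (z • p) := by
  have h : ∀ᶠ y in nhds p, ∀ z : W, ∀ i, (z • p) i < 0 → (z • y) i < 0 := by
    refine Filter.eventually_all.2 fun z => Filter.eventually_all.2 fun i => ?_
    by_cases hz : (z • p) i < 0
    · have hc : Continuous fun y : I → ℝ => (z • y) i :=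
        (continuous_apply i).comp (continuous_wsmul z)
      exact (hc.continuousAt.eventually_lt continuousAt_const hz).mono fun y hy _ => hy
    · exact Filter.Eventually.of_forall fun y h => absurd h hz
  obtain ⟨δ, h0, h1⟩ := Metric.eventually_nhds_iff.1 h
  refine ⟨δ, h0, fun y hy z hz i => ?_⟩
  by_contra hn
  exact absurd (hz i) (not_le.2 (h1 hy z i (not_le.1 hn)))

end RD

end Pool.Agent.Lib.MP_1e3767_al
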