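import Pool.Agent.Lib.MP_1e3767_al.Form
import Pool.Agent.Lib.MP_1e3767_al.Alt

set_option linter.unusedSectionVars false

namespace Pool.Agent.Lib.MP_1e3767_al

open Finset

namespace Rlz
variable {I ι W : Type*} [Fintype I] [DecidableEq I] [Fintype ι] [Group W] [Fintype W]
  [DistribMulAction W (I → ℝ)] [SMulCommClass W ℝ (I → ℝ)] [MulAction W ι] {R : RD I ι W}
  {L : Type*} [LieRing L] [LieAlgebra ℂ L] [Module.Finite ℂ L] (T : Rlz R.toRD0 L)
  {M : Type*} [AddCommGroup M] [Module ℂ M] [LieRingModule L M] [LieModule ℂ L M]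

theorem mem_wsp {v : I → ℝ} {m : M} : m ∈ T.wsp M v ↔ T.IsWt v m := Iff.rfl

theorem lie_hf (α β : ι) : ⁅T.h β, T.f α⁆ = -((R.cv β (R.rt α) : ℂ) • T.f α) := by
  obtain ⟨c, hc⟩ := Submodule.mem_span_singleton.mp (T.f_mem α)
  rw [← hc, lie_smul, T.lie_he, R.rt_ng, map_neg, smul_comm]
  simp

theorem h_ne_zero (α : ι) : T.h α ≠ 0 := by
  intro h0
  have h1 := T.kill_hh α α
  rw [h0] at h1
  have h2 : (R.KK α α : ℂ) = 0 := by rw [← h1]; simp
  have h3 : R.KK α α = 0 := by exact_mod_cast h2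
  exact (R.KK_self_pos α).ne' h3

theorem isSl2Triple (α : ι) : IsSl2Triple (T.h α) (T.e α) (T.f α) := by
  refine ⟨T.h_ne_zero α, T.lie_ef α, ?_, ?_⟩
  · rw [T.lie_he, R.cv_self, two_smul]
    simp [two_smul]
  · rw [T.lie_hf, R.cv_self, two_smul]
    simp [two_smul]

theorem isWt_h {v : I → ℝ} {m : M} (hm : T.IsWt v m) (β : ι) :
    ⁅T.h β, m⁆ = (R.cv β v : ℂ) • m := by
  rw [T.h_eq β, sum_lie, R.cv_apply]
  push_cast
  rw [Finset.sum_smul]
  refine Finset.sum_congr rfl fun i _ => ?_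
  rw [smul_lie, hm i, smul_smul]

theorem isWt_e {v : I → ℝ} {m : M} (hm : T.IsWt v m) (β : ι) :
    T.IsWt (v + R.rt β) ⁅T.e β, m⁆ := by
  intro i
  rw [leibniz_lie, T.lie_he, R.cv_sr, hm i, smul_lie, lie_smul, ← add_smul, Pi.add_apply]
  push_cast
  rw [add_comm]

theorem isWt_f {v : I → ℝ} {m : M} (hm : T.IsWt v m) (β : ι) :
    T.IsWt (v - R.rt β) ⁅T.f β, m⁆ := by
  intro i
  rw [leibniz_lie, T.lie_hf, R.cv_sr, hm i, neg_lie, smul_lie, lie_smul, Pi.sub_apply]
  push_cast
  rw [sub_smul]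
  abel

/-- a subspace stable under the spanning set is a submodule -/
theorem lie_mem_of_gen (N : Submodule ℂ M) (hh : ∀ i, ∀ m ∈ N, ⁅T.h (R.sr i), m⁆ ∈ N)
    (he : ∀ β, ∀ m ∈ N, ⁅T.e β, m⁆ ∈ N) (x : L) {m : M} (hm : m ∈ N) : ⁅x, m⁆ ∈ N := by
  have hx : x ∈ Submodule.span ℂ (Set.range T.h ∪ Set.range T.e) := by
    rw [T.span_top]; trivial
  induction hx using Submodule.span_induction with
  | mem y hy =>
    rcases hy with ⟨β, rfl⟩ | ⟨β, rfl⟩
    · rw [T.h_eq β, sum_lie]
      refine N.sum_mem fun i _ => ?_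
      rw [smul_lie]
      exact N.smul_mem _ (hh i m hm)
    · exact he β m hm
  | zero => simp
  | add y z _ _ hy hz => rw [add_lie]; exact N.add_mem hy hz
  | smul c y _ hy => rw [smul_lie]; exact N.smul_mem c hy

theorem iSupIndep_wsp : iSupIndep (fun v => T.wsp M v) := by
  have hc : ∀ i j, Commute (LieModule.toEnd ℂ L M (T.h (R.sr i)))
      (LieModule.toEnd ℂ L M (T.h (R.sr j))) := by
    intro i j
    ext m
    simp only [Module.End.mul_apply, LieModule.toEnd_apply_apply]
    rw [leibniz_lie, T.lie_hh, zero_lie, zero_add]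
  have h1 := Module.End.independent_iInf_maxGenEigenspace_of_forall_mapsTo
    (fun i => LieModule.toEnd ℂ L M (T.h (R.sr i)))
    (fun i j φ => Module.End.mapsTo_maxGenEigenspace_of_comm (hc j i) φ)
  have hinj : Function.Injective (fun (v : I → ℝ) (i : I) => (v i : ℂ)) := by
    intro v w h
    funext i
    exact Complex.ofReal_injective (congrFun h i)
  refine (h1.comp hinj).mono ?_
  intro v m hm
  simp only [Function.comp_apply]
  rw [Module.End.mem_iInf_maxGenEigenspace_iff]
  intro j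
  refine ⟨1, ?_⟩
  have := hm j
  simp [this]

/-- coordinates of a weight vector in a weight basis -/
theorem repr_eq_zero {J : Type*} (b : Module.Basis J ℂ M) (wt : J → I → ℝ)
    (hb : ∀ j, T.IsWt (wt j) (b j)) {v : I → ℝ} {m : M} (hm : T.IsWt v m) {j : J}
    (hj : wt j ≠ v) : b.repr m j = 0 := by
  obtain ⟨i, hi⟩ := Function.ne_iff.mp hj
  have h1 : (b.coord j).comp (LieModule.toEnd ℂ L M (T.h (R.sr i)))
      = (wt j i : ℂ) • b.coord j := by
    refine b.ext fun k => ?_
    simp only [LinearMap.comp_apply, LieModule.toEnd_apply_apply, hb k i, map_smul,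
      LinearMap.smul_apply, Module.Basis.coord_apply, Module.Basis.repr_self, smul_eq_mul]
    by_cases hk : k = j
    · subst hk; rfl
    · rw [Finsupp.single_eq_of_ne (Ne.symm hk)]; simp
  have h2 := LinearMap.congr_fun h1 m
  simp only [LinearMap.comp_apply, LieModule.toEnd_apply_apply, hm i, map_smul,
    LinearMap.smul_apply, Module.Basis.coord_apply, smul_eq_mul] at h2
  have h3 : (wt j i : ℂ) ≠ (v i : ℂ) := by exact_mod_cast hi
  rcases mul_eq_mul_right_iff.mp h2 with h | h
  · exact absurd h.symm h3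
  · exact h

theorem hasChar_of_basis {J : Type*} [Fintype J] (b : Module.Basis J ℂ M) (wt : J → I → ℝ)
    (hb : ∀ j, T.IsWt (wt j) (b j)) : T.HasChar M (∑ j, ex (wt j)) := by
  refine ⟨Fintype.card J, b.reindex (Fintype.equivFin J),
    fun k => wt ((Fintype.equivFin J).symm k), fun k => ?_, ?_⟩
  · rw [Module.Basis.reindex_apply]; exact hb _
  · exact (Equiv.sum_comp (Fintype.equivFin J).symm (fun j => (ex (wt j) : GR I))).symm

private theorem liechar_coeff_sum {A : Type*} (S : Finset A) (g : A → GR I) (v : I → ℝ) :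
    (∑ a ∈ S, g a).coeff v = ∑ a ∈ S, (g a).coeff v := by
  classical
  induction S using Finset.induction_on with
  | empty => simp
  | insert a S ha ih => rw [Finset.sum_insert ha, Finset.sum_insert ha, ← ih]; simp

theorem hasChar_coeff {X : GR I} (h : T.HasChar M X) (v : I → ℝ) :
    X.coeff v = (Module.finrank ℂ (T.wsp M v) : ℂ) := by
  classical
  obtain ⟨n, b, wt, hb, rfl⟩ := h
  have h1 : T.wsp M v = Submodule.span ℂ (Set.range fun j : {j // wt j = v} => b j.1) := by
    apply le_antisymm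
    · intro m hm
      rw [← b.sum_repr m]
      refine Submodule.sum_mem _ fun j _ => ?_
      by_cases hj : wt j = v
      · exact Submodule.smul_mem _ _ (Submodule.subset_span ⟨⟨j, hj⟩, rfl⟩)
      · rw [T.repr_eq_zero b wt hb hm hj, zero_smul]; exact Submodule.zero_mem _
    · rw [Submodule.span_le]
      rintro _ ⟨⟨j, hj⟩, rfl⟩
      have := hb j
      rw [hj] at this
      exact this
  have h2 : LinearIndependent ℂ (fun j : {j // wt j = v} => b j.1) :=
    b.linearIndependent.comp _ Subtype.val_injective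
  rw [h1, finrank_span_eq_card h2, Fintype.card_subtype, liechar_coeff_sum]
  simp only [RD.coeff_ex]
  rw [Finset.sum_boole]

theorem hasChar_unique {X Y : GR I} (h : T.HasChar M X) (h' : T.HasChar M Y) : X = Y := by
  have : X.coeff = Y.coeff := by
    ext v
    rw [T.hasChar_coeff h, T.hasChar_coeff h']
  exact AddMonoidAlgebra.coeff_injective this

theorem iSup_wsp_of_hasChar {X : GR I} (h : T.HasChar M X) : ⨆ v, T.wsp M v = ⊤ := by
  obtain ⟨n, b, wt, hb, -⟩ := h
  rw [eq_top_iff, ← b.span_eq, Submodule.span_le]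
  rintro _ ⟨j, rfl⟩
  exact Submodule.mem_iSup_of_mem (wt j) (hb j)

theorem exists_hasChar [Module.Finite ℂ M] (h : ⨆ v, T.wsp M v = ⊤) : ∃ X, T.HasChar M X := by
  obtain ⟨s, hs, hsp, hli⟩ := exists_linearIndependent ℂ {m : M | ∃ v, T.IsWt v m}
  have htop : Submodule.span ℂ {m : M | ∃ v, T.IsWt v m} = ⊤ := by
    rw [eq_top_iff, ← h]
    refine iSup_le fun v m hm => Submodule.subset_span ⟨v, hm⟩
  have hfin : Finite s := hli.finite
  have := Fintype.ofFinite s
  have hle : ⊤ ≤ Submodule.span ℂ (Set.range ((↑) : s → M)) := by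
    rw [Subtype.range_coe, hsp, htop]
  choose wt hwt using fun j : s => hs j.2
  exact ⟨_, T.hasChar_of_basis (Module.Basis.mk hli hle) wt fun j => by
    rw [Module.Basis.mk_apply]; exact hwt j⟩

theorem hasChar_tensor {N : Type*} [AddCommGroup N] [Module ℂ N] [LieRingModule L N]
    [LieModule ℂ L N] {X Y : GR I} (h : T.HasChar M X) (h' : T.HasChar N Y) :
    T.HasChar (TensorProduct ℂ M N) (X * Y) := by
  obtain ⟨n, b, wt, hb, rfl⟩ := h
  obtain ⟨n', b', wt', hb', rfl⟩ := h'
  have h1 := T.hasChar_of_basis (b.tensorProduct b') (fun p => wt p.1 + wt' p.2) (by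
    rintro ⟨j, k⟩ i
    rw [Module.Basis.tensorProduct_apply, TensorProduct.LieModule.lie_tmul_right, hb j i, hb' k i,
      ← TensorProduct.smul_tmul', TensorProduct.tmul_smul, ← add_smul, Pi.add_apply]
    push_cast
    rfl)
  rw [Finset.sum_mul_sum]
  rw [Fintype.sum_prod_type] at h1
  simpa only [RD.ex_add] using h1

theorem hasChar_compl {N N' : LieSubmodule ℂ L M} (hc : IsCompl N N') {X Y : GR I}
    (h : T.HasChar N X) (h' : T.HasChar N' Y) : T.HasChar M (X + Y) := by
  obtain ⟨n, b, wt, hb, rfl⟩ := h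
  obtain ⟨n', b', wt', hb', rfl⟩ := h'
  have hc' : IsCompl N.toSubmodule N'.toSubmodule := LieSubmodule.isCompl_toSubmodule.mpr hc
  have he : ∀ (x : N) (y : N'),
      Submodule.prodEquivOfIsCompl N.toSubmodule N'.toSubmodule hc' (x, y) = (x : M) + (y : M) :=
    fun x y => rfl
  have h1 := T.hasChar_of_basis
    ((b.prod b').map (Submodule.prodEquivOfIsCompl N.toSubmodule N'.toSubmodule hc'))
    (Sum.elim wt wt') (by
    rintro (j | k) i
    · have h2 := congrArg (fun x : N => (x : M)) (hb j i)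
      simpa [Module.Basis.prod_apply, he] using h2
    · have h2 := congrArg (fun x : N' => (x : M)) (hb' k i)
      simpa [Module.Basis.prod_apply, he] using h2)
  rw [Fintype.sum_sum_type] at h1
  simpa using h1

theorem iSup_wsp_sub {N N' : LieSubmodule ℂ L M} (hc : IsCompl N N') (h : ⨆ v, T.wsp M v = ⊤) :
    ⨆ v, T.wsp N v = ⊤ := by
  have hc' : IsCompl N.toSubmodule N'.toSubmodule := LieSubmodule.isCompl_toSubmodule.mpr hc
  let p : M →ₗ[ℂ] N := N.toSubmodule.projectionOnto N'.toSubmodule hc'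
  have hl : ∀ x : N, p (x : M) = x := fun x => Submodule.projectionOnto_apply_left hc' x
  have hr : ∀ x : N', p (x : M) = 0 := fun x => Submodule.projectionOnto_apply_right hc' x
  have hp : ∀ (x : L) (m : M), p ⁅x, m⁆ = ⁅x, p m⁆ := by
    intro x m
    have hm : m ∈ N.toSubmodule ⊔ N'.toSubmodule := by rw [hc'.sup_eq_top]; trivial
    obtain ⟨a, ha, c, hc2, rfl⟩ := Submodule.mem_sup.mp hm
    have e1 := hl ⁅x, (⟨a, ha⟩ : N)⁆
    have e2 := hr ⁅x, (⟨c, hc2⟩ : N')⁆
    have e3 := hl ⟨a, ha⟩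
    have e4 := hr ⟨c, hc2⟩
    simp only [LieSubmodule.coe_bracket] at e1 e2 e3 e4
    rw [lie_add, map_add, map_add, e1, e2, e3, e4, add_zero, add_zero]
  have hall : ∀ m : M, p m ∈ ⨆ v, T.wsp N v := by
    intro m
    have hm : m ∈ ⨆ v, T.wsp M v := by rw [h]; trivial
    induction hm using Submodule.iSup_induction' with
    | mem v m hm =>
      refine Submodule.mem_iSup_of_mem v ?_
      intro i
      rw [← hp, hm i, map_smul]
    | zero => simp
    | add x y _ _ hx hy => rw [map_add]; exact Submodule.add_mem _ hx hy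
  rw [eq_top_iff]
  intro x _
  rw [← hl x]
  exact hall _

end Rlz

end Pool.Agent.Lib.MP_1e3767_al
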