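import Pool.Agent.Lib.MP_1e3767_al.LieChar

set_option linter.unusedSectionVars false

namespace Pool.Agent.Lib.MP_1e3767_al

open Finset

namespace Rlz
variable {I ι W : Type*} [Fintype I] [DecidableEq I] [Fintype ι] [Group W] [Fintype W]
  [DistribMulAction W (I → ℝ)] [SMulCommClass W ℝ (I → ℝ)] [MulAction W ι] {R : RD I ι W}
  {L : Type*} [LieRing L] [LieAlgebra ℂ L] [Module.Finite ℂ L] (T : Rlz R.toRD0 L)
  {M : Type*} [AddCommGroup M] [Module ℂ M] [LieRingModule L M] [LieModule ℂ L M]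

theorem lieHW_nil [Module.Finite ℂ M] {h e f : L} (t : IsSl2Triple h e f) {m : M} {μ : ℂ}
    (hm : ⁅h, m⁆ = μ • m) : ∃ k : ℕ, ((LieModule.toEnd ℂ L M e) ^ k) m = 0 := by
  by_contra! contra
  have h_inj : Function.Injective (fun n : ℕ => μ + 2 * (n : ℂ)) := fun a b hab => by
    simpa using hab
  have aux (c : Set.range (fun n : ℕ => μ + 2 * (n : ℂ))) :
      (LieModule.toEnd ℂ L M h).HasEigenvector c
        (((LieModule.toEnd ℂ L M e) ^ c.property.choose) m) := by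
    refine ⟨?_, contra _⟩
    rw [Module.End.mem_eigenspace_iff, LieModule.toEnd_apply_apply]
    have h1 := c.property.choose_spec
    have h2 := t.lie_h_pow_toEnd_e hm c.property.choose
    rw [h2]
    congr 1
  have _i := ((LieModule.toEnd ℂ L M h).eigenvectors_linearIndependent _ _ aux).finite
  exact (Set.infinite_range_of_injective h_inj) (Set.toFinite _)

theorem lieHW_prim [Module.Finite ℂ M] {h e f : L} (t : IsSl2Triple h e f) {m : M} {μ : ℂ}
    (hm : ⁅h, m⁆ = μ • m) (h0 : m ≠ 0) :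
    ∃ k : ℕ, t.HasPrimitiveVectorWith (((LieModule.toEnd ℂ L M e) ^ k) m) (μ + 2 * (k : ℂ)) := by
  obtain ⟨k, hk1, hk2⟩ := Nat.exists_not_and_succ_of_not_zero_of_exists
    (p := fun k => ((LieModule.toEnd ℂ L M e) ^ k) m = 0) (by simpa using h0) (lieHW_nil t hm)
  exact ⟨k, hk1, t.lie_h_pow_toEnd_e hm k, by rwa [IsSl2Triple.lie_e_pow_toEnd_e k]⟩

theorem lieHW_comm {h e f : L} (t : IsSl2Triple h e f) {m : M} {μ : ℂ}
    (hm : ⁅h, m⁆ = μ • m) (k : ℕ) :
    ∃ c : ℂ, ((LieModule.toEnd ℂ L M e) ^ (k + 1)) ⁅f, m⁆ =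
      ⁅f, ((LieModule.toEnd ℂ L M e) ^ (k + 1)) m⁆ + c • ((LieModule.toEnd ℂ L M e) ^ k) m := by
  induction k with
  | zero =>
    refine ⟨μ, ?_⟩
    simp only [zero_add, pow_one, LieModule.toEnd_apply_apply, pow_zero, Module.End.one_apply]
    rw [leibniz_lie e f m, t.lie_e_f, hm, add_comm]
  | succ k ih =>
    obtain ⟨c, hc⟩ := ih
    refine ⟨(μ + 2 * ((k + 1 : ℕ) : ℂ)) + c, ?_⟩
    rw [← IsSl2Triple.lie_e_pow_toEnd_e (k + 1), hc, lie_add, leibniz_lie e f, t.lie_e_f,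
      t.lie_h_pow_toEnd_e hm (k + 1), lie_smul, IsSl2Triple.lie_e_pow_toEnd_e (k + 1),
      IsSl2Triple.lie_e_pow_toEnd_e k]
    module

theorem lieHW_isWt_pow_e {v : I → ℝ} {m : M} (hm : T.IsWt v m) (β : ι) (k : ℕ) :
    T.IsWt (v + (k : ℝ) • R.rt β) (((LieModule.toEnd ℂ L M (T.e β)) ^ k) m) := by
  induction k with
  | zero => simpa using hm
  | succ k ih =>
    rw [← IsSl2Triple.lie_e_pow_toEnd_e k]
    have := T.isWt_e ih β
    convert this using 1
    push_cast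
    rw [add_smul, one_smul, add_assoc]

theorem lieHW_isWt_pow_f {v : I → ℝ} {m : M} (hm : T.IsWt v m) (β : ι) (k : ℕ) :
    T.IsWt (v - (k : ℝ) • R.rt β) (((LieModule.toEnd ℂ L M (T.f β)) ^ k) m) := by
  induction k with
  | zero => simpa using hm
  | succ k ih =>
    rw [← IsSl2Triple.lie_e_pow_toEnd_e k]
    have := T.isWt_f ih β
    convert this using 1
    push_cast
    rw [add_smul, one_smul, sub_sub]

theorem lieHW_cv_s (β : ι) (v : I → ℝ) : R.cv β (R.s β • v) = -R.cv β v := by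
  rw [R.s_smul', map_sub, map_smul, R.cv_self, smul_eq_mul]
  ring

theorem lieHW_finrank_le [Module.Finite ℂ M] {A B : Submodule ℂ M} (g : M →ₗ[ℂ] M)
    (hg : ∀ m ∈ A, g m ∈ B) (hi : ∀ m ∈ A, g m = 0 → m = 0) :
    Module.finrank ℂ A ≤ Module.finrank ℂ B := by
  refine LinearMap.finrank_le_finrank_of_injective (f := g.restrict hg) ?_
  rw [injective_iff_map_eq_zero]
  intro a ha
  apply Subtype.ext
  exact hi a a.2 (by simpa using congrArg Subtype.val ha)

/-- injectivity of powers of `e` on the negative weight spaces of an sl2 triple -/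
theorem sl2_inj [Module.Finite ℂ M] {h e f : L} (t : IsSl2Triple h e f) (n : ℕ) {m : M}
    (hm : ⁅h, m⁆ = -(n : ℂ) • m) (h0 : ((LieModule.toEnd ℂ L M e) ^ n) m = 0) : m = 0 := by
  by_contra hne
  have hm' : ⁅-h, m⁆ = (n : ℂ) • m := by rw [neg_lie, hm, neg_smul, neg_neg]
  obtain ⟨j, P⟩ := lieHW_prim t.symm hm' hne
  have key : ∀ i : ℕ, ((LieModule.toEnd ℂ L M e) ^ (n + i))
      (((LieModule.toEnd ℂ L M f) ^ i) m) = 0 := by
    intro i
    induction i with
    | zero => simpa using h0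
    | succ i ih =>
      have h1 := t.symm.lie_h_pow_toEnd_e hm' i
      have h2 : ⁅h, ((LieModule.toEnd ℂ L M f) ^ i) m⁆ =
          (-((n : ℂ) + 2 * i)) • ((LieModule.toEnd ℂ L M f) ^ i) m := by
        rw [neg_smul, ← h1, neg_lie, neg_neg]
      obtain ⟨c, hc⟩ := lieHW_comm t h2 (n + i)
      rw [← IsSl2Triple.lie_e_pow_toEnd_e i, ← add_assoc, hc,
        ← IsSl2Triple.lie_e_pow_toEnd_e (n + i), ih]
      simp
  exact P.pow_toEnd_f_ne_zero_of_eq_nat (n := n + 2 * j) (by push_cast; ring) (i := n + j)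
    (by omega) (key j)

theorem cv_int_of_isWt [Module.Finite ℂ M] {v : I → ℝ} {m : M} (hm : T.IsWt v m) (h0 : m ≠ 0)
    (β : ι) : ∃ z : ℤ, R.cv β v = z := by
  obtain ⟨k, P⟩ := lieHW_prim (T.isSl2Triple β) (T.isWt_h hm β) h0
  obtain ⟨n, hn⟩ := P.exists_nat
  refine ⟨(n : ℤ) - 2 * k, ?_⟩
  have : ((R.cv β v : ℝ) : ℂ) = (((n : ℤ) - 2 * k : ℤ) : ℝ) := by
    push_cast
    rw [← hn]
    ring
  exact_mod_cast this

theorem lieHW_finrank_nat [Module.Finite ℂ M] (β : ι) (v : I → ℝ) (n : ℕ) (hn : R.cv β v = n) :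
    Module.finrank ℂ (T.wsp M (R.s β • v)) = Module.finrank ℂ (T.wsp M v) := by
  have hs : R.s β • v = v - (n : ℝ) • R.rt β := by rw [R.s_smul', hn]
  apply le_antisymm
  · refine lieHW_finrank_le ((LieModule.toEnd ℂ L M (T.e β)) ^ n) (fun m hm => ?_)
      (fun m hm h0 => ?_)
    · have := T.lieHW_isWt_pow_e (T.mem_wsp.1 hm) β n
      rw [hs, sub_add_cancel] at this
      exact T.mem_wsp.2 this
    · refine sl2_inj (T.isSl2Triple β) n ?_ h0
      rw [T.isWt_h (T.mem_wsp.1 hm) β, lieHW_cv_s, hn]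
      push_cast
      rfl
  · refine lieHW_finrank_le ((LieModule.toEnd ℂ L M (T.f β)) ^ n) (fun m hm => ?_)
      (fun m hm h0 => ?_)
    · have := T.lieHW_isWt_pow_f (T.mem_wsp.1 hm) β n
      rw [← hs] at this
      exact T.mem_wsp.2 this
    · refine sl2_inj (T.isSl2Triple β).symm n ?_ h0
      rw [neg_lie, T.isWt_h (T.mem_wsp.1 hm) β, hn, neg_smul]
      push_cast
      rfl

theorem finrank_wsp_s [Module.Finite ℂ M] (β : ι) (v : I → ℝ) :
    Module.finrank ℂ (T.wsp M (R.s β • v)) = Module.finrank ℂ (T.wsp M v) := by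
  by_cases hz : ∃ z : ℤ, R.cv β v = z
  · obtain ⟨z, hz⟩ := hz
    obtain ⟨n, rfl | rfl⟩ := z.eq_nat_or_neg
    · exact T.lieHW_finrank_nat β v n (by rw [hz]; simp)
    · have := T.lieHW_finrank_nat (M := M) β (R.s β • v) n (by rw [lieHW_cv_s, hz]; simp)
      rw [← mul_smul, R.s_mul_s, one_smul] at this
      exact this.symm
  · have h1 : T.wsp M v = ⊥ := by
      rw [Submodule.eq_bot_iff]
      intro m hm
      by_contra h0
      exact hz (T.cv_int_of_isWt (T.mem_wsp.1 hm) h0 β)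
    have h2 : T.wsp M (R.s β • v) = ⊥ := by
      rw [Submodule.eq_bot_iff]
      intro m hm
      by_contra h0
      obtain ⟨z, hz'⟩ := T.cv_int_of_isWt (T.mem_wsp.1 hm) h0 β
      rw [lieHW_cv_s] at hz'
      exact hz ⟨-z, by push_cast; linarith⟩
    rw [h1, h2]

theorem dom_of_isHWv [Module.Finite ℂ M] {lam : I → ℝ} {m : M} (h : T.IsHWv lam m) :
    Dom lam ∧ IntV lam := by
  have key : ∀ i, ∃ n : ℕ, lam i = n := by
    intro i
    have P : (T.isSl2Triple (R.sr i)).HasPrimitiveVectorWith m ((lam i : ℝ) : ℂ) :=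
      ⟨h.1, h.2.1 i, h.2.2 _ (R.sr_pos i)⟩
    obtain ⟨n, hn⟩ := P.exists_nat
    exact ⟨n, by exact_mod_cast hn⟩
  refine ⟨fun i => ?_, fun i => ?_⟩
  · obtain ⟨n, hn⟩ := key i
    rw [hn]
    positivity
  · obtain ⟨n, hn⟩ := key i
    exact ⟨n, by rw [hn]; simp⟩

theorem exists_isHWv [Module.Finite ℂ M] [Nontrivial M] (h : ⨆ v, T.wsp M v = ⊤) :
    ∃ (lam : I → ℝ) (m : M), T.IsHWv lam m := by
  have hfin : {v : I → ℝ | T.wsp M v ≠ ⊥}.Finite :=
    Submodule.finite_ne_bot_of_iSupIndep (T.iSupIndep_wsp (M := M))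
  have hne : {v : I → ℝ | T.wsp M v ≠ ⊥}.Nonempty := by
    by_contra hc
    rw [Set.not_nonempty_iff_eq_empty, Set.eq_empty_iff_forall_notMem] at hc
    have : (⨆ v, T.wsp M v) = ⊥ := by
      rw [iSup_eq_bot]
      intro v
      by_contra hv
      exact hc v hv
    rw [h] at this
    exact top_ne_bot this
  obtain ⟨lam, hlam, hmax⟩ := hfin.exists_maximalFor (fun v => R.ht v) _ hne
  obtain ⟨m, hm, hm0⟩ := Submodule.exists_mem_ne_zero_of_ne_bot hlam
  refine ⟨lam, m, hm0, T.mem_wsp.1 hm, fun β hβ => ?_⟩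
  by_contra h0
  have h1 : T.wsp M (lam + R.rt β) ≠ ⊥ := by
    intro hb
    have := T.mem_wsp.2 (T.isWt_e (T.mem_wsp.1 hm) β)
    rw [hb] at this
    exact h0 ((Submodule.mem_bot ℂ).1 this)
  have h2 := R.ht_rt_pos hβ
  have h3 : R.ht lam ≤ R.ht (lam + R.rt β) := by
    rw [map_add]
    linarith
  have h4 : R.ht (lam + R.rt β) ≤ R.ht lam := hmax h1 h3
  rw [map_add] at h4
  linarith

/-- span of the words of length at most `k` in the lowering operators applied to `m` -/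
noncomputable def lieHWN (m : M) : ℕ → Submodule ℂ M
  | 0 => Submodule.span ℂ {m}
  | k + 1 => lieHWN m k ⊔ ⨆ (γ : ι) (_ : γ ∈ R.Pos), (lieHWN m k).map (LieModule.toEnd ℂ L M (T.f γ))

theorem lieHWN_le (m : M) (k : ℕ) : T.lieHWN m k ≤ T.lieHWN m (k + 1) := le_sup_left

theorem lieHWN_f (m : M) (k : ℕ) {γ : ι} (hγ : γ ∈ R.Pos) {n : M} (hn : n ∈ T.lieHWN m k) :
    ⁅T.f γ, n⁆ ∈ T.lieHWN m (k + 1) := by
  refine Submodule.mem_sup_right ?_
  refine Submodule.mem_iSup_of_mem γ (Submodule.mem_iSup_of_mem hγ ?_)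
  exact ⟨n, hn, rfl⟩

theorem lieHWN_succ_le (m : M) (k : ℕ) {P : Submodule ℂ M} (h1 : T.lieHWN m k ≤ P)
    (h2 : ∀ γ ∈ R.Pos, ∀ n ∈ T.lieHWN m k, ⁅T.f γ, n⁆ ∈ P) : T.lieHWN m (k + 1) ≤ P := by
  refine sup_le h1 (iSup_le fun γ => iSup_le fun hγ => ?_)
  rintro _ ⟨n, hn, rfl⟩
  exact h2 γ hγ n hn

theorem lieHWN_all (m : M) (k : ℕ)
    (hB : ∀ x : L, ((∃ α, x = T.h α) ∨ ∃ β ∈ R.Pos, x = T.e β) →
      ∀ n ∈ T.lieHWN m k, ⁅x, n⁆ ∈ T.lieHWN m k)
    (x : L) {n : M} (hn : n ∈ T.lieHWN m k) : ⁅x, n⁆ ∈ T.lieHWN m (k + 1) := by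
  have hx : x ∈ Submodule.span ℂ (Set.range T.h ∪ Set.range T.e) := by
    rw [T.span_top]; trivial
  induction hx using Submodule.span_induction with
  | mem y hy =>
    rcases hy with ⟨α, rfl⟩ | ⟨β, rfl⟩
    · exact T.lieHWN_le m k (hB _ (Or.inl ⟨α, rfl⟩) n hn)
    · by_cases hβ : β ∈ R.Pos
      · exact T.lieHWN_le m k (hB _ (Or.inr ⟨β, hβ, rfl⟩) n hn)
      · have h1 := T.e_mem (R.ng β)
        rw [R.ng_ng] at h1
        obtain ⟨c, hc⟩ := Submodule.mem_span_singleton.1 h1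
        rw [← hc, smul_lie]
        exact Submodule.smul_mem _ _ (T.lieHWN_f m k ((R.ng_mem_Pos β).2 hβ) hn)
  | zero => rw [zero_lie]; exact Submodule.zero_mem _
  | add y z _ _ hy hz => rw [add_lie]; exact Submodule.add_mem _ hy hz
  | smul c y _ hy => rw [smul_lie]; exact Submodule.smul_mem _ _ hy

theorem lieHWN_borel {lam : I → ℝ} {m : M} (h : T.IsHWv lam m) (k : ℕ) :
    ∀ x : L, ((∃ α, x = T.h α) ∨ ∃ β ∈ R.Pos, x = T.e β) →
      ∀ n ∈ T.lieHWN m k, ⁅x, n⁆ ∈ T.lieHWN m k := by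
  induction k with
  | zero =>
    intro x hx n hn
    obtain ⟨c, rfl⟩ := Submodule.mem_span_singleton.1 hn
    rw [lie_smul]
    refine Submodule.smul_mem _ _ ?_
    rcases hx with ⟨α, rfl⟩ | ⟨β, hβ, rfl⟩
    · rw [T.isWt_h h.2.1 α]
      exact Submodule.smul_mem _ _ (Submodule.mem_span_singleton_self m)
    · rw [h.2.2 β hβ]
      exact Submodule.zero_mem _
  | succ k ih =>
    intro x hx n hn
    have key : T.lieHWN m (k + 1) ≤ (T.lieHWN m (k + 1)).comap (LieModule.toEnd ℂ L M x) := by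
      refine T.lieHWN_succ_le m k ?_ ?_
      · intro y hy
        exact T.lieHWN_le m k (ih x hx y hy)
      · intro γ hγ y hy
        show ⁅x, ⁅T.f γ, y⁆⁆ ∈ T.lieHWN m (k + 1)
        rw [leibniz_lie]
        exact Submodule.add_mem _ (T.lieHWN_all m k ih _ hy) (T.lieHWN_f m k hγ (ih x hx y hy))
    exact key hn

theorem lieHWN_top [LieModule.IsIrreducible ℂ L M] {lam : I → ℝ} {m : M} (h : T.IsHWv lam m) :
    ⨆ k, T.lieHWN m k = ⊤ := by
  let U : LieSubmodule ℂ L M :=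
    { toSubmodule := ⨆ k, T.lieHWN m k
      lie_mem := by
        intro x n hn
        have key : (⨆ k, T.lieHWN m k) ≤
            (⨆ k, T.lieHWN m k).comap (LieModule.toEnd ℂ L M x) := by
          refine iSup_le fun k => ?_
          intro y hy
          exact Submodule.mem_iSup_of_mem (k + 1)
            (T.lieHWN_all m k (T.lieHWN_borel h k) x hy)
        exact key hn }
  have hm : m ∈ U := Submodule.mem_iSup_of_mem 0 (Submodule.mem_span_singleton_self m)
  rcases eq_bot_or_eq_top U with hU | hU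
  · rw [hU, LieSubmodule.mem_bot] at hm
    exact absurd hm h.1
  · rw [eq_top_iff]
    intro y _
    have : y ∈ U := by rw [hU]; trivial
    exact this

/-- an irreducible module is spanned by the highest weight vector and lower weight spaces -/
theorem span_hw [LieModule.IsIrreducible ℂ L M] {lam : I → ℝ} {m : M} (h : T.IsHWv lam m) :
    Submodule.span ℂ {m} ⊔ ⨆ (q : I → ℝ) (_ : R.InQp q ∧ q ≠ 0), T.wsp M (lam - q) = ⊤ := by
  set S : Submodule ℂ M :=
    Submodule.span ℂ {m} ⊔ ⨆ (q : I → ℝ) (_ : R.InQp q ∧ q ≠ 0), T.wsp M (lam - q) with hS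
  have hin : ∀ q : I → ℝ, R.InQp q → q ≠ 0 → T.wsp M (lam - q) ≤ S := by
    intro q h1 h2
    refine le_trans ?_ le_sup_right
    exact le_iSup₂_of_le (f := fun (q : I → ℝ) (_ : R.InQp q ∧ q ≠ 0) => T.wsp M (lam - q))
      q ⟨h1, h2⟩ le_rfl
  have hf : ∀ γ ∈ R.Pos, S ≤ S.comap (LieModule.toEnd ℂ L M (T.f γ)) := by
    intro γ hγ
    refine sup_le ?_ (iSup_le fun q => iSup_le fun hq => ?_)
    · rw [Submodule.span_singleton_le_iff_mem]
      exact hin _ (R.inQp_rt hγ) (R.rt_ne_zero γ) (T.isWt_f h.2.1 γ)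
    · intro y hy
      have h1 : T.IsWt (lam - q - R.rt γ) ⁅T.f γ, y⁆ := T.isWt_f hy γ
      rw [sub_sub] at h1
      refine hin _ (R.inQp_add hq.1 (R.inQp_rt hγ)) ?_ h1
      intro h0
      have h2 := R.ht_nonneg_of_inQp hq.1
      have h3 := R.ht_rt_pos hγ
      have h4 : R.ht (q + R.rt γ) = 0 := by rw [h0, map_zero]
      rw [map_add] at h4
      linarith
  have hk : ∀ k, T.lieHWN m k ≤ S := by
    intro k
    induction k with
    | zero => exact le_sup_left
    | succ k ih => exact T.lieHWN_succ_le m k ih fun γ hγ n hn => hf γ hγ (ih hn)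
  rw [eq_top_iff, ← T.lieHWN_top h]
  exact iSup_le hk

theorem iSup_wsp_of_hw [LieModule.IsIrreducible ℂ L M] {lam : I → ℝ} {m : M}
    (h : T.IsHWv lam m) : ⨆ v, T.wsp M v = ⊤ := by
  rw [eq_top_iff, ← T.span_hw h]
  refine sup_le ?_ (iSup_le fun q => iSup_le fun _ => le_iSup (fun v => T.wsp M v) _)
  rw [Submodule.span_singleton_le_iff_mem]
  exact Submodule.mem_iSup_of_mem lam h.2.1

theorem wsp_hw [LieModule.IsIrreducible ℂ L M] {lam : I → ℝ} {m : M} (h : T.IsHWv lam m) :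
    T.wsp M lam = Submodule.span ℂ {m} := by
  refine le_antisymm ?_ ((Submodule.span_singleton_le_iff_mem _ _).2 h.2.1)
  intro x hx
  have hx' : x ∈ Submodule.span ℂ {m} ⊔
      ⨆ (q : I → ℝ) (_ : R.InQp q ∧ q ≠ 0), T.wsp M (lam - q) := by
    rw [T.span_hw h]; trivial
  obtain ⟨a, ha, y, hy, rfl⟩ := Submodule.mem_sup.1 hx'
  have ha' : a ∈ T.wsp M lam := (Submodule.span_singleton_le_iff_mem _ _).2 h.2.1 ha
  have hy1 : y ∈ T.wsp M lam := by
    have := Submodule.sub_mem _ hx ha'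
    rwa [add_sub_cancel_left] at this
  have hle : (⨆ (q : I → ℝ) (_ : R.InQp q ∧ q ≠ 0), T.wsp M (lam - q)) ≤
      ⨆ (v : I → ℝ) (_ : v ≠ lam), T.wsp M v := by
    refine iSup_le fun q => iSup_le fun hq => ?_
    refine le_iSup₂_of_le (f := fun (v : I → ℝ) (_ : v ≠ lam) => T.wsp M v) (lam - q) ?_ le_rfl
    intro h0
    exact hq.2 (sub_eq_self.1 h0)
  have hy0 : y = 0 := Submodule.disjoint_def.1 (T.iSupIndep_wsp (M := M) lam) y hy1 (hle hy)
  rw [hy0, add_zero]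
  exact ha

theorem inQp_of_wsp_ne_bot [LieModule.IsIrreducible ℂ L M] {lam : I → ℝ} {m : M}
    (h : T.IsHWv lam m) {v : I → ℝ} (hv : T.wsp M v ≠ ⊥) : R.InQp (lam - v) := by
  by_contra hn
  apply hv
  have hle : (⊤ : Submodule ℂ M) ≤ ⨆ (u : I → ℝ) (_ : u ≠ v), T.wsp M u := by
    rw [← T.span_hw h]
    refine sup_le ?_ (iSup_le fun q => iSup_le fun hq => ?_)
    · rw [Submodule.span_singleton_le_iff_mem]
      have h1 : lam ≠ v := by
        intro h0
        apply hn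
        rw [h0, sub_self]
        exact R.inQp_zero
      exact Submodule.mem_iSup_of_mem lam (Submodule.mem_iSup_of_mem h1 h.2.1)
    · refine le_iSup₂_of_le (f := fun (u : I → ℝ) (_ : u ≠ v) => T.wsp M u) (lam - q) ?_ le_rfl
      intro h0
      apply hn
      rw [← h0, sub_sub_cancel]
      exact hq.1
  have hd := T.iSupIndep_wsp (M := M) v
  rw [eq_bot_iff]
  intro y hy
  exact Submodule.disjoint_def.1 hd y hy (hle trivial)

/-- a highest weight vector of weight zero is invariant -/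
theorem inv_of_isHWv_zero [Module.Finite ℂ M] {m : M} (h : T.IsHWv 0 m) (x : L) : ⁅x, m⁆ = 0 := by
  have hh : ∀ β, ⁅T.h β, m⁆ = 0 := fun β => by
    rw [T.isWt_h h.2.1 β, map_zero]
    simp
  have hf : ∀ β ∈ R.Pos, ⁅T.f β, m⁆ = 0 := fun β hβ => by
    have P : (T.isSl2Triple β).HasPrimitiveVectorWith m (0 : ℂ) :=
      ⟨h.1, by rw [hh, zero_smul], h.2.2 β hβ⟩
    have := P.pow_toEnd_f_eq_zero_of_eq_nat (n := 0) (by simp)
    simpa using this
  have he : ∀ β, ⁅T.e β, m⁆ = 0 := fun β => by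
    by_cases hβ : β ∈ R.Pos
    · exact h.2.2 β hβ
    · have h1 := T.e_mem (R.ng β)
      rw [R.ng_ng] at h1
      obtain ⟨c, hc⟩ := Submodule.mem_span_singleton.1 h1
      rw [← hc, smul_lie, hf _ ((R.ng_mem_Pos β).2 hβ), smul_zero]
  have hx : x ∈ Submodule.span ℂ (Set.range T.h ∪ Set.range T.e) := by
    rw [T.span_top]
    trivial
  induction hx using Submodule.span_induction with
  | mem y hy =>
    rcases hy with ⟨β, rfl⟩ | ⟨β, rfl⟩
    · exact hh β
    · exact he β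
  | zero => simp
  | add y z _ _ hy hz => rw [add_lie, hy, hz, add_zero]
  | smul c y _ hy => rw [smul_lie, hy, smul_zero]

theorem eq_zero_of_inv [LieModule.IsIrreducible ℂ L M] {lam : I → ℝ} {m : M} (h : T.IsHWv lam m)
    {m' : M} (h0 : m' ≠ 0) (hi : ∀ x : L, ⁅x, m'⁆ = 0) : lam = 0 := by
  have hm' : m' ∈ LieModule.maxTrivSubmodule ℂ L M := (LieModule.mem_maxTrivSubmodule ℂ L M m').2 hi
  rcases eq_bot_or_eq_top (LieModule.maxTrivSubmodule ℂ L M) with hU | hU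
  · rw [hU, LieSubmodule.mem_bot] at hm'
    exact absurd hm' h0
  · have hm : m ∈ LieModule.maxTrivSubmodule ℂ L M := by rw [hU]; trivial
    funext i
    have h1 := (LieModule.mem_maxTrivSubmodule ℂ L M m).1 hm (T.h (R.sr i))
    rw [h.2.1 i, smul_eq_zero] at h1
    rcases h1 with h1 | h1
    · exact_mod_cast h1
    · exact absurd h1 h.1

end Rlz

end Pool.Agent.Lib.MP_1e3767_al
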