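import Pool.Agent.Lib.MP_1e3767_al.LieHW
import Pool.Agent.Lib.MP_1e3767_al.Casimir
import Pool.Agent.Lib.MP_1e3767_al.Lap
import Pool.Agent.Lib.MP_1e3767_al.CRC

set_option linter.unusedSectionVars false

namespace Pool.Agent.Lib.MP_1e3767_al

open Finset

namespace Rlz
variable {I ι W : Type*} [Fintype I] [DecidableEq I] [Fintype ι] [Group W] [Fintype W]
  [DistribMulAction W (I → ℝ)] [SMulCommClass W ℝ (I → ℝ)] [MulAction W ι] {R : RD I ι W}
  {L : Type*} [LieRing L] [LieAlgebra ℂ L] [Module.Finite ℂ L] (T : Rlz R.toRD0 L)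
  {M : Type*} [AddCommGroup M] [Module ℂ M] [LieRingModule L M] [LieModule ℂ L M]

/-- Weyl character formula -/
theorem weyl_char [Module.Finite ℂ M] [LieModule.IsIrreducible ℂ L M] {lam : I → ℝ} {m : M}
    (h : T.IsHWv lam m) {X : GR I} (hX : T.HasChar M X) : R.delta * X = R.AA (lam + rho) := by
  obtain ⟨B, c, hB, hc⟩ := T.freudenthal hX
  refine R.wcf (T.dom_of_isHWv h).1 X B c (fun i v => ?_) ?_ (fun v hv => ?_) hB hc
  · rw [T.hasChar_coeff hX, T.hasChar_coeff hX, T.finrank_wsp_s]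
  · rw [T.hasChar_coeff hX, T.wsp_hw h, finrank_span_singleton h.1, Nat.cast_one]
  · refine T.inQp_of_wsp_ne_bot h (fun h0 => hv ?_)
    rw [T.hasChar_coeff hX, h0, finrank_bot, Nat.cast_zero]

private theorem lieInv_irr [Module.Finite ℂ M] [Nontrivial M] [LieModule.IsIrreducible ℂ L M]
    {X : GR I} (hX : T.HasChar M X) :
    ∃ n : ℕ, (R.delta * X).coeff rho = n ∧ (n ≠ 0 ↔ ∃ m : M, m ≠ 0 ∧ ∀ x : L, ⁅x, m⁆ = 0) := by
  obtain ⟨lam, m, h⟩ := T.exists_isHWv (T.iSup_wsp_of_hasChar hX)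
  have hreg : Reg (lam + rho) := fun i => by
    have := (T.dom_of_isHWv h).1 i
    simp only [Pi.add_apply, rho]
    linarith
  have hdom : Dom (rho : I → ℝ) := fun _ => zero_le_one
  rw [T.weyl_char h hX, R.coeff_AA_dom hreg hdom]
  by_cases h0 : lam = 0
  · subst h0
    refine ⟨1, by simp, fun _ => ⟨m, h.1, T.inv_of_isHWv_zero h⟩, fun _ => one_ne_zero⟩
  · refine ⟨0, ?_, fun hn => absurd rfl hn, ?_⟩
    · rw [if_neg (fun e => h0 (add_eq_right.1 e)), Nat.cast_zero]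
    · rintro ⟨m', h1, h2⟩
      exact absurd (T.eq_zero_of_inv h h1 h2) h0

private theorem lieInv_split {N N' : LieSubmodule ℂ L M} (hc : IsCompl N N') :
    (∃ m : M, m ≠ 0 ∧ ∀ x : L, ⁅x, m⁆ = 0) ↔
      (∃ m : N, m ≠ 0 ∧ ∀ x : L, ⁅x, m⁆ = 0) ∨ (∃ m : N', m ≠ 0 ∧ ∀ x : L, ⁅x, m⁆ = 0) := by
  constructor
  · rintro ⟨m, h0, hm⟩
    have hmem : m ∈ N ⊔ N' := by rw [hc.sup_eq_top]; trivial
    obtain ⟨a, ha, b, hb, rfl⟩ := (LieSubmodule.mem_sup N N' m).1 hmem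
    have h1 : ∀ x : L, ⁅x, a⁆ = 0 := fun x => by
      have h2 : ⁅x, a⁆ = -⁅x, b⁆ := eq_neg_of_add_eq_zero_left (by rw [← lie_add, hm x])
      have h3 : ⁅x, a⁆ ∈ N ⊓ N' :=
        (LieSubmodule.mem_inf N N' _).2 ⟨N.lie_mem ha, h2 ▸ neg_mem (N'.lie_mem hb)⟩
      rwa [hc.inf_eq_bot, LieSubmodule.mem_bot] at h3
    by_cases ha0 : a = 0
    · subst ha0
      rw [zero_add] at h0 hm
      exact Or.inr ⟨⟨b, hb⟩, fun e => h0 (congrArg Subtype.val e), fun x => Subtype.ext (hm x)⟩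
    · exact Or.inl ⟨⟨a, ha⟩, fun e => ha0 (congrArg Subtype.val e), fun x => Subtype.ext (h1 x)⟩
  · rintro (⟨m, h0, hm⟩ | ⟨m, h0, hm⟩)
    · exact ⟨m, fun e => h0 (Subtype.ext e), fun x => congrArg Subtype.val (hm x)⟩
    · exact ⟨m, fun e => h0 (Subtype.ext e), fun x => congrArg Subtype.val (hm x)⟩

universe u in
private theorem lieInv_aux [LieAlgebra.IsKilling ℂ L] (k : ℕ) :
    ∀ (M : Type u) [AddCommGroup M] [Module ℂ M] [LieRingModule L M] [LieModule ℂ L M]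
      [Module.Finite ℂ M], Module.finrank ℂ M = k → ∀ X : GR I, T.HasChar M X →
      ∃ n : ℕ, (R.delta * X).coeff rho = n ∧
        (n ≠ 0 ↔ ∃ m : M, m ≠ 0 ∧ ∀ x : L, ⁅x, m⁆ = 0) := by
  induction k using Nat.strong_induction_on with
  | _ k ih =>
    intro M _ _ _ _ _ hk X hX
    rcases subsingleton_or_nontrivial M with hM | hM
    · obtain ⟨n, b, wt, -, rfl⟩ := hX
      have hn : IsEmpty (Fin n) := ⟨fun j => b.ne_zero j (Subsingleton.elim _ _)⟩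
      refine ⟨0, by simp, fun hn => absurd rfl hn, ?_⟩
      rintro ⟨m, h0, -⟩
      exact absurd (Subsingleton.elim _ _) h0
    by_cases hirr : ∀ N : LieSubmodule ℂ L M, N ≠ ⊥ → N = ⊤
    · have := LieModule.IsIrreducible.mk hirr
      exact T.lieInv_irr hX
    push Not at hirr
    obtain ⟨N, hb, ht⟩ := hirr
    obtain ⟨N', hc⟩ := CR.weyl N
    have ht' : N' ≠ ⊤ := fun e => hb (by have := hc.inf_eq_bot; rwa [e, inf_top_eq] at this)
    have hlt : ∀ P : LieSubmodule ℂ L M, P ≠ ⊤ → Module.finrank ℂ P < k := fun P hP =>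
      hk ▸ Submodule.finrank_lt (s := P.toSubmodule)
        (fun e => hP ((LieSubmodule.toSubmodule_eq_top P).1 e))
    have hsup := T.iSup_wsp_of_hasChar hX
    obtain ⟨Y, hY⟩ := T.exists_hasChar (T.iSup_wsp_sub hc hsup)
    obtain ⟨Y', hY'⟩ := T.exists_hasChar (T.iSup_wsp_sub hc.symm hsup)
    obtain ⟨n, h1, h2⟩ := ih _ (hlt N ht) N rfl Y hY
    obtain ⟨n', h1', h2'⟩ := ih _ (hlt N' ht') N' rfl Y' hY'
    refine ⟨n + n', ?_, ?_⟩
    · rw [T.hasChar_unique hX (T.hasChar_compl hc hY hY'), mul_add, Nat.cast_add, ← h1, ← h1']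
      simp
    · rw [lieInv_split hc, ← h2, ← h2']
      omega

/-- invariants are detected by the coefficient of `rho` -/
theorem inv_iff [LieAlgebra.IsKilling ℂ L] [Module.Finite ℂ M] {X : GR I} (hX : T.HasChar M X) :
    ∃ n : ℕ, (R.delta * X).coeff rho = n ∧ (n ≠ 0 ↔ ∃ m : M, m ≠ 0 ∧ ∀ x : L, ⁅x, m⁆ = 0) :=
  T.lieInv_aux _ M rfl X hX

end Rlz

end Pool.Agent.Lib.MP_1e3767_al
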