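import Pool.Agent.Lib.MP_1e3767_al.LieSat
import Pool.Agent.Lib.MP_1e3767_al.Mark

set_option linter.unusedSectionVars false

namespace Pool.Agent.Lib.MP_1e3767_al

open Finset

namespace Rlz
variable {I ι W : Type*} [Fintype I] [DecidableEq I] [Fintype ι] [Group W] [Fintype W]
  [DistribMulAction W (I → ℝ)] [SMulCommClass W ℝ (I → ℝ)] [MulAction W ι] {R : RD I ι W}
  {L : Type*} [LieRing L] [LieAlgebra ℂ L] [Module.Finite ℂ L] (T : Rlz R.toRD0 L)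
  {M : Type*} [AddCommGroup M] [Module ℂ M] [LieRingModule L M] [LieModule ℂ L M]

/-- saturation by a single root coefficient, in terms of paths -/
theorem lie_mark [LieAlgebra.IsKilling ℂ L] [Nonempty I] (hconn : R.Conn) {N : ℕ} (hN : 0 < N)
    {lam μ ν : I → ℝ} (hmd : Dom μ) (hli : IntV lam) (hmi : IntV μ) (hni : IntV ν)
    (hQ : R.InQ (lam + μ + ν))
    {A : Type*} [AddCommGroup A] [Module ℂ A] [LieRingModule L A] [LieModule ℂ L A]
    [Module.Finite ℂ A] [LieModule.IsIrreducible ℂ L A]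
    {B : Type*} [AddCommGroup B] [Module ℂ B] [LieRingModule L B] [LieModule ℂ L B]
    [Module.Finite ℂ B] [LieModule.IsIrreducible ℂ L B]
    {C : Type*} [AddCommGroup C] [Module ℂ C] [LieRingModule L C] [LieModule ℂ L C]
    [Module.Finite ℂ C] [LieModule.IsIrreducible ℂ L C]
    {a : A} {b : B} {c : C} (ha : T.IsHWv ((N : ℝ) • lam) a) (hb : T.IsHWv ((N : ℝ) • μ) b)
    (hc : T.IsHWv ((N : ℝ) • ν) c)
    (hinv : ∃ m : TensorProduct ℂ (TensorProduct ℂ A B) C, m ≠ 0 ∧ ∀ x : L, ⁅x, m⁆ = 0) :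
    ∃ (θ : ι) (i : I) (d : ℕ), 0 < d ∧ R.cf θ i = d ∧ ∀ k : ℕ, d ∣ k →
      ∃ π ∈ R.BB ((k : ℝ) • μ), (∀ t ∈ Set.Icc (0:ℝ) 1, Dom ((k : ℝ) • lam + π t)) ∧
        (k : ℝ) • lam + π 1 = -(R.w0 • ((k : ℝ) • ν)) := by
  obtain ⟨π, hπ, hd, he⟩ := (T.inv_triple_iff ha hb hc).1 hinv
  rw [smul_comm R.w0 (N : ℝ) ν, ← smul_neg] at he
  have hdat := R.domDat_of_scaled hN hπ hd he
  have hQ' : R.InQ (lam + μ - -(R.w0 • ν)) := by
    have := R.inQ_sub hQ (R.inQ_sub_smul hni R.w0)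
    convert this using 1
    abel
  obtain ⟨θ, i, d, hd0, hθ, hall⟩ := R.sat_mark hconn hmd hli hmi hQ' hdat
  refine ⟨θ, i, d, hd0, hθ, fun k hk => ?_⟩
  obtain ⟨π', hπ', hd', he'⟩ := hall k hk
  refine ⟨π', hπ', hd', ?_⟩
  rw [he', smul_comm R.w0 (k : ℝ) ν, smul_neg]

end Rlz

end Pool.Agent.Lib.MP_1e3767_al
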