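import Pool.Agent.Lib.MP_1e3767_al.Brauer

set_option linter.unusedSectionVars false

namespace Pool.Agent.Lib.MP_1e3767_al

open Finset

namespace RD
variable {I ι W : Type*} [Fintype I] [DecidableEq I] [Fintype ι] [Group W] [Fintype W]
  [DistribMulAction W (I → ℝ)] [SMulCommClass W ℝ (I → ℝ)] [MulAction W ι] (R : RD I ι W)

/-- a positive time below finitely many positive times -/
theorem mult_small (b : List (ℝ × ι)) (hb : ∀ p ∈ b, 0 < p.1) :
    ∃ t0 : ℝ, 0 < t0 ∧ t0 ≤ 1 ∧ ∀ p ∈ b, t0 ≤ p.1 := by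
  induction b with
  | nil => exact ⟨1, one_pos, le_refl _, by simp⟩
  | cons q l ih =>
    obtain ⟨t0, h0, h1, h2⟩ := ih (fun p hp => hb p (List.mem_cons_of_mem _ hp))
    refine ⟨min t0 q.1, lt_min h0 (hb q List.mem_cons_self), (min_le_left _ _).trans h1, ?_⟩
    intro p hp
    rcases List.mem_cons.1 hp with rfl | hp
    · exact min_le_right _ _
    · exact (min_le_left _ _).trans (h2 p hp)

/-- a time below one above finitely many times below one -/
theorem mult_large (a : List (ℝ × ι)) (ha : ∀ p ∈ a, p.1 < 1) :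
    ∃ t0 : ℝ, 0 ≤ t0 ∧ t0 < 1 ∧ ∀ p ∈ a, p.1 ≤ t0 := by
  induction a with
  | nil => exact ⟨0, le_refl _, one_pos, by simp⟩
  | cons q l ih =>
    obtain ⟨t0, h0, h1, h2⟩ := ih (fun p hp => ha p (List.mem_cons_of_mem _ hp))
    refine ⟨max t0 q.1, h0.trans (le_max_left _ _), max_lt h1 (ha q List.mem_cons_self), ?_⟩
    intro p hp
    rcases List.mem_cons.1 hp with rfl | hp
    · exact le_max_right _ _
    · exact (h2 p hp).trans (le_max_left _ _)

/-- once the direction is dominant it does not change any more -/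
theorem mult_straight {μ : I → ℝ} (hμ : Dom μ) (l : List (ℝ × ι)) :
    ∀ (u : W) (a0 : ℝ), R.IsChain u a0 l → u • μ = μ → ∀ t : ℝ, R.path μ u l t = t • μ := by
  induction l with
  | nil =>
    intro u a0 _ hu t
    simp only [path, hu]
  | cons p l ih =>
    intro u a0 h hu t
    obtain ⟨hc, _, _, hl⟩ := h
    have h1 : R.cv p.2 (u • μ) ≤ 0 := R.cv_le_of_rho_neg hc.1.2 hμ
    have h2 : 0 ≤ R.cv p.2 (u • μ) := by rw [hu]; exact R.cv_nonneg hc.1.1 hμ
    have h0 : R.cv p.2 (u • μ) = 0 := le_antisymm h1 h2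
    have hu' : (R.s p.2 * u) • μ = μ := by
      rw [mul_smul, R.s_smul', h0, zero_smul, sub_zero, hu]
    simp only [path]
    rw [ih _ _ hl hu' t, h0, zero_mul, zero_smul, add_zero]

/-- if the height does not grow along a chain then nothing moves -/
theorem mult_icpt_zero {μ : I → ℝ} (hμ : Dom μ) (l : List (ℝ × ι)) :
    ∀ (u : W) (a0 : ℝ), R.IsChain u a0 l → R.ht (R.endp u l • μ) ≤ R.ht (u • μ) →
      R.icpt μ u l = 0 := by
  induction l with
  | nil =>
    intro u a0 _ _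
    simp only [icpt]
  | cons p l ih =>
    intro u a0 h hu
    obtain ⟨hc, _, _, hl⟩ := h
    have h1 : R.ht (u • μ) ≤ R.ht ((R.s p.2 * u) • μ) := R.ht_step_le hc.1 hμ
    have h2 : R.ht ((R.s p.2 * u) • μ) ≤ R.ht (R.endp (R.s p.2 * u) l • μ) :=
      R.ht_le_of_le (R.le_endp hl) hμ
    rw [endp_cons] at hu
    have h3 : R.ht ((R.s p.2 * u) • μ) =
        R.ht (u • μ) - R.cv p.2 (u • μ) * R.ht (R.rt p.2) := by
      rw [mul_smul, R.s_smul', map_sub, R.ht.map_smul (R.cv p.2 (u • μ)), smul_eq_mul]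
    have h4 : 0 < R.ht (R.rt p.2) := R.ht_rt_pos hc.1.1
    have h5 : R.cv p.2 (u • μ) * R.ht (R.rt p.2) = 0 := by linarith
    have h0 : R.cv p.2 (u • μ) = 0 := by
      rcases mul_eq_zero.1 h5 with h | h
      · exact h
      · exact absurd h h4.ne'
    simp only [icpt]
    rw [ih _ _ hl (by linarith), h0, zero_mul, zero_smul, add_zero]

theorem mult_reg {v : I → ℝ} (hv : Dom v) : Reg (v + rho) := by
  intro i
  have := hv i
  simp only [Pi.add_apply, rho]
  linarith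

/-- the only dominant path from the origin is the straight line -/
theorem path_eq_of_dom {μ : I → ℝ} (hμ : Dom μ) {l : List (ℝ × ι)} (hl : R.IsMax l)
    (hd : ∀ t ∈ Set.Icc (0:ℝ) 1, Dom (R.path μ R.w0 l t)) {t : ℝ} (ht : 0 ≤ t) :
    R.path μ R.w0 l t = t • μ := by
  obtain ⟨a, b, rfl, ha, hb⟩ := R.split_le hl.1 0
  have hch := (R.isChain_append _ _ _ _).1 hl.1
  have ha0 : ∀ p ∈ a, p.1 = 0 := fun p hp =>
    le_antisymm (ha p hp) (R.isChain_mem hch.1 p hp).1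
  have key : ∀ s : ℝ, 0 ≤ s →
      R.path μ R.w0 (a ++ b) s = R.path μ (R.endp R.w0 a) b s := by
    intro s hs
    rw [R.path_append, R.corr_const μ _ a ha0, min_eq_right hs, zero_smul, add_zero]
  obtain ⟨t0, h0, h1, h2⟩ := mult_small b hb
  have hdom : Dom (R.endp R.w0 a • μ) := by
    have := hd t0 ⟨h0.le, h1⟩
    rw [key t0 h0.le, R.path_of_le μ _ b h2] at this
    intro i
    have hi := this i
    simp only [Pi.smul_apply, smul_eq_mul] at hi
    exact nonneg_of_mul_nonneg_right hi h0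
  rw [key t ht]
  exact R.mult_straight hμ b _ _ hch.2.1 (R.dom_unique hμ hdom) t

theorem path_of_nonpos (μ : I → ℝ) {l : List (ℝ × ι)} (hl : R.IsMax l) {t : ℝ} (ht : t ≤ 0) :
    R.path μ R.w0 l t = t • (R.w0 • μ) :=
  R.path_of_le μ _ l (fun p hp => ht.trans (R.isChain_mem hl.1 p hp).1)

theorem mult_exists_max (c : ℝ) (h0 : 0 ≤ c) (h1 : c ≤ 1) :
    ∃ l : List (ℝ × ι), R.IsMax l ∧ ∀ p ∈ l, p.1 = c := by
  obtain ⟨bs, hc, he⟩ := R.exists_cchain (R.le_w0 1)
  refine ⟨bs.map fun β => (c, β), ⟨R.isChain_map_const hc h0 h1, ?_⟩, ?_⟩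
  · rw [R.endp_map_const, he]
  · intro p hp
    obtain ⟨β, _, rfl⟩ := List.mem_map.1 hp
    rfl

theorem exists_straight (μ : I → ℝ) : ∃ π ∈ R.BB μ, ∀ t, 0 ≤ t → π t = t • μ := by
  obtain ⟨l, hl, hc⟩ := R.mult_exists_max 0 (le_refl _) zero_le_one
  refine ⟨R.path μ R.w0 l, ⟨l, hl, R.isLS_const_zero μ _ l hc, rfl⟩, ?_⟩
  intro t ht
  rw [R.path_eq_corr, R.corr_const μ _ l hc, min_eq_right ht, zero_smul, add_zero, hl.2,
    one_smul]

theorem exists_low {μ : I → ℝ} (hi : IntV μ) :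
    ∃ π ∈ R.BB μ, ∀ t, t ≤ 1 → π t = t • (R.w0 • μ) := by
  obtain ⟨l, hl, hc⟩ := R.mult_exists_max 1 zero_le_one (le_refl _)
  refine ⟨R.path μ R.w0 l, ⟨l, hl, R.isLS_const_one hi _ l hc, rfl⟩, ?_⟩
  intro t ht
  exact R.path_of_le μ _ l (fun p hp => by rw [hc p hp]; exact ht)

/-- a dominant path ending at the origin starts at the dual weight -/
theorem eq_dual_of_dom {κ μ : I → ℝ} (hμ : Dom μ) {l : List (ℝ × ι)}
    (hd : R.DomDat κ μ 0 l) : κ = -(R.w0 • μ) := by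
  obtain ⟨hl, hdom, hend⟩ := hd
  obtain ⟨a, b, rfl, ha, hb⟩ := R.split_lt hl.1 1
  have hch := (R.isChain_append _ _ _ _).1 hl.1
  obtain ⟨t0, h0, h1, h2⟩ := mult_large a ha
  have e1 : κ + (R.icpt μ R.w0 a + (1 : ℝ) • (R.endp R.w0 a • μ)) = 0 := by
    rw [← R.path_between μ _ a b (fun p hp => (ha p hp).le) hb]
    exact hend
  have e0 : Dom (κ + (R.icpt μ R.w0 a + t0 • (R.endp R.w0 a • μ))) := by
    rw [← R.path_between μ _ a b h2 (fun p hp => h1.le.trans (hb p hp))]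
    exact hdom t0 ⟨h0, h1.le⟩
  have hanti : Dom (-(R.endp R.w0 a • μ)) := by
    intro i
    have x1 := congrFun e1 i
    have x0 := e0 i
    simp only [Pi.add_apply, Pi.smul_apply, smul_eq_mul, Pi.zero_apply, one_mul] at x1 x0
    have x2 : 0 ≤ (1 - t0) * (-((R.endp R.w0 a • μ) i)) := by nlinarith
    have x3 : 0 < 1 - t0 := by linarith
    simp only [Pi.neg_apply]
    exact nonneg_of_mul_nonneg_right x2 x3
  have hrel : (R.endp R.w0 a * R.w0⁻¹) • (-(R.w0 • μ)) = -(R.endp R.w0 a • μ) := by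
    rw [smul_neg, ← mul_smul, inv_mul_cancel_right]
  have hu : R.endp R.w0 a • μ = R.w0 • μ := by
    have := R.dom_unique (w := R.endp R.w0 a * R.w0⁻¹) (R.w0_anti hμ) (by rw [hrel]; exact hanti)
    rw [hrel] at this
    exact neg_injective this
  have hz : R.icpt μ R.w0 a = 0 := R.mult_icpt_zero hμ a _ _ hch.1 (by rw [hu])
  rw [hz, hu, zero_add, one_smul] at e1
  exact eq_neg_of_add_eq_zero_left e1

/-- Littelmann's character formula -/
theorem AA_rho_mul_chB {μ : I → ℝ} (hμ : Dom μ) (hi : IntV μ) :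
    R.AA rho * R.chB μ = R.AA (μ + rho) := by
  classical
  have hd0 : Dom (0 : I → ℝ) := fun i => le_refl _
  have hi0 : IntV (0 : I → ℝ) := fun i => ⟨0, by simp⟩
  have hb := R.brauer hd0 hi0 hμ hi
  simp only [zero_add] at hb
  rw [hb]
  obtain ⟨π0, hπ0, hs⟩ := R.exists_straight μ
  have hform : ∀ π ∈ R.BB μ, (∀ t ∈ Set.Icc (0:ℝ) 1, Dom (π t)) →
      ∀ t, π t = if 0 ≤ t then t • μ else t • (R.w0 • μ) := by
    rintro π ⟨l, hl, _, rfl⟩ hd t
    split_ifs with ht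
    · exact R.path_eq_of_dom hμ hl hd ht
    · exact R.path_of_nonpos μ hl (not_le.1 ht).le
  have hd : ∀ t ∈ Set.Icc (0:ℝ) 1, Dom (π0 t) := by
    intro t ht i
    rw [hs t ht.1]
    exact mul_nonneg ht.1 (hμ i)
  rw [Finset.sum_eq_single π0]
  · rw [hs 1 zero_le_one, one_smul, add_comm]
  · intro π hπ hne
    exfalso
    apply hne
    rw [Finset.mem_filter, Set.Finite.mem_toFinset] at hπ
    funext t
    rw [hform π hπ.1 hπ.2 t, hform π0 hπ0 hd t]
  · intro h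
    exfalso
    apply h
    rw [Finset.mem_filter, Set.Finite.mem_toFinset]
    exact ⟨hπ0, hd⟩

theorem coeff_AA_chB {κ ν : I → ℝ} (hκ : Dom κ) (hκi : IntV κ) (hν : Dom ν) (hνi : IntV ν) :
    ∃ n : ℕ, (R.AA (κ + rho) * R.chB ν).coeff rho = n ∧ (n ≠ 0 ↔ κ = -(R.w0 • ν)) := by
  classical
  have hrho : Dom (rho : I → ℝ) := fun i => zero_le_one
  refine ⟨(((R.finite_BB ν).toFinset.filter
      (fun π => ∀ t ∈ Set.Icc (0:ℝ) 1, Dom (κ + π t))).filter (fun π => κ + π 1 = 0)).card,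
      ?_, ?_⟩
  · rw [R.brauer hκ hκi hν hνi, AddMonoidAlgebra.coeff_sum, Finsupp.finsetSum_apply,
      Finset.card_filter, Nat.cast_sum]
    apply Finset.sum_congr rfl
    intro π hπ
    have h1 : Dom (κ + π 1) := (Finset.mem_filter.1 hπ).2 1 ⟨zero_le_one, le_refl _⟩
    have h2 : κ + rho + π 1 = (κ + π 1) + rho := by abel
    rw [h2, R.coeff_AA_dom (mult_reg h1) hrho]
    by_cases h : κ + π 1 = 0
    · rw [if_pos h, if_pos (by rw [h, zero_add]), Nat.cast_one]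
    · rw [if_neg h, if_neg (fun e => h (by simpa using e)), Nat.cast_zero]
  · rw [Finset.card_ne_zero]
    constructor
    · rintro ⟨π, hπ⟩
      rw [Finset.mem_filter, Finset.mem_filter, Set.Finite.mem_toFinset] at hπ
      obtain ⟨⟨⟨l, hl, _, rfl⟩, hd⟩, he⟩ := hπ
      exact R.eq_dual_of_dom hν ⟨hl, hd, he⟩
    · intro h
      obtain ⟨π, hπ, hs⟩ := R.exists_low hνi
      refine ⟨π, ?_⟩
      rw [Finset.mem_filter, Finset.mem_filter, Set.Finite.mem_toFinset]
      refine ⟨⟨hπ, ?_⟩, ?_⟩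
      · intro t ht i
        have h1 := hκ i
        have h2 : (R.w0 • ν) i = -κ i := by rw [h]; simp
        rw [hs t ht.2]
        simp only [Pi.add_apply, Pi.smul_apply, smul_eq_mul, h2]
        nlinarith [ht.2]
      · rw [hs 1 (le_refl _), one_smul, h, neg_add_cancel]

theorem coeff_triple_ne_zero_iff {lam μ ν : I → ℝ} (hl : Dom lam) (hli : IntV lam) (hμ : Dom μ)
    (hμi : IntV μ) (hν : Dom ν) (hνi : IntV ν) :
    (R.AA (lam + rho) * R.chB μ * R.chB ν).coeff rho ≠ 0 ↔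
      ∃ π ∈ R.BB μ, (∀ t ∈ Set.Icc (0:ℝ) 1, Dom (lam + π t)) ∧ lam + π 1 = -(R.w0 • ν) := by
  classical
  have key : ∀ π : ℝ → I → ℝ, ∃ n : ℕ, π ∈ (R.finite_BB μ).toFinset.filter
      (fun π => ∀ t ∈ Set.Icc (0:ℝ) 1, Dom (lam + π t)) →
      ((R.AA (lam + rho + π 1) * R.chB ν).coeff rho = n ∧
        (n ≠ 0 ↔ lam + π 1 = -(R.w0 • ν))) := by
    intro π
    by_cases hπ : π ∈ (R.finite_BB μ).toFinset.filter
      (fun π => ∀ t ∈ Set.Icc (0:ℝ) 1, Dom (lam + π t))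
    · have hπ' := hπ
      rw [Finset.mem_filter, Set.Finite.mem_toFinset] at hπ'
      have h1 : Dom (lam + π 1) := hπ'.2 1 ⟨zero_le_one, le_refl _⟩
      have h3 : IntV (lam + π 1) := by
        intro i
        obtain ⟨z1, e1⟩ := hli i
        obtain ⟨z2, e2⟩ := R.intV_end hμi hπ'.1 i
        exact ⟨z1 + z2, by rw [Pi.add_apply, e1, e2]; push_cast; rfl⟩
      have h2 : lam + rho + π 1 = (lam + π 1) + rho := by abel
      obtain ⟨n, hn⟩ := R.coeff_AA_chB h1 h3 hν hνi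
      exact ⟨n, fun _ => by rw [h2]; exact hn⟩
    · exact ⟨0, fun h => absurd h hπ⟩
  choose n hn using key
  rw [R.brauer hl hli hμ hμi, Finset.sum_mul, AddMonoidAlgebra.coeff_sum,
    Finsupp.finsetSum_apply, Finset.sum_congr rfl (fun π hπ => (hn π hπ).1), ← Nat.cast_sum,
    Nat.cast_ne_zero]
  constructor
  · intro h
    obtain ⟨π, hπ, hne⟩ := Finset.exists_ne_zero_of_sum_ne_zero h
    have h1 := (hn π hπ).2.1 hne
    rw [Finset.mem_filter, Set.Finite.mem_toFinset] at hπ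
    exact ⟨π, hπ.1, hπ.2, h1⟩
  · rintro ⟨π, hπ, hd, he⟩ h0
    have hm : π ∈ (R.finite_BB μ).toFinset.filter
        (fun π => ∀ t ∈ Set.Icc (0:ℝ) 1, Dom (lam + π t)) := by
      rw [Finset.mem_filter, Set.Finite.mem_toFinset]
      exact ⟨hπ, hd⟩
    exact (hn π hm).2.2 he ((Finset.sum_eq_zero_iff.1 h0) π hm)

end RD

end Pool.Agent.Lib.MP_1e3767_al
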