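import Pool.Agent.Lib.MP_1e3767_al.LieInv
import Pool.Agent.Lib.MP_1e3767_al.Mult
import Pool.Agent.Lib.MP_1e3767_al.Sat

set_option linter.unusedSectionVars false

namespace Pool.Agent.Lib.MP_1e3767_al

open Finset

namespace Rlz
variable {I ι W : Type*} [Fintype I] [DecidableEq I] [Fintype ι] [Group W] [Fintype W]
  [DistribMulAction W (I → ℝ)] [SMulCommClass W ℝ (I → ℝ)] [MulAction W ι] {R : RD I ι W}
  {L : Type*} [LieRing L] [LieAlgebra ℂ L] [Module.Finite ℂ L] (T : Rlz R.toRD0 L)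
  {M : Type*} [AddCommGroup M] [Module ℂ M] [LieRingModule L M] [LieModule ℂ L M]

/-- the character of an irreducible module is the character of its LS paths -/
theorem char_eq_chB [Module.Finite ℂ M] [LieModule.IsIrreducible ℂ L M] {lam : I → ℝ} {m : M}
    (h : T.IsHWv lam m) : T.HasChar M (R.chB lam) := by
  obtain ⟨X, hX⟩ := T.exists_hasChar (T.iSup_wsp_of_hw h)
  obtain ⟨hd, hi⟩ := T.dom_of_isHWv h
  have h1 := T.weyl_char h hX
  rw [← R.AA_rho_mul_chB hd hi, R.delta_eq] at h1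
  have h2 : R.AA (rho : I → ℝ) ≠ 0 := R.AA_ne_zero (fun _ => zero_lt_one)
  rw [← mul_left_cancel₀ h2 h1]
  exact hX

/-- invariants in a triple tensor product are detected by LS paths -/
theorem inv_triple_iff [LieAlgebra.IsKilling ℂ L]
    {A : Type*} [AddCommGroup A] [Module ℂ A] [LieRingModule L A] [LieModule ℂ L A]
    [Module.Finite ℂ A] [LieModule.IsIrreducible ℂ L A]
    {B : Type*} [AddCommGroup B] [Module ℂ B] [LieRingModule L B] [LieModule ℂ L B]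
    [Module.Finite ℂ B] [LieModule.IsIrreducible ℂ L B]
    {C : Type*} [AddCommGroup C] [Module ℂ C] [LieRingModule L C] [LieModule ℂ L C]
    [Module.Finite ℂ C] [LieModule.IsIrreducible ℂ L C]
    {lam μ ν : I → ℝ} {a : A} {b : B} {c : C} (ha : T.IsHWv lam a) (hb : T.IsHWv μ b)
    (hc : T.IsHWv ν c) :
    (∃ m : TensorProduct ℂ (TensorProduct ℂ A B) C, m ≠ 0 ∧ ∀ x : L, ⁅x, m⁆ = 0) ↔
      ∃ π ∈ R.BB μ, (∀ t ∈ Set.Icc (0:ℝ) 1, Dom (lam + π t)) ∧ lam + π 1 = -(R.w0 • ν) := by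
  obtain ⟨hld, hli⟩ := T.dom_of_isHWv ha
  obtain ⟨hmd, hmi⟩ := T.dom_of_isHWv hb
  obtain ⟨hnd, hni⟩ := T.dom_of_isHWv hc
  have hX := T.hasChar_tensor (T.hasChar_tensor (T.char_eq_chB ha) (T.char_eq_chB hb))
    (T.char_eq_chB hc)
  obtain ⟨n, h1, h2⟩ := T.inv_iff hX
  rw [← h2, ← R.coeff_triple_ne_zero_iff hld hli hmd hmi hnd hni, ← R.AA_rho_mul_chB hld hli,
    ← R.delta_eq]
  rw [← mul_assoc, ← mul_assoc] at h1
  rw [h1, Nat.cast_ne_zero]

/-- saturation with factor `k` for a realised root datum -/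
theorem lie_sat [LieAlgebra.IsKilling ℂ L] {k : ℕ} (hk : R.KDiv k) {N : ℕ} (hN : 0 < N)
    {lam μ ν : I → ℝ} (hmd : Dom μ) (hli : IntV lam) (hmi : IntV μ) (hni : IntV ν)
    (hQ : R.InQ (lam + μ + ν))
    {A : Type*} [AddCommGroup A] [Module ℂ A] [LieRingModule L A] [LieModule ℂ L A]
    [Module.Finite ℂ A] [LieModule.IsIrreducible ℂ L A]
    {B : Type*} [AddCommGroup B] [Module ℂ B] [LieRingModule L B] [LieModule ℂ L B]
    [Module.Finite ℂ B] [LieModule.IsIrreducible ℂ L B]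
    {C : Type*} [AddCommGroup C] [Module ℂ C] [LieRingModule L C] [LieModule ℂ L C]
    [Module.Finite ℂ C] [LieModule.IsIrreducible ℂ L C]
    {a : A} {b : B} {c : C} (ha : T.IsHWv ((N : ℝ) • lam) a) (hb : T.IsHWv ((N : ℝ) • μ) b)
    (hc : T.IsHWv ((N : ℝ) • ν) c)
    (hinv : ∃ m : TensorProduct ℂ (TensorProduct ℂ A B) C, m ≠ 0 ∧ ∀ x : L, ⁅x, m⁆ = 0)
    {A' : Type*} [AddCommGroup A'] [Module ℂ A'] [LieRingModule L A'] [LieModule ℂ L A']
    [Module.Finite ℂ A'] [LieModule.IsIrreducible ℂ L A']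
    {B' : Type*} [AddCommGroup B'] [Module ℂ B'] [LieRingModule L B'] [LieModule ℂ L B']
    [Module.Finite ℂ B'] [LieModule.IsIrreducible ℂ L B']
    {C' : Type*} [AddCommGroup C'] [Module ℂ C'] [LieRingModule L C'] [LieModule ℂ L C']
    [Module.Finite ℂ C'] [LieModule.IsIrreducible ℂ L C']
    {a' : A'} {b' : B'} {c' : C'} (ha' : T.IsHWv ((k : ℝ) • lam) a')
    (hb' : T.IsHWv ((k : ℝ) • μ) b') (hc' : T.IsHWv ((k : ℝ) • ν) c') :
    ∃ m : TensorProduct ℂ (TensorProduct ℂ A' B') C', m ≠ 0 ∧ ∀ x : L, ⁅x, m⁆ = 0 := by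
  obtain ⟨π, hπ, hd, he⟩ := (T.inv_triple_iff ha hb hc).1 hinv
  rw [smul_comm R.w0 (N : ℝ) ν, ← smul_neg] at he
  have hdat := R.domDat_of_scaled hN hπ hd he
  have hQ' : R.InQ (lam + μ - -(R.w0 • ν)) := by
    have := R.inQ_sub hQ (R.inQ_sub_smul hni R.w0)
    convert this using 1
    abel
  obtain ⟨π', hπ', hd', he'⟩ := R.sat hk hmd hli hmi hQ' hdat
  refine (T.inv_triple_iff ha' hb' hc').2 ⟨π', hπ', hd', ?_⟩
  rw [he', smul_comm R.w0 (k : ℝ) ν, smul_neg]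

end Rlz

end Pool.Agent.Lib.MP_1e3767_al
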