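import Pool.Agent.Lib.MP_1e3767_al.Defs

/-! The equation lemmas of the two recursive definitions are realised here once, so that the
modules that unfold them share one copy. -/

namespace Pool.Agent.Lib.MP_1e3767_al

theorem rd_eqns_realised : True := by
  have _h1 := @RD.Tagged.eq_def.{0, 0, 0}
  have _h2 := @RD.Tagged.eq_1.{0, 0, 0}
  have _h3 := @RD.Tagged.eq_2.{0, 0, 0}
  have _h4 := @RD.labels.eq_def.{0, 0, 0}
  have _h5 := @RD.labels.eq_1.{0, 0, 0}
  have _h6 := @RD.labels.eq_2.{0, 0, 0}
  trivial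

end Pool.Agent.Lib.MP_1e3767_al
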