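import Mathlib

/-!
Definitions used in the statements of the saturation theorems. They are written for a root
pairing `P` with weight space `M` and coweight space `N` and a map `j : N → L`; the theorems use
them for the root system of a Cartan subalgebra `H` of `L` (so `M` is the dual of `H`, `N = H`,
the pairing is evaluation) and the inclusion of `H` in `L`.
-/

namespace Pool.Agent.Lib.MP_1e3767_al

universe u v

/-- `V` contains a nonzero invariant vector. -/
def HasInvariant (L : Type u) (V : Type v) [LieRing L] [AddCommGroup V] [LieRingModule L V] :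
    Prop :=
  ∃ m : V, m ≠ 0 ∧ ∀ x : L, ⁅x, m⁆ = 0

/-- The tensor product of `A`, `B`, `C` contains a nonzero invariant vector. -/
def TripleInv (L : Type u) [LieRing L] [LieAlgebra ℂ L]
    (A : Type v) [AddCommGroup A] [Module ℂ A] [LieRingModule L A] [LieModule ℂ L A]
    (B : Type v) [AddCommGroup B] [Module ℂ B] [LieRingModule L B] [LieModule ℂ L B]
    (C : Type v) [AddCommGroup C] [Module ℂ C] [LieRingModule L C] [LieModule ℂ L C] : Prop :=
  HasInvariant L (TensorProduct ℂ (TensorProduct ℂ A B) C)

variable {ι M N : Type u} [AddCommGroup M] [Module ℂ M] [AddCommGroup N] [Module ℂ N]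
  {P : RootPairing ι ℂ M N}

/-- `lam` is dominant integral: it takes natural number values on the simple coroots. -/
def IsDomInt (b : P.Base) (lam : M) : Prop :=
  ∀ i ∈ b.support, ∃ n : ℕ, P.toLinearMap lam (P.coroot i) = n

/-- `lam` lies in the root lattice. -/
def InRootLattice (P : RootPairing ι ℂ M N) (lam : M) : Prop :=
  lam ∈ Submodule.span ℤ (Set.range P.root)

/-- `c` is the vector of coefficients of the root `α` in the simple roots. -/
def IsCoeffVec (b : P.Base) (α : ι) (c : b.support → ℤ) : Prop :=
  P.root α = ∑ i : b.support, c i • P.root i.1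

/-- `k` is divisible by every nonzero coefficient of every root in the simple roots. -/
def CoeffDvd (b : P.Base) (k : ℕ) : Prop :=
  ∀ (α : ι) (c : b.support → ℤ), IsCoeffVec b α c → ∀ i, c i ≠ 0 → c i ∣ (k : ℤ)

/-- `d` is a coefficient of some root written in the simple roots. -/
def IsRootCoeff (b : P.Base) (d : ℕ) : Prop :=
  ∃ (α : ι) (c : b.support → ℤ) (i : b.support), IsCoeffVec b α c ∧ c i = d

variable {L : Type u} [LieRing L] [LieAlgebra ℂ L]

/-- `V` is a finite-dimensional irreducible module of highest weight `lam`: it has a nonzero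
vector of weight `lam` killed by the root spaces of all positive roots. -/
def IsHighest (b : P.Base) (j : N → L) (lam : M) (V : Type v) [AddCommGroup V]
    [Module ℂ V] [LieRingModule L V] : Prop :=
  Module.Finite ℂ V ∧ LieModule.IsIrreducible ℂ L V ∧
    ∃ m : V, m ≠ 0 ∧ (∀ h : N, ⁅j h, m⁆ = P.toLinearMap lam h • m) ∧
      ∀ α : ι, b.IsPos α → ∀ x : L,
        (∀ h : N, ⁅j h, x⁆ = P.toLinearMap (P.root α) h • x) → ⁅x, m⁆ = 0

/-- There are irreducible modules of highest weights `lam`, `mu`, `nu` whose tensor product has a
nonzero invariant vector. -/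
def SomeInv (b : P.Base) (j : N → L) (lam mu nu : M) : Prop :=
  ∃ (A : Type v) (_ : AddCommGroup A) (_ : Module ℂ A) (_ : LieRingModule L A)
    (_ : LieModule ℂ L A)
    (B : Type v) (_ : AddCommGroup B) (_ : Module ℂ B) (_ : LieRingModule L B)
    (_ : LieModule ℂ L B)
    (C : Type v) (_ : AddCommGroup C) (_ : Module ℂ C) (_ : LieRingModule L C)
    (_ : LieModule ℂ L C),
    IsHighest b j lam A ∧ IsHighest b j mu B ∧ IsHighest b j nu C ∧ TripleInv L A B C

/-- For all irreducible modules of highest weights `lam`, `mu`, `nu` the tensor product has a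
nonzero invariant vector. -/
def AllInv (b : P.Base) (j : N → L) (lam mu nu : M) : Prop :=
  ∀ (A : Type v) [AddCommGroup A] [Module ℂ A] [LieRingModule L A] [LieModule ℂ L A]
    (B : Type v) [AddCommGroup B] [Module ℂ B] [LieRingModule L B] [LieModule ℂ L B]
    (C : Type v) [AddCommGroup C] [Module ℂ C] [LieRingModule L C] [LieModule ℂ L C],
    IsHighest b j lam A → IsHighest b j mu B → IsHighest b j nu C → TripleInv L A B C

end Pool.Agent.Lib.MP_1e3767_al
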