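import Pool.Agent.Lib.MP_1e3767_al.Path

set_option linter.unusedSectionVars false

namespace Pool.Agent.Lib.MP_1e3767_al

open Finset

namespace RD
variable {I ι W : Type*} [Fintype I] [DecidableEq I] [Fintype ι] [Group W] [Fintype W]
  [DistribMulAction W (I → ℝ)] [SMulCommClass W ℝ (I → ℝ)] [MulAction W ι] (R : RD I ι W)

/-- the doubled datum: turn `j` is replaced by two turns through `ζ j` -/
def dblW (η ζ : ℕ → W) (k : ℕ) : W := if k % 2 = 0 then η (k / 2) else ζ (k / 2)

/-- times of the doubled datum -/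
def dblT (t x y : ℕ → ℝ) (ε : ℝ) (k : ℕ) : ℝ :=
  if k % 2 = 0 then t (k / 2) + ε * x (k / 2) else t (k / 2) + ε * y (k / 2)

theorem varA_W0 (η ζ : ℕ → W) (j : ℕ) : dblW η ζ (2 * j) = η j := by
  have h1 : 2 * j % 2 = 0 := by omega
  have h2 : 2 * j / 2 = j := by omega
  simp only [dblW, h1, h2, if_true]

theorem varA_W1 (η ζ : ℕ → W) (j : ℕ) : dblW η ζ (2 * j + 1) = ζ j := by
  have h1 : ¬ (2 * j + 1) % 2 = 0 := by omega
  have h2 : (2 * j + 1) / 2 = j := by omega
  simp only [dblW, h1, h2, if_false]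

theorem varA_W2 (η ζ : ℕ → W) (j : ℕ) : dblW η ζ (2 * j + 1 + 1) = η (j + 1) := by
  have h : 2 * j + 1 + 1 = 2 * (j + 1) := by ring
  rw [h, varA_W0]

theorem varA_T0 (t x y : ℕ → ℝ) (ε : ℝ) (j : ℕ) : dblT t x y ε (2 * j) = t j + ε * x j := by
  have h1 : 2 * j % 2 = 0 := by omega
  have h2 : 2 * j / 2 = j := by omega
  simp only [dblT, h1, h2, if_true]

theorem varA_T1 (t x y : ℕ → ℝ) (ε : ℝ) (j : ℕ) : dblT t x y ε (2 * j + 1) = t j + ε * y j := by
  have h1 : ¬ (2 * j + 1) % 2 = 0 := by omega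
  have h2 : (2 * j + 1) / 2 = j := by omega
  simp only [dblT, h1, h2, if_false]

theorem varA_sum {M : Type*} [AddCommMonoid M] (f : ℕ → M) (n : ℕ) :
    ∑ k ∈ range (2 * n), f k = ∑ j ∈ range n, (f (2 * j) + f (2 * j + 1)) := by
  induction n with
  | zero => simp
  | succ n ih =>
    have h : 2 * (n + 1) = 2 * n + 1 + 1 := by ring
    rw [h, sum_range_succ, sum_range_succ, ih, sum_range_succ, add_assoc]

/-- slope of the doubled times -/
def varA_sl (x y : ℕ → ℝ) (k : ℕ) : ℝ := if k % 2 = 0 then x (k / 2) else y (k / 2)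

theorem varA_T (t x y : ℕ → ℝ) (ε : ℝ) (k : ℕ) :
    dblT t x y ε k = t (k / 2) + ε * varA_sl x y k := by
  unfold dblT varA_sl
  split_ifs <;> rfl

theorem varA_cont (t x y : ℕ → ℝ) (k : ℕ) : Continuous (fun ε : ℝ => dblT t x y ε k) := by
  simp only [varA_T]
  fun_prop

theorem varA_zero (t x y : ℕ → ℝ) (k : ℕ) : dblT t x y 0 k = t (k / 2) := by
  rw [varA_T]; ring

theorem upath_dbl (μ P : I → ℝ) (n : ℕ) (η ζ : ℕ → W) (t x y : ℕ → ℝ) (ε τ : ℝ) :
    upath μ P (2 * n) (dblW η ζ) (dblT t x y ε) τ = upath μ P n η t τ +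
      ∑ j ∈ range n, ((min τ (t j + ε * x j) - min τ (t j)) • (η j • μ - ζ j • μ) +
        (min τ (t j + ε * y j) - min τ (t j)) • (ζ j • μ - η (j + 1) • μ)) := by
  unfold upath
  rw [varA_sum, varA_W0, add_assoc (P + τ • (η n • μ)), ← sum_add_distrib]
  congr 1
  refine sum_congr rfl (fun j _ => ?_)
  rw [varA_W0, varA_W1, varA_W2, varA_T0, varA_T1]
  generalize η j • μ = a
  generalize ζ j • μ = b
  generalize η (j + 1) • μ = c
  module

theorem varA_tend (μ P : I → ℝ) (n : ℕ) (η ζ : ℕ → W) (t x y : ℕ → ℝ) (k : ℕ) :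
    Filter.Tendsto (fun ε : ℝ => upath μ P (2 * n) (dblW η ζ) (dblT t x y ε) (dblT t x y ε k))
      (nhds 0) (nhds (upath μ P n η t (t (k / 2)))) := by
  have hc : Continuous
      (fun ε : ℝ => upath μ P (2 * n) (dblW η ζ) (dblT t x y ε) (dblT t x y ε k)) := by
    unfold upath
    refine (continuous_const.add ((varA_cont t x y k).smul continuous_const)).add ?_
    refine continuous_finsetSum _ (fun j _ => ?_)
    exact ((varA_cont t x y k).min (varA_cont t x y j)).smul continuous_const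
  have h := hc.tendsto 0
  have h0 : upath μ P (2 * n) (dblW η ζ) (dblT t x y 0) (dblT t x y 0 k) =
      upath μ P n η t (t (k / 2)) := by
    rw [upath_dbl, varA_zero]
    simp
  rw [h0] at h
  exact h

/-- small variations are valid -/
theorem dbl_valid {μ P : I → ℝ} {n : ℕ} {η : ℕ → W} {t : ℕ → ℝ} (hG : R.UGood μ P n η t)
    (ζ : ℕ → W) (x y : ℕ → ℝ) (hxy : ∀ j < n, x j ≤ y j)
    (hval : ∀ j < n, ∀ z : W, Dom (z • upath μ P n η t (t j)) →
      R.Le (z * ζ j) (z * η j) ∧ R.Le (z * η (j + 1)) (z * ζ j)) :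
    ∃ ε0 > 0, ∀ ε, 0 < ε → ε < ε0 → R.UValid μ P (2 * n) (dblW η ζ) (dblT t x y ε) := by
  obtain ⟨hlt, h01, -, -⟩ := hG
  have htd : ∀ k, Filter.Tendsto (fun ε : ℝ => dblT t x y ε k) (nhds 0) (nhds (t (k / 2))) := by
    intro k
    have h := (varA_cont t x y k).tendsto 0
    rwa [varA_zero] at h
  have e1 : ∀ᶠ ε in nhds (0:ℝ), ∀ k ∈ range (2 * n), ∀ j ∈ range (2 * n),
      j / 2 < k / 2 → dblT t x y ε j < dblT t x y ε k := by
    rw [Filter.eventually_all_finset]
    intro k hk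
    rw [Filter.eventually_all_finset]
    intro j _
    by_cases hjk : j / 2 < k / 2
    · have hk' : k / 2 < n := by have := mem_range.1 hk; omega
      exact ((htd j).eventually_lt (htd k) (hlt _ _ hjk hk')).mono (fun ε h _ => h)
    · exact Filter.Eventually.of_forall (fun ε h => absurd h hjk)
  have e2 : ∀ᶠ ε in nhds (0:ℝ), ∀ k ∈ range (2 * n),
      0 < dblT t x y ε k ∧ dblT t x y ε k < 1 := by
    rw [Filter.eventually_all_finset]
    intro k hk
    have hk' : k / 2 < n := by have := mem_range.1 hk; omega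
    exact ((htd k).eventually_const_lt (h01 _ hk').1).and
      ((htd k).eventually_lt_const (h01 _ hk').2)
  have e3 : ∀ᶠ ε in nhds (0:ℝ), ∀ k ∈ range (2 * n), ∀ z : W,
      Dom (z • upath μ P (2 * n) (dblW η ζ) (dblT t x y ε) (dblT t x y ε k)) →
        Dom (z • upath μ P n η t (t (k / 2))) := by
    rw [Filter.eventually_all_finset]
    intro k _
    obtain ⟨δ, hδ, hn⟩ := near_dom (W := W) (upath μ P n η t (t (k / 2)))
    exact ((Metric.tendsto_nhds.1 (varA_tend μ P n η ζ t x y k)) δ hδ).mono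
      (fun ε h z hz => hn _ h z hz)
  obtain ⟨ε0, hε0, hall⟩ := Metric.eventually_nhds_iff.1 (e1.and (e2.and e3))
  refine ⟨ε0, hε0, fun ε hε hεlt => ?_⟩
  have hd : dist ε 0 < ε0 := by rw [Real.dist_eq, sub_zero, abs_of_pos hε]; exact hεlt
  obtain ⟨f1, f2, f3⟩ := hall hd
  refine ⟨fun j k hjk hk => ?_, fun j hj => ?_, fun k hk z hz => ?_⟩
  · rcases Nat.lt_or_ge (j / 2) (k / 2) with h | h
    · exact (f1 k (mem_range.2 hk) j (mem_range.2 (by omega)) h).le
    · rcases eq_or_lt_of_le hjk with rfl | hlt'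
      · exact le_rfl
      · obtain ⟨m, rfl, rfl⟩ : ∃ m, j = 2 * m ∧ k = 2 * m + 1 := ⟨j / 2, by omega, by omega⟩
        rw [varA_T0, varA_T1]
        have := mul_le_mul_of_nonneg_left (hxy m (by omega)) hε.le
        linarith
  · exact ⟨(f2 j (mem_range.2 hj)).1.le, (f2 j (mem_range.2 hj)).2.le⟩
  · have hz' := hval (k / 2) (by omega) z (f3 k (mem_range.2 hk) z hz)
    rcases Nat.even_or_odd' k with ⟨m, rfl | rfl⟩
    · have h2 : 2 * m / 2 = m := by omega
      rw [h2] at hz'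
      rw [varA_W0, varA_W1]
      exact hz'.1
    · have h2 : (2 * m + 1) / 2 = m := by omega
      rw [h2] at hz'
      rw [varA_W1, varA_W2]
      exact hz'.2

/-- defect of the first order expansion of `min` -/
private noncomputable def varD (τ t e : ℝ) : ℝ :=
  (if t < τ then e else 0) - (min τ (t + e) - min τ t)

private theorem varD_nonneg (τ t e : ℝ) : 0 ≤ varD τ t e := by
  unfold varD
  split_ifs with h
  · rw [min_eq_right h.le]
    have := min_le_right τ (t + e)
    linarith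
  · rw [min_eq_left (not_lt.mp h)]
    have := min_le_left τ (t + e)
    linarith

private theorem varD_ne {τ t e : ℝ} (h : varD τ t e ≠ 0) : |τ - t| ≤ |e| := by
  unfold varD at h
  split_ifs at h with h1
  · rw [min_eq_right h1.le] at h
    have h2 : τ < t + e := by
      by_contra h3
      rw [min_eq_right (not_lt.mp h3)] at h
      exact h (by ring)
    rw [abs_of_pos (by linarith), abs_of_pos (by linarith)]
    linarith
  · have h1' : τ ≤ t := not_lt.mp h1
    rw [min_eq_left h1'] at h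
    have h2 : t + e < τ := by
      by_contra h3
      rw [min_eq_left (not_lt.mp h3)] at h
      exact h (by ring)
    rw [abs_of_nonpos (by linarith), abs_of_neg (by linarith)]
    linarith

private theorem varD_pos (t : ℝ) {e : ℝ} (he : e ≠ 0) : 0 < varD (t + e / 2) t e := by
  unfold varD
  rcases lt_or_gt_of_ne he with h | h
  · rw [if_neg (by linarith), min_eq_right (by linarith), min_eq_left (by linarith)]
    linarith
  · rw [if_pos (by linarith), min_eq_left (by linarith), min_eq_right (by linarith)]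
    linarith

/-- the averaged value of a linear functional along the varied paths -/
private theorem var_avg {μ P : I → ℝ} {n : ℕ} {η : ℕ → W} {t : ℕ → ℝ}
    {A : Type*} [Fintype A] (p : A → ℝ) (hp1 : ∑ i, p i = 1)
    (ζ : A → ℕ → W) (x y : A → ℕ → ℝ)
    (hbal : ∀ j < n, ∑ i,
      p i • (x i j • (η j • μ - ζ i j • μ) + y i j • (ζ i j • μ - η (j + 1) • μ)) = 0)
    (g : (I → ℝ) →ₗ[ℝ] ℝ) (ε τ : ℝ) :
    ∑ i, p i * g (upath μ P (2 * n) (dblW η (ζ i)) (dblT t (x i) (y i) ε) τ) =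
      g (upath μ P n η t τ) + ∑ i, ∑ j ∈ range n,
        p i * (varD τ (t j) (ε * x i j) * (-g (η j • μ - ζ i j • μ)) +
          varD τ (t j) (ε * y i j) * (-g (ζ i j • μ - η (j + 1) • μ))) := by
  have hb : ∀ j ∈ range n, ∑ i,
      p i * (x i j * g (η j • μ - ζ i j • μ) + y i j * g (ζ i j • μ - η (j + 1) • μ)) = 0 := by
    intro j hj
    have h := congrArg g (hbal j (mem_range.mp hj))
    rw [map_sum, map_zero] at h
    rw [← h]
    refine sum_congr rfl fun i _ => ?_
    rw [map_smul, map_add, map_smul, map_smul]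
    simp only [smul_eq_mul]
  have h1 : ∀ i, p i * g (upath μ P (2 * n) (dblW η (ζ i)) (dblT t (x i) (y i) ε) τ) =
      p i * g (upath μ P n η t τ) + ∑ j ∈ range n,
        (p i * (varD τ (t j) (ε * x i j) * (-g (η j • μ - ζ i j • μ)) +
          varD τ (t j) (ε * y i j) * (-g (ζ i j • μ - η (j + 1) • μ))) +
        (if t j < τ then ε else 0) * (p i * (x i j * g (η j • μ - ζ i j • μ) +
          y i j * g (ζ i j • μ - η (j + 1) • μ)))) := by
    intro i
    rw [upath_dbl, map_add, map_sum, mul_add, mul_sum]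
    congr 1
    refine sum_congr rfl fun j _ => ?_
    rw [map_add, map_smul, map_smul]
    simp only [smul_eq_mul, varD]
    split_ifs <;> ring
  rw [sum_congr rfl fun i _ => h1 i, sum_add_distrib, ← sum_mul, hp1, one_mul]
  congr 1
  simp only [sum_add_distrib]
  have h0 : ∑ i, ∑ j ∈ range n, (if t j < τ then ε else 0) *
      (p i * (x i j * g (η j • μ - ζ i j • μ) + y i j * g (ζ i j • μ - η (j + 1) • μ))) = 0 := by
    rw [sum_comm]
    refine sum_eq_zero fun j hj => ?_
    rw [← mul_sum, hb j hj, mul_zero]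
  rw [h0, add_zero]

/-- first order rigidity of a maximiser (Jensen) -/
theorem var {μ P κ : I → ℝ} (hμ : Reg μ) {n : ℕ} {η : ℕ → W} {t : ℕ → ℝ}
    (hG : R.UGood μ P n η t) (hmax : R.UMax μ P κ n η t)
    {A : Type*} [Fintype A] (p : A → ℝ) (hp : ∀ i, 0 < p i) (hp1 : ∑ i, p i = 1)
    (ζ : A → ℕ → W) (x y : A → ℕ → ℝ) (hxy : ∀ i, ∀ j < n, x i j ≤ y i j)
    (hval : ∀ i, ∀ j < n, ∀ z : W, Dom (z • upath μ P n η t (t j)) →
      R.Le (z * ζ i j) (z * η j) ∧ R.Le (z * η (j + 1)) (z * ζ i j))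
    (hend : ∀ i, ∑ j ∈ range n,
      (x i j • (η j • μ - ζ i j • μ) + y i j • (ζ i j • μ - η (j + 1) • μ)) = 0)
    (hbal : ∀ j < n, ∑ i,
      p i • (x i j • (η j • μ - ζ i j • μ) + y i j • (ζ i j • μ - η (j + 1) • μ)) = 0) :
    ∀ i, ∀ j < n, (x i j = 0 ∨ ζ i j = η j) ∧ (y i j = 0 ∨ ζ i j = η (j + 1)) := by
  classical
  have hcont := continuous_upath μ P n η t
  have hμd : Dom μ := fun i => (hμ i).le
  -- choice of a small parameter
  have ev1 : ∀ᶠ ε in nhdsWithin (0:ℝ) (Set.Ioi 0),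
      ∀ i, R.UValid μ P (2 * n) (dblW η (ζ i)) (dblT t (x i) (y i) ε) := by
    rw [Filter.eventually_all]
    intro i
    obtain ⟨ε0, h0, h1⟩ := R.dbl_valid hG (ζ i) (x i) (y i) (hxy i) (hval i)
    filter_upwards [Ioo_mem_nhdsGT h0] with ε hε using h1 ε hε.1 hε.2
  have key : ∀ (j : ℕ) (c : ℝ), ∀ᶠ ε in nhdsWithin (0:ℝ) (Set.Ioi 0), ∀ τ, |τ - t j| ≤ |ε * c| →
      ∀ z : W, Dom (z • upath μ P n η t τ) → Dom (z • upath μ P n η t (t j)) := by
    intro j c
    obtain ⟨δ, hδ, hδ'⟩ := near_dom (W := W) (upath μ P n η t (t j))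
    obtain ⟨γ, hγ, hγ'⟩ := Metric.continuous_iff.mp hcont (t j) δ hδ
    have hc : Filter.Tendsto (fun ε : ℝ => |ε * c|) (nhdsWithin 0 (Set.Ioi 0)) (nhds 0) := by
      have h : Continuous fun ε : ℝ => |ε * c| := by fun_prop
      have h2 := h.tendsto 0
      simp only [zero_mul, abs_zero] at h2
      exact h2.mono_left nhdsWithin_le_nhds
    filter_upwards [hc.eventually (gt_mem_nhds hγ)] with ε hε τ hτ
    exact hδ' _ (hγ' τ (by rw [Real.dist_eq]; exact lt_of_le_of_lt hτ hε))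
  have ev2 : ∀ᶠ ε in nhdsWithin (0:ℝ) (Set.Ioi 0), ∀ i, ∀ j ∈ range n,
      (∀ τ, |τ - t j| ≤ |ε * x i j| →
        ∀ z : W, Dom (z • upath μ P n η t τ) → Dom (z • upath μ P n η t (t j))) ∧
      (∀ τ, |τ - t j| ≤ |ε * y i j| →
        ∀ z : W, Dom (z • upath μ P n η t τ) → Dom (z • upath μ P n η t (t j))) := by
    rw [Filter.eventually_all]
    intro i
    rw [Filter.eventually_all_finset]
    intro j _
    exact (key j (x i j)).and (key j (y i j))
  obtain ⟨ε, ⟨hV, hN⟩, hε⟩ := ((ev1.and ev2).and self_mem_nhdsWithin).exists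
  have hε0 : (0:ℝ) < ε := hε
  -- the new times lie in the unit interval
  have hx01 : ∀ i, ∀ j < n, 0 ≤ t j + ε * x i j ∧ t j + ε * x i j ≤ 1 := by
    intro i j hj
    have h := (hV i).2.1 (2 * j) (by omega)
    have e1 : 2 * j % 2 = 0 := by omega
    have e2 : 2 * j / 2 = j := by omega
    simpa only [dblT, e1, e2, if_true] using h
  have hy01 : ∀ i, ∀ j < n, 0 ≤ t j + ε * y i j ∧ t j + ε * y i j ≤ 1 := by
    intro i j hj
    have h := (hV i).2.1 (2 * j + 1) (by omega)
    have e1 : ¬ (2 * j + 1) % 2 = 0 := by omega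
    have e2 : (2 * j + 1) / 2 = j := by omega
    simpa only [dblT, e1, e2, if_false] using h
  -- the end point is kept
  have hE : ∀ i, upath μ P (2 * n) (dblW η (ζ i)) (dblT t (x i) (y i) ε) 1 =
      upath μ P n η t 1 := by
    intro i
    rw [upath_dbl]
    have h : ∑ j ∈ range n, ((min 1 (t j + ε * x i j) - min 1 (t j)) • (η j • μ - ζ i j • μ) +
        (min 1 (t j + ε * y i j) - min 1 (t j)) • (ζ i j • μ - η (j + 1) • μ)) =
        ε • ∑ j ∈ range n,
          (x i j • (η j • μ - ζ i j • μ) + y i j • (ζ i j • μ - η (j + 1) • μ)) := by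
      rw [smul_sum]
      refine sum_congr rfl fun j hj => ?_
      have hj' := mem_range.mp hj
      rw [min_eq_right (hx01 i j hj').2, min_eq_right (hy01 i j hj').2,
        min_eq_right (hG.2.1 j hj').2.le, add_sub_cancel_left, add_sub_cancel_left, smul_add,
        smul_smul, smul_smul]
    rw [h, hend i, smul_zero, add_zero]
  have hle : ∀ i, R.Psi μ P (2 * n) (dblW η (ζ i)) (dblT t (x i) (y i) ε) ≤ R.Psi μ P n η t := by
    intro i
    refine hmax.2 _ _ _ (hV i) ?_
    rw [hE i]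
    exact hmax.1
  -- pointwise comparison
  have hpt : ∀ τ, ∃ u v : A → ℕ → ℝ,
      R.fabs (upath μ P n η t τ) + ∑ i, ∑ j ∈ range n, p i * (u i j + v i j) ≤
        ∑ i, p i * R.fabs (upath μ P (2 * n) (dblW η (ζ i)) (dblT t (x i) (y i) ε) τ) ∧
      (∀ i, ∀ j ∈ range n, 0 ≤ u i j ∧ 0 ≤ v i j) ∧
      (∀ i, ∀ j ∈ range n, 0 < varD τ (t j) (ε * x i j) → ζ i j ≠ η j → 0 < u i j) ∧
      (∀ i, ∀ j ∈ range n, 0 < varD τ (t j) (ε * y i j) → ζ i j ≠ η (j + 1) → 0 < v i j) := by
    intro τ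
    obtain ⟨z, hz⟩ := R.exists_dom (upath μ P n η t τ)
    let g : (I → ℝ) →ₗ[ℝ] ℝ := R.ht ∘ₗ DistribSMul.toLinearMap ℝ (I → ℝ) z
    have hg : ∀ w, g w = R.ht (z • w) := fun w => rfl
    have hgs : ∀ a b : W, -g (a • μ - b • μ) = R.ht ((z * b) • μ) - R.ht ((z * a) • μ) := by
      intro a b
      rw [map_sub, hg, hg, mul_smul, mul_smul]
      ring
    refine ⟨fun i j => varD τ (t j) (ε * x i j) * (-g (η j • μ - ζ i j • μ)),
      fun i j => varD τ (t j) (ε * y i j) * (-g (ζ i j • μ - η (j + 1) • μ)), ?_, ?_, ?_, ?_⟩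
    · have h0 : R.fabs (upath μ P n η t τ) = g (upath μ P n η t τ) := by
        rw [hg, ← R.fabs_of_dom hz, R.fabs_smul]
      rw [h0, ← var_avg p hp1 ζ x y hbal g ε τ]
      refine sum_le_sum fun i _ => mul_le_mul_of_nonneg_left ?_ (hp i).le
      rw [hg, ← R.fabs_smul z]
      exact R.ht_le_fabs _
    · intro i j hj
      have hj' := mem_range.mp hj
      constructor
      · by_cases hd : varD τ (t j) (ε * x i j) = 0
        · simp only [hd, zero_mul, le_refl]
        · refine mul_nonneg (varD_nonneg _ _ _) ?_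
          have h := (hval i j hj' z ((hN i j hj).1 τ (varD_ne hd) z hz)).1
          rw [hgs]
          exact sub_nonneg.mpr (R.ht_le_of_le h hμd)
      · by_cases hd : varD τ (t j) (ε * y i j) = 0
        · simp only [hd, zero_mul, le_refl]
        · refine mul_nonneg (varD_nonneg _ _ _) ?_
          have h := (hval i j hj' z ((hN i j hj).2 τ (varD_ne hd) z hz)).2
          rw [hgs]
          exact sub_nonneg.mpr (R.ht_le_of_le h hμd)
    · intro i j hj hd hne
      refine mul_pos hd ?_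
      have h := (hval i j (mem_range.mp hj) z ((hN i j hj).1 τ (varD_ne hd.ne') z hz)).1
      rw [hgs]
      exact sub_pos.mpr (R.ht_lt_of_le h (fun e => hne (mul_left_cancel e)) hμ)
    · intro i j hj hd hne
      refine mul_pos hd ?_
      have h := (hval i j (mem_range.mp hj) z ((hN i j hj).2 τ (varD_ne hd.ne') z hz)).2
      rw [hgs]
      exact sub_pos.mpr (R.ht_lt_of_le h (fun e => hne (mul_left_cancel e).symm) hμ)
  have hc1 : Continuous fun τ => R.fabs (upath μ P n η t τ) := R.continuous_fabs.comp hcont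
  have hc2 : ∀ i, Continuous fun τ =>
      p i * R.fabs (upath μ P (2 * n) (dblW η (ζ i)) (dblT t (x i) (y i) ε) τ) := fun i =>
    continuous_const.mul (R.continuous_fabs.comp (continuous_upath _ _ _ _ _))
  have hweak : ∀ τ, R.fabs (upath μ P n η t τ) ≤
      ∑ i, p i * R.fabs (upath μ P (2 * n) (dblW η (ζ i)) (dblT t (x i) (y i) ε) τ) := by
    intro τ
    obtain ⟨u, v, h1, h2, -, -⟩ := hpt τ
    have h3 : 0 ≤ ∑ i, ∑ j ∈ range n, p i * (u i j + v i j) :=
      sum_nonneg fun i _ => sum_nonneg fun j hj =>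
        mul_nonneg (hp i).le (add_nonneg (h2 i j hj).1 (h2 i j hj).2)
    linarith
  -- no point of the unit interval has a strict inequality
  have hno : ∀ τ ∈ Set.Icc (0:ℝ) 1, ¬ R.fabs (upath μ P n η t τ) <
      ∑ i, p i * R.fabs (upath μ P (2 * n) (dblW η (ζ i)) (dblT t (x i) (y i) ε) τ) := by
    intro τ hτ hlt
    have h1 := intervalIntegral.integral_lt_integral_of_continuousOn_of_le_of_exists_lt
      (a := (0:ℝ)) (b := 1) one_pos hc1.continuousOn
      (continuous_finsetSum univ fun i _ => hc2 i).continuousOn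
      (fun s _ => hweak s) ⟨τ, hτ, hlt⟩
    rw [intervalIntegral.integral_finsetSum fun i _ => (hc2 i).intervalIntegrable 0 1] at h1
    have h2 : ∑ i, ∫ s in (0:ℝ)..1,
        p i * R.fabs (upath μ P (2 * n) (dblW η (ζ i)) (dblT t (x i) (y i) ε) s) ≤
        ∑ i, p i * R.Psi μ P n η t := by
      refine sum_le_sum fun i _ => ?_
      rw [intervalIntegral.integral_const_mul]
      exact mul_le_mul_of_nonneg_left (hle i) (hp i).le
    rw [← sum_mul, hp1, one_mul] at h2
    exact absurd (lt_of_lt_of_le h1 h2) (lt_irrefl _)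
  have hstrict : ∀ (u v : A → ℕ → ℝ), (∀ i, ∀ j ∈ range n, 0 ≤ u i j ∧ 0 ≤ v i j) →
      ∀ i, ∀ j ∈ range n, 0 < u i j + v i j →
      0 < ∑ i, ∑ j ∈ range n, p i * (u i j + v i j) := by
    intro u v h2 i j hj hpos
    have hn : ∀ i, ∀ j ∈ range n, 0 ≤ p i * (u i j + v i j) := fun i j hj =>
      mul_nonneg (hp i).le (add_nonneg (h2 i j hj).1 (h2 i j hj).2)
    exact sum_pos' (fun i _ => sum_nonneg (hn i))
      ⟨i, mem_univ _, sum_pos' (hn i) ⟨j, hj, mul_pos (hp i) hpos⟩⟩
  intro i j hj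
  have hjr := mem_range.mpr hj
  have ht01 := hG.2.1 j hj
  constructor
  · by_contra hcon
    push Not at hcon
    have hτ : t j + ε * x i j / 2 ∈ Set.Icc (0:ℝ) 1 := by
      have := hx01 i j hj
      constructor <;> linarith [this.1, this.2, ht01.1, ht01.2]
    obtain ⟨u, v, h1, h2, h3, -⟩ := hpt (t j + ε * x i j / 2)
    have h4 := h3 i j hjr (varD_pos _ (mul_ne_zero hε0.ne' hcon.1)) hcon.2
    have h5 := hstrict u v h2 i j hjr (by linarith [(h2 i j hjr).2])
    exact hno _ hτ (by linarith)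
  · by_contra hcon
    push Not at hcon
    have hτ : t j + ε * y i j / 2 ∈ Set.Icc (0:ℝ) 1 := by
      have := hy01 i j hj
      constructor <;> linarith [this.1, this.2, ht01.1, ht01.2]
    obtain ⟨u, v, h1, h2, -, h3⟩ := hpt (t j + ε * y i j / 2)
    have h4 := h3 i j hjr (varD_pos _ (mul_ne_zero hε0.ne' hcon.1)) hcon.2
    have h5 := hstrict u v h2 i j hjr (by linarith [(h2 i j hjr).1])
    exact hno _ hτ (by linarith)

end RD

end Pool.Agent.Lib.MP_1e3767_al
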